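import Pool.Agent.P.MP_e7d440_ag.Z.BaseA
import Pool.Agent.P.MP_e7d440_ag.Gr

/-! Commutative algebra: the Cohen-Macaulay property by deformation to characteristic `p`. -/

namespace Pool.Agent.P.MP_e7d440_ag.Z

open IsLocalRing MvPolynomial U

noncomputable section

/-! ## Definitions -/

/-- the residues of `z` modulo `𝔮` are algebraically independent over `O / π` -/
def RIq {O A ν : Type} [CommRing O] [CommRing A] [Algebra O A] (π : O) (𝔮 : Ideal A)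
    (z : ν → A) : Prop :=
  ∀ F : MvPolynomial ν O, aeval z F ∈ 𝔮 → C π ∣ F

/-- the residue field of `𝔮` has transcendence degree at least `m` over `O / π` -/
def Td {O A : Type} [CommRing O] [CommRing A] [Algebra O A] (π : O) (𝔮 : Ideal A) (m : ℕ) :
    Prop :=
  ∃ z : Fin m → A, RIq π 𝔮 z

/-- every element of `S` is a quotient of polynomials in `y` with denominator invertible in `R` -/
def Frc (O : Type) {K σ : Type} [CommRing O] [Field K] [Algebra O K] (y : σ → K) (R : Set K)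
    (γ : K) : Prop :=
  ∃ F G : MvPolynomial σ O, aeval y G ≠ 0 ∧ (aeval y G)⁻¹ ∈ R ∧ γ * aeval y G = aeval y F

/-- the local ring of `A` at `𝔮` is a localization of `O[y]` -/
def PCh (O : Type) {A K σ : Type} [CommRing O] [CommRing A] [Field K] [Algebra O K] [Algebra A K]
    (𝔮 : Ideal A) (y : σ → K) : Prop :=
  (∀ b, loc (algebraMap A K) 𝔮 (y b)) ∧
    ∀ a : A, Frc O y {γ | loc (algebraMap A K) 𝔮 γ} (algebraMap A K a)

/-- `A / π` has depth at least two at `𝔮` -/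
def Dep2 {A : Type} [CommRing A] (π : A) (𝔮 : Ideal A) : Prop :=
  ∃ a ∈ 𝔮, ∃ b ∈ 𝔮, (∀ g, π ∣ a * g → ∃ r, r ∉ 𝔮 ∧ π ∣ r * g) ∧
    ∀ g, b * g ∈ Ideal.span {π, a} → ∃ r, r ∉ 𝔮 ∧ r * g ∈ Ideal.span {π, a}

/-- multiplication by `c` factors through a finite free module -/
def Fac {A : Type} (M : Type) [CommRing A] [AddCommGroup M] [Module A M] (c : A) : Prop :=
  ∃ (n : ℕ) (α : M →ₗ[A] (Fin n → A)) (β : (Fin n → A) →ₗ[A] M), ∀ m, β (α m) = c • m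

/-- the relations between the `g i` are homogeneous for the weights `w` -/
def HomRel (O : Type) {K γ M : Type} [CommRing O] [CommRing K] [Algebra O K] [AddCommMonoid M]
    (w : γ → M) (g : γ → K) : Prop :=
  ∀ F : MvPolynomial γ O, aeval g F = 0 → ∀ n, aeval g (weightedHomogeneousComponent w n F) = 0

/-- `V` is the centre of `𝔮` -/
def Cen {A K : Type} [CommRing A] [Field K] [Algebra A K] (𝔮 : Ideal A)
    (V : ValuationSubring K) : Prop :=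
  (∀ a, algebraMap A K a ∈ V) ∧ ∀ a, algebraMap A K a ∈ V.nonunits ↔ a ∈ 𝔮

/-- a subring containing the image of `O` and the family `y` -/
def Has (O : Type) {K σ : Type} [CommRing O] [Field K] [Algebra O K] (S : Subring K)
    (y : σ → K) : Prop :=
  (∀ o, algebraMap O K o ∈ S) ∧ ∀ b, y b ∈ S

/-- the residue field of `O` is perfect of characteristic `p` -/
structure Perf {O : Type} [CommRing O] (π : O) (p : ℕ) : Prop where
  irr : Irreducible π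
  prime : p.Prime
  dvd : π ∣ (p : O)
  root : ∀ o : O, ∃ o', π ∣ o - o' ^ p

/-! ## Frobenius -/

-- deps:
structure S_FROB : Prop where
  dec : ∀ (k σ : Type) [Field k] (p : ℕ) [Fact p.Prime] [CharP k p] [PerfectRing k p] [Fintype σ]
    (e : ℕ), ∃ (ι : Type) (_ : Fintype ι) (m : ι → MvPolynomial σ k)
      (Λ : ι → MvPolynomial σ k →+ MvPolynomial σ k),
      (∀ i G F, Λ i (G ^ p ^ e * F) = G * Λ i F) ∧ ∀ F, F = ∑ i, Λ i F ^ p ^ e * m i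
  one : ∀ (k σ : Type) [Field k] (p : ℕ) [Fact p.Prime] [CharP k p] [PerfectRing k p] [Fintype σ]
    (F : MvPolynomial σ k), F ≠ 0 → ∃ (e : ℕ) (Λ : MvPolynomial σ k →+ MvPolynomial σ k),
      (∀ G F', Λ (G ^ p ^ e * F') = G * Λ F') ∧ Λ F = 1

-- deps: FROB
def S_SYZ : Prop := ∀ (k τ T : Type) [Field k] (p : ℕ) [Fact p.Prime] [CharP k p]
  [PerfectRing k p] [Fintype τ] [CommRing T] [Algebra (MvPolynomial τ k) T]
  (c : MvPolynomial τ k), Fac T c → ∀ (l : ℕ) (a : Fin l → MvPolynomial τ k) (z : Fin l → T),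
    ∑ j, a j • z j = 0 → ∀ e : ℕ, ∃ (n : ℕ) (b : Fin l → Fin n → MvPolynomial τ k)
      (v : Fin n → T), (∀ i, ∑ j, a j * b j i = 0) ∧
        ∀ j, c • z j ^ p ^ e = ∑ i, b j i ^ p ^ e • v i

-- deps: FROB
def S_PSI : Prop := ∀ (k σ T : Type) [Field k] (p : ℕ) [Fact p.Prime] [CharP k p]
  [PerfectRing k p] [Fintype σ] [CommRing T] (φ : MvPolynomial σ k →+* T),
    Function.Injective φ → (∀ t : T, ∃ F G, IsUnit (φ G) ∧ t * φ G = φ F) → ∀ c : T, c ≠ 0 →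
    ∃ (e : ℕ) (Ψ : T →+ T), (∀ a b, Ψ (a ^ p ^ e * b) = a * Ψ b) ∧ Ψ c = 1

-- deps:
def S_CART : Prop := ∀ (O E σ : Type) [CommRing O] [Field E] [Algebra O E] [Fintype σ]
  [DecidableEq σ] (p : ℕ) [Fact p.Prime] [CharP E p] (x : σ → E) (D : σ → Derivation O E E),
    (∀ o : O, ∃ o', algebraMap O E o = algebraMap O E o' ^ p) → Gen O x →
    (∀ a b, D a (x b) = if a = b then 1 else 0) →
    ∃ Ca : E →+ E, (∀ a b, Ca (a ^ p * b) = a * Ca b) ∧ ∀ y : σ → E,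
      Ca ((∏ a, y a ^ (p - 1)) * wr D y) = wr D y ∧
      ∀ F : MvPolynomial σ O, ∃ F' : MvPolynomial σ O,
        Ca (aeval y F * wr D y) = aeval y F' * wr D y

-- deps: CART
def S_SPL : Prop := ∀ (O K σ : Type) [CommRing O] [IsDomain O] [IsDiscreteValuationRing O]
  [Field K] [Algebra O K] [Fintype σ] [DecidableEq σ] (π : O) (p : ℕ) (V : ValuationSubring K)
  (D : σ → Derivation O K K) (g x : σ → K) (s : V), Perf π p →
    Function.Injective (algebraMap O K) → Has O V.toSubring x →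
    algebraMap O K π ∈ V.nonunits → RI π V x → (∀ γ ∈ V, Frc O x V γ) →
    (∀ a, g a ≠ 0) → lwr D g ≠ 0 → (s : K) ∉ V.nonunits →
    (∃ w ∈ V, wr D x = w * (s * lwr D g)) →
    ∃ ψ : ResidueField V →+ ResidueField V, (∀ a b, ψ (a ^ p * b) = a * ψ b) ∧
      (∀ z, ψ (residue V s ^ (p - 1) * z ^ p) = z) ∧
      ∀ (S : Subring K) (y : σ → K), (∀ γ ∈ S, γ ∈ V) → Has O S y → (∀ γ ∈ S, Frc O y S γ) →
        (∀ γ ∈ V, ∃ a ∈ S, ∃ b ∈ S, b ∉ V.nonunits ∧ γ * b = a) →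
        (∃ w ∈ S, wr D y = w * (s * lwr D g)) →
        ∀ v : V, (v : K) ∈ S → ∃ v' : V, (v' : K) ∈ S ∧ ψ (residue V v) = residue V v'

-- deps: PSI
def S_LOC : Prop := ∀ (O N K σ : Type) [CommRing O] [IsDomain O] [IsDiscreteValuationRing O]
  [CommRing N] [Field K] [Algebra O N] [Algebra O K] [Algebra N K] [IsScalarTower O N K]
  [Fintype σ] (π : O) (p : ℕ) (𝔮 : Ideal N) (y : σ → K) (c : N), Perf π p →
    Function.Injective (algebraMap N K) → 𝔮.IsPrime → algebraMap O N π ∈ 𝔮 →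
    AlgebraicIndependent O y → PCh O 𝔮 y → (∀ r, r ∉ 𝔮 → ¬ algebraMap O N π ∣ r * c) →
    ∃ e : ℕ, ∀ (l n : ℕ) (z : Fin l → N) (b : Fin l → Fin n → N) (v : Fin n → N),
      (∀ j, algebraMap O N π ∣ c * z j ^ p ^ e - ∑ i, b j i ^ p ^ e * v i) →
      ∃ r, r ∉ 𝔮 ∧ ∃ v' : Fin n → N, ∀ j, algebraMap O N π ∣ r * z j - ∑ i, b j i * v' i

/-! ## Modules -/

-- deps:
structure S_FACT : Prop where
  fact : ∀ (A M : Type) [CommRing A] [IsNoetherianRing A] [AddCommGroup M] [Module A M]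
    [Module.Finite A M] (W : Submonoid A),
      (∀ (l : ℕ) (a : Fin l → A) (z : Fin l → M), ∑ j, a j • z j = 0 → ∃ c ∈ W,
        ∃ (n : ℕ) (b : Fin l → Fin n → A) (v : Fin n → M), (∀ i, ∑ j, a j * b j i = 0) ∧
          ∀ j, c • z j = ∑ i, b j i • v i) → ∃ c ∈ W, Fac M c
  gen : ∀ (A M : Type) [CommRing A] [IsDomain A] [IsNoetherianRing A] [AddCommGroup M]
    [Module A M] [Module.Finite A M], ∃ c : A, c ≠ 0 ∧ Fac M c

-- deps:
def S_LA : Prop := ∀ (A B M G : Type) [CommRing A] [IsNoetherianRing A] [CommRing B]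
  [Algebra A B] [AddCommGroup M] [Module A M] [Module.Finite A M] [AddCommGroup G] [Module A G]
  (π x₁ x₂ x₃ : A) (n : ℕ) (ι : M →ₗ[A] G) (α : G →ₗ[A] (Fin n → B)) (β : (Fin n → B) →ₗ[A] G),
    Function.Surjective (algebraMap A B) → (∀ a, algebraMap A B a = 0 ↔ π ∣ a) →
    (∀ a : A, π * a = 0 → a = 0) → (∀ m : M, π • m = 0 → m = 0) →
    (∀ m : M, ι m = 0 ↔ ∃ m' : M, m = π • m') → (∀ g : G, β (α g) = g) →
    RegSeq (Ideal.span {π}) [x₁, x₂, x₃] →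
    (∀ g : G, x₁ • g ∈ LinearMap.range ι ∧ x₂ • g ∈ LinearMap.range ι ∧ x₃ • g ∈ LinearMap.range ι) →
    ∀ χ : G →ₗ[A] B, ∃ w : M →ₗ[A] A, ∀ m, algebraMap A B (w m) = χ (ι m)

-- deps: LA
def S_LB : Prop := ∀ (A B M G : Type) [CommRing A] [IsNoetherianRing A] [CommRing B]
  [Algebra A B] [AddCommGroup M] [Module A M] [Module.Finite A M] [AddCommGroup G] [Module A G]
  (π x₁ x₂ x₃ : A) (n : ℕ) (ι : M →ₗ[A] G) (α : G →ₗ[A] (Fin n → B)) (β : (Fin n → B) →ₗ[A] G),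
    Function.Surjective (algebraMap A B) → (∀ a, algebraMap A B a = 0 ↔ π ∣ a) →
    (∀ a : A, π * a = 0 → a = 0) → (∀ m : M, π • m = 0 → m = 0) →
    (∀ m : M, ι m = 0 ↔ ∃ m' : M, m = π • m') → (∀ g : G, β (α g) = g) →
    RegSeq (Ideal.span {π}) [x₁, x₂, x₃] →
    (∀ g : G, x₁ • g ∈ LinearMap.range ι ∧ x₂ • g ∈ LinearMap.range ι ∧ x₃ • g ∈ LinearMap.range ι) →
    (∀ ξ : (M →ₗ[A] A) →ₗ[A] A, ∃ m, ∀ w, ξ w = w m) →
    Function.Surjective ι ∧ ∃ r : A, π ∣ r - 1 ∧ Fac M r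

-- deps: FACT
def S_REFL : Prop := ∀ (P N : Type) [CommRing P] [IsDomain P] [IsNoetherianRing P] [CommRing N]
  [IsDomain N] [IsIntegrallyClosed N] [Algebra P N] [Module.Finite P N],
    Function.Injective (algebraMap P N) → ∀ ξ : (N →ₗ[P] P) →ₗ[P] P, ∃ m, ∀ w, ξ w = w m

/-! ## Transcendence degree and height -/

-- deps:
structure S_TD : Prop where
  mono : ∀ {O A : Type} [CommRing O] [CommRing A] [Algebra O A] {π : O} {𝔮 𝔮' : Ideal A}
    {m m' : ℕ}, 𝔮 ≤ 𝔮' → m ≤ m' → Td π 𝔮' m' → Td π 𝔮 m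
  card : ∀ {O A ν : Type} [CommRing O] [CommRing A] [Algebra O A] [Fintype ν] {π : O}
    {𝔮 : Ideal A} {z : ν → A}, RIq π 𝔮 z → Td π 𝔮 (Fintype.card ν)
  succ : ∀ {O A : Type} [CommRing O] [CommRing A] [Algebra O A] {π : O} {𝔮 𝔮' : Ideal A}
    {m : ℕ}, 𝔮.IsPrime → 𝔮 < 𝔮' → algebraMap O A π ∈ 𝔮 → Td π 𝔮' m → Td π 𝔮 (m + 1)
  exch : ∀ {O E σ ν : Type} [CommRing O] [IsDomain O] [IsDiscreteValuationRing O] [Field E]
    [Algebra O E] [Fintype σ] [Fintype ν] {π : O} (y : σ → E) (z : ν → E), Irreducible π →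
      algebraMap O E π = 0 → RIq π ⊥ z →
      (∀ i, IsAlgebraic (Algebra.adjoin O (Set.range y)) (z i)) →
      ∃ ι : ν ↪ σ, RIq π ⊥ fun i => y (ι i)
  int : ∀ {O A A' : Type} [CommRing O] [IsDomain O] [IsDiscreteValuationRing O] [CommRing A]
    [CommRing A'] [Algebra O A] [Algebra O A'] [Algebra A A'] [IsScalarTower O A A']
    [Algebra.FiniteType O A] [Algebra.IsIntegral A A'] {π : O} {𝔮 : Ideal A'} {m : ℕ},
      Irreducible π → 𝔮.IsPrime → algebraMap O A' π ∈ 𝔮 →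
      (Td π 𝔮 m ↔ Td π (𝔮.comap (algebraMap A A')) m)
  ht : ∀ {O σ : Type} [CommRing O] [IsDomain O] [IsDiscreteValuationRing O] [Fintype σ] {π : O}
    {𝔭 : Ideal (MvPolynomial σ O)} {m j : ℕ}, Irreducible π → 𝔭.IsPrime → C π ∈ 𝔭 →
      ¬ Td π 𝔭 m → m + j ≤ Fintype.card σ + 1 → ((j + 1 : ℕ) : ℕ∞) ≤ 𝔭.height

-- deps:
def S_GRADE : Prop := ∀ (O τ : Type) [CommRing O] [IsDomain O] [IsDiscreteValuationRing O]
  [Fintype τ] (π : O) (j : ℕ) (𝔠 : Ideal (MvPolynomial τ O)), Irreducible π →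
    (∀ 𝔭 : Ideal (MvPolynomial τ O), 𝔭.IsPrime → C π ∈ 𝔭 → 𝔠 ≤ 𝔭 →
      ((j + 1 : ℕ) : ℕ∞) ≤ 𝔭.height) →
    ∃ l : List (MvPolynomial τ O), l.length = j ∧ (∀ x ∈ l, x ∈ 𝔠) ∧
      RegSeq (Ideal.span {C π}) l

-- deps:
def S_DEP : Prop := ∀ (Q N K : Type) [CommRing Q] [CommRing N] [Field K]
  [Algebra N K] (φ : Q →+* K) (𝔓 : Ideal Q) (𝔮 : Ideal N) (π' : Q) (π : N),
    Function.Injective φ → Function.Injective (algebraMap N K) → 𝔓.IsPrime →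
    𝔮.IsPrime → φ π' = algebraMap N K π → (∀ γ, loc φ 𝔓 γ ↔ loc (algebraMap N K) 𝔮 γ) →
    Dep2 π' 𝔓 → Dep2 π 𝔮

-- deps: TD GRADE DEP
def S_PDEP : Prop := ∀ (O N K σ : Type) [CommRing O] [IsDomain O] [IsDiscreteValuationRing O]
  [CommRing N] [Field K] [Algebra O N] [Algebra O K] [Algebra N K] [IsScalarTower O N K]
  [Algebra.FiniteType O N] [Fintype σ] (π : O) (e : ℕ) (𝔮 : Ideal N) (y : σ → K),
    Irreducible π → Function.Injective (algebraMap N K) → 𝔮.IsPrime → algebraMap O N π ∈ 𝔮 →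
    AlgebraicIndependent O y → PCh O 𝔮 y → Fintype.card σ = e + 2 → ¬ Td π 𝔮 (e + 1) →
    Dep2 (algebraMap O N π) 𝔮

/-! ## The hull of the special fibre -/

section core
variable {O N T : Type} (k τ : Type) [CommRing O] [Field k] [Algebra O k] [CommRing N]
  [Algebra O N] [Algebra (MvPolynomial τ O) N] [CommRing T] [Algebra (MvPolynomial τ k) T]

/-- `N` is finite over a polynomial ring and `N / π` embeds in a torsion free algebra `T` -/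
structure Ctx (π : O) (ρ : N →+* T) : Prop where
  irr : Irreducible π
  sur : Function.Surjective (algebraMap O k)
  kil : algebraMap O k π = 0
  fin : Module.Finite (MvPolynomial τ O) N
  com : ∀ F, algebraMap (MvPolynomial τ k) T (map (algebraMap O k) F) =
    ρ (algebraMap (MvPolynomial τ O) N F)
  ker : ∀ a, ρ a = 0 ↔ algebraMap O N π ∣ a
  nzd : ∀ (c : MvPolynomial τ k) (t : T), c ≠ 0 → c • t = 0 → t = 0
  nt : Nontrivial T

end core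

/-- `z` lies in the localization of the image of `ρ` at `𝔮` -/
def InL {N T : Type} [CommRing N] [CommRing T] (ρ : N →+* T) (𝔮 : Ideal N) (z : T) : Prop :=
  ∃ r, r ∉ 𝔮 ∧ ∃ a, ρ r * z = ρ a

/-- `z` lies in the localizations at all large primes -/
def Hul {O N T : Type} [CommRing O] [CommRing N] [Algebra O N] [CommRing T] (π : O)
    (ρ : N →+* T) (m : ℕ) (z : T) : Prop :=
  ∀ 𝔮 : Ideal N, 𝔮.IsPrime → algebraMap O N π ∈ 𝔮 → Td π 𝔮 m → InL ρ 𝔮 z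

-- deps: TD FACT
def S_CFIN : Prop := ∀ (O k τ N T : Type) [CommRing O] [IsDomain O] [IsDiscreteValuationRing O]
  [Field k] [Algebra O k] [Fintype τ] [CommRing N] [Algebra O N] [Algebra (MvPolynomial τ O) N]
  [IsScalarTower O (MvPolynomial τ O) N] [CommRing T] [Algebra (MvPolynomial τ k) T] (π : O)
  (ρ : N →+* T) (e : ℕ) (S : Subalgebra (MvPolynomial τ k) T), Ctx k τ π ρ →
    Fintype.card τ = e + 1 → (∀ z ∈ S, Hul π ρ e z) →
    Module.Finite (MvPolynomial τ k) S ∧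
      ∀ z ∈ S, ∃ c : MvPolynomial τ k, c ≠ 0 ∧ ∃ a, c • z = ρ a

-- deps: TD
def S_CS2 : Prop := ∀ (O k τ N T : Type) [CommRing O] [IsDomain O] [IsDiscreteValuationRing O]
  [Field k] [Algebra O k] [Fintype τ] [CommRing N] [Algebra O N] [Algebra (MvPolynomial τ O) N]
  [IsScalarTower O (MvPolynomial τ O) N] [CommRing T] [Algebra (MvPolynomial τ k) T] (π : O)
  (ρ : N →+* T) (m : ℕ) (z : T) (𝔮 : Ideal N), Ctx k τ π ρ → Hul π ρ m z →
    (∃ c : MvPolynomial τ k, c ≠ 0 ∧ ∃ a, c • z = ρ a) → 𝔮.IsPrime → algebraMap O N π ∈ 𝔮 →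
    (∀ 𝔮' : Ideal N, 𝔮'.IsPrime → algebraMap O N π ∈ 𝔮' → 𝔮' ≤ 𝔮 → ¬ Td π 𝔮' m →
      Dep2 (algebraMap O N π) 𝔮') → InL ρ 𝔮 z

/-- the conclusion of `S_LOC` for all admissible `c` -/
def LocF {N : Type} [CommRing N] (π : N) (p : ℕ) (𝔮 : Ideal N) : Prop :=
  ∀ c : N, (∀ r, r ∉ 𝔮 → ¬ π ∣ r * c) →
    ∃ e : ℕ, ∀ (l n : ℕ) (z : Fin l → N) (b : Fin l → Fin n → N) (v : Fin n → N),
      (∀ j, π ∣ c * z j ^ p ^ e - ∑ i, b j i ^ p ^ e * v i) →
      ∃ r, r ∉ 𝔮 ∧ ∃ v' : Fin n → N, ∀ j, π ∣ r * z j - ∑ i, b j i * v' i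

-- deps: SYZ FACT
def S_CFR : Prop := ∀ (O k τ N T : Type) [CommRing O] [IsDomain O] [IsDiscreteValuationRing O]
  [Field k] [Algebra O k] [Fintype τ] [CommRing N] [Algebra O N] [Algebra (MvPolynomial τ O) N]
  [IsScalarTower O (MvPolynomial τ O) N] [CommRing T] [Algebra (MvPolynomial τ k) T] (π : O)
  (p : ℕ) [Fact p.Prime] [CharP k p] [PerfectRing k p] (ρ : N →+* T) (i₀ : τ)
  (R : Subalgebra (MvPolynomial τ k) T), Ctx k τ π ρ → (∀ z, z ∈ R ↔ ∃ a, ρ a = z) →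
    (∀ 𝔮 : Ideal N, 𝔮.IsPrime → algebraMap O N π ∈ 𝔮 →
      algebraMap (MvPolynomial τ O) N (X i₀) ∉ 𝔮 → LocF (algebraMap O N π) p 𝔮) →
    ∃ M : ℕ, Fac R ((X i₀ : MvPolynomial τ k) ^ M)

-- deps: SYZ FACT
def S_CFS : Prop := ∀ (k τ T : Type) [Field k] [Fintype τ] [CommRing T]
  [Algebra (MvPolynomial τ k) T] (p : ℕ) [Fact p.Prime] [CharP k p] [PerfectRing k p]
  (s : MvPolynomial τ k) (M : ℕ) (ψ : T →+ T), Module.Finite (MvPolynomial τ k) T →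
    (∀ a b, ψ (a ^ p * b) = a * ψ b) → (∀ z, ψ (s ^ (p - 1) • z ^ p) = z) → Fac T (s ^ M) →
    Fac T (1 : MvPolynomial τ k)

-- deps: TD GRADE LB REFL CFIN CS2 CFR CFS
def S_CORE : Prop := ∀ (O k τ N T : Type) [CommRing O] [IsDomain O] [IsDiscreteValuationRing O]
  [Field k] [Algebra O k] [Fintype τ] [CommRing N] [IsDomain N] [IsIntegrallyClosed N]
  [Algebra O N] [Algebra (MvPolynomial τ O) N] [IsScalarTower O (MvPolynomial τ O) N]
  [CommRing T] [Algebra (MvPolynomial τ k) T] (π : O) (p : ℕ) [Fact p.Prime] [CharP k p]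
  [PerfectRing k p] (ρ : N →+* T) (i₀ : τ) (e : ℕ) (ψ : T →+ T), Ctx k τ π ρ →
    Function.Injective (algebraMap (MvPolynomial τ O) N) → Fintype.card τ = e + 2 →
    (∀ a b, ψ (a ^ p * b) = a * ψ b) →
    (∀ z, ψ ((X i₀ : MvPolynomial τ k) ^ (p - 1) • z ^ p) = z) →
    (∀ 𝔮 : Ideal N, 𝔮.IsPrime → algebraMap O N π ∈ 𝔮 → Td π 𝔮 (e + 1) →
      ∀ z, InL ρ 𝔮 z → InL ρ 𝔮 (ψ z)) →
    (∀ 𝔮 : Ideal N, 𝔮.IsPrime → algebraMap O N π ∈ 𝔮 →
      algebraMap (MvPolynomial τ O) N (X i₀) ∉ 𝔮 → LocF (algebraMap O N π) p 𝔮) →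
    (∀ 𝔮 : Ideal N, 𝔮.IsPrime → algebraMap O N π ∈ 𝔮 →
      (algebraMap (MvPolynomial τ O) N (X i₀) ∉ 𝔮 ∨ Td π 𝔮 e) → ¬ Td π 𝔮 (e + 1) →
      Dep2 (algebraMap O N π) 𝔮) →
    (∃ r : MvPolynomial τ O, C π ∣ r - 1 ∧ Fac N r) ∧ ∀ z, Hul π ρ (e + 1) z → ∃ a, ρ a = z

-- deps: TD SPL LOC PDEP CORE
def S_MT : Prop := ∀ (O τ N K σ : Type) [CommRing O] [IsDomain O] [IsDiscreteValuationRing O]
  [Fintype τ] [CommRing N] [IsDomain N] [IsIntegrallyClosed N] [Algebra O N]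
  [Algebra (MvPolynomial τ O) N] [IsScalarTower O (MvPolynomial τ O) N]
  [Module.Finite (MvPolynomial τ O) N] [Field K] [Algebra O K] [Algebra N K] [IsScalarTower O N K]
  [IsFractionRing N K] [Fintype σ] [DecidableEq σ] (π : O) (p : ℕ) (i₀ : τ) (e : ℕ)
  (D : σ → Derivation O K K) (g : σ → K) (v : MvPolynomial τ O), Perf π p →
    Function.Injective (algebraMap (MvPolynomial τ O) N) → Fintype.card τ = e + 2 →
    Fintype.card σ = e + 2 → (∀ a, g a ≠ 0) → lwr D g ≠ 0 → Prime (algebraMap O N π) →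
    ¬ C π ∣ X i₀ * v →
    (∀ 𝔮 : Ideal N, 𝔮.IsPrime → algebraMap O N π ∈ 𝔮 → Td π 𝔮 (e + 1) →
      Chart D (algebraMap N K (algebraMap (MvPolynomial τ O) N (X i₀ * v)) * lwr D g) 𝔮) →
    (∀ 𝔮 : Ideal N, 𝔮.IsPrime → algebraMap O N π ∈ 𝔮 →
      algebraMap (MvPolynomial τ O) N (X i₀) ∉ 𝔮 → ∃ y : σ → K, PCh O 𝔮 y) →
    (∀ 𝔮 : Ideal N, 𝔮.IsPrime → algebraMap O N π ∈ 𝔮 →
      algebraMap (MvPolynomial τ O) N (X i₀) ∈ 𝔮 → Td π 𝔮 e → ¬ Td π 𝔮 (e + 1) →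
      Dep2 (algebraMap O N π) 𝔮) →
    (∃ r : MvPolynomial τ O, C π ∣ r - 1 ∧ Fac N r) ∧
      (Ideal.span {algebraMap O N π, algebraMap (MvPolynomial τ O) N (X i₀),
        algebraMap (MvPolynomial τ O) N v}).IsRadical

end

end Pool.Agent.P.MP_e7d440_ag.Z
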