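import Pool.Agent.P.MP_e7d440_ag.Z.IfaceB
import Pool.Agent.P.MP_e7d440_ag.Z.IfaceA
import Pool.Agent.P.MP_e7d440_ag.U.Resd
import Pool.Agent.P.MP_e7d440_ag.Jac

/-! Step ALG2. -/

set_option autoImplicit false
set_option linter.unusedSectionVars false

namespace Pool.Agent.P.MP_e7d440_ag.Z

open IsLocalRing MvPolynomial U GrA

theorem p_ALG2 (hTD : S_TD) (hPDEP : S_PDEP) (hMT : S_MT) (hNCF : S_NCF) (hCHN : S_CHN)
    (hHSOP : S_HSOP) (hSLV : S_SLV) (hSLD : S_SLD) (hPRM : S_PRM) : S_ALG2 := by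
  intro O K _ _ _ _ _ _ p hp _ _ π s u N d hπ hF
  obtain ⟨Z, w, δ, hZ, hN, hsZ, huZ, hG, hw⟩ := hF.gr
  obtain ⟨x, hxG, hxI⟩ := hF.bas
  obtain ⟨D, τ, Y, hD, hc1, hc2⟩ := hF.ch
  obtain ⟨hft, hfr, hic⟩ := hNCF.ft N Z hxI.algebraMap_injective hZ hN hG
  have hs : s ∈ N := (hNCF.int N Z hN).1 hsZ
  have hu : u ∈ N := (hNCF.int N Z hN).1 huZ
  have hNK : Function.Injective (algebraMap N K) := Subtype.val_injective
  have hm : ∀ o, residue O o = 0 ↔ π ∣ o := fun o => by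
    rw [residue_eq_zero_iff, hπ.maximalIdeal_eq, Ideal.mem_span_singleton]
  have hP : Perf π p := ⟨hπ, hp.out, (hm _).1 (by rw [map_natCast, CharP.cast_eq_zero]),
    fun o => by
      obtain ⟨z, hz⟩ := surjective_frobenius (ResidueField O) p (residue O o)
      obtain ⟨o', rfl⟩ := residue_surjective z
      exact ⟨o', (hm _).1 (by rw [map_sub, map_pow, ← hz, frobenius_def, sub_self])⟩⟩
  have hl : ∀ 𝔮 : Ideal N, 𝔮.IsPrime → algebraMap O N π ∈ 𝔮 →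
      locm (algebraMap N K) 𝔮 (algebraMap O K π) := fun 𝔮 h1 h2 => (hNCF.lm 𝔮 h1 hNK _).2 h2
  have key : ∀ 𝔮 : Ideal N, 𝔮.IsPrime → algebraMap O N π ∈ 𝔮 → locm (algebraMap N K) 𝔮 s →
      ∃ (n : ℕ) (t : Fin n → K) (g : Set K) (V : ValuationSubring K), Cen 𝔮 V ∧
        Slc s u N 𝔮 d t g ∧
        (d ≤ n → ∃ y : Fin d → K, Ch N 𝔮 (cs s u y) ∧ loc (algebraMap N K) 𝔮 (wr D y)) ∧
        ∀ m, Td π 𝔮 m → n ≤ d ∧ m ≤ n + 1 ∧
          (n + 1 ≤ m → RI π V (Sum.elim (fun _ : Unit => u) t)) ∧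
          (locm (algebraMap N K) 𝔮 u → m ≤ n) := fun 𝔮 h1 h2 h3 => by
    obtain ⟨V, hV, -⟩ := hNCF.cen 𝔮 h1 hNK
    obtain ⟨n, t, g, a1, a2⟩ := hc2 𝔮 h1 (hl 𝔮 h1 h2) h3
    refine ⟨n, t, g, V, hV, a1, fun h => ?_, fun m h =>
      hSLV O K π s u N 𝔮 V d n m t g x hπ hxG hs hu h1 hV h2 h3 a1 h⟩
    obtain ⟨y, b1, b2⟩ := a2 h
    exact ⟨y, b1, resd.sq 𝔮 h1 _ b2⟩
  obtain ⟨φ, f0, f1, fi, ff⟩ := hHSOP O K π s u N Z δ w d x hπ hZ hN hsZ huZ hG hw hxI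
    fun 𝔮 h1 h2 h3 h4 h5 => by
      obtain ⟨n, t, g, V, -, -, -, h⟩ := key 𝔮 h1 h2 h3
      obtain ⟨a1, -, -, a2⟩ := h _ h5
      have := a2 h4
      omega
  obtain ⟨p1, p2, p3⟩ := hPRM O K π s u N d φ D Y hs hπ fi ff (fun k => (hD k).1)
    (fun k => (hD k).2.1) (fun 𝔮 h1 h2 h3 h5 => by
      obtain ⟨n, t, g, V, -, -, -, h⟩ := key 𝔮 h1 h2 h3
      obtain ⟨a1, a2, -⟩ := h _ h5
      omega) fun 𝔮 h1 h2 h3 => hc1 𝔮 h1 (hl 𝔮 h1 h2) h3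
  obtain ⟨D', hD'⟩ := hCHN.ext x s u D hxG hxI (fun k => (hD k).1) fun k => (hD k).2.1
  have s0 : s ≠ 0 := hxI.ne_zero (.inl 0)
  have u1 : u - 1 ≠ 0 := fun h => hxI.transcendental (.inl 1)
    (by rw [show cs s u x (.inl 1) = 1 from sub_eq_zero.1 h]; exact isAlgebraic_one)
  have hτ : wr D τ = ∏ k, τ k := by
    rw [← Matrix.det_diagonal]
    refine congrArg Matrix.det (Matrix.ext fun b a => ?_)
    rw [Matrix.of_apply, (hD a).2.2.2, Matrix.diagonal_apply]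
    simp only [eq_comm]
  have hτ0 : ∏ k, τ k ≠ 0 := Finset.prod_ne_zero_iff.2 fun k _ => (hD k).2.2.1
  have hΘ : s * (u - 1) * lwr D' (cs s (u - 1) τ) = 1 := by
    have := hD' τ 1
    rw [map_one] at this
    rw [jacs.lwr_eq, this, hτ, Fintype.prod_sum_type, Fin.prod_univ_two]
    exact (mul_div_assoc _ _ _).symm.trans (div_self (mul_ne_zero (mul_ne_zero s0 u1) hτ0))
  let := φ.toRingHom.toAlgebra
  have : IsScalarTower O (MvPolynomial (Fin 2 ⊕ Fin d) O) N :=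
    IsScalarTower.of_algebraMap_eq fun o => (φ.commutes o).symm
  have : Module.Finite (MvPolynomial (Fin 2 ⊕ Fin d) O) N := ff
  have hφ : ∀ F, algebraMap (MvPolynomial (Fin 2 ⊕ Fin d) O) N F = φ F := fun _ => rfl
  have hcard : Fintype.card (Fin 2 ⊕ Fin d) = d + 2 := by simp [add_comm]
  have hls : ∀ 𝔮 : Ideal N, 𝔮.IsPrime → (locm (algebraMap N K) 𝔮 s ↔ φ (X (.inl 0)) ∈ 𝔮) :=
    fun 𝔮 h => by rw [← f0]; exact hNCF.lm 𝔮 h hNK _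
  obtain ⟨r1, r2⟩ := hMT O (Fin 2 ⊕ Fin d) N K (Fin 2 ⊕ Fin d) π p (.inl 0) d D'
    (cs s (u - 1) τ) (X (.inl 1) - 1) hP fi hcard hcard
    (by
      rintro (a | a)
      · fin_cases a
        exacts [s0, u1]
      · exact (hD a).2.2.1)
    (right_ne_zero_of_mul_eq_one hΘ) p1
    (fun h => hπ.not_isUnit (isUnit_of_dvd_one (by
      simpa using _root_.map_dvd (eval (Sum.elim ![1, 0] 0)) h)))
    (fun 𝔮 h1 h2 h3 => by
      obtain ⟨y, b1, b2⟩ : ∃ y : Fin d → K, Ch N 𝔮 (cs s u y) ∧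
          loc (algebraMap N K) 𝔮 (wr D y) := by
        by_cases h : locm (algebraMap N K) 𝔮 s
        · obtain ⟨n, t, g, V, -, -, a1, a2⟩ := key 𝔮 h1 h2 h
          exact a1 (by have := (a2 _ h3).2.1; omega)
        · exact p3 𝔮 h1 h2 h
      refine ⟨cs s u y, b1.1, b1.2, _, b2, ?_⟩
      have := hD' y 0
      rw [map_zero, sub_zero] at this
      rw [this, hφ, map_mul, map_sub, map_one, map_mul, map_sub, map_one]
      rw [show algebraMap N K (φ (X (.inl 0))) = s from f0,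
        show algebraMap N K (φ (X (.inl 1))) = u from f1, hΘ, mul_one])
    (fun 𝔮 h1 h2 h3 => by
      obtain ⟨y, b1, -⟩ := p3 𝔮 h1 h2 fun h => h3 ((hls 𝔮 h1).1 h)
      exact ⟨_, b1⟩)
    (fun 𝔮 h1 h2 h3 h4 h5 => by
      have h := (hls 𝔮 h1).2 h3
      obtain ⟨n, t, g, V, hV, a0, a1, a2⟩ := key 𝔮 h1 h2 h
      obtain ⟨b1, b2, b3, -⟩ := a2 _ h4
      by_cases hn : d ≤ n
      · obtain ⟨y, c1, -⟩ := a1 hn
        exact hPDEP O N K _ π d 𝔮 _ hπ hNK h1 h2 (hNCF.ind 𝔮 _ _ c1 hxI le_rfl).2 c1 hcard h5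
      · obtain rfl : d = n + 1 := by omega
        exact hSLD O K π s u N 𝔮 V n t g x hs hπ hxG hxI hu h1 hV h2 h a0 a0.gen (b3 le_rfl) p1 p2)
  refine ⟨φ, f0, f1, ff, r1, ?_⟩
  rwa [hφ, hφ, map_sub, map_one] at r2

end Pool.Agent.P.MP_e7d440_ag.Z
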