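import Pool.Agent.P.MP_e7d440_ag.Z.IfaceA
import Pool.Agent.P.MP_e7d440_ag.Jac

/-! Step CART. -/

set_option autoImplicit false
set_option linter.unusedSectionVars false

namespace Pool.Agent.P.MP_e7d440_ag.Z

open IsLocalRing MvPolynomial U

namespace CartA

variable {O E σ : Type} [CommRing O] [Field E] [Algebra O E] [Fintype σ] [DecidableEq σ]
  {p : ℕ} [hp : Fact p.Prime] [CharP E p] {x : σ → E} {D : σ → Derivation O E E}

/-- monomials -/
def mo (x : σ → E) (α : σ → ℕ) : E := ∏ b, x b ^ α b

lemma mo_upd (α : σ → ℕ) (a : σ) (n : ℕ) :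
    mo x (Function.update α a n) = x a ^ n * ∏ b ∈ Finset.univ.erase a, x b ^ α b := by
  rw [mo, ← Finset.mul_prod_erase _ _ (Finset.mem_univ a), Function.update_self]
  congr 1
  exact Finset.prod_congr rfl fun b hb => by rw [Function.update_of_ne (Finset.ne_of_mem_erase hb)]

lemma d_pow (d : Derivation O E E) (c γ : E) : d (c ^ p * γ) = c ^ p * d γ := by
  simp [Derivation.leibniz_pow, CharP.cast_eq_zero]

lemma d_mo (hD : ∀ a b, D a (x b) = if a = b then 1 else 0) (α : σ → ℕ) (a : σ) (n : ℕ) :
    D a (mo x (Function.update α a n)) = n * mo x (Function.update α a (n - 1)) := by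
  have : D a (∏ b ∈ Finset.univ.erase a, x b ^ α b) = 0 :=
    Finset.prod_induction _ (fun γ => D a γ = 0) (fun u v hu hv => by simp [hu, hv]) (by simp)
      fun b hb => by simp [Derivation.leibniz_pow, hD, (Finset.ne_of_mem_erase hb).symm]
  simp [mo_upd, this, Derivation.leibniz_pow, hD, mul_comm]
  ring

lemma it_mo (hD : ∀ a b, D a (x b) = if a = b then 1 else 0) (α : σ → ℕ) (a : σ) (n k : ℕ) :
    (D a)^[k] (mo x (Function.update α a n)) =
      n.descFactorial k * mo x (Function.update α a (n - k)) := by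
  induction k with
  | zero => simp
  | succ k ih =>
    rw [Function.iterate_succ_apply', ih, ← nsmul_eq_mul, map_nsmul, d_mo hD, nsmul_eq_mul,
      Nat.descFactorial_succ, Nat.cast_mul, Nat.sub_add_eq]
    ring

lemma df (n : ℕ) : ((p - 1).factorial : E)⁻¹ * n.descFactorial (p - 1) =
    if n % p = p - 1 then 1 else 0 := by
  have h1 := Nat.mod_lt n hp.out.pos
  rw [← descPochhammer_eval_eq_descFactorial, CharP.cast_eq_mod E p n,
    descPochhammer_eval_eq_descFactorial]
  split_ifs with h
  · rw [h, Nat.descFactorial_self]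
    refine inv_mul_cancel₀ fun h0 => ?_
    have := (hp.out.dvd_factorial).1 ((CharP.cast_eq_zero_iff E p _).1 h0)
    omega
  · rw [Nat.descFactorial_eq_zero_iff_lt.2 (by omega), Nat.cast_zero, mul_zero]

lemma delta (hD : ∀ a b, D a (x b) = if a = b then 1 else 0) (S : Finset σ) :
    ∃ Δ : E →+ E, (∀ c γ, Δ (c ^ p * γ) = c ^ p * Δ γ) ∧ ∀ α, Δ (mo x α) =
      (if ∀ a ∈ S, α a % p = p - 1 then 1 else 0) *
        mo x fun a => if a ∈ S then α a - (p - 1) else α a := by
  induction S using Finset.induction_on with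
  | empty => exact ⟨AddMonoidHom.id E, fun _ _ => rfl, fun α => by simp⟩
  | insert a S ha ih =>
    obtain ⟨Δ, h1, h2⟩ := ih
    have i1 : ∀ (k : ℕ) u v, (D a)^[k] (u + v) = (D a)^[k] u + (D a)^[k] v := fun k u v => by
      induction k with
      | zero => rfl
      | succ k ih => simp only [Function.iterate_succ_apply', ih, map_add]
    have i2 : ∀ (k : ℕ) c γ, (D a)^[k] (c ^ p * γ) = c ^ p * (D a)^[k] γ := fun k u v => by
      induction k with
      | zero => rfl
      | succ k ih => simp only [Function.iterate_succ_apply', ih, d_pow]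
    refine ⟨AddMonoidHom.mk' (fun γ => ((p - 1).factorial : E)⁻¹ * (D a)^[p - 1] (Δ γ))
      fun u v => by rw [map_add, i1, mul_add], fun c γ => ?_, fun α => ?_⟩
    · simp only [AddMonoidHom.mk'_apply, h1, i2, mul_left_comm]
    · simp only [AddMonoidHom.mk'_apply, h2, Finset.forall_mem_insert]
      by_cases h : ∀ a ∈ S, α a % p = p - 1
      · have e : (fun a => if a ∈ S then α a - (p - 1) else α a) =
            Function.update (fun a => if a ∈ S then α a - (p - 1) else α a) a (α a) := by
          rw [eq_comm, Function.update_eq_self_iff, if_neg ha]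
        rw [if_pos h, one_mul, e, it_mo hD, ← mul_assoc, df]
        simp only [and_iff_left h]
        congr 2
        ext b
        by_cases hb : b = a
        · simp [hb]
        · simp [hb]
      · rw [if_neg h, if_neg fun h' => h h'.2, zero_mul, zero_mul]
        have := i2 (p - 1) 0 0
        rw [mul_zero, zero_pow hp.out.ne_zero, zero_mul] at this
        rw [this, mul_zero]

lemma ind (hO : ∀ o : O, ∃ o', algebraMap O E o = algebraMap O E o' ^ p) (hx : Gen O x)
    (R : E → Prop) (h1 : ∀ α, R (mo x α)) (h2 : ∀ c γ, R γ → R (c ^ p * γ))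
    (h3 : ∀ γ γ', R γ → R γ' → R (γ + γ')) (γ : E) : R γ := by
  obtain ⟨F, G, hG, e⟩ := hx γ
  have : γ = (aeval x G)⁻¹ ^ p * aeval x (F * G ^ (p - 1)) := by
    rw [map_mul, map_pow, ← e, mul_assoc, ← pow_succ', Nat.sub_add_cancel hp.out.one_le, inv_pow]
    field_simp
  rw [this]
  refine h2 _ _ ?_
  induction F * G ^ (p - 1) using MvPolynomial.induction_on' with
  | monomial α o =>
    obtain ⟨o', h⟩ := hO o
    rw [aeval_monomial, h, Finsupp.prod_fintype _ _ (by simp)]
    exact h2 _ _ (h1 α)
  | add F G hF hG => rw [map_add]; exact h3 _ _ hF hG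

lemma witt (γ γ' : E) : ∃ P : E, ∀ d : Derivation O E E,
    (γ + γ') ^ (p - 1) * d (γ + γ') = γ ^ (p - 1) * d γ + γ' ^ (p - 1) * d γ' + d P := by
  obtain ⟨r, hr⟩ := exists_add_pow_prime_eq hp.out (X 0 : MvPolynomial (Fin 2) ℤ) (X 1)
  have h0 : ((p : ℕ) : MvPolynomial (Fin 2) ℤ) ≠ 0 := Nat.cast_ne_zero.2 hp.out.ne_zero
  have h : ∀ i : Fin 2, (X 0 + X 1 : MvPolynomial (Fin 2) ℤ) ^ (p - 1) =
      X i ^ (p - 1) + pderiv i (X 0 * X 1 * r) := fun i => mul_left_cancel₀ h0 (by
    have := congrArg (pderiv i) hr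
    rw [mul_assoc, mul_assoc, ← mul_assoc (X 0), ← nsmul_eq_mul, map_add, map_add, map_nsmul,
      Derivation.leibniz_pow, Derivation.leibniz_pow, Derivation.leibniz_pow] at this
    fin_cases i <;> simpa [mul_add] using this)
  refine ⟨aeval ![γ, γ'] (X 0 * X 1 * r), fun d => ?_⟩
  have h1 := JacA.chain (d.restrictScalars ℤ) ![γ, γ'] (X 0 * X 1 * r)
  have a0 := congrArg (aeval ![γ, γ']) (h 0)
  have a1 := congrArg (aeval ![γ, γ']) (h 1)
  simp only [map_add, map_pow, aeval_X, Matrix.cons_val_zero, Matrix.cons_val_one] at a0 a1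
  simp only [Derivation.restrictScalars_apply, Fin.sum_univ_two, Matrix.cons_val_zero,
    Matrix.cons_val_one] at h1
  rw [h1, map_add]
  linear_combination d γ * a0 + d γ' * a1

/-- a matrix of exact and logarithmic rows -/
def mx (p : ℕ) (D : σ → Derivation O E E) (S : Finset σ) (z : σ → E) : Matrix σ σ E :=
  Matrix.of fun b a => (if b ∈ S then z b ^ (p - 1) else 1) * D a (z b)

lemma mt_det (S : Finset σ) (z : σ → E) :
    (mx p D S z).det = (∏ b, if b ∈ S then z b ^ (p - 1) else 1) * wr D z :=
  Matrix.det_mul_column _ (Matrix.of fun b a => D a (z b))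

lemma mt_upd (S S' : Finset σ) (z : σ → E) (b : σ) (γ : E) (h : S'.erase b = S.erase b) :
    mx p D S' (Function.update z b γ) =
      (mx p D S z).updateRow b fun a => (if b ∈ S' then γ ^ (p - 1) else 1) * D a γ := by
  ext b' a
  by_cases hb : b' = b
  · simp [mx, hb]
  · have : b' ∈ S' ↔ b' ∈ S := by simpa [hb] using Finset.ext_iff.1 h b'
    simp [mx, hb, this]

lemma mono (hD : ∀ a b, D a (x b) = if a = b then 1 else 0) {Δ : E →+ E}
    (h1 : ∀ c γ, Δ (c ^ p * γ) = c ^ p * Δ γ) (h2 : ∀ α, Δ (mo x α) =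
      (if ∀ a, α a % p = p - 1 then 1 else 0) * mo x fun a => α a - (p - 1))
    (S : Finset σ) (A : σ → σ → ℕ) : Δ (mx p D S fun b => mo x (A b)).det =
      if S = Finset.univ then wr D (fun b => mo x (A b)) ^ p else 0 := by
  have hx : ∀ a, x a ≠ 0 := fun a h => by simpa [h] using hD a a
  have h0 : (∏ a, x a) ^ p ≠ 0 := pow_ne_zero _ (Finset.prod_ne_zero_iff.2 fun a _ => hx a)
  have p1 := Nat.sub_add_cancel hp.out.one_le
  set δ : E := (Matrix.of fun b a => (A b a : E)).det
  have hδ : δ ^ p = δ := by
    have := (frobenius E p).map_det (Matrix.of fun b a => (A b a : E))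
    rw [frobenius_def] at this
    rw [this]
    congr 1
    ext b a
    simp
  have w : (∏ a, x a) * wr D (fun b => mo x (A b)) = (∏ b, mo x (A b)) * δ := by
    rw [wr, ← Matrix.det_mul_row, ← Matrix.det_mul_column]
    congr 1
    ext b a
    have := d_mo hD (A b) a (A b a)
    rw [Function.update_eq_self] at this
    simp only [Matrix.of_apply, this]
    conv_rhs => rw [← Function.update_eq_self a (A b)]
    rw [mo_upd, mo_upd, Function.update_self]
    rcases A b a with _ | n
    · simp
    · rw [Nat.add_sub_cancel, pow_succ]; ring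
  let β : σ → ℕ := fun a => ∑ b, (if b ∈ S then p else 1) * A b a
  have e : (∏ a, x a) ^ p * (mx p D S fun b => mo x (A b)).det =
      δ ^ p * mo x fun a => β a + (p - 1) := by
    have e1 : (∏ b, if b ∈ S then mo x (A b) ^ (p - 1) else 1) * ∏ b, mo x (A b) = mo x β := by
      simp only [mo, β, ← Finset.prod_pow_eq_pow_sum]
      rw [Finset.prod_comm (f := fun a b => x a ^ _), ← Finset.prod_mul_distrib]
      refine Finset.prod_congr rfl fun b _ => ?_
      split_ifs
      · rw [← pow_succ, p1, ← Finset.prod_pow]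
        simp only [← pow_mul, mul_comm]
      · simp
    have e2 : (mo x fun a => β a + (p - 1)) = mo x β * (∏ a, x a) ^ (p - 1) := by
      simp only [mo, pow_add, Finset.prod_mul_distrib, Finset.prod_pow]
    rw [mt_det, hδ, e2, ← e1]
    conv_lhs => rw [← p1, pow_succ, p1]
    linear_combination (∏ a, x a) ^ (p - 1) *
      (∏ b, if b ∈ S then mo x (A b) ^ (p - 1) else 1) * w
  refine mul_left_cancel₀ h0 ?_
  rw [← h1, e, h1, h2]
  simp only [Nat.add_sub_cancel]
  split_ifs with a1 a2 a2
  · rw [← mul_pow, w, mul_pow, one_mul, mul_comm]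
    simp only [mo, β, a2, Finset.mem_univ, if_true, ← Finset.prod_pow_eq_pow_sum,
      ← Finset.prod_pow, ← pow_mul, mul_comm]
    rw [Finset.prod_comm]
  · obtain ⟨b, hb⟩ : ∃ b, b ∉ S := by simpa [Finset.eq_univ_iff_forall] using a2
    have : δ = 0 := Matrix.exists_vecMul_eq_zero_iff.1 ⟨fun b => if b ∈ S then 0 else 1,
      fun h => by simpa [hb] using congrFun h b, funext fun a => by
        have h3 : p ∣ β a := (Nat.modEq_iff_dvd' (Nat.zero_le _)).1
          (Nat.ModEq.add_right_cancel' (p - 1) (by
            rw [Nat.ModEq, zero_add, Nat.mod_eq_of_lt (by omega)]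
            exact (a1 a).symm))
        have h4 := (CharP.cast_eq_zero_iff E p _).2 h3
        simp only [β, Nat.cast_sum, Nat.cast_mul, Nat.cast_ite, CharP.cast_eq_zero,
          Nat.cast_one] at h4
        exact h4⟩
    rw [this, zero_pow hp.out.ne_zero, zero_mul, mul_zero]
  · refine absurd (fun a => ?_) a1
    simp only [β, a2, Finset.mem_univ, if_true, ← Finset.mul_sum, Nat.mul_add_mod]
    exact Nat.mod_eq_of_lt (by omega)
  · simp

lemma key (hO : ∀ o : O, ∃ o', algebraMap O E o = algebraMap O E o' ^ p) (hx : Gen O x)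
    (hD : ∀ a b, D a (x b) = if a = b then 1 else 0) {Δ : E →+ E}
    (h1 : ∀ c γ, Δ (c ^ p * γ) = c ^ p * Δ γ) (h2 : ∀ α, Δ (mo x α) =
      (if ∀ a, α a % p = p - 1 then 1 else 0) * mo x fun a => α a - (p - 1))
    (S : Finset σ) (z : σ → E) :
    Δ (mx p D S z).det = if S = Finset.univ then wr D z ^ p else 0 := by
  have p1 := Nat.sub_add_cancel hp.out.one_le
  have hw : ∀ z, wr D z = (mx p D ∅ z).det := fun z => by simp [mt_det]
  induction S using Finset.strongInduction generalizing z with
  | H S ih =>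
  suffices h : ∀ (T : Finset σ) (z : σ → E), (∀ b ∉ T, ∃ α, z b = mo x α) →
      Δ (mx p D S z).det = if S = Finset.univ then wr D z ^ p else 0 from
    h Finset.univ z (by simp)
  intro T
  induction T using Finset.induction_on with
  | empty =>
    intro z hz
    choose A hA using fun b => hz b (by simp)
    rw [show z = fun b => mo x (A b) from funext hA]
    exact mono hD h1 h2 S A
  | insert b T hb ihT =>
    intro z hz
    rw [← Function.update_eq_self b z]
    generalize z b = γ
    induction γ using ind hO hx with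
    | h1 α =>
      refine ihT _ fun b' hb' => ?_
      by_cases e : b' = b
      · exact ⟨α, by simp [e]⟩
      · rw [Function.update_of_ne e]; exact hz b' (by simp [e, hb'])
    | h2 c γ h =>
      rw [hw, mt_upd S S z b _ rfl, mt_upd ∅ ∅ z b _ rfl] at h ⊢
      have e1 : (fun a => (if b ∈ S then (c ^ p * γ) ^ (p - 1) else 1) * D a (c ^ p * γ)) =
          (if b ∈ S then c ^ p else c) ^ p •
            fun a => (if b ∈ S then γ ^ (p - 1) else 1) * D a γ := by
        ext a
        rw [d_pow, Pi.smul_apply, smul_eq_mul]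
        split_ifs
        · conv_rhs => rw [← p1, pow_succ, p1]
          ring
        · ring
      have e2 : (fun a => (if b ∈ (∅ : Finset σ) then (c ^ p * γ) ^ (p - 1) else 1) *
          D a (c ^ p * γ)) =
          c ^ p • fun a => (if b ∈ (∅ : Finset σ) then γ ^ (p - 1) else 1) * D a γ := by
        ext a
        simp [d_pow]
      rw [e1, e2, Matrix.det_updateRow_smul, Matrix.det_updateRow_smul, h1, h]
      by_cases a2 : S = Finset.univ
      · simp only [a2, Finset.mem_univ, if_true, mul_pow]
      · simp only [a2, if_false, mul_zero]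
    | h3 γ γ' h h' =>
      rw [hw, mt_upd S S z b _ rfl, mt_upd ∅ ∅ z b _ rfl] at h h' ⊢
      have e2 : (fun a => (if b ∈ (∅ : Finset σ) then (γ + γ') ^ (p - 1) else 1) *
          D a (γ + γ')) = (fun a => (if b ∈ (∅ : Finset σ) then γ ^ (p - 1) else 1) * D a γ) +
          fun a => (if b ∈ (∅ : Finset σ) then γ' ^ (p - 1) else 1) * D a γ' := by
        ext a
        simp
      rw [e2, Matrix.det_updateRow_add, add_pow_char _ _ p]
      by_cases hS : b ∈ S
      · obtain ⟨P, hP⟩ := witt (O := O) (p := p) γ γ'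
        have h4 := ih _ (Finset.erase_ssubset hS) (Function.update z b P)
        rw [if_neg (fun h => by simpa [h] using Finset.notMem_erase b S),
          mt_upd S _ z b _ (Finset.erase_idem)] at h4
        simp only [hS, if_true, Finset.notMem_erase, if_false, one_mul] at h h' h4 ⊢
        rw [show (fun a => (γ + γ') ^ (p - 1) * D a (γ + γ')) = (fun a => γ ^ (p - 1) * D a γ) +
          (fun a => γ' ^ (p - 1) * D a γ') + fun a => D a P from funext fun a => hP _,
          Matrix.det_updateRow_add, Matrix.det_updateRow_add, map_add, map_add, h, h', h4]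
        split_ifs <;> simp
      · simp only [hS, if_false, one_mul] at h h' ⊢
        rw [show (fun a => D a (γ + γ')) = (fun a => D a γ) + fun a => D a γ' from
          funext fun a => map_add _ _ _, Matrix.det_updateRow_add, map_add, h, h']
        split_ifs <;> simp

end CartA

open CartA in
theorem p_CART :
    S_CART := by
  intro O E σ _ _ _ _ _ p hp _ x D hO hx hD
  obtain ⟨Δ, h1, h2⟩ := delta (p := p) hD Finset.univ
  simp only [Finset.mem_univ, if_true, forall_true_left] at h2
  have p1 := Nat.sub_add_cancel hp.out.one_le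
  have inj : ∀ {u v : E}, u ^ p = v ^ p → u = v := fun h => (frobenius E p).injective h
  choose Ca hC using ind hO hx (fun γ => ∃ c, Δ γ = c ^ p) (fun α => by
      rw [h2]
      split_ifs with h
      · refine ⟨mo x fun a => α a / p, ?_⟩
        simp only [one_mul, mo, ← Finset.prod_pow, ← pow_mul]
        refine Finset.prod_congr rfl fun a _ => ?_
        have := Nat.div_add_mod' (α a) p
        rw [h a] at this
        rw [Nat.eq_sub_of_add_eq this]
      · exact ⟨0, by simp [hp.out.ne_zero]⟩)
    (fun c γ ⟨d, h⟩ => ⟨c * d, by rw [h1, h, mul_pow]⟩)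
    (fun γ γ' ⟨d, h⟩ ⟨d', h'⟩ => ⟨d + d', by rw [map_add, h, h', add_pow_char]⟩)
  have c1 : ∀ a b, Ca (a + b) = Ca a + Ca b := fun a b =>
    inj (by rw [add_pow_char, ← hC, ← hC, ← hC, map_add])
  have c2 : ∀ a b, Ca (a ^ p * b) = a * Ca b := fun a b => inj (by rw [mul_pow, ← hC, ← hC, h1])
  have c3 : ∀ y : σ → E, Ca ((∏ a, y a ^ (p - 1)) * wr D y) = wr D y := fun y => inj (by
    have := key hO hx hD h1 h2 Finset.univ y
    rw [mt_det] at this
    simpa [← hC] using this)
  refine ⟨AddMonoidHom.mk' Ca c1, c2, fun y => ⟨c3 y, fun F => ?_⟩⟩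
  simp only [AddMonoidHom.mk'_apply]
  induction F using MvPolynomial.induction_on' with
  | add F G hF hG =>
    obtain ⟨F', hF⟩ := hF
    obtain ⟨G', hG⟩ := hG
    exact ⟨F' + G', by rw [map_add, map_add, add_mul, add_mul, c1, hF, hG]⟩
  | monomial α o =>
    obtain ⟨o', h⟩ := hO o
    have e : aeval y (monomial α o) =
        aeval y (C o' * ∏ a, X a ^ (α a / p)) ^ p * ∏ a, y a ^ (α a % p) := by
      rw [aeval_monomial, h, Finsupp.prod_fintype _ _ (by simp)]
      simp only [map_mul, map_prod, map_pow, aeval_X, aeval_C, mul_pow, ← Finset.prod_pow,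
        ← pow_mul, mul_assoc, ← Finset.prod_mul_distrib, ← pow_add, Nat.div_add_mod']
    rw [e, mul_assoc, c2]
    let S : Finset σ := Finset.univ.filter fun a => α a % p = p - 1
    by_cases hS : S = Finset.univ
    · have : ∀ a, α a % p = p - 1 := fun a => by
        simpa [S] using Finset.eq_univ_iff_forall.1 hS a
      simp only [this, c3]
      exact ⟨_, rfl⟩
    · refine ⟨0, ?_⟩
      have h4 := key hO hx hD h1 h2 S fun a => if a ∈ S then y a else y a ^ (α a % p + 1)
      let n : ℕ := ∏ a, if a ∈ S then 1 else (α a % p + 1)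
      have e2 : (mx p D S fun a => if a ∈ S then y a else y a ^ (α a % p + 1)).det =
          n * ((∏ a, y a ^ (α a % p)) * wr D y) := by
        rw [← mul_assoc, Nat.cast_prod, ← Finset.prod_mul_distrib, wr, ← Matrix.det_mul_column]
        congr 1
        ext b a
        by_cases hb : b ∈ S
        · simp [mx, hb, show α b % p = p - 1 by simpa [S] using hb]
        · simp [mx, hb, Derivation.leibniz_pow, mul_assoc]
      have hn : (n : E) ≠ 0 := by
        rw [Nat.cast_prod]
        refine Finset.prod_ne_zero_iff.2 fun a _ => ?_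
        split_ifs with ha
        · simp
        · have h5 := Nat.mod_lt (α a) hp.out.pos
          have h6 : α a % p ≠ p - 1 := by simpa [S] using ha
          exact fun h0 => absurd (Nat.le_of_dvd (Nat.succ_pos _)
            ((CharP.cast_eq_zero_iff E p _).1 h0)) (by omega)
      rw [if_neg hS, e2, ← nsmul_eq_mul, map_nsmul, nsmul_eq_mul, hC] at h4
      rw [pow_eq_zero_iff hp.out.ne_zero |>.1 ((mul_eq_zero.1 h4).resolve_left hn)]
      simp

end Pool.Agent.P.MP_e7d440_ag.Z
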