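import Pool.Agent.P.MP_e7d440_ag.Z.IfaceA

/-! Step CFIN. -/

set_option autoImplicit false
set_option linter.unusedSectionVars false

namespace Pool.Agent.P.MP_e7d440_ag.Z

open IsLocalRing MvPolynomial U

namespace CfinA

theorem ufd {P : Type} [CommRing P] [IsDomain P] [UniqueFactorizationMonoid P] (D : P → Prop)
    (hD : ∀ p : P, Prime p → ∃ d, D d ∧ ¬ p ∣ d) (b : P) (hb : b ≠ 0) :
    ∀ x, (∀ d, D d → b ∣ d * x) → b ∣ x := by
  induction b using UniqueFactorizationMonoid.induction_on_prime with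
  | h₁ => exact absurd rfl hb
  | h₂ u hu => exact fun x _ => hu.dvd
  | h₃ a p ha hp ih =>
    intro x h
    obtain ⟨d, hd, hn⟩ := hD p hp
    obtain ⟨y, rfl⟩ := (hp.dvd_or_dvd ((dvd_mul_right p a).trans (h d hd))).resolve_left hn
    refine mul_dvd_mul_left p (ih ha y fun d hd => ?_)
    have := h d hd
    rwa [mul_left_comm, mul_dvd_mul_iff_left hp.ne_zero] at this

variable {O k τ N T : Type} [CommRing O] [IsDomain O] [IsDiscreteValuationRing O]
  [Field k] [Algebra O k] [Fintype τ] [CommRing N] [Algebra O N] [Algebra (MvPolynomial τ O) N]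
  [IsScalarTower O (MvPolynomial τ O) N] [CommRing T] [Algebra (MvPolynomial τ k) T] {π : O}
  {ρ : N →+* T}

theorem ker (h : Ctx k τ π ρ) {F : MvPolynomial τ O} (hF : map (algebraMap O k) F = 0) :
    C π ∣ F := by
  refine (C_dvd_iff_dvd_coeff _ _).2 fun i => ?_
  have a : algebraMap O k (F.coeff i) = 0 := by rw [← coeff_map, hF, coeff_zero]
  rw [← Ideal.mem_span_singleton, ← h.irr.maximalIdeal_eq, mem_maximalIdeal, mem_nonunits_iff]
  exact fun u => (u.map (algebraMap O k)).ne_zero a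

theorem smul_eq (h : Ctx k τ π ρ) (F : MvPolynomial τ O) (z : T) :
    map (algebraMap O k) F • z = ρ (algebraMap (MvPolynomial τ O) N F) * z := by
  rw [Algebra.smul_def, h.com]

/-- a denominator outside a given principal prime -/
theorem den (hTD : S_TD) (h : Ctx k τ π ρ) {e : ℕ} (he : Fintype.card τ = e + 1) {z : T}
    (hz : Hul π ρ e z) (p : MvPolynomial τ k) (hp : (Ideal.span {p}).IsPrime) :
    ∃ d : MvPolynomial τ k, (∃ a, d • z = ρ a) ∧ ¬ p ∣ d := by
  classical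
  have := h.fin
  have hs : Function.Surjective (map (algebraMap O k) : MvPolynomial τ O → MvPolynomial τ k) :=
    map_surjective _ h.sur
  obtain ⟨F, rfl⟩ := hs p
  set 𝔓 : Ideal (MvPolynomial τ O) :=
    (Ideal.span {map (algebraMap O k) F}).comap (map (algebraMap O k)) with h𝔓
  have i𝔓 : 𝔓.IsPrime := Ideal.comap_isPrime _ _
  have m1 : C π ∈ 𝔓 := by
    rw [h𝔓, Ideal.mem_comap, map_C, h.kil, C_0]
    exact zero_mem _
  have e1 : 𝔓 = Ideal.span (({C π, F} : Finset (MvPolynomial τ O)) : Set (MvPolynomial τ O)) := by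
    rw [Finset.coe_pair]
    refine le_antisymm (fun G hG => ?_) (Ideal.span_le.2 ?_)
    · obtain ⟨u, hu⟩ := Ideal.mem_span_singleton.1 (Ideal.mem_comap.1 hG)
      obtain ⟨U, rfl⟩ := hs u
      obtain ⟨V, hV⟩ := ker h (F := G - F * U) (by rw [map_sub, map_mul, hu, sub_self])
      exact Ideal.mem_span_pair.2 ⟨V, U, by linear_combination -hV⟩
    · rintro _ (rfl | rfl)
      · exact m1
      · exact Ideal.mem_comap.2 (Ideal.mem_span_singleton_self _)
  have ht : 𝔓.height ≤ (2 : ℕ) := by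
    refine (Ideal.height_le_card_of_mem_minimalPrimes_span_finset (s := {C π, F}) ?_).trans ?_
    · rw [← e1, Ideal.minimalPrimes_eq_subsingleton_self]
      rfl
    · exact_mod_cast Finset.card_le_two
  have td : Td π 𝔓 e := by
    by_contra hn
    have := (hTD.ht (j := 2) h.irr i𝔓 m1 hn (by omega)).trans ht
    exact absurd (by exact_mod_cast this : 2 + 1 ≤ 2) (by omega)
  let J : Ideal N :=
    { carrier := {a | ∃ a', ρ a * z = ρ a'}
      add_mem' := fun ⟨x, hx⟩ ⟨y, hy⟩ => ⟨x + y, by rw [map_add, add_mul, hx, hy, map_add]⟩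
      zero_mem' := ⟨0, by rw [map_zero, zero_mul]⟩
      smul_mem' := fun c a ⟨x, hx⟩ =>
        ⟨c * x, by rw [smul_eq_mul, map_mul, mul_assoc, hx, map_mul]⟩ }
  by_contra hn
  obtain ⟨𝔮, q1, q2, q3⟩ := J.exists_le_prime_disjoint
    (𝔓.primeCompl.map (algebraMap (MvPolynomial τ O) N)) (Set.disjoint_left.2 (by
      rintro _ ⟨a, ha⟩ ⟨G, hG, rfl⟩
      exact hn ⟨map (algebraMap O k) G, ⟨a, (smul_eq h G z).trans ha⟩,
        fun d => hG (Ideal.mem_comap.2 (Ideal.mem_span_singleton.2 d))⟩))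
  have m2 : algebraMap O N π ∈ 𝔮 :=
    q2 ⟨0, by rw [(h.ker _).2 dvd_rfl, zero_mul, map_zero]⟩
  have le : 𝔮.comap (algebraMap (MvPolynomial τ O) N) ≤ 𝔓 := fun G hG => by
    by_contra k
    exact Set.disjoint_left.1 q3 (Ideal.mem_comap.1 hG) ⟨G, k, rfl⟩
  obtain ⟨r, hr, a, ha⟩ := hz 𝔮 q1 m2
    ((hTD.int (A := MvPolynomial τ O) h.irr q1 m2).2 (hTD.mono le le_rfl td))
  exact hr (q2 ⟨a, ha⟩)

/-- the image of `ρ` -/
def rg (h : Ctx k τ π ρ) : Submodule (MvPolynomial τ k) T where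
  carrier := {z | ∃ a, z = ρ a}
  add_mem' := fun ⟨x, hx⟩ ⟨y, hy⟩ => ⟨x + y, by rw [hx, hy, map_add]⟩
  zero_mem' := ⟨0, (map_zero ρ).symm⟩
  smul_mem' := fun c z ⟨a, ha⟩ => by
    obtain ⟨F, rfl⟩ := map_surjective _ h.sur c
    exact ⟨_, by rw [smul_eq h, ha, ← map_mul]⟩

theorem rg_fin (h : Ctx k τ π ρ) : Module.Finite (MvPolynomial τ k) (rg h) := by
  classical
  obtain ⟨s, hs⟩ := h.fin.fg_top
  refine Module.Finite.iff_fg.2 ⟨s.image ρ, le_antisymm (Submodule.span_le.2 ?_) ?_⟩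
  · intro z hz
    obtain ⟨a, -, rfl⟩ := Finset.mem_image.1 hz
    exact ⟨a, rfl⟩
  · rintro _ ⟨a, rfl⟩
    have ha : a ∈ Submodule.span (MvPolynomial τ O) (s : Set N) := hs ▸ Submodule.mem_top
    induction ha using Submodule.span_induction with
    | mem x hx => exact Submodule.subset_span (Finset.mem_image_of_mem ρ hx)
    | zero => rw [map_zero]; exact zero_mem _
    | add x y _ _ a b => rw [map_add]; exact add_mem a b
    | smul F x _ a =>
      rw [Algebra.smul_def, map_mul, ← smul_eq h]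
      exact Submodule.smul_mem _ _ a

end CfinA

theorem p_CFIN (hTD : S_TD) (hFACT : S_FACT) :
    S_CFIN := by
  intro O k τ N T _ _ _ _ _ _ _ _ _ _ _ _ π ρ e S h he hS
  have h2 : ∀ z ∈ S, ∃ c : MvPolynomial τ k, c ≠ 0 ∧ ∃ a, c • z = ρ a := fun z hz => by
    obtain ⟨d, a, b⟩ := CfinA.den hTD h he (hS z hz) 0
      (by rw [Ideal.span_singleton_eq_bot.2 rfl]; exact Ideal.isPrime_bot)
    exact ⟨d, fun k => b (k ▸ dvd_rfl), a⟩
  refine ⟨?_, h2⟩
  have := CfinA.rg_fin h
  obtain ⟨c, hc, n, α, β, hαβ⟩ := hFACT.gen (MvPolynomial τ k) (CfinA.rg h)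
  have h3 : ∀ z ∈ S, c • z ∈ CfinA.rg h := fun z hz => by
    obtain ⟨b, hb, hbz⟩ := h2 z hz
    have hv : ∀ i, b ∣ α ⟨b • z, hbz⟩ i := fun i => by
      refine CfinA.ufd (fun d => ∃ a, d • z = ρ a) (fun p hp => CfinA.den hTD h he (hS z hz) p
        ((Ideal.span_singleton_prime hp.ne_zero).2 hp)) b hb _ fun d hd => ⟨α ⟨d • z, hd⟩ i, ?_⟩
      have : d • (⟨b • z, hbz⟩ : CfinA.rg h) = b • (⟨d • z, hd⟩ : CfinA.rg h) :=
        Subtype.ext (smul_comm d b z)
      have a := congrFun (congrArg α this) i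
      rw [map_smul, map_smul] at a
      exact a
    choose v hv using hv
    have e1 : α ⟨b • z, hbz⟩ = b • v := funext hv
    have e2 := congrArg Subtype.val (hαβ ⟨b • z, hbz⟩)
    rw [e1, map_smul] at e2
    have e3 : b • (c • z - (β v : T)) = 0 := by
      rw [smul_sub, smul_comm b c z, sub_eq_zero]
      exact e2.symm
    rw [sub_eq_zero.1 (h.nzd _ _ hb e3)]
    exact (β v).2
  let f : S →ₗ[MvPolynomial τ k] CfinA.rg h :=
    { toFun := fun z => ⟨c • (z : T), h3 z z.2⟩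
      map_add' := fun x y => Subtype.ext (smul_add c (x : T) y)
      map_smul' := fun a x => Subtype.ext (smul_comm c a (x : T)) }
  refine Module.Finite.of_injective f ((injective_iff_map_eq_zero f).2 fun z hz => ?_)
  exact Subtype.ext (h.nzd c z hc (congrArg Subtype.val hz))

end Pool.Agent.P.MP_e7d440_ag.Z
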