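import Pool.Agent.P.MP_e7d440_ag.Z.IfaceA

/-! Step CFR. -/

set_option autoImplicit false
set_option linter.unusedSectionVars false

namespace Pool.Agent.P.MP_e7d440_ag.Z

open IsLocalRing MvPolynomial U

namespace CfrA

theorem core (hSYZ : S_SYZ) (hFACT : S_FACT) {Q k τ N T : Type} [CommRing Q] [Field k] [Fintype τ]
    [CommRing N] [Algebra Q N] [Module.Finite Q N] [CommRing T] [Algebra (MvPolynomial τ k) T]
    (p : ℕ) [Fact p.Prime] [CharP k p] [PerfectRing k p] (μ : Q →+* MvPolynomial τ k)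
    (hμ : Function.Surjective μ) (π : N) (ρ : N →+* T) (hρ : Function.Surjective ρ)
    (com : ∀ F, algebraMap (MvPolynomial τ k) T (μ F) = ρ (algebraMap Q N F))
    (ker : ∀ a, ρ a = 0 ↔ π ∣ a)
    (nzd : ∀ (c : MvPolynomial τ k) (t : T), c ≠ 0 → c • t = 0 → t = 0) (s : Q)
    (H : ∀ 𝔮 : Ideal N, 𝔮.IsPrime → π ∈ 𝔮 → algebraMap Q N s ∉ 𝔮 → LocF π p 𝔮) :
    ∃ M : ℕ, Fac T (μ s ^ M) := by
  classical
  have sm : ∀ (F : Q) (a : N), ρ (algebraMap Q N F * a) = μ F • ρ a := fun F a => by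
    rw [map_mul, ← com, Algebra.smul_def]
  have hfin : Module.Finite (MvPolynomial τ k) T := by
    obtain ⟨S, hS⟩ := (inferInstance : Module.Finite Q N).fg_top
    refine ⟨⟨S.image ρ, eq_top_iff.2 fun t _ => ?_⟩⟩
    obtain ⟨a, rfl⟩ := hρ t
    have ha : a ∈ Submodule.span Q (S : Set N) := hS ▸ Submodule.mem_top
    induction ha using Submodule.span_induction with
    | mem x hx => exact Submodule.subset_span (by simpa using ⟨x, hx, rfl⟩)
    | zero => simp
    | add x y _ _ hx hy => rw [map_add]; exact Submodule.add_mem _ (hx trivial) (hy trivial)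
    | smul F x _ hx =>
      rw [Algebra.smul_def, sm]
      exact Submodule.smul_mem _ _ (hx trivial)
  obtain ⟨c, ⟨M, rfl⟩, hc⟩ := hFACT.fact (MvPolynomial τ k) T (Submonoid.powers (μ s)) (by
    intro l a z hz
    let φ : (Fin l → MvPolynomial τ k) →ₗ[MvPolynomial τ k] MvPolynomial τ k :=
      Fintype.linearCombination _ a
    have hφ : ∀ w, φ w = ∑ j, a j * w j := fun w => by
      simp [φ, Fintype.linearCombination_apply, mul_comm]
    obtain ⟨n₀, b₀, hb₀⟩ := Submodule.fg_iff_exists_fin_generating_family.1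
      (IsNoetherian.noetherian (LinearMap.ker φ))
    let J : Ideal N :=
      { carrier := {r | ∃ v : Fin n₀ → T, ∀ j, ρ r * z j = ∑ i, b₀ i j • v i}
        add_mem' := by
          rintro r r' ⟨v, hv⟩ ⟨v', hv'⟩
          exact ⟨v + v', fun j => by
            simp only [map_add, add_mul, hv, hv', Pi.add_apply, smul_add, Finset.sum_add_distrib]⟩
        zero_mem' := ⟨0, fun j => by simp⟩
        smul_mem' := by
          rintro x r ⟨v, hv⟩
          exact ⟨fun i => ρ x * v i, fun j => by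
            simp only [smul_eq_mul, map_mul, mul_assoc, hv, Finset.mul_sum, mul_smul_comm]⟩ }
    have hπ : π ∈ J := ⟨0, fun j => by simp [(ker π).2 dvd_rfl]⟩
    have hs : algebraMap Q N s ∈ J.radical := by
      rw [Ideal.radical_eq_sInf, Submodule.mem_sInf]
      rintro 𝔮 ⟨hJ, h𝔮⟩
      by_contra hn
      obtain ⟨c, hc0, hc⟩ := hFACT.gen (MvPolynomial τ k) T
      obtain ⟨c, rfl⟩ := hμ c
      obtain ⟨e, he⟩ := H 𝔮 h𝔮 (hJ hπ) hn (algebraMap Q N c) (fun r hr hd => hr (by
        have h1 := (ker _).2 hd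
        rw [mul_comm, sm] at h1
        obtain ⟨w, rfl⟩ := (ker _).1 (nzd _ _ hc0 h1)
        exact Ideal.mul_mem_right _ 𝔮 (hJ hπ)))
      obtain ⟨n, b, v, hb, hv⟩ := hSYZ k τ T p _ hc l a z hz e
      choose z' hz' using fun j => hρ (z j)
      choose v' hv' using fun i => hρ (v i)
      choose b' hb' using fun j i => hμ (b j i)
      obtain ⟨r, hr, w, hw⟩ := he l n z' (fun j i => algebraMap Q N (b' j i)) v' (fun j => by
        rw [← ker, map_sub, sm, map_pow, hz', hv, map_sum, sub_eq_zero]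
        exact Finset.sum_congr rfl fun i _ => by rw [← map_pow, sm, map_pow, hb', hv'])
      have hco : ∀ i, ∃ co : Fin n₀ → MvPolynomial τ k, ∑ m, co m • b₀ m = fun j => b j i :=
        fun i => (Submodule.mem_span_range_iff_exists_fun _).1 (by
          rw [hb₀, LinearMap.mem_ker, hφ]
          exact hb i)
      choose co hco using hco
      refine hr (hJ ⟨fun m => ∑ i, co i m • ρ (w i), fun j => ?_⟩)
      have h1 := (ker _).2 (hw j)
      rw [map_sub, map_mul, hz', map_sum, sub_eq_zero] at h1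
      rw [h1]
      simp only [Finset.smul_sum]
      rw [Finset.sum_comm]
      refine Finset.sum_congr rfl fun i _ => ?_
      rw [sm, hb', ← congrFun (hco i) j]
      simp only [Finset.sum_apply, Pi.smul_apply, smul_eq_mul, Finset.sum_smul, smul_smul,
        mul_comm]
    obtain ⟨M, v, hv⟩ := hs
    refine ⟨μ s ^ M, ⟨M, rfl⟩, n₀, fun j i => b₀ i j, v, fun i => ?_, fun j => ?_⟩
    · rw [← hφ, ← LinearMap.mem_ker, ← hb₀]
      exact Submodule.subset_span ⟨i, rfl⟩
    · rw [← hv, ← map_pow, ← map_pow, ← com, Algebra.smul_def])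
  exact ⟨M, hc⟩

end CfrA

theorem p_CFR (hSYZ : S_SYZ) (hFACT : S_FACT) :
    S_CFR := by
  intro O k τ N T _ _ _ _ _ _ _ _ _ _ _ _ π p _ _ _ ρ i₀ R C hR H
  have := C.fin
  let ρ' : N →+* R := ρ.codRestrict R fun a => (hR _).2 ⟨a, rfl⟩
  have key := CfrA.core hSYZ hFACT (T := R) p (map (algebraMap O k))
    (map_surjective _ C.sur) (algebraMap O N π) ρ'
    (fun z => let ⟨a, ha⟩ := (hR z).1 z.2; ⟨a, Subtype.ext ha⟩)
    (fun F => Subtype.ext (C.com F))
    (fun a => Subtype.ext_iff.trans (C.ker a))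
    (fun c t hc h => Subtype.ext (C.nzd c t hc (congrArg Subtype.val h))) (X i₀) H
  rwa [map_X] at key

end Pool.Agent.P.MP_e7d440_ag.Z
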