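import Pool.Agent.P.MP_e7d440_ag.Z.IfaceA

/-! Step CFS. -/

set_option autoImplicit false
set_option linter.unusedSectionVars false

namespace Pool.Agent.P.MP_e7d440_ag.Z

open IsLocalRing MvPolynomial U

namespace CfsA

theorem iter {T : Type} [CommRing T] {p : ℕ} (hp : 0 < p) (S : T) (ψ : T →+ T)
    (h1 : ∀ a b, ψ (a ^ p * b) = a * ψ b) (h2 : ∀ z, ψ (S ^ (p - 1) * z ^ p) = z) (e : ℕ) :
    ∃ Ψ : T →+ T, (∀ a b, Ψ (a ^ p ^ e * b) = a * Ψ b) ∧
      ∀ z, Ψ (S ^ (p ^ e - 1) * z ^ p ^ e) = z := by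
  induction e with
  | zero => exact ⟨AddMonoidHom.id T, by simp, by simp⟩
  | succ e ih =>
    obtain ⟨Ψ, k1, k2⟩ := ih
    refine ⟨ψ.comp Ψ, fun a b => ?_, fun z => ?_⟩
    · rw [AddMonoidHom.comp_apply, AddMonoidHom.comp_apply, pow_succ', pow_mul, k1, h1]
    · have e1 : p ^ (e + 1) - 1 = p ^ e - 1 + (p - 1) * p ^ e := by
        obtain ⟨r, rfl⟩ : ∃ r, p = r + 1 := ⟨p - 1, by omega⟩
        have := Nat.pow_pos (n := e) hp
        rw [pow_succ, Nat.mul_succ, Nat.add_sub_cancel, mul_comm r]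
        omega
      rw [AddMonoidHom.comp_apply, e1, pow_add, pow_succ', pow_mul, pow_mul, mul_assoc, ← mul_pow,
        k2, h2]

end CfsA

theorem p_CFS (hSYZ : S_SYZ) (hFACT : S_FACT) :
    S_CFS := by
  intro k τ T _ _ _ _ p hp _ _ s M ψ hfin h1 h2 hF
  obtain ⟨Ψ, k1, k2⟩ := CfsA.iter hp.out.pos (algebraMap _ T s) ψ h1
    (fun z => by rw [← map_pow, ← Algebra.smul_def, h2]) M
  have hM : M < p ^ M := Nat.lt_pow_self hp.out.one_lt
  obtain ⟨c, hc, h⟩ := hFACT.fact (MvPolynomial τ k) T ⊥ fun l a z hz => by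
    obtain ⟨n, b, v, h3, h4⟩ := hSYZ k τ T p (s ^ M) hF l a z hz M
    refine ⟨1, one_mem _, n, b, fun i => Ψ (s ^ (p ^ M - 1 - M) • v i), h3, fun j => ?_⟩
    have h5 := congrArg (fun t => Ψ (s ^ (p ^ M - 1 - M) • t)) (h4 j)
    simp only [smul_smul, ← pow_add, show p ^ M - 1 - M + M = p ^ M - 1 by omega] at h5
    rw [Algebra.smul_def, map_pow, k2, Finset.smul_sum, map_sum] at h5
    rw [one_smul, h5]
    refine Finset.sum_congr rfl fun i _ => ?_
    rw [smul_comm, Algebra.smul_def (b j i ^ p ^ M), map_pow, k1, ← Algebra.smul_def]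
  rwa [Submonoid.mem_bot.1 hc] at h

end Pool.Agent.P.MP_e7d440_ag.Z
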