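import Pool.Agent.P.MP_e7d440_ag.Z.IfaceB
import Pool.Agent.P.MP_e7d440_ag.U.Gen
import Pool.Agent.P.MP_e7d440_ag.Der

/-! Step CHN. -/

set_option autoImplicit false
set_option linter.unusedSectionVars false

namespace Pool.Agent.P.MP_e7d440_ag.Z

open IsLocalRing MvPolynomial U GrA

namespace ChnA

variable {O K ι κ : Type} [CommRing O] [Field K] [Algebra O K]

lemma poly [Fintype ι] [DecidableEq ι] (y : ι → K) (S : Subring K) (h : Has O S y)
    (F : MvPolynomial ι O) : ∃ c : ι → K, (∀ i, c i ∈ S) ∧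
      ∀ D : Derivation O K K, D (aeval y F) = ∑ i, c i * D (y i) := by
  refine ⟨fun i => aeval y (pderiv i F), fun i => GenA.aeval_mem y S h.1 h.2 _, fun D => ?_⟩
  induction F using MvPolynomial.induction_on with
  | C o => simp
  | add F G hF hG => simp [hF, hG, add_mul, Finset.sum_add_distrib]
  | mul_X F i hF =>
    simp only [map_mul, aeval_X, Derivation.leibniz, hF, smul_eq_mul, map_add, add_mul,
      Finset.sum_add_distrib, Finset.mul_sum, mul_assoc]
    congr 1
    rw [Finset.sum_eq_single i (fun b _ hb => by simp [pderiv_X_of_ne hb.symm]) (by simp)]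
    simp

lemma frc [Fintype ι] [DecidableEq ι] (y : ι → K) (S : Subring K) (h : Has O S y) (γ : K)
    (hγ : Frc O y S γ) : ∃ c : ι → K, (∀ i, c i ∈ S) ∧
      ∀ D : Derivation O K K, D γ = ∑ i, c i * D (y i) := by
  obtain ⟨F, G, hG, hS, e⟩ := hγ
  obtain ⟨c, m, hc⟩ := poly y S h F
  obtain ⟨c', m', hc'⟩ := poly y S h G
  have hγ : γ ∈ S := by
    rw [(eq_mul_inv_iff_mul_eq₀ hG).2 e]
    exact S.mul_mem (GenA.aeval_mem y S h.1 h.2 _) hS
  refine ⟨fun i => (aeval y G)⁻¹ * (c i - γ * c' i),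
    fun i => S.mul_mem hS (S.sub_mem (m i) (S.mul_mem hγ (m' i))), fun D => ?_⟩
  have h1 := congrArg D e
  rw [Derivation.leibniz, hc, hc'] at h1
  simp only [smul_eq_mul] at h1
  simp only [mul_assoc, ← Finset.mul_sum, sub_mul, Finset.sum_sub_distrib]
  rw [← h1]
  field_simp
  ring

lemma fac [Fintype ι] (y : ι → K) (s u : K) (S : Subring K) (E : κ → Derivation O K K)
    (t : κ → K) (hs : ∀ k, E k s = 0) (hu : ∀ k, E k u = 0) (h : Has O S (cs s u y))
    (ht : ∀ a, Frc O (cs s u y) S (t a)) : ∃ A : Matrix κ ι S,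
      (Matrix.of fun b a => E a (t b)) = A.map S.subtype * Matrix.of fun i a => E a (y i) := by
  classical
  choose c m hc using fun a => frc _ S h _ (ht a)
  refine ⟨Matrix.of fun b i => ⟨c b (Sum.inr i), m b _⟩, ?_⟩
  ext b a
  simp [Matrix.mul_apply, hc b (E a), cs, Fin.sum_univ_two, hs, hu]

lemma fac' [Fintype ι] (y : ι → K) (s u : K) (E : κ → Derivation O K K)
    (t : κ → K) (hs : ∀ k, E k s = 0) (hu : ∀ k, E k u = 0) (h : Gen O (cs s u y)) :
    ∃ A : Matrix κ ι K,
      (Matrix.of fun b a => E a (t b)) = A * Matrix.of fun i a => E a (y i) := by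
  obtain ⟨A, hA⟩ := fac y s u ⊤ E t hs hu ⟨fun _ => trivial, fun _ => trivial⟩ fun a => by
    obtain ⟨F, G, h1, h2⟩ := h (t a)
    exact ⟨F, G, h1, trivial, h2⟩
  exact ⟨_, hA⟩

lemma dua [IsDomain O] [DecidableEq ι] (y : ι → K) (h : Gen O y) (hi : AlgebraicIndependent O y) :
    ∃ P : ι → Derivation O K K, ∀ i j, P i (y j) = if j = i then 1 else 0 := by
  have ev : ∀ F : MvPolynomial ι O, aeval (fun i => algebraMap (MvPolynomial ι O)
      (FractionRing (MvPolynomial ι O)) (X i)) F = algebraMap (MvPolynomial ι O) _ F := fun F => by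
    have := aeval_algebraMap_apply (FractionRing (MvPolynomial ι O)) (X : ι → MvPolynomial ι O) F
    rwa [aeval_X_left_apply] at this
  obtain ⟨f, hf⟩ := gen.iso (O := O) y (fun i => algebraMap (MvPolynomial ι O)
    (FractionRing (MvPolynomial ι O)) (X i)) h (fun γ => by
      obtain ⟨a, b, hb, rfl⟩ := IsFractionRing.div_surjective (A := MvPolynomial ι O) γ
      have h := IsFractionRing.to_map_ne_zero_of_mem_nonZeroDivisors
        (K := FractionRing (MvPolynomial ι O)) hb
      exact ⟨a, b, by rwa [ev], by rw [ev, ev, div_mul_cancel₀ _ h]⟩) hi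
    (algebraicIndependent_iff.2 fun F hF => IsFractionRing.injective (MvPolynomial ι O)
      (FractionRing (MvPolynomial ι O)) (by rw [← ev, hF, map_zero]))
  obtain ⟨D, hD⟩ := der.frac (O := O) (σ := ι)
  refine ⟨fun i => Derivation.mk' (f.toLinearMap ∘ₗ (D i).toLinearMap ∘ₗ f.symm.toLinearMap)
    fun a b => by simp [Derivation.leibniz], fun i j => ?_⟩
  rw [← hf j]
  by_cases e : j = i
  · simp [hD, e]
  · simp [hD, e, pderiv_X_of_ne e]

end ChnA

open ChnA

theorem p_CHN :
    S_CHN where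
  le := by
    intro O K ι κ _ _ _ _ _ _ x s u E t h hs hu ht
    obtain ⟨A, hA⟩ := fac' x s u E t hs hu h
    have r := Matrix.rank_of_isUnit _ ((Matrix.isUnit_iff_isUnit_det _).2 (Ne.isUnit ht))
    rw [← r, hA]
    exact (Matrix.rank_mul_le_left _ _).trans (Matrix.rank_le_card_width _)
  ne := by
    intro O K ι _ _ _ _ _ x s u E t h hs hu ht h0
    obtain ⟨A, hA⟩ := fac' x s u E t hs hu h
    unfold wr at ht h0
    exact ht (by rw [hA, Matrix.det_mul, h0, mul_zero])
  fix := by
    intro O K κ _ _ _ _ _ E t δ ht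
    obtain ⟨c, hc⟩ : ∃ c : κ → K, (Matrix.of fun b a => E a (t b)).mulVec c = fun k => δ (t k) :=
      ⟨(Matrix.of fun b a => E a (t b))⁻¹.mulVec fun k => δ (t k), by
        rw [Matrix.mulVec_mulVec, Matrix.mul_nonsing_inv _ (Ne.isUnit ht), Matrix.one_mulVec]⟩
    have ev : ∀ γ, (∑ k, c k • E k) γ = ∑ k, c k * E k γ := fun γ => by
      have := map_sum (Derivation.coeFnAddMonoidHom (R := O) (A := K) (M := K))
        (fun k => c k • E k) Finset.univ
      exact (congrFun this γ).trans (Finset.sum_apply _ _ _)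
    refine ⟨δ - ∑ k, c k • E k, fun k => ?_, fun γ h => by simp [ev, h]⟩
    rw [Derivation.sub_apply, ev, ← congrFun hc k]
    simp [Matrix.mulVec, dotProduct, mul_comm]
  ext := by
    intro O K ι _ _ _ _ _ _ x s u D h hi hs hu
    obtain ⟨P, hP⟩ := dua _ h hi
    refine ⟨Sum.elim (fun k => P (Sum.inl k)) D, fun y o => ?_⟩
    have e : (Matrix.of fun b a => Sum.elim (fun k => P (Sum.inl k)) D a
        (cs s (u - algebraMap O K o) y b)) = Matrix.fromBlocks 1 0
          (Matrix.of fun b k => P (Sum.inl k) (y b)) (Matrix.of fun b a => D a (y b)) := by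
      have h0 := fun k => hP (Sum.inl k) (Sum.inl 0)
      have h1 := fun k => hP (Sum.inl k) (Sum.inl 1)
      simp only [cs, Sum.elim_inl, Matrix.cons_val_zero, Matrix.cons_val_one] at h0 h1
      ext (b | b) (a | a)
      · fin_cases b <;> simp [cs, h0, h1, Matrix.one_apply]
      · fin_cases b <;> simp [cs, hs, hu]
      · rfl
      · rfl
    unfold wr
    rw [e, Matrix.det_fromBlocks_zero₁₂, Matrix.det_one, one_mul]
  wrm := by
    intro O K ι _ _ _ _ _ D x y s u S hs hu h hx
    obtain ⟨A, hA⟩ := fac y s u S D x hs hu h hx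
    refine ⟨A.det, A.det.2, ?_⟩
    unfold wr
    rw [hA, Matrix.det_mul]
    exact congrArg (· * _) (S.subtype.map_det A).symm

end Pool.Agent.P.MP_e7d440_ag.Z
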