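import Pool.Agent.P.MP_e7d440_ag.Z.IfaceB
import Pool.Agent.P.MP_e7d440_ag.Z.IfaceA

/-! Step CMF2. -/

set_option autoImplicit false
set_option linter.unusedSectionVars false

namespace Pool.Agent.P.MP_e7d440_ag.Z

open IsLocalRing MvPolynomial U GrA

namespace Cmf2A

theorem one {P A : Type} [CommRing P] [CommRing A] [Algebra P A] {c : P} (h : Fac A c)
    {𝔟 : Ideal P} {x : P} (hx : NZD 𝔟 x) {m : A}
    (hm : algebraMap P A x * m ∈ 𝔟.map (algebraMap P A)) :
    algebraMap P A c * m ∈ 𝔟.map (algebraMap P A) := by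
  obtain ⟨n, α, β, hαβ⟩ := h
  have h1 : ∀ a ∈ 𝔟.map (algebraMap P A), ∀ (y : A) (i : Fin n), α (y * a) i ∈ 𝔟 := by
    intro a ha
    induction ha using Submodule.span_induction with
    | mem a ha =>
      obtain ⟨b, hb, rfl⟩ := ha
      intro y i
      rw [mul_comm, ← Algebra.smul_def, map_smul]
      exact 𝔟.mul_mem_right _ hb
    | zero => intro y i; rw [mul_zero, map_zero]; exact 𝔟.zero_mem
    | add a b _ _ ha hb => intro y i; rw [mul_add, map_add]; exact 𝔟.add_mem (ha y i) (hb y i)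
    | smul r a _ ha => intro y i; rw [smul_eq_mul, ← mul_assoc]; exact ha _ i
  have h2 : ∀ i, α m i ∈ 𝔟 := fun i => by
    have h3 := h1 _ hm 1 i
    rw [one_mul, ← Algebra.smul_def, map_smul] at h3
    exact hx _ h3
  rw [← Algebra.smul_def, ← hαβ, pi_eq_sum_univ (α m), map_sum]
  refine Ideal.sum_mem _ fun i _ => ?_
  rw [map_smul, Algebra.smul_def]
  exact Ideal.mul_mem_right _ _ (Ideal.mem_map_of_mem _ (h2 i))

theorem reg {P A : Type} [CommRing P] [CommRing A] [Algebra P A] {c : P} (h : Fac A c)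
    (𝔭 : Ideal A) [𝔭.IsPrime] (hc : algebraMap P A c ∉ 𝔭) (l : List P) : ∀ 𝔟 : Ideal P,
    RegSeq 𝔟 l → RegSeq (𝔟.map ((algebraMap A (Localization.AtPrime 𝔭)).comp (algebraMap P A)))
      (l.map ((algebraMap A (Localization.AtPrime 𝔭)).comp (algebraMap P A))) := by
  induction l with
  | nil => intro _ _; trivial
  | cons x l ih =>
    intro 𝔟 hr
    refine ⟨fun g hg => ?_, ?_⟩
    · obtain ⟨⟨m, s⟩, hs⟩ := IsLocalization.surj 𝔭.primeCompl g
      rw [← Ideal.map_map] at hg ⊢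
      have h1 := Ideal.mul_mem_right (algebraMap A (Localization.AtPrime 𝔭) s) _ hg
      rw [mul_assoc, hs, RingHom.comp_apply, ← map_mul] at h1
      obtain ⟨t, ht, h2⟩ :=
        (IsLocalization.algebraMap_mem_map_algebraMap_iff 𝔭.primeCompl _ _ _).1 h1
      rw [mul_left_comm] at h2
      have h3 := Ideal.mem_map_of_mem (algebraMap A (Localization.AtPrime 𝔭)) (one h hr.1 h2)
      rw [← mul_assoc, map_mul, ← hs, mul_left_comm, ← map_mul] at h3
      exact (Ideal.mul_unit_mem_iff_mem _ (IsLocalization.map_units (Localization.AtPrime 𝔭)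
        (⟨_, mul_mem (mul_mem hc ht) s.2⟩ : 𝔭.primeCompl))).1 h3
    · have h1 := ih _ hr.2
      rwa [Ideal.map_sup, Ideal.map_span, Set.image_singleton] at h1

theorem ht {P A : Type} [CommRing P] [CommRing A] [Algebra P A] [Algebra.IsIntegral P A]
    (𝔭 : Ideal A) [h : 𝔭.IsPrime] : 𝔭.height ≤ (𝔭.comap (algebraMap P A)).height := by
  have h1 := Order.height_le_height_apply_of_strictMono
    (PrimeSpectrum.comap (algebraMap P A))
    (fun a b hab => Ideal.IsIntegral.comap_lt_comap (R := P) (I := a.asIdeal) (J := b.asIdeal) hab)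
    ⟨𝔭, h⟩
  rw [← PrimeSpectrum.height_eq_orderHeight, ← PrimeSpectrum.height_eq_orderHeight] at h1
  exact h1

end Cmf2A

theorem p_CMF2 (hGRADE : S_GRADE) :
    S_CMF2 := by
  intro O ν A _ _ _ _ _ φ π c 𝔭 h𝔭 hπ hfin hc hF hp
  let _ := φ.toAlgebra
  have : Module.Finite (MvPolynomial ν O) A := hfin
  have h1 : 𝔭.height ≤ (𝔭.comap φ).height := Cmf2A.ht (P := MvPolynomial ν O) 𝔭
  have h2 : φ c ∉ 𝔭 := fun h => by
    obtain ⟨d, hd⟩ := hc
    have h3 : φ c - 1 ∈ 𝔭 := by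
      rw [← map_one φ, ← map_sub, hd, map_mul]
      exact 𝔭.mul_mem_right _ hp
    exact h𝔭.ne_top ((Ideal.eq_top_iff_one _).2 (by simpa using 𝔭.sub_mem h h3))
  obtain ⟨n, hn⟩ := ENat.ne_top_iff_exists.1
    (Ideal.height_ne_top_of_isPrime (I := 𝔭.comap φ))
  obtain ⟨l, l1, l2, l3⟩ : ∃ l : List (MvPolynomial ν O), l.length = n ∧
      (∀ x ∈ l, x ∈ 𝔭.comap φ) ∧ RegSeq ⊥ l := by
    cases n with
    | zero => exact ⟨[], rfl, fun _ h => absurd h List.not_mem_nil, trivial⟩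
    | succ j =>
      obtain ⟨l, l1, l2, l3⟩ := hGRADE O ν π j (𝔭.comap φ) hπ fun 𝔮 _ _ h =>
        hn.le.trans (Ideal.height_mono h)
      refine ⟨C π :: l, by rw [List.length_cons, l1], fun x hx => ?_, fun g hg => ?_, ?_⟩
      · rcases List.mem_cons.1 hx with rfl | hx
        · exact hp
        · exact l2 x hx
      · exact Ideal.mem_bot.2 ((mul_eq_zero.1 (Ideal.mem_bot.1 hg)).resolve_left
          (C_ne_zero.2 hπ.ne_zero))
      · rwa [bot_sup_eq]
  have h3 := Cmf2A.reg (P := MvPolynomial ν O) hF 𝔭 h2 l ⊥ l3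
  rw [Ideal.map_bot] at h3
  refine ⟨_, fun t ht => ?_, h3, ?_⟩
  · obtain ⟨x, hx, rfl⟩ := List.mem_map.1 ht
    exact (IsLocalization.AtPrime.to_map_mem_maximal_iff _ 𝔭 (φ x)).2 (l2 x hx)
  · rw [IsLocalization.AtPrime.ringKrullDim_eq_height 𝔭, List.length_map, l1]
    exact_mod_cast h1.trans hn.ge

end Pool.Agent.P.MP_e7d440_ag.Z
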