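import Pool.Agent.P.MP_e7d440_ag.Z.IfaceB

/-! Step CONST. -/

set_option autoImplicit false
set_option linter.unusedSectionVars false

namespace Pool.Agent.P.MP_e7d440_ag.Z

open IsLocalRing MvPolynomial U GrA

namespace ConstA

variable {O K ι κ : Type} [CommRing O] [Field K] [Algebra O K] [Fintype ι]

theorem chain (x : ι → K) (z : κ → K) (D : Derivation O K K) (hz : ∀ k, D (z k) = 0)
    (F : MvPolynomial (κ ⊕ ι) O) :
    D (aeval (Sum.elim z x) F) =
      ∑ b, aeval (Sum.elim z x) (pderiv (Sum.inr b) F) * D (x b) := by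
  classical
  induction F using MvPolynomial.induction_on with
  | C a => simp
  | add p q hp hq => simp [hp, hq, add_mul, Finset.sum_add_distrib]
  | mul_X p n hp =>
    simp only [map_mul, aeval_X, Derivation.leibniz, smul_eq_mul, hp, map_add, pderiv_X, add_mul,
      Finset.sum_add_distrib, Finset.mul_sum, Pi.single_apply]
    congr 1
    · cases n with
      | inl k => simp [hz]
      | inr n =>
        rw [Finset.sum_eq_single n (fun b _ hb => by simp [hb.symm]) (by simp)]
        simp
    · exact Finset.sum_congr rfl fun b _ => by ring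

theorem ren [CharZero K] (hi : Function.Injective (algebraMap O K)) (F : MvPolynomial (κ ⊕ ι) O)
    (h : ∀ b, pderiv (Sum.inr b) F = 0) : ∃ G : MvPolynomial κ O, rename Sum.inl G = F := by
  refine exists_rename_eq_of_vars_subset_range F _ Sum.inl_injective fun i hv => ?_
  cases i with
  | inl k => exact ⟨k, rfl⟩
  | inr b =>
    obtain ⟨m, hm, ha⟩ := (mem_vars_iff_mem_support _).1 (Finset.mem_coe.1 hv)
    rw [Finsupp.mem_support_iff] at ha
    have h4 := coeff_pderiv (i := Sum.inr b) F (m - Finsupp.single (Sum.inr b) 1)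
    rw [h, coeff_zero, tsub_add_cancel_of_le (Finsupp.single_le_iff.mpr
      (Nat.one_le_iff_ne_zero.mpr ha))] at h4
    have h5 := congrArg (algebraMap O K) h4.symm
    rw [map_zero, map_mul, map_add, map_natCast, map_one] at h5
    have h6 := (mul_eq_zero.mp h5).resolve_right (Nat.cast_add_one_ne_zero _)
    exact absurd ((map_eq_zero_iff _ hi).1 h6) (mem_support_iff.1 hm)

end ConstA

theorem p_CONST :
    S_CONST := by
  intro O K ι κ _ _ _ _ _ _ x z E c hg hi hz hw hc
  have hinj : Function.Injective (algebraMap O K) := hi.algebraMap_injective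
  have step : ∀ F H : MvPolynomial (κ ⊕ ι) O,
      c * aeval (Sum.elim z x) H = aeval (Sum.elim z x) F → ∀ b,
      c * aeval (Sum.elim z x) (pderiv (Sum.inr b) H) =
        aeval (Sum.elim z x) (pderiv (Sum.inr b) F) := fun F H h b => by
    have h1 : Matrix.vecMul (fun b => c * aeval (Sum.elim z x) (pderiv (Sum.inr b) H) -
        aeval (Sum.elim z x) (pderiv (Sum.inr b) F)) (Matrix.of fun b a => E a (x b)) = 0 := by
      funext a
      have h2 := congrArg (E a) h
      rw [Derivation.leibniz, hc, smul_zero, add_zero, smul_eq_mul, ConstA.chain x z _ (hz a),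
        ConstA.chain x z _ (hz a), Finset.mul_sum] at h2
      simp only [Matrix.vecMul, dotProduct, Matrix.of_apply, sub_mul, Finset.sum_sub_distrib,
        mul_assoc, Pi.zero_apply]
      exact sub_eq_zero.2 h2
    exact sub_eq_zero.1 (congrFun (Matrix.eq_zero_of_vecMul_eq_zero hw h1) b)
  have key : ∀ (n : ℕ) (F H : MvPolynomial (κ ⊕ ι) O), (∀ m, coeff m H ≠ 0 → m.degree < n) →
      aeval (Sum.elim z x) H ≠ 0 → c * aeval (Sum.elim z x) H = aeval (Sum.elim z x) F →
      InF O z c := by
    intro n
    induction n with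
    | zero =>
      intro F H hp h0 _
      refine absurd ?_ h0
      rw [show H = 0 from MvPolynomial.ext _ _ fun m => by
        by_contra hm
        exact Nat.not_lt_zero _ (hp m hm), map_zero]
    | succ n ih =>
      intro F H hp h0 h
      by_cases hb : ∀ b, aeval (Sum.elim z x) (pderiv (Sum.inr b) H) = 0
      · obtain ⟨H', rfl⟩ := ConstA.ren hinj H fun b => algebraicIndependent_iff.1 hi _ (hb b)
        obtain ⟨F', rfl⟩ := ConstA.ren hinj F fun b => algebraicIndependent_iff.1 hi _ (by
          rw [← step F _ h b, hb b, mul_zero])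
        rw [aeval_rename, Sum.elim_comp_inl] at h0
        rw [aeval_rename, aeval_rename, Sum.elim_comp_inl] at h
        exact ⟨F', H', h0, h⟩
      · obtain ⟨b, hb⟩ := not_forall.1 hb
        refine ih _ _ (fun m hm => ?_) hb (step F H h b)
        rw [coeff_pderiv] at hm
        have h3 := hp _ (left_ne_zero_of_mul hm)
        rw [map_add, Finsupp.degree_single] at h3
        omega
  obtain ⟨F, H, h0, h⟩ := hg c
  exact key (H.totalDegree + 1) F H
    (fun m hm => Nat.lt_succ_of_le (le_totalDegree (mem_support_iff.mpr hm))) h0 h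

end Pool.Agent.P.MP_e7d440_ag.Z
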