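import Pool.Agent.P.MP_e7d440_ag.Z.IfaceA

/-! Step CORE. -/

set_option autoImplicit false
set_option linter.unusedSectionVars false

namespace Pool.Agent.P.MP_e7d440_ag.Z

open IsLocalRing MvPolynomial U

namespace CoreA

variable {N T : Type} [CommRing N] [CommRing T] {ρ : N →+* T} {𝔮 : Ideal N}

lemma of (h : 𝔮.IsPrime) (a : N) : InL ρ 𝔮 (ρ a) :=
  ⟨1, fun h1 => h.ne_top ((Ideal.eq_top_iff_one _).2 h1), a, by simp⟩

lemma add (h : 𝔮.IsPrime) {z z' : T} : InL ρ 𝔮 z → InL ρ 𝔮 z' → InL ρ 𝔮 (z + z') := by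
  rintro ⟨r, hr, a, e⟩ ⟨r', hr', a', e'⟩
  refine ⟨r * r', fun h1 => (h.mem_or_mem h1).elim hr hr', a * r' + a' * r, ?_⟩
  rw [map_add, map_mul, map_mul, map_mul, ← e, ← e']; ring

lemma mul (h : 𝔮.IsPrime) {z z' : T} : InL ρ 𝔮 z → InL ρ 𝔮 z' → InL ρ 𝔮 (z * z') := by
  rintro ⟨r, hr, a, e⟩ ⟨r', hr', a', e'⟩
  refine ⟨r * r', fun h1 => (h.mem_or_mem h1).elim hr hr', a * a', ?_⟩
  rw [map_mul, map_mul, ← e, ← e']; ring

/-- the denominators -/
def den (ρ : N →+* T) (z : T) : Ideal N where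
  carrier := {r | ∃ a, ρ r * z = ρ a}
  zero_mem' := ⟨0, by simp⟩
  add_mem' := by
    rintro r r' ⟨a, e⟩ ⟨a', e'⟩
    exact ⟨a + a', by rw [map_add, map_add, add_mul, e, e']⟩
  smul_mem' := by
    rintro c r ⟨a, e⟩
    exact ⟨c * a, by rw [smul_eq_mul, map_mul, map_mul, mul_assoc, e]⟩

lemma meet (z : T) (W : Submonoid N) (π : N) (hπ : ρ π = 0)
    (h : ∀ 𝔮 : Ideal N, 𝔮.IsPrime → π ∈ 𝔮 → (∀ w ∈ W, w ∉ 𝔮) → InL ρ 𝔮 z) :
    ∃ w ∈ W, ∃ a, ρ w * z = ρ a := by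
  by_contra hc
  obtain ⟨𝔮, h1, h2, h3⟩ := Ideal.exists_le_prime_disjoint (den ρ z) W
    (Set.disjoint_left.2 fun w h1 h2 => hc ⟨w, h2, h1⟩)
  obtain ⟨r, hr, e⟩ := h 𝔮 h1 (h2 ⟨0, by simp [hπ]⟩) fun w hw h => Set.disjoint_left.1 h3 h hw
  exact hr (h2 e)

lemma unif {P L : Type} [CommRing P] [AddCommGroup L] [Module P L] (R S : Submodule P L)
    (hS : S.FG) (W : Submonoid P) (h : ∀ z ∈ S, ∃ w ∈ W, w • z ∈ R) :
    ∃ w ∈ W, ∀ z ∈ S, w • z ∈ R := by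
  obtain ⟨t, rfl⟩ := hS
  choose! w h1 h2 using fun z (hz : z ∈ t) => h z (Submodule.subset_span hz)
  refine ⟨∏ z ∈ t, w z, W.prod_mem h1, fun z hz => ?_⟩
  induction hz using Submodule.span_induction with
  | mem z hz =>
    obtain ⟨c, hc⟩ := Finset.dvd_prod_of_mem w hz
    rw [hc, mul_comm, mul_smul]
    exact R.smul_mem _ (h2 z hz)
  | zero => simp
  | add a b _ _ ha hb => rw [smul_add]; exact R.add_mem ha hb
  | smul c a _ ha => rw [smul_comm]; exact R.smul_mem _ ha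

end CoreA

theorem p_CORE (hTD : S_TD) (hGRADE : S_GRADE) (hLB : S_LB) (hREFL : S_REFL) (hCFIN : S_CFIN) (hCS2 : S_CS2) (hCFR : S_CFR) (hCFS : S_CFS) :
    S_CORE := by
  intro O k τ N T _ _ _ _ _ _ _ _ _ _ _ _ _ _ π p _ _ _ ρ i₀ e ψ hc hinj hcard hψ1 hψ2 hψ3 hloc hdep
  have hfin := hc.fin
  have hP : ∀ F : MvPolynomial τ k, ∃ F', map (algebraMap O k) F' = F :=
    map_surjective _ hc.sur
  have hπ : ρ (algebraMap O N π) = 0 := (hc.ker _).2 dvd_rfl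
  have hCπ : algebraMap (MvPolynomial τ O) N (C π) = algebraMap O N π :=
    (IsScalarTower.algebraMap_apply O (MvPolynomial τ O) N π).symm
  have hsm : ∀ (F : MvPolynomial τ O) (z : T), map (algebraMap O k) F • z =
      ρ (algebraMap (MvPolynomial τ O) N F) * z := fun F z => by rw [Algebra.smul_def, hc.com]
  let S : Subalgebra (MvPolynomial τ k) T :=
    { carrier := {z | Hul π ρ (e + 1) z}
      mul_mem' := fun ha hb 𝔮 h1 h2 h3 => CoreA.mul h1 (ha 𝔮 h1 h2 h3) (hb 𝔮 h1 h2 h3)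
      add_mem' := fun ha hb 𝔮 h1 h2 h3 => CoreA.add h1 (ha 𝔮 h1 h2 h3) (hb 𝔮 h1 h2 h3)
      algebraMap_mem' := fun F 𝔮 h1 _ _ => by
        obtain ⟨F, rfl⟩ := hP F
        rw [hc.com]; exact CoreA.of h1 _ }
  let R : Subalgebra (MvPolynomial τ k) T :=
    { ρ.range with
      algebraMap_mem' := fun F => by
        obtain ⟨F, rfl⟩ := hP F
        exact ⟨_, (hc.com F).symm⟩ }
  have hRS : R ≤ S := by
    rintro _ ⟨a, rfl⟩ 𝔮 h1 - -
    exact CoreA.of h1 a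
  obtain ⟨hS1, hS2⟩ := hCFIN O k τ N T π ρ (e + 1) S hc hcard fun z hz => hz
  have hSfg : (Subalgebra.toSubmodule S).FG := Module.Finite.iff_fg.1 hS1
  obtain ⟨M, n, α, β, hαβ⟩ := hCFR O k τ N T π p ρ i₀ R hc (fun z => Iff.rfl) hloc
  obtain ⟨_, ⟨j, rfl⟩, hj⟩ := CoreA.unif (Subalgebra.toSubmodule R) _ hSfg
    (Submonoid.powers (X i₀)) fun z hz => by
      obtain ⟨_, ⟨j, rfl⟩, a, ha⟩ := CoreA.meet z
        (Submonoid.powers (algebraMap (MvPolynomial τ O) N (X i₀))) _ hπ fun 𝔮 h1 h2 h3 =>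
          hCS2 O k τ N T π ρ (e + 1) z 𝔮 hc hz (hS2 z hz) h1 h2 fun 𝔮' a1 a2 a3 a4 =>
            hdep 𝔮' a1 a2 (Or.inl fun h => h3 _ (Submonoid.mem_powers _) (a3 h)) a4
      refine ⟨_, ⟨j, rfl⟩, a, ?_⟩
      beta_reduce at ha ⊢
      rw [← ha, ← map_pow, ← hsm, map_pow, map_X]
  let m1 : S →ₗ[MvPolynomial τ k] R := LinearMap.codRestrict (Subalgebra.toSubmodule R)
    ((X i₀ : MvPolynomial τ k) ^ j • S.val.toLinearMap) fun z => hj z z.2
  obtain ⟨n', α', β', h'⟩ := hCFS k τ S p (X i₀) (M + j)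
    ((ψ.comp S.val.toRingHom.toAddMonoidHom).codRestrict S fun z 𝔮 h1 h2 h3 =>
      hψ3 𝔮 h1 h2 h3 _ (z.2 𝔮 h1 h2 h3)) hS1
    (fun a b => Subtype.ext (hψ1 a b)) (fun z => Subtype.ext (hψ2 z))
    ⟨n, α ∘ₗ m1, (Subalgebra.inclusion hRS).toLinearMap ∘ₗ β, fun z => Subtype.ext (by
      have := congrArg Subtype.val (hαβ (m1 z))
      refine this.trans ?_
      change (X i₀ : MvPolynomial τ k) ^ M • (X i₀ : MvPolynomial τ k) ^ j • (z : T) =
        (X i₀ : MvPolynomial τ k) ^ (M + j) • (z : T)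
      rw [smul_smul, pow_add])⟩
  let i1 : Algebra (MvPolynomial τ O) (MvPolynomial τ k) := (map (algebraMap O k)).toAlgebra
  let i2 : Module (MvPolynomial τ O) S := Module.compHom S (map (algebraMap O k))
  let ι : N →ₗ[MvPolynomial τ O] S :=
    { toFun := fun a => ⟨ρ a, hRS ⟨a, rfl⟩⟩
      map_add' := fun a b => Subtype.ext (map_add ρ a b)
      map_smul' := fun F a => Subtype.ext (by
        change ρ (F • a) = map (algebraMap O k) F • ρ a
        rw [hsm, Algebra.smul_def, map_mul]) }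
  let 𝔠 : Ideal (MvPolynomial τ O) := (LinearMap.range ι).colon Set.univ
  obtain ⟨l, hl1, hl2, hl3⟩ := hGRADE O τ π 3 𝔠 hc.irr fun 𝔭 a1 a2 a3 => by
    refine hTD.ht (m := e) hc.irr a1 a2 (fun a4 => ?_) (by omega)
    obtain ⟨_, ⟨F, hF, rfl⟩, h2⟩ := CoreA.unif (Subalgebra.toSubmodule R) _ hSfg
      (𝔭.primeCompl.map (map (algebraMap O k) : MvPolynomial τ O →+* MvPolynomial τ k))
      fun z hz => by
        obtain ⟨_, ⟨F, hF, rfl⟩, a, ha⟩ := CoreA.meet z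
          (𝔭.primeCompl.map (algebraMap (MvPolynomial τ O) N)) _ hπ fun 𝔮 h1 h2 h3 =>
            hCS2 O k τ N T π ρ (e + 1) z 𝔮 hc hz (hS2 z hz) h1 h2 fun 𝔮' b1 b2 b3 b4 =>
              hdep 𝔮' b1 b2 (Or.inr (by
                obtain ⟨y, hy⟩ := a4
                refine ⟨fun i => algebraMap (MvPolynomial τ O) N (y i), fun F hF => hy F ?_⟩
                erw [aeval_algebraMap_apply N y F] at hF
                by_contra h
                exact h3 _ ⟨_, h, rfl⟩ (b3 hF))) b4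
        exact ⟨_, ⟨F, hF, rfl⟩, a, by rw [← ha, hsm]⟩
    refine hF (a3 (Submodule.mem_colon.2 fun z _ => ?_))
    obtain ⟨a, ha⟩ := h2 z z.2
    exact ⟨a, Subtype.ext ha⟩
  match l, hl1, hl2, hl3 with
  | [x₁, x₂, x₃], _, hl2, hl3 =>
    have hk : ∀ o, algebraMap O k o = 0 ↔ π ∣ o := fun o => ⟨fun h => by
      rw [← Ideal.mem_span_singleton, ← hc.irr.maximalIdeal_eq]
      exact fun hu => (hu.map (algebraMap O k)).ne_zero h, fun ⟨c, h⟩ => by
        rw [h, map_mul, hc.kil, zero_mul]⟩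
    have h0 : (C π : MvPolynomial τ O) ≠ 0 := C_ne_zero.2 hc.irr.ne_zero
    obtain ⟨b1, b2⟩ := hLB (MvPolynomial τ O) (MvPolynomial τ k) N S (C π) x₁ x₂ x₃ n' ι
      ⟨α'.toAddHom, fun F z => α'.map_smul (map (algebraMap O k) F) z⟩
      ⟨β'.toAddHom, fun F z => β'.map_smul (map (algebraMap O k) F) z⟩ hP
      (fun F => (C_dvd_iff_map_hom_eq_zero _ π hk F).symm)
      (fun a h => (mul_eq_zero.1 h).resolve_left h0)
      (fun a h => by
        rw [Algebra.smul_def] at h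
        exact (mul_eq_zero.1 h).resolve_left fun h => h0 (hinj (h.trans (map_zero _).symm)))
      (fun a => by
        simp only [Algebra.smul_def, hCπ]
        exact Subtype.ext_iff.trans (hc.ker a))
      (fun z => (h' z).trans (one_smul _ _)) hl3
      (fun z => ⟨Submodule.mem_colon.1 (hl2 x₁ (by simp)) z trivial,
        Submodule.mem_colon.1 (hl2 x₂ (by simp)) z trivial,
        Submodule.mem_colon.1 (hl2 x₃ (by simp)) z trivial⟩) (hREFL _ N hinj)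
    refine ⟨b2, fun z hz => ?_⟩
    obtain ⟨a, ha⟩ := b1 ⟨z, hz⟩
    exact ⟨a, congrArg Subtype.val ha⟩

end Pool.Agent.P.MP_e7d440_ag.Z
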