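import Pool.Agent.P.MP_e7d440_ag.Z.IfaceA

/-! Step CS2. -/

set_option autoImplicit false
set_option linter.unusedSectionVars false

namespace Pool.Agent.P.MP_e7d440_ag.Z

open IsLocalRing MvPolynomial U

namespace Cs2A

theorem minp {N : Type} [CommRing N] {J 𝔭 : Ideal N} (h : 𝔭 ∈ J.minimalPrimes) {x : N}
    (hx : x ∈ 𝔭) : ∃ r, r ∉ 𝔭 ∧ ∃ n : ℕ, r * x ^ n ∈ J := by
  have := h.isPrime
  by_contra hn
  obtain ⟨Q, hQ, h1, h2⟩ := J.exists_le_prime_disjoint (𝔭.primeCompl ⊔ Submonoid.powers x)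
    (Set.disjoint_left.2 fun y hy hy' => by
      obtain ⟨r, hr, _, ⟨n, rfl⟩, rfl⟩ := Submonoid.mem_sup.1 hy'
      exact hn ⟨r, hr, n, hy⟩)
  have h3 : Q ≤ 𝔭 := fun y hy => by
    by_contra k
    exact Set.disjoint_left.1 h2 hy (Submonoid.mem_sup_left (S := 𝔭.primeCompl) k)
  exact Set.disjoint_left.1 h2 (h.2 ⟨hQ, h1⟩ h3 hx)
    (Submonoid.mem_sup_right (Submonoid.mem_powers x))

theorem key {N T : Type} [CommRing N] [CommRing T] {ρ : N →+* T} {P a b C : N} {𝔭 : Ideal N}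
    (hp : 𝔭.IsPrime) (hk : ∀ u, ρ u = 0 ↔ P ∣ u) (hC : ∀ t, ρ C * t = 0 → t = 0)
    (ha : ∀ g, P ∣ a * g → ∃ r, r ∉ 𝔭 ∧ P ∣ r * g)
    (hb : ∀ g, b * g ∈ Ideal.span {P, a} → ∃ r, r ∉ 𝔭 ∧ r * g ∈ Ideal.span {P, a})
    {z : T} {w : N} (hw : ρ C * z = ρ w) (h1 : InL ρ 𝔭 (ρ a * z)) (h2 : InL ρ 𝔭 (ρ b * z)) :
    InL ρ 𝔭 z := by
  obtain ⟨r1, k1, f, e1⟩ := h1
  obtain ⟨r2, k2, g, e2⟩ := h2
  have hP : ρ P = 0 := (hk P).2 dvd_rfl
  obtain ⟨x, hx⟩ := (hk (b * (r2 * f) - a * (r1 * g))).1 (by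
    simp only [map_sub, map_mul]; linear_combination (-ρ b * ρ r2) * e1 + (ρ a * ρ r1) * e2)
  obtain ⟨r3, k3, h3⟩ := hb (r2 * f)
    (Ideal.mem_span_pair.2 ⟨x, r1 * g, by linear_combination -hx⟩)
  obtain ⟨y, h, e3⟩ := Ideal.mem_span_pair.1 h3
  have e4 := congrArg ρ e3
  simp only [map_add, map_mul, hP] at e4
  obtain ⟨r4, k4, h4⟩ := ha (r1 * r2 * r3 * w - C * h) ((hk _).1 (by
    simp only [map_sub, map_mul]
    linear_combination (-ρ a * ρ r1 * ρ r2 * ρ r3) * hw + (ρ C * ρ r2 * ρ r3) * e1 - ρ C * e4))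
  have e5 := (hk _).2 h4
  simp only [map_sub, map_mul] at e5
  refine ⟨r4 * (r1 * r2 * r3), fun m => ?_, r4 * h, sub_eq_zero.1 (hC _ ?_)⟩
  · simp only [hp.mul_mem_iff_mem_or_mem] at m
    tauto
  · simp only [map_mul]
    linear_combination e5 + (ρ r4 * ρ r1 * ρ r2 * ρ r3) * hw

theorem desc {N T : Type} [CommRing N] [CommRing T] {ρ : N →+* T} {P C : N} {𝔭 : Ideal N}
    (hp : 𝔭.IsPrime) (hk : ∀ u, ρ u = 0 ↔ P ∣ u) (hC : ∀ t, ρ C * t = 0 → t = 0)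
    (hd : Dep2 P 𝔭) {z : T} {w : N} (hw : ρ C * z = ρ w)
    (h : ∀ x ∈ 𝔭, ∃ n : ℕ, InL ρ 𝔭 (ρ x ^ n * z)) : InL ρ 𝔭 z := by
  obtain ⟨a, ha, b, hb, h1, h2⟩ := hd
  obtain ⟨m, r1, k1, f, e1⟩ := h a ha
  obtain ⟨n, r2, k2, g, e2⟩ := h b hb
  have H : ∀ l i j : ℕ, m + n ≤ i + j + l → InL ρ 𝔭 (ρ a ^ i * ρ b ^ j * z) := by
    intro l
    induction l with
    | zero =>
      intro i j hij
      rcases le_or_gt m i with k | k
      · obtain ⟨i, rfl⟩ := Nat.exists_eq_add_of_le k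
        exact ⟨r1, k1, a ^ i * b ^ j * f, by
          simp only [map_mul, map_pow]; linear_combination (ρ a ^ i * ρ b ^ j) * e1⟩
      · obtain ⟨j, rfl⟩ := Nat.exists_eq_add_of_le (show n ≤ j by omega)
        exact ⟨r2, k2, a ^ i * b ^ j * g, by
          simp only [map_mul, map_pow]; linear_combination (ρ a ^ i * ρ b ^ j) * e2⟩
    | succ l ih =>
      intro i j hij
      refine key hp hk hC h1 h2 (w := a ^ i * b ^ j * w) ?_ ?_ ?_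
      · simp only [map_mul, map_pow]; linear_combination (ρ a ^ i * ρ b ^ j) * hw
      · convert ih (i + 1) j (by omega) using 1; ring
      · convert ih i (j + 1) (by omega) using 1; ring
  simpa using H (m + n) 0 0 (by omega)

end Cs2A

theorem p_CS2 (hTD : S_TD) :
    S_CS2 := by
  rintro O k τ N T _ _ _ _ _ _ _ _ _ _ _ _ π ρ m z 𝔮 hc hu ⟨c, c0, w, hw⟩ hq - hd
  obtain ⟨F, rfl⟩ := map_surjective _ hc.sur c
  let J : Ideal N :=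
    { carrier := {u | ∃ a, ρ u * z = ρ a}
      add_mem' := fun ⟨a, h⟩ ⟨b, h'⟩ => ⟨a + b, by rw [map_add, map_add, add_mul, h, h']⟩
      zero_mem' := ⟨0, by simp⟩
      smul_mem' := fun r _ ⟨a, h⟩ => ⟨r * a, by rw [smul_eq_mul, map_mul, map_mul, mul_assoc, h]⟩ }
  by_contra hn
  obtain ⟨𝔭, h1, h2⟩ := Ideal.exists_minimalPrimes_le (I := J) (J := 𝔮) fun u hu => by
    by_contra k
    exact hn ⟨u, k, hu⟩
  have nl : ¬ InL ρ 𝔭 z := fun ⟨r, k1, k2⟩ => k1 (h1.le k2)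
  have hP : algebraMap O N π ∈ 𝔭 := h1.le ⟨0, by rw [(hc.ker _).2 dvd_rfl]; simp⟩
  refine nl (Cs2A.desc (C := algebraMap (MvPolynomial τ O) N F) (w := w) h1.isPrime hc.ker
    (fun t k => hc.nzd _ t c0 (by rw [Algebra.smul_def, hc.com, k]))
    (hd 𝔭 h1.isPrime hP h2 fun k => nl (hu 𝔭 h1.isPrime hP k))
    (by rw [← hc.com, ← Algebra.smul_def, hw]) fun x hx => ?_)
  obtain ⟨r, k1, n, a, k2⟩ := Cs2A.minp h1 hx
  exact ⟨n, r, k1, a, by rw [← k2, map_mul, map_pow, mul_assoc]⟩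

end Pool.Agent.P.MP_e7d440_ag.Z
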