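import Pool.Agent.P.MP_e7d440_ag.Z.IfaceA

/-! Step DEP. -/

set_option autoImplicit false
set_option linter.unusedSectionVars false

namespace Pool.Agent.P.MP_e7d440_ag.Z

open IsLocalRing MvPolynomial U

namespace DepA

variable {Q N K : Type} [CommRing Q] [CommRing N] [Field K] {φ : Q →+* K} {ψ : N →+* K}
  {𝔓 : Ideal Q} {𝔮 : Ideal N}

lemma ne0 (hφ : Function.Injective φ) {m : Q} (hm : m ∉ 𝔓) : φ m ≠ 0 := fun h =>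
  hm ((map_eq_zero_iff φ hφ).1 h ▸ 𝔓.zero_mem)

lemma mem (hφ : Function.Injective φ) (hψ : Function.Injective ψ) (hP : 𝔓.IsPrime)
    (h : ∀ γ, loc φ 𝔓 γ ↔ loc ψ 𝔮 γ) {a : Q} (ha : a ∈ 𝔓) :
    ∃ a₁ ∈ 𝔮, ∃ r, r ∉ 𝔮 ∧ φ a * ψ r = ψ a₁ := by
  obtain ⟨a₁, r, hr, e⟩ := (h _).1 (loc_map φ hP a)
  refine ⟨a₁, by_contra fun h1 => ?_, r, hr, e⟩
  have h2 : φ a ≠ 0 := fun h0 => ne0 hψ h1 (by rw [← e, h0, zero_mul])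
  obtain ⟨c, t, ht, e'⟩ := (h (φ a)⁻¹).2 ⟨r, a₁, h1, by rw [← e, inv_mul_cancel_left₀ h2]⟩
  have h3 : t = a * c := hφ (by rw [map_mul, ← e', mul_inv_cancel_left₀ h2])
  exact ht (h3 ▸ 𝔓.mul_mem_right c ha)

lemma tr (hφ : Function.Injective φ) (hψ : Function.Injective ψ) (hP : 𝔓.IsPrime)
    (hq : 𝔮.IsPrime) (h : ∀ γ, loc φ 𝔓 γ ↔ loc ψ 𝔮 γ) {p a b : Q} {p₁ a₁ b₁ r r' : N}
    (hp : φ p = ψ p₁) (hr : r ∉ 𝔮) (ha : φ a * ψ r = ψ a₁) (hr' : r' ∉ 𝔮)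
    (hb : φ b * ψ r' = ψ b₁)
    (H : ∀ g, b * g ∈ Ideal.span {p, a} → ∃ t, t ∉ 𝔓 ∧ t * g ∈ Ideal.span {p, a}) (g : N)
    (hg : b₁ * g ∈ Ideal.span {p₁, a₁}) : ∃ t, t ∉ 𝔮 ∧ t * g ∈ Ideal.span {p₁, a₁} := by
  obtain ⟨c, d, e⟩ := Ideal.mem_span_pair.1 hg
  have e := congrArg ψ e
  obtain ⟨g₁, s₁, h₁, e₁⟩ := (h _).2 (loc_map ψ hq (r' * g))
  obtain ⟨c₁, s₂, h₂, e₂⟩ := (h _).2 (loc_map ψ hq c)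
  obtain ⟨d₁, s₃, h₃, e₃⟩ := (h _).2 (loc_map ψ hq (d * r))
  simp only [map_add, map_mul] at e e₁ e₃
  obtain ⟨t, ht, h4⟩ := H (g₁ * s₂ * s₃) (Ideal.mem_span_pair.2 ⟨c₁ * s₁ * s₃, d₁ * s₁ * s₂, hφ (by
    simp only [map_add, map_mul]
    rw [← e₁, ← e₂, ← e₃, hp]
    linear_combination (φ s₁ * φ s₂ * φ s₃) * e + (φ s₁ * φ s₂ * φ s₃ * ψ d) * ha -
      (φ s₁ * φ s₂ * φ s₃ * ψ g) * hb)⟩)
  obtain ⟨u, w, e₄⟩ := Ideal.mem_span_pair.1 h4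
  have e₄ := congrArg φ e₄
  have hm : t * s₁ * s₂ * s₃ ∉ 𝔓 := fun hm => (hP.mem_or_mem hm).elim
    (fun hm => (hP.mem_or_mem hm).elim (fun hm => (hP.mem_or_mem hm).elim ht h₁) h₂) h₃
  have h0 := ne0 hφ hm
  obtain ⟨u₁, t₁, h5, e₅⟩ := (h (φ u / φ (t * s₁ * s₂ * s₃))).1 ⟨u, _, hm, div_mul_cancel₀ _ h0⟩
  obtain ⟨w₁, t₂, h6, e₆⟩ := (h (φ w / φ (t * s₁ * s₂ * s₃))).1 ⟨w, _, hm, div_mul_cancel₀ _ h0⟩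
  refine ⟨t₁ * t₂ * r * r', fun hm => (hq.mem_or_mem hm).elim
    (fun hm => (hq.mem_or_mem hm).elim (fun hm => (hq.mem_or_mem hm).elim h5 h6) hr) hr',
    Ideal.mem_span_pair.2 ⟨u₁ * t₂ * r, w₁ * t₁, hψ (mul_left_cancel₀ h0 ?_)⟩⟩
  rw [div_mul_eq_mul_div, div_eq_iff h0] at e₅ e₆
  simp only [map_add, map_mul] at e₄ e₅ e₆ ⊢
  rw [← ha, ← hp]
  rw [← e₁] at e₄
  linear_combination (ψ t₁ * ψ t₂ * ψ r) * e₄ - (ψ t₂ * ψ r * φ p) * e₅ -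
    (ψ t₁ * ψ r * φ a) * e₆

lemma dvd_iff {A : Type} [CommRing A] {p x : A} : x ∈ Ideal.span {p, 0} ↔ p ∣ x := by
  rw [Ideal.span_pair_comm, Ideal.span_insert_zero, Ideal.mem_span_singleton]

end DepA

theorem p_DEP :
    S_DEP := by
  intro Q N K _ _ _ _ φ 𝔓 𝔮 π' π hφ hψ hP hq hp h ⟨a, ha, b, hb, H1, H2⟩
  obtain ⟨a₁, h1, r, hr, e⟩ := DepA.mem hφ hψ hP h ha
  obtain ⟨b₁, h2, r', hr', e'⟩ := DepA.mem hφ hψ hP h hb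
  refine ⟨a₁, h1, b₁, h2, fun g hg => ?_, DepA.tr hφ hψ hP hq h hp hr e hr' e' H2⟩
  simpa only [DepA.dvd_iff] using DepA.tr (a := 0) (a₁ := 0) hφ hψ hP hq h hp hr (by simp) hr e
    (by simpa only [DepA.dvd_iff] using H1) g (DepA.dvd_iff.2 hg)

end Pool.Agent.P.MP_e7d440_ag.Z
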