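import Pool.Agent.P.MP_e7d440_ag.Z.IfaceB

/-! Step FA. -/

set_option autoImplicit false
set_option linter.unusedSectionVars false

namespace Pool.Agent.P.MP_e7d440_ag.Z

open IsLocalRing MvPolynomial U GrA

namespace FaA

theorem facH_iff {P A : Type} [CommRing P] [CommRing A] (φ : P →+* A) (c : P) :
    FacH φ c ↔ ∃ (n : ℕ) (α : Fin n → A →+ P) (b : Fin n → A),
      (∀ i F a, α i (φ F * a) = F * α i a) ∧ ∀ a, ∑ i, φ (α i a) * b i = φ c * a := by
  let _ := φ.toAlgebra
  have hs : ∀ (F : P) (a : A), F • a = φ F * a := fun F a => Algebra.smul_def F a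
  constructor
  · rintro ⟨n, α, β, h⟩
    refine ⟨n, fun i => ((LinearMap.proj i : (Fin n → P) →ₗ[P] P) ∘ₗ α).toAddMonoidHom,
      fun i => β (Pi.single i 1), fun i F a => ?_, fun a => ?_⟩
    · show α (φ F * a) i = F * α a i
      rw [← hs, map_smul]
      rfl
    · rw [← hs c a, ← h a]
      show ∑ i, φ (α a i) * β (Pi.single i 1) = β (α a)
      conv_rhs => rw [pi_eq_sum_univ' (α a), map_sum]
      refine Finset.sum_congr rfl fun i _ => ?_
      rw [map_smul, hs]
  · rintro ⟨n, α, b, h1, h2⟩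
    refine ⟨n, ⟨⟨fun a i => α i a, fun x y => ?_⟩, fun F a => ?_⟩,
      ⟨⟨fun v => ∑ i, φ (v i) * b i, fun x y => ?_⟩, fun F v => ?_⟩, fun a => ?_⟩
    · funext i
      exact map_add (α i) x y
    · funext i
      show α i (F • a) = F * α i a
      rw [hs, h1]
    · simp only [Pi.add_apply, map_add, add_mul, Finset.sum_add_distrib]
    · show ∑ i, φ (F * v i) * b i = F • ∑ i, φ (v i) * b i
      rw [hs, Finset.mul_sum]
      refine Finset.sum_congr rfl fun i _ => ?_
      rw [map_mul, mul_assoc]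
    · show ∑ i, φ (α i a) * b i = c • a
      rw [h2, hs]

theorem ev_s (O τ : Type) [CommRing O] : ev01 O τ (X (.inl 0)) = 0 := by simp [ev01]

theorem ev_u (O τ : Type) [CommRing O] : ev01 O τ (X (.inl 1)) = 1 := by simp [ev01]

theorem ev_x (O τ : Type) [CommRing O] (t : τ) : ev01 O τ (X (.inr t)) = X t := by simp [ev01]

theorem ev_C (O τ : Type) [CommRing O] (o : O) : ev01 O τ (C o) = C o := by simp [ev01]

theorem ev_rename {O τ : Type} [CommRing O] (G : MvPolynomial τ O) :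
    ev01 O τ (rename .inr G) = G := by
  induction G using MvPolynomial.induction_on with
  | C o => rw [rename_C, ev_C]
  | add p q hp hq => rw [map_add, map_add, hp, hq]
  | mul_X p t hp => rw [map_mul, map_mul, hp, rename_X, ev_x]

theorem ker {O τ : Type} [CommRing O] (F : MvPolynomial (Fin 2 ⊕ τ) O) :
    F - rename .inr (ev01 O τ F) ∈
      Ideal.span {(X (.inl 0) : MvPolynomial (Fin 2 ⊕ τ) O), X (.inl 1) - 1} := by
  have hX : ∀ t : Fin 2 ⊕ τ, (X t : MvPolynomial (Fin 2 ⊕ τ) O) - rename .inr (ev01 O τ (X t)) ∈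
      Ideal.span {(X (.inl 0) : MvPolynomial (Fin 2 ⊕ τ) O), X (.inl 1) - 1} := by
    rintro (j | t)
    · have h0 : (X (.inl 0) : MvPolynomial (Fin 2 ⊕ τ) O) - rename .inr (ev01 O τ (X (.inl 0))) ∈
          Ideal.span {(X (.inl 0) : MvPolynomial (Fin 2 ⊕ τ) O), X (.inl 1) - 1} := by
        rw [ev_s, map_zero, sub_zero]
        exact Ideal.subset_span (Set.mem_insert _ _)
      have h1 : (X (.inl 1) : MvPolynomial (Fin 2 ⊕ τ) O) - rename .inr (ev01 O τ (X (.inl 1))) ∈
          Ideal.span {(X (.inl 0) : MvPolynomial (Fin 2 ⊕ τ) O), X (.inl 1) - 1} := by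
        rw [ev_u, map_one]
        exact Ideal.subset_span (Set.mem_insert_of_mem _ rfl)
      obtain rfl | rfl : j = 0 ∨ j = 1 := by omega
      · exact h0
      · exact h1
    · rw [ev_x, rename_X, sub_self]
      exact Ideal.zero_mem _
  induction F using MvPolynomial.induction_on with
  | C o =>
    rw [ev_C, rename_C, sub_self]
    exact Ideal.zero_mem _
  | add p q hp hq =>
    rw [map_add, map_add, add_sub_add_comm]
    exact Ideal.add_mem _ hp hq
  | mul_X p t hp =>
    have : p * X t - rename .inr (ev01 O τ (p * X t)) =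
        X t * (p - rename .inr (ev01 O τ p)) +
          rename .inr (ev01 O τ p) * (X t - rename .inr (ev01 O τ (X t))) := by
      rw [map_mul, map_mul]
      ring
    rw [this]
    exact Ideal.add_mem _ (Ideal.mul_mem_left _ _ hp) (Ideal.mul_mem_left _ _ (hX t))

theorem kil {O τ N : Type} [CommRing O] [IsDomain O] [CommRing N]
    (φ : MvPolynomial (Fin 2 ⊕ τ) O →+* N) {π : O} (hπ : π ≠ 0)
    (α : N →+ MvPolynomial (Fin 2 ⊕ τ) O) (h : ∀ F a, α (φ F * a) = F * α a) (a : N) (k : ℕ)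
    (ha : φ (C π) ^ k * a ∈ Ideal.span {φ (X (.inl 0)), φ (X (.inl 1)) - 1}) :
    ev01 O τ (α a) = 0 := by
  obtain ⟨x, y, hxy⟩ := Ideal.mem_span_pair.1 ha
  have h1 : φ (C π ^ k) * a = φ (X (.inl 0)) * x + φ (X (.inl 1) - 1) * y := by
    rw [map_pow, ← hxy, map_sub, map_one]
    ring
  have h2 : ev01 O τ (α (φ (C π ^ k) * a)) =
      ev01 O τ (α (φ (X (.inl 0)) * x + φ (X (.inl 1) - 1) * y)) := by rw [h1]
  rw [map_add, h, h, h, map_add, map_mul, map_mul, map_mul, map_sub, map_pow, map_one, ev_s, ev_u,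
    ev_C, sub_self, zero_mul, zero_mul, add_zero] at h2
  rcases mul_eq_zero.1 h2 with h3 | h3
  · exact absurd (C_eq_zero.1 (pow_eq_zero_iff'.1 h3).1) hπ
  · exact h3

end FaA

open FaA in
theorem p_FA :
    S_FA := by
  refine ⟨fun F => ker F, ?_, ?_⟩
  · intro O τ N L _ _ _ _ φ φ₀ π ρ r hπ hρ hφ hF hk
    obtain ⟨n, α, b, h1, h2⟩ := (facH_iff φ r).1 hF
    have key : ∀ i a a', ρ a = ρ a' → ev01 O τ (α i a) = ev01 O τ (α i a') := by
      intro i a a' h
      obtain ⟨k, hk'⟩ := hk (a - a') (by rw [map_sub, h, sub_self])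
      have := kil φ hπ (α i) (h1 i) _ k hk'
      rwa [map_sub, map_sub, sub_eq_zero] at this
    obtain ⟨σ, hσ⟩ := hρ.hasRightInverse
    refine (facH_iff φ₀ _).2 ⟨n, fun i => AddMonoidHom.mk' (fun l => ev01 O τ (α i (σ l)))
      (fun x y => ?_), fun i => ρ (b i), fun i G l => ?_, fun l => ?_⟩
    · rw [← map_add, ← map_add]
      exact key i _ _ (by rw [map_add, hσ, hσ, hσ])
    · show ev01 O τ (α i (σ (φ₀ G * l))) = G * ev01 O τ (α i (σ l))
      rw [key i _ (φ (rename .inr G) * σ l) (by rw [map_mul, hσ, hσ, hφ, ev_rename]), h1, map_mul,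
        ev_rename]
    · show ∑ i, φ₀ (ev01 O τ (α i (σ l))) * ρ (b i) = φ₀ (ev01 O τ r) * l
      have := congrArg ρ (h2 (σ l))
      rw [map_sum, map_mul, hσ, hφ] at this
      rw [← this]
      refine Finset.sum_congr rfl fun i _ => ?_
      rw [map_mul, hφ]
  · intro O τ N _ _ _ φ π r hπ hF a k ha
    obtain ⟨n, α, b, h1, h2⟩ := (facH_iff φ r).1 hF
    rw [← h2]
    refine Ideal.sum_mem _ fun i _ => Ideal.mul_mem_right _ _ ?_
    have h3 := ker (α i a)
    rw [kil φ hπ (α i) (h1 i) a k ha, map_zero, sub_zero] at h3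
    obtain ⟨x, y, hxy⟩ := Ideal.mem_span_pair.1 h3
    refine Ideal.mem_span_pair.2 ⟨φ x, φ y, ?_⟩
    rw [← hxy, map_add, map_mul, map_mul, map_sub, map_one]

end Pool.Agent.P.MP_e7d440_ag.Z
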