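import Pool.Agent.P.MP_e7d440_ag.Z.IfaceA

/-! Step FACT. -/

set_option autoImplicit false
set_option linter.unusedSectionVars false

namespace Pool.Agent.P.MP_e7d440_ag.Z

open IsLocalRing MvPolynomial U

namespace FactA

variable {A M : Type} [CommRing A] [AddCommGroup M] [Module A M] {W : Submonoid A}

theorem expand {n : ℕ} (β : (Fin n → A) →ₗ[A] M) (x : Fin n → A) :
    β x = ∑ j, x j • β (Pi.single j 1) := by
  conv_lhs => rw [← Finset.univ_sum_single x, map_sum]
  refine Finset.sum_congr rfl fun j _ => ?_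
  rw [← map_smul, ← Pi.single_smul, smul_eq_mul, mul_one]

theorem one (h : ∀ (l : ℕ) (a : Fin l → A) (z : Fin l → M), ∑ j, a j • z j = 0 → ∃ c ∈ W,
      ∃ (n : ℕ) (b : Fin l → Fin n → A) (v : Fin n → M), (∀ i, ∑ j, a j * b j i = 0) ∧
        ∀ j, c • z j = ∑ i, b j i • v i)
    {l : ℕ} (β : (Fin l → A) →ₗ[A] M) (a : Fin l → A) (ha : β a = 0) :
    ∃ c ∈ W, ∃ (n : ℕ) (B : (Fin l → A) →ₗ[A] (Fin n → A)) (γ : (Fin n → A) →ₗ[A] M),
      B a = 0 ∧ ∀ x, γ (B x) = c • β x := by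
  obtain ⟨c, hc, n, b, v, h1, h2⟩ := h l a (fun j => β (Pi.single j 1)) (by rw [← expand, ha])
  have e : ∀ x i, Fintype.linearCombination A b x i = ∑ j, x j * b j i := fun x i => by
    simp [Fintype.linearCombination_apply, Finset.sum_apply]
  refine ⟨c, hc, n, Fintype.linearCombination A b, Fintype.linearCombination A v,
    funext fun i => (e a i).trans (h1 i), fun x => ?_⟩
  rw [expand β x, Finset.smul_sum, Fintype.linearCombination_apply A b, map_sum]
  refine Finset.sum_congr rfl fun j _ => ?_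
  rw [map_smul, Fintype.linearCombination_apply, ← h2, smul_comm]

theorem many (h : ∀ (l : ℕ) (a : Fin l → A) (z : Fin l → M), ∑ j, a j • z j = 0 → ∃ c ∈ W,
      ∃ (n : ℕ) (b : Fin l → Fin n → A) (v : Fin n → M), (∀ i, ∑ j, a j * b j i = 0) ∧
        ∀ j, c • z j = ∑ i, b j i • v i)
    {l : ℕ} (β : (Fin l → A) →ₗ[A] M) (s : Finset (Fin l → A)) (hs : ∀ a ∈ s, β a = 0) :
    ∃ c ∈ W, ∃ (n : ℕ) (B : (Fin l → A) →ₗ[A] (Fin n → A)) (γ : (Fin n → A) →ₗ[A] M),
      (∀ a ∈ s, B a = 0) ∧ ∀ x, γ (B x) = c • β x := by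
  classical
  induction s using Finset.induction_on with
  | empty => exact ⟨1, W.one_mem, l, LinearMap.id, β, by simp, by simp⟩
  | insert a s _ ih =>
    obtain ⟨c, hc, n, B, γ, h1, h2⟩ := ih fun x hx => hs x (Finset.mem_insert_of_mem hx)
    obtain ⟨c', hc', n', B', γ', k1, k2⟩ := one h γ (B a) (by
      rw [h2, hs a (Finset.mem_insert_self a s), smul_zero])
    refine ⟨c' * c, W.mul_mem hc' hc, n', B' ∘ₗ B, γ', fun x hx => ?_, fun x => ?_⟩
    · rcases Finset.mem_insert.1 hx with rfl | hx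
      · exact k1
      · rw [LinearMap.comp_apply, h1 x hx, map_zero]
    · rw [LinearMap.comp_apply, k2, h2, mul_smul]

theorem fact [IsNoetherianRing A] [Module.Finite A M]
    (h : ∀ (l : ℕ) (a : Fin l → A) (z : Fin l → M), ∑ j, a j • z j = 0 → ∃ c ∈ W,
      ∃ (n : ℕ) (b : Fin l → Fin n → A) (v : Fin n → M), (∀ i, ∑ j, a j * b j i = 0) ∧
        ∀ j, c • z j = ∑ i, b j i • v i) : ∃ c ∈ W, Fac M c := by
  obtain ⟨l, β, hβ⟩ := Module.Finite.exists_fin' A M
  obtain ⟨s, hs⟩ := IsNoetherian.noetherian (LinearMap.ker β)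
  obtain ⟨c, hc, n, B, γ, h1, h2⟩ := many h β s fun a ha =>
    LinearMap.mem_ker.1 (hs ▸ Submodule.subset_span ha)
  have hk : LinearMap.ker β ≤ LinearMap.ker B := by
    rw [← hs, Submodule.span_le]
    exact fun a ha => h1 a ha
  refine ⟨c, hc, n, (LinearMap.ker β).liftQ B hk ∘ₗ (β.quotKerEquivOfSurjective hβ).symm.toLinearMap,
    γ, fun m => ?_⟩
  obtain ⟨x, rfl⟩ := hβ m
  rw [← h2]
  congr 1
  simp

end FactA

theorem p_FACT :
    S_FACT := by
  refine ⟨fun A M _ _ _ _ _ W h => FactA.fact h, fun A M _ _ _ _ _ _ => ?_⟩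
  obtain ⟨c, hc, h⟩ := FactA.fact (M := M) (W := nonZeroDivisors A) fun l a z h => by
    by_cases k : ∀ j, a j = 0
    · exact ⟨1, one_mem _, l, fun j i => if j = i then 1 else 0, z, by simp [k], by simp⟩
    · obtain ⟨j0, k⟩ := not_forall.1 k
      refine ⟨a j0, mem_nonZeroDivisors_of_ne_zero k, l,
        fun j i => (if j = i then a j0 else 0) - if j = j0 then a i else 0, z, fun i => ?_,
        fun j => ?_⟩
      · simp [mul_sub, mul_comm]
      · by_cases m : j = j0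
        · simp [sub_smul, m, h]
        · simp [m]
  exact ⟨c, nonZeroDivisors.ne_zero hc, h⟩

end Pool.Agent.P.MP_e7d440_ag.Z
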