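import Pool.Agent.P.MP_e7d440_ag.Z.IfaceB
import Pool.Agent.P.MP_e7d440_ag.U.Gen

/-! Step FCH. -/

set_option autoImplicit false
set_option linter.unusedSectionVars false

namespace Pool.Agent.P.MP_e7d440_ag.Z

open IsLocalRing MvPolynomial U GrA

namespace FchA

/-- the localization as a subring -/
def locS {Q L : Type} [CommRing Q] [Field L] (φ : Q →+* L) (𝔓 : Ideal Q) (h : 𝔓.IsPrime) :
    Subring L where
  carrier := {γ | loc φ 𝔓 γ}
  mul_mem' := fun h1 h2 => loc.mul h h1 h2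
  add_mem' := fun h1 h2 => loc.add h h1 h2
  one_mem' := by simpa using loc_map φ h 1
  zero_mem' := by simpa using loc_map φ h 0
  neg_mem' := fun {x} h1 => by
    have := loc.mul h (loc_map φ h (-1)) h1
    simpa using this

variable {O K₀ K ν : Type} [CommRing O] [Field K₀] [Field K] [Algebra O K₀] [Algebra O K]
  [Algebra K₀ K] [IsScalarTower O K₀ K] {s u : K} {R : Subring K} {sp : R →+* K₀}

lemma spev' (H : Spc K₀ s u R sp) (y : ν → K₀) (F : MvPolynomial (Fin 2 ⊕ ν) O) :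
    ∃ r : R, (r : K) = aeval (cs s u fun k => algebraMap K₀ K (y k)) F ∧
      sp r = aeval y (ev01 O ν F) := by
  induction F using MvPolynomial.induction_on with
  | C o =>
    obtain ⟨h, e⟩ := H.const (algebraMap O K₀ o)
    refine ⟨⟨_, h⟩, ?_, ?_⟩
    · rw [aeval_C, IsScalarTower.algebraMap_apply O K₀ K]
    · rw [e, ev01, aeval_C, algebraMap_eq, aeval_C]
  | add F G hF hG =>
    obtain ⟨r1, h1, e1⟩ := hF
    obtain ⟨r2, h2, e2⟩ := hG
    exact ⟨r1 + r2, by rw [map_add, ← h1, ← h2]; rfl, by rw [map_add, map_add, map_add, e1, e2]⟩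
  | mul_X F i hF =>
    obtain ⟨r1, h1, e1⟩ := hF
    have hX : ∃ r : R, (r : K) = (cs s u fun k => algebraMap K₀ K (y k)) i ∧
        sp r = aeval y (ev01 O ν (X i)) := by
      rcases i with i | i
      · fin_cases i
        · obtain ⟨h, e⟩ := H.s0
          exact ⟨⟨_, h⟩, rfl, by rw [e, ev01, aeval_X]; simp⟩
        · obtain ⟨h, e⟩ := H.u1
          exact ⟨⟨_, h⟩, rfl, by rw [e, ev01, aeval_X]; simp⟩
      · obtain ⟨h, e⟩ := H.const (y i)
        exact ⟨⟨_, h⟩, rfl, by rw [e, ev01, aeval_X]; simp⟩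
    obtain ⟨r2, h2, e2⟩ := hX
    exact ⟨r1 * r2, by rw [map_mul, aeval_X, ← h1, ← h2]; rfl,
      by rw [map_mul, map_mul, map_mul, e1, e2]⟩

lemma spev (H : Spc K₀ s u R sp) (y : ν → K₀) (F : MvPolynomial (Fin 2 ⊕ ν) O) :
    ∃ h : aeval (cs s u fun k => algebraMap K₀ K (y k)) F ∈ R,
      sp ⟨_, h⟩ = aeval y (ev01 O ν F) := by
  obtain ⟨r, h, e⟩ := spev' H y F
  refine ⟨h ▸ r.2, ?_⟩
  rw [← e]
  congr 1
  exact Subtype.ext h.symm

lemma ev_ren (y : ν → K₀) (P : MvPolynomial ν O) :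
    aeval (cs s u fun k => algebraMap K₀ K (y k)) (rename (Sum.inr : ν → Fin 2 ⊕ ν) P) =
      algebraMap K₀ K (aeval y P) := by
  rw [aeval_rename, ← aeval_algebraMap_apply]
  rfl

lemma loc_ev (N : Subalgebra O K) (𝔮 : Ideal N) (h : 𝔮.IsPrime) {τ : Type} (z : τ → K)
    (hz : ∀ k, loc (algebraMap N K) 𝔮 (z k)) (F : MvPolynomial τ O) :
    loc (algebraMap N K) 𝔮 (aeval z F) :=
  GenA.aeval_mem z (locS (algebraMap N K) 𝔮 h)
    (fun o => by
      rw [IsScalarTower.algebraMap_apply O N K]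
      exact loc_map _ h _) hz F

/-- transport of a relation `γ * b = a` -/
lemma down (N : Subalgebra O K) (ρ : N →+* K₀)
    (hρ : ∀ a : N, ∃ h : (a : K) ∈ R, sp ⟨a, h⟩ = ρ a) {γ : K} (hγ : γ ∈ R) {a b : N}
    (e : γ * algebraMap N K b = algebraMap N K a) : sp ⟨γ, hγ⟩ * ρ b = ρ a := by
  obtain ⟨ha, ea⟩ := hρ a
  obtain ⟨hb, eb⟩ := hρ b
  rw [← ea, ← eb, ← map_mul]
  congr 1
  exact Subtype.ext e

end FchA

open FchA in
theorem p_FCH (hFA : S_FA) :
    S_FCH where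
  ker := by
    intro O K₀ K ν _ _ _ _ _ _ _ s u R sp N hs hu 𝔮 y H hq hc a h ha
    obtain ⟨F, G, hG, hGi, e⟩ := hc.2 a
    obtain ⟨hF', eF⟩ := spev H y F
    obtain ⟨hG', -⟩ := spev H y G
    have h0 : aeval y (ev01 O ν F) = 0 := by
      rw [← eF]
      have : (⟨_, hF'⟩ : R) = ⟨a, h⟩ * ⟨_, hG'⟩ := Subtype.ext e.symm
      rw [this, map_mul, ha, zero_mul]
    obtain ⟨A, B, hAB⟩ := Ideal.mem_span_pair.1 (hFA.ker F)
    have e2 := congrArg (aeval (cs s u fun k => algebraMap K₀ K (y k))) hAB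
    rw [map_sub, ev_ren, h0, map_zero, sub_zero, map_add, map_mul, map_mul, map_sub, aeval_X,
      aeval_X, map_one] at e2
    have es : (cs s u fun k => algebraMap K₀ K (y k)) (Sum.inl 0) = s := rfl
    have eu : (cs s u fun k => algebraMap K₀ K (y k)) (Sum.inl 1) = u := rfl
    rw [es, eu] at e2
    obtain ⟨a1, b1, hb1, r1⟩ := loc.mul hq (loc_ev N 𝔮 hq _ hc.1 A) hGi
    obtain ⟨a2, b2, hb2, r2⟩ := loc.mul hq (loc_ev N 𝔮 hq _ hc.1 B) hGi
    refine ⟨b1 * b2, fun hm => (hq.mem_or_mem hm).elim hb1 hb2,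
      Ideal.mem_span_pair.2 ⟨a1 * b2, a2 * b1, Subtype.ext ?_⟩⟩
    have r1' : (a1 : K) = _ := r1.symm
    have r2' : (a2 : K) = _ := r2.symm
    have ea : (a : K) = _ := (eq_mul_inv_iff_mul_eq₀ hG).2 e
    push_cast
    rw [r1', r2', ea, ← e2]
    change _ * (b1 : K) * _ * _ + _ * (b2 : K) * _ * _ = _
    ring
  sur := by
    intro O K₀ K ν _ _ _ _ _ _ _ _ _ _ s u R sp N ρ 𝔮 y x Z₀ H hq hρ hk hc hx hZ hZ' c hcI
    have hO : ∀ o, algebraMap O K₀ o ∈ locS ρ 𝔮 hq := fun o => by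
      obtain ⟨h, e⟩ := H.const (algebraMap O K₀ o)
      obtain ⟨h', e'⟩ := hρ (algebraMap O N o)
      have : algebraMap O K₀ o = ρ (algebraMap O N o) := by
        rw [← e', ← e]
        congr 1
        exact Subtype.ext (IsScalarTower.algebraMap_apply O K₀ K o).symm
      rw [this]
      exact loc_map _ hq _
    have hy : ∀ i, y i ∈ locS ρ 𝔮 hq := fun i => by
      obtain ⟨a, b, hb, e⟩ := hc.1 (Sum.inr i)
      obtain ⟨h, e'⟩ := H.const (y i)
      have := down N ρ hρ h e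
      rw [e'] at this
      exact ⟨a, b, hb, this⟩
    have key : ∀ a : N, ∃ F G : MvPolynomial ν O, aeval y G ≠ 0 ∧ (aeval y G)⁻¹ ∈ locS ρ 𝔮 hq ∧
        ρ a * aeval y G = aeval y F := fun a => by
      obtain ⟨F, G, hG, ⟨a', b, hb, r⟩, e⟩ := hc.2 a
      obtain ⟨hF', eF⟩ := spev H y F
      obtain ⟨hG', eG⟩ := spev H y G
      have r' : aeval (cs s u fun k => algebraMap K₀ K (y k)) G * algebraMap N K a' =
          algebraMap N K b := by
        rw [← r, mul_inv_cancel_left₀ hG]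
      have d1 := down N ρ hρ hG' r'
      rw [eG] at d1
      have hb0 : ρ b ≠ 0 := fun h0 => hb (hk h0)
      have hG0 : aeval y (ev01 O ν G) ≠ 0 := fun h0 => hb0 (by rw [← d1, h0, zero_mul])
      refine ⟨ev01 O ν F, ev01 O ν G, hG0, ⟨a', b, hb, ?_⟩, ?_⟩
      · rw [← d1, inv_mul_cancel_left₀ hG0]
      · obtain ⟨ha, ea⟩ := hρ a
        rw [← eF, ← eG, ← ea, ← map_mul]
        congr 1
        exact Subtype.ext e
    have hgy : Gen O y := by
      rw [gen.clos, eq_top_iff, ← (gen.clos _).1 hZ, Subfield.closure_le]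
      rintro γ (hγ | ⟨⟨γ, hγ⟩, rfl⟩)
      · exact Subfield.subset_closure (Or.inl hγ)
      · obtain ⟨a, rfl⟩ := hZ' γ hγ
        obtain ⟨F, G, hG, -, e⟩ := key a
        have m : ∀ P : MvPolynomial ν O, aeval y P ∈
            Subfield.closure (Set.range (algebraMap O K₀) ∪ Set.range y) := fun P =>
          GenA.aeval_mem y (Subfield.closure (Set.range (algebraMap O K₀) ∪ Set.range y)).toSubring
            (fun o => Subfield.subset_closure (Or.inl ⟨o, rfl⟩))
            (fun i => Subfield.subset_closure (Or.inr ⟨i, rfl⟩)) P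
        have ea : ρ a = _ := (eq_mul_inv_iff_mul_eq₀ hG).2 e
        change ρ a ∈ _
        rw [ea]
        exact mul_mem (m F) (inv_mem (m G))
    obtain ⟨S, hS, hn⟩ := gen.norm y (locS ρ 𝔮 hq) hgy (gen.indep y x hgy hx le_rfl) hO hy
    have hle : (Algebra.adjoin O Z₀).toSubring ≤ S := by
      intro γ hγ
      have hγ' : γ ∈ Algebra.adjoin O Z₀ := hγ
      induction hγ' using Algebra.adjoin_induction with
      | mem γ h =>
        obtain ⟨a, rfl⟩ := hZ' γ h
        exact (hS _).2 (key a)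
      | algebraMap o => exact (hS _).2 ⟨C o, 1, by simp, by simp, by simp⟩
      | add a b ha hb h1 h2 => exact add_mem (h1 ha) (h2 hb)
      | mul a b ha hb h1 h2 => exact mul_mem (h1 ha) (h2 hb)
    have hcS : c ∈ S := by
      apply hn
      obtain ⟨p, hp, e⟩ := hcI
      refine ⟨p.map (Subring.inclusion hle), hp.map _, ?_⟩
      rw [Polynomial.eval₂_map]
      exact e
    obtain ⟨F, G, hG, hGi, e⟩ := (hS c).1 hcS
    have ec : c = _ := (eq_mul_inv_iff_mul_eq₀ hG).2 e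
    have : c ∈ locS ρ 𝔮 hq := by
      rw [ec]
      exact mul_mem (GenA.aeval_mem y _ hO hy F) hGi
    exact this

end Pool.Agent.P.MP_e7d440_ag.Z
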