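import Pool.Agent.P.MP_e7d440_ag.Z.IfaceA
import Pool.Agent.P.MP_e7d440_ag.Basic
import Pool.Agent.P.MP_e7d440_ag.Reg
import Pool.Agent.P.MP_e7d440_ag.Dep
import Pool.Agent.P.MP_e7d440_ag.Cm

/-! Step GRADE. -/

set_option autoImplicit false
set_option linter.unusedSectionVars false

namespace Pool.Agent.P.MP_e7d440_ag.Z

open IsLocalRing MvPolynomial U

namespace GradeA

theorem assHt {Q : Type} [CommRing Q] [IsRegularRing Q] {𝔞 𝔓 : Ideal Q} {c : ℕ}
    (h : CI 𝔞 c) (ha : Ass 𝔞 𝔓) : 𝔓.height = c := by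
  obtain ⟨hp, g, hg⟩ := ha
  have h1 := basic.ciLoc (R := Localization.AtPrime 𝔓) 𝔓.primeCompl h
  have h2 : Ass (𝔞.map (algebraMap Q (Localization.AtPrime 𝔓)))
      (maximalIdeal (Localization.AtPrime 𝔓)) := by
    refine ⟨inferInstance, algebraMap Q _ g, fun r => ?_⟩
    obtain ⟨⟨a, s⟩, rfl⟩ := IsLocalization.mk'_surjective 𝔓.primeCompl r
    have hu : IsUnit (IsLocalization.mk' (Localization.AtPrime 𝔓) (1 : Q) s) :=
      IsUnit.of_mul_eq_one (algebraMap Q _ s) (by
        rw [IsLocalization.mk'_spec, map_one])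
    simp only
    rw [IsLocalization.AtPrime.mk'_mem_maximal_iff (Localization.AtPrime 𝔓) 𝔓 a s,
      IsLocalization.mk'_eq_mul_mk'_one, mul_right_comm, Ideal.mul_unit_mem_iff_mem _ hu,
      ← map_mul, IsLocalization.algebraMap_mem_map_algebraMap_iff 𝔓.primeCompl]
    constructor
    · intro ha
      exact ⟨1, Submonoid.one_mem _, by rw [one_mul]; exact (hg a).1 ha⟩
    · rintro ⟨m, hm, e⟩
      rw [← mul_assoc] at e
      exact (hp.mem_or_mem ((hg _).2 e)).resolve_left hm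
  have h3 := ((cm basic reg (dep basic)).unmix h1 h2).1
  have h4 := IsLocalization.AtPrime.ringKrullDim_eq_height 𝔓 (Localization.AtPrime 𝔓)
  rw [← IsLocalRing.maximalIdeal_height_eq_ringKrullDim, h3] at h4
  exact_mod_cast h4.symm

end GradeA

theorem p_GRADE :
    S_GRADE := by
  intro O τ _ _ _ _ π j 𝔠 hπ hc
  have h0 : CI (Ideal.span {(C π : MvPolynomial τ O)}) 1 := by
    refine ⟨[C π], rfl, ⟨fun g hg => ?_, trivial⟩, by simp [Ideal.ofList]⟩
    rw [Ideal.mem_bot] at hg ⊢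
    exact (mul_eq_zero.1 hg).resolve_left (by simpa using hπ.ne_zero)
  have key : ∀ i, i ≤ j → ∃ l : List (MvPolynomial τ O), l.length = i ∧ (∀ x ∈ l, x ∈ 𝔠) ∧
      RegSeq (Ideal.span {C π}) l := by
    intro i
    induction i with
    | zero => exact fun _ => ⟨[], rfl, by simp, trivial⟩
    | succ i ih =>
      intro hi
      obtain ⟨l, hl, hm, hr⟩ := ih (by omega)
      have h1 := basic.ciAppend h0 hr
      have h2 : ∀ 𝔓, Ass (Ideal.span {(C π : MvPolynomial τ O)} ⊔ Ideal.ofList l) 𝔓 →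
          ¬ 𝔠 ≤ 𝔓 := by
        intro 𝔓 ha hle
        have h3 := GradeA.assHt h1 ha
        have h4 := hc 𝔓 ha.1
          (basic.assLe ha (Ideal.mem_sup_left (Ideal.mem_span_singleton_self _))) hle
        rw [h3, hl] at h4
        have h5 : j + 1 ≤ 1 + i := by exact_mod_cast h4
        omega
      obtain ⟨b, hb, hn, -⟩ := basic.avoid2 _ _ 𝔠 h2 h2
      refine ⟨l ++ [b], by simp [hl], ?_, (basic.regAppend _ _ _).2 ⟨hr, hn, trivial⟩⟩
      intro x hx
      rcases List.mem_append.1 hx with h | h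
      · exact hm x h
      · rw [List.mem_singleton.1 h]; exact hb
  exact key j le_rfl

end Pool.Agent.P.MP_e7d440_ag.Z
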