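import Pool.Agent.P.MP_e7d440_ag.Z.IfaceB

/-! Step GRN. -/

set_option autoImplicit false
set_option linter.unusedSectionVars false

namespace Pool.Agent.P.MP_e7d440_ag.Z

open IsLocalRing MvPolynomial U GrA

namespace GrnA

open AddMonoidAlgebra

variable {O K : Type} [CommRing O] [Field K] [CharZero K] [Algebra O K] (δ : Derivation O K K)

/-- the operator which measures the failure of homogeneity -/
noncomputable def Th (f : LaurentPolynomial K) : LaurentPolynomial K :=
  .ofCoeff (Finsupp.onFinset f.coeff.support (fun n => δ (f.coeff n) - n * f.coeff n) fun n h => by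
    rw [Finsupp.mem_support_iff]
    intro e
    simp [e] at h)

lemma Th_coeff (f : LaurentPolynomial K) (n : ℤ) :
    (Th δ f).coeff n = δ (f.coeff n) - n * f.coeff n := rfl

lemma Th_add (f g : LaurentPolynomial K) : Th δ (f + g) = Th δ f + Th δ g := by
  ext n
  simp [Th_coeff]
  ring

lemma Th_neg (f : LaurentPolynomial K) : Th δ (-f) = -Th δ f := by
  ext n
  simp [Th_coeff]
  ring

lemma Th_single (n : ℤ) (a : K) : Th δ (single n a) = single n (δ a - n * a) := by
  ext m
  rw [Th_coeff, coeff_single, coeff_single]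
  by_cases h : n = m
  · simp [h]
  · simp [Finsupp.single_eq_of_ne' h]

lemma Th_zero : Th δ 0 = 0 := by
  ext n
  simp [Th_coeff]

lemma Th_mul (f g : LaurentPolynomial K) : Th δ (f * g) = f * Th δ g + g * Th δ f := by
  induction f using induction_linear with
  | zero => simp [Th_zero]
  | add x y hx hy => rw [add_mul, Th_add, Th_add, hx, hy]; ring
  | single m a =>
    induction g using induction_linear with
    | zero => simp [Th_zero]
    | add x y hx hy => rw [mul_add, Th_add, Th_add, hx, hy]; ring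
    | single n b =>
      simp only [single_mul_single, Th_single]
      rw [add_comm n m, ← single_add, Derivation.leibniz]
      congr 1
      simp only [smul_eq_mul]
      push_cast
      ring

/-- the homogeneous Laurent polynomials -/
def Hs : Subring (LaurentPolynomial K) where
  carrier := {f | Th δ f = 0}
  mul_mem' {f g} hf hg := by
    rw [Set.mem_ofPred_eq] at hf hg ⊢
    rw [Th_mul, hf, hg, mul_zero, mul_zero, add_zero]
  one_mem' := by
    change Th δ (single 0 1) = 0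
    rw [Th_single]
    simp
  add_mem' {f g} hf hg := by
    rw [Set.mem_ofPred_eq] at hf hg ⊢
    rw [Th_add, hf, hg, add_zero]
  zero_mem' := Th_zero δ
  neg_mem' {f} hf := by
    rw [Set.mem_ofPred_eq] at hf ⊢
    rw [Th_neg, hf, neg_zero]

lemma single_mem {n : ℤ} {a : K} (h : δ a = n * a) : single n a ∈ Hs δ := by
  change Th δ _ = 0
  rw [Th_single, h, sub_self, single_zero]

lemma eig_of_mem {f : LaurentPolynomial K} (h : f ∈ Hs δ) (n : ℤ) :
    δ (f.coeff n) = n * f.coeff n := by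
  have h' : Th δ f = 0 := h
  rw [← sub_eq_zero, ← Th_coeff, h']
  rfl

/-- evaluation at one -/
noncomputable def ev : LaurentPolynomial K →+* K := LaurentPolynomial.eval₂ (RingHom.id K) 1

lemma ev_single (n : ℤ) (a : K) : ev (single n a) = a := by
  simp [ev]

lemma ev_eq (f : LaurentPolynomial K) : ev f = ∑ n ∈ f.coeff.support, f.coeff n := by
  conv_lhs => rw [← sum_coeff_single f, Finsupp.sum, map_sum]
  exact Finset.sum_congr rfl fun n _ => ev_single _ _

lemma ev_inj (hH : S_HOM) {f : LaurentPolynomial K} (h : f ∈ Hs δ) (e : ev f = 0) : f = 0 := by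
  have := hH.eig (fun n : ℤ => (n : ℚ)) δ f.coeff.support (fun n => f.coeff n) Int.cast_injective
    (fun n _ => by simpa using eig_of_mem δ h n) (by rw [← ev_eq, e])
  ext n
  by_contra hn
  exact hn (this n (Finsupp.mem_support_iff.2 hn))

lemma lift (hH : S_HOM) {B : Type} [CommRing B] (ι : B →+* LaurentPolynomial K)
    (hι : Function.Injective ι) (Z : Set K) (hO : ∀ o, ∃ b, ι b = single 0 (algebraMap O K o))
    (hZ : ∀ c ∈ Z, ∃ (b : B) (j : ℤ), δ c = j * c ∧ ι b = single j c) :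
    ∃ ψ : Algebra.adjoin O Z →+* B, (∀ a, ι (ψ a) ∈ Hs δ) ∧
      (ev.comp ι).comp ψ = algebraMap (Algebra.adjoin O Z) K := by
  have key : ∀ a : Algebra.adjoin O Z, ∃ b, ι b ∈ Hs δ ∧ ev (ι b) = a := by
    rintro ⟨a, ha⟩
    induction ha using Algebra.adjoin_induction with
    | mem c hc =>
      obtain ⟨b, j, h1, h2⟩ := hZ c hc
      exact ⟨b, h2 ▸ single_mem δ h1, by rw [h2, ev_single]⟩
    | algebraMap o =>
      obtain ⟨b, h2⟩ := hO o
      exact ⟨b, h2 ▸ single_mem δ (by simp), by rw [h2, ev_single]⟩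
    | add x y _ _ hx hy =>
      obtain ⟨b, h1, h2⟩ := hx
      obtain ⟨b', h1', h2'⟩ := hy
      exact ⟨b + b', by rw [map_add]; exact add_mem h1 h1', by rw [map_add, map_add, h2, h2']⟩
    | mul x y _ _ hx hy =>
      obtain ⟨b, h1, h2⟩ := hx
      obtain ⟨b', h1', h2'⟩ := hy
      exact ⟨b * b', by rw [map_mul]; exact mul_mem h1 h1', by rw [map_mul, map_mul, h2, h2']⟩
  choose f h1 h2 using key
  have u : ∀ b b', ι b ∈ Hs δ → ι b' ∈ Hs δ → ev (ι b) = ev (ι b') → b = b' := fun b b' k k' e =>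
    hι (sub_eq_zero.1 (ev_inj δ hH (sub_mem k k') (by rw [map_sub, e, sub_self])))
  refine ⟨⟨⟨⟨f, u _ _ (h1 _) (by rw [map_one]; exact one_mem _) (by simp [h2])⟩, fun x y =>
    u _ _ (h1 _) (by rw [map_mul]; exact mul_mem (h1 _) (h1 _)) (by simp [h2])⟩,
    u _ _ (h1 _) (by rw [map_zero]; exact zero_mem _) (by simp [h2]), fun x y =>
    u _ _ (h1 _) (by rw [map_add]; exact add_mem (h1 _) (h1 _)) (by simp [h2])⟩, h1,
    RingHom.ext h2⟩

lemma dvd_of_int {A B : Type} [CommRing A] [Algebra A K] [CommRing B] [IsDomain B]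
    [IsIntegrallyClosed B] (hA : Function.Injective (algebraMap A K)) (ψ : A →+* B) {a c : A}
    {b : K} (hb : IsIntegral A b) (e : algebraMap A K c * b = algebraMap A K a) (hc : ψ c ≠ 0) :
    ψ c ∣ ψ a := by
  obtain ⟨p, hp, h0⟩ := hb
  have h1 : (p.scaleRoots c).eval a = 0 := hA (by
    rw [← Polynomial.eval₂_at_apply, ← e, Polynomial.scaleRoots_eval₂_mul, h0, mul_zero, map_zero])
  have inj := IsFractionRing.injective B (FractionRing B)
  obtain ⟨g, hg⟩ : ∃ g : A →+* FractionRing B, g = (algebraMap B _).comp ψ := ⟨_, rfl⟩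
  have hc' : g c ≠ 0 := by
    rw [hg]
    exact (map_ne_zero_iff _ inj).2 hc
  have h2 := Polynomial.scaleRoots_eval₂_mul (p := p) g (g a / g c) c
  rw [mul_div_cancel₀ _ hc', Polynomial.eval₂_at_apply, h1, map_zero] at h2
  obtain ⟨q, hq⟩ := (isIntegrallyClosed_iff (R := B) (FractionRing B)).1 inferInstance
    (x := g a / g c) ⟨p.map ψ, hp.map ψ, by
      rw [Polynomial.eval₂_map, ← hg]
      exact (mul_eq_zero.1 h2.symm).resolve_left (pow_ne_zero _ hc')⟩
  refine ⟨q, inj ?_⟩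
  rw [map_mul, hq]
  rw [hg] at hc' ⊢
  exact (mul_div_cancel₀ _ hc').symm

lemma map_inj {R S : Type} [CommRing R] [CommRing S] (f : R →+* S) (h : Function.Injective f) :
    Function.Injective (mapRingHom ℤ f) := fun x y e => by
  ext n
  exact h (by rw [← coeff_mapRingHom, e, coeff_mapRingHom])

lemma dec (hH : S_HOM) (hN : S_NCF) (N : Subalgebra O K) (Z : Set K) (h : IsNc N Z)
    (hZ : ∀ c ∈ Z, ∃ j : ℤ, δ c = j * c) (hG : Gen O (Subtype.val : Z → K)) (b : K) (hb : b ∈ N) :
    ∃ (t : Finset ℤ) (v : ℤ → K), (∀ j, v j ∈ N ∧ δ (v j) = j * v j) ∧ b = ∑ j ∈ t, v j := by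
  obtain ⟨z1, z2⟩ := hN.int N Z h
  have hm : ∀ F : MvPolynomial Z O, aeval (Subtype.val : Z → K) F ∈ Algebra.adjoin O Z :=
    fun F => by
      rw [Algebra.adjoin_eq_range]
      exact ⟨F, rfl⟩
  have hle : Algebra.adjoin O Z ≤ N := Algebra.adjoin_le z1
  have : IsFractionRing N K := IsFractionRing.of_field N K fun γ => by
    obtain ⟨F, G, h1, h2⟩ := hG γ
    exact ⟨⟨_, hle (hm F)⟩, ⟨_, hle (hm G)⟩, eq_div_of_mul_eq h1 h2⟩
  have : IsIntegrallyClosed N := (isIntegrallyClosed_iff K).2 fun hx => ⟨⟨_, z2 _ hx⟩, rfl⟩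
  have : IsIntegrallyClosed (LaurentPolynomial N) :=
    isIntegrallyClosed_of_isLocalization (LaurentPolynomial N)
      (Submonoid.powers (Polynomial.X : Polynomial N))
      (powers_le_nonZeroDivisors_of_noZeroDivisors Polynomial.X_ne_zero)
  obtain ⟨ψ, h1, h2⟩ := lift δ hH (mapRingHom ℤ (algebraMap N K))
    (map_inj _ Subtype.val_injective) Z
    (fun o => ⟨single 0 (algebraMap O N o), by rw [mapRingHom_single]; rfl⟩) fun c hc => by
      obtain ⟨j, hj⟩ := hZ c hc
      exact ⟨single j ⟨c, z1 hc⟩, j, hj, by rw [mapRingHom_single]; rfl⟩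
  have h3 : ∀ a, ev (mapRingHom ℤ (algebraMap N K) (ψ a)) = a := fun a => RingHom.congr_fun h2 a
  obtain ⟨F, G, g1, g2⟩ := hG b
  have hc : mapRingHom ℤ (algebraMap N K) (ψ ⟨_, hm G⟩) ≠ 0 := fun e => g1 (by
    simpa [e] using (h3 ⟨_, hm G⟩).symm)
  obtain ⟨q, hq⟩ := dvd_of_int Subtype.val_injective ψ (a := ⟨_, hm F⟩) (c := ⟨_, hm G⟩)
    ((h b).1 hb) ((mul_comm _ _).trans g2) fun e => hc (by rw [e, map_zero])
  have e1 := congrArg (mapRingHom ℤ (algebraMap N K)) hq
  rw [map_mul] at e1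
  have e2 : Th δ _ = 0 := h1 ⟨_, hm F⟩
  have e3 : Th δ _ = 0 := h1 ⟨_, hm G⟩
  rw [e1, Th_mul, e3, mul_zero, add_zero] at e2
  have e4 := congrArg ev e1
  rw [map_mul, h3, h3] at e4
  refine ⟨(mapRingHom ℤ (algebraMap N K) q).coeff.support,
    fun j => (mapRingHom ℤ (algebraMap N K) q).coeff j, fun j => ⟨?_,
      eig_of_mem δ ((mul_eq_zero.1 e2).resolve_left hc) j⟩, ?_⟩
  · beta_reduce
    rw [coeff_mapRingHom]
    exact (q.coeff j).2
  · rw [← ev_eq]
    exact mul_left_cancel₀ g1 (((mul_comm _ _).trans g2).trans e4)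

lemma non (hH : S_HOM) (hN : S_NCF) (N : Subalgebra O K) (Z : Set K) (V : ValuationSubring K)
    (h : IsNc N Z) (hV : ∀ b ∈ N, b ∈ V)
    (hZ : ∀ c ∈ Z, ∃ j : ℤ, δ c = j * c ∧ (j ≠ 0 → c ∈ V.nonunits)) (b : K) (hb : b ∈ N) (j : ℤ)
    (hj : j ≠ 0) (e : δ b = j * b) : b ∈ V.nonunits := by
  obtain ⟨B, hB⟩ : ∃ B : Subring (LaurentPolynomial V), ∀ f, f ∈ B ↔
      ∃ r, single 0 r = mapRingHom ℤ (residue V) f :=
    ⟨(LaurentPolynomial.C (R := ResidueField V)).range.comap (mapRingHom ℤ (residue V)),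
      fun _ => Iff.rfl⟩
  have inj := map_inj V.subtype Subtype.val_injective
  obtain ⟨ψ, h1, h2⟩ := lift δ hH ((mapRingHom ℤ V.subtype).comp B.subtype)
    (inj.comp Subtype.val_injective) Z
    (fun o => ⟨⟨single 0 ⟨_, hV _ (N.algebraMap_mem o)⟩,
      (hB _).2 ⟨_, (mapRingHom_single _ _ _).symm⟩⟩, mapRingHom_single _ _ _⟩) fun c hc => by
      obtain ⟨i, h1, h2⟩ := hZ c hc
      refine ⟨⟨single i ⟨c, hV c ((hN.int N Z h).1 hc)⟩, (hB _).2 ?_⟩, i, h1,
        mapRingHom_single _ _ _⟩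
      rw [mapRingHom_single]
      by_cases hi : i = 0
      · exact ⟨_, by rw [hi]⟩
      · exact ⟨0, by rw [(residue_eq_zero_iff _).2 (V.coe_mem_nonunits_iff.1 (h2 hi)),
          single_zero, single_zero]⟩
  obtain ⟨p, hp, h0⟩ := (h b).1 hb
  have s1 : mapRingHom ℤ V.subtype (single j ⟨b, hV b hb⟩) = single j b := mapRingHom_single _ _ _
  have e1 : p.eval₂ (B.subtype.comp ψ) (single j ⟨b, hV b hb⟩) = 0 := by
    refine inj ((ev_inj δ hH ?_ ?_).trans (map_zero _).symm)
    · rw [Polynomial.hom_eval₂, s1, Polynomial.eval₂_eq_sum_range]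
      exact sum_mem fun i _ => mul_mem (h1 _) (pow_mem (single_mem δ e) _)
    · rw [Polynomial.hom_eval₂, Polynomial.hom_eval₂, s1, ev_single, ← h0, ← h2]
      rfl
  have e2 := congrArg (fun f => (mapRingHom ℤ (residue V) f).coeff (p.natDegree • j)) e1
  choose r hr using fun i => (hB _).1 (ψ (p.coeff i)).2
  have e3 : ∀ i, mapRingHom ℤ (residue V) ((B.subtype.comp ψ) (p.coeff i) *
      single j ⟨b, hV b hb⟩ ^ i) = single (i • j) (r i * residue V ⟨b, hV b hb⟩ ^ i) := fun i => by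
    rw [map_mul, map_pow, mapRingHom_single, single_pow]
    exact (congrArg (· * _) (hr i).symm).trans (by rw [single_mul_single, zero_add])
  have e4 : r p.natDegree = 1 := by
    have := hr p.natDegree
    rw [hp.coeff_natDegree, map_one, OneMemClass.coe_one, map_one] at this
    have := congrArg (fun f => f.coeff 0) this
    simpa only [AddMonoidAlgebra.one_def, coeff_single, Finsupp.single_eq_same] using this
  simp only [Polynomial.eval₂_eq_sum_range, map_sum, e3, map_zero,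
    AddMonoidAlgebra.coeff_sum, coeff_single, Finsupp.finsetSum_apply,
    AddMonoidAlgebra.coeff_zero, Finsupp.zero_apply] at e2
  rw [Finset.sum_eq_single p.natDegree (fun i _ hi => Finsupp.single_eq_of_ne' fun k => hi (by
    simpa [hj] using k)) (by simp), Finsupp.single_eq_same, e4, one_mul] at e2
  exact V.coe_mem_nonunits_iff.2 ((residue_eq_zero_iff _).1 (eq_zero_of_pow_eq_zero e2))

end GrnA

theorem p_GRN (hHOM : S_HOM) (hNCF : S_NCF) :
    S_GRN :=
  ⟨fun δ N Z h hZ hG b hb => GrnA.dec δ hHOM hNCF N Z h hZ hG b hb,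
    fun δ N Z V h hV hZ b hb j hj e => GrnA.non δ hHOM hNCF N Z V h hV hZ b hb j hj e⟩

end Pool.Agent.P.MP_e7d440_ag.Z
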