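import Pool.Agent.P.MP_e7d440_ag.Z.IfaceB

/-! Step H2. -/

set_option autoImplicit false
set_option linter.unusedSectionVars false

namespace Pool.Agent.P.MP_e7d440_ag.Z

open IsLocalRing MvPolynomial U GrA

namespace H2A

theorem key {R : Type} [CommRing R] [IsDomain R] [IsNoetherianRing R]
    [UniqueFactorizationMonoid R] {P : Ideal R} [P.IsPrime] (hP : P.height ≤ 2) {a b t : R}
    (h : IsRelPrime a b) (hb : b ≠ 0) (ht : t ∈ P) :
    ∃ r, r ∉ P ∧ ∃ M : ℕ, r * t ^ M ∈ Ideal.span {a, b} := by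
  by_contra hc
  push Not at hc
  obtain ⟨p, hp, h1, h2⟩ := (Ideal.span {a, b}).exists_le_prime_disjoint
    (P.primeCompl ⊔ .powers t) (Set.disjoint_left.2 fun x hx hx' => by
      obtain ⟨r, hr, _, ⟨M, rfl⟩, rfl⟩ := Submonoid.mem_sup.1 hx'
      exact hc r hr M hx)
  have h3 : p < P := lt_of_le_of_ne (fun x hx => by_contra fun hx' =>
    Set.disjoint_left.1 h2 hx (Submonoid.mem_sup_left hx')) fun e =>
      Set.disjoint_left.1 h2 (e.ge ht) (Submonoid.mem_sup_right (Submonoid.mem_powers t))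
  have ha := h1 (Ideal.subset_span (Set.mem_insert a _))
  have hb' := h1 (Ideal.subset_span (Set.mem_insert_of_mem a rfl))
  obtain ⟨q, hq, hq'⟩ := hp.exists_mem_prime_of_ne_bot fun e => hb (by simpa [e] using hb')
  have := (Ideal.span_singleton_prime hq'.ne_zero).2 hq'
  rcases ((Ideal.span_singleton_le_iff_mem p).2 hq).eq_or_lt with e | e
  · rw [← e, Ideal.mem_span_singleton] at ha hb'
    exact hq'.not_isUnit (h ha hb')
  · have e0 : (⊥ : Ideal R) < Ideal.span {q} := by simpa [bot_lt_iff_ne_bot] using hq'.ne_zero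
    have k0 := Ideal.height_add_one_le_of_lt_of_isPrime e0
    have k1 := Ideal.height_add_one_le_of_lt_of_isPrime e
    have k2 := Ideal.height_add_one_le_of_lt_of_isPrime h3
    have : (0 : ℕ∞) + 1 + 1 + 1 ≤ 2 := le_trans (by
      gcongr
      refine le_trans ?_ k1
      gcongr
      exact le_trans (by gcongr; exact zero_le) k0) (k2.trans hP)
    exact absurd this (by decide)

theorem prime {O κ : Type} [CommRing O] {π : O} (hπ : Prime π) (i₀ : κ) :
    (Ideal.span {C π, X i₀} : Ideal (MvPolynomial κ O)).IsPrime := by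
  classical
  have := (Ideal.span_singleton_prime hπ.ne_zero).2 hπ
  let P : Ideal (MvPolynomial κ O) := Ideal.span {C π, X i₀}
  have h1 : Ideal.Quotient.mk P (C π) = 0 :=
    Ideal.Quotient.eq_zero_iff_mem.2 (Ideal.subset_span (by simp))
  have h2 : Ideal.Quotient.mk P (X i₀) = 0 :=
    Ideal.Quotient.eq_zero_iff_mem.2 (Ideal.subset_span (by simp))
  let φ : MvPolynomial κ O →+* MvPolynomial κ (O ⧸ Ideal.span {π}) :=
    eval₂Hom (C.comp (Ideal.Quotient.mk _)) fun i => if i = i₀ then 0 else X i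
  let ψ : MvPolynomial κ (O ⧸ Ideal.span {π}) →+* MvPolynomial κ O ⧸ P :=
    eval₂Hom (Ideal.Quotient.lift _ ((Ideal.Quotient.mk P).comp C) fun a ha => by
      obtain ⟨c, rfl⟩ := Ideal.mem_span_singleton.1 ha
      simp [h1]) fun i => Ideal.Quotient.mk P (X i)
  have e : ψ.comp φ = Ideal.Quotient.mk P := ringHom_ext (fun a => by simp [φ, ψ]) fun i => by
    by_cases h : i = i₀ <;> simp [φ, ψ, h, h2]
  convert RingHom.ker_isPrime φ
  refine le_antisymm (Ideal.span_le.2 ?_) fun x hx => ?_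
  · rintro _ (rfl | rfl) <;> simp [φ]
  · rw [← Ideal.Quotient.eq_zero_iff_mem, ← e, RingHom.comp_apply, RingHom.mem_ker.1 hx, map_zero]

end H2A

theorem p_H2 :
    S_H2 := by
  intro O κ _ _ _ _ π i₀ a b hπ hb
  obtain ⟨a', b', c, h, rfl, rfl⟩ := UniqueFactorizationMonoid.exists_reduced_factors' a b hb
  have hP := H2A.prime hπ.prime i₀
  have hh : (Ideal.span {C π, X i₀} : Ideal (MvPolynomial κ O)).height ≤ (2 : ℕ) :=
    (Ideal.height_le_card_of_mem_minimalPrimes_span (Set.toFinite _)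
      (Ideal.minimalPrimes_eq_subsingleton_self.ge rfl)).trans
        (Nat.cast_le.2 ((Set.ncard_insert_le _ _).trans_eq (by rw [Set.ncard_singleton])))
  obtain ⟨r, hr, M, h1⟩ := H2A.key hh h (right_ne_zero_of_mul hb)
    (Ideal.subset_span (Set.mem_insert _ _))
  obtain ⟨s, hs, N, h2⟩ := H2A.key hh h (right_ne_zero_of_mul hb)
    (Ideal.subset_span (Set.mem_insert_of_mem _ rfl))
  refine ⟨c, a', b', rfl, rfl, r * s, fun k => (hP.mem_or_mem k).elim hr hs, M + N, ?_, ?_⟩
  · convert Ideal.mul_mem_left _ (s * C π ^ N) h1 using 1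
    ring
  · convert Ideal.mul_mem_left _ (r * X i₀ ^ M) h2 using 1
    ring

end Pool.Agent.P.MP_e7d440_ag.Z
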