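import Pool.Agent.P.MP_e7d440_ag.Z.IfaceB

/-! Step HOM. -/

set_option autoImplicit false
set_option linter.unusedSectionVars false

namespace Pool.Agent.P.MP_e7d440_ag.Z

open IsLocalRing MvPolynomial U GrA

namespace HomA

variable {O K M ν : Type} [CommRing O] [Field K] [CharZero K] [Algebra O K]

theorem eig (φ : M → ℚ) (δ : Derivation O K K) (t : Finset M) (hφ : Function.Injective φ) :
    ∀ v : M → K, (∀ n ∈ t, δ (v n) = φ n * v n) → ∑ n ∈ t, v n = 0 → ∀ n ∈ t, v n = 0 := by
  classical
  induction t using Finset.induction_on with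
  | empty => intro v _ _ n hn; simp at hn
  | insert a s ha ih =>
    intro v h1 h2
    have h3 : ∑ n ∈ insert a s, (φ n : K) * v n = 0 := by
      rw [← Finset.sum_congr rfl h1, ← map_sum, h2, map_zero]
    rw [Finset.sum_insert ha] at h2 h3
    have h4 : ∀ n ∈ s, v n = 0 := fun n hn => by
      have h5 := ih (fun n => ((φ n - φ a : ℚ) : K) * v n) (fun n hn => by
        rw [← Rat.smul_def, map_rat_smul, h1 n (Finset.mem_insert_of_mem hn), Rat.smul_def,
          Rat.smul_def]
        ring) (by
        simp only [Rat.cast_sub, sub_mul, Finset.sum_sub_distrib, ← Finset.mul_sum]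
        linear_combination h3 - (φ a : K) * h2) n hn
      refine (mul_eq_zero.1 h5).resolve_left fun h6 => ha ?_
      rw [Rat.cast_eq_zero, sub_eq_zero] at h6
      exact hφ h6 ▸ hn
    intro n hn
    rcases Finset.mem_insert.1 hn with rfl | hn
    · rwa [Finset.sum_eq_zero h4, add_zero] at h2
    · exact h4 n hn

variable [AddCommMonoid M]

theorem mon (φ : M →+ ℚ) (δ : Derivation O K K) (w : ν → M) (g : ν → K)
    (h : ∀ i, δ (g i) = φ (w i) * g i) (r : O) (d : ν →₀ ℕ) :
    δ (aeval g (monomial d r)) = φ (Finsupp.weight w d) * aeval g (monomial d r) := by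
  induction d using Finsupp.induction with
  | zero => simp
  | single_add i k d _ _ ih =>
    have h1 : ∀ k : ℕ, δ (g i ^ k) = φ (k • w i) * g i ^ k := fun k => by
      induction k with
      | zero => simp
      | succ k ih =>
        rw [pow_succ, Derivation.leibniz, ih, h, succ_nsmul, map_add]
        push_cast
        simp only [smul_eq_mul]
        ring
    rw [monomial_single_add, map_mul, map_pow, aeval_X, Derivation.leibniz, ih, h1, map_add,
      Finsupp.weight_single, map_add]
    push_cast
    simp only [smul_eq_mul]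
    ring

theorem euler (φ : M →+ ℚ) (δ : Derivation O K K) (w : ν → M) (g : ν → K)
    (h : ∀ i, δ (g i) = φ (w i) * g i) (F : MvPolynomial ν O) (n : M)
    (hF : IsWeightedHomogeneous w F n) : δ (aeval g F) = φ n * aeval g F := by
  rw [F.as_sum, map_sum, map_sum, Finset.mul_sum]
  refine Finset.sum_congr rfl fun d hd => ?_
  rw [mon φ δ w g h, hF (mem_support_iff.1 hd)]

theorem hom (φ : M →+ ℚ) (δ : Derivation O K K) (w : ν → M) (g : ν → K)
    (hφ : Function.Injective φ) (h : ∀ i, δ (g i) = φ (w i) * g i) : HomRel O w g := by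
  intro F hF n
  have hf := weightedHomogeneousComponent_finsupp (w := w) F
  by_cases hn : n ∈ hf.toFinset
  · refine eig φ δ hf.toFinset hφ (fun n => aeval g (weightedHomogeneousComponent w n F))
      (fun n _ => euler φ δ w g h _ n (weightedHomogeneousComponent_isWeightedHomogeneous n F))
      ?_ n hn
    rw [← map_sum, ← finsum_eq_sum _ hf, finsum_weightedHomogeneousComponent, hF]
  · have : weightedHomogeneousComponent w n F = 0 := by simpa using hn
    rw [this, map_zero]

theorem den {ν : Type} [Finite ν] (w : ν → ℚ) :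
    ∃ M : ℕ, 0 < M ∧ ∃ z : ν → ℤ, ∀ i, (z i : ℚ) = M * w i := by
  have := Fintype.ofFinite ν
  refine ⟨∏ i, (w i).den, Finset.prod_pos fun i _ => (w i).den_pos, ?_⟩
  have h : ∀ i, ∃ z : ℤ, (z : ℚ) = (∏ i, (w i).den : ℕ) * w i := fun i => by
    obtain ⟨c, hc⟩ := Finset.dvd_prod_of_mem (fun i => (w i).den) (Finset.mem_univ i)
    refine ⟨c * (w i).num, ?_⟩
    rw [hc]
    push_cast
    rw [← Rat.den_mul_eq_num]
    ring
  choose z hz using h
  exact ⟨z, hz⟩

end HomA

theorem p_HOM :
    S_HOM :=
  ⟨fun φ δ t v hφ => HomA.eig φ δ t hφ v, HomA.euler, HomA.hom, HomA.den⟩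

end Pool.Agent.P.MP_e7d440_ag.Z
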