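import Pool.Agent.P.MP_e7d440_ag.Z.IfaceB
import Pool.Agent.P.MP_e7d440_ag.Z.IfaceA

/-! Step HS0. -/

set_option autoImplicit false
set_option linter.unusedSectionVars false

namespace Pool.Agent.P.MP_e7d440_ag.Z

open IsLocalRing MvPolynomial U GrA

namespace Hs0A

variable {O ν : Type} [CommRing O] {w : ν → ℕ}

/-- the ideal contains the components of its elements -/
def Hm (w : ν → ℕ) (I : Ideal (MvPolynomial ν O)) : Prop :=
  ∀ F ∈ I, ∀ n, weightedHomogeneousComponent w n F ∈ I

theorem mem_of_comp {p : Ideal (MvPolynomial ν O)} {F : MvPolynomial ν O}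
    (h : ∀ n, weightedHomogeneousComponent w n F ∈ p) : F ∈ p := by
  rw [← sum_weightedHomogeneousComponent w F,
    finsum_eq_sum _ (weightedHomogeneousComponent_finsupp F)]
  exact Ideal.sum_mem _ fun n _ => h n

theorem hm_iff {I : Ideal (MvPolynomial ν O)} :
    Hm w I ↔ (letI := weightedGradedAlgebra O w
      I.IsHomogeneous (weightedHomogeneousSubmodule O w)) := by
  letI := weightedGradedAlgebra O w
  constructor
  · intro h n F hF
    have e := weightedDecomposition.decompose'_apply O w F n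
    have h2 := h F hF n
    rw [← e] at h2
    exact h2
  · intro h F hF n
    exact weightedHomogeneousComponent_mem_of_mem O w h hF n

theorem min_hm {I p : Ideal (MvPolynomial ν O)} (hI : Hm w I) (hp : p ∈ I.minimalPrimes) :
    Hm w p := by
  letI := weightedGradedAlgebra O w
  rw [hm_iff] at hI ⊢
  have h1 := hp.1.1.homogeneousCore (𝒜 := weightedHomogeneousSubmodule O w)
  have h2 : I ≤ (p.homogeneousCore (weightedHomogeneousSubmodule O w)).toIdeal := by
    conv_lhs => rw [← hI.toIdeal_homogeneousCore_eq_self]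
    exact Ideal.homogeneousCore_mono _ hp.1.2
  have h3 := Ideal.toIdeal_homogeneousCore_le (weightedHomogeneousSubmodule O w) p
  have h4 := hp.2 ⟨h1, h2⟩ h3
  exact (Ideal.IsHomogeneous.iff_eq _ _).mpr (le_antisymm h3 h4)

theorem sup_hm {I : Ideal (MvPolynomial ν O)} (hI : Hm w I) {y : MvPolynomial ν O} {n : ℕ}
    (hy : IsWeightedHomogeneous w y n) : Hm w (I ⊔ Ideal.span {y}) := by
  letI := weightedGradedAlgebra O w
  rw [hm_iff] at hI ⊢
  refine hI.sup (Ideal.homogeneous_span _ _ ?_)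
  intro x hx
  rw [Set.mem_singleton_iff] at hx
  subst hx
  exact ⟨n, hy⟩

theorem avoid1 {p : Ideal (MvPolynomial ν O)} (hp : p.IsPrime) {i : ν} (hi : X i ∉ p)
    (hw : 0 < w i) (s : Finset (Ideal (MvPolynomial ν O)))
    (hs : ∀ q ∈ s, Hm w q ∧ ¬ q ≤ p) :
    ∃ (a : MvPolynomial ν O) (m : ℕ), 0 < m ∧ IsWeightedHomogeneous w a m ∧ a ∉ p ∧
      ∀ q ∈ s, a ∈ q := by
  classical
  induction s using Finset.induction_on with
  | empty => exact ⟨X i, w i, hw, isWeightedHomogeneous_X O w i, hi, by simp⟩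
  | insert q s hq ih =>
    obtain ⟨a, m, hm, ha, hap, has⟩ := ih fun r hr => hs r (Finset.mem_insert_of_mem hr)
    obtain ⟨hq1, hq2⟩ := hs q (Finset.mem_insert_self _ _)
    obtain ⟨F, hF, hFp⟩ := SetLike.not_le_iff_exists.mp hq2
    obtain ⟨n, hn⟩ : ∃ n, weightedHomogeneousComponent w n F ∉ p := by
      by_contra hc
      push Not at hc
      exact hFp (mem_of_comp hc)
    refine ⟨a * weightedHomogeneousComponent w n F, m + n, by omega,
      ha.mul (weightedHomogeneousComponent_isWeightedHomogeneous n F), ?_, ?_⟩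
    · intro h
      exact (hp.mem_or_mem h).elim hap hn
    · intro r hr
      rcases Finset.mem_insert.mp hr with rfl | hr
      · exact Ideal.mul_mem_left _ _ (hq1 F hF n)
      · exact Ideal.mul_mem_right _ _ (has r hr)

theorem avoid2 (hw : ∀ i, 0 < w i) (s : Finset (Ideal (MvPolynomial ν O)))
    (hs : ∀ p ∈ s, p.IsPrime ∧ Hm w p ∧ ∃ i, X i ∉ p)
    (ha : ∀ p ∈ s, ∀ q ∈ s, q ≤ p → q = p) :
    ∃ (y : MvPolynomial ν O) (n : ℕ), 0 < n ∧ IsWeightedHomogeneous w y n ∧ ∀ p ∈ s, y ∉ p := by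
  classical
  induction s using Finset.induction_on with
  | empty => exact ⟨0, 1, one_pos, isWeightedHomogeneous_zero O w 1, by simp⟩
  | insert p s hp ih =>
    obtain ⟨y, n, hn, hy, hys⟩ := ih (fun r hr => hs r (Finset.mem_insert_of_mem hr))
      fun r hr t ht => ha r (Finset.mem_insert_of_mem hr) t (Finset.mem_insert_of_mem ht)
    by_cases hyp : y ∈ p
    · obtain ⟨hp1, -, i, hi⟩ := hs p (Finset.mem_insert_self _ _)
      obtain ⟨a, m, hm, ham, hap, has⟩ := avoid1 hp1 hi (hw i) s fun q hq =>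
        ⟨(hs q (Finset.mem_insert_of_mem hq)).2.1, fun hle => hp (by
          rw [← ha p (Finset.mem_insert_self _ _) q (Finset.mem_insert_of_mem hq) hle]
          exact hq)⟩
      have h1 : IsWeightedHomogeneous w (y ^ m) (m * n) := by
        simpa using hy.pow m
      have h2 : IsWeightedHomogeneous w (a ^ n) (m * n) := by
        simpa [mul_comm] using ham.pow n
      refine ⟨y ^ m + a ^ n, m * n, Nat.mul_pos hm hn, h1.add h2, ?_⟩
      intro r hr h
      rcases Finset.mem_insert.mp hr with rfl | hr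
      · have h3 := Ideal.pow_mem_of_mem r hyp m hm
        exact hap (hp1.mem_of_pow_mem n ((Ideal.add_mem_iff_right _ h3).mp h))
      · have h3 := Ideal.pow_mem_of_mem r (has r hr) n hn
        exact hys r hr ((hs r (Finset.mem_insert_of_mem hr)).1.mem_of_pow_mem m
          ((Ideal.add_mem_iff_left _ h3).mp h))
    · refine ⟨y, n, hn, hy, ?_⟩
      intro r hr
      rcases Finset.mem_insert.mp hr with rfl | hr
      · exact hyp
      · exact hys r hr

variable [IsDomain O] [IsDiscreteValuationRing O]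

theorem base (hTD : S_TD) {π : O} (hπ : Irreducible π) (hw : ∀ i, 0 < w i)
    {J : Ideal (MvPolynomial ν O)} (hJ : J.IsPrime) (hm : Hm w J) (hc : C π ∈ J) {i : ν}
    (hi : X i ∉ J) : Td π J 1 := by
  have hlt : J < (maximalIdeal O).comap (constantCoeff : MvPolynomial ν O →+* O) := by
    refine lt_of_le_of_ne ?_ ?_
    · intro F hF
      have h := hm F hF 0
      rw [weightedHomogeneousComponent_zero F fun i => (hw i).ne'] at h
      rw [Ideal.mem_comap, mem_maximalIdeal]
      intro hu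
      exact hJ.ne_top (Ideal.eq_top_of_isUnit_mem _ h (hu.map C))
    · intro e
      apply hi
      rw [e, Ideal.mem_comap, constantCoeff_X]
      exact zero_mem _
  refine hTD.succ (m := 0) hJ hlt hc ⟨Fin.elim0, ?_⟩
  intro F hF
  rw [eq_C_of_isEmpty F] at hF ⊢
  rw [aeval_C, Ideal.mem_comap, algebraMap_eq, constantCoeff_C, hπ.maximalIdeal_eq,
    Ideal.mem_span_singleton] at hF
  exact map_dvd C hF

theorem main [Fintype ν] (hTD : S_TD) {π : O} (hπ : Irreducible π) (hw : ∀ i, 0 < w i) (d : ℕ) :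
    ∀ I : Ideal (MvPolynomial ν O), Hm w I → C π ∈ I →
      (∀ 𝔮 : Ideal (MvPolynomial ν O), 𝔮.IsPrime → I ≤ 𝔮 → (∃ i, X i ∉ 𝔮) →
        ¬ Td π 𝔮 (d + 1)) →
      ∃ y : Fin d → MvPolynomial ν O, (∀ j, ∃ n, 0 < n ∧ IsWeightedHomogeneous w (y j) n) ∧
        ∀ i, X i ∈ (I ⊔ sp y).radical := by
  classical
  induction d with
  | zero =>
    intro I hI hc H
    refine ⟨Fin.elim0, fun j => j.elim0, fun i => Ideal.radical_mono le_sup_left ?_⟩
    rw [← Ideal.sInf_minimalPrimes, Ideal.mem_sInf]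
    intro p hp
    by_contra hi
    exact H p hp.1.1 hp.1.2 ⟨i, hi⟩ (base hTD hπ hw hp.1.1 (min_hm hI hp) (hp.1.2 hc) hi)
  | succ d ih =>
    intro I hI hc H
    have hfin := Ideal.finite_minimalPrimes_of_isNoetherianRing (MvPolynomial ν O) I
    obtain ⟨y0, n, hn, hy0, hav⟩ := avoid2 hw (hfin.toFinset.filter fun p => ∃ i, X i ∉ p)
      (fun p hp => by
        rw [Finset.mem_filter, Set.Finite.mem_toFinset] at hp
        exact ⟨hp.1.1.1, min_hm hI hp.1, hp.2⟩)
      (fun p hp q hq hle => by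
        rw [Finset.mem_filter, Set.Finite.mem_toFinset] at hp hq
        exact le_antisymm hle (hp.1.2 hq.1.1 hle))
    obtain ⟨y, hy, hX⟩ := ih (I ⊔ Ideal.span {y0}) (sup_hm hI hy0) (Ideal.mem_sup_left hc) (by
      rintro q hq hle ⟨i, hi⟩ htd
      obtain ⟨p, hp, hpq⟩ := Ideal.exists_minimalPrimes_le (le_sup_left.trans hle)
      have hip : X i ∉ p := fun h => hi (hpq h)
      have h1 : y0 ∉ p := hav p (by
        rw [Finset.mem_filter, Set.Finite.mem_toFinset]
        exact ⟨hp, i, hip⟩)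
      have h2 : y0 ∈ q := hle (Ideal.mem_sup_right (Ideal.mem_span_singleton_self y0))
      have hlt : p < q := lt_of_le_of_ne hpq fun e => h1 (e ▸ h2)
      exact H p hp.1.1 hp.1.2 ⟨i, hip⟩ (hTD.succ hp.1.1 hlt (hp.1.2 hc) htd))
    refine ⟨Fin.cons y0 y, fun j => ?_, fun i => ?_⟩
    · refine Fin.cases ?_ (fun k => ?_) j
      · exact ⟨n, hn, hy0⟩
      · exact hy k
    · have e : I ⊔ sp (Fin.cons y0 y : Fin (d + 1) → MvPolynomial ν O) =
          I ⊔ Ideal.span {y0} ⊔ sp y := by
        rw [sp, Fin.range_cons, Ideal.span_insert, sup_assoc]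
      rw [e]
      exact hX i

end Hs0A

theorem p_HS0 (hTD : S_TD) :
    S_HS0 := by
  intro O ν _ _ _ _ π w I d hπ hw hI hc H
  exact Hs0A.main hTD hπ hw d I hI hc fun q hq hle _ => H q hq hle

end Pool.Agent.P.MP_e7d440_ag.Z
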