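import Pool.Agent.P.MP_e7d440_ag.Z.IfaceB

/-! Step HS1. -/

set_option autoImplicit false
set_option linter.unusedSectionVars false

namespace Pool.Agent.P.MP_e7d440_ag.Z

open IsLocalRing MvPolynomial U GrA

theorem p_HS1 :
    S_HS1 := by
  intro O K ν τ _ _ _ _ _ _ π w g y hπ hw hrel hy hX
  classical
  set J := RingHom.ker (aeval g : MvPolynomial ν O →ₐ[O] K) ⊔ Ideal.span {C π} ⊔ sp y with hJ
  obtain ⟨L, hL⟩ : ∃ L : ℕ, ∀ i, X i ^ L ∈ J := by
    choose l hl using hX
    exact ⟨Finset.univ.sup l, fun i =>
      Ideal.pow_mem_of_pow_mem J (hl i) (Finset.le_sup (Finset.mem_univ i))⟩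
  set B := Algebra.adjoin O (Set.range fun j => aeval g (y j)) with hB
  set M : Submodule B K :=
    Submodule.span B (Set.range fun α : ν → Fin L => ∏ i, g i ^ (α i : ℕ)) with hM
  have hO : ∀ (r : O) (x : K), x ∈ M → r • x ∈ M := fun r x hx =>
    (M.restrictScalars O).smul_mem r hx
  have key : ∀ n, (weightedHomogeneousSubmodule O w n).map (aeval g).toLinearMap ≤
      M.restrictScalars O := by
    intro n
    induction n using Nat.strong_induction_on with
    | _ n ih =>
    refine Submodule.le_of_le_smul_of_le_jacobson_bot (I := maximalIdeal O)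
      ((weightedHomogeneousSubmodule_fg O w (fun i => (hw i).ne') n).map _)
      (maximalIdeal_le_jacobson _) ?_
    set N := M.restrictScalars O ⊔ maximalIdeal O •
      (weightedHomogeneousSubmodule O w n).map (aeval g).toLinearMap with hN
    have h1 : ∀ j c, aeval g (weightedHomogeneousComponent w n (c * y j)) ∈ N := by
      intro j c
      obtain ⟨e, he, hye⟩ := hy j
      induction c using MvPolynomial.induction_on' with
      | monomial α r =>
        have h2 := isWeightedHomogeneous_monomial w α r rfl
        rw [weightedHomogeneousComponent_of_mem (h2.mul hye)]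
        split_ifs with h3
        · refine Submodule.mem_sup_left ?_
          have h4 : aeval g (monomial α r) ∈ M := ih _ (by omega) ⟨_, h2, rfl⟩
          have h5 := M.smul_mem ⟨aeval g (y j), Algebra.subset_adjoin ⟨j, rfl⟩⟩ h4
          rw [map_mul, mul_comm]
          exact h5
        · simp
      | add a b ha hb =>
        rw [add_mul, map_add, map_add]
        exact N.add_mem ha hb
    have h2 : ∀ G ∈ J, aeval g (weightedHomogeneousComponent w n G) ∈ N := by
      intro G hG
      obtain ⟨G1, hG1, c, hc, rfl⟩ := Submodule.mem_sup.1 hG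
      obtain ⟨a, ha, b, hb, rfl⟩ := Submodule.mem_sup.1 hG1
      obtain ⟨b, rfl⟩ := Ideal.mem_span_singleton'.1 hb
      obtain ⟨c, rfl⟩ := Ideal.mem_span_range_iff_exists_fun.1 hc
      simp only [map_add, map_sum]
      refine N.add_mem (N.add_mem ?_ ?_) (N.sum_mem fun j _ => h1 j _)
      · rw [hrel a ha n]
        exact N.zero_mem
      · rw [mul_comm, weightedHomogeneousComponent_C_mul, map_mul, aeval_C, ← Algebra.smul_def]
        exact Submodule.mem_sup_right (Submodule.smul_mem_smul hπ
          ⟨_, weightedHomogeneousComponent_mem w b n, rfl⟩)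
    rintro _ ⟨F, hF, rfl⟩
    have hF' : IsWeightedHomogeneous w F n := hF
    rw [F.as_sum, map_sum]
    refine N.sum_mem fun α hα => ?_
    by_cases h3 : ∀ i, α i < L
    · refine Submodule.mem_sup_left ?_
      rw [AlgHom.toLinearMap_apply, aeval_monomial, ← Algebra.smul_def,
        Finsupp.prod_fintype _ _ fun i => pow_zero _]
      exact hO _ _ (Submodule.subset_span ⟨fun i => ⟨α i, h3 i⟩, rfl⟩)
    · obtain ⟨i, hi⟩ := not_forall.1 h3
      have h4 : monomial α (coeff α F) ∈ J := by
        have h5 : monomial α (coeff α F) =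
            monomial (α - Finsupp.single i L) (coeff α F) * X i ^ L := by
          rw [X_pow_eq_monomial, monomial_mul, mul_one, tsub_add_cancel_of_le]
          exact Finsupp.single_le_iff.2 (not_lt.1 hi)
        rw [h5]
        exact J.mul_mem_left _ (hL i)
      have h5 := h2 _ h4
      rwa [(isWeightedHomogeneous_monomial w α _
        (hF' (mem_support_iff.1 hα))).weightedHomogeneousComponent_same] at h5
  have hall : ∀ F : MvPolynomial ν O, aeval g F ∈ M := fun F => by
    induction F using MvPolynomial.induction_on' with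
    | monomial α r => exact key _ ⟨_, isWeightedHomogeneous_monomial w α r rfl, rfl⟩
    | add a b ha hb =>
      rw [map_add]
      exact M.add_mem ha hb
  have hBr : B ≤ (aeval g : MvPolynomial ν O →ₐ[O] K).range :=
    Algebra.adjoin_le (by rintro _ ⟨j, rfl⟩; exact ⟨_, rfl⟩)
  let S : Subalgebra B K :=
    { (aeval g : MvPolynomial ν O →ₐ[O] K).range.toSubsemiring with
      algebraMap_mem' := fun b => hBr b.2 }
  have hS : S.toSubmodule = M := by
    refine le_antisymm ?_ (Submodule.span_le.2 ?_)
    · rintro _ ⟨F, rfl⟩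
      exact hall F
    · rintro _ ⟨α, rfl⟩
      exact ⟨∏ i, X i ^ (α i : ℕ), by simp⟩
  intro i
  refine IsIntegral.of_mem_of_fg S ?_ _ ⟨X i, by simp⟩
  rw [hS]
  exact Submodule.fg_span (Set.finite_range _)

end Pool.Agent.P.MP_e7d440_ag.Z
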