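import Pool.Agent.P.MP_e7d440_ag.Z.IfaceB
import Pool.Agent.P.MP_e7d440_ag.Z.IfaceA

/-! Step HSOP. -/

set_option autoImplicit false
set_option linter.unusedSectionVars false

namespace Pool.Agent.P.MP_e7d440_ag.Z

open IsLocalRing MvPolynomial U GrA

namespace HsopA

variable {O K : Type} [CommRing O] [Field K] [Algebra O K]

/-- transitivity for subalgebras -/
theorem tr {B : Subalgebra O K} {Z : Set K} (h : ∀ c ∈ Z, IsIntegral B c) {γ : K}
    (hγ : IsIntegral (Algebra.adjoin O Z) γ) : IsIntegral B γ := by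
  have hle : Algebra.adjoin O Z ≤ (integralClosure B K).restrictScalars O :=
    Algebra.adjoin_le fun c hc => h c hc
  have h1 : IsIntegral (integralClosure B K) γ :=
    IsIntegral.map_of_comp_eq (T := integralClosure B K)
      (Subalgebra.inclusion hle).toRingHom (RingHom.id K) (RingHom.ext fun _ => rfl) hγ
  exact isIntegral_trans (R := B) γ h1

/-- a map from a polynomial ring to `N` is integral if `N` is integral over the image -/
theorem int {τ : Type} (N : Subalgebra O K) (v : τ → N)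
    (h : ∀ a : N, IsIntegral (Algebra.adjoin O (Set.range fun j => (v j : K))) (a : K)) :
    (aeval v : MvPolynomial τ O →ₐ[O] N).toRingHom.IsIntegral := by
  have hle : Algebra.adjoin O (Set.range fun j => (v j : K)) ≤ N :=
    Algebra.adjoin_le (by rintro _ ⟨j, rfl⟩; exact (v j).2)
  let f : MvPolynomial τ O →ₐ[O] Algebra.adjoin O (Set.range fun j => (v j : K)) :=
    aeval fun j => ⟨v j, Algebra.subset_adjoin ⟨j, rfl⟩⟩
  have hf : Function.Surjective f := by
    rintro ⟨c, hc⟩
    rw [Algebra.adjoin_range_eq_range_aeval] at hc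
    obtain ⟨F, rfl⟩ := hc
    refine ⟨F, Subtype.ext ?_⟩
    exact comp_aeval_apply _ (Algebra.adjoin O (Set.range fun j => (v j : K))).val F
  have e : (aeval v : MvPolynomial τ O →ₐ[O] N) = (Subalgebra.inclusion hle).comp f := by
    ext j
    simp [f]
  have hg : (Subalgebra.inclusion hle).toRingHom.IsIntegral := fun a =>
    RingHom.IsIntegralElem.of_map (g := N.val.toRingHom) Subtype.val_injective (h a)
  rw [e]
  exact RingHom.IsIntegral.trans f.toRingHom _ (f.toRingHom.isIntegral_of_surjective hf) hg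

theorem hom {ν : Type} (w : ν → ℕ) (S : Set (MvPolynomial ν O))
    (hS : ∀ F ∈ S, ∃ n, IsWeightedHomogeneous w F n) :
    ∀ F ∈ Ideal.span S, ∀ n, weightedHomogeneousComponent w n F ∈ Ideal.span S := fun _ hF n => by
  let := weightedGradedAlgebra O w
  exact weightedHomogeneousComponent_mem_of_mem O w (Ideal.homogeneous_span _ S hS) hF n

theorem alg {B : Subalgebra O K} {Z : Set K} (h : ∀ c ∈ Z, IsIntegral B c)
    (hG : Gen O (Subtype.val : Z → K)) : Algebra.IsAlgebraic B K := ⟨fun γ => by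
  have hm : ∀ F : MvPolynomial Z O, IsAlgebraic B (aeval (Subtype.val : Z → K) F) := fun F => by
    refine (tr h ?_).isAlgebraic
    have : aeval (Subtype.val : Z → K) F ∈ Algebra.adjoin O Z := by
      rw [Algebra.adjoin_eq_range]
      exact ⟨F, rfl⟩
    exact isIntegral_algebraMap (x := (⟨_, this⟩ : Algebra.adjoin O Z))
  obtain ⟨F, G, hG, e⟩ := hG γ
  exact IsAlgebraic.of_mul (mem_nonZeroDivisors_of_ne_zero hG) (hm G) (mul_comm γ _ ▸ e ▸ hm F)⟩

end HsopA

theorem p_HSOP (hTD : S_TD) (hHOM : S_HOM) (hNCF : S_NCF) (hHS0 : S_HS0) (hHS1 : S_HS1) :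
    S_HSOP := by
  intro O K _ _ _ _ _ _ π s u N Z δ w d x hπ hZ hN hs hu hG hw hx hq
  classical
  have : Fintype Z := hZ.fintype
  have hZN := (hNCF.int N Z hN).1
  obtain ⟨M, hM, z, hz⟩ := hHOM.den fun c : Z => w c
  have hM' : (0 : ℚ) < M := by exact_mod_cast hM
  have hz0 : ∀ c, 0 < z c := fun c => by
    have : (0 : ℚ) < z c := hz c ▸ mul_pos hM' (hw c c.2).1
    exact_mod_cast this
  let wn : Z → ℕ := fun c => (z c).toNat
  have hwn : ∀ c, 0 < wn c := fun c => by have := hz0 c; simp only [wn]; omega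
  have hrel : HomRel O wn (Subtype.val : Z → K) := by
    refine hHOM.hom ((AddMonoidHom.mulRight (M : ℚ)⁻¹).comp (Nat.castAddMonoidHom ℚ)) δ wn _
      (fun a b k => ?_) fun c => ?_
    · simpa [hM.ne'] using k
    · have e : ((wn c : ℕ) : ℚ) = z c := by
        rw [← Int.cast_natCast, Int.toNat_of_nonneg (hz0 c).le]
      have e2 : ((wn c : ℕ) : ℚ) * (M : ℚ)⁻¹ = w c := by rw [e, hz c]; field_simp
      rw [(hw c c.2).2, ← e2]
      rfl
  let ψ : MvPolynomial Z O →ₐ[O] N := aeval fun c => ⟨c, hZN c.2⟩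
  have hψ : ∀ F, (ψ F : K) = aeval (Subtype.val : Z → K) F := fun F =>
    comp_aeval_apply _ N.val F
  have hψi : ψ.toRingHom.IsIntegral := HsopA.int N _ fun a => by
    have := (hN a).1 a.2
    rwa [← Subtype.range_coe (s := Z)] at this
  let Xs : MvPolynomial Z O := X ⟨s, hs⟩
  let Xu : MvPolynomial Z O := X ⟨u, hu⟩
  obtain ⟨y, hy1, hy2⟩ := hHS0 O Z π wn
    (RingHom.ker (aeval (Subtype.val : Z → K) : MvPolynomial Z O →ₐ[O] K) ⊔
      Ideal.span {C π, Xs, Xu}) d hπ hwn
    (fun F hF n => by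
      obtain ⟨a, ha, b, hb, rfl⟩ := Submodule.mem_sup.1 hF
      rw [map_add]
      refine Submodule.add_mem_sup (hrel a ha n) (HsopA.hom wn _ ?_ b hb n)
      rintro _ (rfl | rfl | rfl)
      exacts [⟨_, isWeightedHomogeneous_C _ _⟩, ⟨_, isWeightedHomogeneous_X _ _ _⟩,
        ⟨_, isWeightedHomogeneous_X _ _ _⟩])
    (Ideal.mem_sup_right (Ideal.subset_span (by simp)))
    (fun 𝔮 h1 h2 h3 => by
      let := ψ.toRingHom.toAlgebra
      have : IsScalarTower O (MvPolynomial Z O) N :=
        IsScalarTower.of_algebraMap_eq fun o => (ψ.commutes o).symm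
      have : Algebra.IsIntegral (MvPolynomial Z O) N := ⟨hψi⟩
      obtain ⟨Q, -, q1, q2⟩ := Ideal.exists_ideal_over_prime_of_isIntegral 𝔮 (⊥ : Ideal N)
        fun F hF => h2 (Ideal.mem_sup_left (by
          have : ψ F = 0 := hF
          rw [RingHom.mem_ker, ← hψ, this]; rfl))
      have m : ∀ F ∈ ({C π, Xs, Xu} : Set (MvPolynomial Z O)), ψ F ∈ Q := fun F hF => by
        have : F ∈ Q.comap (algebraMap _ N) := q2 ▸ h2 (Ideal.mem_sup_right (Ideal.subset_span hF))
        exact this
      have mπ : algebraMap O N π ∈ Q := ψ.commutes π ▸ m (C π) (by simp)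
      have one : (1 : N) ∉ Q := (Ideal.ne_top_iff_one Q).1 q1.ne_top
      refine hq Q q1 mπ ⟨_, 1, m Xs (by simp), one, ?_⟩ ⟨_, 1, m Xu (by simp), one, ?_⟩
        ((hTD.int hπ q1 mπ).2 (q2 ▸ h3))
      · rw [map_one, mul_one]; exact ((hψ Xs).trans (aeval_X _ _)).symm
      · rw [map_one, mul_one]; exact ((hψ Xu).trans (aeval_X _ _)).symm)
  let y' : Fin 2 ⊕ Fin d → MvPolynomial Z O := Sum.elim ![Xs, Xu] y
  have hint := hHS1 O K Z (Fin 2 ⊕ Fin d) π wn Subtype.val y' hπ.not_isUnit hwn hrel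
    (by
      rintro (j | j)
      · fin_cases j
        exacts [⟨_, hwn _, isWeightedHomogeneous_X _ _ _⟩, ⟨_, hwn _, isWeightedHomogeneous_X _ _ _⟩]
      · exact hy1 j)
    fun i => Ideal.radical_mono (by
      refine sup_le (sup_le (le_sup_left.trans le_sup_left) (Ideal.span_le.2 ?_))
        ((Ideal.span_mono ?_).trans le_sup_right)
      · rintro _ (rfl | rfl | rfl)
        · exact Ideal.mem_sup_left (Ideal.mem_sup_right (Ideal.subset_span rfl))
        · exact Ideal.mem_sup_right (Ideal.subset_span ⟨.inl 0, rfl⟩)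
        · exact Ideal.mem_sup_right (Ideal.subset_span ⟨.inl 1, rfl⟩)
      · rintro _ ⟨j, rfl⟩
        exact ⟨.inr j, rfl⟩) (hy2 i)
  have hint' : ∀ c ∈ Z, IsIntegral (Algebra.adjoin O (Set.range fun j => (ψ (y' j) : K))) c :=
    fun c hc => by
      rw [show (fun j => (ψ (y' j) : K)) = _ from funext fun j => hψ (y' j)]
      exact hint ⟨c, hc⟩
  have hinj : Function.Injective (algebraMap O K) := hx.algebraMap_injective
  have : FaithfulSMul O K := (faithfulSMul_iff_algebraMap_injective _ _).2 hinj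
  have := HsopA.alg hint' hG
  have hai : AlgebraicIndependent O fun j => (ψ (y' j) : K) :=
    (Algebra.IsAlgebraic.isTranscendenceBasis_of_le_trdeg_of_finite O _ hx.cardinalMk_le_trdeg).1
  refine ⟨aeval fun j => ψ (y' j), ?_, ?_, fun F G e => hai ?_, ?_⟩
  · rw [aeval_X]; exact (hψ Xs).trans (aeval_X _ _)
  · rw [aeval_X]; exact (hψ Xu).trans (aeval_X _ _)
  · exact (comp_aeval_apply _ N.val F).symm.trans
      ((congrArg Subtype.val e).trans (comp_aeval_apply _ N.val G))
  · refine (HsopA.int N _ fun a => HsopA.tr hint' ((hN a).1 a.2)).to_finite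
      (RingHom.FiniteType.of_comp_finiteType (f := algebraMap O _) ?_)
    have := (hNCF.ft N Z hinj hZ hN hG).1
    rw [AlgHom.toRingHom_eq_coe, AlgHom.comp_algebraMap]
    exact RingHom.finiteType_algebraMap.2 this

end Pool.Agent.P.MP_e7d440_ag.Z
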