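import Pool.Agent.P.MP_e7d440_ag.Z.IfaceB

/-! Step KER. -/

set_option autoImplicit false
set_option linter.unusedSectionVars false

namespace Pool.Agent.P.MP_e7d440_ag.Z

open IsLocalRing MvPolynomial U GrA

namespace KerA

variable {O K κ : Type} [CommRing O] [Field K] [Algebra O K] {z : κ → K}

theorem inf_zero : InF O z 0 := ⟨0, 1, by simp, by simp⟩

theorem inf_add {a b : K} (ha : InF O z a) (hb : InF O z b) : InF O z (a + b) := by
  obtain ⟨F, H, h1, h2⟩ := ha
  obtain ⟨F', H', h3, h4⟩ := hb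
  refine ⟨F * H' + F' * H, H * H', by rw [map_mul]; exact mul_ne_zero h1 h3, ?_⟩
  simp only [map_add, map_mul]
  linear_combination aeval z H' * h2 + aeval z H * h4

theorem inf_mul (G : MvPolynomial κ O) {a : K} (ha : InF O z a) : InF O z (aeval z G * a) := by
  obtain ⟨F, H, h1, h2⟩ := ha
  exact ⟨G * F, H, h1, by rw [map_mul, mul_assoc, h2]⟩

theorem inf_div {a b c : K} (ha : InF O z a) (hb : InF O z b) (h0 : b ≠ 0) (h : c * b = a) :
    InF O z c := by
  obtain ⟨F, H, h1, h2⟩ := ha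
  obtain ⟨F', H', h3, h4⟩ := hb
  refine ⟨F * H', F' * H, ?_, ?_⟩
  · rw [map_mul, ← h4]
    exact mul_ne_zero (mul_ne_zero h0 h3) h1
  · rw [map_mul, map_mul, ← h4, ← h2, ← h]
    ring

theorem der_aeval {δ : Derivation O K K} (hz : ∀ k, δ (z k) = 0) (F : MvPolynomial κ O) :
    δ (aeval z F) = 0 := by
  induction F using MvPolynomial.induction_on with
  | C a => simp
  | add p q hp hq => simp [hp, hq]
  | mul_X p n hp => simp [hp, hz]

/-- eigenvectors of `δ` which are killed by `𝓔` -/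
def Mon (δ : Derivation O K K) (𝓔 : Set (Derivation O K K)) (j : ℤ) (m : K) : Prop :=
  δ m = j * m ∧ ∀ E ∈ 𝓔, E m = 0

/-- the part of degree `j` -/
def S (δ : Derivation O K K) (𝓔 : Set (Derivation O K K)) (z : κ → K) (j : ℤ) : AddSubmonoid K :=
  AddSubmonoid.closure {x | ∃ (F : MvPolynomial κ O) (m : K), Mon δ 𝓔 j m ∧ x = aeval z F * m}

variable {δ : Derivation O K K} {𝓔 : Set (Derivation O K K)}

theorem Mon.mul {i j : ℤ} {m n : K} (hm : Mon δ 𝓔 i m) (hn : Mon δ 𝓔 j n) :
    Mon δ 𝓔 (i + j) (m * n) := by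
  refine ⟨?_, fun E hE => by simp [hm.2 E hE, hn.2 E hE]⟩
  rw [Derivation.leibniz, hm.1, hn.1]
  push_cast
  simp only [smul_eq_mul]
  ring

theorem eig (hz : ∀ k, δ (z k) = 0) {j : ℤ} {a : K} (ha : a ∈ S δ 𝓔 z j) : δ a = j * a := by
  induction ha using AddSubmonoid.closure_induction with
  | mem x hx =>
    obtain ⟨F, m, hm, rfl⟩ := hx
    rw [Derivation.leibniz, hm.1, der_aeval hz]
    simp only [smul_eq_mul]
    ring
  | zero => simp
  | add x y _ _ hx hy => rw [map_add, hx, hy, mul_add]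

theorem quot (h : ∀ c, (∀ E ∈ 𝓔, E c = 0) → δ c = 0 → InF O z c) {j : ℤ} {a m : K}
    (ha : a ∈ S δ 𝓔 z j) (hm : Mon δ 𝓔 j m) : InF O z (a / m) := by
  induction ha using AddSubmonoid.closure_induction with
  | mem x hx =>
    obtain ⟨F, n, hn, rfl⟩ := hx
    rw [mul_div_assoc]
    refine inf_mul F (h _ (fun E hE => ?_) ?_)
    · rw [Derivation.leibniz_div, hm.2 E hE, hn.2 E hE]
      simp
    · rw [Derivation.leibniz_div, hm.1, hn.1]
      simp only [smul_eq_mul]
      ring
  | zero => simpa using inf_zero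
  | add x y _ _ hx hy =>
    rw [add_div]
    exact inf_add hx hy

theorem exists_mon {j : ℤ} {a : K} (ha : a ∈ S δ 𝓔 z j) (h0 : a ≠ 0) :
    ∃ m, Mon δ 𝓔 j m ∧ m ≠ 0 := by
  by_contra hn
  push Not at hn
  refine h0 ?_
  clear h0
  induction ha using AddSubmonoid.closure_induction with
  | mem x hx =>
    obtain ⟨F, n, hn', rfl⟩ := hx
    rw [hn n hn', mul_zero]
  | zero => rfl
  | add x y _ _ hx hy => rw [hx, hy, add_zero]

theorem dec {g : Set K} (hg : ∀ c ∈ g, ∃ j, Mon δ 𝓔 j c)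
    (F : MvPolynomial ↥(Set.range z ∪ g) O) : ∃ v : ℤ →₀ K, (∀ j, v j ∈ S δ 𝓔 z j) ∧
      aeval (Subtype.val : ↥(Set.range z ∪ g) → K) F = v.sum fun _ x => x := by
  have h1 : aeval (Subtype.val : ↥(Set.range z ∪ g) → K) F ∈ AddSubmonoid.closure
      {x | ∃ (j : ℤ) (F : MvPolynomial κ O) (m : K), Mon δ 𝓔 j m ∧ x = aeval z F * m} := by
    induction F using MvPolynomial.induction_on with
    | C a => exact AddSubmonoid.subset_closure ⟨0, C a, 1, ⟨by simp, by simp⟩, by simp⟩
    | add p q hp hq =>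
      rw [map_add]
      exact add_mem hp hq
    | mul_X p n hp =>
      rw [map_mul, aeval_X]
      generalize aeval (Subtype.val : ↥(Set.range z ∪ g) → K) p = a at hp
      induction hp using AddSubmonoid.closure_induction with
      | mem x hx =>
        obtain ⟨j, G, m, hm, rfl⟩ := hx
        obtain ⟨n, ⟨k, rfl⟩ | hn⟩ := n
        · exact AddSubmonoid.subset_closure ⟨j, G * X k, m, hm, by
            rw [map_mul, aeval_X, mul_right_comm]⟩
        · obtain ⟨i, hi⟩ := hg n hn
          exact AddSubmonoid.subset_closure ⟨j + i, G, m * n, hm.mul hi, mul_assoc _ _ _⟩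
      | zero => simp
      | add x y _ _ hx hy =>
        rw [add_mul]
        exact add_mem hx hy
  generalize aeval (Subtype.val : ↥(Set.range z ∪ g) → K) F = a at h1
  induction h1 using AddSubmonoid.closure_induction with
  | mem x hx =>
    obtain ⟨j, G, m, hm, rfl⟩ := hx
    refine ⟨Finsupp.single j (aeval z G * m), fun i => ?_,
      (Finsupp.sum_single_index (h := fun _ x => x) rfl).symm⟩
    rw [Finsupp.single_apply]
    split_ifs with h
    · exact AddSubmonoid.subset_closure ⟨G, m, h ▸ hm, rfl⟩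
    · exact zero_mem _
  | zero => exact ⟨0, fun _ => zero_mem _, by simp⟩
  | add x y _ _ hx hy =>
    obtain ⟨v, hv, rfl⟩ := hx
    obtain ⟨w, hw, rfl⟩ := hy
    exact ⟨v + w, fun j => add_mem (hv j) (hw j),
      (Finsupp.sum_add_index' (fun _ => rfl) fun _ _ _ => rfl).symm⟩

end KerA

open KerA

theorem p_KER (hHOM : S_HOM) :
    S_KER := by
  intro O K κ _ _ _ _ δ z g 𝓔 hG hz hg h c hc
  obtain ⟨F, H, h1, h2⟩ := hG c
  have hg' : ∀ c ∈ g, ∃ j, Mon δ 𝓔 j c := fun c hc => by
    obtain ⟨⟨j, hj⟩, hE⟩ := hg c hc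
    exact ⟨j, hj, hE⟩
  obtain ⟨v, hv, e1⟩ := dec (z := z) hg' F
  obtain ⟨w, hw, e2⟩ := dec (z := z) hg' H
  rw [e1, e2] at h2
  rw [e2] at h1
  obtain ⟨j, hj, hj0⟩ := Finset.exists_ne_zero_of_sum_ne_zero h1
  have key := hHOM.eig (fun n : ℤ => (n : ℚ)) δ (v.support ∪ w.support) (fun n => c * w n - v n)
    Int.cast_injective (fun n _ => by
      rw [map_sub, Derivation.leibniz, hc, eig hz (hv n), eig hz (hw n)]
      simp only [smul_eq_mul, Rat.cast_intCast]
      ring) (by
      rw [Finset.sum_sub_distrib, ← Finset.mul_sum,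
        ← Finsupp.sum_of_support_subset w Finset.subset_union_right (fun _ x => x) fun _ _ => rfl,
        ← Finsupp.sum_of_support_subset v Finset.subset_union_left (fun _ x => x) fun _ _ => rfl,
        h2, sub_self]) j (Finset.mem_union_right _ hj)
  obtain ⟨m, hm, h0⟩ := exists_mon (hw j) hj0
  refine inf_div (quot h (hv j) hm) (quot h (hw j) hm) (div_ne_zero hj0 h0) ?_
  rw [← sub_eq_zero.1 key, mul_div_assoc]

end Pool.Agent.P.MP_e7d440_ag.Z
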