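import Pool.Agent.P.MP_e7d440_ag.Z.IfaceA

/-! Step LA. -/

set_option autoImplicit false
set_option linter.unusedSectionVars false

namespace Pool.Agent.P.MP_e7d440_ag.Z

open IsLocalRing MvPolynomial U

namespace LaA

lemma fac {A X Y W : Type} [CommRing A] [AddCommGroup X] [Module A X] [AddCommGroup Y]
    [Module A Y] [AddCommGroup W] [Module A W] (g : X →ₗ[A] Y) (f : X →ₗ[A] W)
    (hg : Function.Surjective g) (h : ∀ x, g x = 0 → f x = 0) :
    ∃ f' : Y →ₗ[A] W, ∀ x, f' (g x) = f x :=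
  ⟨(LinearMap.ker g).liftQ f h ∘ₗ (g.quotKerEquivOfSurjective hg).symm.toLinearMap, fun x => by
    have : (g.quotKerEquivOfSurjective hg).symm (g x) = Submodule.Quotient.mk x :=
      (LinearEquiv.symm_apply_eq _).2 rfl
    simp [this]⟩

lemma lift {A X Y : Type} [CommRing A] [AddCommGroup X] [Module A X] [AddCommGroup Y]
    [Module A Y] {k : ℕ} (g : X →ₗ[A] Y) (f : (Fin k → A) →ₗ[A] Y)
    (h : ∀ v, ∃ x, g x = f v) : ∃ f' : (Fin k → A) →ₗ[A] X, ∀ v, g (f' v) = f v := by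
  choose x hx using h
  refine ⟨(Pi.basisFun A (Fin k)).constr A fun i => x (Pi.basisFun A (Fin k) i), fun v => ?_⟩
  have : g ∘ₗ (Pi.basisFun A (Fin k)).constr A (fun i => x (Pi.basisFun A (Fin k) i)) = f :=
    (Pi.basisFun A (Fin k)).ext fun i => by
      rw [LinearMap.comp_apply, Module.Basis.constr_basis, hx]
  exact LinearMap.congr_fun this v

variable {A B : Type} [CommRing A] [CommRing B] [Algebra A B] {π x₁ x₂ x₃ : A}

lemma reg (hs : Function.Surjective (algebraMap A B)) (hk : ∀ a, algebraMap A B a = 0 ↔ π ∣ a)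
    (h : RegSeq (Ideal.span {π}) [x₁, x₂, x₃]) :
    (∀ b : B, x₁ • b = 0 → b = 0) ∧ (∀ b c : B, x₂ • b = x₁ • c → ∃ d, b = x₁ • d) ∧
      ∀ b c c' : B, x₃ • b = x₁ • c + x₂ • c' → ∃ d d', b = x₁ • d + x₂ • d' := by
  obtain ⟨h1, h2, h3, -⟩ := h
  refine ⟨fun b e => ?_, fun b c e => ?_, fun b c c' e => ?_⟩
  · obtain ⟨b, rfl⟩ := hs b
    rw [Algebra.smul_def, ← map_mul, hk] at e
    exact (hk _).2 (Ideal.mem_span_singleton.1 (h1 b (Ideal.mem_span_singleton.2 e)))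
  · obtain ⟨b, rfl⟩ := hs b
    obtain ⟨c, rfl⟩ := hs c
    rw [Algebra.smul_def, Algebra.smul_def, ← sub_eq_zero, ← map_mul, ← map_mul, ← map_sub,
      hk] at e
    have := h2 b (by
      rw [show x₂ * b = (x₂ * b - x₁ * c) + c * x₁ by ring]
      exact Submodule.add_mem_sup (Ideal.mem_span_singleton.2 e) (Ideal.mem_span_singleton'.2 ⟨_, rfl⟩))
    obtain ⟨p, hp, q, hq, rfl⟩ := Submodule.mem_sup.1 this
    obtain ⟨d, rfl⟩ := Ideal.mem_span_singleton.1 hq
    exact ⟨algebraMap A B d, by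
      rw [map_add, (hk _).2 (Ideal.mem_span_singleton.1 hp), zero_add, map_mul, Algebra.smul_def]⟩
  · obtain ⟨b, rfl⟩ := hs b
    obtain ⟨c, rfl⟩ := hs c
    obtain ⟨c', rfl⟩ := hs c'
    rw [Algebra.smul_def, Algebra.smul_def, Algebra.smul_def, ← sub_eq_zero, ← map_mul, ← map_mul,
      ← map_mul, ← map_add, ← map_sub, hk] at e
    have := h3 b (by
      rw [show x₃ * b = (x₃ * b - (x₁ * c + x₂ * c')) + c * x₁ + c' * x₂ by ring]
      exact Submodule.add_mem_sup (Submodule.add_mem_sup (Ideal.mem_span_singleton.2 e)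
        (Ideal.mem_span_singleton'.2 ⟨_, rfl⟩)) (Ideal.mem_span_singleton'.2 ⟨_, rfl⟩))
    obtain ⟨p0, hp0, q', hq', rfl⟩ := Submodule.mem_sup.1 this
    obtain ⟨p, hp, q, hq, rfl⟩ := Submodule.mem_sup.1 hp0
    obtain ⟨d, rfl⟩ := Ideal.mem_span_singleton.1 hq
    obtain ⟨d', rfl⟩ := Ideal.mem_span_singleton.1 hq'
    exact ⟨algebraMap A B d, algebraMap A B d', by
      rw [map_add, map_add, (hk _).2 (Ideal.mem_span_singleton.1 hp), zero_add, map_mul, map_mul,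
        Algebra.smul_def, Algebra.smul_def]⟩

lemma ext {G : Type} [AddCommGroup G] [Module A G] {n k : ℕ} (q : (Fin k → A) →ₗ[A] G)
    (α : G →ₗ[A] (Fin n → B)) (β : (Fin n → B) →ₗ[A] G)
    (hs : Function.Surjective (algebraMap A B)) (hk : ∀ a, algebraMap A B a = 0 ↔ π ∣ a)
    (hαβ : ∀ g, β (α g) = g) (h : RegSeq (Ideal.span {π}) [x₁, x₂, x₃])
    (hx : ∀ g : G, (∃ a, q a = x₁ • g) ∧ (∃ a, q a = x₂ • g) ∧ ∃ a, q a = x₃ • g)
    (f : LinearMap.ker q →ₗ[A] B) (hf : ∀ (a : Fin k → A) (h : π • a ∈ LinearMap.ker q),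
      f ⟨_, h⟩ = 0) : ∃ h : (Fin k → A) →ₗ[A] B, ∀ z : LinearMap.ker q, h z = f z := by
  obtain ⟨n1, n2, n3⟩ := reg hs hk h
  have hπ : ∀ b : B, π • b = 0 := fun b => by rw [Algebra.smul_def, (hk π).2 dvd_rfl, zero_mul]
  let r : (Fin n → A) →ₗ[A] (Fin n → B) := (Algebra.linearMap A B).compLeft (Fin n)
  obtain ⟨u₁, hu₁⟩ := lift q (x₁ • β ∘ₗ r) fun v => (hx _).1
  obtain ⟨u₂, hu₂⟩ := lift q (x₂ • β ∘ₗ r) fun v => (hx _).2.1
  obtain ⟨u₃, hu₃⟩ := lift q (x₃ • β ∘ₗ r) fun v => (hx _).2.2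
  simp only [LinearMap.smul_apply, LinearMap.comp_apply] at hu₁ hu₂ hu₃
  obtain ⟨W, hW⟩ := lift r (α ∘ₗ q) fun v => by
    choose a ha using fun i => hs (α (q v) i)
    exact ⟨a, funext ha⟩
  simp only [LinearMap.comp_apply] at hW
  have m12 : ∀ v, (x₁ • u₂ - x₂ • u₁) v ∈ LinearMap.ker q := fun v => by
    simp [hu₁, hu₂, smul_smul, mul_comm]
  have m13 : ∀ v, (x₁ • u₃ - x₃ • u₁) v ∈ LinearMap.ker q := fun v => by
    simp [hu₁, hu₃, smul_smul, mul_comm]
  have m23 : ∀ v, (x₂ • u₃ - x₃ • u₂) v ∈ LinearMap.ker q := fun v => by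
    simp [hu₂, hu₃, smul_smul, mul_comm]
  let c : (Fin n → A) →ₗ[A] B := f ∘ₗ LinearMap.codRestrict _ _ m12
  obtain ⟨D, hD⟩ := lift ((x₁ • LinearMap.fst A B B + x₂ • LinearMap.snd A B B)) c fun v => by
    obtain ⟨d, d', e⟩ := n3 (c v) (-f ⟨_, m23 v⟩) (f ⟨_, m13 v⟩) (by
      change x₃ • f _ = _
      rw [smul_neg, ← map_smul f, ← map_smul f, ← map_smul f, ← map_neg f, ← map_add f]
      congr 1
      ext i
      simp only [LinearMap.sub_apply, LinearMap.smul_apply, SetLike.val_smul,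
        LinearMap.codRestrict_apply, Pi.smul_apply, Pi.sub_apply, smul_eq_mul, Submodule.coe_add,
        Submodule.coe_neg, Pi.add_apply, Pi.neg_apply]
      ring)
    exact ⟨(d, d'), e.symm⟩
  simp only [LinearMap.add_apply, LinearMap.smul_apply, LinearMap.fst_apply,
    LinearMap.snd_apply] at hD
  have k1 : ∀ a, (x₁ • LinearMap.id - u₁ ∘ₗ W : (Fin k → A) →ₗ[A] _) a ∈ LinearMap.ker q := fun a => by
    simp [hu₁, hW, hαβ]
  have k2 : ∀ a, (x₂ • LinearMap.id - u₂ ∘ₗ W : (Fin k → A) →ₗ[A] _) a ∈ LinearMap.ker q := fun a => by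
    simp [hu₂, hW, hαβ]
  let η : (Fin k → A) →ₗ[A] B :=
    f ∘ₗ LinearMap.codRestrict _ _ k1 - LinearMap.snd A B B ∘ₗ D ∘ₗ W
  obtain ⟨H, hH⟩ := lift (x₁ • (LinearMap.id : B →ₗ[A] B)) η fun a => by
    obtain ⟨d, e⟩ := n2 (η a) (f ⟨_, k2 a⟩ + (D (W a)).1) (by
      have e1 : x₂ • f ⟨_, k1 a⟩ = x₁ • f ⟨_, k2 a⟩ + c (W a) := by
        change _ = _ + f _
        rw [← map_smul f, ← map_smul f, ← map_add f]
        congr 1
        ext i
        simp only [LinearMap.sub_apply, LinearMap.smul_apply, SetLike.val_smul,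
          LinearMap.codRestrict_apply, Pi.smul_apply, Pi.sub_apply, smul_eq_mul, Submodule.coe_add,
          Pi.add_apply, LinearMap.id_apply, LinearMap.comp_apply]
        ring
      change x₂ • (f ⟨_, k1 a⟩ - (D (W a)).2) = _
      rw [smul_sub, e1, ← hD, smul_add]
      abel)
    exact ⟨d, e.symm⟩
  refine ⟨H, fun z => sub_eq_zero.1 (n1 _ ?_)⟩
  have hz : ∀ i, π ∣ W z i := fun i => (hk _).1 (by
    have := congrFun (hW z) i
    rwa [show q z = 0 from z.2, map_zero] at this)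
  choose v hv using hz
  have hv' : W z = π • v := funext hv
  have e1 := hH z
  change x₁ • H z = f ⟨_, k1 z⟩ - (D (W z)).2 at e1
  have m : π • u₁ v ∈ LinearMap.ker q := by
    rw [LinearMap.mem_ker, map_smul, hu₁, smul_comm, ← map_smul,
      show π • r v = 0 from funext fun i => hπ _, map_zero, smul_zero]
  have e2 : (⟨_, k1 z⟩ : LinearMap.ker q) = x₁ • z - ⟨_, m⟩ := Subtype.ext (by simp [hv'])
  rw [smul_sub, e1, e2, map_sub, hf, hv', map_smul, map_smul, Prod.smul_snd, hπ]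
  simp

end LaA

theorem p_LA :
    S_LA := by
  intro A B M G _ _ _ _ _ _ _ _ _ π x₁ x₂ x₃ n ι α β hs hk hA hM hι hαβ hr hx χ
  obtain ⟨k, p, hp⟩ := Module.Finite.exists_fin' A M
  have hπ : ∀ b : B, π • b = 0 := fun b => by rw [Algebra.smul_def, (hk π).2 dvd_rfl, zero_mul]
  have dv : ∀ {X : Type} [AddCommGroup X] [Module A X] (f : X →ₗ[A] A),
      (∀ z, algebraMap A B (f z) = 0) → ∃ f' : X →ₗ[A] A, f = π • f' := fun f h => by
    choose g hg using fun z => (hk _).1 (h z)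
    refine ⟨⟨⟨g, fun a b => sub_eq_zero.1 (hA _ ?_)⟩, fun c a => sub_eq_zero.1 (hA _ ?_)⟩,
      LinearMap.ext hg⟩
    · rw [mul_sub, mul_add, ← hg, ← hg, ← hg, map_add, sub_self]
    · simp only [RingHom.id_apply, smul_eq_mul]
      rw [mul_sub, mul_left_comm, ← hg, ← hg, map_smul, smul_eq_mul, sub_self]
  have e1 : ∀ f : LinearMap.ker p →ₗ[A] B, ∃ h : (Fin k → A) →ₗ[A] A,
      ∀ z : LinearMap.ker p, algebraMap A B (h z) = f z := fun f => by
    have m : ∀ y : LinearMap.ker p × (Fin k → A), ((LinearMap.ker p).subtype.coprod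
        (π • LinearMap.id)) y ∈ LinearMap.ker (ι ∘ₗ p) := fun y => by
      have : p y.1 = 0 := y.1.2
      simpa [this] using (hι _).2 ⟨p y.2, rfl⟩
    obtain ⟨f₁, hf₁⟩ := LaA.fac (LinearMap.codRestrict _ _ m) (f ∘ₗ LinearMap.fst A _ _)
      (fun z => by
        obtain ⟨m', e⟩ := (hι _).1 z.2
        obtain ⟨a, rfl⟩ := hp m'
        exact ⟨(⟨z - π • a, by simp [e]⟩, a), Subtype.ext (by simp)⟩)
      (fun y e => by
        have e' : (y.1 : Fin k → A) + π • y.2 = 0 := congrArg Subtype.val e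
        have h2 : p y.2 = 0 := hM _ (by
          have := congrArg p e'
          rwa [map_add, show p y.1 = 0 from y.1.2, zero_add, map_smul, map_zero] at this)
        have : y.1 = π • (-⟨y.2, h2⟩) := Subtype.ext (by simpa using eq_neg_of_add_eq_zero_left e')
        simp [this, hπ])
    obtain ⟨h, hh⟩ := LaA.ext (ι ∘ₗ p) α β hs hk hαβ hr (fun g => by
      obtain ⟨⟨a, ha⟩, ⟨b, hb⟩, c, hc⟩ := hx g
      obtain ⟨a, rfl⟩ := hp a
      obtain ⟨b, rfl⟩ := hp b
      obtain ⟨c, rfl⟩ := hp c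
      exact ⟨⟨a, ha⟩, ⟨b, hb⟩, c, hc⟩) f₁ fun a h => by
        have := hf₁ (0, a)
        rw [LinearMap.comp_apply, LinearMap.fst_apply, map_zero] at this
        rw [← this]
        congr 1
        exact Subtype.ext (by simp)
    obtain ⟨h', hh'⟩ := LaA.lift (Algebra.linearMap A B) h fun v => hs _
    refine ⟨h', fun z => (hh' z).trans ?_⟩
    have := hf₁ (z, 0)
    rw [← hh] at this
    simpa using this
  let res : ((Fin k → A) →ₗ[A] A) →ₗ[A] (LinearMap.ker p →ₗ[A] A) :=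
    LinearMap.lcomp A A (LinearMap.ker p).subtype
  have hle : (⊤ : Submodule A (LinearMap.ker p →ₗ[A] A)).map (LinearMap.range res).mkQ ≤
      Ideal.span {π} • (⊤ : Submodule A _).map (LinearMap.range res).mkQ := by
    rintro _ ⟨f, -, rfl⟩
    obtain ⟨h, hh⟩ := e1 (Algebra.linearMap A B ∘ₗ f)
    obtain ⟨f', hf'⟩ := dv (f - res h) fun z => by
      rw [LinearMap.sub_apply, map_sub, sub_eq_zero]; exact (hh z).symm
    have : (LinearMap.range res).mkQ f = π • (LinearMap.range res).mkQ f' := by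
      have h0 : (LinearMap.range res).mkQ (res h) = 0 :=
        (Submodule.Quotient.mk_eq_zero _).2 ⟨h, rfl⟩
      rw [← map_smul, ← hf', map_sub, h0, sub_zero]
    rw [this]
    exact Submodule.smul_mem_smul (Ideal.subset_span rfl) ⟨f', trivial, rfl⟩
  obtain ⟨r, hr1, hr2⟩ := Submodule.exists_sub_one_mem_and_smul_eq_zero_of_fg_of_le_smul _ _
    (Submodule.FG.map _ Module.Finite.fg_top) hle
  obtain ⟨h, hh⟩ := LaA.lift (Algebra.linearMap A B) (χ ∘ₗ ι ∘ₗ p) fun v => hs _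
  obtain ⟨f', hf'⟩ := dv (res h) fun z => (hh z).trans (by
    simp [show p z = 0 from z.2])
  have := hr2 _ ⟨f', trivial, rfl⟩
  rw [← map_smul] at this
  obtain ⟨h', hh'⟩ := (Submodule.Quotient.mk_eq_zero _).1 this
  obtain ⟨w, hw⟩ := LaA.fac p (r • h - π • h') hp fun z hz => by
    have a1 : h z = π * f' ⟨z, hz⟩ := LinearMap.congr_fun hf' ⟨z, hz⟩
    have a2 : h' z = r * f' ⟨z, hz⟩ := LinearMap.congr_fun hh' ⟨z, hz⟩
    simp only [LinearMap.sub_apply, LinearMap.smul_apply, smul_eq_mul, a1, a2]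
    ring
  refine ⟨w, fun m => ?_⟩
  obtain ⟨a, rfl⟩ := hp m
  have a3 : algebraMap A B (h a) = χ (ι (p a)) := hh a
  rw [hw, ← a3, ← sub_eq_zero, ← map_sub, hk]
  obtain ⟨c, hc⟩ := Ideal.mem_span_singleton.1 hr1
  exact ⟨c * h a - h' a, by
    simp only [LinearMap.sub_apply, LinearMap.smul_apply, smul_eq_mul]
    linear_combination h a * hc⟩

end Pool.Agent.P.MP_e7d440_ag.Z
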