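import Pool.Agent.P.MP_e7d440_ag.Z.IfaceA
import Pool.Agent.P.MP_e7d440_ag.Z.TLA

/-! Step LB. -/

set_option autoImplicit false
set_option linter.unusedSectionVars false

namespace Pool.Agent.P.MP_e7d440_ag.Z

open IsLocalRing MvPolynomial U

namespace LbA

variable {A X Y : Type} [CommRing A] [AddCommGroup X] [Module A X] [AddCommGroup Y] [Module A Y]
  {π : A}

lemma dv (hY : ∀ y : Y, π • y = 0 → y = 0) (f : X →ₗ[A] Y) (h : ∀ x, ∃ y, f x = π • y) :
    ∃ f' : X →ₗ[A] Y, ∀ x, f x = π • f' x := by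
  choose g hg using h
  refine ⟨⟨⟨g, fun a b => sub_eq_zero.1 (hY _ ?_)⟩, fun c a => sub_eq_zero.1 (hY _ ?_)⟩, hg⟩
  · rw [smul_sub, smul_add, ← hg, ← hg, ← hg, map_add, sub_self]
  · simp only [RingHom.id_apply]
    rw [smul_sub, smul_comm π c, ← hg, ← hg, map_smul, sub_self]

lemma nak [Module.Finite A X] (H : Submodule A X) (h : ∀ f, ∃ g, f - π • g ∈ H) :
    ∃ r : A, π ∣ r - 1 ∧ ∀ f, r • f ∈ H := by
  have hle : (⊤ : Submodule A X).map H.mkQ ≤
      Ideal.span {π} • (⊤ : Submodule A X).map H.mkQ := by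
    rintro _ ⟨f, -, rfl⟩
    obtain ⟨g, hg⟩ := h f
    have : H.mkQ f = π • H.mkQ g := by
      rw [← map_smul]; exact (Submodule.Quotient.eq _).2 hg
    rw [this]
    exact Submodule.smul_mem_smul (Ideal.subset_span rfl) ⟨g, trivial, rfl⟩
  obtain ⟨r, hr1, hr2⟩ := Submodule.exists_sub_one_mem_and_smul_eq_zero_of_fg_of_le_smul _ _
    (Submodule.FG.map _ Module.Finite.fg_top) hle
  refine ⟨r, Ideal.mem_span_singleton.1 hr1, fun f => (Submodule.Quotient.mk_eq_zero _).1 ?_⟩
  exact hr2 _ ⟨f, trivial, rfl⟩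

lemma mul {r r' : A} (h : π ∣ r - 1) (h' : π ∣ r' - 1) : π ∣ r * r' - 1 := by
  rw [show r * r' - 1 = (r - 1) * r' + (r' - 1) by ring]
  exact (h.mul_right _).add h'

lemma split [IsNoetherianRing A] [Module.Finite A Y] {n : ℕ} (hA : ∀ a : A, π * a = 0 → a = 0)
    (hY : ∀ y : Y, π • y = 0 → y = 0) (a : (Fin n → A) →ₗ[A] Y) (E : (Fin n → A) →ₗ[A] Fin n → A)
    (h1 : ∀ y, ∃ v y', y - π • y' = a v) (h2 : ∀ v, ∃ y, a (v - E v) = π • y)
    (h3 : ∀ v, a v = 0 → ∃ v', E v = π • v') :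
    ∃ (r : A) (t : Y →ₗ[A] Fin n → A), π ∣ r - 1 ∧ ∀ y, a (t y) = r • y := by
  obtain ⟨r₁, a1, a2⟩ := nak (π := π) (LinearMap.range a) fun y => by
    obtain ⟨v, y', e⟩ := h1 y
    exact ⟨y', v, e.symm⟩
  obtain ⟨φ, hφ⟩ := dv hY (a ∘ₗ (LinearMap.id - E)) h2
  obtain ⟨ψ, hψ⟩ := LaA.lift a (r₁ • φ) fun v => a2 _
  have m : ∀ v, (r₁ • (LinearMap.id - E) - π • ψ : (Fin n → A) →ₗ[A] _) v ∈ LinearMap.ker a :=
    fun v => by
      have := hφ v
      simp only [LinearMap.comp_apply] at this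
      simp only [LinearMap.mem_ker, LinearMap.sub_apply _ (π • ψ), LinearMap.smul_apply, map_sub,
        map_smul, this, hψ, smul_comm r₁ π, sub_self]
  let κ := LinearMap.codRestrict _ _ m
  have hK : ∀ v : LinearMap.ker a, π • v = 0 → v = 0 := fun v h =>
    Subtype.ext (funext fun i => hA _ (congrFun (congrArg Subtype.val h) i))
  obtain ⟨c, hc⟩ := a1
  obtain ⟨θ, hθ⟩ := dv hK (LinearMap.id - κ ∘ₗ (LinearMap.ker a).subtype) fun v => by
    obtain ⟨v', e⟩ := h3 v v.2
    have e2 : ((v - κ v : LinearMap.ker a) : Fin n → A) = π • (r₁ • v' + ψ v - c • v) := by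
      ext i
      have := congrFun e i
      simp only [κ, Submodule.coe_sub, LinearMap.codRestrict_apply, LinearMap.sub_apply,
        LinearMap.smul_apply, LinearMap.id_apply, Pi.sub_apply, Pi.smul_apply, Pi.add_apply,
        smul_eq_mul] at this ⊢
      linear_combination r₁ * this - v.1 i * hc
    exact ⟨⟨_, hY _ (by rw [← map_smul, ← e2]; exact (v - κ v).2)⟩, Subtype.ext e2⟩
  let res : ((Fin n → A) →ₗ[A] LinearMap.ker a) →ₗ[A] (LinearMap.ker a →ₗ[A] LinearMap.ker a) :=
    LinearMap.lcomp A _ (LinearMap.ker a).subtype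
  obtain ⟨r₂, b1, b2⟩ := nak (X := LinearMap.ker a →ₗ[A] LinearMap.ker a) (π := π)
    (LinearMap.range res) fun f =>
      ⟨f ∘ₗ θ, f ∘ₗ κ, LinearMap.ext fun v => by
        have := hθ v
        simp only [LinearMap.sub_apply, LinearMap.id_apply, LinearMap.comp_apply] at this
        change f (κ v) = f v - π • f (θ v)
        rw [← map_smul, ← this, map_sub, sub_sub_cancel]
        rfl⟩
  obtain ⟨ρ, hρ⟩ := b2 LinearMap.id
  obtain ⟨t, ht⟩ := LaA.fac a.rangeRestrict (r₂ • LinearMap.id - (LinearMap.ker a).subtype ∘ₗ ρ)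
    a.surjective_rangeRestrict fun v hv => by
      have := congrArg Subtype.val (LinearMap.congr_fun hρ ⟨v, congrArg Subtype.val hv⟩)
      exact sub_eq_zero.2 this.symm
  refine ⟨r₂ * r₁, t ∘ₗ LinearMap.codRestrict _ (r₁ • LinearMap.id) a2, mul b1 ⟨c, hc⟩,
    fun y => ?_⟩
  obtain ⟨v, hv⟩ := a2 y
  have : LinearMap.codRestrict _ (r₁ • LinearMap.id) a2 y = a.rangeRestrict v :=
    Subtype.ext hv.symm
  rw [LinearMap.comp_apply, this, ht, LinearMap.sub_apply, map_sub, LinearMap.smul_apply,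
    map_smul, LinearMap.id_apply, hv, smul_smul]
  exact sub_eq_self.2 (ρ v).2

end LbA

theorem p_LB (hLA : S_LA) :
    S_LB := by
  intro A B M G _ _ _ _ _ _ _ _ _ π x₁ x₂ x₃ n ι α β hs hk hA hM hι hαβ hr hx hR
  obtain ⟨n1, n2, -⟩ := LaA.reg hs hk hr
  have hπ : ∀ b : B, π • b = 0 := fun b => by rw [Algebra.smul_def, (hk π).2 dvd_rfl, zero_mul]
  choose w hw using fun l => hLA A B M G π x₁ x₂ x₃ n ι α β hs hk hA hM hι hαβ hr hx
    (LinearMap.proj l ∘ₗ α)
  simp only [LinearMap.comp_apply, LinearMap.proj_apply] at hw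
  have hG : ∀ g : G, g = ∑ l, β (Pi.single l (α g l)) := fun g => by
    rw [← map_sum, Finset.univ_sum_single, hαβ]
  have hb : ∀ (l : Fin n) (c : A), β (Pi.single l (algebraMap A B c)) = c • β (Pi.single l 1) :=
    fun l c => by rw [← map_smul, ← Pi.single_smul', Algebra.smul_def, mul_one]
  have hD : ∀ f : M →ₗ[A] A, π • f = 0 → f = 0 := fun f h =>
    LinearMap.ext fun m => hA _ (LinearMap.congr_fun h m)
  have hd : ∀ f : M →ₗ[A] A, (∀ m, algebraMap A B (f m) = 0) → ∃ f', f = π • f' := fun f h => by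
    obtain ⟨f', e⟩ := LbA.dv (Y := A) hA f fun m => (hk _).1 (h m)
    exact ⟨f', LinearMap.ext e⟩
  have h0 : ∀ (f : M →ₗ[A] A) (m : M), ι m = 0 → algebraMap A B (f m) = 0 := fun f m h => by
    obtain ⟨m', rfl⟩ := (hι _).1 h
    rw [map_smul, hk]; exact ⟨_, rfl⟩
  let a : (Fin n → A) →ₗ[A] (M →ₗ[A] A) := Fintype.linearCombination A w
  have ha : ∀ v m, algebraMap A B (a v m) = ∑ l, v l • α (ι m) l := fun v m => by
    simp [a, Fintype.linearCombination_apply, hw, Algebra.smul_def]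
  choose e he using fun k l => hs (α (β (Pi.single k 1)) l)
  let E : (Fin n → A) →ₗ[A] Fin n → A := Matrix.mulVecLin (Matrix.of e)
  have hE : ∀ v k, algebraMap A B (E v k) = ∑ l, v l • α (β (Pi.single k 1)) l := fun v k => by
    simp [E, Matrix.mulVec, dotProduct, he, Algebra.smul_def, mul_comm]
  obtain ⟨r, t, hr1, ht⟩ := LbA.split hA hD a E (fun f => by
      choose m₁ e₁ using fun l => (hx (β (Pi.single l 1))).1
      choose m₂ e₂ using fun l => (hx (β (Pi.single l 1))).2.1
      choose c hc using fun l => n2 (algebraMap A B (f (m₁ l))) (algebraMap A B (f (m₂ l))) (by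
        have := h0 f (x₂ • m₁ l - x₁ • m₂ l) (by simp [e₁, e₂, smul_smul, mul_comm])
        simpa [sub_eq_zero, Algebra.smul_def] using this)
      choose v hv using fun l => hs (c l)
      obtain ⟨f', e⟩ := hd (f - a v) fun m => n1 _ (by
        have := h0 f (x₁ • m - ∑ l, w l m • m₁ l) (by
          rw [map_sub, map_smul, map_sum, hG (ι m), Finset.smul_sum, sub_eq_zero]
          refine Finset.sum_congr rfl fun l _ => ?_
          rw [← hw, hb, map_smul, e₁, smul_comm])
        rw [LinearMap.sub_apply, map_sub, ha, smul_sub, Finset.smul_sum, ← this]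
        simp only [map_sub, map_smul, map_sum, smul_eq_mul, map_mul, hc, hw, Algebra.smul_def, hv]
        congr 1
        exact Finset.sum_congr rfl fun l _ => by ring)
      exact ⟨v, f', by rw [← e, sub_sub_cancel]⟩)
    (fun v => hd _ fun m => by
      rw [map_sub, LinearMap.sub_apply, map_sub, ha, ha, sub_eq_zero]
      simp only [Algebra.smul_def (E v _), hE, Finset.sum_mul]
      rw [Finset.sum_comm]
      refine Finset.sum_congr rfl fun l _ => ?_
      conv_lhs => rw [hG (ι m), map_sum, Finset.sum_apply, Finset.smul_sum]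
      refine Finset.sum_congr rfl fun k _ => ?_
      rw [← hw k, hb, map_smul, Pi.smul_apply, smul_mul_assoc, Algebra.smul_def (w k m), mul_comm])
    (fun v hv => by
      choose v' e using fun k => (hk _).1 (show algebraMap A B (E v k) = 0 from n1 _ (by
        obtain ⟨m, e⟩ := (hx (β (Pi.single k 1))).1
        have := ha v m
        rw [hv, e, LinearMap.zero_apply, map_zero] at this
        rw [hE, this, Finset.smul_sum]
        exact Finset.sum_congr rfl fun l _ => by rw [map_smul, Pi.smul_apply, smul_comm]))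
      exact ⟨v', funext e⟩)
  choose μ hμ using fun l => hR (LinearMap.proj l ∘ₗ t)
  simp only [LinearMap.comp_apply, LinearMap.proj_apply] at hμ
  let T : Submodule A M := ⨅ f : M →ₗ[A] A, LinearMap.ker f
  have hT : ∀ m, m ∈ T ↔ ∀ f : M →ₗ[A] A, f m = 0 := fun m => by simp [T]
  obtain ⟨r', c1, c2⟩ := LbA.nak (π := π) (⊥ : Submodule A T) fun m => by
    obtain ⟨m', e⟩ := (hι m).1 (by
      rw [← hαβ (ι m), show α (ι m) = 0 from funext fun l => by
        rw [← hw, (hT _).1 m.2, map_zero, Pi.zero_apply], map_zero])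
    exact ⟨⟨m', (hT _).2 fun f => hA _ (by
      rw [← smul_eq_mul, ← map_smul, ← e, (hT _).1 m.2])⟩, sub_eq_zero.2 (Subtype.ext e)⟩
  let α' : M →ₗ[A] Fin n → A := LinearMap.pi w
  let β' : (Fin n → A) →ₗ[A] M := r' • Fintype.linearCombination A μ
  have key : ∀ m, β' (α' m) = (r' * r) • m := fun m => by
    have := congrArg Subtype.val (c2 ⟨Fintype.linearCombination A μ (α' m) - r • m,
      (hT _).2 fun f => by
        have := LinearMap.congr_fun (ht f) m
        simp only [a, Fintype.linearCombination_apply, LinearMap.sum_apply, LinearMap.smul_apply,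
          smul_eq_mul, hμ] at this
        simp [α', Fintype.linearCombination_apply, ← this, mul_comm]⟩)
    rw [← sub_eq_zero, mul_smul]
    exact (smul_sub _ _ _).symm.trans this
  have hr2 := LbA.mul c1 hr1
  refine ⟨fun g => ?_, r' * r, hr2, n, α', β', key⟩
  choose v hv using fun l => hs (α g l)
  obtain ⟨m, e⟩ := (hx g).1
  choose v' hv' using fun l => (hk (α' m l - x₁ * v l)).1 (by
    rw [map_sub, map_mul, hv, ← Algebra.smul_def, ← Pi.smul_apply, ← map_smul, ← e, ← hw]
    exact sub_self _)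
  have e2 : α' m = x₁ • v + π • v' := funext fun l => sub_eq_iff_eq_add'.1 (hv' l)
  have hπG : ∀ g : G, π • g = 0 := fun g => by
    rw [← hαβ g, ← map_smul, show π • α g = 0 from funext fun l => hπ _, map_zero]
  have e3 := congrArg ι (key m)
  obtain ⟨c, hc⟩ := hr2
  rw [e2, map_add, map_add, map_smul, map_smul, map_smul, map_smul, hπG, add_zero, map_smul, e,
    sub_eq_iff_eq_add.1 hc, add_smul, mul_smul, hπG, zero_add, one_smul, ← sub_eq_zero,
    ← smul_sub] at e3
  refine ⟨β' v, sub_eq_zero.1 ?_⟩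
  rw [← hαβ (ι (β' v) - g), show α (ι (β' v) - g) = 0 from funext fun l => n1 _ (by
    rw [← Pi.smul_apply, ← map_smul, e3, map_zero, Pi.zero_apply]), map_zero]

end Pool.Agent.P.MP_e7d440_ag.Z
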