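import Pool.Agent.P.MP_e7d440_ag.Z.IfaceA

/-! Step LOC. -/

set_option autoImplicit false
set_option linter.unusedSectionVars false

namespace Pool.Agent.P.MP_e7d440_ag.Z

open IsLocalRing MvPolynomial U

namespace LocA

theorem common {N ι : Type} [CommRing N] [Fintype ι] {𝔮 : Ideal N} (h𝔮 : 𝔮.IsPrime)
    (P : ι → N → Prop) (hm : ∀ i r s, P i r → P i (r * s)) (h : ∀ i, ∃ r, r ∉ 𝔮 ∧ P i r) :
    ∃ r, r ∉ 𝔮 ∧ ∀ i, P i r := by
  choose r h1 h2 using h
  refine ⟨∏ i, r i, 𝔮.primeCompl.prod_mem (fun i _ => h1 i), fun i => ?_⟩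
  obtain ⟨s, hs⟩ := Finset.dvd_prod_of_mem r (Finset.mem_univ i)
  rw [hs]
  exact hm i _ _ (h2 i)

/-- the local ring inside `K` -/
def LR {N K : Type} [CommRing N] [Field K] (φ : N →+* K) (𝔮 : Ideal N) (h : 𝔮.IsPrime) :
    Subring K where
  carrier := {γ | loc φ 𝔮 γ}
  mul_mem' := by
    rintro x y ⟨a, b, hb, e⟩ ⟨a', b', hb', e'⟩
    refine ⟨a * a', b * b', fun k => (h.mem_or_mem k).elim hb hb', ?_⟩
    rw [map_mul, map_mul, ← e, ← e']
    ring
  one_mem' := by simpa using loc_map φ h 1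
  add_mem' := by
    rintro x y ⟨a, b, hb, e⟩ ⟨a', b', hb', e'⟩
    refine ⟨a * b' + a' * b, b * b', fun k => (h.mem_or_mem k).elim hb hb', ?_⟩
    rw [map_add, map_mul, map_mul, map_mul, ← e, ← e']
    ring
  zero_mem' := by simpa using loc_map φ h 0
  neg_mem' := by
    rintro x ⟨a, b, hb, e⟩
    exact ⟨-a, b, hb, by rw [map_neg, ← e, neg_mul]⟩

end LocA

open LocA in
theorem p_LOC (hPSI : S_PSI) :
    S_LOC := by
  intro O N K σ _ _ _ _ _ _ _ _ _ _ π p 𝔮 y c hP hinj h𝔮 hπ hy hch hc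
  classical
  have : Fact p.Prime := ⟨hP.prime⟩
  let R := LR (algebraMap N K) 𝔮 h𝔮
  let ι : N →+* R := (algebraMap N K).codRestrict R (loc_map _ h𝔮)
  have hι : ∀ a, ((ι a : R) : K) = algebraMap N K a := fun _ => rfl
  let oR : O →+* R := ι.comp (algebraMap O N)
  let yR : σ → R := fun b => ⟨y b, hch.1 b⟩
  let ev : MvPolynomial σ O →+* R := eval₂Hom oR yR
  have hev : ∀ F, ((ev F : R) : K) = aeval y F := by
    intro F
    have : R.subtype.comp ev = (aeval y : MvPolynomial σ O →ₐ[O] K).toRingHom := by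
      apply MvPolynomial.ringHom_ext
      · intro o
        simp [ev, oR, hι, ← IsScalarTower.algebraMap_apply]
      · intro b
        simp [ev, yR]
    exact RingHom.congr_fun this F
  have unit : ∀ x : R, (x : K) ≠ 0 → loc (algebraMap N K) 𝔮 (x : K)⁻¹ → IsUnit x :=
    fun x h0 h1 => isUnit_iff_exists_inv.2 ⟨⟨_, h1⟩, Subtype.ext (mul_inv_cancel₀ h0)⟩
  have uι : ∀ b, b ∉ 𝔮 → IsUnit (ι b) := by
    intro b hb
    have h0 : algebraMap N K b ≠ 0 := fun k =>
      hb (by rw [hinj (k.trans (map_zero _).symm)]; exact 𝔮.zero_mem)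
    exact unit _ h0 ⟨1, b, hb, by rw [hι, inv_mul_cancel₀ h0, map_one]⟩
  have den : ∀ ρ : R, ∃ a b, b ∉ 𝔮 ∧ ρ * ι b = ι a := fun ρ => by
    obtain ⟨a, b, hb, e⟩ := ρ.2
    exact ⟨a, b, hb, Subtype.ext e⟩
  have frN : ∀ a, ∃ F G, IsUnit (ev G) ∧ ι a * ev G = ev F := fun a => by
    obtain ⟨F, G, h1, h2, h3⟩ := hch.2 a
    refine ⟨F, G, unit _ (by rwa [hev]) (by rw [hev]; exact h2), Subtype.ext ?_⟩
    rw [Subring.coe_mul, hev, hev, hι, h3]
  have frc : ∀ ρ : R, ∃ F G, IsUnit (ev G) ∧ ρ * ev G = ev F := fun ρ => by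
    obtain ⟨a, b, hb, e⟩ := den ρ
    obtain ⟨F1, G1, u1, e1⟩ := frN a
    obtain ⟨F2, G2, u2, e2⟩ := frN b
    refine ⟨F1 * G2, F2 * G1, ?_, ?_⟩
    · rw [map_mul, ← e2]
      exact ((uι b hb).mul u2).mul u1
    · rw [map_mul, map_mul, ← e1, ← e2, ← e]
      ring
  let I : Ideal R := Ideal.span {oR π}
  let mk : R →+* R ⧸ I := Ideal.Quotient.mk I
  have ker : ∀ x : N, mk (ι x) = 0 → ∃ r, r ∉ 𝔮 ∧ algebraMap O N π ∣ r * x := by
    intro x hx
    obtain ⟨ρ, hρ⟩ := Ideal.mem_span_singleton'.1 (Ideal.Quotient.eq_zero_iff_mem.1 hx)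
    obtain ⟨a, b, hb, e⟩ := den ρ
    refine ⟨b, hb, a, hinj ?_⟩
    have : ι (b * x) = ι (algebraMap O N π * a) := by
      rw [map_mul, map_mul, ← hρ, ← e]
      change _ = oR π * _
      ring
    exact congrArg Subtype.val this
  have ker' : ∀ x : N, algebraMap O N π ∣ x → mk (ι x) = 0 := by
    rintro _ ⟨a, rfl⟩
    rw [map_mul]
    exact Ideal.Quotient.eq_zero_iff_mem.2 (Ideal.mul_mem_right _ _ (Ideal.subset_span rfl))
  have one : (1 : R ⧸ I) ≠ 0 := by
    intro h
    obtain ⟨r, h1, a, h2⟩ := ker 1 (by rw [map_one, map_one, h])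
    rw [mul_one] at h2
    exact h1 (h2 ▸ 𝔮.mul_mem_right _ hπ)
  have hmax : maximalIdeal O = Ideal.span {π} := hP.irr.maximalIdeal_eq
  have res0 : ∀ o : O, π ∣ o → residue O o = 0 := fun o ho =>
    (residue_eq_zero_iff o).2 (hmax ▸ Ideal.mem_span_singleton.2 ho)
  let kT : ResidueField O →+* R ⧸ I := Ideal.Quotient.lift (maximalIdeal O) (mk.comp oR) (by
    intro o ho
    rw [hmax, Ideal.mem_span_singleton] at ho
    exact ker' _ (map_dvd (algebraMap O N) ho))
  let φ : MvPolynomial σ (ResidueField O) →+* R ⧸ I := eval₂Hom kT fun b => mk (yR b)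
  have hφ : ∀ F, φ (MvPolynomial.map (residue O) F) = mk (ev F) := by
    intro F
    have : φ.comp (MvPolynomial.map (residue O)) = mk.comp ev := by
      apply MvPolynomial.ringHom_ext
      · intro o
        simp only [RingHom.comp_apply, map_C, φ, ev, coe_eval₂Hom, eval₂_C]
        rfl
      · intro b
        simp [φ, ev]
    exact RingHom.congr_fun this F
  have : CharP (ResidueField O) p :=
    (CharP.charP_iff_prime_eq_zero hP.prime).2 (by
      rw [← map_natCast (residue O)]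
      exact res0 _ hP.dvd)
  have : PerfectRing (ResidueField O) p := PerfectRing.ofSurjective _ p (by
    intro x
    obtain ⟨o, rfl⟩ := residue_surjective x
    obtain ⟨o', ho⟩ := hP.root o
    refine ⟨residue O o', ?_⟩
    have := res0 _ ho
    rw [map_sub, map_pow, sub_eq_zero] at this
    rw [frobenius_def, this])
  obtain ⟨e, Ψ, h1, h2⟩ := hPSI (ResidueField O) σ (R ⧸ I) p φ
    ((injective_iff_map_eq_zero φ).2 (by
      intro F' hF
      obtain ⟨F, rfl⟩ := MvPolynomial.map_surjective (residue O) residue_surjective F'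
      rw [hφ] at hF
      obtain ⟨ρ, hρ⟩ := Ideal.mem_span_singleton'.1 (Ideal.Quotient.eq_zero_iff_mem.1 hF)
      obtain ⟨H, G, u, e⟩ := frc ρ
      have e1 : ev (F * G) = ev (C π * H) := by
        rw [map_mul, map_mul, ← hρ, ← e]
        simp only [ev, coe_eval₂Hom, eval₂_C]
        ring
      have e2 : F * G = C π * H := hy (by rw [← hev, ← hev, e1])
      have e3 := congrArg (MvPolynomial.map (residue O)) e2
      rw [map_mul, map_mul, map_C, res0 π dvd_rfl, C_0, zero_mul] at e3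
      refine (mul_eq_zero.1 e3).resolve_right fun k => ?_
      have u2 := u.map mk
      rw [← hφ, k, map_zero] at u2
      exact one (isUnit_zero_iff.1 u2).symm))
    (by
      intro t
      obtain ⟨ρ, rfl⟩ := Ideal.Quotient.mk_surjective t
      obtain ⟨F, G, u, e⟩ := frc ρ
      refine ⟨MvPolynomial.map (residue O) F, MvPolynomial.map (residue O) G, ?_, ?_⟩
      · rw [hφ]
        exact u.map mk
      · rw [hφ, hφ, ← e, map_mul])
    (mk (ι c)) (fun k => by
      obtain ⟨r, k1, k2⟩ := ker c k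
      exact hc r k1 k2)
  refine ⟨e, fun l n z b v h => ?_⟩
  obtain ⟨s, s1, s2⟩ := common h𝔮
    (fun i s => ∃ a, mk (ι s) * Ψ (mk (ι (v i))) = mk (ι a))
    (by
      rintro i r s ⟨a, ha⟩
      refine ⟨a * s, ?_⟩
      rw [map_mul, map_mul, map_mul, map_mul, ← ha]
      ring)
    (fun i => by
      obtain ⟨ρ, hρ⟩ := Ideal.Quotient.mk_surjective (Ψ (mk (ι (v i))))
      obtain ⟨a, b, hb, e⟩ := den ρ
      exact ⟨b, hb, a, by rw [← hρ, ← e, map_mul, mul_comm]⟩)
  choose a ha using s2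
  obtain ⟨r, r1, r2⟩ := common h𝔮
    (fun j r => algebraMap O N π ∣ r * (s * z j - ∑ i, b j i * a i))
    (fun j r t k => by
      rw [mul_right_comm]
      exact k.mul_right t)
    (fun j => ker _ (by
      have e1 := ker' _ (h j)
      simp only [map_sub, map_mul, map_pow, map_sum, sub_eq_zero] at e1 ⊢
      have e2 := congrArg Ψ e1
      rw [mul_comm, h1, h2, mul_one, map_sum] at e2
      simp only [h1] at e2
      rw [e2, Finset.mul_sum]
      refine Finset.sum_congr rfl fun i _ => ?_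
      rw [← ha i]
      ring))
  refine ⟨r * s, fun k => (h𝔮.mem_or_mem k).elim r1 s1, fun i => r * a i, fun j => ?_⟩
  have : r * s * z j - ∑ i, b j i * (r * a i) = r * (s * z j - ∑ i, b j i * a i) := by
    rw [mul_sub, Finset.mul_sum, mul_assoc]
    congr 1
    exact Finset.sum_congr rfl fun i _ => by ring
  rw [this]
  exact r2 j

end Pool.Agent.P.MP_e7d440_ag.Z
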