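import Pool.Agent.P.MP_e7d440_ag.Z.IfaceB
import Pool.Agent.P.MP_e7d440_ag.Fin
import Pool.Agent.P.MP_e7d440_ag.Fina
import Pool.Agent.P.MP_e7d440_ag.Val
import Pool.Agent.P.MP_e7d440_ag.U.Gen

/-! Step NCF. -/

set_option autoImplicit false
set_option linter.unusedSectionVars false

namespace Pool.Agent.P.MP_e7d440_ag.Z

open IsLocalRing MvPolynomial U GrA

namespace NcfA

lemma eq_ncl {O K : Type} [CommRing O] [Field K] [Algebra O K] {N : Subalgebra O K} {Z : Set K}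
    (h : IsNc N Z) : N = ncl O (Subtype.val : Z → K) := by
  ext γ
  rw [h]
  change _ ↔ IsIntegral (Algebra.adjoin O (Set.range (Subtype.val : Z → K))) γ
  rw [Subtype.range_coe]

lemma lm {A K : Type} [CommRing A] [Field K] [Algebra A K] (𝔮 : Ideal A) (hp : 𝔮.IsPrime)
    (hi : Function.Injective (algebraMap A K)) (a : A) :
    locm (algebraMap A K) 𝔮 (algebraMap A K a) ↔ a ∈ 𝔮 := by
  refine ⟨fun ⟨c, b, hc, hb, e⟩ => ?_, fun h => ⟨a, 1, h,
    fun h1 => hp.ne_top ((Ideal.eq_top_iff_one _).2 h1), by simp⟩⟩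
  rw [← map_mul] at e
  exact (hp.mem_or_mem (hi e ▸ hc : a * b ∈ 𝔮)).resolve_right hb

end NcfA

theorem p_NCF :
    S_NCF := by
  refine ⟨?_, ?_, ?_, ?_, NcfA.lm, ?_⟩
  · intro O K _ _ _ _ _ _ N Z hinj hZ hN hg
    have : Finite Z := hZ
    have : CharZero O := (algebraMap O K).charZero
    obtain rfl := NcfA.eq_ncl hN
    have hfr : ∀ γ : K, ∃ a ∈ Algebra.adjoin O (Set.range (Subtype.val : Z → K)),
        ∃ b ∈ Algebra.adjoin O (Set.range (Subtype.val : Z → K)), b ≠ 0 ∧ γ * b = a := fun γ => by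
      obtain ⟨F, G, a1, a2⟩ := hg γ
      have hm : ∀ g : Z, (g : K) ∈ Algebra.adjoin O (Set.range (Subtype.val : Z → K)) :=
        fun g => Algebra.subset_adjoin ⟨g, rfl⟩
      exact ⟨_, GrA.aeval_mem hm F, _, GrA.aeval_mem hm G, a1, a2⟩
    obtain ⟨t', ht1, ht2⟩ := fin fina O K _ (Subtype.val : Z → K) hinj hfr
    have i2 := fr (Subtype.val : Z → K) hfr
    exact ⟨ft (Subtype.val : Z → K) t' ht1 ht2, i2, icl (O := O) (Subtype.val : Z → K)⟩
  · intro O K _ _ _ N Z hN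
    obtain rfl := NcfA.eq_ncl hN
    exact ⟨fun z hz => s_mem (Subtype.val : Z → K) ⟨z, hz⟩, fun c hc =>
      isIntegral_trans (R := Algebra.adjoin O (Set.range (Subtype.val : Z → K)))
        (A := integralClosure (Algebra.adjoin O (Set.range (Subtype.val : Z → K))) K) c hc⟩
  · intro A K _ _ _ _ _ _ 𝔮 hp
    have h0 : ∀ b, b ∉ 𝔮 → algebraMap A K b ≠ 0 := fun b hb e =>
      hb ((IsFractionRing.to_map_eq_zero_iff.1 e).symm ▸ 𝔮.zero_mem)
    have h1 : ∀ c, c ∈ Localization.subalgebra.ofField K 𝔮.primeCompl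
        𝔮.primeCompl_le_nonZeroDivisors ↔ loc (algebraMap A K) 𝔮 c := fun c =>
      ⟨fun ⟨a, b, hb, e⟩ => ⟨a, b, hb, (eq_mul_inv_iff_mul_eq₀ (h0 b hb)).1 e⟩,
        fun ⟨a, b, hb, e⟩ => ⟨a, b, hb, (eq_mul_inv_iff_mul_eq₀ (h0 b hb)).2 e⟩⟩
    refine ⟨(Localization.subalgebra.ofField K 𝔮.primeCompl
      𝔮.primeCompl_le_nonZeroDivisors).toSubring, h1, fun c hc => (h1 c).2 ?_⟩
    obtain ⟨m, hm⟩ := IsIntegral.exists_multiple_integral_of_isLocalization 𝔮.primeCompl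
      (Rₘ := Localization.subalgebra.ofField K 𝔮.primeCompl 𝔮.primeCompl_le_nonZeroDivisors) c hc
    obtain ⟨a, ha⟩ := (isIntegrallyClosed_iff K).1 ‹_› hm
    exact ⟨a, m, m.2, by rw [ha, Submonoid.smul_def, Algebra.smul_def, mul_comm]⟩
  · intro A K _ _ _ 𝔮 hp hi
    obtain ⟨V, v1, v2⟩ := ValA.center (algebraMap A K) 𝔮 hp (by
      rw [(RingHom.injective_iff_ker_eq_bot _).1 hi]; exact bot_le)
    have hu : ∀ b, b ∉ 𝔮 → algebraMap A K b ≠ 0 ∧ (algebraMap A K b)⁻¹ ∈ V := fun b hb => by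
      have := mt (v2 b).1 hb
      rwa [V.mem_nonunits_iff_or, not_or, not_not] at this
    refine ⟨V, ⟨v1, v2⟩, ?_, ?_, ?_⟩
    · rintro γ ⟨a, b, hb, e⟩
      rw [← eq_mul_inv_iff_mul_eq₀ (hu b hb).1] at e
      rw [e]
      exact mul_mem (v1 a) (hu b hb).2
    · rintro γ ⟨a, b, ha, hb, e⟩
      rw [← eq_mul_inv_iff_mul_eq₀ (hu b hb).1] at e
      rw [e, mul_comm]
      exact (SM.nonunits V).mul _ (hu b hb).2 _ ((v2 a).2 ha)
    · rintro γ ⟨a, b, hb, e⟩ hγ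
      refine ⟨a, b, (v2 a).1 ?_, hb, e⟩
      rw [← e, mul_comm]
      exact (SM.nonunits V).mul _ (v1 b) _ hγ
  · intro O A K σ ν _ _ _ _ _ _ _ _ _ 𝔮 y x hP hx hc
    have hg : Gen O y := fun γ => by
      obtain ⟨a, b, hb, rfl⟩ := IsFractionRing.div_surjective (A := A) γ
      obtain ⟨F, G, g1, -, g2⟩ := hP.2 a
      obtain ⟨F', G', g3, -, g4⟩ := hP.2 b
      have b0 : algebraMap A K b ≠ 0 := (IsLocalization.map_units K (⟨b, hb⟩ : nonZeroDivisors A)).ne_zero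
      refine ⟨F * G', G * F', ?_, ?_⟩
      · rw [map_mul, ← g4]
        exact mul_ne_zero g1 (mul_ne_zero b0 g3)
      · rw [map_mul, map_mul, ← g2, ← g4]
        field_simp
    exact ⟨hg, gen.indep y x hg hx hc⟩

end Pool.Agent.P.MP_e7d440_ag.Z
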