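import Pool.Agent.P.MP_e7d440_ag.Z.IfaceA
import Pool.Agent.P.MP_e7d440_ag.Z.TNCF
import Pool.Agent.P.MP_e7d440_ag.U.Resd
import Pool.Agent.P.MP_e7d440_ag.All

/-! Step MT. -/

set_option autoImplicit false
set_option linter.unusedSectionVars false

namespace Pool.Agent.P.MP_e7d440_ag.Z

open IsLocalRing MvPolynomial U

namespace MtA

lemma frc {O N K σ : Type} [CommRing O] [CommRing N] [Field K] [Algebra O K] [Algebra N K]
    (hi : Function.Injective (algebraMap N K)) {𝔮 : Ideal N} {y : σ → K} (h : PCh O 𝔮 y)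
    {S : Subring K} (hS : ∀ γ, γ ∈ S ↔ loc (algebraMap N K) 𝔮 γ) : ∀ γ ∈ S, Frc O y S γ := by
  intro γ hγ
  obtain ⟨a, b, hb, e⟩ := (hS _).1 hγ
  obtain ⟨F, G, a1, a2, a3⟩ := h.2 a
  obtain ⟨F', G', b1, b2, b3⟩ := h.2 b
  have hk : RingHom.ker (algebraMap N K) ≤ 𝔮 := by
    rw [(RingHom.injective_iff_ker_eq_bot _).1 hi]; exact bot_le
  refine ⟨F * G', G * F', ?_, ?_, ?_⟩
  · rw [map_mul, ← b3]
    exact mul_ne_zero a1 (mul_ne_zero (fun h0 => hb (hk h0)) b1)
  · rw [map_mul, ← b3, mul_inv, mul_inv]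
    exact S.mul_mem ((hS _).2 a2) (S.mul_mem ((hS _).2 (loc_inv _ hk hb)) ((hS _).2 b2))
  · rw [map_mul, map_mul, ← b3, ← a3, ← e]; ring

end MtA

theorem p_MT (hTD : S_TD) (hSPL : S_SPL) (hLOC : S_LOC) (hPDEP : S_PDEP) (hCORE : S_CORE) :
    S_MT := by
  intro O τ N K σ _ _ _ _ _ _ _ _ _ _ _ _ _ _ _ _ _ _ π p i₀ e D g v hp hinj hτ hσ hg hl hπ hv
    hch hpc hdep
  have : Fact p.Prime := ⟨hp.prime⟩
  have : IsNoetherianRing N := IsNoetherianRing.of_finite (MvPolynomial τ O) N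
  have : Algebra.FiniteType O N := Algebra.FiniteType.trans (S := MvPolynomial τ O)
    inferInstance inferInstance
  have hNK := IsFractionRing.injective N K
  have hCπ : algebraMap (MvPolynomial τ O) N (C π) = algebraMap O N π :=
    (IsScalarTower.algebraMap_apply O (MvPolynomial τ O) N π).symm
  have hCp : Prime (C π : MvPolynomial τ O) := (prime_C_iff τ).2 hp.irr.prime
  have hcon : ∀ F, algebraMap O N π ∣ algebraMap (MvPolynomial τ O) N F → C π ∣ F := fun F h => by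
    have := (Ideal.span_singleton_prime hCp.ne_zero).2 hCp
    obtain ⟨Q, -, h2⟩ := Ideal.exists_ideal_over_prime_of_isIntegral_of_isDomain (S := N)
      (Ideal.span {(C π : MvPolynomial τ O)}) (by
        rw [(RingHom.injective_iff_ker_eq_bot _).1 hinj]; exact bot_le)
    rw [← Ideal.mem_span_singleton, ← h2, Ideal.mem_comap]
    refine Ideal.mem_of_dvd _ h ?_
    rw [← hCπ, ← Ideal.mem_comap, h2]
    exact Ideal.subset_span rfl
  have hP := (Ideal.span_singleton_prime hπ.ne_zero).2 hπ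
  obtain ⟨V, hV1, hV2⟩ := vals'.dvr (K := K) _ hP
    (Ideal.height_span_singleton_eq_one_of_mem_nonZeroDivisors
      (mem_nonZeroDivisors_of_ne_zero hπ.ne_zero) hπ.not_isUnit)
  simp only [Ideal.mem_span_singleton] at hV2
  let j : N →+* V := (algebraMap N K).codRestrict V fun a => (hV1 _).2 (loc_map _ hP a)
  let ρ : N →+* ResidueField V := (residue V).comp j
  have hρ : ∀ a, ρ a = 0 ↔ algebraMap O N π ∣ a := fun a =>
    (residue_eq_zero_iff _).trans (V.coe_mem_nonunits_iff.symm.trans (hV2 a))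
  have hm : ∀ o, residue O o = 0 ↔ π ∣ o := fun o => by
    rw [residue_eq_zero_iff, hp.irr.maximalIdeal_eq, Ideal.mem_span_singleton]
  let l : ResidueField O →+* ResidueField V := Ideal.Quotient.lift (maximalIdeal O)
    (ρ.comp (algebraMap O N)) fun o ho => (hρ _).2
      (_root_.map_dvd _ ((hm o).1 ((residue_eq_zero_iff _).2 ho)))
  let : Algebra (MvPolynomial τ (ResidueField O)) (ResidueField V) :=
    (eval₂Hom l fun i => ρ (algebraMap (MvPolynomial τ O) N (X i))).toAlgebra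
  have com : ∀ F, algebraMap (MvPolynomial τ (ResidueField O)) (ResidueField V)
      (map (algebraMap O (ResidueField O)) F) = ρ (algebraMap (MvPolynomial τ O) N F) := fun F => by
    induction F using MvPolynomial.induction_on with
    | C o =>
      rw [map_C, RingHom.algebraMap_toAlgebra, eval₂Hom_C]
      exact congrArg ρ (IsScalarTower.algebraMap_apply O (MvPolynomial τ O) N o)
    | add F G h1 h2 => simp only [map_add, h1, h2]
    | mul_X F i h => rw [map_mul, map_mul, h, map_X, RingHom.algebraMap_toAlgebra, eval₂Hom_X',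
        map_mul, map_mul]
  have ctx : Ctx (ResidueField O) τ π ρ :=
    ⟨hp.irr, residue_surjective, (hm π).2 dvd_rfl, inferInstance, com, hρ, fun c t h0 h => by
      obtain ⟨c, rfl⟩ := map_surjective (algebraMap O (ResidueField O)) residue_surjective c
      rw [Algebra.smul_def, com] at h
      exact (mul_eq_zero.1 h).resolve_left fun h1 => h0
        ((C_dvd_iff_map_hom_eq_zero _ π hm c).1 (hcon _ ((hρ _).1 h1))), inferInstance⟩
  have : CharP (ResidueField O) p := (CharP.charP_iff_prime_eq_zero hp.prime).2 (by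
    rw [← map_natCast (residue O)]; exact (hm _).2 hp.dvd)
  have : PerfectRing (ResidueField O) p := PerfectRing.ofSurjective _ _ fun z => by
    obtain ⟨o, rfl⟩ := residue_surjective z
    obtain ⟨o', h⟩ := hp.root o
    exact ⟨residue O o', by
      rw [frobenius_def, ← map_pow, eq_comm, ← sub_eq_zero, ← map_sub]; exact (hm _).2 h⟩
  have hX : AlgebraicIndependent O fun i =>
      algebraMap N K (algebraMap (MvPolynomial τ O) N (X i)) :=
    ((MvPolynomial.algebraicIndependent_X τ O).map' (f := IsScalarTower.toAlgHom O _ N) hinj).map'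
      (f := IsScalarTower.toAlgHom O N K) hNK
  have hind : ∀ (𝔮 : Ideal N) (y : σ → K), PCh O 𝔮 y → AlgebraicIndependent O y := fun 𝔮 y h =>
    (p_NCF.ind 𝔮 y _ h hX (by omega)).2
  have hπP : algebraMap O N π ∈ Ideal.span {algebraMap O N π} := Ideal.subset_span rfl
  have hπK : algebraMap N K (algebraMap O N π) = algebraMap O K π :=
    (IsScalarTower.algebraMap_apply O N K π).symm
  obtain ⟨x, hx⟩ := hch _ hP hπP (hTD.mono le_rfl (by omega : e + 1 ≤ Fintype.card τ)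
    (hTD.card (z := fun i => algebraMap (MvPolynomial τ O) N (X i)) fun F hF => hcon F (by
      erw [aeval_algebraMap_apply N X F, aeval_X_left_apply] at hF
      exact Ideal.mem_span_singleton.1 hF)))
  have hO : ∀ (𝔮 : Ideal N), 𝔮.IsPrime → ∀ o, loc (algebraMap N K) 𝔮 (algebraMap O K o) :=
    fun 𝔮 h o => by rw [IsScalarTower.algebraMap_apply O N K]; exact loc_map _ h _
  have hx1 : PCh O _ x := ⟨hx.1, hx.2.1⟩
  have hx2 := MtA.frc hNK hx1 (S := V.toSubring) hV1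
  have hπV : algebraMap O K π ∈ V.nonunits := hπK ▸ (hV2 _).2 dvd_rfl
  obtain ⟨ψ, a1, a2, a3⟩ := hSPL O K σ π p V D g x
    (j (algebraMap (MvPolynomial τ O) N (X i₀ * v))) hp hX.algebraMap_injective
    ⟨fun o => (hV1 _).2 (hO _ hP o), fun b => (hV1 _).2 (hx.1 b)⟩ hπV (fun F hF => by
      have mem := GenA.aeval_mem x V.toSubring (fun o => (hV1 _).2 (hO _ hP o))
        fun b => (hV1 _).2 (hx.1 b)
      obtain ⟨a, b, hb, e⟩ := (hV1 _).1 (mem F)
      obtain ⟨c, rfl⟩ := (hV2 a).1 (by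
        rw [← e, mul_comm]; exact (SM.nonunits V).mul _ (j b).2 _ hF)
      have hπ0 : algebraMap O K π ≠ 0 := (map_ne_zero_iff _ hX.algebraMap_injective).2
        hp.irr.ne_zero
      obtain ⟨H', H, b1, b2, b3⟩ := hx2 (aeval x F / algebraMap O K π) ((hV1 _).2 ⟨c, b, hb, by
        rw [div_mul_eq_mul_div, e, map_mul, hπK, mul_div_cancel_left₀ _ hπ0]⟩)
      have : F * H = C π * H' := hind _ x hx1 (by
        rw [map_mul, map_mul, aeval_C, ← b3]; field_simp)
      refine (((prime_C_iff σ).2 hp.irr.prime).dvd_or_dvd ⟨_, this⟩).resolve_right ?_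
      rintro ⟨H, rfl⟩
      have := (SM.nonunits V).mul _ (V.toSubring.mul_mem b2 (mem H)) _ hπV
      rw [map_mul, aeval_C] at b1 this
      rw [mul_assoc, mul_comm (aeval x H), inv_mul_cancel₀ b1] at this
      simp [V.mem_nonunits_iff] at this) hx2 hg hl (fun h => hv (hcon _ ((hV2 _).1 h)))
    (by obtain ⟨t, h1, h2⟩ := hx.2.2; exact ⟨t, (hV1 _).2 h1, h2⟩)
  have a4 : ∀ 𝔮 : Ideal N, 𝔮.IsPrime → algebraMap O N π ∈ 𝔮 → Td π 𝔮 (e + 1) →
      ∀ z, InL ρ 𝔮 z → InL ρ 𝔮 (ψ z) := by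
    rintro 𝔮 h1 h2 h3 z ⟨r, hr, a, e⟩
    obtain ⟨y, b1, b2, t, b3, b4⟩ := hch 𝔮 h1 h2 h3
    obtain ⟨S, -, hS, -⟩ := resd.dom (K := K) 𝔮 h1 hNK
    have hle : ∀ b, b ∉ 𝔮 → ¬ algebraMap O N π ∣ b := fun b hb h => hb (Ideal.mem_of_dvd _ h h2)
    have hSV : ∀ γ ∈ S, γ ∈ V := fun γ h => by
      obtain ⟨a, b, hb, e⟩ := (hS _).1 h
      exact (hV1 _).2 ⟨a, b, fun h => hle b hb (Ideal.mem_span_singleton.1 h), e⟩
    have r0 : algebraMap N K r ≠ 0 := fun h => hr (by rw [hNK (h.trans (map_zero _).symm)]; simp)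
    have m : algebraMap N K a / algebraMap N K r ∈ S := (hS _).2 ⟨a, r, hr, div_mul_cancel₀ _ r0⟩
    obtain ⟨v', c1, c2⟩ := a3 S y hSV ⟨fun o => (hS _).2 (hO _ h1 o), fun b => (hS _).2 (b1 b)⟩
      (MtA.frc hNK ⟨b1, b2⟩ hS) (fun γ h => by
        obtain ⟨a, b, hb, e⟩ := (hV1 _).1 h
        exact ⟨_, (hS _).2 (loc_map _ h1 a), _, (hS _).2 (loc_map _ h1 b),
          fun h => hb (Ideal.mem_span_singleton.2 ((hV2 _).1 h)), e⟩)
      ⟨t, (hS _).2 b3, b4⟩ ⟨_, hSV _ m⟩ m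
    have : z = residue V ⟨_, hSV _ m⟩ := mul_left_cancel₀ (fun h => hle r hr ((hρ _).1 h)) (by
      rw [e]
      exact (congrArg (residue V) (Subtype.ext (mul_div_cancel₀ _ r0).symm)).trans
        (map_mul _ (j r) _))
    obtain ⟨a', b', hb, e'⟩ := (hS _).1 c1
    refine ⟨b', hb, a', ?_⟩
    rw [this, c2, mul_comm]
    exact (map_mul _ v' (j b')).symm.trans (congrArg (residue V) (Subtype.ext e'))
  set s := algebraMap (MvPolynomial τ O) N (X i₀)
  set w := algebraMap (MvPolynomial τ O) N v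
  have a5 : ∀ z, ψ ((ρ s * ρ w) ^ (p - 1) * z ^ p) = z := fun z => by
    rw [← map_mul, ← map_mul]; exact a2 z
  have inl : ∀ 𝔮 : Ideal N, 𝔮.IsPrime → ∀ a, InL ρ 𝔮 (ρ a) := fun 𝔮 h a =>
    ⟨1, fun h1 => h.ne_top ((Ideal.eq_top_iff_one _).2 h1), a, by simp⟩
  obtain ⟨r1, r2⟩ := hCORE O (ResidueField O) τ N (ResidueField V) π p ρ i₀ e
    (ψ.comp (AddMonoidHom.mulLeft (ρ w ^ (p - 1)))) ctx hinj hτ
    (fun a b => by simpa [mul_left_comm _ (a ^ p)] using a1 a _)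
    (fun z => by
      rw [Algebra.smul_def, map_pow, ← map_X (algebraMap O (ResidueField O)), com]
      refine Eq.trans (congrArg ψ ?_) (a5 z)
      rw [AddMonoidHom.coe_mulLeft, mul_pow]; ring)
    (fun 𝔮 h1 h2 h3 z ⟨r, hr, a, e⟩ => a4 𝔮 h1 h2 h3 _ ⟨r, hr, w ^ (p - 1) * a, by
      rw [AddMonoidHom.coe_mulLeft, map_mul, map_pow, ← e]; ring⟩)
    (fun 𝔮 h1 h2 h3 c hc => by
      obtain ⟨y, hy⟩ := hpc 𝔮 h1 h2 h3
      exact hLOC O N K σ π p 𝔮 y c hp hNK h1 h2 (hind _ _ hy) hy hc)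
    (fun 𝔮 h1 h2 h3 h4 => by
      by_cases h5 : s ∈ 𝔮
      · exact hdep 𝔮 h1 h2 h5 (h3.resolve_left fun h => h h5) h4
      · obtain ⟨y, hy⟩ := hpc 𝔮 h1 h2 h5
        exact hPDEP O N K σ π e 𝔮 y hp.irr hNK h1 h2 (hind _ _ hy) hy hσ h4)
  refine ⟨r1, (Ideal.isRadical_iff_pow_one_lt p hp.prime.one_lt).2 fun a ha => ?_⟩
  obtain ⟨c0, c, h, e1⟩ := Ideal.mem_span_insert.1 ha
  obtain ⟨b, c, rfl⟩ := Ideal.mem_span_pair.1 h
  have r3 : ∀ a, ∃ a', ρ a' = ψ (ρ a) := fun a =>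
    r2 _ fun 𝔮 h1 h2 h3 => a4 𝔮 h1 h2 h3 _ (inl 𝔮 h1 a)
  obtain ⟨b', hb⟩ := r3 (w ^ (p - 1) * b)
  obtain ⟨c', hc⟩ := r3 (s ^ (p - 1) * c)
  obtain ⟨d, hd⟩ := (hρ (a - (b' * s + c' * w))).1 (by
    have h0 : ρ (algebraMap O N π) = 0 := (hρ _).2 dvd_rfl
    rw [map_sub, ← a5 (ρ a), ← map_pow ρ a, e1, map_add ρ (b' * s), map_mul ρ b',
      map_mul ρ c', hb, hc,
      mul_comm (ψ _), mul_comm (ψ _), ← a1, ← a1, ← map_add ψ, sub_eq_zero]
    congr 1
    simp only [map_add, map_mul, map_pow, h0]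
    conv_rhs => rw [← Nat.sub_add_cancel hp.prime.one_le, Nat.add_sub_cancel]
    ring)
  exact Ideal.mem_span_insert.2 ⟨d, _, Ideal.mem_span_pair.2 ⟨b', c', rfl⟩, by
    rw [mul_comm d, ← hd, sub_add_cancel]⟩

end Pool.Agent.P.MP_e7d440_ag.Z
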