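import Pool.Agent.P.MP_e7d440_ag.Z.IfaceA

/-! Step PDEP. -/

set_option autoImplicit false
set_option linter.unusedSectionVars false

namespace Pool.Agent.P.MP_e7d440_ag.Z

open IsLocalRing MvPolynomial U

namespace PdepA

lemma ex_lift {N K : Type} [CommRing N] [Field K] [Algebra N K]
    (hi : Function.Injective (algebraMap N K)) (𝔮 : Ideal N) [𝔮.IsPrime] :
    ∃ j : Localization.AtPrime 𝔮 →+* K, Function.Injective j ∧
      (∀ a, j (algebraMap N _ a) = algebraMap N K a) ∧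
      ∀ γ, loc (algebraMap N K) 𝔮 γ ↔ ∃ l, j l = γ := by
  have hu : ∀ s : 𝔮.primeCompl, IsUnit (algebraMap N K s) := fun s =>
    IsUnit.mk0 _ fun h0 => s.2 (by
      have : (s : N) = 0 := hi (by rw [h0, map_zero])
      rw [this]; exact 𝔮.zero_mem)
  have hj : ∀ a, IsLocalization.lift (S := Localization.AtPrime 𝔮) hu (algebraMap N _ a) =
      algebraMap N K a := fun a => IsLocalization.lift_eq hu a
  refine ⟨IsLocalization.lift hu, ?_, hj, fun γ => ⟨?_, ?_⟩⟩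
  · rw [IsLocalization.lift_injective_iff]
    intro x x'
    exact ⟨fun h => by rw [← hj, ← hj, h], fun h => by rw [hi h]⟩
  · rintro ⟨a, b, hb, e⟩
    refine ⟨IsLocalization.mk' _ a (⟨b, hb⟩ : 𝔮.primeCompl), ?_⟩
    rw [IsLocalization.lift_mk'_spec]
    rw [← e]; exact mul_comm _ _
  · rintro ⟨l, rfl⟩
    obtain ⟨⟨a, b⟩, hab⟩ := IsLocalization.surj 𝔮.primeCompl l
    refine ⟨a, b, b.2, ?_⟩
    rw [← hj, ← hj, ← map_mul, hab]

lemma not_td (hTD : S_TD) {O N σ : Type} [CommRing O] [IsDomain O] [IsDiscreteValuationRing O]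
    [CommRing N] [Algebra O N] [Algebra.FiniteType O N] {π : O} (hπ : Irreducible π)
    (𝔮 : Ideal N) [𝔮.IsPrime] (hq : algebraMap O N π ∈ 𝔮) (y : σ → Localization.AtPrime 𝔮)
    (m : ℕ) (h : Td π ((maximalIdeal (Localization.AtPrime 𝔮)).comap
      (aeval y : MvPolynomial σ O →ₐ[O] Localization.AtPrime 𝔮)) m) : Td π 𝔮 m := by
  classical
  obtain ⟨z, hz⟩ := h
  obtain ⟨s, hs⟩ := (Algebra.FiniteType.out : (⊤ : Subalgebra O N).FG)
  let r : Localization.AtPrime 𝔮 →ₐ[O] 𝔮.ResidueField :=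
    IsScalarTower.toAlgHom O (Localization.AtPrime 𝔮) 𝔮.ResidueField
  have hr : ∀ l, r l = 0 ↔ l ∈ maximalIdeal (Localization.AtPrime 𝔮) := fun l =>
    residue_eq_zero_iff l
  let t : N →ₐ[O] 𝔮.ResidueField := IsScalarTower.toAlgHom O N 𝔮.ResidueField
  have ht : ∀ a, t a = 0 ↔ a ∈ 𝔮 := fun a => Ideal.algebraMap_residueField_eq_zero
  have htr : ∀ a, r (algebraMap N _ a) = t a := fun a => rfl
  have hmem : ∀ a, t a ∈ Algebra.adjoin O (Set.range fun i : s => t i) := by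
    intro a
    have ha : a ∈ Algebra.adjoin O (s : Set N) := by rw [hs]; trivial
    have h2 : t a ∈ (Algebra.adjoin O (s : Set N)).map t := ⟨a, ha, rfl⟩
    rw [AlgHom.map_adjoin] at h2
    refine Algebra.adjoin_mono ?_ h2
    rintro _ ⟨b, hb, rfl⟩
    exact ⟨⟨b, hb⟩, rfl⟩
  have halg : ∀ l, IsAlgebraic (Algebra.adjoin O (Set.range fun i : s => t i)) (r l) := by
    intro l
    obtain ⟨⟨a, b⟩, hab⟩ := IsLocalization.surj 𝔮.primeCompl l
    have hb : t b ≠ 0 := fun h0 => b.2 ((ht _).1 h0)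
    have e : r l * t b = t a := by rw [← htr, ← htr, ← map_mul, hab]
    refine ⟨Polynomial.C ⟨t b, hmem _⟩ * Polynomial.X - Polynomial.C ⟨t a, hmem _⟩, ?_, ?_⟩
    · intro h0
      have h1 := congrArg (fun P => Polynomial.coeff P 1) h0
      simp only [Polynomial.coeff_sub, Polynomial.coeff_C_mul, Polynomial.coeff_X_one, mul_one,
        Polynomial.coeff_C_succ, sub_zero, Polynomial.coeff_zero] at h1
      exact hb (congrArg Subtype.val h1)
    · simp only [map_sub, map_mul, Polynomial.aeval_C, Polynomial.aeval_X]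
      change t b * r l - t a = 0
      rw [← e]; ring
  have h0 : algebraMap O 𝔮.ResidueField π = 0 := by
    rw [← t.commutes]; exact (ht _).2 hq
  have hri : RIq π (⊥ : Ideal 𝔮.ResidueField) fun i => r (aeval y (z i)) := by
    intro F hF
    apply hz F
    rw [Ideal.mem_comap, ← hr]
    rw [Ideal.mem_bot] at hF
    rw [← hF]
    change ((r.comp (aeval y)).comp (aeval z)) F = _
    rw [comp_aeval]
    rfl
  obtain ⟨ι, hι⟩ := hTD.exch (fun i : s => t i) _ hπ h0 hri fun i => halg _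
  refine ⟨fun i => (ι i : N), fun F hF => hι F ?_⟩
  rw [Ideal.mem_bot, ← (ht _).2 hF]
  change _ = (t.comp (aeval fun i => (ι i : N))) F
  rw [comp_aeval]

end PdepA

theorem p_PDEP (hTD : S_TD) (hGRADE : S_GRADE) (hDEP : S_DEP) :
    S_PDEP := by
  intro O N K σ _ _ _ _ _ _ _ _ _ _ _ π e 𝔮 y hπ hi hp hq hy hch hc hnt
  obtain ⟨j, hji, hja, hjl⟩ := PdepA.ex_lift hi 𝔮
  choose y' hy' using fun b => (hjl _).1 (hch.1 b)
  let Θ : MvPolynomial σ O →ₐ[O] Localization.AtPrime 𝔮 := aeval y'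
  have hΘ : ∀ F, j (Θ F) = aeval y F := by
    intro F
    induction F using MvPolynomial.induction_on with
    | C o =>
      rw [aeval_C, aeval_C, IsScalarTower.algebraMap_apply O N, hja,
        ← IsScalarTower.algebraMap_apply]
    | add p q hp hq => rw [map_add, map_add, map_add, hp, hq]
    | mul_X p b hp => rw [map_mul, map_mul, map_mul, hp, aeval_X, aeval_X, hy']
  set 𝔓 : Ideal (MvPolynomial σ O) := (maximalIdeal (Localization.AtPrime 𝔮)).comap Θ with h𝔓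
  have hP : 𝔓.IsPrime := Ideal.comap_isPrime _ _
  have hnm : ∀ F, F ∉ 𝔓 ↔ IsUnit (Θ F) := fun F => by
    rw [h𝔓, Ideal.mem_comap, notMem_maximalIdeal]
  have hC : C π ∈ 𝔓 := by
    rw [h𝔓, Ideal.mem_comap, ← algebraMap_eq, Θ.commutes, IsScalarTower.algebraMap_apply O N]
    exact (IsLocalization.AtPrime.to_map_mem_maximal_iff _ 𝔮 _).2 hq
  have hG : ∀ G : MvPolynomial σ O, aeval y G ≠ 0 → loc (algebraMap N K) 𝔮 (aeval y G)⁻¹ →
      IsUnit (Θ G) := by
    intro G h0 hl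
    obtain ⟨l, hl⟩ := (hjl _).1 hl
    refine IsUnit.of_mul_eq_one l (hji ?_)
    rw [map_mul, hl, hΘ, map_one, mul_inv_cancel₀ h0]
  have hloc : ∀ γ, loc (aeval y : MvPolynomial σ O →ₐ[O] K).toRingHom 𝔓 γ ↔
      loc (algebraMap N K) 𝔮 γ := by
    intro γ
    constructor
    · rintro ⟨a, b, hb, e⟩
      obtain ⟨u, hu⟩ := ((hnm b).1 hb).exists_right_inv
      refine (hjl _).2 ⟨Θ a * u, ?_⟩
      have e' : γ * j (Θ b) = j (Θ a) := by rw [hΘ, hΘ]; exact e
      rw [map_mul, ← e', mul_assoc, ← map_mul, hu, map_one, mul_one]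
    · rintro ⟨a, b, hb, e⟩
      obtain ⟨F, G, h0, hl, eG⟩ := hch.2 a
      obtain ⟨F', G', h0', hl', eG'⟩ := hch.2 b
      refine ⟨F * G', F' * G, (hnm _).2 ?_, ?_⟩
      · rw [map_mul]
        refine IsUnit.mul ?_ (hG G h0 hl)
        have e1 : Θ F' = algebraMap N _ b * Θ G' := hji (by rw [map_mul, hja, hΘ, hΘ, eG'])
        rw [e1]
        exact (IsLocalization.map_units _ (⟨b, hb⟩ : 𝔮.primeCompl)).mul (hG G' h0' hl')
      · change γ * aeval y (F' * G) = aeval y (F * G')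
        rw [map_mul, map_mul, ← eG, ← eG', ← e]; ring
  have hnP : ¬ Td π 𝔓 (e + 1) := fun h => hnt (PdepA.not_td hTD hπ 𝔮 hq y' _ h)
  obtain ⟨l, hl, hm, hr⟩ := hGRADE O σ π 2 𝔓 hπ fun 𝔭 h1 h2 h3 =>
    hTD.ht (m := e + 1) hπ h1 h2 (fun h => hnP (hTD.mono h3 le_rfl h)) (by omega)
  obtain ⟨a, b, rfl⟩ := List.length_eq_two.1 hl
  have h1 : (1 : MvPolynomial σ O) ∉ 𝔓 := fun h => hP.ne_top ((Ideal.eq_top_iff_one _).2 h)
  refine hDEP _ N K (aeval y : MvPolynomial σ O →ₐ[O] K).toRingHom 𝔓 𝔮 (C π) _ hy hi hP hp ?_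
    hloc ⟨a, hm a (by simp), b, hm b (by simp), fun g hg => ⟨1, h1, ?_⟩, fun g hg => ⟨1, h1, ?_⟩⟩
  · change aeval y (C π) = _
    rw [aeval_C, ← IsScalarTower.algebraMap_apply]
  · rw [one_mul, ← Ideal.mem_span_singleton]
    exact hr.1 g (Ideal.mem_span_singleton.2 hg)
  · rw [one_mul, Ideal.span_insert]
    rw [Ideal.span_insert] at hg
    exact hr.2.1 g hg

end Pool.Agent.P.MP_e7d440_ag.Z
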