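import Pool.Agent.P.MP_e7d440_ag.Z.IfaceB
import Pool.Agent.P.MP_e7d440_ag.Basic
import Pool.Agent.P.MP_e7d440_ag.Val
import Pool.Agent.P.MP_e7d440_ag.Tr
import Pool.Agent.P.MP_e7d440_ag.U.Resd

/-! Step PRM. -/

set_option autoImplicit false
set_option linter.unusedSectionVars false

namespace Pool.Agent.P.MP_e7d440_ag.Z

open IsLocalRing MvPolynomial U GrA

namespace PrmA

variable {O K σ : Type} [CommRing O] [Field K] [Algebra O K] {π : O} {V : ValuationSubring K}
  {y : σ → K}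

theorem aeval_mem (h : Has O V.toSubring y) (F : MvPolynomial σ O) : aeval y F ∈ V := by
  induction F using MvPolynomial.induction_on with
  | C a => simpa using h.1 a
  | add p q hp hq => simpa using add_mem hp hq
  | mul_X p j hp => simpa using mul_mem hp (h.2 j)

theorem non_mul {a b : K} (ha : a ∈ V.nonunits) (hb : b ∈ V) : a * b ∈ V.nonunits := by
  rw [ValuationSubring.mem_nonunits_iff, map_mul]
  exact (mul_le_of_le_one_right' ((V.valuation_le_one_iff b).2 hb)).trans_lt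
    (V.mem_nonunits_iff.1 ha)

theorem non_of_mul {a b : K} (h : a * b ∈ V.nonunits) (hb : b ∉ V.nonunits) :
    a ∈ V.nonunits := by
  rw [V.mem_nonunits_iff_or, not_or, not_not] at hb
  simpa [mul_assoc, hb.1] using non_mul h hb.2

theorem non_of_dvd (h : Has O V.toSubring y) (hπ : algebraMap O K π ∈ V.nonunits)
    {F : MvPolynomial σ O} (hF : C π ∣ F) : aeval y F ∈ V.nonunits := by
  obtain ⟨H, rfl⟩ := hF
  rw [map_mul, aeval_C]
  exact non_mul hπ (aeval_mem h H)

theorem ri_comp {τ : Type} (h : RI π V y) {f : τ → σ} (hf : Function.Injective f) :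
    RI π V (y ∘ f) := fun F hF => by
  have := h (rename f F) (by rwa [aeval_rename])
  rw [C_dvd_iff_dvd_coeff] at this ⊢
  exact fun m => coeff_rename_mapDomain f hf F m ▸ this _

theorem ri_inj (h : RI π V y) (hπ : ¬ IsUnit π) : Function.Injective y := fun a b e => by
  classical
  by_contra n
  have := (C_dvd_iff_dvd_coeff _ _).1 (h (X a - X b) (by simp [e])) (Finsupp.single a 1)
  rw [coeff_sub, coeff_X_same, coeff_X, if_neg fun c => n (Finsupp.single_left_injective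
    one_ne_zero c).symm, sub_zero] at this
  exact hπ (isUnit_of_dvd_one this)

theorem ri_ne (h : RI π V y) (hπ : ¬ IsUnit π) (a : σ) : y a ∉ V.nonunits := fun n => by
  have := (C_dvd_iff_dvd_coeff _ _).1 (h (X a) (by simpa using n)) (Finsupp.single a 1)
  rw [coeff_X_same] at this
  exact hπ (isUnit_of_dvd_one this)

end PrmA

open PrmA in
theorem p_PRM (hNCF : S_NCF) (hRES : S_RES) (hCHN : S_CHN) :
    S_PRM := by
  intro O K _ _ _ _ _ π s u N _ _ _ d φ D Y hs hπ hinj hfin hDs hDu hTd hch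
  classical
  have := Algebra.FiniteType.isNoetherianRing O N
  have hv : S_val := vals basic
  have iN : Function.Injective (algebraMap N K) := Subtype.val_injective
  have eC : ∀ o, φ (C o) = algebraMap O N o := fun o => φ.commutes o
  have iO : Function.Injective (algebraMap O N) := fun a b e =>
    C_injective _ _ (hinj (by rw [eC, eC, e]))
  have p0 : algebraMap O N π ≠ 0 := fun e => hπ.ne_zero (iO (by rw [e, map_zero]))
  have eK : ∀ o, algebraMap O K o = algebraMap N K (algebraMap O N o) := fun o => rfl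
  have pK : algebraMap O K π ≠ 0 := fun e => p0 (iN (by rw [← eK, e, map_zero]))
  have eφ : aeval (fun i => φ (X i)) = φ := MvPolynomial.algHom_ext fun i => by simp
  have hint : φ.toRingHom.IsIntegral := hfin.to_isIntegral
  have hc : Fintype.card (Fin 2 ⊕ Fin d) = d + 2 := by simp [add_comm]
  have key : ∀ 𝔭 : Ideal N, 𝔭.IsPrime → 𝔭.height = 1 → algebraMap O N π ∈ 𝔭 →
      ¬ locm (algebraMap N K) 𝔭 s ∧ ∃ (V : ValuationSubring K) (y : Fin d → K),
        (∀ γ, γ ∈ V ↔ loc (algebraMap N K) 𝔭 γ) ∧ (∀ a, algebraMap N K a ∈ V.nonunits ↔ a ∈ 𝔭) ∧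
        Ch N 𝔭 (cs s u y) ∧ Has O V.toSubring (cs s u y) ∧ RI π V (cs s u y) ∧
        Set.range y = Y ∧ wr D y ∈ V := fun 𝔭 h1 h2 h3 => by
    obtain ⟨p, hp⟩ := tr O N (Fin (d + 2)) (Fin 2 ⊕ Fin d) π 𝔭 (fun i => φ (X i))
      ((fun i => φ (X i)) ∘ (Fintype.equivFinOfCardEq hc).symm) hπ iO h1 h2 h3
      (fun c => by
        obtain ⟨q, q1, q2⟩ := hint c
        rw [Algebra.adjoin_range_eq_range_aeval, eφ]
        refine ⟨q.map φ.rangeRestrict.toRingHom, q1.map _, ?_⟩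
        rw [Polynomial.eval₂_map]
        exact q2)
      (AlgebraicIndependent.comp (by rwa [algebraicIndependent_iff_injective_aeval, eφ]) _
        (Equiv.injective _))
    have n1 : ¬ locm (algebraMap N K) 𝔭 s := fun h => hTd 𝔭 h1 h3 h ⟨_, hp⟩
    obtain ⟨y, c1, -, c3⟩ := hch 𝔭 h1 h3 n1
    obtain ⟨V, v1, v2⟩ := hv.dvr (K := K) 𝔭 h1 h2
    have hH : Has O V.toSubring (cs s u y) :=
      ⟨fun o => (v1 _).2 (loc_map _ h1 (algebraMap O N o)), fun b => (v1 _).2 (c1.1 b)⟩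
    have hR := (hRES O K (Fin 2 ⊕ Fin d) π (Set.range (cs s u y)) (cs s u y) V (d + 2)
      (fun j => algebraMap N K (φ (X (p j)))) hπ ((v2 _).2 h3) hH
      (fun c ⟨a, e⟩ => .inr ⟨a, e.symm⟩)
      (fun j => by
        obtain ⟨F, G, g1, g2, g3⟩ := c1.2 (φ (X (p j)))
        have m : ∀ F : MvPolynomial (Fin 2 ⊕ Fin d) O,
            IsIntegral (Algebra.adjoin O (Set.range (cs s u y))) (aeval (cs s u y) F) := fun F =>
          isIntegral_algebraMap (x := (⟨aeval (cs s u y) F, by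
            rw [Algebra.adjoin_range_eq_range_aeval]
            exact ⟨F, rfl⟩⟩ : Algebra.adjoin O (Set.range (cs s u y))))
        exact ⟨_, _, m F, m G, fun n => (V.mem_nonunits_iff_or.1 n).elim g1 (· ((v1 _).2 g2)), g3⟩)
      (fun F hF => hp F ((v2 _).1 (by rwa [← aeval_algebraMap_apply])))).2 hc.le
    refine ⟨n1, V, y, v1, v2, c1, hH, hR, ?_⟩
    rcases c3 with ⟨k, a, b, k1, k2, k3⟩ | ⟨e1, e2⟩
    · exact absurd (non_of_mul (k3 ▸ (v2 a).2 k1) fun n => k2 ((v2 b).1 n))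
        (ri_ne hR hπ.not_isUnit (.inr k))
    · exact ⟨e1, (v1 _).2 (resd.sq 𝔭 h1 _ e2)⟩
  have pu : ¬ IsUnit (algebraMap O N π) := fun h => by
    have := hint.isLocalHom hinj
    exact hπ.not_isUnit (by
      simpa using (IsUnit.of_map φ.toRingHom (C π) ((eC π).symm ▸ h)).map constantCoeff)
  obtain ⟨𝔭, m1⟩ := Ideal.nonempty_minimalPrimes (I := Ideal.span {algebraMap O N π})
    (by rwa [Ne, Ideal.span_singleton_eq_top])
  have h1 : 𝔭.IsPrime := m1.isPrime
  have h3 : algebraMap O N π ∈ 𝔭 := m1.le (Ideal.mem_span_singleton_self _)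
  have h2 : 𝔭.height = 1 := le_antisymm
    (Ideal.height_le_one_of_isPrincipal_of_mem_minimalPrimes _ _ m1)
    (Order.one_le_iff_ne_zero.2 fun e => p0 (by
      rwa [Ideal.height_eq_zero_iff_eq_bot.1 e, Ideal.mem_bot] at h3))
  obtain ⟨n1, V, y, v1, v2, c1, hH, hR, eY, wV⟩ := key 𝔭 h1 h2 h3
  have hle : ∀ a ∈ 𝔭, algebraMap O N π ∣ a := fun a ha => by
    obtain ⟨F, G, g1, g2, g3⟩ := c1.2 a
    have gV : aeval (cs s u y) G ∉ V.nonunits := fun n =>
      (V.mem_nonunits_iff_or.1 n).elim g1 (· ((v1 _).2 g2))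
    obtain ⟨H, rfl⟩ := hR F (g3 ▸ non_mul ((v2 a).2 ha) (aeval_mem hH G))
    obtain ⟨M, b, e⟩ := hv.hart (K := K) (1 : N) (algebraMap N K a / algebraMap O K π)
      fun 𝔮 q1 q2 _ => by
        by_cases q3 : algebraMap O N π ∈ 𝔮
        · obtain ⟨-, V', y', v1', v2', -, hH', hR', eY', -⟩ := key 𝔮 q1 q2 q3
          have ex : ∀ b, ∃ b', cs s u y' b' = cs s u y b := by
            rintro (b | b)
            · exact ⟨.inl b, rfl⟩
            · obtain ⟨b', e⟩ : y b ∈ Set.range y' := eY' ▸ eY ▸ ⟨b, rfl⟩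
              exact ⟨.inr b', e⟩
          choose f hf using ex
          have ef : cs s u y' ∘ f = cs s u y := funext hf
          have r : RI π V' (cs s u y) := ef ▸ ri_comp hR'
            (Function.Injective.of_comp (f := cs s u y') (ef ▸ ri_inj hR hπ.not_isUnit))
          have hH2 : Has O V'.toSubring (cs s u y) := ⟨hH'.1, fun b => hf b ▸ hH'.2 _⟩
          have gV' : aeval (cs s u y) G ∉ V'.nonunits := fun n =>
            gV (non_of_dvd hH ((v2 _).2 h3) (r G n))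
          rw [V'.mem_nonunits_iff_or, not_or, not_not] at gV'
          refine (v1' _).1 ?_
          rw [map_mul, aeval_C] at g3
          have : algebraMap N K a / algebraMap O K π =
              aeval (cs s u y) H * (aeval (cs s u y) G)⁻¹ := by
            field_simp
            exact g3
          rw [this]
          exact mul_mem (aeval_mem hH2 H) gV'.2
        · exact ⟨a, _, q3, div_mul_cancel₀ _ pK⟩
    refine ⟨b, iN ?_⟩
    rw [map_mul, ← e, ← eK, map_one, one_pow, one_mul, mul_div_cancel₀ _ pK]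
  have e𝔭 : Ideal.span {algebraMap O N π} = 𝔭 :=
    le_antisymm m1.le fun a ha => Ideal.mem_span_singleton.2 (hle a ha)
  have hP : Prime (algebraMap O N π) := (Ideal.span_singleton_prime p0).1 (e𝔭 ▸ h1)
  have dv : ∀ a, algebraMap O N π ∣ a → a ∈ 𝔭 := fun a h => e𝔭 ▸ Ideal.mem_span_singleton.2 h
  refine ⟨hP, fun h => n1 ((hNCF.lm 𝔭 h1 iN ⟨s, hs⟩).2 (dv _ h)), fun 𝔮 q1 q2 q3 => ?_⟩
  obtain ⟨z, d1, d2, -⟩ := hch 𝔮 q1 q2 q3
  refine ⟨z, d1, ?_⟩
  obtain ⟨T, t1, -⟩ := hNCF.lcn (K := K) 𝔮 q1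
  have πT : ∀ M : ℕ, algebraMap O K π ^ M ∈ T := fun M =>
    pow_mem ((t1 _).2 (loc_map _ q1 (algebraMap O N π))) M
  let S : Subring K :=
    { carrier := {c | ∃ M : ℕ, algebraMap O K π ^ M * c ∈ T}
      mul_mem' := fun {a b} ⟨M, h⟩ ⟨M', h'⟩ => ⟨M + M', by
        convert mul_mem h h' using 1
        ring⟩
      one_mem' := ⟨0, by simp⟩
      add_mem' := fun {a b} ⟨M, h⟩ ⟨M', h'⟩ => ⟨M + M', by
        convert add_mem (mul_mem h (πT M')) (mul_mem h' (πT M)) using 1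
        ring⟩
      zero_mem' := ⟨0, by simp⟩
      neg_mem' := fun {a} ⟨M, h⟩ => ⟨M, by simpa using neg_mem h⟩ }
  obtain ⟨M, hM⟩ := d2 S (fun γ h => ⟨0, by simpa using (t1 _).2 h⟩) ⟨1, by simp [pK]⟩
  obtain ⟨a', b', b1, b2⟩ := resd.sq 𝔮 q1 (algebraMap O K π ^ M * wr D z) ((t1 _).1 (by
    convert mul_mem (πT M) hM using 1
    ring))
  obtain ⟨w, w1, w2⟩ := hCHN.wrm D z y s u V.toSubring hDs hDu hH fun k => by
    obtain ⟨a, b, k1, k2⟩ := d1.1 (.inr k)
    obtain ⟨F, G, g1, g2, g3⟩ := c1.2 a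
    obtain ⟨F', G', g1', g2', g3'⟩ := c1.2 b
    have k3 : b ∉ 𝔭 := fun h => k1 (Ideal.mem_of_dvd _ (hle b h) q2)
    have k4 : (b : K) ≠ 0 := fun e => k3 ((Subtype.ext e : b = 0) ▸ zero_mem _)
    refine ⟨F * G', F' * G, ?_, ?_, ?_⟩
    · rw [map_mul, ← g3']
      exact mul_ne_zero (mul_ne_zero k4 g1') g1
    · rw [map_mul, ← g3', mul_inv, mul_inv]
      exact mul_mem (mul_mem ((v1 _).2 (loc_inv (algebraMap N K)
        ((RingHom.injective_iff_ker_eq_bot _).1 iN ▸ bot_le) k3)) ((v1 _).2 g2')) ((v1 _).2 g2)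
    · rw [map_mul, map_mul, ← g3', ← g3]
      change z k * (b : K) = a at k2
      linear_combination aeval (cs s u y) G' * aeval (cs s u y) G * k2
  obtain ⟨a, b, k1, k2⟩ := (v1 (wr D z)).1 (w2 ▸ mul_mem w1 wV)
  obtain ⟨c, rfl⟩ := hP.pow_dvd_of_dvd_mul_right (a := a') (b := b) M (fun h => k1 (dv _ h))
    ⟨a * b', iN (by
      rw [map_mul, map_mul, map_mul, map_pow, ← eK, ← b2, ← k2]
      ring)⟩
  refine ⟨c, b', b1, mul_left_cancel₀ (pow_ne_zero M pK) ?_⟩
  rw [← mul_assoc, b2, map_mul, map_pow, ← eK]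

end Pool.Agent.P.MP_e7d440_ag.Z
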