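import Pool.Agent.P.MP_e7d440_ag.Z.IfaceA

/-! Step PSI. -/

set_option autoImplicit false
set_option linter.unusedSectionVars false

namespace Pool.Agent.P.MP_e7d440_ag.Z

open IsLocalRing MvPolynomial U

theorem p_PSI (hFROB : S_FROB) :
    S_PSI := by
  intro k σ T _ p _ _ _ _ _ φ hφ hT c hc
  obtain ⟨F0, G0, hG0, e0⟩ := hT c
  have hF0 : F0 ≠ 0 := by
    rintro rfl
    exact hc (hG0.mul_left_eq_zero.1 (by rw [e0, map_zero]))
  obtain ⟨e, Λ, hΛ, h1⟩ := hFROB.one k σ p F0 hF0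
  obtain ⟨r, hr⟩ : ∃ r, p ^ e = r + 1 :=
    Nat.exists_eq_succ_of_ne_zero (pow_ne_zero _ (Fact.out : p.Prime).ne_zero)
  have hq : ∀ t : T, ∃ F G, IsUnit (φ G) ∧ t * φ G ^ p ^ e = φ F := fun t => by
    obtain ⟨F, G, h2, h3⟩ := hT t
    exact ⟨F * G ^ r, G, h2, by rw [hr, pow_succ', ← mul_assoc, h3, map_mul, map_pow]⟩
  have key : ∀ t : T, ∃ y : T, ∀ F G, t * φ G ^ p ^ e = φ F → y * φ G = φ (Λ F) := fun t => by
    obtain ⟨F1, G1, h2, h3⟩ := hq t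
    obtain ⟨v, hv⟩ := h2.exists_right_inv
    refine ⟨φ (Λ F1) * v, fun F G h4 => ?_⟩
    have h5 : G1 ^ p ^ e * F = G ^ p ^ e * F1 := hφ (by
      rw [map_mul, map_mul, map_pow, map_pow, ← h3, ← h4]
      ring)
    have h6 := congrArg (fun z => φ (Λ z)) h5
    simp only [hΛ, map_mul] at h6
    linear_combination (-v) * h6 + φ (Λ F) * hv
  choose Ψ hΨ using key
  have hadd : ∀ a b, Ψ (a + b) = Ψ a + Ψ b := fun a b => by
    obtain ⟨F1, G1, h2, h3⟩ := hq a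
    obtain ⟨F2, G2, h4, h5⟩ := hq b
    have h6 := hΨ (a + b) (G2 ^ p ^ e * F1 + G1 ^ p ^ e * F2) (G1 * G2) (by
      simp only [map_add, map_mul, map_pow, ← h3, ← h5]
      ring)
    simp only [map_add, hΛ, map_mul, ← hΨ a F1 G1 h3, ← hΨ b F2 G2 h5] at h6
    exact (h2.mul h4).mul_right_cancel (by linear_combination h6)
  have hmul : ∀ a b, Ψ (a ^ p ^ e * b) = a * Ψ b := fun a b => by
    obtain ⟨F1, G1, h2, h3⟩ := hT a
    obtain ⟨F2, G2, h4, h5⟩ := hq b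
    have h6 := hΨ (a ^ p ^ e * b) (F1 ^ p ^ e * F2) (G1 * G2) (by
      simp only [map_mul, map_pow, ← h3, ← h5]
      ring)
    simp only [hΛ, map_mul, ← hΨ b F2 G2 h5, ← h3] at h6
    exact (h2.mul h4).mul_right_cancel (by linear_combination h6)
  refine ⟨e, AddMonoidHom.mk' (fun t => Ψ (t * φ G0)) fun a b => by rw [add_mul, hadd],
    fun a b => ?_, ?_⟩
  · simp only [AddMonoidHom.mk'_apply]
    rw [mul_assoc, hmul]
  · simpa [h1] using hΨ (c * φ G0) F0 1 (by simpa using e0)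

end Pool.Agent.P.MP_e7d440_ag.Z
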