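import Pool.Agent.P.MP_e7d440_ag.Z.IfaceA

/-! Step REFL. -/

set_option autoImplicit false
set_option linter.unusedSectionVars false

namespace Pool.Agent.P.MP_e7d440_ag.Z

open IsLocalRing MvPolynomial U

namespace ReflA

variable {P N : Type} [CommRing P] [IsDomain P] [CommRing N] [IsDomain N] [Algebra P N]

theorem ev {c : P} (h : Fac N c) (ξ : (N →ₗ[P] P) →ₗ[P] P) : ∃ m : N, ∀ w, w m = c * ξ w := by
  obtain ⟨n, α, β, e⟩ := h
  refine ⟨β fun i => ξ (LinearMap.proj i ∘ₗ α), fun w => ?_⟩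
  have h1 : c • w = ∑ i, w (β (Pi.single i 1)) • (LinearMap.proj i ∘ₗ α : N →ₗ[P] P) := by
    ext m
    rw [LinearMap.smul_apply, ← map_smul, ← e, LinearMap.sum_apply]
    conv_lhs => rw [pi_eq_sum_univ' (α m)]
    simp [mul_comm]
  rw [← smul_eq_mul, ← map_smul, h1, map_sum]
  conv_lhs => rw [pi_eq_sum_univ' (fun i => ξ (LinearMap.proj i ∘ₗ α))]
  simp [mul_comm]

theorem quo {c : P} (hc : c ≠ 0) {x : N} (hx : ∀ w : N →ₗ[P] P, c ∣ w x) (w : N →ₗ[P] P) :
    ∃ w' : N →ₗ[P] P, ∀ y, w (y * x) = c * w' y := by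
  have h : ∀ y : N, ∃ p, w (y * x) = c * p := fun y => hx (w ∘ₗ LinearMap.mulLeft P y)
  choose f hf using h
  refine ⟨⟨⟨f, fun a b => ?_⟩, fun a b => ?_⟩, hf⟩
  · apply mul_left_cancel₀ hc
    rw [mul_add, ← hf, ← hf, ← hf, add_mul, map_add]
  · apply mul_left_cancel₀ hc
    simp only [RingHom.id_apply, smul_eq_mul]
    rw [mul_left_comm, ← hf, ← hf, smul_mul_assoc, map_smul, smul_eq_mul]

theorem dv {c : P} (hc : c ≠ 0) (hi : Function.Injective (algebraMap P N)) (h : Fac N c) {y : N}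
    (hy : ∀ w : N →ₗ[P] P, c * c ∣ w y) : ∃ x : N, y = c • x ∧ ∀ w : N →ₗ[P] P, c ∣ w x := by
  obtain ⟨n, α, β, e⟩ := h
  have h1 : ∀ i, ∃ a, α y i = c * c * a := fun i => hy (LinearMap.proj i ∘ₗ α)
  choose a ha using h1
  have h2 : α y = c • c • a := by
    ext i
    simp [ha, mul_assoc]
  have hc' : algebraMap P N c ≠ 0 := fun k => hc (hi (k.trans (map_zero _).symm))
  have h3 : y = c • β a := by
    apply mul_left_cancel₀ hc'
    rw [← Algebra.smul_def, ← Algebra.smul_def, ← e, h2, map_smul, map_smul]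
  refine ⟨β a, h3, fun w => ?_⟩
  have := hy w
  rw [h3, map_smul, smul_eq_mul] at this
  exact (mul_dvd_mul_iff_left hc).1 this

end ReflA

theorem p_REFL (hFACT : S_FACT) :
    S_REFL := by
  intro P N _ _ _ _ _ _ _ _ hi ξ
  obtain ⟨c, hc, hF⟩ := hFACT.gen P N
  obtain ⟨m0, h0⟩ := ReflA.ev hF ξ
  have hc' : algebraMap P N c ≠ 0 := fun k => hc (hi (k.trans (map_zero _).symm))
  have it : ∀ k : ℕ, ∃ x : N, algebraMap P N c ^ k * x = algebraMap P N c * m0 ^ k ∧
      ∀ w : N →ₗ[P] P, c ∣ w x := by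
    intro k
    induction k with
    | zero =>
      refine ⟨c • 1, by simp [Algebra.smul_def], fun w => ?_⟩
      rw [map_smul]
      exact Dvd.intro _ rfl
    | succ k ih =>
      obtain ⟨x, h1, h2⟩ := ih
      obtain ⟨x', h3, h4⟩ := ReflA.dv hc hi hF (y := m0 * x) fun w => by
        obtain ⟨w', e⟩ := ReflA.quo hc h2 w
        rw [e, h0, ← mul_assoc]
        exact Dvd.intro _ rfl
      refine ⟨x', ?_, h4⟩
      rw [Algebra.smul_def] at h3
      rw [pow_succ, mul_assoc, ← h3, mul_left_comm, h1]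
      ring
  have : IsNoetherianRing N := IsNoetherianRing.of_finite P N
  have inj := IsFractionRing.injective N (FractionRing N)
  have hK : algebraMap N (FractionRing N) (algebraMap P N c) ≠ 0 :=
    fun k => hc' (inj (k.trans (map_zero _).symm))
  have ai : IsAlmostIntegral N (algebraMap N (FractionRing N) m0 /
      algebraMap N (FractionRing N) (algebraMap P N c)) := by
    refine ⟨algebraMap P N c, mem_nonZeroDivisors_of_ne_zero hc', fun k => ?_⟩
    obtain ⟨x, h1, -⟩ := it k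
    refine ⟨x, ?_⟩
    have := congrArg (algebraMap N (FractionRing N)) h1
    rw [map_mul, map_mul, map_pow, map_pow] at this
    rw [Algebra.smul_def, div_pow, ← mul_div_assoc, ← this,
      mul_div_cancel_left₀ _ (pow_ne_zero k hK)]
  obtain ⟨m, hm⟩ := IsIntegrallyClosed.isIntegral_iff.1 ai.isIntegral
  have e : m0 = c • m := by
    apply inj
    rw [Algebra.smul_def, map_mul, hm, mul_div_cancel₀ _ hK]
  refine ⟨m, fun w => mul_left_cancel₀ hc ?_⟩
  rw [← h0, e, map_smul, smul_eq_mul]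

end Pool.Agent.P.MP_e7d440_ag.Z
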