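import Pool.Agent.P.MP_e7d440_ag.Z.IfaceB
import Pool.Agent.P.MP_e7d440_ag.Z.IfaceA
import Pool.Agent.P.MP_e7d440_ag.Jac

/-! Step SLD. -/

set_option autoImplicit false
set_option linter.unusedSectionVars false

namespace Pool.Agent.P.MP_e7d440_ag.Z

open IsLocalRing MvPolynomial U GrA

namespace SldA

section val
variable {A K : Type} [CommRing A] [Field K] [Algebra A K] {𝔮 : Ideal A} {V : ValuationSubring K}

lemma val_one {c : K} (h1 : c ∈ V) (h2 : c ∉ V.nonunits) : V.valuation c = 1 :=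
  le_antisymm ((V.valuation_le_one_iff c).2 h1) (not_lt.1 fun h => h2 (V.mem_nonunits_iff.2 h))

lemma cen_one (hC : Cen 𝔮 V) {b : A} (hb : b ∉ 𝔮) : V.valuation (algebraMap A K b) = 1 :=
  val_one (hC.1 b) fun h => hb ((hC.2 b).1 h)

lemma loc_mem (hC : Cen 𝔮 V) {c : K} (h : loc (algebraMap A K) 𝔮 c) : c ∈ V := by
  obtain ⟨a, b, hb, e⟩ := h
  have := congrArg V.valuation e
  rw [map_mul, cen_one hC hb, mul_one] at this
  exact (V.valuation_le_one_iff c).1 (this ▸ (V.valuation_le_one_iff _).2 (hC.1 a))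

lemma locm_non (hC : Cen 𝔮 V) {c : K} (h : locm (algebraMap A K) 𝔮 c) : c ∈ V.nonunits := by
  obtain ⟨a, b, ha, hb, e⟩ := h
  have := congrArg V.valuation e
  rw [map_mul, cen_one hC hb, mul_one] at this
  exact V.mem_nonunits_iff.2 (this ▸ V.mem_nonunits_iff.1 ((hC.2 a).2 ha))

lemma loc_inv' (hC : Cen 𝔮 V) {c : K} (h : loc (algebraMap A K) 𝔮 c) (h1 : V.valuation c = 1) :
    loc (algebraMap A K) 𝔮 c⁻¹ := by
  obtain ⟨a, b, hb, e⟩ := h
  have h0 : c ≠ 0 := fun m => by rw [m, map_zero] at h1; exact zero_ne_one h1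
  refine ⟨b, a, fun ha => ?_, by rw [← e, inv_mul_cancel_left₀ h0]⟩
  have := V.mem_nonunits_iff.1 ((hC.2 a).2 ha)
  rw [← e, map_mul, h1, cen_one hC hb, mul_one] at this
  exact lt_irrefl _ this

lemma val_one_of_inv {c : K} (h0 : c ≠ 0) (h1 : c ∈ V) (h2 : c⁻¹ ∈ V) : V.valuation c = 1 :=
  val_one h1 fun h => (V.mem_nonunits_iff_or.1 h).elim h0 fun m => m h2

lemma non_mul {a b : K} (ha : a ∈ V) (hb : b ∈ V.nonunits) : a * b ∈ V.nonunits := by
  rw [V.mem_nonunits_iff, map_mul]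
  exact lt_of_le_of_lt (mul_le_of_le_one_left' ((V.valuation_le_one_iff a).2 ha))
    (V.mem_nonunits_iff.1 hb)

lemma exists_cen (h : ∀ a, algebraMap A K a ∈ V) : ∃ 𝔭 : Ideal A, 𝔭.IsPrime ∧ Cen 𝔭 V :=
  ⟨(maximalIdeal V).comap ((algebraMap A K).codRestrict V.toSubring h),
    Ideal.comap_isPrime _ _, h, fun a => V.coe_mem_nonunits_iff (a := ⟨_, h a⟩)⟩

lemma prim (hi : Function.Injective (algebraMap A K)) {π : A} (hπ : Prime π) (hq : π ∈ 𝔮)
    {a b : K} (ha : loc (algebraMap A K) 𝔮 a) (hb : loc (algebraMap A K) 𝔮 b)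
    (hab : loc (algebraMap A K) 𝔮 (a * b / algebraMap A K π)) :
    loc (algebraMap A K) 𝔮 (a / algebraMap A K π) ∨
      loc (algebraMap A K) 𝔮 (b / algebraMap A K π) := by
  have h0 : algebraMap A K π ≠ 0 := fun m => hπ.ne_zero (hi (by rw [m, map_zero]))
  obtain ⟨a1, a2, ha2, ea⟩ := ha
  obtain ⟨b1, b2, hb2, eb⟩ := hb
  obtain ⟨c1, c2, hc2, ec⟩ := hab
  have e : a1 * b1 * c2 = π * (c1 * a2 * b2) := hi (by
    simp only [map_mul]
    rw [← ea, ← eb, ← ec]
    field_simp)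
  rcases hπ.dvd_or_dvd (Dvd.intro _ e.symm) with k | ⟨k, rfl⟩
  · rcases hπ.dvd_or_dvd k with ⟨j, rfl⟩ | ⟨j, rfl⟩
    · refine Or.inl ⟨j, a2, ha2, ?_⟩
      rw [div_mul_eq_mul_div, ea, map_mul, mul_div_cancel_left₀ _ h0]
    · refine Or.inr ⟨j, b2, hb2, ?_⟩
      rw [div_mul_eq_mul_div, eb, map_mul, mul_div_cancel_left₀ _ h0]
  · exact absurd (𝔮.mul_mem_right k hq) hc2

lemma not_loc (hi : Function.Injective (algebraMap A K)) {π s : A} (hπ : Prime π) (hq : π ∈ 𝔮)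
    (hs : ¬ π ∣ s) : ¬ loc (algebraMap A K) 𝔮 (algebraMap A K s / algebraMap A K π) := by
  have h0 : algebraMap A K π ≠ 0 := fun m => hπ.ne_zero (hi (by rw [m, map_zero]))
  rintro ⟨a, b, hb, e⟩
  have e' : s * b = π * a := hi (by
    simp only [map_mul]
    rw [← e]
    field_simp)
  rcases hπ.dvd_or_dvd (Dvd.intro _ e'.symm) with k | ⟨k, rfl⟩
  · exact hs k
  · exact hb (𝔮.mul_mem_right k hq)

end val

section pol
variable {O K : Type} [CommRing O] [Field K] [Algebra O K]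

lemma wr_cons {n : ℕ} (E : Fin n → Derivation O K K) (δ : Derivation O K K) (t : Fin n → K)
    (c : K) (h : ∀ k, E k c = 0) :
    wr (Fin.cons δ E : Fin (n + 1) → Derivation O K K) (Fin.cons c t : Fin (n + 1) → K) =
      δ c * wr E t := by
  rw [wr, Matrix.det_succ_row_zero, Fin.sum_univ_succ, Finset.sum_eq_zero fun k _ => by simp [h k]]
  simp only [Fin.val_zero, pow_zero, one_mul, add_zero, Matrix.of_apply, Fin.cons_zero,
    Fin.succAbove_zero]
  rfl

lemma split {ν : Type} (F : MvPolynomial (Fin 2 ⊕ ν) O) :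
    ∃ (F0 : MvPolynomial (Unit ⊕ ν) O) (F1 : MvPolynomial (Fin 2 ⊕ ν) O),
      F = rename (Sum.map (fun _ => 1) id) F0 + F1 * X (.inl 0) := by
  induction F using MvPolynomial.induction_on with
  | C a => exact ⟨C a, 0, by simp⟩
  | add p q hp hq =>
    obtain ⟨p0, p1, rfl⟩ := hp
    obtain ⟨q0, q1, rfl⟩ := hq
    exact ⟨p0 + q0, p1 + q1, by rw [map_add]; ring⟩
  | mul_X p i hp =>
    obtain ⟨p0, p1, rfl⟩ := hp
    rcases i with i | i
    · fin_cases i
      · exact ⟨0, rename (Sum.map (fun _ => 1) id) p0 + p1 * X (.inl 0), by simp⟩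
      · exact ⟨p0 * X (.inl ()), p1 * X (.inl 1), by simp; ring⟩
    · exact ⟨p0 * X (.inr i), p1 * X (.inr i), by simp; ring⟩

lemma centre {ν : Type} {π : O} {s u : K} {t : ν → K} {V : ValuationSubring K}
    (hV : ∀ F : MvPolynomial (Fin 2 ⊕ ν) O, aeval (cs s u t) F ∈ V)
    (hπ : algebraMap O K π ∈ V.nonunits) (hs : s ∈ V.nonunits)
    (hR : RI π V (Sum.elim (fun _ : Unit => u) t)) (F : MvPolynomial (Fin 2 ⊕ ν) O) :
    aeval (cs s u t) F ∈ V.nonunits ↔ F ∈ Ideal.span {C π, X (.inl 0)} := by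
  have e0 : aeval (cs s u t) (X (.inl 0) : MvPolynomial (Fin 2 ⊕ ν) O) = s := by simp [cs]
  constructor
  · intro h
    obtain ⟨F0, F1, rfl⟩ := split F
    have e1 : cs s u t ∘ Sum.map (fun _ : Unit => (1 : Fin 2)) id =
        Sum.elim (fun _ : Unit => u) t := by
      funext i
      rcases i with i | i <;> simp [cs]
    rw [map_add, map_mul, e0, aeval_rename, e1] at h
    have h2 := V.nonunits.sub_mem h (non_mul (hV F1) hs)
    rw [add_sub_cancel_right] at h2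
    obtain ⟨G, rfl⟩ := hR F0 h2
    rw [Ideal.mem_span_pair]
    exact ⟨rename (Sum.map (fun _ => 1) id) G, F1, by simp [mul_comm]⟩
  · intro h
    obtain ⟨a, b, rfl⟩ := Ideal.mem_span_pair.1 h
    rw [map_add, map_mul, map_mul, e0, aeval_C]
    exact V.nonunits.add_mem (non_mul (hV a) hπ) (non_mul (hV b) hs)

lemma int_mem {Z : Set K} {T : Subring K} (hO : ∀ o, algebraMap O K o ∈ T) (hZ : ∀ c ∈ Z, c ∈ T)
    (hT : ∀ c : K, IsIntegral T c → c ∈ T) {c : K} (hc : IsIntegral (Algebra.adjoin O Z) c) :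
    c ∈ T := by
  have h1 : ∀ a : Algebra.adjoin O Z, algebraMap (Algebra.adjoin O Z) K a ∈ T := fun a =>
    (show Algebra.adjoin O Z ≤ { T with algebraMap_mem' := hO } from
      Algebra.adjoin_le hZ) a.2
  exact hT c (IsIntegral.map_of_comp_eq ((algebraMap (Algebra.adjoin O Z) K).codRestrict T h1)
    (RingHom.id K) rfl hc)

end pol

end SldA

open SldA

theorem p_SLD (hDEP : S_DEP) (hNCF : S_NCF) (hCHN : S_CHN) (hCONST : S_CONST) (hHOM : S_HOM) (hGRN : S_GRN) (hKER : S_KER) (hTOR : S_TOR) :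
    S_SLD := by
  intro O K _ _ _ _ _ _ π s u N _ _ 𝔮 V n t g x hs hπ hG hI hu hq hC hπq hsq hS hZ hR hP hd
  obtain ⟨E, hE, hEt⟩ := hS.ind
  obtain ⟨δ, w, hδs, hδu, hδg, hδn⟩ := hS.tor
  have hgf : Finite g := hS.fin
  obtain ⟨M, hM, wz, hwz⟩ := hHOM.den fun γ : g => w γ
  obtain ⟨δ', hδt, hδ'⟩ := hCHN.fix E t ((M : K) • δ) hEt
  have d1 : δ' s = 0 := by rw [hδ' s fun k => (hE k).1, Derivation.smul_apply, hδs, smul_zero]
  have d2 : δ' u = 0 := by rw [hδ' u fun k => (hE k).2.1, Derivation.smul_apply, hδu, smul_zero]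
  have d3 : ∀ γ ∈ g, δ' γ = (M : K) * δ γ := fun γ h => by
    rw [hδ' γ fun k => (hE k).2.2 γ h, Derivation.smul_apply, smul_eq_mul]
  have d4 : ∀ γ ∈ g, ∃ j : ℤ, δ' γ = j * γ := fun γ h => ⟨wz ⟨γ, h⟩, by
    have e := congrArg (Rat.cast : ℚ → K) (hwz ⟨γ, h⟩)
    push_cast at e
    rw [d3 γ h, hδg γ h, e, mul_assoc]⟩
  have d5 : ∀ k, δ' (cs s u t k) = 0 := by
    rintro (k | k)
    · fin_cases k
      · exact d1
      · exact d2
    · exact hδt k
  obtain ⟨g0, hg0, hδ0⟩ : ∃ γ ∈ g, δ γ ≠ 0 := by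
    by_contra k
    have := hδn fun γ h => by_contra fun m => k ⟨γ, h, m⟩
    omega
  have d6 : δ' g0 ≠ 0 := by
    rw [d3 g0 hg0]
    exact mul_ne_zero (Nat.cast_ne_zero.2 hM.ne') hδ0
  have w1 : wr (Fin.cons δ' E : Fin (n + 1) → Derivation O K K)
      (Fin.cons g0 t : Fin (n + 1) → K) ≠ 0 := by
    rw [wr_cons E δ' t g0 fun k => (hE k).2.2 g0 hg0]
    exact mul_ne_zero d6 hEt
  have w2 : ∀ a, (Fin.cons δ' E : Fin (n + 1) → Derivation O K K) a s = 0 :=
    Fin.cases d1 fun k => (hE k).1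
  have w3 : ∀ a, (Fin.cons δ' E : Fin (n + 1) → Derivation O K K) a u = 0 :=
    Fin.cases d2 fun k => (hE k).2.1
  have w4 := hCHN.ne x s u _ _ hG w2 w3 w1
  have k1 : ∀ c, δ' c = 0 → InF O (cs s u t) c := by
    refine hKER O K _ δ' (cs s u t) g (Set.range E) hZ d5
      (fun c hc => ⟨d4 c hc, by rintro _ ⟨k, rfl⟩; exact (hE k).2.2 c hc⟩) fun c h1 h2 => ?_
    obtain ⟨F, H, h3, h4⟩ := hCONST O K _ _ x ![s, u] _ c hG hI
      (fun a k => by
        fin_cases k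
        · exact w2 a
        · exact w3 a) w4 (Fin.cases h2 fun k => h1 _ ⟨k, rfl⟩)
    refine ⟨rename .inl F, rename .inl H, ?_, ?_⟩
    · rw [aeval_rename]; exact h3
    · rw [aeval_rename, aeval_rename]; exact h4
  have inj : Function.Injective (algebraMap O K) := hI.algebraMap_injective
  have hz : AlgebraicIndependent O (cs s u t) := by
    have : CharZero O := (algebraMap O K).charZero
    obtain ⟨D', hD'⟩ := hCHN.ext x s u _ hG hI w2 w3
    have h1 := hD' (Fin.cons g0 t) 0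
    rw [map_zero, sub_zero] at h1
    have h2 := (jacs.indep D' _ inj (h1 ▸ w1)).comp (Sum.map id Fin.succ)
      (Function.injective_id.sumMap (Fin.succ_injective n))
    have e : cs s u (Fin.cons g0 t : Fin (n + 1) → K) ∘ Sum.map id Fin.succ = cs s u t := by
      funext i
      rcases i with i | i <;> rfl
    rwa [e] at h2
  obtain ⟨B, hB⟩ : ∃ B : Subalgebra O K, IsNc B (Set.range (cs s u t) ∪ g) :=
    ⟨(integralClosure (Algebra.adjoin O (Set.range (cs s u t) ∪ g)) K).restrictScalars O,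
      fun _ => Iff.rfl⟩
  obtain ⟨b1, b2, b3⟩ := hNCF.ft B _ inj ((Set.finite_range _).union hS.fin) hB hZ
  have b4 : IsNoetherianRing B := Algebra.FiniteType.isNoetherianRing O B
  have b5 := (hNCF.int B _ hB).1
  obtain ⟨T, hT, hT'⟩ := hNCF.lcn (K := K) 𝔮 hq
  have l1 : ∀ b ∈ B, loc (algebraMap N K) 𝔮 b := fun b hb => by
    refine (hT b).1 (int_mem (O := O) (fun o => (hT _).2 ?_) ?_ hT' ((hB b).1 hb))
    · exact loc_map (algebraMap N K) hq (algebraMap O N o)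
    · rintro c (⟨k | k, rfl⟩ | hc)
      · fin_cases k
        · exact (hT _).2 (loc_map (algebraMap N K) hq ⟨s, hs⟩)
        · exact (hT _).2 (loc_map (algebraMap N K) hq ⟨u, hu⟩)
      · exact (hT _).2 (hS.tl k)
      · obtain ⟨a, b, -, h1, h2⟩ := hS.gl c hc
        exact (hT _).2 ⟨a, b, h1, h2⟩
  have l2 : ∀ b ∈ B, b ∈ V := fun b hb => loc_mem hC (l1 b hb)
  obtain ⟨𝔭, hp, hC'⟩ := exists_cen (A := B) (V := V) fun a => l2 a a.2
  have l3 : ∀ γ, loc (algebraMap B K) 𝔭 γ ↔ loc (algebraMap N K) 𝔮 γ := by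
    intro γ
    constructor
    · rintro ⟨a, b, hb, e⟩
      have v := cen_one hC' hb
      have h0 : algebraMap B K b ≠ 0 := fun m => by rw [m, map_zero] at v; exact zero_ne_one v
      rw [(mul_inv_cancel_right₀ h0 γ).symm, e]
      exact loc.mul hq (l1 a a.2) (loc_inv' hC (l1 b b.2) v)
    · rintro ⟨a, b, hb, e⟩
      obtain ⟨a1, c1, i1, j1, n1, m1, e1⟩ := hS.int a
      obtain ⟨a2, c2, i2, j2, n2, m2, e2⟩ := hS.int b
      have v1 := val_one_of_inv n1 (l2 _ ((hB _).2 j1)) (loc_mem hC m1)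
      have v2 := val_one_of_inv n2 (l2 _ ((hB _).2 j2)) (loc_mem hC m2)
      have v3 : V.valuation (b : K) = 1 := cen_one hC hb
      refine ⟨⟨a1, (hB _).2 i1⟩ * ⟨c2, (hB _).2 j2⟩, ⟨a2, (hB _).2 i2⟩ * ⟨c1, (hB _).2 j1⟩,
        fun m => ?_, ?_⟩
      · have v4 : V.valuation (a2 * c1) < 1 := V.mem_nonunits_iff.1 ((hC'.2 _).2 m)
        rw [← e2, map_mul, map_mul, v1, v2, v3, mul_one, mul_one] at v4
        exact lt_irrefl _ v4
      · have e' : γ * (b : K) = a := e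
        show γ * (a2 * c1) = a1 * c2
        rw [← e1, ← e2, ← e']
        ring
  have hzB : ∀ k, cs s u t k ∈ B := fun k => b5 (Or.inl ⟨k, rfl⟩)
  have injN : Function.Injective (algebraMap N K) := Subtype.val_injective
  have t1 := hTOR O K _ π (cs s u t) (.inl 0) B V δ' 𝔭 hπ hC' hzB d5 hz
    (centre (fun F => l2 _ (aeval_mem hzB F)) ((hC.2 _).2 hπq) (locm_non hC hsq) hR) k1
    (hGRN.dec δ' B _ hB (by
      rintro c (⟨k, rfl⟩ | hc)
      · exact ⟨0, by rw [d5, Int.cast_zero, zero_mul]⟩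
      · exact d4 c hc) hZ)
    (hGRN.non δ' B _ V hB l2 (by
      rintro c (⟨k, rfl⟩ | hc)
      · exact ⟨0, by rw [d5, Int.cast_zero, zero_mul], fun m => absurd rfl m⟩
      · obtain ⟨j, hj⟩ := d4 c hc
        exact ⟨j, hj, fun _ => locm_non hC (hS.gl c hc)⟩))
    (by
      obtain ⟨j, hj⟩ := d4 g0 hg0
      refine ⟨g0, b5 (Or.inr hg0), fun m => d6 (by rw [m, map_zero]), j, fun m => d6 ?_, hj⟩
      rw [hj, m, Int.cast_zero, zero_mul])
    (fun a b ha hb hab => by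
      rw [l3] at ha hb hab
      rw [l3, l3]
      exact prim injN hP hπq ha hb hab)
    (by
      rw [l3]
      exact not_loc injN hP hπq hd)
  exact hDEP B N K (algebraMap B K) 𝔭 𝔮 (algebraMap O B π) (algebraMap O N π)
    Subtype.val_injective injN hp hq rfl l3 t1

end Pool.Agent.P.MP_e7d440_ag.Z
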