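import Pool.Agent.P.MP_e7d440_ag.Z.IfaceB

/-! Step SLV. -/

set_option autoImplicit false
set_option linter.unusedSectionVars false

namespace Pool.Agent.P.MP_e7d440_ag.Z

open IsLocalRing MvPolynomial U GrA

namespace SlvA

variable {A K : Type} [CommRing A] [Field K] [Algebra A K] {𝔮 : Ideal A}
  {V : ValuationSubring K}

theorem val_one (h : Cen 𝔮 V) {b : A} (hb : b ∉ 𝔮) : V.valuation (algebraMap A K b) = 1 := by
  have h1 := (V.valuation_le_one_iff _).2 (h.1 b)
  have h2 : ¬ V.valuation (algebraMap A K b) < 1 := fun h3 =>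
    hb ((h.2 b).1 (V.mem_nonunits_iff.2 h3))
  exact le_antisymm h1 (not_lt.1 h2)

theorem loc_mem (h : Cen 𝔮 V) {c : K} (hc : loc (algebraMap A K) 𝔮 c) : c ∈ V := by
  obtain ⟨a, b, hb, e⟩ := hc
  have h1 := congrArg V.valuation e
  rw [map_mul, val_one h hb, mul_one] at h1
  rw [← V.valuation_le_one_iff, h1]
  exact (V.valuation_le_one_iff _).2 (h.1 a)

theorem locm_mem (h : Cen 𝔮 V) {c : K} (hc : locm (algebraMap A K) 𝔮 c) : c ∈ V.nonunits := by
  obtain ⟨a, b, ha, hb, e⟩ := hc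
  have h1 := congrArg V.valuation e
  rw [map_mul, val_one h hb, mul_one] at h1
  rw [V.mem_nonunits_iff, h1]
  exact V.mem_nonunits_iff.1 ((h.2 a).2 ha)

theorem not_nonunit {b : K} (hb : b ≠ 0) (h : b⁻¹ ∈ V) : b ∉ V.nonunits := by
  intro h1
  rw [V.mem_nonunits_iff] at h1
  have h2 := (V.valuation_le_one_iff _).2 h
  have h3 : V.valuation b * V.valuation b⁻¹ = 1 := by
    rw [← map_mul, mul_inv_cancel₀ hb, map_one]
  have h4 : V.valuation b * V.valuation b⁻¹ < 1 :=
    lt_of_le_of_lt (mul_le_of_le_one_right' h2) h1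
  exact h4.ne h3

end SlvA

theorem p_SLV (hNCF : S_NCF) (hRES : S_RES) (hCHN : S_CHN) :
    S_SLV := by
  intro O K _ _ _ _ _ π s u N 𝔮 V d n m t g x hπ hgen hs hu hq hcen hπq hsm hsl htd
  obtain ⟨z, hz⟩ := htd
  have hO : ∀ o : O, algebraMap O K o ∈ V := fun o => hcen.1 (algebraMap O N o)
  have hπV : algebraMap O K π ∈ V.nonunits := (hcen.2 (algebraMap O N π)).2 hπq
  have huV : u ∈ V := hcen.1 ⟨u, hu⟩
  have htV : ∀ k, t k ∈ V := fun k => SlvA.loc_mem hcen (hsl.tl k)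
  have hsV : s ∈ V.nonunits := SlvA.locm_mem hcen hsm
  have hgV : ∀ c ∈ g, c ∈ V.nonunits := fun c hc => SlvA.locm_mem hcen (hsl.gl c hc)
  have hx : ∀ j, ∃ a b : K, IsIntegral (Algebra.adjoin O (Set.range (cs s u t) ∪ g)) a ∧
      IsIntegral (Algebra.adjoin O (Set.range (cs s u t) ∪ g)) b ∧ b ∉ V.nonunits ∧
      (z j : K) * b = a := by
    intro j
    obtain ⟨a, b, ha, hb, hb0, hbl, e⟩ := hsl.int (z j)
    exact ⟨a, b, ha, hb, SlvA.not_nonunit hb0 (SlvA.loc_mem hcen hbl), e⟩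
  have hri : RI π V fun j => (z j : K) := by
    intro F hF
    apply hz F
    apply (hcen.2 _).1
    have e : algebraMap N K (aeval z F) = aeval (fun j => (z j : K)) F := by
      exact (MvPolynomial.aeval_algebraMap_apply K z F).symm
    rw [e]
    exact hF
  have h1 := hRES O K (Unit ⊕ Fin n) π (Set.range (cs s u t) ∪ g)
    (Sum.elim (fun _ : Unit => u) t) V m (fun j => (z j : K)) hπ hπV
    ⟨hO, by rintro (_ | k); exacts [huV, htV k]⟩
    (by
      rintro c (⟨i | k, rfl⟩ | hc)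
      · fin_cases i
        · exact Or.inl hsV
        · exact Or.inr ⟨.inl (), rfl⟩
      · exact Or.inr ⟨.inr k, rfl⟩
      · exact Or.inl (hgV c hc)) hx hri
  have hcard : Fintype.card (Unit ⊕ Fin n) = n + 1 := by simp [add_comm]
  rw [hcard] at h1
  refine ⟨?_, h1.1, h1.2, fun hum => ?_⟩
  · obtain ⟨δ, hδ, hw⟩ := hsl.ind
    have := hCHN.le x s u δ t hgen (fun k => (hδ k).1) (fun k => (hδ k).2.1) hw
    simpa using this
  · have huV' : u ∈ V.nonunits := SlvA.locm_mem hcen hum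
    have h2 := hRES O K (Fin n) π (Set.range (cs s u t) ∪ g) t V m (fun j => (z j : K)) hπ hπV
      ⟨hO, htV⟩
      (by
        rintro c (⟨i | k, rfl⟩ | hc)
        · fin_cases i
          · exact Or.inl hsV
          · exact Or.inl huV'
        · exact Or.inr ⟨k, rfl⟩
        · exact Or.inl (hgV c hc)) hx hri
    simpa using h2.1

end Pool.Agent.P.MP_e7d440_ag.Z
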