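import Pool.Agent.P.MP_e7d440_ag.Z.IfaceB

/-! Step SPEC2. -/

set_option autoImplicit false
set_option linter.unusedSectionVars false

namespace Pool.Agent.P.MP_e7d440_ag.Z

open IsLocalRing MvPolynomial U GrA

namespace Spec2A

theorem pow_mem {A : Type} [CommRing A] (J : Ideal A) (x : A)
    (h : ∀ 𝔮 : Ideal A, 𝔮.IsPrime → J ≤ 𝔮 → x ∈ 𝔮) : ∃ k : ℕ, x ^ k ∈ J := by
  have h1 : x ∈ J.radical := by
    rw [Ideal.radical_eq_sInf]
    exact Submodule.mem_sInf.2 fun J' h' => h J' h'.2 h'.1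
  exact h1

theorem descend {N L : Type} [CommRing N] [CommRing L] (ρ : N →+* L) (hint : ρ.IsIntegral)
    (π : N) (hπ : ∀ γ : L, γ * ρ π = 0 → γ = 0) (𝔯 : Ideal N) (hrad : 𝔯.IsRadical) (hm : π ∈ 𝔯)
    (hker : RingHom.ker ρ ≤ 𝔯) (hle : ∀ a ∈ 𝔯, ∃ a', ρ a = ρ a' * ρ π) :
    ∀ (M : ℕ) (γ : L) (a : N), γ * ρ π ^ M = ρ a → ∃ a', ρ a' = γ := by
  have one : ∀ (γ : L) (a : N), γ * ρ π = ρ a → ∃ a', ρ a' = γ := by
    intro γ a e
    have ha : a ∈ 𝔯 := by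
      refine hrad (pow_mem 𝔯 a fun 𝔮 h𝔮 hl => ?_)
      let _ := ρ.toAlgebra
      have : Algebra.IsIntegral N L := ⟨hint⟩
      obtain ⟨Q, -, hQ, hc⟩ := Ideal.exists_ideal_over_prime_of_isIntegral 𝔮 (⊥ : Ideal L)
        (hker.trans hl)
      have h1 : ρ π ∈ Q := by
        have := hl hm
        rw [← hc] at this
        exact this
      rw [← hc]
      show ρ a ∈ Q
      rw [← e]
      exact Q.mul_mem_left _ h1
    obtain ⟨a', ha'⟩ := hle a ha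
    refine ⟨a', (sub_eq_zero.1 (hπ _ ?_)).symm⟩
    rw [sub_mul, e, ha', sub_self]
  intro M
  induction M with
  | zero => exact fun γ a e => ⟨a, by rw [← e, pow_zero, mul_one]⟩
  | succ M ih =>
    intro γ a e
    obtain ⟨a', ha'⟩ := one (γ * ρ π ^ M) a (by rw [← e, pow_succ, mul_assoc])
    exact ih γ a' ha'.symm

theorem exists_rho (hNCF : S_NCF) {O K₀ K : Type} [CommRing O] [Field K₀] [Field K]
    [Algebra O K₀] [Algebra O K] [Algebra K₀ K] [IsScalarTower O K₀ K] {s u : K} {R : Subring K}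
    {sp : R →+* K₀} {N : Subalgebra O K} {N₀ : Subalgebra O K₀} {Z : Set K} {Z₀ : Set K₀}
    (hS : Spc K₀ s u R sp) (hN : IsNc N Z) (hN₀ : IsNc N₀ Z₀)
    (hZ : ∀ γ ∈ Z, ∃ h : γ ∈ R, sp ⟨γ, h⟩ ∈ N₀) :
    ∃ ρ : N →ₐ[O] N₀, ∀ a : N, ∃ h : (a : K) ∈ R, sp ⟨a, h⟩ = ρ a := by
  have hO : ∀ o : O, ∃ h : algebraMap O K o ∈ R, sp ⟨_, h⟩ = algebraMap O K₀ o := fun o => by
    obtain ⟨h, e⟩ := hS.const (algebraMap O K₀ o)
    have e' := IsScalarTower.algebraMap_apply O K₀ K o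
    exact ⟨e' ▸ h, (congrArg sp (Subtype.ext e')).trans e⟩
  have hB : ∀ γ ∈ Algebra.adjoin O Z, ∃ h : γ ∈ R, sp ⟨γ, h⟩ ∈ N₀ := by
    intro γ hγ
    induction hγ using Algebra.adjoin_induction with
    | mem x hx => exact hZ x hx
    | algebraMap o =>
      obtain ⟨h, e⟩ := hO o
      exact ⟨h, e ▸ N₀.algebraMap_mem o⟩
    | add x y _ _ h1 h2 =>
      obtain ⟨h1, e1⟩ := h1
      obtain ⟨h2, e2⟩ := h2
      refine ⟨R.add_mem h1 h2, ?_⟩
      have := N₀.add_mem e1 e2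
      rwa [← map_add] at this
    | mul x y _ _ h1 h2 =>
      obtain ⟨h1, e1⟩ := h1
      obtain ⟨h2, e2⟩ := h2
      refine ⟨R.mul_mem h1 h2, ?_⟩
      have := N₀.mul_mem e1 e2
      rwa [← map_mul] at this
  let ι : Algebra.adjoin O Z →+* R :=
    (algebraMap (Algebra.adjoin O Z) K).codRestrict R fun b => (hB b b.2).1
  let ψ : Algebra.adjoin O Z →+* N₀ := (sp.comp ι).codRestrict N₀ fun b => (hB b b.2).2
  have hA : ∀ γ ∈ N, ∃ h : γ ∈ R, sp ⟨γ, h⟩ ∈ N₀ := by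
    intro γ hγ
    obtain ⟨p, hp, e⟩ := (hN γ).1 hγ
    have h1 : γ ∈ R := hS.norm γ ⟨p.map ι, hp.map ι, by rw [Polynomial.eval₂_map]; exact e⟩
    have h2 : Polynomial.eval₂ ι ⟨γ, h1⟩ p = 0 := by
      apply R.subtype_injective
      rw [Polynomial.hom_eval₂, map_zero]
      exact e
    refine ⟨h1, (hNCF.int N₀ Z₀ hN₀).2 _ ⟨p.map ψ, hp.map ψ, ?_⟩⟩
    have h3 := congrArg sp h2
    rw [Polynomial.hom_eval₂, map_zero] at h3
    rw [Polynomial.eval₂_map]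
    exact h3
  let ι' : N →+* R := (algebraMap N K).codRestrict R fun b => (hA b b.2).1
  let ρ : N →+* N₀ := (sp.comp ι').codRestrict N₀ fun b => (hA b b.2).2
  exact ⟨{ ρ with commutes' := fun o => Subtype.ext (hO o).2 }, fun a => ⟨(hA a a.2).1, rfl⟩⟩

theorem rho_int {O K₀ N : Type} [CommRing O] [Field K₀] [Algebra O K₀] [CommRing N] [Algebra O N]
    {N₀ : Subalgebra O K₀} {Z₀ : Set K₀} (hN₀ : IsNc N₀ Z₀) (ρ : N →ₐ[O] N₀)
    (hZ : ∀ c ∈ Z₀, ∃ a, (ρ a : K₀) = c) : (ρ : N →+* N₀).IsIntegral := by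
  intro γ
  obtain ⟨p, hp, e⟩ := (hN₀ γ).1 γ.2
  have hle : Algebra.adjoin O Z₀ ≤ (N₀.val.comp ρ).range :=
    Algebra.adjoin_le fun c hc => hZ c hc
  have hl : p.map (algebraMap (Algebra.adjoin O Z₀) K₀) ∈
      Polynomial.lifts ((N₀.val.comp ρ : N →ₐ[O] K₀) : N →+* K₀) := by
    rw [Polynomial.lifts_iff_coeff_lifts]
    intro n
    rw [Polynomial.coeff_map]
    exact hle (p.coeff n).2
  obtain ⟨P, h1, -, h2⟩ := Polynomial.lifts_and_natDegree_eq_and_monic hl (hp.map _)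
  refine ⟨P, h2, ?_⟩
  apply Subtype.val_injective
  have h3 := Polynomial.hom_eval₂ P (ρ : N →+* N₀) (N₀.val : N₀ →+* K₀) γ
  rw [← Polynomial.eval_map] at e
  rw [← h1, Polynomial.eval_map] at e
  exact h3.trans e

end Spec2A

open Spec2A in
theorem p_SPEC2 (hNCF : S_NCF) (hFA : S_FA) (hFCH : S_FCH) :
    S_SPEC2 := by
  intro O K₀ K _ _ _ _ _ _ _ _ _ π s u R sp N N₀ Z Z₀ d hπ hS hF hN hN₀ hZ hZ₀ hG hX hch
  obtain ⟨φ, hφs, hφu, hfin, ⟨r, hr, hfac⟩, hrad⟩ := hF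
  obtain ⟨x, -, hx⟩ := hX
  obtain ⟨ρ, hρ⟩ := exists_rho hNCF hS hN hN₀ hZ
  have hs : s ∈ N := hφs ▸ (φ (X (.inl 0))).2
  have hu : u ∈ N := hφu ▸ (φ (X (.inl 1))).2
  have es : φ (X (.inl 0)) = ⟨s, hs⟩ := Subtype.ext hφs
  have eu : φ (X (.inl 1)) = ⟨u, hu⟩ := Subtype.ext hφu
  have hinj : Function.Injective (algebraMap N K) := Subtype.val_injective
  have ρs : ρ ⟨s, hs⟩ = 0 := by
    obtain ⟨h, e⟩ := hρ ⟨s, hs⟩
    exact Subtype.ext (e.symm.trans hS.s0.2)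
  have ρu : ρ (⟨u, hu⟩ - 1) = 0 := by
    obtain ⟨h, e⟩ := hρ ⟨u, hu⟩
    rw [map_sub, map_one, sub_eq_zero]
    exact Subtype.ext (e.symm.trans hS.u1.2)
  have chart : ∀ 𝔮 : Ideal N, 𝔮.IsPrime → algebraMap O N π ∉ 𝔮 → (⟨s, hs⟩ : N) ∈ 𝔮 →
      (⟨u, hu⟩ - 1 : N) ∈ 𝔮 →
      ∃ y : Fin d → K₀, Ch N 𝔮 (cs s u fun k => algebraMap K₀ K (y k)) :=
    fun 𝔮 h𝔮 h1 h2 h3 => hch 𝔮 h𝔮 (fun k => h1 ((hNCF.lm 𝔮 h𝔮 hinj _).1 k))
      ((hNCF.lm 𝔮 h𝔮 hinj _).2 h2) ((hNCF.lm 𝔮 h𝔮 hinj _).2 h3)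
  have hC : φ (C π) = algebraMap O N π := φ.commutes π
  have hk1 : ∀ a : N, ρ a = 0 → ∃ k : ℕ, φ (C π) ^ k * a ∈
      Ideal.span {φ (X (.inl 0)), φ (X (.inl 1)) - 1} := by
    intro a ha
    rw [es, eu, hC]
    obtain ⟨k, hk⟩ := pow_mem ((Ideal.span {(⟨s, hs⟩ : N), ⟨u, hu⟩ - 1}).colon {a})
      (algebraMap O N π) fun 𝔮 h𝔮 hl => by
        by_contra hn
        have hl' : Ideal.span {(⟨s, hs⟩ : N), ⟨u, hu⟩ - 1} ≤ 𝔮 := fun b hb =>
          hl (Submodule.mem_colon_singleton.2 (Ideal.mul_mem_right _ _ hb))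
        obtain ⟨y, hy⟩ := chart 𝔮 h𝔮 hn (hl' (Ideal.subset_span (by simp)))
          (hl' (Ideal.subset_span (by simp)))
        obtain ⟨h, e⟩ := hρ a
        obtain ⟨b, hb, hb'⟩ := hFCH.ker N hs hu 𝔮 y hS h𝔮 hy a h (by rw [e, ha]; rfl)
        exact hb (hl (Submodule.mem_colon_singleton.2 hb'))
    exact ⟨k, Submodule.mem_colon_singleton.1 hk⟩
  have hk2 : RingHom.ker (ρ : N →+* N₀) ≤
      Ideal.span {algebraMap O N π, φ (X (.inl 0)), φ (X (.inl 1)) - 1} := by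
    intro a ha
    obtain ⟨k, hk⟩ := hk1 a ha
    have h1 := hFA.tor φ.toRingHom π r hπ.ne_zero hfac a k hk
    obtain ⟨r', hr'⟩ := hr
    have h2 : a = φ r * a - algebraMap O N π * (φ r' * a) := by
      rw [sub_eq_iff_eq_add.1 hr', map_add, map_mul, map_one, hC]
      ring
    rw [h2]
    exact Ideal.sub_mem _ (Ideal.span_mono (Set.subset_insert _ _) h1)
      (Ideal.mul_mem_right _ _ (Ideal.subset_span (Set.mem_insert _ _)))
  have hZ₀' : ∀ c ∈ Z₀, ∃ a, (ρ a : K₀) = c := fun c hc => by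
    obtain ⟨γ, hγ, h, e⟩ := hZ₀ c hc
    obtain ⟨h', e'⟩ := hρ ⟨γ, hγ⟩
    exact ⟨⟨γ, hγ⟩, e'.symm.trans e⟩
  have hsur : Function.Surjective (ρ : N →+* N₀) := by
    intro γ
    let J : Ideal N :=
      { carrier := {b | ∃ a, γ * ρ b = ρ a}
        add_mem' := by
          rintro b b' ⟨a, e⟩ ⟨a', e'⟩
          exact ⟨a + a', by rw [map_add, map_add, mul_add, e, e']⟩
        zero_mem' := ⟨0, by rw [map_zero, mul_zero]⟩
        smul_mem' := by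
          rintro c b ⟨a, e⟩
          exact ⟨c * a, by rw [smul_eq_mul, map_mul, map_mul, ← e, mul_left_comm]⟩ }
    have hJ : ∀ b : N, ρ b = 0 → b ∈ J := fun b hb => ⟨0, by rw [hb, map_zero, mul_zero]⟩
    obtain ⟨M, a, e⟩ := pow_mem J (algebraMap O N π) fun 𝔮 h𝔮 hl => by
      by_contra hn
      obtain ⟨y, hy⟩ := chart 𝔮 h𝔮 hn (hl (hJ _ ρs)) (hl (hJ _ ρu))
      obtain ⟨a, b, hb, e⟩ := hFCH.sur N ((N₀.val.comp ρ : N →ₐ[O] K₀) : N →+* K₀) 𝔮 y x Z₀ hS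
        h𝔮 hρ (fun b hb => hl (hJ b (Subtype.ext hb))) hy hx hG hZ₀' γ ((hN₀ γ).1 γ.2)
      exact hb (hl ⟨a, Subtype.ext e⟩)
    refine descend (ρ : N →+* N₀) (rho_int hN₀ ρ hZ₀') (algebraMap O N π) (fun c hc => ?_) _ hrad
      (Ideal.subset_span (Set.mem_insert _ _)) hk2 (fun b hb => ?_) M γ a
      (by rw [← map_pow]; exact e)
    · refine (mul_eq_zero.1 hc).resolve_right fun k => hπ.ne_zero (hx.algebraMap_injective ?_)
      have h1 : ρ (algebraMap O N π) = 0 := k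
      rw [AlgHom.commutes] at h1
      rw [map_zero]
      exact congrArg Subtype.val h1
    · obtain ⟨c, z, hz, rfl⟩ := Ideal.mem_span_insert.1 hb
      obtain ⟨c1, c2, rfl⟩ := Ideal.mem_span_pair.1 hz
      refine ⟨c, ?_⟩
      show ρ _ = ρ c * ρ _
      rw [es, eu, map_add, map_add, map_mul, map_mul, map_mul, ρs, ρu, mul_zero, mul_zero,
        add_zero, add_zero]
  have hcom : (ρ.comp (φ.comp (rename Sum.inr))).comp (ev01 O (Fin d)) = ρ.comp φ := by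
    refine MvPolynomial.algHom_ext fun i => ?_
    rcases i with i | i
    · fin_cases i
      · simp [ev01, es, ρs]
      · have h1 : ρ ⟨u, hu⟩ = 1 := by
          rw [map_sub, map_one, sub_eq_zero] at ρu
          exact ρu
        simp [ev01, eu, h1]
    · simp [ev01]
  refine ⟨ρ.comp (φ.comp (rename Sum.inr)), ?_, ev01 O (Fin d) r, ?_, ?_⟩
  · refine RingHom.Finite.of_comp_finite (f := (ev01 O (Fin d)).toRingHom) ?_
    have h1 := (RingHom.Finite.of_surjective _ hsur).comp hfin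
    have h2 : (ρ.comp (φ.comp (rename Sum.inr))).toRingHom.comp (ev01 O (Fin d)).toRingHom =
        (ρ : N →+* N₀).comp φ.toRingHom := congrArg AlgHom.toRingHom hcom
    rw [h2]
    exact h1
  · obtain ⟨r', hr'⟩ := hr
    refine ⟨ev01 O (Fin d) r', ?_⟩
    have h1 := congrArg (ev01 O (Fin d)) hr'
    rw [map_sub, map_one, map_mul, algHom_C] at h1
    exact h1
  · exact hFA.down φ.toRingHom _ π (ρ : N →+* N₀) r hπ.ne_zero hsur
      (fun F => (DFunLike.congr_fun hcom F).symm) hfac hk1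

end Pool.Agent.P.MP_e7d440_ag.Z
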