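import Pool.Agent.P.MP_e7d440_ag.Z.IfaceA
import Pool.Agent.P.MP_e7d440_ag.Jac
import Pool.Agent.P.MP_e7d440_ag.U.Gen
import Pool.Agent.P.MP_e7d440_ag.U.Trd

/-! Step SPL. -/

set_option autoImplicit false
set_option linter.unusedSectionVars false

namespace Pool.Agent.P.MP_e7d440_ag.Z

open IsLocalRing MvPolynomial U

namespace SplA

variable {K : Type} [Field K] {V : ValuationSubring K}

lemma inv {a : K} (h : a ∉ V.nonunits) : a ≠ 0 ∧ a⁻¹ ∈ V := by
  rw [V.mem_nonunits_iff_or, not_or, not_not] at h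
  exact h

lemma not {a : K} (h : a ≠ 0) (h' : a⁻¹ ∈ V) : a ∉ V.nonunits := by
  rw [V.mem_nonunits_iff_or, not_or, not_not]
  exact ⟨h, h'⟩

lemma res {a : V} : residue V a ≠ 0 ↔ (a : K) ∉ V.nonunits := by
  rw [Ne, residue_eq_zero_iff, V.coe_mem_nonunits_iff]

end SplA

theorem p_SPL (hCART : S_CART) :
    S_SPL := by
  intro O K σ _ _ _ _ _ _ _ π p V D g x s hp hinj hx hπ hRI hF hg hl hs hw
  have : Fact p.Prime := ⟨hp.prime⟩
  have hGx : Gen O x := fun γ => by
    rcases V.mem_or_inv_mem γ with h | h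
    · obtain ⟨F, G, a1, -, a2⟩ := hF γ h
      exact ⟨F, G, a1, a2⟩
    · obtain ⟨F, G, a1, -, a2⟩ := hF _ h
      rcases eq_or_ne γ 0 with rfl | h0
      · exact ⟨0, 1, by simp, by simp⟩
      · exact ⟨G, F, by rw [← a2]; exact mul_ne_zero (inv_ne_zero h0) a1, by
          rw [← a2, mul_inv_cancel_left₀ h0]⟩
  have w0 : wr D x ≠ 0 := gen.wrne D g x hGx fun h => hl (by rw [jacs.lwr_eq, h, zero_div])
  obtain ⟨D', hD1, hD2⟩ := jacs.norm D x w0
  have mem := GenA.aeval_mem x V.toSubring hx.1 hx.2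
  have hD3 : ∀ a F, D' a (aeval x F) = aeval x (pderiv a F) := fun a F => by
    rw [JacA.chain]; simp [hD1]
  have hV : ∀ a, ∀ γ ∈ V, D' a γ ∈ V := fun a γ h => by
    obtain ⟨F, G, a1, a2, a3⟩ := hF γ h
    have := congrArg (D' a) a3
    rw [Derivation.leibniz, hD3, hD3, smul_eq_mul, smul_eq_mul] at this
    rw [show D' a γ = (aeval x G)⁻¹ * (aeval x (pderiv a F) - γ * aeval x (pderiv a G)) by
      rw [← this]; field_simp; ring]
    exact V.mul_mem _ _ a2 (V.toSubring.sub_mem (mem _) (V.mul_mem _ _ h (mem _)))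
  let : Algebra O V := ((algebraMap O K).codRestrict V hx.1).toAlgebra
  have : IsScalarTower O V K := IsScalarTower.of_algebraMap_eq fun _ => rfl
  let d : σ → Derivation O V V := fun a => Derivation.mk'
    { toFun := fun v => ⟨D' a v, hV a v v.2⟩
      map_add' := fun u v => Subtype.ext (map_add (D' a) (u : K) v)
      map_smul' := fun o v => Subtype.ext (by
        change D' a (algebraMap O K o * v) = algebraMap O K o * D' a v
        rw [← Algebra.smul_def, ← Algebra.smul_def, Derivation.map_smul]) }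
    fun u v => Subtype.ext ((D' a).leibniz (u : K) v)
  let f : V →ₐ[O] ResidueField V := IsScalarTower.toAlgHom O V _
  have hf : ∀ v, f v = residue V v := fun _ => rfl
  have hπ0 : f (algebraMap O V π) = 0 := not_not.1 (SplA.res.not_left.2 hπ ·)
  have hk : ∀ a v, f v = 0 → f (d a v) = 0 := fun a v h => by
    obtain ⟨F, G, a1, a2, a3⟩ := hF v v.2
    obtain ⟨F, rfl⟩ := hRI F (by
      rw [← a3, mul_comm]
      exact TrdA.nmul V (mem G) (not_not.1 (SplA.res.2 · h)))
    have : v = π • ⟨aeval x F * (aeval x G)⁻¹, V.mul_mem _ _ (mem F) a2⟩ := Subtype.ext (by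
      rw [map_mul, aeval_C] at a3
      change (v : K) = algebraMap O K π * _
      rw [← mul_assoc, ← a3, mul_inv_cancel_right₀ a1])
    rw [this, Derivation.map_smul, Algebra.smul_def, map_mul, hπ0, zero_mul]
  let Db : σ → Derivation O (ResidueField V) (ResidueField V) := fun a =>
    Derivation.liftOfSurjective (f := f) residue_surjective (hk a)
  have hDb : ∀ a v, Db a (f v) = f (d a v) := fun a v => Derivation.liftOfSurjective_apply _ _ v
  have hwr : ∀ y : σ → V, ∃ w : V, (w : K) = wr D' (fun b => y b) ∧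
      f w = wr Db fun b => f (y b) := fun y =>
    ⟨(Matrix.of fun b a => d a (y b)).det, V.subtype.map_det _, by
      simp only [wr, hDb]
      exact f.toRingHom.map_det _⟩
  have hae : ∀ (y : σ → V) (F : MvPolynomial σ O), ((aeval y F : V) : K) =
      aeval (fun b => (y b : K)) F ∧ f (aeval y F) = aeval (fun b => f (y b)) F := fun y F =>
    ⟨(aeval_algebraMap_apply K y F).symm, DFunLike.congr_fun (comp_aeval y f) F⟩
  have hgen : ∀ y : σ → V, (∀ γ ∈ V, ∃ F G : MvPolynomial σ O,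
      aeval (fun b => (y b : K)) G ∉ V.nonunits ∧
        γ * aeval (fun b => (y b : K)) G = aeval (fun b => (y b : K)) F) →
      Gen O fun b => f (y b) := fun y h z => by
    obtain ⟨v, rfl⟩ := residue_surjective z
    obtain ⟨F, G, a1, a2⟩ := h v v.2
    rw [← (hae y G).1] at a1 a2
    rw [← (hae y F).1] at a2
    refine ⟨F, G, ?_, ?_⟩
    · rw [← (hae y G).2]; exact SplA.res.2 a1
    · rw [← (hae y G).2, ← (hae y F).2, ← hf, ← map_mul]
      exact congrArg f (Subtype.ext a2)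
  let x' : σ → V := fun b => ⟨x b, hx.2 b⟩
  have hxb : ∀ a b, Db a (f (x' b)) = if a = b then 1 else 0 := fun a b => by
    have : d a (x' b) = if a = b then 1 else 0 := Subtype.ext (by
      change D' a (x b) = _
      rw [hD1]; split_ifs <;> rfl)
    rw [hDb, this]
    split_ifs <;> simp
  have hO : ∀ o, π ∣ o → algebraMap O (ResidueField V) o = 0 := by
    rintro _ ⟨c, rfl⟩
    rw [map_mul, ← f.commutes π, hπ0, zero_mul]
  have : CharP (ResidueField V) p := (CharP.charP_iff_prime_eq_zero hp.prime).2 (by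
    rw [← map_natCast (algebraMap O _)]; exact hO _ hp.dvd)
  obtain ⟨Ca, c1, c2⟩ := hCART O (ResidueField V) σ p (fun b => f (x' b)) Db (fun o => by
      obtain ⟨o', h⟩ := hp.root o
      exact ⟨o', by rw [← map_pow, ← sub_eq_zero, ← map_sub]; exact hO _ h⟩)
    (hgen x' fun γ h => by
      obtain ⟨F, G, a1, a2, a3⟩ := hF γ h
      exact ⟨F, G, SplA.not a1 a2, a3⟩) hxb
  have hπK : algebraMap O K π ≠ 0 := (map_ne_zero_iff _ hinj).2 hp.irr.ne_zero
  have hu : ∀ F : MvPolynomial σ O, aeval x F ≠ 0 → ∃ u : K, u ∈ V ∧ u ∉ V.nonunits ∧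
      ∀ a, D' a (aeval x F) / aeval x F = D' a u / u := fun F h => by
    obtain ⟨n, F', a1, rfl⟩ := WfDvdMonoid.max_power_factor' (a₀ := F) (x := C π)
      (by rintro rfl; simp at h) fun h => hp.irr.not_isUnit (by simpa using h.map constantCoeff)
    refine ⟨aeval x F', mem _, fun h => a1 (hRI _ h), fun a => ?_⟩
    rw [← map_pow, ← smul_eq_C_mul, map_smul, Derivation.map_smul, Algebra.smul_def,
      Algebra.smul_def, mul_div_mul_left _ _ (by rw [map_pow]; exact pow_ne_zero _ hπK)]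
  have hu' : ∀ b, ∃ u : V, (u : K) ∉ V.nonunits ∧ ∀ a, D' a (g b) / g b = D' a u / u := fun b => by
    obtain ⟨F, G, a1, a2⟩ := hGx (g b)
    have a3 : aeval x F ≠ 0 := by rw [← a2]; exact mul_ne_zero (hg b) a1
    obtain ⟨u, b1, b2, b3⟩ := hu F a3
    obtain ⟨v, e1, e2, e3⟩ := hu G a1
    obtain ⟨b4, b5⟩ := SplA.inv b2
    obtain ⟨e4, e5⟩ := SplA.inv e2
    refine ⟨⟨u * v⁻¹, V.mul_mem _ _ b1 e5⟩,
      TrdA.mul_not V b2 (SplA.not (inv_ne_zero e4) (by rwa [inv_inv])), fun a => ?_⟩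
    have h1 := b3 a
    have h2 := e3 a
    have h3 := hg b
    rw [← a2, Derivation.leibniz, smul_eq_mul, smul_eq_mul] at h1
    change _ = D' a (u * v⁻¹) / (u * v⁻¹)
    rw [Derivation.leibniz, Derivation.leibniz_inv, smul_eq_mul, smul_eq_mul, smul_eq_mul]
    have : D' a (g b) / g b = D' a u / u - D' a v / v := by
      rw [← h1, ← h2]; field_simp; ring
    rw [this]; field_simp; ring
  choose u hu1 hu2 using hu'
  obtain ⟨w₀, hw1, hw2⟩ := hwr u
  have hpu : ((∏ b, u b : V) : K) ∉ V.nonunits := SplA.res.1 (by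
    rw [map_prod]; exact Finset.prod_ne_zero_iff.2 fun b _ => SplA.res.2 (hu1 b))
  obtain ⟨n1, n2⟩ := SplA.inv hpu
  let θ : V := w₀ * ⟨_, n2⟩
  have hθ : (θ : K) * wr D x = lwr D g := by
    have : lwr D' g = lwr D' fun b => (u b : K) := by simp only [lwr, hu2]
    rw [jacs.lwr_eq, ← hD2 g, mul_div_right_comm, ← jacs.lwr_eq, this, jacs.lwr_eq, ← hw1,
      div_eq_mul_inv]
    simp [θ]
  have hθ2 : Ca (f θ) = f θ := by
    have h1 : (∏ b, f (u b)) ≠ 0 := Finset.prod_ne_zero_iff.2 fun b _ => SplA.res.2 (hu1 b)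
    have h2 : f θ = (∏ b, f (u b))⁻¹ * wr Db fun b => f (u b) := by
      rw [eq_inv_mul_iff_mul_eq₀ h1, ← hw2, ← map_prod, ← map_mul]
      refine congrArg f (Subtype.ext ?_)
      change ((∏ b, u b : V) : K) * (w₀ * _) = _
      rw [mul_left_comm, mul_inv_cancel₀ n1, mul_one]
    have h3 : f θ = (∏ b, f (u b))⁻¹ ^ p *
        ((∏ b, f (u b) ^ (p - 1)) * wr Db fun b => f (u b)) := by
      rw [h2, Finset.prod_pow, ← mul_assoc]
      congr 1
      conv_rhs => rw [← Nat.sub_add_cancel hp.prime.one_le, pow_succ', Nat.add_sub_cancel]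
      rw [mul_assoc, ← mul_pow, inv_mul_cancel₀ h1, one_pow, mul_one]
    rw [h3, c1, (c2 _).1, ← h3, ← h2]
  have hη : ∀ (y : σ → V) (w : V), wr D (fun b => (y b : K)) = w * (s * lwr D g) →
      wr Db (fun b => f (y b)) = f w * (f s * f θ) := fun y w h => by
    obtain ⟨w', a1, a2⟩ := hwr y
    rw [← a2, ← map_mul, ← map_mul]
    refine congrArg f (Subtype.ext (mul_right_cancel₀ w0 ?_))
    rw [a1, hD2, h, ← hθ]
    simp [mul_assoc]
  have w1 : wr Db (fun b => f (x' b)) ≠ 0 := by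
    have : (Matrix.of fun b a => Db a (f (x' b))) = 1 := by
      ext b a; simp [hxb, Matrix.one_apply, eq_comm]
    rw [wr, this]; simp
  obtain ⟨w, hw3, hw4⟩ := hw
  have η0 : f s * f θ ≠ 0 := right_ne_zero_of_mul (hη x' ⟨w, hw3⟩ hw4 ▸ w1)
  refine ⟨AddMonoidHom.mk' (fun z => Ca (z * (f s * f θ)) / (f s * f θ)) fun a b => by
    rw [add_mul, map_add, add_div], fun a b => ?_, fun z => ?_, ?_⟩
  · simp only [AddMonoidHom.mk'_apply]
    rw [mul_assoc, c1, mul_div_assoc]
  · simp only [AddMonoidHom.mk'_apply]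
    rw [div_eq_iff η0, show residue V s ^ (p - 1) * z ^ p * (f s * f θ) = (z * f s) ^ p * f θ by
      conv_rhs => rw [mul_pow, ← Nat.sub_add_cancel hp.prime.one_le, pow_succ (f s),
        Nat.sub_add_cancel hp.prime.one_le]
      rw [hf s]; ring, c1, hθ2, mul_assoc]
  rintro S y hSV hy hS hVS ⟨w', a1, a2⟩ v hv
  let y' : σ → V := fun b => ⟨y b, hSV _ (hy.2 b)⟩
  have memS := GenA.aeval_mem y S hy.1 hy.2
  have hJ := hη y' ⟨w', hSV _ a1⟩ a2
  have hJ0 := gen.wrne Db _ _ (hgen y' fun γ h => by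
    obtain ⟨a, ha, b, hb, e1, e2⟩ := hVS γ h
    obtain ⟨F, G, b1, b2, b3⟩ := hS a ha
    obtain ⟨F', G', d1, d2, d3⟩ := hS b hb
    refine ⟨F * G', G * F', ?_, ?_⟩
    · rw [map_mul, ← d3]
      exact TrdA.mul_not V (SplA.not b1 (hSV _ b2)) (TrdA.mul_not V e1 (SplA.not d1 (hSV _ d2)))
    · rw [map_mul, map_mul, ← d3, ← b3, ← e2]; ring) w1
  rw [hJ] at hJ0
  obtain ⟨F, G, b1, b2, b3⟩ := hS _ (S.mul_mem hv (S.pow_mem a1 (p - 1)))
  obtain ⟨F', hF'⟩ := (c2 fun b => f (y' b)).2 (F * G ^ (p - 1))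
  have g0 : f (aeval y' G) ≠ 0 := SplA.res.2 ((hae y' G).1 ▸ SplA.not b1 (hSV _ b2))
  have e1 : f v * f ⟨w', hSV _ a1⟩ ^ (p - 1) * f (aeval y' G) = f (aeval y' F) := by
    rw [← map_pow, ← map_mul, ← map_mul]
    exact congrArg f (Subtype.ext (by simpa [(hae y' _).1] using b3))
  have e2 : f ⟨_, hSV _ b2⟩ = (f (aeval y' G))⁻¹ := by
    refine eq_inv_of_mul_eq_one_left ?_
    rw [← map_mul, ← map_one f]
    exact congrArg f (Subtype.ext (by simpa [(hae y' _).1] using inv_mul_cancel₀ b1))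
  refine ⟨aeval y' F' * ⟨_, hSV _ b2⟩, ?_, ?_⟩
  · exact S.mul_mem ((hae y' F').1 ▸ memS F') b2
  · have w2 := left_ne_zero_of_mul hJ0
    rw [map_mul (aeval _) F, map_pow, ← (hae y' _).2, ← (hae y' _).2, ← (hae y' _).2, hJ, ← e1] at hF'
    simp only [AddMonoidHom.mk'_apply, ← hf]
    generalize f ⟨w', hSV _ a1⟩ = W at *
    rw [map_mul f (aeval y' F'), e2, div_eq_iff η0]
    generalize f (aeval y' G) = Gb at *
    have := c1 (W * Gb)⁻¹ (f v * W ^ (p - 1) * Gb * Gb ^ (p - 1) * (W * (f s * f θ)))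
    rw [hF'] at this
    rw [show f v * (f s * f θ) = (W * Gb)⁻¹ ^ p *
      (f v * W ^ (p - 1) * Gb * Gb ^ (p - 1) * (W * (f s * f θ))) by
        conv_rhs => rw [← Nat.sub_add_cancel hp.prime.one_le, Nat.add_sub_cancel]
        rw [inv_pow, mul_pow, pow_succ, pow_succ]
        field_simp, this]
    field_simp

end Pool.Agent.P.MP_e7d440_ag.Z
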