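import Pool.Agent.P.MP_e7d440_ag.Z.IfaceA

/-! Step SYZ. -/

set_option autoImplicit false
set_option linter.unusedSectionVars false

namespace Pool.Agent.P.MP_e7d440_ag.Z

open IsLocalRing MvPolynomial U

theorem p_SYZ (hFROB : S_FROB) :
    S_SYZ := by
  classical
  intro k τ T _ p _ _ _ _ _ _ c hc l a z h e
  obtain ⟨n, α, β, hc⟩ := hc
  obtain ⟨ι, _, m, Λ, h1, h2⟩ := hFROB.dec k τ p e
  have h3 : ∑ j, a j ^ p ^ e • z j ^ p ^ e = 0 := by
    rcases subsingleton_or_nontrivial T with _ | _
    · exact Subsingleton.elim _ _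
    · have : CharP T p := charP_of_injective_ringHom
        (RingHom.injective ((algebraMap (MvPolynomial τ k) T).comp C)) p
      have h4 := congrArg (· ^ p ^ e) h
      simp only [sum_pow_char_pow, smul_pow] at h4
      rw [h4, zero_pow (pow_ne_zero e (Fact.out : p.Prime).ne_zero)]
  let E := Fintype.equivFin (ι × Fin n)
  refine ⟨Fintype.card (ι × Fin n), fun j i => Λ (E.symm i).1 (α (z j ^ p ^ e) (E.symm i).2),
    fun i => m (E.symm i).1 • β (Pi.single (E.symm i).2 1), fun i => ?_, fun j => ?_⟩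
  · have h4 := congrArg (fun t => Λ (E.symm i).1 (α t (E.symm i).2)) h3
    simp only [map_sum, map_smul, Finset.sum_apply, Pi.smul_apply, smul_eq_mul, h1, map_zero,
      Pi.zero_apply] at h4
    exact h4
  · rw [E.symm.sum_comp (fun q : ι × Fin n => Λ q.1 (α (z j ^ p ^ e) q.2) ^ p ^ e •
      m q.1 • β (Pi.single q.2 1)), Fintype.sum_prod_type_right, ← hc]
    generalize α (z j ^ p ^ e) = w
    conv_lhs => rw [pi_eq_sum_univ' w, map_sum]
    refine Finset.sum_congr rfl fun r _ => ?_
    simp only [← mul_smul]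
    rw [← Finset.sum_smul, ← h2, map_smul]

end Pool.Agent.P.MP_e7d440_ag.Z
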