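import Pool.Agent.P.MP_e7d440_ag.Z.IfaceB

/-! Step TOR. -/

set_option autoImplicit false
set_option linter.unusedSectionVars false

namespace Pool.Agent.P.MP_e7d440_ag.Z

open IsLocalRing MvPolynomial U GrA

namespace TorA

variable {O K : Type} [CommRing O] [Field K] [Algebra O K]

/-- the elements of weight `j` -/
def wt (B : Subalgebra O K) (δ : Derivation O K K) (j : ℤ) : Submodule O B where
  carrier := {b | δ b = j * b}
  add_mem' {a b} ha hb := by
    simp only [Set.mem_ofPred_eq] at ha hb ⊢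
    rw [Subalgebra.coe_add, map_add, ha, hb, mul_add]
  zero_mem' := by simp
  smul_mem' o b hb := by
    simp only [Set.mem_ofPred_eq] at hb ⊢
    rw [Subalgebra.coe_smul, Derivation.map_smul, hb, mul_smul_comm]

theorem mem_wt {B : Subalgebra O K} {δ : Derivation O K K} {j : ℤ} {b : B} :
    b ∈ wt B δ j ↔ δ b = j * b := Iff.rfl

theorem grd [CharZero K] (hHOM : S_HOM) (B : Subalgebra O K) (δ : Derivation O K K)
    (h : ∀ b ∈ B, ∃ (t : Finset ℤ) (v : ℤ → K), (∀ j, v j ∈ B ∧ δ (v j) = j * v j) ∧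
      b = ∑ j ∈ t, v j) : Nonempty (GradedAlgebra (wt B δ)) := by
  have hi : DirectSum.IsInternal (wt B δ) := by
    refine DirectSum.isInternal_submodule_of_iSupIndep_of_iSup_eq_top ?_ ?_
    · rw [iSupIndep_iff_finsetSum_eq_zero_imp_eq_zero]
      intro t v h1 h2 i hi
      refine Subtype.ext (hHOM.eig (fun n : ℤ => (n : ℚ)) δ t (fun n => (v n : K))
        Int.cast_injective (fun n hn => by simpa using mem_wt.1 (h1 n hn)) ?_ i hi)
      simpa using congrArg B.val h2
    · refine top_unique fun b _ => ?_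
      obtain ⟨t, v, h1, h2⟩ := h b b.2
      have e : b = ∑ j ∈ t, (⟨v j, (h1 j).1⟩ : B) := Subtype.ext (by simpa using h2)
      rw [e]
      exact Submodule.sum_mem _ fun j _ => Submodule.mem_iSup_of_mem j (mem_wt.2 (h1 j).2)
  exact ⟨{ hi.chooseDecomposition with
    one_mem := mem_wt.2 (by simp)
    mul_mem := fun i j a b ha hb => mem_wt.2 (by
      rw [Subalgebra.coe_mul, Derivation.leibniz, mem_wt.1 ha, mem_wt.1 hb]
      push_cast
      simp only [smul_eq_mul]
      ring) }⟩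

theorem dpoly {κ : Type} {δ : Derivation O K K} {z : κ → K} (h : ∀ k, δ (z k) = 0)
    (F : MvPolynomial κ O) : δ (aeval z F) = 0 := by
  induction F using MvPolynomial.induction_on with
  | C o => simp
  | add F G h1 h2 => simp [h1, h2]
  | mul_X F k h1 => simp [h1, h k]

theorem ddiv {δ : Derivation O K K} {b c : K} {j : ℤ} (hb : δ b = j * b) (hc : δ c = j * c) :
    δ (c / b) = 0 := by
  rw [Derivation.leibniz_div, hb, hc]
  simp only [smul_eq_mul]
  ring

theorem noeth {A : Type} [CommRing A] [IsNoetherianRing A] [Algebra A K] {𝔮 : Ideal A}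
    [hq : 𝔮.IsPrime] (hi : Function.Injective (algebraMap A K)) {T : Subring K}
    (hT : ∀ c, c ∈ T ↔ loc (algebraMap A K) 𝔮 c) : IsNoetherianRing T := by
  let _ : Algebra A T :=
    ((algebraMap A K).codRestrict T fun a => (hT _).2 (loc_map _ hq a)).toAlgebra
  have e : ∀ a, (algebraMap A T a : K) = algebraMap A K a := fun _ => rfl
  have hk : RingHom.ker (algebraMap A K) ≤ 𝔮 := by
    rw [(RingHom.injective_iff_ker_eq_bot _).1 hi]; exact bot_le
  have : IsLocalization 𝔮.primeCompl T := by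
    rw [isLocalization_iff]
    refine ⟨fun y => ?_, fun c => ?_, fun {x y} k => ⟨1, ?_⟩⟩
    · refine IsUnit.of_mul_eq_one ⟨_, (hT _).2 (loc_inv _ hk y.2)⟩ (Subtype.ext ?_)
      exact mul_inv_cancel₀ fun m => y.2 (hk m)
    · obtain ⟨a, b, h1, h2⟩ := (hT _).1 c.2
      exact ⟨(a, ⟨b, h1⟩), Subtype.ext h2⟩
    · rw [hi (congrArg Subtype.val k)]
  exact IsLocalization.isNoetherianRing 𝔮.primeCompl T inferInstance

end TorA

open TorA DirectSum

theorem p_TOR (hHOM : S_HOM) (hNCF : S_NCF) (hCYC : S_CYC) (hTORIC : S_TORIC) :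
    S_TOR := by
  intro O K κ _ _ _ _ _ _ _ π z i₀ B _ _ _ V δ 𝔮 hπ hC hz hδ hind hV hInF hdec hnon hex hpr hs
  obtain ⟨gr⟩ := grd hHOM B δ hdec
  have inj : Function.Injective (algebraMap B K) := Subtype.val_injective
  have v1 : ∀ a : B, V.valuation a ≤ 1 := fun a => (V.valuation_le_one_iff _).2 (hC.1 a)
  have vq : ∀ a : B, a ∈ 𝔮 ↔ V.valuation a < 1 := fun a => (hC.2 a).symm.trans V.mem_nonunits_iff
  have vn : ∀ a : B, a ∉ 𝔮 ↔ V.valuation a = 1 := fun a => by
    rw [vq, not_lt]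
    exact ⟨le_antisymm (v1 a), fun k => k.ge⟩
  have mulq : ∀ a b : B, a ∉ 𝔮 → b ∉ 𝔮 → a * b ∉ 𝔮 := fun a b ha hb => by
    rw [vn] at ha hb ⊢
    rw [Subalgebra.coe_mul, map_mul, ha, hb, mul_one]
  have one : (1 : B) ∉ 𝔮 := (vn _).2 (by simp)
  have hq : 𝔮.IsPrime := ⟨fun k => one (k ▸ Submodule.mem_top), fun {a b} k => by
    by_contra m
    exact mulq a b (fun k => m (.inl k)) (fun k => m (.inr k)) k⟩
  obtain ⟨T, hT, -⟩ := hNCF.lcn (K := K) 𝔮 hq
  have BT : ∀ a : B, (a : K) ∈ T := fun a => (hT _).2 (loc_map _ hq a)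
  have dom : Dom T V := by
    refine ⟨fun c hc => ?_, fun c hc k => ?_⟩ <;> obtain ⟨a, b, h1, h2⟩ := (hT _).1 hc <;>
      have h3 := congrArg V.valuation h2 <;> rw [map_mul] at h3 <;>
      change V.valuation c * V.valuation b = V.valuation a at h3 <;>
      rw [(vn b).1 h1, mul_one] at h3
    · exact (V.valuation_le_one_iff _).1 (h3 ▸ v1 a)
    · have h4 : a ∉ 𝔮 := fun m => k (V.mem_nonunits_iff.2 (h3 ▸ (vq a).1 m))
      have h5 : c ≠ 0 := fun m => k (m ▸ zero_mem _)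
      exact (hT _).2 ⟨b, a, h4, by rw [← h2]; field_simp⟩
  obtain ⟨zB, hzB⟩ : ∃ zB : κ → B, ∀ k, (zB k : K) = z k := ⟨fun k => ⟨z k, hz k⟩, fun _ => rfl⟩
  have ev : ∀ F : MvPolynomial κ O, ((aeval zB F : B) : K) = aeval z F := fun F => by
    rw [show z = algebraMap B K ∘ zB from funext fun k => (hzB k).symm, aeval_algebraMap_apply]
    rfl
  have ev0 : ∀ F : MvPolynomial κ O, aeval zB F ∈ wt B δ 0 := fun F => mem_wt.2 (by rw [ev, dpoly hδ]; simp)
  have p0 : algebraMap O B π ∈ wt B δ 0 := by simpa using ev0 (C π)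
  have s0 : zB i₀ ∈ wt B δ 0 := by simpa using ev0 (X i₀)
  have pq : algebraMap O B π ∈ 𝔮 := by
    have := (hV (C π)).2 (Ideal.subset_span (by simp))
    rw [← ev] at this
    simpa using (hC.2 _).1 this
  have sq : zB i₀ ∈ 𝔮 := by
    have := (hV (X i₀)).2 (Ideal.subset_span (by simp))
    rw [← ev] at this
    simpa using (hC.2 _).1 this
  have pn : algebraMap O K π ≠ 0 := fun k =>
    hπ.ne_zero (hind.algebraMap_injective (k.trans (map_zero _).symm))
  obtain ⟨c1, c2⟩ := hCYC O K κ π z i₀ T V hπ (noeth inj hT) dom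
    ⟨fun o => BT (algebraMap O B o), fun k => hzB k ▸ BT _⟩ hind hV
    (fun a ha b hb k => by
      simp only [hT] at ha hb k ⊢
      exact hpr a b ha hb k) fun k => hs ((hT _).1 k)
  have m0 : ∀ {a b : B}, a ∈ wt B δ 0 → b ∈ wt B δ 0 → a * b ∈ wt B δ 0 := fun ha hb => by
    simpa using SetLike.mul_mem_graded ha hb
  obtain ⟨𝔞, ma⟩ : ∃ 𝔞 : Ideal B, ∀ c, c ∈ 𝔞 ↔
      ∃ r ∈ wt B δ 0, r ∉ 𝔮 ∧ r * c ∈ Ideal.span {algebraMap O B π, zB i₀} :=
   ⟨{ carrier := {c | ∃ r ∈ wt B δ 0, r ∉ 𝔮 ∧ r * c ∈ Ideal.span {algebraMap O B π, zB i₀}}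
      add_mem' := by
        rintro a b ⟨r, h1, h2, h3⟩ ⟨r', h4, h5, h6⟩
        refine ⟨r * r', m0 h1 h4, mulq _ _ h2 h5, ?_⟩
        rw [show r * r' * (a + b) = r' * (r * a) + r * (r' * b) by ring]
        exact add_mem (Ideal.mul_mem_left _ _ h3) (Ideal.mul_mem_left _ _ h6)
      zero_mem' := ⟨1, SetLike.one_mem_graded _, one, by simp⟩
      smul_mem' := by
        rintro a b ⟨r, h1, h2, h3⟩
        refine ⟨r, h1, h2, ?_⟩
        rw [smul_eq_mul, mul_left_comm]
        exact Ideal.mul_mem_left _ _ h3 }, fun _ => Iff.rfl⟩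
  have hj : ∀ j, j ≠ 0 → ∀ b ∈ wt B δ j, b ∈ 𝔮 := fun j k b hb =>
    (hC.2 b).1 (hnon b b.2 j k (mem_wt.1 hb))
  have den : ∀ (j : ℤ) (b : B), b ∈ wt B δ j → ∀ e ∈ T, (b : K) ≠ 0 → InF O z (e / b) →
      ∃ ρ ∈ wt B δ 0, ρ ∉ 𝔮 ∧ ∃ a ∈ wt B δ j, e * ρ = a := by
    rintro j b hb e he b0 ⟨F, H, h1, h2⟩
    obtain ⟨a, ρ, h3, h4⟩ := (hT _).1 he
    change e * ρ = a at h4
    have h5 : e * aeval z H = aeval z F * b := by rw [← h2]; field_simp
    have h6 : aeval zB F * b * ρ = aeval zB H * a := Subtype.ext (by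
      simp only [Subalgebra.coe_mul, ev]
      rw [← h5, ← h4]; ring)
    have h7 := coe_decompose_mul_add_of_left_mem (wt B δ) (j := 0) (b := ρ)
      (show aeval zB F * b ∈ wt B δ j by simpa using SetLike.mul_mem_graded (ev0 F) hb)
    rw [h6, add_zero, coe_decompose_mul_of_left_mem_zero _ (ev0 H)] at h7
    refine ⟨decompose (wt B δ) ρ 0, Subtype.prop _, fun k => h3 ?_, decompose (wt B δ) a j,
      Subtype.prop _, mul_left_cancel₀ h1 ?_⟩
    · classical
      rw [← sum_support_decompose (wt B δ) ρ]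
      refine Ideal.sum_mem _ fun i _ => ?_
      by_cases m : i = 0
      · exact m ▸ k
      · exact hj i m _ (Subtype.prop _)
    · have := congrArg Subtype.val h7
      simp only [Subalgebra.coe_mul, ev] at this
      rw [this, ← h5]; ring
  have de : ∀ (j : ℤ) (b e : K), δ b = j * b → b ≠ 0 → InF O z (e / b) → δ e = j * e := by
    rintro j b e hb b0 ⟨F, H, h1, h2⟩
    have h3 := congrArg δ h2
    rw [Derivation.leibniz, dpoly hδ, dpoly hδ, smul_zero, zero_add, smul_eq_mul] at h3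
    have h4 := (mul_eq_zero.1 h3).resolve_left h1
    rw [← div_mul_cancel₀ e b0, Derivation.leibniz, h4, hb, smul_zero, add_zero, smul_eq_mul]
    ring
  have unit : ∀ G : MvPolynomial κ O, aeval z G ≠ 0 → (aeval z G)⁻¹ ∈ (V : Set K) → aeval zB G ∉ 𝔮 := by
    intro G h1 h2 k
    rcases V.mem_nonunits_iff_or.1 ((hC.2 _).2 k) with m | m
    · exact h1 (ev G ▸ m)
    · exact m (by rw [← ev] at h2; exact h2)
  obtain ⟨w, w1, w2⟩ := hTORIC O B (wt B δ) 𝔞 𝔮
    (fun i c hc => by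
      obtain ⟨r, h1, h2, h3⟩ := (ma c).1 hc
      refine (ma _).2 ⟨r, h1, h2, ?_⟩
      rw [← coe_decompose_mul_of_left_mem_zero _ h1]
      refine Ideal.homogeneous_span (wt B δ) _ ?_ i h3
      intro x hx
      rcases Set.mem_insert_iff.1 hx with m | m
      · exact ⟨0, m ▸ p0⟩
      · exact ⟨0, Set.mem_singleton_iff.1 m ▸ s0⟩) hj
    (fun j b hb c hc hba => by
      have b0 : (b : K) ≠ 0 := fun k => hba (by rw [show b = 0 from Subtype.ext k]; exact zero_mem _)
      obtain ⟨e, e1, e0, e2, e3⟩ := c2 b (BT b) b0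
      have e4 := de j b e hb b0 e2
      obtain ⟨ρ, r1, r2, a, -, r3⟩ := den j b hb e e1 b0 e2
      obtain ⟨F, G, g1, g2, g3⟩ := c1 _ (e3 b (BT b) (hInF _ (ddiv hb hb))) (hInF _ (ddiv e4 hb))
      obtain ⟨F', G', f1, f2, f3⟩ := c1 _ (e3 c (BT c) (hInF _ (ddiv hb hc))) (hInF _ (ddiv e4 hc))
      have k : aeval zB F ∉ 𝔮 := fun m => by
        have m1 := (hC.2 _).2 m
        change ((aeval zB F : B) : K) ∈ _ at m1
        rw [ev, hV] at m1
        have m2 := Ideal.mem_map_of_mem (aeval zB : MvPolynomial κ O →ₐ[O] B) m1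
        rw [Ideal.map_span, Set.image_pair, aeval_C, aeval_X] at m2
        refine hba ((ma _).2 ⟨ρ * aeval zB G, m0 r1 (ev0 G), mulq _ _ r2 (unit G g1 g2), ?_⟩)
        rw [show ρ * aeval zB G * b = a * aeval zB F from Subtype.ext (by
          simp only [Subalgebra.coe_mul, ev]
          rw [← r3, ← g3]; field_simp)]
        exact Ideal.mul_mem_left _ _ m2
      refine ⟨aeval zB F * aeval zB G', m0 (ev0 _) (ev0 _), aeval zB F' * aeval zB G,
        m0 (ev0 _) (ev0 _), fun g hg => ?_, Subtype.ext ?_⟩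
      · obtain ⟨r, h1, h2, h3⟩ := (ma _).1 hg
        exact (ma _).2 ⟨r * (aeval zB F * aeval zB G'), m0 h1 (m0 (ev0 _) (ev0 _)),
          mulq _ _ h2 (mulq _ _ k (unit G' f1 f2)), by rwa [mul_assoc]⟩
      simp only [Subalgebra.coe_mul, ev]
      rw [← g3, ← f3]; field_simp)
    (fun j b hb b0 => by
      have b0' : (b : K) ≠ 0 := fun k => b0 (Subtype.ext k)
      obtain ⟨e, e1, e0, e2, e3⟩ := c2 b (BT b) b0'
      obtain ⟨ρ, r1, r2, a, r4, r3⟩ := den j b hb e e1 b0' e2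
      refine ⟨a, r4, fun ha => ?_⟩
      obtain ⟨r, h1, h2, h3⟩ := (ma _).1 ha
      obtain ⟨x, y, h4⟩ := Ideal.mem_span_pair.1 h3
      have h5 := congrArg (fun u => (decompose (wt B δ) u j : B)) h4
      simp only [decompose_add, DirectSum.add_apply, Submodule.coe_add,
        coe_decompose_mul_of_right_mem_zero _ p0, coe_decompose_mul_of_right_mem_zero _ s0,
        coe_decompose_mul_of_left_mem_zero _ h1, decompose_of_mem_same _ r4] at h5
      have inV : ∀ u : wt B δ j, V.valuation (((u : B) : K) / e) ≤ 1 := fun u =>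
        (V.valuation_le_one_iff _).2 (dom.le _ (e3 _ (BT _) (hInF _ (ddiv hb u.2))))
      have h6 : ((r * ρ : B) : K) =
          ((decompose (wt B δ) x j : B) : K) / e * (algebraMap O B π : B) +
            ((decompose (wt B δ) y j : B) : K) / e * (zB i₀ : B) := by
        have := congrArg Subtype.val h5
        simp only [Subalgebra.coe_mul, Subalgebra.coe_add, ← r3] at this ⊢
        field_simp
        linear_combination -this
      refine mulq _ _ h2 r2 ((vq _).2 ?_)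
      rw [h6]
      refine V.valuation.map_add_lt ?_ ?_ <;> rw [map_mul]
      exacts [mul_lt_one_of_nonneg_of_lt_one_right (inV _) zero_le ((vq _).1 pq),
        mul_lt_one_of_nonneg_of_lt_one_right (inV _) zero_le ((vq _).1 sq)])
    (by
      obtain ⟨b, h1, h2, j, h3, h4⟩ := hex
      exact ⟨j, h3, ⟨b, h1⟩, h4, fun k => h2 (congrArg Subtype.val k)⟩)
  refine ⟨zB i₀, sq, w, w1, fun g ⟨a, k⟩ => ?_, fun g k => ?_⟩
  · have k1 : z i₀ * g / algebraMap O K π = algebraMap B K a := by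
      have := congrArg Subtype.val k
      simp only [Subalgebra.coe_mul, hzB, Subalgebra.coe_algebraMap] at this
      rw [this]; field_simp; rfl
    obtain ⟨a', r, h1, h2⟩ := (hpr (z i₀) g (hzB i₀ ▸ loc_map _ hq (zB i₀)) (loc_map _ hq g)
      (k1 ▸ loc_map _ hq a)).resolve_left hs
    refine ⟨r, h1, a', Subtype.ext ?_⟩
    change (g : K) / _ * r = a' at h2
    simp only [Subalgebra.coe_mul, Subalgebra.coe_algebraMap]
    rw [← h2]; field_simp
  · obtain ⟨r, -, h1, h2⟩ :=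
      (ma _).1 (w2 g ((ma _).2 ⟨1, SetLike.one_mem_graded _, one, by rwa [one_mul]⟩))
    exact ⟨r, h1, h2⟩

end Pool.Agent.P.MP_e7d440_ag.Z
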