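import Pool.Agent.P.MP_e7d440_ag.Z.IfaceB

/-! Step TORIC. -/

set_option autoImplicit false
set_option linter.unusedSectionVars false

namespace Pool.Agent.P.MP_e7d440_ag.Z

open IsLocalRing MvPolynomial U GrA

namespace ToricA

variable {O B : Type} [CommRing O] [CommRing B] [IsDomain B] [Algebra O B]
  (𝓑 : ℤ → Submodule O B) [GradedAlgebra 𝓑] {𝔞 : Ideal B}

theorem proj_mem (j : ℤ) (g : B) : GradedRing.proj 𝓑 j g ∈ 𝓑 j := SetLike.coe_mem _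

theorem proj_same {j : ℤ} {g : B} (h : g ∈ 𝓑 j) : GradedRing.proj 𝓑 j g = g :=
  DirectSum.decompose_of_mem_same 𝓑 h

theorem proj_mul {k : ℤ} {x : B} (h : x ∈ 𝓑 k) (j : ℤ) (g : B) :
    GradedRing.proj 𝓑 j (x * g) = x * GradedRing.proj 𝓑 (j - k) g := by
  have := DirectSum.coe_decompose_mul_add_of_left_mem 𝓑 (b := g) (j := j - k) h
  rwa [add_sub_cancel] at this

theorem nonnil [IsNoetherianRing B] (h2 : ∀ j, ∀ b ∈ 𝓑 j, b ≠ 0 → ∃ c ∈ 𝓑 j, c ∉ 𝔞) (ε : ℤ)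
    {j₀ : ℤ} (hj₀ : 0 < ε * j₀) {b₀ : B} (hb₀ : b₀ ∈ 𝓑 j₀) (h0 : b₀ ≠ 0) :
    ∃ k, 0 < ε * k ∧ ∃ x ∈ 𝓑 k, ∀ m : ℕ, x ^ m ∉ 𝔞 := by
  classical
  by_contra hc
  push Not at hc
  set J : Ideal B := Ideal.span {z | ∃ j, 0 < ε * j ∧ z ∈ 𝓑 j} with hJ
  have hfg : J.FG := IsNoetherian.noetherian J
  obtain ⟨T, hT, hTJ⟩ := (Submodule.fg_span_iff_fg_span_finset_subset _).1 hfg
  obtain ⟨N, hN⟩ := Ideal.exists_pow_le_of_le_radical_of_fg (I := J) (J := 𝔞)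
    (Ideal.span_le.2 fun z ⟨j, hj, hz⟩ => hc j hj z hz) hfg
  choose! dg hd1 hd2 using fun z (hz : z ∈ T) => hT hz
  obtain ⟨k₀, hk₀⟩ := (T.image fun z => ε * dg z).exists_le
  have key : ∀ (m : ℕ) (j : ℤ), (m * k₀.toNat : ℕ) < ε * j → ∀ b ∈ 𝓑 j, b ∈ J ^ m := by
    intro m
    induction m with
    | zero => intro j _ b _; simp
    | succ m ih =>
      intro j hj b hb
      have h1 : b ∈ Submodule.span B (T : Set B) :=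
        hTJ ▸ Ideal.subset_span ⟨j, lt_of_le_of_lt (Int.natCast_nonneg _) hj, hb⟩
      obtain ⟨f, -, hf⟩ := Submodule.mem_span_finset.1 h1
      rw [← proj_same 𝓑 hb, ← hf, map_sum]
      refine Ideal.sum_mem _ fun z hz => ?_
      rw [smul_eq_mul, mul_comm, proj_mul 𝓑 (hd2 z hz), pow_succ']
      refine Ideal.mul_mem_mul (Ideal.subset_span ⟨_, hd1 z hz, hd2 z hz⟩)
        (ih _ ?_ _ (proj_mem 𝓑 _ _))
      have := hk₀ _ (Finset.mem_image_of_mem _ hz)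
      have h3 := Int.self_le_toNat k₀
      rw [mul_sub]
      rw [Nat.succ_mul, Nat.cast_add] at hj
      omega
  obtain ⟨c, hc1, hc2⟩ := h2 _ _ (SetLike.pow_mem_graded (N * k₀.toNat + 1) hb₀) (pow_ne_zero _ h0)
  refine hc2 (hN (key N _ ?_ c hc1))
  rw [nsmul_eq_mul, Nat.cast_succ]
  nlinarith [Int.natCast_nonneg (N * k₀.toNat)]

theorem reg [IsIntegrallyClosed B]
    (h1 : ∀ j, ∀ b ∈ 𝓑 j, ∀ c ∈ 𝓑 j, b ∉ 𝔞 → ∃ r ∈ 𝓑 0, ∃ l ∈ 𝓑 0, NZD 𝔞 r ∧ r * c = l * b)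
    (h2 : ∀ j, ∀ b ∈ 𝓑 j, b ≠ 0 → ∃ c ∈ 𝓑 j, c ∉ 𝔞) (ε : ℤ) {k : ℤ} (hk : 0 < ε * k) {x : B}
    (hx : x ∈ 𝓑 k) (hn : ∀ m : ℕ, x ^ m ∉ 𝔞) {j : ℤ} (hj : 0 ≤ ε * j) {c : B} (hc : c ∈ 𝓑 j)
    (hca : c ∉ 𝔞) : x * c ∉ 𝔞 := by
  have hx0 : x ≠ 0 := fun h => hn 1 (by simp [h])
  have hc0 : c ≠ 0 := fun h => hca (by simp [h])
  obtain ⟨b, hb, hba⟩ := h2 _ _ (SetLike.mul_mem_graded hx hc) (mul_ne_zero hx0 hc0)
  obtain ⟨K, hK⟩ : ∃ K : ℕ, ε * k = (K + 1 : ℕ) := ⟨(ε * k - 1).toNat, by omega⟩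
  obtain ⟨L, hL⟩ : ∃ L : ℕ, ε * j = L := ⟨(ε * j).toNat, by omega⟩
  have e : (K + 1 + L) • k = (K + 1) • (k + j) := by
    rw [nsmul_eq_mul, nsmul_eq_mul, Nat.cast_add (K + 1), ← hK, ← hL]
    ring
  obtain ⟨r, hr, l, -, hnz, hrl⟩ := h1 _ _ (SetLike.pow_mem_graded (K + 1 + L) hx) _
    (e ▸ SetLike.pow_mem_graded (K + 1) hb) (hn _)
  obtain ⟨q, hq⟩ : x ∣ r * b := (IsIntegrallyClosed.pow_dvd_pow_iff (n := K + 1) (by omega)).1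
    ⟨r ^ K * l * x ^ L, by linear_combination r ^ K * hrl⟩
  have hrb : r * b ∈ 𝓑 (k + j) := by simpa using SetLike.mul_mem_graded hr hb
  have h3 : r * b = x * GradedRing.proj 𝓑 j q := by
    rw [← proj_same 𝓑 hrb, hq, proj_mul 𝓑 hx, add_sub_cancel_left]
  obtain ⟨r', -, l', -, hnz', hrl'⟩ := h1 _ _ hc _ (proj_mem 𝓑 j q) hca
  intro h
  refine hba (hnz _ (hnz' _ ?_))
  rw [show r' * (r * b) = l' * (x * c) by rw [h3]; linear_combination x * hrl']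
  exact 𝔞.mul_mem_left _ h

theorem side [IsNoetherianRing B] [IsIntegrallyClosed B]
    (h1 : ∀ j, ∀ b ∈ 𝓑 j, ∀ c ∈ 𝓑 j, b ∉ 𝔞 → ∃ r ∈ 𝓑 0, ∃ l ∈ 𝓑 0, NZD 𝔞 r ∧ r * c = l * b)
    (h2 : ∀ j, ∀ b ∈ 𝓑 j, b ≠ 0 → ∃ c ∈ 𝓑 j, c ∉ 𝔞) (ε : ℤ) (hε : ε ≠ 0) :
    ∃ k x, 0 < ε * k ∧ x ∈ 𝓑 k ∧ (∀ j, 0 < ε * j → ∀ c ∈ 𝓑 j, c ∉ 𝔞 → x * c ∉ 𝔞) ∧
      ((∃ j, 0 < ε * j ∧ ∃ b ∈ 𝓑 j, b ≠ 0) → ∀ c ∈ 𝓑 0, c ∉ 𝔞 → x * c ∉ 𝔞) := by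
  by_cases h : ∃ j, 0 < ε * j ∧ ∃ b ∈ 𝓑 j, b ≠ 0
  · obtain ⟨j₀, hj₀, b₀, hb₀, h0⟩ := h
    obtain ⟨k, hk, x, hx, hn⟩ := nonnil 𝓑 h2 ε hj₀ hb₀ h0
    exact ⟨k, x, hk, hx, fun j hj c hc hca => reg 𝓑 h1 h2 ε hk hx hn hj.le hc hca,
      fun _ c hc hca => reg 𝓑 h1 h2 ε hk hx hn (by simp) hc hca⟩
  · exact ⟨ε, 0, mul_self_pos.2 hε, zero_mem _,
      fun j hj c hc hca => absurd ⟨j, hj, c, hc, fun e => hca (by simp [e])⟩ h,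
      fun h' => absurd h' h⟩

end ToricA

open ToricA in
theorem p_TORIC :
    S_TORIC := by
  intro O B _ _ _ _ _ _ 𝓑 _ 𝔞 𝔮 ha hq h1 h2 h3
  classical
  obtain ⟨k, x, hk, hx, hx1, hx2⟩ := side 𝓑 h1 h2 1 one_ne_zero
  obtain ⟨k', y, hk', hy, hy1, hy2⟩ := side 𝓑 h1 h2 (-1) (by norm_num)
  refine ⟨x - y, sub_mem (hq k (by omega) x hx) (hq k' (by omega) y hy), fun g hg => ?_⟩
  by_contra hga
  set S := (DirectSum.decompose 𝓑 g).support.filter fun j => GradedRing.proj 𝓑 j g ∉ 𝔞 with hS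
  have hmem : ∀ j, j ∈ S ↔ GradedRing.proj 𝓑 j g ∉ 𝔞 := fun j => by
    rw [hS, Finset.mem_filter, GradedRing.mem_support_iff]
    exact ⟨fun h => h.2, fun h => ⟨fun e => h (by simp [e]), h⟩⟩
  have hne : S.Nonempty := by
    by_contra h
    refine hga (ha.mem_iff.2 fun j => ?_)
    by_contra h'
    exact h ⟨j, (hmem j).2 h'⟩
  have hz : ∀ j, x * GradedRing.proj 𝓑 (j - k) g - y * GradedRing.proj 𝓑 (j - k') g ∈ 𝔞 :=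
    fun j => by
      rw [← proj_mul 𝓑 hx, ← proj_mul 𝓑 hy, ← map_sub, ← sub_mul]
      exact ha j hg
  have hA : x * GradedRing.proj 𝓑 (S.max' hne) g ∈ 𝔞 := by
    have h4 := hz (S.max' hne + k)
    have h5 : GradedRing.proj 𝓑 (S.max' hne + k - k') g ∈ 𝔞 := by
      by_contra h
      have := S.le_max' _ ((hmem _).2 h)
      omega
    rw [add_sub_cancel_right] at h4
    simpa using add_mem h4 (𝔞.mul_mem_left y h5)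
  have hB : y * GradedRing.proj 𝓑 (S.min' hne) g ∈ 𝔞 := by
    have h4 := hz (S.min' hne + k')
    have h5 : GradedRing.proj 𝓑 (S.min' hne + k' - k) g ∈ 𝔞 := by
      by_contra h
      have := S.min'_le _ ((hmem _).2 h)
      omega
    rw [add_sub_cancel_right] at h4
    simpa using sub_mem (𝔞.mul_mem_left x h5) h4
  have hA' := (hmem _).1 (S.max'_mem hne)
  have hB' := (hmem _).1 (S.min'_mem hne)
  have hle := S.min'_le _ (S.max'_mem hne)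
  by_cases e1 : 0 < S.max' hne
  · exact hx1 _ (by omega) _ (proj_mem 𝓑 _ g) hA' hA
  by_cases e2 : S.min' hne < 0
  · exact hy1 _ (by omega) _ (proj_mem 𝓑 _ g) hB' hB
  have e3 : S.max' hne = 0 := by omega
  have e4 : S.min' hne = 0 := by omega
  rw [e3] at hA hA'
  rw [e4] at hB
  obtain ⟨j, hj, hb⟩ := h3
  rcases lt_or_gt_of_ne hj with h | h
  · exact hy2 ⟨j, by omega, hb⟩ _ (proj_mem 𝓑 _ g) hA' hB
  · exact hx2 ⟨j, by omega, hb⟩ _ (proj_mem 𝓑 _ g) hA' hA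

end Pool.Agent.P.MP_e7d440_ag.Z
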