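import Pool.Agent.P.MP_e7d440_ag.Z.TFROB
import Pool.Agent.P.MP_e7d440_ag.Z.TSYZ
import Pool.Agent.P.MP_e7d440_ag.Z.TPSI
import Pool.Agent.P.MP_e7d440_ag.Z.TCART
import Pool.Agent.P.MP_e7d440_ag.Z.TSPL
import Pool.Agent.P.MP_e7d440_ag.Z.TLOC
import Pool.Agent.P.MP_e7d440_ag.Z.TFACT
import Pool.Agent.P.MP_e7d440_ag.Z.TLA
import Pool.Agent.P.MP_e7d440_ag.Z.TLB
import Pool.Agent.P.MP_e7d440_ag.Z.TREFL
import Pool.Agent.P.MP_e7d440_ag.Z.TTD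
import Pool.Agent.P.MP_e7d440_ag.Z.TGRADE
import Pool.Agent.P.MP_e7d440_ag.Z.TDEP
import Pool.Agent.P.MP_e7d440_ag.Z.TPDEP
import Pool.Agent.P.MP_e7d440_ag.Z.TCFIN
import Pool.Agent.P.MP_e7d440_ag.Z.TCS2
import Pool.Agent.P.MP_e7d440_ag.Z.TCFR
import Pool.Agent.P.MP_e7d440_ag.Z.TCFS
import Pool.Agent.P.MP_e7d440_ag.Z.TCORE
import Pool.Agent.P.MP_e7d440_ag.Z.TMT
import Pool.Agent.P.MP_e7d440_ag.Z.TNCF
import Pool.Agent.P.MP_e7d440_ag.Z.TRES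
import Pool.Agent.P.MP_e7d440_ag.Z.TCHN
import Pool.Agent.P.MP_e7d440_ag.Z.TCONST
import Pool.Agent.P.MP_e7d440_ag.Z.THOM
import Pool.Agent.P.MP_e7d440_ag.Z.TGRN
import Pool.Agent.P.MP_e7d440_ag.Z.TKER
import Pool.Agent.P.MP_e7d440_ag.Z.THS0
import Pool.Agent.P.MP_e7d440_ag.Z.THS1
import Pool.Agent.P.MP_e7d440_ag.Z.THSOP
import Pool.Agent.P.MP_e7d440_ag.Z.TH2
import Pool.Agent.P.MP_e7d440_ag.Z.TTORIC
import Pool.Agent.P.MP_e7d440_ag.Z.TCYC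
import Pool.Agent.P.MP_e7d440_ag.Z.TTOR
import Pool.Agent.P.MP_e7d440_ag.Z.TSLV
import Pool.Agent.P.MP_e7d440_ag.Z.TSLD
import Pool.Agent.P.MP_e7d440_ag.Z.TPRM
import Pool.Agent.P.MP_e7d440_ag.Z.TALG2
import Pool.Agent.P.MP_e7d440_ag.Z.TFA
import Pool.Agent.P.MP_e7d440_ag.Z.TFCH
import Pool.Agent.P.MP_e7d440_ag.Z.TSPEC2
import Pool.Agent.P.MP_e7d440_ag.Z.TCMF2

/-! The commutative algebra, assembled. -/

set_option autoImplicit false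

namespace Pool.Agent.P.MP_e7d440_ag.Z

theorem q_FROB : S_FROB := p_FROB
theorem q_SYZ : S_SYZ := p_SYZ q_FROB
theorem q_PSI : S_PSI := p_PSI q_FROB
theorem q_CART : S_CART := p_CART
theorem q_SPL : S_SPL := p_SPL q_CART
theorem q_LOC : S_LOC := p_LOC q_PSI
theorem q_FACT : S_FACT := p_FACT
theorem q_LA : S_LA := p_LA
theorem q_LB : S_LB := p_LB q_LA
theorem q_REFL : S_REFL := p_REFL q_FACT
theorem q_TD : S_TD := p_TD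
theorem q_GRADE : S_GRADE := p_GRADE
theorem q_DEP : S_DEP := p_DEP
theorem q_PDEP : S_PDEP := p_PDEP q_TD q_GRADE q_DEP
theorem q_CFIN : S_CFIN := p_CFIN q_TD q_FACT
theorem q_CS2 : S_CS2 := p_CS2 q_TD
theorem q_CFR : S_CFR := p_CFR q_SYZ q_FACT
theorem q_CFS : S_CFS := p_CFS q_SYZ q_FACT
theorem q_CORE : S_CORE := p_CORE q_TD q_GRADE q_LB q_REFL q_CFIN q_CS2 q_CFR q_CFS
theorem q_MT : S_MT := p_MT q_TD q_SPL q_LOC q_PDEP q_CORE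
theorem q_NCF : S_NCF := p_NCF
theorem q_RES : S_RES := p_RES q_TD
theorem q_CHN : S_CHN := p_CHN
theorem q_CONST : S_CONST := p_CONST
theorem q_HOM : S_HOM := p_HOM
theorem q_GRN : S_GRN := p_GRN q_HOM q_NCF
theorem q_KER : S_KER := p_KER q_HOM
theorem q_HS0 : S_HS0 := p_HS0 q_TD
theorem q_HS1 : S_HS1 := p_HS1
theorem q_HSOP : S_HSOP := p_HSOP q_TD q_HOM q_NCF q_HS0 q_HS1
theorem q_H2 : S_H2 := p_H2
theorem q_TORIC : S_TORIC := p_TORIC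
theorem q_CYC : S_CYC := p_CYC q_H2
theorem q_TOR : S_TOR := p_TOR q_HOM q_NCF q_CYC q_TORIC
theorem q_SLV : S_SLV := p_SLV q_NCF q_RES q_CHN
theorem q_SLD : S_SLD := p_SLD q_DEP q_NCF q_CHN q_CONST q_HOM q_GRN q_KER q_TOR
theorem q_PRM : S_PRM := p_PRM q_NCF q_RES q_CHN
theorem q_ALG2 : S_ALG2 := p_ALG2 q_TD q_PDEP q_MT q_NCF q_CHN q_HSOP q_SLV q_SLD q_PRM
theorem q_FA : S_FA := p_FA
theorem q_FCH : S_FCH := p_FCH q_FA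
theorem q_SPEC2 : S_SPEC2 := p_SPEC2 q_NCF q_FA q_FCH
theorem q_CMF2 : S_CMF2 := p_CMF2 q_GRADE

end Pool.Agent.P.MP_e7d440_ag.Z
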