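import Pool.Agent.P.MP_e7d440_ag.Z.IfaceG

/-! Step ACT. -/

set_option autoImplicit false
set_option linter.unusedSectionVars false

namespace Pool.Agent.P.MP_e7d440_ag.Z

open Pool.Agent.P.MP_e7d440_ag.U TensorProduct LieAlgebra LaurentPolynomial Set

variable {L Φ Δ : Type} [LieRing L] [LieAlgebra ℚ L] [Fintype Φ] [Fintype Δ] [DecidableEq Φ]
  [DecidableEq Δ] (c : CD L Φ Δ) {K : Type} [Field K] [CharZero K] (ζ : K)
  {J : Type} [Fintype J] [DecidableEq J] (s : J → K)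

theorem p_ACT (h : T3 c ζ s) (hGN : S_GN c ζ s) :
    S_ACT c ζ s := by
  have lat : ∀ (g : Op L K) (U : J → Submodule K (G L K)) (x x' : L), Un c ζ g x x' →
      (∀ j, c.FD (U j)) → ∀ f, g f ∈ Lat c ζ s (actE s g U) x ↔ f ∈ Lat c ζ s U x :=
    fun g U x x' hg hU f => ⟨fun k => have k1 := (h.leg.leg U g hU hg.la f).1 k.1
      ⟨k1, (hg.sup 0 f k1.1).1 k.2⟩,
      fun k => ⟨(h.leg.leg U g hU hg.la f).2 k.1, (hg.sup 0 f k.1.1).2 k.2⟩⟩
  have low : ∀ (g : Op L K) (x x' : L), Un c ζ g x x' → ∀ r, ∀ f ∈ c.Eqv ζ,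
      g f ∈ c.Sup x' (Iio r) ↔ f ∈ c.Sup x' (Iio r) :=
    fun g x x' hg r f hf => (h.la.low_iff x' g hg.low r f hf).2
  have sur : ∀ (g : Op L K), c.LA ζ g → ∀ f, ∃ f', g f' = f := fun g hg f => by
    obtain ⟨g', -, e, -⟩ := h.la.ex_inv g hg
    exact ⟨g' f, by rw [← Module.End.mul_apply, e, Module.End.one_apply]⟩
  refine ⟨fun g g' x x' a b => ⟨h.la.mul _ _ a.la b.la, fun r f hf =>
      (a.sup r _ ((b.la.eqv f).2 hf)).trans (b.sup r f hf), h.la.low_mul _ _ _ b.la a.low b.low⟩,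
    fun g g' x x' a e => ⟨(h.la.inv _ _ a.la e).1, fun r f hf => ?_, h.la.low_inv _ _ _ a.la e a.low⟩,
    fun x x' n a y hx hx' ha => ⟨h.la.pf a y 0, fun r f hf => (h.aut1.cl _ _ _ _ h.wall.reg_ρ hx
      (h.la.aut_pf a y 0 _ c.fix_ρ fun k => (ha k).1) r f hf).1,
      h.la.low_pf a y 0 _ hx' fun k => (ha k).2⟩,
    fun x x' a t hx hx' h1 h2 => ⟨h.la.exE a t, fun r f hf => (h.aut1.cl _ _ _ _ h.wall.reg_ρ hx
      (h.la.aut_exE a t _ c.fix_ρ h1) r f hf).1, h.la.low_exE a t _ hx' h2⟩,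
    fun x x' z n a C => ?_, lat, fun g U x x' y f hg hU hy => ?_, fun g U x x' hg B => ?_,
    fun g U x x' S hg B hS hs hi hG => ?_⟩
  · rw [← a.sup r _ (((h.la.inv _ _ a.la e).1.eqv f).2 hf), ← Module.End.mul_apply, e,
      Module.End.one_apply]
  · have k : ∀ a', c.Valid ζ a' → c.val a' x' < 0 → c.val a' z < 0 := fun a' h1 h2 =>
      lt_of_le_of_ne (not_lt.1 fun e => not_le.2 h2 (C.cl'.2 a' h1 e)) (C.reg.2 a' h1)
    have m := h.gal.mem _ _ _ _ C.reg C.gal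
    refine ⟨C.cl'.1, fun l => ⟨(m l).1, (m l).2.1, C.neg l, (m l).2.2⟩, fun a' h1 h2 h3 =>
      h.gal.all _ _ _ _ C.reg c.fix_ρ C.gal a' h1 h2 (k a' h1 h3), fun f hf =>
      h.gal.span _ _ _ _ C.reg c.fix_ρ C.gal f hf.1 hf.2.1 ?_⟩
    rintro ⟨m, α | i⟩ hb
    · exact k (α, m) (h.rt2.of_co f hf.1 (α, m) hb) (hf.2.2 _ hb)
    · simpa only [c.wt_inr] using hf.2.2 _ hb
  · rw [FH, FH, lat g U x x' hg hU]
    refine and_congr_right fun hf => ?_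
    have k := hg.low _ _ (tN_eqv (J := J) h.toT3a hy)
      (c.Sup_mono (by simp) (tN_sup h.toT3a x' hy) : _ ∈ c.Sup x' (Iic (c.dg J : ℚ)))
    rw [← low g x x' hg _ _ (sub_mem hf.1.1 (tN_eqv h.toT3a hy)), map_sub]
    exact ⟨fun e => by simpa using sub_mem e k, fun e => by simpa using add_mem e k⟩
  · refine ⟨fun j => (h.la.act_fd s h.pt.ne g U hg.la j (B.fd j)).1, B.fix, B.fix', B.lo, B.hi,
      fun f h1 h2 => ?_, fun e h1 _ => ?_⟩
    · obtain ⟨f, rfl⟩ := sur g hg.la f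
      have k := (lat g U x x' hg B.fd f).1 h1
      rw [B.uniq f k ((low g x x' hg _ f k.1.1).1 h2), map_zero]
    · obtain ⟨e, rfl⟩ := sur g hg.la e
      have k := (hg.la.eqv e).1 h1
      have k1 := h.sup.pr_wt x' (Ici (c.dg J : ℚ)) e
      rw [compl_Ici] at k1
      obtain ⟨f, f1, f2⟩ := B.ex _ (h.eqv.pr_wt x' _ B.fix' e k) k1.1
      refine ⟨g f, (lat g U x x' hg B.fd f).2 f1, ?_⟩
      rw [← map_sub, low g x x' hg _ _ (sub_mem f1.1.1 k)]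
      simpa using sub_mem f2 k1.2
  · rintro _ ⟨a, b, f, -, -, -, h1, h2, rfl⟩
    obtain ⟨f, rfl⟩ := sur g hg.la f
    obtain ⟨e, he⟩ := sur g hg.la (bv c ζ a)
    have k := (lat g U x x' hg B.fd f).1 h1
    have k1 := (hg.la.eqv e).1 (he ▸ bv_eqv h.toT3a a)
    rw [← he, ← map_sub, low g x x' hg _ _ (sub_mem k.1.1 k1)] at h2
    refine (hi f k.1.1).2 (hGN.int U x x' S S B hS hs hG (SM.self S) f k fun b hb => ?_) b
    have k2 : c.co b (f - e) = 0 := by_contra fun e => not_le.2 (mem_Iio.1 (h2 b e)) hb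
    rw [map_sub, sub_eq_zero] at k2
    rw [k2]
    exact (hi e k1).1 (he ▸ bv_in h.toT3a hS a) b

end Pool.Agent.P.MP_e7d440_ag.Z
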