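import Pool.Agent.P.MP_e7d440_ag.Z.IfaceT
import Pool.Agent.P.MP_e7d440_ag.U.Resd
import Pool.Agent.P.MP_e7d440_ag.U.Wloc

/-! Step ARCH. -/

set_option autoImplicit false
set_option linter.unusedSectionVars false

namespace Pool.Agent.P.MP_e7d440_ag.Z

open Pool.Agent.P.MP_e7d440_ag.U MvPolynomial IsLocalRing

namespace ARCHA

variable {A K : Type} [CommRing A] [Field K] [Algebra A K] {𝔮 : Ideal A}
  {V : ValuationSubring K}

/-- `V` has centre `𝔮` -/
def Ce (𝔮 : Ideal A) (V : ValuationSubring K) : Prop :=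
  (∀ a, V.valuation (algebraMap A K a) ≤ 1) ∧ ∀ a, V.valuation (algebraMap A K a) < 1 ↔ a ∈ 𝔮

theorem val_one (h : Ce 𝔮 V) {b : A} (hb : b ∉ 𝔮) : V.valuation (algebraMap A K b) = 1 :=
  le_antisymm (h.1 b) (not_lt.1 fun h3 => hb ((h.2 b).1 h3))

theorem val_eq (h : Ce 𝔮 V) {c : K} {a b : A} (hb : b ∉ 𝔮)
    (e : c * algebraMap A K b = algebraMap A K a) :
    V.valuation c = V.valuation (algebraMap A K a) := by
  rw [← e, map_mul, val_one h hb, mul_one]

theorem loc_mem (h : Ce 𝔮 V) {c : K} (hc : loc (algebraMap A K) 𝔮 c) : c ∈ V := by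
  obtain ⟨a, b, hb, e⟩ := hc
  rw [← V.valuation_le_one_iff, val_eq h hb e]
  exact h.1 a

theorem exists_ce (hq : 𝔮.IsPrime) (hi : Function.Injective (algebraMap A K)) :
    ∃ V : ValuationSubring K, Ce 𝔮 V := by
  obtain ⟨R, V, hR, hD⟩ := U.resd.dom (K := K) 𝔮 hq hi
  have h1 : ∀ a, V.valuation (algebraMap A K a) ≤ 1 := fun a =>
    (V.valuation_le_one_iff _).2 (hD.le _ ((hR _).2 (loc_map _ hq a)))
  refine ⟨V, h1, fun a => ⟨fun h => ?_, fun h => ?_⟩⟩
  · by_contra ha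
    have h0 : algebraMap A K a ≠ 0 := fun e => ha (by
      rw [hi (e.trans (map_zero _).symm)]; exact 𝔮.zero_mem)
    have h2 : (algebraMap A K a)⁻¹ ∈ V :=
      hD.le _ ((hR _).2 ⟨1, a, ha, by rw [map_one, inv_mul_cancel₀ h0]⟩)
    have h3 := (V.valuation_le_one_iff _).2 h2
    have h4 : V.valuation (algebraMap A K a) * V.valuation (algebraMap A K a)⁻¹ = 1 := by
      rw [← map_mul, mul_inv_cancel₀ h0, map_one]
    exact (lt_of_le_of_lt (mul_le_of_le_one_right' h3) h).ne h4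
  · by_contra hn
    have h0 : algebraMap A K a ≠ 0 := fun e => hn (by rw [e, map_zero]; exact zero_lt_one)
    obtain ⟨c, b, hb, e⟩ := (hR _).1 (hD.inv _ ((hR _).2 (loc_map _ hq a))
      fun h2 => hn (V.mem_nonunits_iff.1 h2))
    apply hb
    have : b = a * c := hi (by rw [map_mul, ← e]; field_simp)
    rw [this]
    exact 𝔮.mul_mem_right _ h

theorem exists_arch [IsDomain A] [IsNoetherianRing A] [IsFractionRing A K] (hq : 𝔮.IsPrime)
    (h0 : 𝔮 ≠ ⊥) : ∃ V : ValuationSubring K, Ce 𝔮 V ∧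
      ∀ c ∈ 𝔮, ∀ γ : K, ∃ M : ℕ, algebraMap A K c ^ M * γ ∈ V := by
  classical
  have hi : Function.Injective (algebraMap A K) := IsFractionRing.injective A K
  obtain ⟨V₀, hV₀⟩ := exists_ce (K := K) hq hi
  obtain ⟨s, hs⟩ : 𝔮.FG := IsNoetherian.noetherian 𝔮
  have hne : (s.filter (· ≠ 0)).Nonempty := by
    by_contra hn
    apply h0
    rw [← hs, Ideal.span_eq_bot]
    intro y hy
    by_contra hy0
    exact hn ⟨y, Finset.mem_filter.2 ⟨hy, hy0⟩⟩
  obtain ⟨x, hx, hmax⟩ := Finset.exists_max_image _ (fun y => V₀.valuation (algebraMap A K y)) hne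
  obtain ⟨hxs, hx0⟩ := Finset.mem_filter.1 hx
  have hxK : algebraMap A K x ≠ 0 := fun e => hx0 (hi (e.trans (map_zero _).symm))
  have hxq : x ∈ 𝔮 := hs ▸ Ideal.subset_span hxs
  let Z : Finset K := s.image fun y => algebraMap A K y / algebraMap A K x
  let B : Subalgebra A K := Algebra.adjoin A (Z : Set K)
  have : Algebra.FiniteType A B := (Subalgebra.fg_iff_finiteType _).1 ⟨Z, rfl⟩
  have : IsNoetherianRing B := Algebra.FiniteType.isNoetherianRing A B
  have hBV : ∀ b : B, (b : K) ∈ V₀ := by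
    rintro ⟨b, hb⟩
    induction hb using Algebra.adjoin_induction with
    | mem z hz =>
      obtain ⟨y, hy, rfl⟩ := Finset.mem_image.1 hz
      rw [← V₀.valuation_le_one_iff, map_div₀]
      refine div_le_one_of_le₀ ?_ zero_le
      by_cases hy0 : y = 0
      · simp [hy0]
      · exact hmax y (Finset.mem_filter.2 ⟨hy, hy0⟩)
    | algebraMap a => exact (V₀.valuation_le_one_iff _).1 (hV₀.1 a)
    | add a b _ _ ha hb => exact V₀.add_mem _ _ ha hb
    | mul a b _ _ ha hb => exact V₀.mul_mem _ _ ha hb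
  let f : B →+* V₀ := (B.val : B →+* K).codRestrict V₀ hBV
  let 𝔫 : Ideal B := (maximalIdeal V₀).comap f
  have hn : ∀ a : A, algebraMap A B a ∈ 𝔫 ↔ a ∈ 𝔮 := fun a => by
    rw [← hV₀.2 a]
    exact V₀.valuation_lt_one_iff (f (algebraMap A B a))
  obtain ⟨𝔭, hp, hpn⟩ := Ideal.exists_minimalPrimes_le (I := Ideal.span {algebraMap A B x})
    (J := 𝔫) ((Ideal.span_singleton_le_iff_mem _).2 ((hn x).2 hxq))
  have hpp : 𝔭.IsPrime := hp.isPrime
  have hxp : algebraMap A B x ∈ 𝔭 := (Ideal.span_singleton_le_iff_mem _).1 hp.le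
  have hht : 𝔭.height = 1 := by
    refine le_antisymm (Ideal.height_le_one_of_isPrincipal_of_mem_minimalPrimes _ _ hp) ?_
    rw [Order.one_le_iff_ne_zero, Ne, Ideal.height_eq_zero_iff_eq_bot]
    intro e
    rw [e, Ideal.mem_bot] at hxp
    exact hxK (congrArg Subtype.val hxp)
  have hqp : ∀ a : A, algebraMap A B a ∈ 𝔭 ↔ a ∈ 𝔮 := by
    refine fun a => ⟨fun h => (hn a).1 (hpn h), fun h => ?_⟩
    have : 𝔮 ≤ 𝔭.comap (algebraMap A B) := by
      rw [← hs, Ideal.span_le]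
      intro y hy
      have hz : algebraMap A K y / algebraMap A K x ∈ B :=
        Algebra.subset_adjoin (Finset.mem_coe.2 (Finset.mem_image_of_mem _ hy))
      have e : algebraMap A B y = algebraMap A B x * ⟨_, hz⟩ := by
        apply Subtype.ext
        change algebraMap A K y = algebraMap A K x * (algebraMap A K y / algebraMap A K x)
        field_simp
      change algebraMap A B y ∈ 𝔭
      rw [e]
      exact 𝔭.mul_mem_right _ hxp
    exact this h
  obtain ⟨V, hV⟩ := exists_ce (K := K) hpp (IsFractionRing.injective B K)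
  refine ⟨V, ⟨fun a => hV.1 (algebraMap A B a), fun a => (hV.2 (algebraMap A B a)).trans (hqp a)⟩,
    fun c hc γ => ?_⟩
  obtain ⟨M, hM⟩ := U.hloc.arch (K := K) 𝔭 hpp hht _ ((hqp c).2 hc) γ
  exact ⟨M, loc_mem hV hM⟩

end ARCHA

theorem p_ARCH :
    S_ARCH := by
  intro A K _ _ _ _ _ _ 𝔮 hq h0
  have hi : Function.Injective (algebraMap A K) := IsFractionRing.injective A K
  obtain ⟨V, hV, harch⟩ := ARCHA.exists_arch (K := K) hq h0
  obtain ⟨T, -, hT, -⟩ := U.resd.dom (K := K) 𝔮 hq hi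
  refine ⟨T, V, hT, ⟨fun γ h => ARCHA.loc_mem hV ((hT γ).1 h), fun γ h hn => ?_⟩,
    fun γ h => ⟨fun hn => ?_, fun hm => ?_⟩, fun a h hn ha γ => ?_⟩
  · obtain ⟨a, b, hb, e⟩ := (hT γ).1 h
    rw [V.mem_nonunits_iff, ARCHA.val_eq hV hb e, hV.2] at hn
    have hγ : γ ≠ 0 := fun e0 => hn (by
      rw [hi (e.symm.trans (by rw [e0, zero_mul, map_zero]) : algebraMap A K a = algebraMap A K 0)]
      exact 𝔮.zero_mem)
    exact (hT _).2 ⟨b, a, hn, by rw [← e]; field_simp⟩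
  · obtain ⟨a, b, hb, e⟩ := (hT γ).1 h
    rw [V.mem_nonunits_iff, ARCHA.val_eq hV hb e, hV.2] at hn
    exact ⟨a, b, hn, hb, e⟩
  · obtain ⟨a, b, ha, hb, e⟩ := hm
    rw [V.mem_nonunits_iff, ARCHA.val_eq hV hb e, hV.2]
    exact ha
  · obtain ⟨c, b, hb, e⟩ := (hT a).1 h
    have hv := ARCHA.val_eq hV hb e
    rw [V.mem_nonunits_iff, hv, hV.2] at hn
    obtain ⟨M, hM⟩ := harch c hn γ
    refine ⟨M, ?_⟩
    rw [← V.valuation_le_one_iff] at hM ⊢
    rwa [map_mul, map_pow, hv, ← map_pow, ← map_mul]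

end Pool.Agent.P.MP_e7d440_ag.Z
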