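import Pool.Agent.P.MP_e7d440_ag.Z.IfaceG

/-! Step BIG. -/

set_option autoImplicit false
set_option linter.unusedSectionVars false

namespace Pool.Agent.P.MP_e7d440_ag.Z

open Pool.Agent.P.MP_e7d440_ag.U TensorProduct LieAlgebra LaurentPolynomial Set

variable {L Φ Δ : Type} [LieRing L] [LieAlgebra ℚ L] [Fintype Φ] [Fintype Δ] [DecidableEq Φ]
  [DecidableEq Δ] (c : CD L Φ Δ) {K : Type} [Field K] [CharZero K] (ζ : K)
  {J : Type} [Fintype J] [DecidableEq J] (s : J → K)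

namespace BIGA

variable {c ζ s}

lemma prim_zero (h : T3 c ζ s) (V : ValuationSubring K) {f : LG L K}
    (H : ∀ t : K, c.In V (t • f) → c.In V.nonunits (t • f)) : f = 0 := by
  by_contra h0
  obtain ⟨t, -, h1, a, h2⟩ := h.sup.prim V f h0
  have := H t h1 a
  rw [h2] at this
  simpa using V.mem_nonunits_iff.1 this

lemma sep {V : ValuationSubring K} {z : L} {P P' : Set ℚ} {f g : LG L K} (hf : f ∈ c.Sup z P)
    (hg : g ∈ c.Sup z P') (hP : ∀ p ∈ P, p ∉ P') (H : c.In V.nonunits (f - g)) :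
    c.In V.nonunits f := fun b => by
  by_cases e : c.co b f = 0
  · rw [e]
    exact V.nonunits.zero_mem
  · have k : c.co b g = 0 := by_contra fun k => hP _ (hf b e) (hg b k)
    simpa [k] using H b

lemma phi_cong (h : T3 c ζ s) {V : ValuationSubring K} (hs : ∀ j, s j ∈ V.nonunits) (n : ℤ) :
    (c.phi s ^ 2 - T (2 * c.dg J : ℤ)).coeff n ∈ V.nonunits := by
  obtain ⟨S, M, hM, h1, h2, -⟩ := h.sup.in_lift V.toSubring V.nonunits (SM.nonunits V)
  have hT : ∀ m : ℤ, (T m : LP K) ∈ S := fun m => (h1 _).2 fun n => by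
    rw [T_apply]
    split_ifs
    exacts [one_mem _, zero_mem _]
  have hC : ∀ j, (C (s j ^ c.ℓ) : LP K) ∈ S ∧ (C (s j ^ c.ℓ) : LP K) ∈ M := fun j => by
    have k : s j ^ c.ℓ ∈ V.nonunits := by
      rw [← Nat.sub_add_cancel c.ℓ_pos, pow_succ]
      exact (SM.nonunits V).mul _ (pow_mem (V.nonunits_subset (hs j)) _) _ (hs j)
    refine ⟨(h1 _).2 fun n => ?_, (h2 _).2 fun n => ?_⟩ <;> rw [C_apply] <;> split_ifs
    exacts [V.nonunits_subset k, zero_mem _, k, V.nonunits.zero_mem]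
  have key : ∀ t : Finset J, ∏ j ∈ t, (T c.ℓ - C (s j ^ c.ℓ) : LP K) -
      T ((c.ℓ * t.card : ℕ) : ℤ) ∈ M := fun t => by
    induction t using Finset.induction_on with
    | empty => simpa using hM.zero
    | insert j t hj ih =>
      have := hM.sub (hM.mul _ (S.sub_mem (hT c.ℓ) (hC j).1) _ ih)
        (hM.mul _ (hT ((c.ℓ * t.card : ℕ) : ℤ)) _ (hC j).2)
      rw [Finset.prod_insert hj, Finset.card_insert_of_notMem hj, mul_add, mul_one, Nat.cast_add,
        T_add]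
      convert this using 1
      ring
  have k := hM.mul _ (S.add_mem ((h1 _).2 (h.div.phi_int V.toSubring fun j =>
    V.nonunits_subset (hs j)).1) (hT (c.dg J))) _ (key Finset.univ)
  refine (h2 _).1 ?_ n
  convert k using 1
  rw [two_mul, T_add, CD.phi, CD.dg, Finset.card_univ]
  ring

end BIGA

open BIGA in
theorem p_BIG (h : T3 c ζ s) (hNAK : S_NAK c ζ s) (hGN : S_GN c ζ s) :
    S_BIG c ζ s := by
  intro V U g x x' hV hs hU hx hx' hg hi hR
  obtain ⟨g', hg', e1, e2⟩ := h.la.ex_inv g hg.la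
  have c1 : ∀ f, g (g' f) = f := fun f => by rw [← Module.End.mul_apply, e1, Module.End.one_apply]
  have c2 : ∀ f, g' (g f) = f := fun f => by rw [← Module.End.mul_apply, e2, Module.End.one_apply]
  have i1 : c.IntE ζ V g := fun f hf k => (hi f hf).2 k
  have i2 : c.IntE ζ V g' := fun f hf k => (h.la.int_inv _ _ _ hg.la e1 hi f hf).2 k
  have m1 := h.la.intE_m V g i1
  have m2 := h.la.intE_m V g' i2
  have ge := fun f => (hg.la.eqv f).2
  have ge' := fun f => (hg'.eqv f).2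
  obtain ⟨R1, R2⟩ := hR 0
  rw [zero_add] at R1 R2
  obtain ⟨-, aV, -⟩ := h.sup.in_add V.toSubring V (SM.val V)
  obtain ⟨-, aM, -⟩ := h.sup.in_add V.toSubring V.nonunits (SM.nonunits V)
  have pV := (h.div.phi_int V.toSubring fun j => V.nonunits_subset (hs j)).2
  have sq : ∀ q ∈ c.Sup x (Ici 0), c.phi s ^ 2 • q ∈ c.Sup x (Ici 0) := fun q hq =>
    h.sup.smul x _ _ _ _ hq fun n hn p hp =>
      add_nonneg (mem_Ici.1 hp) (Int.cast_nonneg (h.div.mon_sq.1 n hn).1)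
  have lo : ∀ f ∈ c.Eqv ζ, f ∈ c.Sup x' (Ici (c.dg J : ℚ)) → f ∈ c.Sup x (Ici 0) := by
    intro e he h1
    have k := h.sup.pr_wt x (Iio 0) e
    have k0 : c.pr (fun a => c.wt x a ∈ Iio 0) e = 0 := prim_zero h V fun t ht => by
      have k1 := Submodule.smul_mem _ t (h.eqv.pr_wt x (Iio 0) hx e he)
      obtain ⟨f, f1, f2, -, f4⟩ := R2 _ k1 (Submodule.smul_mem _ t (h.sup.pr_sup _ _ _ _ h1)) ht
      have k2 := m2 _ (sub_mem f1.1 (ge _ k1)) f4
      rw [map_sub, c2] at k2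
      refine sep (Submodule.smul_mem _ t k.1) ((hg.sup 0 _ (ge' _ f1.1)).1 ((c1 f).symm ▸ f2))
        (fun p a b => not_le.2 (mem_Iio.1 a) b) fun b => ?_
      simpa using V.nonunits.neg_mem (k2 b)
    rw [k0, sub_zero, compl_Iio] at k
    exact k.2
  have hi' : ∀ f ∈ c.Eqv ζ, f ∈ c.Sup x (Ici (2 * c.dg J : ℚ)) →
      f ∈ c.Sup x' (Ici (c.dg J : ℚ)) := by
    intro e he h1
    have k := h.sup.pr_wt x' (Iio (c.dg J : ℚ)) e
    have k0 : c.pr (fun a => c.wt x' a ∈ Iio (c.dg J : ℚ)) e = 0 := prim_zero h V fun t ht => by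
      have k1 := Submodule.smul_mem _ t (h.eqv.pr_wt x' (Iio (c.dg J : ℚ)) hx' e he)
      have k2 := (hg.sup _ _ k1).2 (Submodule.smul_mem _ t (h.sup.pr_sup _ _ _ _ h1))
      generalize hw : t • c.pr (fun a => c.wt x' a ∈ Iio (c.dg J : ℚ)) e = w at *
      have k3 := (h.eqv.T_iff (-(2 * c.dg J : ℤ)) _
        (dvd_neg.2 (h.div.dg_dvd.mul_left 2))).2 (ge _ k1)
      have k4 := (h.sup.in_T V (-(2 * c.dg J : ℤ)) _).2 (i1 _ k1 ht)
      obtain ⟨f₀, f1, f2, -, f4⟩ := R1 _ (h.div.nn_sq U _ k3) (sq _ ((h.sup.sup_T _ _ _ _).2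
        (c.Sup_mono (fun q hq => by simpa using hq) k2)))
        ((h.sup.in_smul _ _ _ _ (SM.val V)).1 pV k4)
      have k5 := (aM _ _ f4 ((h.sup.in_smul _ _ _ _ (SM.nonunits V)).2 (phi_cong h hs) k4)).2
      rw [sub_smul, smul_smul (T _), ← T_add, add_neg_cancel, T_zero, one_smul,
        sub_sub_sub_cancel_left, ← map_sub] at k5
      have k6 := m2 _ (ge _ (sub_mem k1 f1)) k5
      rw [c2] at k6
      exact sep (hw ▸ Submodule.smul_mem _ t k.1) f2 (fun p a b => not_le.2 (mem_Iio.1 a) b) k6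
    rw [k0, sub_zero, compl_Iio] at k
    exact k.2
  have uq : ∀ f ∈ Lat c ζ s U x, f ∈ c.Sup x' (Iio (c.dg J : ℚ)) → f = 0 := fun f h1 h2 =>
    prim_zero h V fun t ht => by
      have k1 := Submodule.smul_mem _ t h1
      obtain ⟨f₀, f1, f2, -, f4⟩ := R1 _ k1.1 k1.2 ht
      have k2 := m2 _ (sub_mem k1.1.1 (ge _ f1)) f4
      rw [map_sub, c2] at k2
      have k3 := m1 _ (ge' _ k1.1.1) (sep ((h.la.low_iff x' g hg.low _ _ (ge' _ k1.1.1)).2.1
        ((c1 _).symm ▸ Submodule.smul_mem _ t h2)) f2 (fun p a b => not_le.2 (mem_Iio.1 a) b) k2)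
      rwa [c1] at k3
  have key := hNAK V.toSubring V U x x' ⟨fun _ => id, fun γ _ k => by_contra fun e =>
    k (V.mem_nonunits_iff_or.2 (Or.inr e))⟩ hV hx hx' fun a h1 h2 => by
      have k1 := ge' _ (bv_eqv h.toT3a a)
      have k2 := h.sup.pr_wt x' (Ici (c.dg J : ℚ)) (g' (bv c ζ a))
      have k3 := h.eqv.pr_wt x' (Ici (c.dg J : ℚ)) hx' _ k1
      rw [compl_Ici] at k2
      obtain ⟨f, f1, f2, f3, f4⟩ := R2 _ k3 k2.1 (h.sup.pr_in _ _ _ V.zero_mem
        (i2 _ (bv_eqv h.toT3a a) (bv_in h.toT3a hV a)))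
      have k4 := (h.la.low_iff x' g hg.low _ _ (sub_mem k1 k3)).2.2 k2.2
      rw [map_sub, c1] at k4
      have k5 : ∀ b, (c.dg J : ℚ) ≤ c.wt x' b → c.co b (f - bv c ζ a) ∈ V.nonunits := fun b hb => by
        have k6 := by_contra fun k => not_le.2 (mem_Iio.1 (k4 b k)) hb
        rw [map_sub, sub_eq_zero] at k6
        rw [map_sub, k6, ← map_sub]
        exact f4 b
      have k6 := h.sup.pr_wt x (Ici (2 * c.dg J : ℚ)) f
      have k7 := h.eqv.pr_wt x (Ici (2 * c.dg J : ℚ)) hx f f1.1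
      have k8 : c.In V.nonunits (c.pr (fun a => c.wt x a ∈ Ici (2 * c.dg J : ℚ)) f) := fun b => by
        by_cases e : c.co b (c.pr (fun a => c.wt x a ∈ Ici (2 * c.dg J : ℚ)) f) = 0
        · rw [e]
          exact V.nonunits.zero_mem
        have k9 : c.co b (bv c ζ a) = 0 := by_contra fun k => not_le.2
          (mem_Iio.1 (bv_sup h.toT3a hx a (P := Iio (2 * c.dg J : ℚ)) h2 b k)) (k6.1 b e)
        rw [c.co_pr, if_pos (k6.1 b e)]
        simpa [k9] using k5 b (hi' _ k7 k6.1 b e)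
      obtain ⟨q, q1, q2, q3, q4⟩ := h.div.div _ _ x 0 _ h.div.mon_sq (h.sup.pr_sup _ _ _ _ f2)
      have q5 := (h.sup.in_smul _ _ _ _ (SM.nonunits V)).1 pV (q4 _ _ (SM.nonunits V) pV k8)
      refine ⟨f - c.phi s ^ 2 • q, Submodule.subset_span ⟨⟨sub_mem f1 (h.div.nn_sq U q (q3 hx k7)),
        fun b hb => ⟨sub_mem f2 (sq q q1) b hb, ?_⟩⟩,
        (aV _ _ f3 fun b => V.nonunits_subset (q5 b)).2⟩, fun b hb => ?_⟩
      · rw [compl_Ici] at k6
        have := add_mem k6.2 (c.Sup_mono (fun p hp => by simpa using hp.2) q2)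
        rw [sub_add_sub_cancel] at this
        simpa using this b hb
      · rw [sub_right_comm, map_sub]
        exact V.nonunits.sub_mem (k5 b hb) (q5 b)
  have B := hGN.mk' U x x' hU hx hx' lo hi' uq fun a h1 h2 =>
    let ⟨f, f1, _, f3⟩ := key a h1 h2
    ⟨f, win_lat f1, f3⟩
  refine ⟨B, ?_⟩
  rintro _ ⟨a, b, f, h1, h2, -, h3, h4, rfl⟩
  obtain ⟨f', f1, f2, f3⟩ := key a h1 h2
  rw [B.ext h3 (win_lat f1) h4 f3]
  exact f2 b

end Pool.Agent.P.MP_e7d440_ag.Z
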