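import Pool.Agent.P.MP_e7d440_ag.Z.IfaceG

/-! Step BR. -/

set_option autoImplicit false
set_option linter.unusedSectionVars false

namespace Pool.Agent.P.MP_e7d440_ag.Z

open Pool.Agent.P.MP_e7d440_ag.U TensorProduct LieAlgebra LaurentPolynomial Set

variable {L Φ Δ : Type} [LieRing L] [LieAlgebra ℚ L] [Fintype Φ] [Fintype Δ] [DecidableEq Φ]
  [DecidableEq Δ] (c : CD L Φ Δ) {K : Type} [Field K] [CharZero K] (ζ : K)
  {J : Type} [Fintype J] [DecidableEq J] (s : J → K)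

theorem p_BR (h : T3 c ζ s) :
    S_BR c ζ s := by
  intro U hU f hf f' hf'
  obtain ⟨e1, n1⟩ := c.mem_NN.1 hf
  obtain ⟨e2, n2⟩ := c.mem_NN.1 hf'
  have ne := h.pt.ne
  obtain ⟨q, hq, e⟩ := h.div.zero1 _ (h.eqv.lie f e1 f' e2) fun j => by
    rw [h.lp.ev_lie _ (ne j)]
    exact (h.fd.iso _ (hU j) _ (n1 j).1 _ (n2 j).1).2
  refine ⟨q, c.mem_NN.2 ⟨hq, fun j => ?_⟩, e⟩
  have a0 : (c.ℓ * (c.vp s j)⁻¹ : K) ≠ 0 :=
    mul_ne_zero (Nat.cast_ne_zero.2 c.ℓ_pos.ne') (inv_ne_zero (h.div.vp_ne j))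
  have m : ev (s j) q ∈ U j := by
    rw [← Submodule.smul_mem_iff _ a0, ← (h.div.ev_smul q j).2, ← e, h.lp.dd_lie, map_add,
      h.lp.ev_lie _ (ne j), h.lp.ev_lie _ (ne j), ← lie_skew (ev (s j) f)]
    exact add_mem ((hU j).perp _ (n1 j).2 _ (n2 j).1)
      (neg_mem ((hU j).perp _ (n2 j).2 _ (n1 j).1))
  refine ⟨m, fun x hx => ?_⟩
  have k := congrArg (fun g => c.kR K (ev (s j) (dd (dd g))) x) e
  have z1 : ⁅ev (s j) f, x⁆ = 0 := (h.fd.iso _ (hU j) _ (n1 j).1 _ hx).2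
  have z2 : ⁅ev (s j) f', x⁆ = 0 := (h.fd.iso _ (hU j) _ (n2 j).1 _ hx).2
  have z3 := (n1 j).2 _ ((hU j).perp _ (n2 j).2 _ hx)
  have z4 := (h.fd.iso _ (hU j) _ m _ hx).1
  have z5 : ∀ y, c.kR K ⁅ev (s j) f, y⁆ x = 0 := fun y => by
    rw [← lie_skew, map_neg, LinearMap.neg_apply, h.gk.inv, z1, map_zero, neg_zero]
  simp only [h.lp.dd_lie, h.lp.dd_smul, map_add, h.lp.ev_lie _ (ne j), h.lp.ev_smul _ (ne j),
    h.div.ev_phi, h.div.ev_dphi, LinearMap.add_apply, z5, map_smul, LinearMap.smul_apply, z4,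
    zero_smul, smul_zero, add_zero, zero_add] at k
  simp only [h.gk.inv, z2, z3, map_zero, add_zero] at k
  rw [← two_smul K, smul_smul, eq_comm, smul_eq_zero] at k
  exact k.resolve_left (mul_ne_zero two_ne_zero a0)

end Pool.Agent.P.MP_e7d440_ag.Z
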