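import Pool.Agent.P.MP_e7d440_ag.Z.IfaceG
import Pool.Agent.P.MP_e7d440_ag.U.Stp2

/-! Step CELL. -/

set_option autoImplicit false
set_option linter.unusedSectionVars false

namespace Pool.Agent.P.MP_e7d440_ag.Z

open Pool.Agent.P.MP_e7d440_ag.U TensorProduct LieAlgebra LaurentPolynomial Set

variable {L Φ Δ : Type} [LieRing L] [LieAlgebra ℚ L] [Fintype Φ] [Fintype Δ] [DecidableEq Φ]
  [DecidableEq Δ] (c : CD L Φ Δ) {K : Type} [Field K] [CharZero K] (ζ : K)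
  {J : Type} [Fintype J] [DecidableEq J] (s : J → K)

theorem p_CELL (h : T3 c ζ s) (hNEAR : S_NEAR c ζ s) :
    S_CELL c ζ s := by
  intro V lam r X x hV hCo hx
  have key : ∀ (n : ℕ) z (a : Fin n → Φ × ℤ) H u m i v, c.Fix z → c.Gal ζ c.ρ n z a →
      c.St ζ s V (c.cell lam X) z H u m i v →
      ∃ H u m i v, c.St ζ s V (c.cell lam X) c.ρ H u m i v := by
    intro n
    induction n with
    | zero =>
      intro z a H u m i v hz hg hS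
      exact ⟨H, u, m, i, v, { hS with
        aut := h.aut1.same _ _ _ _ hz c.fix_ρ hg hS.aut
        iaut := h.aut1.same _ _ _ _ hz c.fix_ρ hg hS.iaut }⟩
    | succ n ih =>
      rintro z a H u m i v - ⟨z₁, a1, -, a3⟩ hS
      obtain ⟨H', u', m', i', v', hS'⟩ := U.step h.toT3a V _ z z₁ _ H u m i v hV.sd a1 hS
      exact ih z₁ _ H' u' m' i' v' a1.reg₁.1 a3 hS'
  obtain ⟨z₁, H₁, m₁, v₁, hz₁, hS₁⟩ := U.base h.toT3a V lam r X hV hCo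
  obtain ⟨n₁, a₁, hg₁⟩ := h.gal.ex _ _ hz₁ h.wall.reg_ρ
  obtain ⟨H, u, m, i, v, hS⟩ := key n₁ z₁ a₁ _ _ _ _ _ hz₁.1 hg₁ hS₁
  have hz₀ := h.mono.reg m v _ hS.nla hS.mono h.wall.reg_ρ
  have hR : ∀ z n (a : Fin n → Φ × ℤ), c.Reg ζ z → c.Gal ζ z n c.ρ a → ∃ y : Fin n → K,
      (∀ k, y k ∈ V) ∧ ∀ x, c.Cl ζ c.ρ x → c.Cl ζ z (v x) →
        c.Red ζ s V (c.cell lam X) (c.pE ζ a y) x (v x) := fun z n a hz hg => by
    obtain ⟨y, u', e, b1, b2, b3⟩ := h.nf.nf _ n _ a u hz c.fix_ρ hg hS.ula hS.uaut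
    obtain ⟨hy, b4⟩ := b3 V hV.sd hS.uint
    refine ⟨y, hy, fun x hx hx' => ?_⟩
    have hmi := h.la.mul _ _ hS.nla hS.ila
    refine h.red.of V _ H _ (u' * (m * i)) _ _ hS.rng hS.int
      (fun r f hf => (h.aut1.cl _ _ _ _ h.wall.reg_ρ hx hS.aut r f hf).1) (h.la.mul _ _ b1 hmi)
      ((h.la.int_mul _ _ _ fun f hf => (hmi.eqv f).2 hf).1 b4
        ((h.la.int_mul _ _ _ fun f hf => (hS.ila.eqv f).2 hf).1 hS.nint hS.iint))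
      (fun r f hf => ?_) fun f hf hi => ?_
    · rw [Module.End.mul_apply, (h.aut1.cl _ _ _ _ hz hx' b2 r _ ((hmi.eqv f).2 hf)).1,
        Module.End.mul_apply, hS.mono.sup x hx.1 _ _ ((hS.ila.eqv f).2 hf)]
      exact (h.aut1.cl _ _ _ _ h.wall.reg_ρ hx hS.iaut r f hf).1
    · have := hS.cong f hf hi
      rwa [e] at this
  obtain ⟨n₀, a₀, hg₀⟩ := h.gal.ex _ _ h.wall.reg_ρ hz₀
  obtain ⟨y₀, hy₀, hR₀⟩ := hR _ n₀ a₀ hz₀ hg₀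
  have hHi : c.Hi ζ s V (c.cell lam X) (v c.ρ) := h.red.hi V _ _ _ hz₀.1
    (hR₀ _ (h.wall.cl_self _ c.fix_ρ) (h.wall.cl_self _ hz₀.1))
    (h.la.low_pf a₀ y₀ 0 _ hz₀.1 fun k => (h.gal.mem _ _ _ _ hz₀ hg₀ k).2.2)
    fun f hf hi => (h.la.int_pf V.toSubring V a₀ y₀ 0 hV.sd (SM.val V) hy₀ f hf).2 hi
  obtain ⟨z, hz, hc, hn⟩ := hNEAR.near (v x) (hS.mono.fix x hx.1)
  obtain ⟨n, a, hg⟩ := h.gal.ex _ _ h.wall.reg_ρ hz
  obtain ⟨y, hy, hR₁⟩ := hR z n a hz hg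
  have neg : ∀ k, c.val (a k) (v x) < 0 := fun k =>
    let ⟨b1, b2, b3⟩ := h.gal.mem _ _ _ _ hz hg k
    hn _ b1 b2 b3
  refine ⟨v x, z, n, a, y, ⟨hx, hz, hg, hc, neg⟩, hy, hR₁ x hx hc, fun hcard => ?_⟩
  obtain ⟨k1, k2⟩ := hNEAR.cmp (v x) z _ n n₀ a a₀ hz hz₀
    (h.mono.cl m v _ _ hS.nla hS.mono c.fix_ρ hx) hg hg₀ neg
  have hFD : ∀ j, c.FD (c.cell lam X j) := fun j => (h.fd.cell lam X j (hCo.2.2.1 j)).1
  have hrk := h.leg.rank_cell lam X hCo.2.2.1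
  obtain ⟨lam₀, r₀, -, X₀, d1, d2, -, d3⟩ := h.rank V _ _ n₀ a₀ hFD hz₀ hg₀ hHi
    (hrk.le.trans (hcard.trans k1))
  have hrk₀ := h.leg.rank_cell lam₀ X₀ d1.2.2.1
  rw [← d3, hrk, ← d2] at hrk₀
  have hg' := hNEAR.gal _ _ _ _ _ (k2 (hrk₀.ge.trans hcard)) hg
  obtain ⟨lam', r', y', X', e1, e2, e3, e4⟩ := h.rank V _ _ n a hFD hz₀ hg' hHi
    (hrk.le.trans hcard)
  have e5 := (h.top V lam' _ n a y' hV.sd (fun j => V.nonunits_subset (hV.small j)) e1.2.2.1 hz₀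
    hg' (e3 ▸ hHi)).1
  exact ⟨lam', r', y', X', e1, e5 ▸ hg', e2, e3, e4⟩

end Pool.Agent.P.MP_e7d440_ag.Z
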