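import Pool.Agent.P.MP_e7d440_ag.Z.IfaceC
import Pool.Agent.P.MP_e7d440_ag.U.Resd

/-! Step CMT. -/

set_option autoImplicit false
set_option linter.unusedSectionVars false

namespace Pool.Agent.P.MP_e7d440_ag.Z

open Pool.Agent.P.MP_e7d440_ag.U MvPolynomial IsLocalRing

namespace CMTA

theorem eqv {A K : Type} [CommRing A] [Field K] (φ : A →+* K) (𝔭 : Ideal A) [𝔭.IsPrime]
    (hφ : Function.Injective φ) (S : Subring K) (hS : ∀ γ, γ ∈ S ↔ loc φ 𝔭 γ) :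
    Nonempty (Localization.AtPrime 𝔭 ≃+* S) := by
  have h0 : ∀ b, b ∉ 𝔭 → φ b ≠ 0 := fun b hb h =>
    hb ((map_eq_zero_iff φ hφ).1 h ▸ 𝔭.zero_mem)
  have hu : ∀ b : 𝔭.primeCompl, IsUnit (φ b) := fun b => (h0 b b.2).isUnit
  let ψ : Localization.AtPrime 𝔭 →+* K := IsLocalization.lift hu
  have e : ∀ (a : A) (b : 𝔭.primeCompl), ψ (IsLocalization.mk' _ a b) * φ b = φ a := fun a b => by
    rw [← IsLocalization.lift_eq (S := Localization.AtPrime 𝔭) hu b, ← map_mul,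
      IsLocalization.mk'_spec, IsLocalization.lift_eq]
  refine ⟨RingEquiv.ofBijective (ψ.codRestrict S fun z => ?_) ⟨?_, ?_⟩⟩
  · obtain ⟨⟨a, b⟩, rfl⟩ := IsLocalization.mk'_surjective 𝔭.primeCompl z
    exact (hS _).2 ⟨a, b, b.2, e a b⟩
  · refine (injective_iff_map_eq_zero _).2 fun z hz => ?_
    obtain ⟨⟨a, b⟩, rfl⟩ := IsLocalization.mk'_surjective 𝔭.primeCompl z
    have h1 := e a b
    rw [show ψ (IsLocalization.mk' _ a b) = 0 from congrArg Subtype.val hz, zero_mul] at h1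
    obtain rfl := (map_eq_zero_iff φ hφ).1 h1.symm
    exact IsLocalization.mk'_zero _
  · intro γ
    obtain ⟨a, b, hb, h⟩ := (hS _).1 γ.2
    exact ⟨IsLocalization.mk' _ a (⟨b, hb⟩ : 𝔭.primeCompl),
      Subtype.ext (mul_right_cancel₀ (h0 b hb) ((e a ⟨b, hb⟩).trans h.symm))⟩

/-- the local ring as a subring -/
def LS {A K : Type} [CommRing A] [Field K] (φ : A →+* K) (𝔭 : Ideal A) (hp : 𝔭.IsPrime) :
    Subring K where
  carrier := {γ | loc φ 𝔭 γ}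
  mul_mem' := loc.mul hp
  one_mem' := by simpa using loc_map φ hp 1
  add_mem' := loc.add hp
  zero_mem' := by simpa using loc_map φ hp 0
  neg_mem' := by
    rintro γ ⟨a, b, hb, e⟩
    exact ⟨-a, b, hb, by rw [map_neg, ← e, neg_mul]⟩

theorem cmt {A A' K : Type} [CommRing A] [CommRing A'] [Field K] (φ : A →+* K) (φ' : A' →+* K)
    (𝔭 : Ideal A) (𝔭' : Ideal A') [hp : 𝔭.IsPrime] [𝔭'.IsPrime] (h : Function.Injective φ)
    (h' : Function.Injective φ') (H : ∀ γ, loc φ 𝔭 γ ↔ loc φ' 𝔭' γ)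
    (c : G.CMl (Localization.AtPrime 𝔭')) : G.CMl (Localization.AtPrime 𝔭) := by
  obtain ⟨e⟩ := eqv φ 𝔭 h (LS φ 𝔭 hp) fun _ => Iff.rfl
  obtain ⟨e'⟩ := eqv φ' 𝔭' h' (LS φ 𝔭 hp) H
  exact G.ISOx.cm (e'.trans e.symm) c

theorem cen {A A' K : Type} [CommRing A] [CommRing A'] [Field K] (φ : A →+* K) (φ' : A' →+* K)
    (𝔭 : Ideal A) (R : Subring K) (V : ValuationSubring K) (h : Function.Injective φ)
    (hR : ∀ γ, γ ∈ R ↔ loc φ 𝔭 γ) (hd : Dom R V) (h' : ∀ a, φ' a ∈ R) :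
    ∃ (𝔭' : Ideal A') (hp : 𝔭'.IsPrime), (∀ a, a ∈ 𝔭' ↔ φ' a ∈ V.nonunits) ∧
      Dom (LS φ' 𝔭' hp) V ∧ ((∀ a, loc φ' 𝔭' (φ a)) → ∀ γ, loc φ 𝔭 γ ↔ loc φ' 𝔭' γ) := by
  let ρ : A' →+* V := φ'.codRestrict V fun a => hd.le _ (h' a)
  have hp : ((maximalIdeal V).comap ρ).IsPrime := Ideal.comap_isPrime _ _
  have hm : ∀ a, a ∈ (maximalIdeal V).comap ρ ↔ φ' a ∈ V.nonunits := fun a =>
    (V.coe_mem_nonunits_iff (a := ρ a)).symm
  have h0 : ∀ γ, γ ∉ V.nonunits → γ ≠ 0 := fun γ hγ e => hγ (e ▸ V.nonunits.zero_mem)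
  have h1 : ∀ γ, loc φ' ((maximalIdeal V).comap ρ) γ → γ ∈ R := by
    rintro γ ⟨a, b, hb, e⟩
    rw [hm] at hb
    rw [(eq_mul_inv_iff_mul_eq₀ (h0 _ hb)).2 e]
    exact R.mul_mem (h' a) (hd.inv _ (h' b) hb)
  have h2 : Dom (LS φ' _ hp) V := by
    refine ⟨fun γ hγ => hd.le _ (h1 γ hγ), ?_⟩
    rintro γ ⟨a, b, hb, e⟩ hγ
    refine ⟨b, a, fun ha => hγ ?_, by rw [← e, inv_mul_cancel_left₀ (h0 _ hγ)]⟩
    rw [hm] at hb ha
    rw [(eq_mul_inv_iff_mul_eq₀ (h0 _ hb)).2 e, mul_comm]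
    exact (SM.nonunits V).mul _ (hd.le _ (hd.inv _ (h' b) hb)) _ ha
  refine ⟨_, hp, hm, h2, fun H γ => ⟨?_, fun k => (hR _).1 (h1 γ k)⟩⟩
  rintro ⟨a, b, hb, e⟩
  have hk : RingHom.ker φ ≤ 𝔭 := by
    rw [(RingHom.injective_iff_ker_eq_bot _).1 h]
    exact bot_le
  have hb0 : φ b ≠ 0 := fun k => hb (hk k)
  rw [(eq_mul_inv_iff_mul_eq₀ hb0).2 e]
  refine loc.mul hp (H a) (h2.inv _ (H b) ?_)
  rw [V.mem_nonunits_iff_or, not_or, not_not]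
  exact ⟨hb0, hd.le _ ((hR _).2 (loc_inv φ hk hb))⟩

end CMTA

theorem p_CMT (hNCL : S_NCL) :
    S_CMT := by
  refine ⟨CMTA.cmt, ?_, ?_⟩
  · intro O K ν _ _ _ _ _ _ A 𝔭 hp y hy hc
    have hi : Function.Injective (algebraMap A K) := Subtype.val_injective
    obtain ⟨R, V, hR, hd⟩ := ResdA.dom (K := K) 𝔭 hp hi
    obtain ⟨𝔭', hp', hm, -, H⟩ := CMTA.cen (algebraMap A K)
      (aeval y : MvPolynomial ν O →ₐ[O] K).toRingHom 𝔭 R V hi hR hd fun F => by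
        change aeval y F ∈ R
        induction F using MvPolynomial.induction_on with
        | C o =>
          rw [aeval_C]
          exact (hR _).2 (loc_map (algebraMap A K) hp (algebraMap O A o))
        | add F G hF hG => rw [map_add]; exact R.add_mem hF hG
        | mul_X F k hF => rw [map_mul, aeval_X]; exact R.mul_mem hF ((hR _).2 (hc.1 k))
    refine CMTA.cmt _ _ 𝔭 𝔭' hi hy (H fun a => ?_) ?_
    · obtain ⟨F, G, h1, h2, h3⟩ := hc.2 a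
      refine ⟨F, G, ?_, h3⟩
      rw [hm, V.mem_nonunits_iff_or, not_or, not_not]
      exact ⟨h1, hd.le _ ((hR _).2 h2)⟩
    · have h1 := G.q_ISO.qg (RingHom.id _) 𝔭' hp' fun z =>
        ⟨1, z, (Ideal.ne_top_iff_one _).1 hp'.ne_top, one_mul z⟩
      rw [Ideal.comap_id, (RingHom.injective_iff_ker_eq_bot _).1 Function.injective_id] at h1
      exact (h1.1 (G.q_REG O ν 𝔭' hp')).2
  · intro O K _ _ _ A A' Z' 𝔭 R V hp hN hR hd h1 h2
    obtain ⟨𝔭', hp', -, hd', H⟩ := CMTA.cen (algebraMap A K) (algebraMap A' K) 𝔭 R V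
      Subtype.val_injective hR hd fun a => h1 a a.2
    exact ⟨𝔭', hp', H fun a => h2 _ hd' (fun γ hγ => loc_map (algebraMap A' K) hp' ⟨γ, hγ⟩)
      (hNCL.locl A' Z' 𝔭' _ hN hp' fun _ => Iff.rfl) a a.2⟩

end Pool.Agent.P.MP_e7d440_ag.Z
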