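import Pool.Agent.P.MP_e7d440_ag.Z.IfaceG

/-! Step CNJ. -/

set_option autoImplicit false
set_option linter.unusedSectionVars false

namespace Pool.Agent.P.MP_e7d440_ag.Z

open Pool.Agent.P.MP_e7d440_ag.U TensorProduct LieAlgebra LaurentPolynomial Set

variable {L Φ Δ : Type} [LieRing L] [LieAlgebra ℚ L] [Fintype Φ] [Fintype Δ] [DecidableEq Φ]
  [DecidableEq Δ] (c : CD L Φ Δ) {K : Type} [Field K] [CharZero K] (ζ : K)
  {J : Type} [Fintype J] [DecidableEq J] (s : J → K)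

namespace CNJA

theorem logd (h : T3 c ζ s) (hDL : S_DL c ζ s) (x' : L) (hx : c.Fix x') (n : ℕ) :
    ∀ (a : Fin n → Φ × ℤ) (t : Fin n → K), (∀ k, 0 < c.val (a k) c.ρ ∧ c.val (a k) x' < 0) →
      ∃ v : Fin n → LG L K, (∀ l, v l ∈ Nn c ζ x') ∧ ∀ δ : K →+ K, Der ζ s δ 0 → ∀ f,
        dl c δ (pf (fun k => t k • c.E ζ (a k)) 0 f) =
          pf (fun k => t k • c.E ζ (a k)) 0 (dl c δ f + ⁅∑ l, δ (t l) • v l, f⁆) := by
  induction n with
  | zero => exact fun a t _ => ⟨Fin.elim0, fun l => l.elim0, fun δ _ f => by simp [pf_zero]⟩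
  | succ n ih =>
    intro a t ha
    obtain ⟨v, hv, hd⟩ := ih (Fin.tail a) (Fin.tail t) fun k => ha k.succ
    have hP := h.la.pf (Fin.tail a) (Fin.tail t) 0
    obtain ⟨Q, hQ, hPQ, -⟩ := h.la.ex_inv _ hP
    have hE := h.rt1.eqv (a 0)
    refine ⟨Fin.cons (Q (c.E ζ (a 0))) v, fun l => ?_, fun δ hδ f => ?_⟩
    · refine Fin.cases ?_ hv l
      refine ⟨(hQ.eqv _).2 hE, (h.la.aut_gt _ _ _ (h.la.aut_inv _ _ _ hP hPQ
        (h.la.aut_pf _ _ _ _ c.fix_ρ fun i => (ha i.succ).1)) 0 _ hE).2 ?_,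
        (h.la.low_iff _ _ (h.la.low_inv _ _ _ hP hPQ
          (h.la.low_pf _ _ _ _ hx fun i => (ha i.succ).2)) 0 _ hE).2.2 ?_⟩
      · exact c.Sup_mono (singleton_subset_iff.2 (ha 0).1) (h.rt1.sup _ _ c.fix_ρ)
      · exact c.Sup_mono (singleton_subset_iff.2 (ha 0).2) (h.rt1.sup _ _ hx)
    · have e0 : pf (fun k => t k • c.E ζ (a k)) 0 = ex (t 0 • c.E ζ (a 0)) *
          pf (fun k => Fin.tail t k • c.E ζ (Fin.tail a k)) 0 := pf_succ _
      have hn := h.rt1.nil (a 0) (t 0)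
      have e1 : dl c δ (t 0 • c.E ζ (a 0)) = δ (t 0) • c.E ζ (a 0) := by
        rw [hDL.smul δ 0 hδ, hDL.E δ 0 hδ, smul_zero, add_zero]
      have e2 : ⁅t 0 • c.E ζ (a 0), δ (t 0) • c.E ζ (a 0)⁆ = 0 := by
        rw [(h.lp.lie_smul _ _ _).1, (h.lp.lie_smul _ _ _).2, lie_self, smul_zero, smul_zero]
      have e3 := h.ex.fix _ _ hn e2
      have e4 := LinearMap.congr_fun hPQ (c.E ζ (a 0))
      rw [Module.End.mul_apply, Module.End.one_apply] at e4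
      rw [e0, Module.End.mul_apply, Module.End.mul_apply,
        h.ex.logd (dl c δ) _ (hDL.lie δ 0 hδ) hn (by rw [e1, ← lie_skew, e2, neg_zero]), e1,
        hd δ hδ, Fin.sum_univ_succ, Fin.cons_zero, add_lie, ← add_assoc, add_right_comm,
        map_add (pf _ 0) _ ⁅δ (t 0) • _, f⁆, map_add (ex _) _ (pf _ 0 ⁅δ (t 0) • _, f⁆),
        hP.a0.lie (δ (t 0) • _), h.lp.op_smul, e4, (h.ex.a0 _ hn).lie, e3]
      rfl

end CNJA

theorem p_CNJ (h : T3 c ζ s) (hDL : S_DL c ζ s) :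
    S_CNJ c ζ s := by
  intro x' n a t hx ha
  obtain ⟨v, hv, hd⟩ := CNJA.logd c ζ s h hDL x' hx n a t ha
  refine ⟨v, hv, fun δ ξ U hδ hU hP f hf => ?_⟩
  have hL := h.la.pf a t 0
  refine (h.leg.leg U _ hU hL _).1 ?_
  have := hP _ ((h.leg.leg U _ hU hL f).2 hf)
  convert this using 1
  simp only [Th, Rat.cast_zero, zero_smul, add_zero]
  rw [hd δ hδ, sub_lie, map_sub, map_sub, hL.a0.lie ξ, map_add]
  change _ = _ - ⁅pf (fun i => t i • c.E ζ (a i)) 0 ξ, _⁆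
  abel

end Pool.Agent.P.MP_e7d440_ag.Z
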