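import Pool.Agent.P.MP_e7d440_ag.Z.IfaceA

/-! Commutative algebra: from the local structure of a family to the Cohen-Macaulay property. -/

namespace Pool.Agent.P.MP_e7d440_ag.Z

open IsLocalRing MvPolynomial U GrA

noncomputable section

/-! ## Definitions -/

/-- multiplication by `φ c` factors through a finite free module -/
def FacH {P A : Type} [CommRing P] [CommRing A] (φ : P →+* A) (c : P) : Prop :=
  letI := φ.toAlgebra
  Fac A c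

/-- the conclusion for the family -/
def Flt2 {O K : Type} [CommRing O] [Field K] [Algebra O K] (π : O) (s u : K)
    (N : Subalgebra O K) (d : ℕ) : Prop :=
  ∃ φ : MvPolynomial (Fin 2 ⊕ Fin d) O →ₐ[O] N, (φ (X (.inl 0)) : K) = s ∧
    (φ (X (.inl 1)) : K) = u ∧ φ.toRingHom.Finite ∧ (∃ r, C π ∣ r - 1 ∧ FacH φ.toRingHom r) ∧
    (Ideal.span {algebraMap O N π, φ (X (.inl 0)), φ (X (.inl 1)) - 1}).IsRadical

/-- `c` is a quotient of polynomials in `z` -/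
def InF (O : Type) {K κ : Type} [CommRing O] [Field K] [Algebra O K] (z : κ → K) (c : K) : Prop :=
  ∃ F H : MvPolynomial κ O, aeval z H ≠ 0 ∧ c * aeval z H = aeval z F

/-! ## Normalizations and residues -/

-- deps:
structure S_NCF : Prop where
  ft : ∀ {O K : Type} [CommRing O] [IsDomain O] [IsDiscreteValuationRing O] [Field K] [CharZero K]
    [Algebra O K] (N : Subalgebra O K) (Z : Set K), Function.Injective (algebraMap O K) →
      Z.Finite → IsNc N Z → Gen O (Subtype.val : Z → K) →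
      Algebra.FiniteType O N ∧ IsFractionRing N K ∧ IsIntegrallyClosed N
  int : ∀ {O K : Type} [CommRing O] [Field K] [Algebra O K] (N : Subalgebra O K) (Z : Set K),
    IsNc N Z → Z ⊆ N ∧ ∀ c : K, IsIntegral N c → c ∈ N
  lcn : ∀ {A K : Type} [CommRing A] [IsDomain A] [IsIntegrallyClosed A] [Field K] [Algebra A K]
    [IsFractionRing A K] (𝔮 : Ideal A), 𝔮.IsPrime → ∃ T : Subring K,
      (∀ c, c ∈ T ↔ loc (algebraMap A K) 𝔮 c) ∧ ∀ c : K, IsIntegral T c → c ∈ T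
  cen : ∀ {A K : Type} [CommRing A] [Field K] [Algebra A K] (𝔮 : Ideal A), 𝔮.IsPrime →
    Function.Injective (algebraMap A K) → ∃ V : ValuationSubring K, Cen 𝔮 V ∧
      (∀ c, loc (algebraMap A K) 𝔮 c → c ∈ V) ∧
      (∀ c, locm (algebraMap A K) 𝔮 c → c ∈ V.nonunits) ∧
      ∀ c, loc (algebraMap A K) 𝔮 c → c ∈ V.nonunits → locm (algebraMap A K) 𝔮 c
  lm : ∀ {A K : Type} [CommRing A] [Field K] [Algebra A K] (𝔮 : Ideal A), 𝔮.IsPrime →
    Function.Injective (algebraMap A K) → ∀ a : A,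
      locm (algebraMap A K) 𝔮 (algebraMap A K a) ↔ a ∈ 𝔮
  ind : ∀ {O A K σ ν : Type} [CommRing O] [IsDomain O] [CommRing A] [Field K] [Algebra O K]
    [Algebra A K] [IsFractionRing A K] [Fintype σ] [Fintype ν] (𝔮 : Ideal A) (y : σ → K)
    (x : ν → K), PCh O 𝔮 y → AlgebraicIndependent O x → Fintype.card σ ≤ Fintype.card ν →
      Gen O y ∧ AlgebraicIndependent O y

-- deps: TD
def S_RES : Prop := ∀ (O K σ : Type) [CommRing O] [IsDomain O] [IsDiscreteValuationRing O]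
  [Field K] [Algebra O K] [Fintype σ] (π : O) (W : Set K) (y : σ → K) (V : ValuationSubring K)
  (m : ℕ) (x : Fin m → K), Irreducible π → algebraMap O K π ∈ V.nonunits →
    Has O V.toSubring y → (∀ c ∈ W, c ∈ V.nonunits ∨ ∃ a, c = y a) →
    (∀ j, ∃ a b : K, IsIntegral (Algebra.adjoin O W) a ∧ IsIntegral (Algebra.adjoin O W) b ∧
      b ∉ V.nonunits ∧ x j * b = a) → RI π V x →
    m ≤ Fintype.card σ ∧ (Fintype.card σ ≤ m → RI π V y)

/-! ## Derivations and gradings -/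

-- deps:
structure S_CHN : Prop where
  le : ∀ {O K ι κ : Type} [CommRing O] [Field K] [Algebra O K] [Fintype ι] [Fintype κ]
    [DecidableEq κ] (x : ι → K) (s u : K) (E : κ → Derivation O K K) (t : κ → K),
      Gen O (cs s u x) → (∀ k, E k s = 0) → (∀ k, E k u = 0) → wr E t ≠ 0 →
      Fintype.card κ ≤ Fintype.card ι
  ne : ∀ {O K ι : Type} [CommRing O] [Field K] [Algebra O K] [Fintype ι] [DecidableEq ι]
    (x : ι → K) (s u : K) (E : ι → Derivation O K K) (t : ι → K),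
      Gen O (cs s u x) → (∀ k, E k s = 0) → (∀ k, E k u = 0) → wr E t ≠ 0 → wr E x ≠ 0
  fix : ∀ {O K κ : Type} [CommRing O] [Field K] [Algebra O K] [Fintype κ] [DecidableEq κ]
    (E : κ → Derivation O K K) (t : κ → K) (δ : Derivation O K K), wr E t ≠ 0 →
      ∃ δ' : Derivation O K K, (∀ k, δ' (t k) = 0) ∧ ∀ c, (∀ k, E k c = 0) → δ' c = δ c
  ext : ∀ {O K ι : Type} [CommRing O] [IsDomain O] [Field K] [Algebra O K] [Fintype ι]
    [DecidableEq ι] (x : ι → K) (s u : K) (D : ι → Derivation O K K), Gen O (cs s u x) →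
      AlgebraicIndependent O (cs s u x) → (∀ a, D a s = 0) → (∀ a, D a u = 0) →
      ∃ D' : Fin 2 ⊕ ι → Derivation O K K, ∀ (y : ι → K) (o : O),
        wr D' (cs s (u - algebraMap O K o) y) = wr D y
  wrm : ∀ {O K ι : Type} [CommRing O] [Field K] [Algebra O K] [Fintype ι] [DecidableEq ι]
    (D : ι → Derivation O K K) (x y : ι → K) (s u : K) (S : Subring K), (∀ a, D a s = 0) →
      (∀ a, D a u = 0) → Has O S (cs s u y) → (∀ a, Frc O (cs s u y) S (x a)) →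
      ∃ w ∈ S, wr D x = w * wr D y

-- deps:
def S_CONST : Prop := ∀ (O K ι κ : Type) [CommRing O] [Field K] [CharZero K] [Algebra O K]
  [Fintype ι] [DecidableEq ι] (x : ι → K) (z : κ → K) (E : ι → Derivation O K K) (c : K),
    Gen O (Sum.elim z x) → AlgebraicIndependent O (Sum.elim z x) → (∀ a k, E a (z k) = 0) →
    wr E x ≠ 0 → (∀ a, E a c = 0) → InF O z c

-- deps:
structure S_HOM : Prop where
  eig : ∀ {O K M : Type} [CommRing O] [Field K] [CharZero K] [Algebra O K] (φ : M → ℚ)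
    (δ : Derivation O K K) (t : Finset M) (v : M → K), Function.Injective φ →
      (∀ n ∈ t, δ (v n) = φ n * v n) → ∑ n ∈ t, v n = 0 → ∀ n ∈ t, v n = 0
  euler : ∀ {O K M ν : Type} [CommRing O] [Field K] [CharZero K] [Algebra O K] [AddCommMonoid M]
    (φ : M →+ ℚ) (δ : Derivation O K K) (w : ν → M) (g : ν → K),
      (∀ i, δ (g i) = φ (w i) * g i) → ∀ (F : MvPolynomial ν O) (n : M),
      IsWeightedHomogeneous w F n → δ (aeval g F) = φ n * aeval g F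
  hom : ∀ {O K M ν : Type} [CommRing O] [Field K] [CharZero K] [Algebra O K] [AddCommMonoid M]
    (φ : M →+ ℚ) (δ : Derivation O K K) (w : ν → M) (g : ν → K), Function.Injective φ →
      (∀ i, δ (g i) = φ (w i) * g i) → HomRel O w g
  den : ∀ {ν : Type} [Finite ν] (w : ν → ℚ), ∃ M : ℕ, 0 < M ∧ ∃ z : ν → ℤ, ∀ i, (z i : ℚ) = M * w i

-- deps: HOM NCF
structure S_GRN : Prop where
  dec : ∀ {O K : Type} [CommRing O] [Field K] [CharZero K] [Algebra O K]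
    (δ : Derivation O K K) (N : Subalgebra O K) (Z : Set K), IsNc N Z →
      (∀ c ∈ Z, ∃ j : ℤ, δ c = j * c) → Gen O (Subtype.val : Z → K) →
      ∀ b ∈ N, ∃ (t : Finset ℤ) (v : ℤ → K), (∀ j, v j ∈ N ∧ δ (v j) = j * v j) ∧ b = ∑ j ∈ t, v j
  non : ∀ {O K : Type} [CommRing O] [Field K] [CharZero K] [Algebra O K]
    (δ : Derivation O K K) (N : Subalgebra O K) (Z : Set K) (V : ValuationSubring K), IsNc N Z →
      (∀ b ∈ N, b ∈ V) → (∀ c ∈ Z, ∃ j : ℤ, δ c = j * c ∧ (j ≠ 0 → c ∈ V.nonunits)) →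
      ∀ b ∈ N, ∀ j : ℤ, j ≠ 0 → δ b = j * b → b ∈ V.nonunits

-- deps: HOM
def S_KER : Prop := ∀ (O K κ : Type) [CommRing O] [Field K] [CharZero K] [Algebra O K]
  (δ : Derivation O K K) (z : κ → K) (g : Set K) (𝓔 : Set (Derivation O K K)),
    Gen O (Subtype.val : ↥(Set.range z ∪ g) → K) → (∀ k, δ (z k) = 0) →
    (∀ c ∈ g, (∃ j : ℤ, δ c = j * c) ∧ ∀ E ∈ 𝓔, E c = 0) →
    (∀ c, (∀ E ∈ 𝓔, E c = 0) → δ c = 0 → InF O z c) → ∀ c, δ c = 0 → InF O z c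

-- deps: TD
def S_HS0 : Prop := ∀ (O ν : Type) [CommRing O] [IsDomain O] [IsDiscreteValuationRing O]
  [Fintype ν] (π : O) (w : ν → ℕ) (I : Ideal (MvPolynomial ν O)) (d : ℕ), Irreducible π →
    (∀ i, 0 < w i) → (∀ F ∈ I, ∀ n, weightedHomogeneousComponent w n F ∈ I) → C π ∈ I →
    (∀ 𝔮 : Ideal (MvPolynomial ν O), 𝔮.IsPrime → I ≤ 𝔮 → ¬ Td π 𝔮 (d + 1)) →
    ∃ y : Fin d → MvPolynomial ν O, (∀ j, ∃ n, 0 < n ∧ IsWeightedHomogeneous w (y j) n) ∧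
      ∀ i, X i ∈ (I ⊔ sp y).radical

-- deps:
def S_HS1 : Prop := ∀ (O K ν τ : Type) [CommRing O] [IsLocalRing O] [CommRing K] [Algebra O K]
  [Fintype ν] [Fintype τ] (π : O) (w : ν → ℕ) (g : ν → K) (y : τ → MvPolynomial ν O),
    π ∈ maximalIdeal O → (∀ i, 0 < w i) → HomRel O w g →
    (∀ j, ∃ n, 0 < n ∧ IsWeightedHomogeneous w (y j) n) →
    (∀ i, X i ∈ (RingHom.ker (aeval g : MvPolynomial ν O →ₐ[O] K) ⊔ Ideal.span {C π} ⊔
      sp y).radical) →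
    ∀ i, IsIntegral (Algebra.adjoin O (Set.range fun j => aeval g (y j))) (g i)

-- deps: TD HOM NCF HS0 HS1
def S_HSOP : Prop := ∀ (O K : Type) [CommRing O] [IsDomain O] [IsDiscreteValuationRing O]
  [Field K] [CharZero K] [Algebra O K] (π : O) (s u : K) (N : Subalgebra O K) (Z : Set K)
  (δ : Derivation O K K) (w : K → ℚ) (d : ℕ) (x : Fin d → K), Irreducible π → Z.Finite →
    IsNc N Z → s ∈ Z → u ∈ Z → Gen O (Subtype.val : Z → K) →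
    (∀ c ∈ Z, 0 < w c ∧ δ c = (w c : K) * c) → AlgebraicIndependent O (cs s u x) →
    (∀ 𝔮 : Ideal N, 𝔮.IsPrime → algebraMap O N π ∈ 𝔮 → locm (algebraMap N K) 𝔮 s →
      locm (algebraMap N K) 𝔮 u → ¬ Td π 𝔮 (d + 1)) →
    ∃ φ : MvPolynomial (Fin 2 ⊕ Fin d) O →ₐ[O] N, (φ (X (.inl 0)) : K) = s ∧
      (φ (X (.inl 1)) : K) = u ∧ Function.Injective φ ∧ φ.toRingHom.Finite

/-! ## The toric lemma -/

-- deps:
def S_H2 : Prop := ∀ (O κ : Type) [CommRing O] [IsDomain O] [IsDiscreteValuationRing O]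
  [Finite κ] (π : O) (i₀ : κ) (a b : MvPolynomial κ O), Irreducible π → b ≠ 0 →
    ∃ c a' b', a = c * a' ∧ b = c * b' ∧ ∃ r, r ∉ Ideal.span {C π, X i₀} ∧ ∃ M : ℕ,
      r * C π ^ M ∈ Ideal.span {a', b'} ∧ r * X i₀ ^ M ∈ Ideal.span {a', b'}

-- deps:
def S_TORIC : Prop := ∀ (O B : Type) [CommRing O] [CommRing B] [IsDomain B] [IsNoetherianRing B]
  [IsIntegrallyClosed B] [Algebra O B] (𝓑 : ℤ → Submodule O B) [GradedAlgebra 𝓑]
  (𝔞 𝔮 : Ideal B), 𝔞.IsHomogeneous 𝓑 → (∀ j, j ≠ 0 → ∀ b ∈ 𝓑 j, b ∈ 𝔮) →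
    (∀ j, ∀ b ∈ 𝓑 j, ∀ c ∈ 𝓑 j, b ∉ 𝔞 → ∃ r ∈ 𝓑 0, ∃ l ∈ 𝓑 0, NZD 𝔞 r ∧ r * c = l * b) →
    (∀ j, ∀ b ∈ 𝓑 j, b ≠ 0 → ∃ c ∈ 𝓑 j, c ∉ 𝔞) → (∃ j, j ≠ 0 ∧ ∃ b ∈ 𝓑 j, b ≠ 0) →
    ∃ z ∈ 𝔮, NZD 𝔞 z

-- deps: H2
def S_CYC : Prop := ∀ (O K κ : Type) [CommRing O] [IsDomain O] [IsDiscreteValuationRing O]
  [Field K] [Algebra O K] [Finite κ] (π : O) (z : κ → K) (i₀ : κ) (T : Subring K)
  (V : ValuationSubring K), Irreducible π → IsNoetherianRing T → Dom T V → Has O T z →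
    AlgebraicIndependent O z → (∀ F, aeval z F ∈ V.nonunits ↔ F ∈ Ideal.span {C π, X i₀}) →
    (∀ a ∈ T, ∀ b ∈ T, a * b / algebraMap O K π ∈ T →
      a / algebraMap O K π ∈ T ∨ b / algebraMap O K π ∈ T) → z i₀ / algebraMap O K π ∉ T →
    (∀ c ∈ T, InF O z c → Frc O z V c) ∧
    ∀ b ∈ T, b ≠ 0 → ∃ e ∈ T, e ≠ 0 ∧ InF O z (e / b) ∧ ∀ c ∈ T, InF O z (c / b) → c / e ∈ T

-- deps: HOM NCF CYC TORIC
def S_TOR : Prop := ∀ (O K κ : Type) [CommRing O] [IsDomain O] [IsDiscreteValuationRing O]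
  [Field K] [CharZero K] [Algebra O K] [Finite κ] (π : O) (z : κ → K) (i₀ : κ)
  (B : Subalgebra O K) [IsNoetherianRing B] [IsIntegrallyClosed B] [IsFractionRing B K]
  (V : ValuationSubring K) (δ : Derivation O K K) (𝔮 : Ideal B),
    Irreducible π → Cen 𝔮 V → (∀ k, z k ∈ B) → (∀ k, δ (z k) = 0) → AlgebraicIndependent O z →
    (∀ F, aeval z F ∈ V.nonunits ↔ F ∈ Ideal.span {C π, X i₀}) → (∀ c, δ c = 0 → InF O z c) →
    (∀ b ∈ B, ∃ (t : Finset ℤ) (v : ℤ → K), (∀ j, v j ∈ B ∧ δ (v j) = j * v j) ∧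
      b = ∑ j ∈ t, v j) →
    (∀ b ∈ B, ∀ j : ℤ, j ≠ 0 → δ b = j * b → b ∈ V.nonunits) →
    (∃ b ∈ B, b ≠ 0 ∧ ∃ j : ℤ, j ≠ 0 ∧ δ b = j * b) →
    (∀ a b, loc (algebraMap B K) 𝔮 a → loc (algebraMap B K) 𝔮 b →
      loc (algebraMap B K) 𝔮 (a * b / algebraMap O K π) →
      loc (algebraMap B K) 𝔮 (a / algebraMap O K π) ∨
        loc (algebraMap B K) 𝔮 (b / algebraMap O K π)) →
    ¬ loc (algebraMap B K) 𝔮 (z i₀ / algebraMap O K π) → Dep2 (algebraMap O B π) 𝔮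

/-! ## The family -/

-- deps: NCF RES CHN
def S_SLV : Prop := ∀ (O K : Type) [CommRing O] [IsDomain O] [IsDiscreteValuationRing O]
  [Field K] [Algebra O K] (π : O) (s u : K) (N : Subalgebra O K) (𝔮 : Ideal N)
  (V : ValuationSubring K) (d n m : ℕ) (t : Fin n → K) (g : Set K) (x : Fin d → K),
    Irreducible π → Gen O (cs s u x) → s ∈ N → u ∈ N → 𝔮.IsPrime → Cen 𝔮 V →
    algebraMap O N π ∈ 𝔮 → locm (algebraMap N K) 𝔮 s → Slc s u N 𝔮 d t g → Td π 𝔮 m →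
    n ≤ d ∧ m ≤ n + 1 ∧ (n + 1 ≤ m → RI π V (Sum.elim (fun _ : Unit => u) t)) ∧
      (locm (algebraMap N K) 𝔮 u → m ≤ n)

-- deps: DEP NCF CHN CONST HOM GRN KER TOR
def S_SLD : Prop := ∀ (O K : Type) [CommRing O] [IsDomain O] [IsDiscreteValuationRing O]
  [Field K] [CharZero K] [Algebra O K] (π : O) (s u : K) (N : Subalgebra O K)
  [IsIntegrallyClosed N] [IsFractionRing N K] (𝔮 : Ideal N)
  (V : ValuationSubring K) (n : ℕ) (t : Fin n → K) (g : Set K) (x : Fin (n + 1) → K) (hs : s ∈ N),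
    Irreducible π → Gen O (cs s u x) → AlgebraicIndependent O (cs s u x) → u ∈ N → 𝔮.IsPrime →
    Cen 𝔮 V → algebraMap O N π ∈ 𝔮 → locm (algebraMap N K) 𝔮 s → Slc s u N 𝔮 (n + 1) t g →
    Gen O (Subtype.val : ↥(Set.range (cs s u t) ∪ g) → K) → RI π V (Sum.elim (fun _ : Unit => u) t) → Prime (algebraMap O N π) →
    ¬ algebraMap O N π ∣ ⟨s, hs⟩ → Dep2 (algebraMap O N π) 𝔮

-- deps: NCF RES CHN
def S_PRM : Prop := ∀ (O K : Type) [CommRing O] [IsDomain O] [IsDiscreteValuationRing O]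
  [Field K] [Algebra O K] (π : O) (s u : K) (N : Subalgebra O K) [Algebra.FiniteType O N]
  [IsIntegrallyClosed N] [IsFractionRing N K] (d : ℕ)
  (φ : MvPolynomial (Fin 2 ⊕ Fin d) O →ₐ[O] N) (D : Fin d → Derivation O K K) (Y : Set K)
  (hs : s ∈ N), Irreducible π → Function.Injective φ → φ.toRingHom.Finite →
    (∀ k, D k s = 0) → (∀ k, D k u = 0) →
    (∀ 𝔮 : Ideal N, 𝔮.IsPrime → algebraMap O N π ∈ 𝔮 → locm (algebraMap N K) 𝔮 s →
      ¬ Td π 𝔮 (d + 2)) →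
    (∀ 𝔮 : Ideal N, 𝔮.IsPrime → algebraMap O N π ∈ 𝔮 → ¬ locm (algebraMap N K) 𝔮 s →
      ∃ y : Fin d → K, Ch N 𝔮 (cs s u y) ∧
        (∀ S : Subring K, (∀ γ, loc (algebraMap N K) 𝔮 γ → γ ∈ S) → (algebraMap O K π)⁻¹ ∈ S →
          wr D y ^ 2 ∈ S) ∧
        ((∃ k, locm (algebraMap N K) 𝔮 (y k)) ∨
          (Set.range y = Y ∧ loc (algebraMap N K) 𝔮 (wr D y ^ 2)))) →
    Prime (algebraMap O N π) ∧ ¬ algebraMap O N π ∣ ⟨s, hs⟩ ∧
    ∀ 𝔮 : Ideal N, 𝔮.IsPrime → algebraMap O N π ∈ 𝔮 → ¬ locm (algebraMap N K) 𝔮 s →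
      ∃ y : Fin d → K, Ch N 𝔮 (cs s u y) ∧ loc (algebraMap N K) 𝔮 (wr D y)

-- deps: TD PDEP MT NCF CHN HSOP SLV SLD PRM
def S_ALG2 : Prop := ∀ (O K : Type) [CommRing O] [IsDomain O] [IsDiscreteValuationRing O]
  [Field K] [CharZero K] [Algebra O K] (p : ℕ) [Fact p.Prime] [CharP (ResidueField O) p]
  [PerfectField (ResidueField O)] (π : O) (s u : K) (N : Subalgebra O K) (d : ℕ),
    Irreducible π → Fam π s u N d → Flt2 π s u N d

/-! ## Specialization -/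

/-- the substitution `s = 0`, `u = 1` -/
def ev01 (O τ : Type) [CommRing O] : MvPolynomial (Fin 2 ⊕ τ) O →ₐ[O] MvPolynomial τ O :=
  aeval (Sum.elim ![0, 1] X)

-- deps:
structure S_FA : Prop where
  ker : ∀ {O τ : Type} [CommRing O] (F : MvPolynomial (Fin 2 ⊕ τ) O),
    F - rename .inr (ev01 O τ F) ∈
      Ideal.span {(X (.inl 0) : MvPolynomial (Fin 2 ⊕ τ) O), X (.inl 1) - 1}
  down : ∀ {O τ N L : Type} [CommRing O] [IsDomain O] [CommRing N] [CommRing L]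
    (φ : MvPolynomial (Fin 2 ⊕ τ) O →+* N) (φ₀ : MvPolynomial τ O →+* L) (π : O)
    (ρ : N →+* L) (r : MvPolynomial (Fin 2 ⊕ τ) O), π ≠ 0 → Function.Surjective ρ →
      (∀ F, ρ (φ F) = φ₀ (ev01 O τ F)) → FacH φ r →
      (∀ a, ρ a = 0 → ∃ k : ℕ, φ (C π) ^ k * a ∈
        Ideal.span {φ (X (.inl 0)), φ (X (.inl 1)) - 1}) → FacH φ₀ (ev01 O τ r)
  tor : ∀ {O τ N : Type} [CommRing O] [IsDomain O] [CommRing N]
    (φ : MvPolynomial (Fin 2 ⊕ τ) O →+* N) (π : O) (r : MvPolynomial (Fin 2 ⊕ τ) O), π ≠ 0 →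
      FacH φ r → ∀ (a : N) (k : ℕ), φ (C π) ^ k * a ∈
        Ideal.span {φ (X (.inl 0)), φ (X (.inl 1)) - 1} →
        φ r * a ∈ Ideal.span {φ (X (.inl 0)), φ (X (.inl 1)) - 1}

-- deps: FA
structure S_FCH : Prop where
  ker : ∀ {O K₀ K ν : Type} [CommRing O] [Field K₀] [Field K] [Algebra O K₀] [Algebra O K]
    [Algebra K₀ K] [IsScalarTower O K₀ K] {s u : K} {R : Subring K} {sp : R →+* K₀}
    (N : Subalgebra O K) (hs : s ∈ N) (hu : u ∈ N) (𝔮 : Ideal N) (y : ν → K₀),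
      Spc K₀ s u R sp → 𝔮.IsPrime → Ch N 𝔮 (cs s u fun k => algebraMap K₀ K (y k)) →
      ∀ (a : N) (h : (a : K) ∈ R), sp ⟨a, h⟩ = 0 →
        ∃ b, b ∉ 𝔮 ∧ b * a ∈ Ideal.span {(⟨s, hs⟩ : N), ⟨u, hu⟩ - 1}
  sur : ∀ {O K₀ K ν : Type} [CommRing O] [IsDomain O] [IsDiscreteValuationRing O] [Field K₀]
    [Field K] [Algebra O K₀] [Algebra O K] [Algebra K₀ K] [IsScalarTower O K₀ K] [Fintype ν]
    {s u : K} {R : Subring K} {sp : R →+* K₀} (N : Subalgebra O K) (ρ : N →+* K₀)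
    (𝔮 : Ideal N) (y x : ν → K₀) (Z₀ : Set K₀), Spc K₀ s u R sp → 𝔮.IsPrime →
      (∀ a : N, ∃ h : (a : K) ∈ R, sp ⟨a, h⟩ = ρ a) → RingHom.ker ρ ≤ 𝔮 →
      Ch N 𝔮 (cs s u fun k => algebraMap K₀ K (y k)) → AlgebraicIndependent O x →
      Gen O (Subtype.val : Z₀ → K₀) → (∀ c ∈ Z₀, ∃ a, ρ a = c) →
      ∀ c : K₀, IsIntegral (Algebra.adjoin O Z₀) c → loc ρ 𝔮 c

-- deps: NCF FA FCH
def S_SPEC2 : Prop := ∀ (O K₀ K : Type) [CommRing O] [IsDomain O] [IsDiscreteValuationRing O]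
  [Field K₀] [Field K] [Algebra O K₀] [Algebra O K] [Algebra K₀ K] [IsScalarTower O K₀ K]
  (π : O) (s u : K) (R : Subring K) (sp : R →+* K₀) (N : Subalgebra O K) (N₀ : Subalgebra O K₀)
  (Z : Set K) (Z₀ : Set K₀) (d : ℕ), Irreducible π → Spc K₀ s u R sp → Flt2 π s u N d →
    IsNc N Z → IsNc N₀ Z₀ → (∀ γ ∈ Z, ∃ h : γ ∈ R, sp ⟨γ, h⟩ ∈ N₀) →
    (∀ γ₀ ∈ Z₀, ∃ γ ∈ N, ∃ h : γ ∈ R, sp ⟨γ, h⟩ = γ₀) → Gen O (Subtype.val : Z₀ → K₀) →
    (∃ X : Fin d → K₀, Gen O X ∧ AlgebraicIndependent O X) →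
    (∀ 𝔮 : Ideal N, 𝔮.IsPrime → ¬ locm (algebraMap N K) 𝔮 (algebraMap O K π) →
      locm (algebraMap N K) 𝔮 s → locm (algebraMap N K) 𝔮 (u - 1) →
      ∃ y : Fin d → K₀, Ch N 𝔮 (cs s u fun k => algebraMap K₀ K (y k))) →
    ∃ φ : MvPolynomial (Fin d) O →ₐ[O] N₀, φ.toRingHom.Finite ∧
      ∃ c, C π ∣ c - 1 ∧ FacH φ.toRingHom c

-- deps: GRADE
def S_CMF2 : Prop := ∀ (O ν A : Type) [CommRing O] [IsDomain O] [IsDiscreteValuationRing O]
  [Fintype ν] [CommRing A] (φ : MvPolynomial ν O →+* A) (π : O) (c : MvPolynomial ν O)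
  (𝔭 : Ideal A) [𝔭.IsPrime], Irreducible π → φ.Finite → C π ∣ c - 1 → FacH φ c → φ (C π) ∈ 𝔭 →
    G.CMl (Localization.AtPrime 𝔭)

end

end Pool.Agent.P.MP_e7d440_ag.Z
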