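import Pool.Agent.P.MP_e7d440_ag.U.IfaceC
import Pool.Agent.P.MP_e7d440_ag.G.IfaceA

/-! The family over two parameters: abstract description. -/

set_option autoImplicit false

namespace Pool.Agent.P.MP_e7d440_ag.Z

open Pool.Agent.P.MP_e7d440_ag.U MvPolynomial

noncomputable section

/-- `γ` lies in the maximal ideal of the localization at `𝔮` -/
def locm {A K : Type} [CommRing A] [Field K] (φ : A →+* K) (𝔮 : Ideal A) (γ : K) : Prop :=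
  ∃ a b, a ∈ 𝔮 ∧ b ∉ 𝔮 ∧ γ * φ b = φ a

/-- the coordinates `s`, `u`, `y` -/
def cs {K ν : Type} (s u : K) (y : ν → K) : Fin 2 ⊕ ν → K := Sum.elim ![s, u] y

variable {O K : Type} [CommRing O] [Field K] [Algebra O K]

/-- `N` is the normalization of the algebra generated by `Z` -/
def IsNc (N : Subalgebra O K) (Z : Set K) : Prop :=
  ∀ γ, γ ∈ N ↔ IsIntegral (Algebra.adjoin O Z) γ

/-- the localization of `N` at `𝔮` is a localization of the algebra generated by `z` -/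
def Ch (N : Subalgebra O K) (𝔮 : Ideal N) {ν : Type} (z : ν → K) : Prop :=
  (∀ k, loc (algebraMap N K) 𝔮 (z k)) ∧ ∀ a : N, ∃ F G : MvPolynomial ν O,
    aeval z G ≠ 0 ∧ loc (algebraMap N K) 𝔮 (aeval z G)⁻¹ ∧ (a : K) * aeval z G = aeval z F

/-- a slice at `𝔮`: cell coordinates `t`, transversal coordinates `g` -/
structure Slc (s u : K) (N : Subalgebra O K) (𝔮 : Ideal N) (d : ℕ) {n : ℕ} (t : Fin n → K)
    (g : Set K) : Prop where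
  fin : g.Finite
  tl : ∀ k, loc (algebraMap N K) 𝔮 (t k)
  gl : ∀ γ ∈ g, locm (algebraMap N K) 𝔮 γ
  int : ∀ a : N, ∃ a' b' : K, IsIntegral (Algebra.adjoin O (Set.range (cs s u t) ∪ g)) a' ∧
    IsIntegral (Algebra.adjoin O (Set.range (cs s u t) ∪ g)) b' ∧ b' ≠ 0 ∧
    loc (algebraMap N K) 𝔮 b'⁻¹ ∧ (a : K) * b' = a'
  gen : Gen O (Subtype.val : ↥(Set.range (cs s u t) ∪ g) → K)
  ind : ∃ δ : Fin n → Derivation O K K, (∀ k, δ k s = 0 ∧ δ k u = 0 ∧ ∀ γ ∈ g, δ k γ = 0) ∧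
    wr δ t ≠ 0
  tor : ∃ (δ : Derivation O K K) (w : K → ℚ), δ s = 0 ∧ δ u = 0 ∧
    (∀ γ ∈ g, δ γ = (w γ : K) * γ) ∧ ((∀ γ ∈ g, δ γ = 0) → d ≤ n)

/-- the family -/
structure Fam (π : O) (s u : K) (N : Subalgebra O K) (d : ℕ) : Prop where
  gr : ∃ (Z : Set K) (w : K → ℚ) (δ : Derivation O K K), Z.Finite ∧ IsNc N Z ∧ s ∈ Z ∧ u ∈ Z ∧
    Gen O (Subtype.val : Z → K) ∧ ∀ γ ∈ Z, 0 < w γ ∧ δ γ = (w γ : K) * γ
  bas : ∃ X : Fin d → K, Gen O (cs s u X) ∧ AlgebraicIndependent O (cs s u X)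
  ch : ∃ (D : Fin d → Derivation O K K) (τ : Fin d → K) (Y : Set K),
    (∀ k, D k s = 0 ∧ D k u = 0 ∧ τ k ≠ 0 ∧ ∀ l, D k (τ l) = if k = l then τ l else 0) ∧
    (∀ 𝔮 : Ideal N, 𝔮.IsPrime → locm (algebraMap N K) 𝔮 (algebraMap O K π) →
      ¬ locm (algebraMap N K) 𝔮 s → ∃ y : Fin d → K, Ch N 𝔮 (cs s u y) ∧
        (∀ S : Subring K, (∀ γ, loc (algebraMap N K) 𝔮 γ → γ ∈ S) → (algebraMap O K π)⁻¹ ∈ S →
          wr D y ^ 2 ∈ S) ∧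
        ((∃ k, locm (algebraMap N K) 𝔮 (y k)) ∨
          (Set.range y = Y ∧ loc (algebraMap N K) 𝔮 (wr D y ^ 2)))) ∧
    ∀ 𝔮 : Ideal N, 𝔮.IsPrime → locm (algebraMap N K) 𝔮 (algebraMap O K π) →
      locm (algebraMap N K) 𝔮 s → ∃ (n : ℕ) (t : Fin n → K) (g : Set K), Slc s u N 𝔮 d t g ∧
        (d ≤ n → ∃ y : Fin d → K, Ch N 𝔮 (cs s u y) ∧ loc (algebraMap N K) 𝔮 (wr D y ^ 2))

/-- the conclusion for the family -/
def Flt (π : O) (s u : K) (N : Subalgebra O K) (d : ℕ) : Prop :=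
  ∃ φ : MvPolynomial (Fin 2 ⊕ Fin d) O →ₐ[O] N, (φ (X (.inl 0)) : K) = s ∧
    (φ (X (.inl 1)) : K) = u ∧ Function.Injective φ ∧ φ.toRingHom.Finite ∧ φ.toRingHom.Flat ∧
    (Ideal.span {algebraMap O N π, φ (X (.inl 0)), φ (X (.inl 1)) - 1}).IsRadical

/-- the local ring of the plane over `K₀` at the point `s = 0`, `u = 1` and its residue map -/
structure Spc (K₀ : Type) {K : Type} [Field K₀] [Field K] [Algebra K₀ K] (s u : K)
    (R : Subring K) (sp : R →+* K₀) : Prop where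
  const : ∀ a : K₀, ∃ h : algebraMap K₀ K a ∈ R, sp ⟨_, h⟩ = a
  s0 : ∃ h : s ∈ R, sp ⟨_, h⟩ = 0
  u1 : ∃ h : u ∈ R, sp ⟨_, h⟩ = 1
  inv : ∀ γ : R, sp γ ≠ 0 → (γ : K)⁻¹ ∈ R
  norm : ∀ γ : K, IsIntegral R γ → γ ∈ R
  ker : ∀ γ : R, sp γ = 0 → ∃ a b : R, (γ : K) = a * s + b * (u - 1)
  ind : AlgebraicIndependent K₀ ![s, u]
  gen : Gen K₀ ![s, u]

end

end Pool.Agent.P.MP_e7d440_ag.Z
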