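import Pool.Agent.P.MP_e7d440_ag.U.Iface4
import Pool.Agent.P.MP_e7d440_ag.Z.BaseA

/-! Big cells, slices and derivations on loops. -/

set_option autoImplicit false
set_option linter.unusedSectionVars false

namespace Pool.Agent.P.MP_e7d440_ag.Z

open Pool.Agent.P.MP_e7d440_ag.U TensorProduct LieAlgebra LaurentPolynomial Set

noncomputable section

variable {L Φ Δ : Type} [LieRing L] [LieAlgebra ℚ L] [Fintype Φ] [Fintype Δ] [DecidableEq Φ]
  [DecidableEq Δ] (c : CD L Φ Δ) {K : Type} [Field K] [CharZero K] (ζ : K)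
  {J : Type} [Fintype J] [DecidableEq J] (s : J → K)

/-- the modified lattice -/
def Lat (U : J → Submodule K (G L K)) (x : L) : Submodule K (LG L K) :=
  c.NN ζ s U ⊓ c.Sup x (Ici 0)

/-- the average of a basis vector -/
def bv (a : ℤ × (Φ ⊕ Δ)) : LG L K := mon a.1 (c.cc ζ (c.bs K a.2) a.1)

/-- `U` lies in the big cell centred at `x'` -/
structure Big (U : J → Submodule K (G L K)) (x x' : L) : Prop where
  fd : ∀ j, c.FD (U j)
  fix : c.Fix x
  fix' : c.Fix x'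
  lo : ∀ f ∈ c.Eqv ζ, f ∈ c.Sup x' (Ici (c.dg J : ℚ)) → f ∈ c.Sup x (Ici 0)
  hi : ∀ f ∈ c.Eqv ζ, f ∈ c.Sup x (Ici (2 * c.dg J : ℚ)) → f ∈ c.Sup x' (Ici (c.dg J : ℚ))
  uniq : ∀ f ∈ Lat c ζ s U x, f ∈ c.Sup x' (Iio (c.dg J : ℚ)) → f = 0
  ex : ∀ e ∈ c.Eqv ζ, e ∈ c.Sup x' (Ici (c.dg J : ℚ)) →
    ∃ f ∈ Lat c ζ s U x, f - e ∈ c.Sup x' (Iio (c.dg J : ℚ))

/-- the coordinates of `U` in the big cell -/
def Gn (U : J → Submodule K (G L K)) (x x' : L) : Set K :=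
  {t | ∃ a b f, (c.dg J : ℚ) ≤ c.wt x' a ∧ c.wt x a < 2 * c.dg J ∧ c.wt x' b < c.dg J ∧
    f ∈ Lat c ζ s U x ∧ f - bv c ζ a ∈ c.Sup x' (Iio (c.dg J : ℚ)) ∧ t = c.co b f}

/-- the integral window is spanned by loops with coordinates in `S` modulo the maximal ideal -/
def Spn (S : Subring K) (V : ValuationSubring K) (U : J → Submodule K (G L K)) (x : L) : Prop :=
  ∀ f ∈ c.Win ζ s U x 0, c.In V f → ∃ g ∈ Submodule.span V.toSubring
    {w | w ∈ c.Win ζ s U x 0 ∧ c.In S w}, c.In V.nonunits (f - g)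

/-- `Z` is a system of coordinates of `U` near a point of the closure -/
structure Sys (U : J → Submodule K (G L K)) (x : L) (Z : Set K) : Prop where
  fin : Z.Finite
  spn : ∀ (S : Subring K) (V : ValuationSubring K), c.SD ζ S → (∀ j, s j ∈ S) →
    (∀ γ ∈ S, γ ∈ V) → Z ⊆ S → Spn c ζ s S V U x
  of : ∀ (S : Subring K) (V : ValuationSubring K), Dom S V → c.SD ζ S → (∀ j, s j ∈ S) →
    Z ⊆ V → Spn c ζ s S V U x → Z ⊆ S
  frac : ∀ S : Subfield K, ζ ∈ S → (∀ j, s j ∈ S) → Z ⊆ S → ∀ j, c.Def0 S (U j)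

/-- `f` is the loop of the modified lattice with leading term `h` -/
def FH (U : J → Submodule K (G L K)) (x x' h : L) (f : LG L K) : Prop :=
  f ∈ Lat c ζ s U x ∧ f - (T (c.dg J : ℤ) : LP K) • c0 (LP K) h ∈ c.Sup x' (Iio (c.dg J : ℚ))

/-- integral fixed coweights -/
def IH (h : L) : Prop := c.Fix h ∧ ∀ i, ∃ m : ℤ, c.bas.repr h i = m

/-- every root takes a unit value on an integral fixed coweight -/
def UH (S : Subring K) : Prop :=
  ∀ α, ∃ (h : L) (n : ℤ), IH c h ∧ c.al α h = n ∧ n ≠ 0 ∧ (n : K)⁻¹ ∈ S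

/-- `U` lies in the slice -/
def Sl (U : J → Submodule K (G L K)) (x x' : L) : Prop :=
  ∀ h f, c.Fix h → FH c ζ s U x x' h f → f ∈ c.Sup c.ρ (Iic (c.dg J : ℚ))

/-- the gallery `a` crosses the walls between the base alcove and `x'` -/
structure Cr (x x' z : L) {n : ℕ} (a : Fin n → Φ × ℤ) : Prop where
  cl : c.Cl ζ c.ρ x
  reg : c.Reg ζ z
  gal : c.Gal ζ z n c.ρ a
  cl' : c.Cl ζ z x'
  neg : ∀ k, c.val (a k) x' < 0

/-- a subring in which the legs and their differences are units -/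
structure HP (S : Subring K) : Prop where
  sd : c.SD ζ S
  mem : ∀ j, s j ∈ S
  inv : ∀ j, (s j)⁻¹ ∈ S
  inv' : ∀ i j, (s i ^ c.ℓ - s j ^ c.ℓ)⁻¹ ∈ S

/-- `ϖ` is topologically nilpotent -/
def Arch (V : ValuationSubring K) (ϖ : K) : Prop :=
  ϖ ≠ 0 ∧ ϖ ∈ V.nonunits ∧ ∀ γ : K, ∃ M : ℕ, ϖ ^ M * γ ∈ V

/-- an additive map acting on the coordinates of loops -/
def dl (δ : K →+ K) : LG L K →+ LG L K :=
  ((c.BB K).repr.symm.toLinearMap.toAddMonoidHom.comp (Finsupp.mapRange.addMonoidHom δ)).comp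
    (c.BB K).repr.toLinearMap.toAddMonoidHom

lemma co_dl (δ : K →+ K) (a : ℤ × (Φ ⊕ Δ)) (f : LG L K) : c.co a (dl c δ f) = δ (c.co a f) := by
  simp [dl, c.co_repr]

/-- a derivation which kills `ζ` and rescales the legs -/
structure Der (δ : K →+ K) (ε : ℚ) : Prop where
  leib : ∀ a b, δ (a * b) = a * δ b + b * δ a
  zeta : δ ζ = 0
  leg : ∀ j, δ (s j) = (ε : K) * s j

/-- the twisted derivation -/
def Th (δ : K →+ K) (ε : ℚ) (ξ f : LG L K) : LG L K := dl c δ f + (ε : K) • dd f - ⁅ξ, f⁆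

/-- the twisted derivation preserves the modified loop algebra -/
def Pres (δ : K →+ K) (ε : ℚ) (ξ : LG L K) (U : J → Submodule K (G L K)) : Prop :=
  ∀ f ∈ c.NN ζ s U, Th c δ ε ξ f ∈ c.NN ζ s U

/-- the condition at the legs -/
def Leg (δ : K →+ K) (ξ : J → G L K) (U : J → Submodule K (G L K)) : Prop :=
  ∀ j, ∀ v ∈ U j, mqa δ v - ⁅ξ j, v⁆ ∈ U j

/-- `g` fixes `x` and lowers the weights of `x'` -/
structure Un (g : Op L K) (x x' : L) : Prop where
  la : c.LA ζ g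
  sup : ∀ r, ∀ f ∈ c.Eqv ζ, g f ∈ c.Sup x (Ici r) ↔ f ∈ c.Sup x (Ici r)
  low : c.Low ζ x' g

/-- loops raising the weights of the base alcove and lowering those of `x'` -/
def Nn (x' : L) : Submodule K (LG L K) := c.Eqv ζ ⊓ (c.Sup c.ρ (Ioi 0) ⊓ c.Sup x' (Iio 0))

end

section
variable {L Φ Δ : Type} [LieRing L] [LieAlgebra ℚ L] [Fintype Φ] [Fintype Δ] [DecidableEq Φ]
  [DecidableEq Δ] (c : CD L Φ Δ) {O K J : Type} [CommRing O] [Field K] [CharZero K] [Algebra O K]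
  [Fintype J] [DecidableEq J]

/-- the legs of the family -/
def lg (κ σ : J → O) (s u : K) (j : J) : K := algebraMap O K (κ j) * s + algebraMap O K (σ j) * u

/-- the data of the family -/
structure Fm (ζ : O) (κ σ : J → O) (s u : K) (μ : J → L) (r : L) (X : c.Id μ → K) (x : L) :
    Prop where
  od : c.OD ζ σ
  unit : ∀ j, IsUnit (κ j)
  diff : ∀ i j, i ≠ j → IsUnit (κ i ^ c.ℓ - κ j ^ c.ℓ)
  pt : c.Pt (algebraMap O K ζ) (lg κ σ s u)
  co : c.Co μ r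
  gen : Gen O (cs s u X)
  ind : AlgebraicIndependent O (cs s u X)
  cl : c.Cl (algebraMap O K ζ) c.ρ x
  uh : ∀ S : Subring K, (∀ o, algebraMap O K o ∈ S) → UH c S

/-- logarithmic coordinates of the family -/
structure Lg (ζ : O) (κ σ : J → O) (s u : K) (U : J → Submodule K (G L K)) {d : ℕ}
    (D : Fin d → Derivation O K K) (τ : Fin d → K) (ν : ℚ) : Prop where
  der : ∀ k, D k s = 0 ∧ D k u = 0 ∧ τ k ≠ 0 ∧ ∀ l, D k (τ l) = if k = l then τ l else 0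
  vol : c.Vol (algebraMap O K ζ) (lg κ σ s u) D U ν
  nu : ν ≠ 0
  dvd : ∀ (lam : J → L) r (X : c.Id lam → K), c.Co lam r → U = c.cell lam X →
    ∃ o : O, (c.cnu lam : K) = algebraMap O K o * ν
  gp : ∀ S : Subfield K, (∀ o, algebraMap O K o ∈ S) → s ∈ S → u ∈ S →
    (∀ j, c.Def0 S (U j)) → S = ⊤

end

end Pool.Agent.P.MP_e7d440_ag.Z
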