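import Pool.Agent.P.MP_e7d440_ag.U.All
import Pool.Agent.P.MP_e7d440_ag.Z.BaseG

/-! Logarithmic coordinates of the family. -/

namespace Pool.Agent.P.MP_e7d440_ag.Z

open TensorProduct LieAlgebra LaurentPolynomial Set U

variable {L Φ Δ : Type} [LieRing L] [LieAlgebra ℚ L] [Fintype Φ] [Fintype Δ] [DecidableEq Φ]
  [DecidableEq Δ] {c : CD L Φ Δ} {O K J : Type} [CommRing O] [Field K] [CharZero K] [Algebra O K]
  [Fintype J] [DecidableEq J]

set_option linter.unusedSectionVars false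

/-- the coordinate ring of the plane of parameters -/
abbrev Lam (O : Type) {K : Type} [CommRing O] [Field K] [Algebra O K] (s u : K) :
    Subalgebra O K := Algebra.adjoin O (range ![s, u])

lemma lam_s (s u : K) : s ∈ Lam O s u := Algebra.subset_adjoin ⟨0, rfl⟩

lemma lam_u (s u : K) : u ∈ Lam O s u := Algebra.subset_adjoin ⟨1, rfl⟩

lemma lam_le {s u : K} {S : Subring K} (h : ∀ o, algebraMap O K o ∈ S) (hs : s ∈ S) (hu : u ∈ S)
    (a : Lam O s u) : (a : K) ∈ S := by
  obtain ⟨a, ha⟩ := a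
  induction ha using Algebra.adjoin_induction with
  | mem g hg =>
    obtain ⟨i, rfl⟩ := hg
    fin_cases i
    exacts [hs, hu]
  | algebraMap o => exact h o
  | add a b _ _ h1 h2 => exact S.add_mem h1 h2
  | mul a b _ _ h1 h2 => exact S.mul_mem h1 h2

lemma gen_cs {ν : Type} {s u : K} {y : ν → K} : Gen O (cs s u y) ↔ Gen (Lam O s u) y := by
  rw [gen.clos, gen.clos]
  refine Eq.congr_left (le_antisymm (Subfield.closure_le.2 (union_subset ?_ ?_))
    (Subfield.closure_le.2 (union_subset ?_ ?_)))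
  · rintro _ ⟨o, rfl⟩
    exact Subfield.subset_closure (Or.inl ⟨algebraMap O _ o, rfl⟩)
  · rintro _ ⟨i | i, rfl⟩
    · exact Subfield.subset_closure (Or.inl ⟨⟨_, Algebra.subset_adjoin ⟨i, rfl⟩⟩, rfl⟩)
    · exact Subfield.subset_closure (Or.inr ⟨i, rfl⟩)
  · rintro _ ⟨a, rfl⟩
    exact lam_le (S := (Subfield.closure (range (algebraMap O K) ∪ range (cs s u y))).toSubring)
      (fun o => Subfield.subset_closure (Or.inl ⟨o, rfl⟩))
      (Subfield.subset_closure (Or.inr ⟨.inl 0, rfl⟩))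
      (Subfield.subset_closure (Or.inr ⟨.inl 1, rfl⟩)) a
  · rintro _ ⟨i, rfl⟩
    exact Subfield.subset_closure (Or.inr ⟨.inr i, rfl⟩)

lemma ind_cs {ν : Type} {s u : K} {y : ν → K} : AlgebraicIndependent O (cs s u y) ↔
    AlgebraicIndependent O ![s, u] ∧ AlgebraicIndependent (Lam O s u) y := by
  rw [← AlgebraicIndependent.sumElim_iff]
  refine (algebraicIndependent_equiv' (Equiv.sumComm _ _) ?_).symm
  ext (i | i) <;> rfl

lemma lg_mem (κ σ : J → O) (s u : K) (j : J) : lg κ σ s u j ∈ Lam O s u :=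
  add_mem (mul_mem (Subalgebra.algebraMap_mem _ _) (lam_s s u))
    (mul_mem (Subalgebra.algebraMap_mem _ _) (lam_u s u))

variable {ζ : O} {κ σ : J → O} {s u : K} {μ : J → L} {r : L} {X : c.Id μ → K} {x : L}

lemma fm_od [Nontrivial O] (F : Fm c ζ κ σ s u μ r X x) :
    c.OD (algebraMap O (Lam O s u) ζ) fun j => (⟨_, lg_mem κ σ s u j⟩ : Lam O s u) := by
  have hI := (ind_cs.1 F.ind).1
  refine ⟨F.od.prim.map_of_injective (fun a b e => F.ind.algebraMap_injective
    (congrArg Subtype.val e)), by simpa using F.od.unit.map (algebraMap O (Lam O s u)),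
    fun j e => F.pt.ne j (congrArg Subtype.val e), fun j hj => ?_,
    fun i j e => F.pt.inj (by simpa using congrArg Subtype.val e)⟩
  have e : hI.aevalEquiv (MvPolynomial.C (κ j) * MvPolynomial.X 0 +
      MvPolynomial.C (σ j) * MvPolynomial.X 1) = ⟨_, lg_mem κ σ s u j⟩ := by
    apply Subtype.ext
    rw [← Subalgebra.algebraMap_apply, hI.algebraMap_aevalEquiv]
    simp [lg]
  rw [← e] at hj
  have h1 := (hj.map hI.aevalEquiv.symm).map MvPolynomial.constantCoeff
  simp at h1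

open ExlA VertA in
theorem lgx (h : TA c) [IsDomain O] [IsDiscreteValuationRing O] (F : Fm c ζ κ σ s u μ r X x) :
    ∃ (D : Fin (Fintype.card (c.Id μ)) → Derivation O K K)
      (τ : Fin (Fintype.card (c.Id μ)) → K) (ν : ℚ), Lg c ζ κ σ s u (c.cell μ X) D τ ν := by
  have hO := fm_od F
  have hCo := F.co
  have hG : Gen (Lam O s u) X := gen_cs.1 F.gen
  have hI := (ind_cs.1 F.ind).2
  have hinj := hI.algebraMap_injective
  have T := h K _ J _ F.pt
  have hGP : c.GenPt (Lam O s u) (c.cell μ X) := fun S h1 h2 =>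
    top_le_iff.1 (((gen.clos X).1 hG).ge.trans
      (Subfield.closure_le.2 (union_subset (range_subset_iff.2 h1)
        (range_subset_iff.2 ((T.leg.def_cell S μ X hCo.2.2.1).1 h2)))))
  obtain ⟨lam, ⟨r', X', hCo', hU⟩, hmin⟩ := exists_min
    (fun l l' : J → L => ∃ o : O, (c.cnu l' : K) = algebraMap O K o * c.cnu l)
    (fun a b => rat_dvd O K _ _) (fun a b c ⟨o, e⟩ ⟨o', e'⟩ => ⟨o' * o, by
      rw [e', e, map_mul, mul_assoc]⟩)
    (A := {l | ∃ r X', c.Co l r ∧ c.cell μ X = c.cell l X'})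
    ((Set.Finite.pi' fun _ => T.count.fin).subset fun l ⟨_, _, h, _⟩ => h.2.2.1) ⟨μ, r, X, hCo, rfl⟩
  have hc : Fintype.card (c.Id lam) = Fintype.card (c.Id μ) := by
    rw [← T.leg.rank_cell lam X' hCo'.2.2.1, ← hU, T.leg.rank_cell μ X hCo.2.2.1]
  have hG' : Gen (Lam O s u) X' :=
    gen_of hGP _ fun S _ h2 => hU ▸ (T.leg.def_cell S lam X' hCo'.2.2.1).2 h2
  obtain ⟨b, t, hw, ht, hGt, hU', hp⟩ := exl h _ _ lam r' X' hO hinj hCo' hG'
    (gen.indep _ X hG' hI hc.le)
  rw [← hc]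
  obtain ⟨f, hf⟩ := gen.iso t _ hGt gen_TT (gen.indep _ X hGt hI (by simp [hc])) ind_TT
  obtain ⟨D₀, hD₀⟩ := der.frac (O := Lam O s u) (σ := Fin (Fintype.card (c.Id lam)))
  choose D hD using fun k => der_map f (D₀ k)
  have hder : ∀ k l, ((t k • D k).restrictScalars O) (t l) = if k = l then t l else 0 :=
    fun k l => by
    rw [Derivation.restrictScalars_apply, Derivation.smul_apply, ← hf l, hD, TT, hD₀,
      MvPolynomial.pderiv_X]
    by_cases e : k = l
    · subst e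
      simp [← hf, TT]
    · simp [e]
  have h0 : ∀ k (a : Lam O s u), ((t k • D k).restrictScalars O) a = 0 := fun k a =>
    (t k • D k).map_algebraMap a
  refine ⟨fun k => (t k • D k).restrictScalars O, t, c.cnu lam,
    fun k => ⟨h0 k ⟨s, lam_s s u⟩, h0 k ⟨u, lam_u s u⟩, ht k, hder k⟩, ?_,
    (T.count.cnu_pos lam).ne', fun l r X' h1 h2 => hmin l ⟨r, X', h1, h2⟩,
    fun S h1 h2 h3 h4 => hGP S (lam_le (S := S.toSubring) h1 h2 h3) h4⟩
  rw [hU, hU', ← hp]
  exact T.det _ lam r' b t hCo' hw (fun i => Derivation.map_algebraMap _ _)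
    (fun i j => h0 i ⟨_, lg_mem κ σ s u j⟩) hder

end Pool.Agent.P.MP_e7d440_ag.Z
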