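import Pool.Agent.P.MP_e7d440_ag.Z.BaseA

/-! The top statements in commutative algebra. -/

set_option autoImplicit false

namespace Pool.Agent.P.MP_e7d440_ag.Z

open Pool.Agent.P.MP_e7d440_ag.U MvPolynomial IsLocalRing

-- deps:
def S_RSP : Prop := ∀ (K₀ : Type) [Field K₀], ∃ (K : Type) (_ : Field K) (_ : Algebra K₀ K)
  (s u : K) (R : Subring K) (sp : R →+* K₀), Spc K₀ s u R sp

-- deps:
def S_DSC : Prop := ∀ (B A : Type) [CommRing B] [IsLocalRing B] [IsNoetherianRing B]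
  [CommRing A] [Nontrivial A] [Algebra B A] [Module.Finite B A] [Module.Free B A],
    (∀ (𝔫 : Ideal A) [𝔫.IsMaximal], G.CMl (Localization.AtPrime 𝔫)) → G.CMl B

-- deps:
def S_ARCH : Prop := ∀ (A K : Type) [CommRing A] [IsDomain A] [IsNoetherianRing A] [Field K]
  [Algebra A K] [IsFractionRing A K] (𝔮 : Ideal A), 𝔮.IsPrime → 𝔮 ≠ ⊥ →
    ∃ (T : Subring K) (V : ValuationSubring K), (∀ γ, γ ∈ T ↔ loc (algebraMap A K) 𝔮 γ) ∧
      Dom T V ∧ (∀ γ ∈ T, γ ∈ V.nonunits ↔ locm (algebraMap A K) 𝔮 γ) ∧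
      ∀ a ∈ T, a ∈ V.nonunits → a ≠ 0 → ∀ γ : K, ∃ M : ℕ, a ^ M * γ ∈ V

end Pool.Agent.P.MP_e7d440_ag.Z
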