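import Pool.Agent.P.MP_e7d440_ag.Z.BaseH
import Pool.Agent.P.MP_e7d440_ag.Z.BaseLg
import Pool.Agent.P.MP_e7d440_ag.Z.IfaceT

/-! Charts of the family at primes where the legs stay apart. -/

namespace Pool.Agent.P.MP_e7d440_ag.Z

open TensorProduct LieAlgebra LaurentPolynomial Set U

variable {L Φ Δ : Type} [LieRing L] [LieAlgebra ℚ L] [Fintype Φ] [Fintype Δ] [DecidableEq Φ]
  [DecidableEq Δ] {c : CD L Φ Δ} {O K J : Type} [CommRing O] [Field K] [CharZero K] [Algebra O K]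
  [Fintype J] [DecidableEq J]

set_option linter.unusedSectionVars false

/-- `Z` is a set of coordinates of the window of `U` -/
structure Crd (c : CD L Φ Δ) (ζ : O) (κ σ : J → O) (s u : K) (U : J → Submodule K (G L K))
    (x : L) (Z : Set K) : Prop where
  spn : ∀ (S : Subring K) (V : ValuationSubring K), Dom S V → (∀ o, algebraMap O K o ∈ S) →
    s ∈ S → u ∈ S → Z ⊆ S → Spn c (algebraMap O K ζ) (lg κ σ s u) S V U x
  sub : ∀ (S : Subring K) (V : ValuationSubring K), Dom S V → (∀ o, algebraMap O K o ∈ S) →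
    s ∈ S → u ∈ S → Z ⊆ V → Spn c (algebraMap O K ζ) (lg κ σ s u) S V U x → Z ⊆ S

lemma aeval_mem {ν : Type} {R : Subring K} (hO : ∀ o, algebraMap O K o ∈ R) {y : ν → K}
    (hy : ∀ k, y k ∈ R) (F : MvPolynomial ν O) : MvPolynomial.aeval y F ∈ R := by
  induction F using MvPolynomial.induction_on with
  | C o => simpa using hO o
  | add F G h1 h2 => rw [map_add]; exact R.add_mem h1 h2
  | mul_X F k h1 => rw [map_mul, MvPolynomial.aeval_X]; exact R.mul_mem h1 (hy _)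

lemma int_mem {Z : Set K} {S : Subring K} (hO : ∀ o, algebraMap O K o ∈ S) (hZ : Z ⊆ S)
    (hS : ∀ γ : K, IsIntegral S γ → γ ∈ S) {γ : K} (h : IsIntegral (Algebra.adjoin O Z) γ) :
    γ ∈ S := by
  have hle : ∀ a : Algebra.adjoin O Z, (a : K) ∈ S := by
    rintro ⟨a, ha⟩
    induction ha using Algebra.adjoin_induction with
    | mem g hg => exact hZ hg
    | algebraMap o => exact hO o
    | add a b _ _ h1 h2 => exact S.add_mem h1 h2
    | mul a b _ _ h1 h2 => exact S.mul_mem h1 h2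
  exact hS _ (IsIntegral.map_of_comp_eq ((Subalgebra.val _).toRingHom.codRestrict S hle)
    (RingHom.id K) (RingHom.ext fun _ => rfl) h)

lemma nc_mem {N : Subalgebra O K} {Z : Set K} (h : IsNc N Z) {γ : K} (hγ : γ ∈ Z) : γ ∈ N :=
  (h γ).2 (isIntegral_algebraMap (x := (⟨γ, Algebra.subset_adjoin hγ⟩ : Algebra.adjoin O Z)))

/-- The normal local subring generated by a chart. -/
lemma loc_ring [IsDomain O] [IsDiscreteValuationRing O] {ν : Type} [Finite ν] {y : ν → K}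
    {R : Subring K} {V : ValuationSubring K} (hRV : Dom R V) (hG : Gen O y)
    (hI : AlgebraicIndependent O y) (hO : ∀ o, algebraMap O K o ∈ R) (hy : ∀ k, y k ∈ R) :
    ∃ S : Subring K, Dom S V ∧ (∀ o, algebraMap O K o ∈ S) ∧ (∀ k, y k ∈ S) ∧
      (∀ γ ∈ S, γ ∈ R) ∧ (∀ γ : K, IsIntegral S γ → γ ∈ S) ∧
      ∀ γ, γ ∈ S ↔ ∃ F G : MvPolynomial ν O, MvPolynomial.aeval y G ≠ 0 ∧
        (MvPolynomial.aeval y G)⁻¹ ∈ R ∧ γ * MvPolynomial.aeval y G = MvPolynomial.aeval y F := by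
  obtain ⟨S, hS1, hS2⟩ := gen.norm _ R hG hI hO hy
  have hSR : ∀ γ ∈ S, γ ∈ R := fun γ hγ => by
    obtain ⟨F, G, h1, h2, h3⟩ := (hS1 γ).1 hγ
    rw [(eq_mul_inv_iff_mul_eq₀ h1).2 h3]
    exact R.mul_mem (aeval_mem hO hy F) h2
  refine ⟨S, ⟨fun γ hγ => hRV.le _ (hSR γ hγ), fun γ hγ hn => ?_⟩, fun o =>
    (hS1 _).2 ⟨MvPolynomial.C o, 1, by simp, by simp, by simp⟩, fun k =>
    (hS1 _).2 ⟨MvPolynomial.X k, 1, by simp, by simp, by simp⟩, hSR, hS2, hS1⟩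
  obtain ⟨F, G, h1, h2, h3⟩ := (hS1 γ).1 hγ
  have h0 : γ ≠ 0 := fun h0 => hn (h0 ▸ V.nonunits.zero_mem)
  refine (hS1 _).2 ⟨G, F, h3 ▸ mul_ne_zero h0 h1, ?_, ?_⟩
  · rw [← h3, mul_inv]
    exact R.mul_mem (hRV.inv _ (hSR γ hγ) hn) h2
  · rw [← h3, inv_mul_cancel_left₀ h0]

lemma inv_dom {R S : Subring K} {V : ValuationSubring K} (hR : Dom R V) (hS : Dom S V) {γ : K}
    (h1 : γ ∈ S) (h2 : γ⁻¹ ∈ R) : γ⁻¹ ∈ S := by
  by_cases h0 : γ = 0
  · simp [h0]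
  refine hS.inv _ h1 fun hn => ?_
  have := (SM.nonunits V).mul _ (hR.le _ h2) _ hn
  rw [inv_mul_cancel₀ h0] at this
  simpa using V.mem_nonunits_iff.1 this

variable {ζ : O} {κ σ : J → O} {s u : K} {μ : J → L} {r : L} {X : c.Id μ → K} {x : L}

lemma lg_in {S : Subring K} (hO : ∀ o, algebraMap O K o ∈ S) (hs : s ∈ S) (hu : u ∈ S) (j : J) :
    lg κ σ s u j ∈ S := S.add_mem (S.mul_mem (hO _) hs) (S.mul_mem (hO _) hu)

theorem hch [IsDomain O] [IsDiscreteValuationRing O] (F : Fm c ζ κ σ s u μ r X x)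
    (hgp : ∀ S : Subfield K, (∀ o, algebraMap O K o ∈ S) → s ∈ S → u ∈ S →
      (∀ j, c.Def0 S (c.cell μ X j)) → S = ⊤) {d : ℕ} (hd : d = Fintype.card (c.Id μ))
    {N : Subalgebra O K} {Z Z' : Set K} (hN : IsNc N Z') (hs : s ∈ N) (hu : u ∈ N) (hZ : Z ⊆ N)
    (hZ' : Z' ⊆ {s, u} ∪ Z) (hC : Crd c ζ κ σ s u (c.cell μ X) x Z) {𝔮 : Ideal N}
    (hq : 𝔮.IsPrime) {T : Subring K} {V : ValuationSubring K}
    (hT : ∀ γ, γ ∈ T ↔ loc (algebraMap N K) 𝔮 γ) (hTV : Dom T V) {ϖ : K} (hϖ : Arch V ϖ)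
    (hP : HP c (algebraMap O K ζ) (lg κ σ s u) T) :
    ∃ (lam : J → L) (X' : c.Id lam → K) (e : Fin d ≃ c.Id lam), (∀ j, c.Min (lam j)) ∧
      c.cell μ X = c.cell lam X' ∧ (∀ p, X' p ∈ T) ∧
      (∀ p, 0 < c.al p.1.2 c.ρ → X' p ∈ V.nonunits) ∧ Ch N 𝔮 (cs s u fun k => X' (e k)) := by
  have T3 := ta c K _ J _ F.pt
  have hMin := F.co.2.2.1
  have hNT : ∀ γ ∈ N, γ ∈ T := fun γ hγ => (hT _).2 (loc_map (algebraMap N K) hq ⟨γ, hγ⟩)
  have hOT : ∀ o, algebraMap O K o ∈ T := fun o => hNT _ (N.algebraMap_mem o)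
  obtain ⟨lam, X', hMin', hU, hX, hX'⟩ := h1s F.pt hTV hP hϖ F.co X F.cl.1
    (hC.spn T V hTV hOT (hNT _ hs) (hNT _ hu) fun γ hγ => hNT _ (hZ hγ))
  have hc : Fintype.card (c.Id lam) = d := by
    rw [← T3.leg.rank_cell lam X' hMin', ← hU, T3.leg.rank_cell μ X hMin, hd]
  let e : Fin d ≃ c.Id lam := (Fintype.equivFinOfCardEq hc).symm
  have hGen : Gen O (cs s u fun k => X' (e k)) := (gen.clos _).2 (hgp _
    (fun o => Subfield.subset_closure (Or.inl ⟨o, rfl⟩))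
    (Subfield.subset_closure (Or.inr ⟨.inl 0, rfl⟩))
    (Subfield.subset_closure (Or.inr ⟨.inl 1, rfl⟩))
    (hU ▸ (T3.leg.def_cell _ lam X' hMin').2 fun p =>
      Subfield.subset_closure (Or.inr ⟨.inr (e.symm p), by simp [cs]⟩)))
  have hI' := gen.indep _ _ hGen F.ind (by simp [hd])
  have hy : ∀ k, cs s u (fun k => X' (e k)) k ∈ T := by
    rintro (k | k)
    · fin_cases k
      exacts [hNT _ hs, hNT _ hu]
    · exact hX _
  obtain ⟨S, s1, s2, s3, s4, s5, s6⟩ := loc_ring hTV hGen hI' hOT hy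
  have hl := lg_in (κ := κ) (σ := σ) s2 (s3 (.inl 0)) (s3 (.inl 1))
  have hPS : HP c (algebraMap O K ζ) (lg κ σ s u) S := ⟨VertA.sd F.od s2, hl,
    fun j => inv_dom hTV s1 (hl j) (hP.inv j), fun i j => inv_dom hTV s1
      (S.sub_mem (S.pow_mem (hl i) _) (S.pow_mem (hl j) _)) (hP.inv' i j)⟩
  have hZS : Z ⊆ S := hC.sub S V s1 s2 (s3 (.inl 0)) (s3 (.inl 1))
    (fun γ hγ => hTV.le _ (hNT _ (hZ hγ))) (hU ▸ h2s F.pt s1.le hPS hMin'
      (fun p => by simpa [cs] using s3 (.inr (e.symm p))) F.cl.1)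
  refine ⟨lam, X', e, hMin', hU, hX, hX', fun k => (hT _).1 (hy k), fun a => ?_⟩
  obtain ⟨F, G, h1, h2, h3⟩ := (s6 a).1 (int_mem s2 (fun γ hγ => by
    rcases hZ' hγ with (rfl | rfl) | h
    exacts [s3 (.inl 0), s3 (.inl 1), hZS h]) s5 ((hN _).1 a.2))
  exact ⟨F, G, h1, (hT _).1 h2, h3⟩

lemma inv_pi [IsDomain O] [IsDiscreteValuationRing O] {π : O} (hπ : Irreducible π)
    {R : Subring K} (hOR : ∀ o, algebraMap O K o ∈ R) (hπR : (algebraMap O K π)⁻¹ ∈ R) (o : O) :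
    (algebraMap O K o)⁻¹ ∈ R := by
  by_cases h0 : o = 0
  · simp [h0]
  obtain ⟨n, u, rfl⟩ := IsDiscreteValuationRing.eq_unit_mul_pow_irreducible h0 hπ
  have : (algebraMap O K (u : O))⁻¹ = algebraMap O K (↑u⁻¹ : O) :=
    inv_eq_of_mul_eq_one_right (by rw [← map_mul]; simp)
  rw [map_mul, map_pow, mul_inv, this, ← inv_pow]
  exact R.mul_mem (hOR _) (R.pow_mem hπR n)

lemma unit_nn {V : ValuationSubring K} {a b : K} (ha : a⁻¹ ∈ V) (h0 : a ≠ 0)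
    (hb : b - a ∈ V.nonunits) : b ∉ V.nonunits := fun h => by
  have := (SM.nonunits V).mul _ ha _ (V.nonunits.sub_mem h hb)
  rw [sub_sub_cancel, inv_mul_cancel₀ h0] at this
  simpa using V.mem_nonunits_iff.1 this

lemma pow_nn {V : ValuationSubring K} {a b : K} (ha : a ∈ V) (hb : b ∈ V)
    (h : b - a ∈ V.nonunits) (n : ℕ) : b ^ n - a ^ n ∈ V.nonunits := by
  rw [← geom_sum₂_mul]
  exact (SM.nonunits V).mul _ (V.toSubring.sum_mem fun i _ =>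
    V.toSubring.mul_mem (V.toSubring.pow_mem hb _) (V.toSubring.pow_mem ha _)) _ h

/-- The legs stay apart if they are congruent to `a j * w` with units `a j`, `w`. -/
lemma hp_of {ζ : K} {t a : J → K} {w : K} {T : Subring K} {V : ValuationSubring K} (h : Dom T V)
    (hsd : c.SD ζ T) (ht : ∀ j, t j ∈ T) (hw : w⁻¹ ∈ V) (hw0 : w ≠ 0)
    (ha : ∀ j, (a j)⁻¹ ∈ V ∧ a j ≠ 0)
    (ha' : ∀ i j, i ≠ j → (a i ^ c.ℓ - a j ^ c.ℓ)⁻¹ ∈ V ∧ a i ^ c.ℓ - a j ^ c.ℓ ≠ 0)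
    (hm : ∀ j, a j * w ∈ V) (he : ∀ j, t j - a j * w ∈ V.nonunits) : HP c ζ t T := by
  refine ⟨hsd, ht, fun j => h.inv _ (ht j) (unit_nn ?_ (mul_ne_zero (ha j).2 hw0) (he j)),
    fun i j => ?_⟩
  · rw [mul_inv]
    exact V.mul_mem _ _ (ha j).1 hw
  by_cases e : i = j
  · simp [e]
  refine h.inv _ (T.sub_mem (T.pow_mem (ht i) _) (T.pow_mem (ht j) _))
    (unit_nn (a := (a i ^ c.ℓ - a j ^ c.ℓ) * w ^ c.ℓ) ?_
      (mul_ne_zero (ha' i j e).2 (pow_ne_zero _ hw0)) ?_)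
  · rw [mul_inv, ← inv_pow]
    exact V.mul_mem _ _ (ha' i j e).1 (V.toSubring.pow_mem hw _)
  · have := V.nonunits.sub_mem (pow_nn (hm i) (h.le _ (ht i)) (he i) c.ℓ)
      (pow_nn (hm j) (h.le _ (ht j)) (he j) c.ℓ)
    convert this using 1
    ring

lemma unit_inv {S : Subring K} (hO : ∀ o, algebraMap O K o ∈ S) {o : O} (h : IsUnit o) :
    (algebraMap O K o)⁻¹ ∈ S ∧ algebraMap O K o ≠ 0 := by
  obtain ⟨v, rfl⟩ := h
  have : (algebraMap O K (v : O))⁻¹ = algebraMap O K (↑v⁻¹ : O) :=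
    inv_eq_of_mul_eq_one_right (by rw [← map_mul]; simp)
  exact ⟨this ▸ hO _, ((Units.isUnit v).map (algebraMap O K)).ne_zero⟩

lemma locm_ne {N : Subalgebra O K} {𝔮 : Ideal N} (hq : 𝔮.IsPrime) {γ : K} (h0 : γ ≠ 0)
    (h : locm (algebraMap N K) 𝔮 γ) : 𝔮 ≠ ⊥ := by
  rintro rfl
  obtain ⟨a, b, ha, hb, e⟩ := h
  rw [Ideal.mem_bot] at ha hb
  rw [ha, map_zero, mul_eq_zero] at e
  exact e.elim h0 fun e => hb (Subtype.ext e)

/-- The charts at primes which contain `π` and not `s`. -/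
theorem hcl (hA : S_ARCH) [IsDomain O] [IsDiscreteValuationRing O] {π : O} (hπ : Irreducible π)
    (F : Fm c ζ κ σ s u μ r X x) {d : ℕ} {D : Fin d → Derivation O K K} {τ : Fin d → K} {ν : ℚ}
    (hL : Lg c ζ κ σ s u (c.cell μ X) D τ ν) (hd : d = Fintype.card (c.Id μ))
    {N : Subalgebra O K} [IsNoetherianRing N] [IsFractionRing N K] {Z Z' : Set K}
    (hN : IsNc N Z') (hs : s ∈ N) (hu : u ∈ N) (hZ : Z ⊆ N) (hZ' : Z' ⊆ {s, u} ∪ Z)
    (hC : Crd c ζ κ σ s u (c.cell μ X) x Z) :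
    ∃ Y : Set K, ∀ 𝔮 : Ideal N, 𝔮.IsPrime → locm (algebraMap N K) 𝔮 (algebraMap O K π) →
      ¬ locm (algebraMap N K) 𝔮 s → ∃ y : Fin d → K, Ch N 𝔮 (cs s u y) ∧
        (∀ S : Subring K, (∀ γ, loc (algebraMap N K) 𝔮 γ → γ ∈ S) → (algebraMap O K π)⁻¹ ∈ S →
          wr D y ^ 2 ∈ S) ∧
        ((∃ k, locm (algebraMap N K) 𝔮 (y k)) ∨
          (Set.range y = Y ∧ loc (algebraMap N K) 𝔮 (wr D y ^ 2))) := by
  have T3 := ta c K _ J _ F.pt
  have hinj := F.ind.algebraMap_injective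
  refine ⟨{γ | ∃ (lam : J → L) (X' : c.Id lam → K), c.Co lam (-c.ρ) ∧
    c.cell μ X = c.cell lam X' ∧ γ ∈ range X'}, fun 𝔮 hq h1 h2 => ?_⟩
  have hπ0 : algebraMap O K π ≠ 0 := (map_ne_zero_iff _ hinj).2 hπ.ne_zero
  obtain ⟨T, V, hT, hTV, hm, ha⟩ := hA N K 𝔮 hq (locm_ne hq hπ0 h1)
  have hNT : ∀ γ ∈ N, γ ∈ T := fun γ hγ => (hT _).2 (loc_map (algebraMap N K) hq ⟨γ, hγ⟩)
  have hOT : ∀ o, algebraMap O K o ∈ T := fun o => hNT _ (N.algebraMap_mem o)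
  have hOV : ∀ o, algebraMap O K o ∈ V.toSubring := fun o => hTV.le _ (hOT o)
  have hπV := (hm _ (hOT π)).2 h1
  have hsV : s ∉ V.nonunits := fun h => h2 ((hm _ (hNT _ hs)).1 h)
  have hP : HP c (algebraMap O K ζ) (lg κ σ s u) T :=
    hp_of (a := fun j => algebraMap O K (κ j)) hTV (VertA.sd F.od hOT)
      (lg_in hOT (hNT _ hs) (hNT _ hu)) (hTV.le _ (hTV.inv _ (hNT _ hs) hsV))
      (fun e => hsV (e ▸ V.nonunits.zero_mem)) (fun j => unit_inv hOV (F.unit j))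
      (fun i j e => by simpa using unit_inv hOV (F.diff i j e))
      (fun j => V.mul_mem _ _ (hOV _) (hTV.le _ (hNT _ hs))) fun j => by
        have : σ j ∈ IsLocalRing.maximalIdeal O := F.od.nonunit j
        rw [hπ.maximalIdeal_eq, Ideal.mem_span_singleton] at this
        obtain ⟨o, e⟩ := this
        have e' : lg κ σ s u j - algebraMap O K (κ j) * s =
            algebraMap O K o * u * algebraMap O K π := by
          simp only [lg, e, map_mul]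
          ring
        rw [e']
        exact (SM.nonunits V).mul _ (V.mul_mem _ _ (hOV o) (hTV.le _ (hNT _ hu))) _ hπV
  obtain ⟨lam, X', e, hMin, hU, hX, hX', hCh⟩ := hch F hL.gp hd hN hs hu hZ hZ' hC hq hT hTV
    ⟨hπ0, hπV, ha _ (hOT π) hπV hπ0⟩ hP
  refine ⟨_, hCh, fun S k1 k2 => ?_, ?_⟩
  · have k3 : ∀ γ ∈ T, γ ∈ S := fun γ hγ => k1 _ ((hT _).1 hγ)
    have k4 := hp_mono hP k3
    refine T3.horw D ν lam X' e S hL.nu hMin (hU ▸ hL.vol) ⟨fun q => ?_, k4.sd.1, k4.mem, k4.inv,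
      k4.inv'⟩ fun p => k3 _ (hX p)
    rw [Rat.cast_def, div_eq_mul_inv, ← map_natCast (algebraMap O K)]
    exact S.mul_mem (intCast_mem S _) (inv_pi hπ (fun o => k3 _ (hOT o)) k2 _)
  by_cases hp : ∃ p : c.Id lam, 0 < c.al p.1.2 c.ρ
  · obtain ⟨p, hp⟩ := hp
    exact Or.inl ⟨e.symm p, by simpa using (hm _ (hX p)).1 (hX' p hp)⟩
  have hCo := co_neg hMin (not_exists.1 hp)
  have hr : range (fun k => X' (e k)) = range X' := e.surjective.range_comp X'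
  refine Or.inr ⟨hr.trans (Set.ext fun γ => ⟨fun h => ⟨lam, X', hCo, hU, h⟩, ?_⟩), (hT _).1 ?_⟩
  · rintro ⟨l, Y, k1, k2, k3⟩
    exact (uniq hCo k1 (hU.symm.trans k2)).2 ▸ k3
  · obtain ⟨w, hw, k⟩ := horwp F.pt D ν X' e T hMin (hU ▸ hL.vol) hP hX
    obtain ⟨o, ho⟩ := hL.dvd lam _ X' hCo hU
    rw [ho, ← mul_assoc] at k
    rw [mul_right_cancel₀ (Rat.cast_ne_zero.2 hL.nu) k]
    exact T.mul_mem hw (hOT o)

/-- The charts at primes over the point `s = 0`, `u = 1` of the generic fibre. -/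
theorem hc0 (hA : S_ARCH) [IsDomain O] [IsDiscreteValuationRing O] {π : O} (hπ : Irreducible π)
    (F : Fm c ζ κ σ s u μ r X x)
    (hgp : ∀ S : Subfield K, (∀ o, algebraMap O K o ∈ S) → s ∈ S → u ∈ S →
      (∀ j, c.Def0 S (c.cell μ X j)) → S = ⊤) {d : ℕ} (hd : d = Fintype.card (c.Id μ))
    {N : Subalgebra O K} [IsNoetherianRing N] [IsFractionRing N K] {Z Z' : Set K}
    (hN : IsNc N Z') (hs : s ∈ N) (hu : u ∈ N) (hZ : Z ⊆ N) (hZ' : Z' ⊆ {s, u} ∪ Z)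
    (hC : Crd c ζ κ σ s u (c.cell μ X) x Z) {K₀ : Type} [Field K₀] [Algebra K₀ K]
    (hX₀ : ∀ p, X p ∈ range (algebraMap K₀ K)) (𝔮 : Ideal N) (hq : 𝔮.IsPrime)
    (h1 : ¬ locm (algebraMap N K) 𝔮 (algebraMap O K π)) (h2 : locm (algebraMap N K) 𝔮 s)
    (h3 : locm (algebraMap N K) 𝔮 (u - 1)) :
    ∃ y : Fin d → K₀, Ch N 𝔮 (cs s u fun k => algebraMap K₀ K (y k)) := by
  have T3 := ta c K _ J _ F.pt
  have hinj := F.ind.algebraMap_injective
  have hs0 : s ≠ 0 := F.ind.ne_zero (.inl 0)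
  obtain ⟨T, V, hT, hTV, hm, ha⟩ := hA N K 𝔮 hq (locm_ne hq hs0 h2)
  have hNT : ∀ γ ∈ N, γ ∈ T := fun γ hγ => (hT _).2 (loc_map (algebraMap N K) hq ⟨γ, hγ⟩)
  have hOT : ∀ o, algebraMap O K o ∈ T := fun o => hNT _ (N.algebraMap_mem o)
  have hOV : ∀ o, algebraMap O K o ∈ V.toSubring := fun o => hTV.le _ (hOT o)
  have hsV := (hm _ (hNT _ hs)).2 h2
  have huV := (hm _ (T.sub_mem (hNT _ hu) T.one_mem)).2 h3
  have hi := inv_pi hπ hOV (hTV.le _ (hTV.inv _ (hOT π) fun h => h1 ((hm _ (hOT π)).1 h)))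
  have hP : HP c (algebraMap O K ζ) (lg κ σ s u) T :=
    hp_of (a := fun j => algebraMap O K (σ j)) (w := 1) hTV (VertA.sd F.od hOT)
      (lg_in hOT (hNT _ hs) (hNT _ hu)) (by simp) one_ne_zero
      (fun j => ⟨hi _, (map_ne_zero_iff _ hinj).2 (F.od.ne j)⟩)
      (fun i j e => ⟨by simpa using hi (σ i ^ c.ℓ - σ j ^ c.ℓ), fun k =>
        e (F.od.inj (hinj (by simpa using sub_eq_zero.1 k)))⟩)
      (fun j => by simpa using hOV _) fun j => by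
        have := V.nonunits.add_mem ((SM.nonunits V).mul _ (hOV (κ j)) _ hsV)
          ((SM.nonunits V).mul _ (hOV (σ j)) _ huV)
        convert this using 1
        simp only [lg]
        ring
  obtain ⟨lam, X', e, hMin, hU, -, -, hCh⟩ := hch F hgp hd hN hs hu hZ hZ' hC hq hT hTV
    ⟨hs0, hsV, ha _ (hNT _ hs) hsV hs0⟩ hP
  have k := (T3.leg.def_cell (algebraMap K₀ K).fieldRange lam X' hMin).1
    (hU ▸ (T3.leg.def_cell _ μ X F.co.2.2.1).2 hX₀)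
  choose y hy using k
  refine ⟨fun k => y (e k), ?_⟩
  simpa only [hy] using hCh

end Pool.Agent.P.MP_e7d440_ag.Z
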