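import Pool.Agent.P.MP_e7d440_ag.Z.IfaceT
import Pool.Agent.P.MP_e7d440_ag.Z.IfaceB
import Pool.Agent.P.MP_e7d440_ag.Z.BaseHc
import Pool.Agent.P.MP_e7d440_ag.G.All

/-! Statements on normalizations, derivations and local rings inside a field. -/

set_option autoImplicit false

namespace Pool.Agent.P.MP_e7d440_ag.Z

open Pool.Agent.P.MP_e7d440_ag.U MvPolynomial IsLocalRing

-- deps:
structure S_NCL : Prop where
  ex : ∀ {O K : Type} [CommRing O] [Field K] [Algebra O K] (Z : Set K),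
    ∃ N : Subalgebra O K, IsNc N Z
  locn : ∀ {O K : Type} [CommRing O] [Field K] [Algebra O K] (A : Subalgebra O K)
    (V : ValuationSubring K), (∀ γ ∈ A, γ ∈ V) → ∃ S : Subring K,
      (∀ γ, γ ∈ S ↔ ∃ a b : K, IsIntegral A a ∧ IsIntegral A b ∧ b ≠ 0 ∧ b⁻¹ ∈ V ∧ γ * b = a) ∧
      Dom S V ∧ (∀ γ ∈ A, γ ∈ S) ∧ ∀ γ : K, IsIntegral S γ → γ ∈ S
  val : ∀ {K : Type} [Field K] (S : Subring K), (∀ γ : K, IsIntegral S γ → γ ∈ S) →
    ∀ γ : K, (∀ V : ValuationSubring K, (∀ γ' ∈ S, γ' ∈ V) → γ ∈ V) → γ ∈ S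
  locl : ∀ {O K : Type} [CommRing O] [Field K] [Algebra O K] (N : Subalgebra O K) (Z : Set K)
    (𝔮 : Ideal N) (S : Subring K), IsNc N Z → 𝔮.IsPrime →
      (∀ γ, γ ∈ S ↔ loc (algebraMap N K) 𝔮 γ) → ∀ γ : K, IsIntegral S γ → γ ∈ S

-- deps:
structure S_VF0 : Prop where
  der : ∀ {O K ν : Type} [CommRing O] [IsDomain O] [Field K] [Algebra O K] [Fintype ν]
    (y : ν → K), Gen O y → AlgebraicIndependent O y → ∀ v : ν → K,
      ∃ δ : Derivation O K K, ∀ i, δ (y i) = v i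
  card : ∀ {O K ν σ : Type} [CommRing O] [IsDomain O] [Field K] [Algebra O K] [Fintype ν]
    [Fintype σ] (y : ν → K) (x : σ → K), Gen O y → AlgebraicIndependent O x →
      Fintype.card σ ≤ Fintype.card ν
  gen : ∀ {O K ν : Type} [CommRing O] [Field K] [Algebra O K] (y : ν → K),
    Gen O y ↔ ∀ S : Subfield K, (∀ o, algebraMap O K o ∈ S) → (∀ i, y i ∈ S) → S = ⊤
  plane : ∀ {O K₀ K ν : Type} [CommRing O] [IsDomain O] [Field K₀] [Field K] [Algebra O K₀]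
    [Algebra O K] [Algebra K₀ K] [IsScalarTower O K₀ K] (s u : K) (X : ν → K₀), Gen O X →
      AlgebraicIndependent O X → Gen K₀ ![s, u] → AlgebraicIndependent K₀ ![s, u] →
      Gen O (cs s u fun p => algebraMap K₀ K (X p)) ∧
        AlgebraicIndependent O (cs s u fun p => algebraMap K₀ K (X p))
  reix : ∀ {O K ν ν' : Type} [CommRing O] [Field K] [Algebra O K] (s u : K) (X : ν → K)
    (e : ν' ≃ ν), (Gen O (cs s u X) → Gen O (cs s u fun k => X (e k))) ∧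
      (AlgebraicIndependent O (cs s u X) → AlgebraicIndependent O (cs s u fun k => X (e k)))

-- deps: NCL
structure S_CMT : Prop where
  cmt : ∀ {A A' K : Type} [CommRing A] [CommRing A'] [Field K] (φ : A →+* K) (φ' : A' →+* K)
    (𝔭 : Ideal A) (𝔭' : Ideal A') [𝔭.IsPrime] [𝔭'.IsPrime], Function.Injective φ →
      Function.Injective φ' → (∀ γ, loc φ 𝔭 γ ↔ loc φ' 𝔭' γ) →
      G.CMl (Localization.AtPrime 𝔭') → G.CMl (Localization.AtPrime 𝔭)
  chr : ∀ {O K ν : Type} [CommRing O] [IsDomain O] [IsDiscreteValuationRing O] [Field K]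
    [Algebra O K] [Fintype ν] (A : Subalgebra O K) (𝔭 : Ideal A) [𝔭.IsPrime] (y : ν → K),
      AlgebraicIndependent O y → Ch A 𝔭 y → G.CMl (Localization.AtPrime 𝔭)
  cen : ∀ {O K : Type} [CommRing O] [Field K] [Algebra O K] (A A' : Subalgebra O K) (Z' : Set K)
    (𝔭 : Ideal A) (R : Subring K) (V : ValuationSubring K), 𝔭.IsPrime → IsNc A' Z' →
      (∀ γ, γ ∈ R ↔ loc (algebraMap A K) 𝔭 γ) → Dom R V → (∀ γ ∈ A', γ ∈ R) →
      (∀ S : Subring K, Dom S V → (∀ γ ∈ A', γ ∈ S) → (∀ γ : K, IsIntegral S γ → γ ∈ S) →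
        ∀ γ ∈ A, γ ∈ S) →
      ∃ 𝔭' : Ideal A', 𝔭'.IsPrime ∧ ∀ γ, loc (algebraMap A K) 𝔭 γ ↔ loc (algebraMap A' K) 𝔭' γ

end Pool.Agent.P.MP_e7d440_ag.Z
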