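import Pool.Agent.P.MP_e7d440_ag.Z.IfaceF
import Pool.Agent.P.MP_e7d440_ag.Z.IfaceT
import Pool.Agent.P.MP_e7d440_ag.Z.IfaceB
import Pool.Agent.P.MP_e7d440_ag.Z.IfaceC

/-! Step CRE. -/

set_option autoImplicit false
set_option linter.unusedSectionVars false

namespace Pool.Agent.P.MP_e7d440_ag.Z

open Pool.Agent.P.MP_e7d440_ag.U TensorProduct LieAlgebra LaurentPolynomial Set IsLocalRing

variable {L Φ Δ : Type} [LieRing L] [LieAlgebra ℚ L] [Fintype Φ] [Fintype Δ] [DecidableEq Φ]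
  [DecidableEq Δ] (c : CD L Φ Δ)

theorem p_CRE (h : TG c) (hARCH : S_ARCH) (hCMF2 : S_CMF2) (hNCF : S_NCF) (hNCL : S_NCL) (hVF0 : S_VF0) (hCMT : S_CMT) (hFAM : S_FAM c) :
    S_CRE c := by
  intro O K J _ _ _ _ _ _ _ _ p _ _ _ ζ κ σ μ r X x C A hO hκ hκ' hCo hG hI hx hU hC hA 𝔭 hp
  have hinj := hI.algebraMap_injective
  have : CharZero O := (algebraMap O K).charZero
  obtain ⟨π, hπ⟩ := IsDiscreteValuationRing.exists_irreducible O
  have T := h K _ J _ (VertA.pt hO hinj)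
  obtain ⟨i1, i2, i3, σ', _, _, D, g, -, hg, hch⟩ := cy' c π ζ σ μ r X (fun _ : Unit => x)
    (fun _ => 0) (fun _ => C) _ A hπ hO hCo hG hI (fun _ => hx) (fun _ => hC)
    (congrArg _ (Set.ext fun _ => ⟨fun e => ⟨(), e⟩, fun ⟨_, e⟩ => e⟩)) hA
  by_cases hπp : algebraMap O A π ∈ 𝔭
  swap
  · obtain ⟨y, a1, a2, -⟩ := hch 𝔭 hp (Or.inl hπp)
    have hy : Gen O y := (hVF0.gen y).2 fun S b1 b2 => top_le_iff.1 fun γ _ => by
      have k : ∀ a : A, algebraMap A K a ∈ S := fun a => by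
        obtain ⟨F, G, c1, -, c2⟩ := a2 a
        rw [eq_div_of_mul_eq c1 c2]
        exact S.div_mem (aeval_mem (R := S.toSubring) b1 b2 F) (aeval_mem (R := S.toSubring) b1 b2 G)
      obtain ⟨a, b, -, rfl⟩ := IsFractionRing.div_surjective A γ
      exact S.div_mem (k a) (k b)
    refine hCMT.chr A 𝔭 y (jacs.indep D y hinj (gen.wrne D g y hy fun e => hg ?_)) ⟨a1, a2⟩
    rw [jacs.lwr_eq, e, zero_div]
  have := Algebra.FiniteType.isNoetherianRing O A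
  have π0 : algebraMap O K π ≠ 0 := (map_ne_zero_iff _ hinj).2 hπ.ne_zero
  obtain ⟨R, V, hR, hD, hm, har⟩ := hARCH A K 𝔭 hp fun e => π0 (by
    rw [e] at hπp
    exact congrArg Subtype.val (Ideal.mem_bot.1 hπp))
  have hAR : ∀ γ ∈ A, γ ∈ R := fun γ hγ => (hR _).2 (loc_map _ hp (⟨γ, hγ⟩ : A))
  have hOR : ∀ o, algebraMap O K o ∈ R := fun o => hAR _ (A.algebraMap_mem o)
  have πm : algebraMap O K π ∈ V.nonunits := (hm _ (hOR π)).2
    ⟨_, 1, hπp, (Ideal.ne_top_iff_one _).1 hp.ne_top, by simp⟩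
  have σm : ∀ j, algebraMap O K (σ j) ∈ V.nonunits := fun j => by
    obtain ⟨o, e⟩ : π ∣ σ j := Ideal.mem_span_singleton.1
      (hπ.maximalIdeal_eq ▸ (mem_maximalIdeal _).2 (hO.nonunit j))
    rw [e, map_mul, mul_comm]
    exact (SM.nonunits V).mul _ (hD.le _ (hOR o)) _ πm
  have hV : c.VD (algebraMap O K ζ) (fun j => algebraMap O K (σ j)) V :=
    ⟨VertA.sd hO fun o => hD.le _ (hOR o), σm, fun γ j => har _ (hOR _) (σm j) (T.pt.ne j) γ⟩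
  obtain ⟨x', z, n, a, y, hc, hy, hRd, -⟩ := T.cel V μ r X x hV hCo hx
  obtain ⟨c1, c2, -⟩ := T.act.cr x x' z n a hc
  obtain ⟨B, hGV⟩ := T.big V _ _ x x' hV.sd σm (fun j => (T.fd.cell μ X j (hCo.2.2.1 j)).1) hx.1 c1
    (T.act.pE x x' n a y hx c1 fun k => ⟨(c2 k).2.1, (c2 k).2.2.1⟩)
    (T.la.int_pf V.toSubring V a y 0 hV.sd (SM.val V) hy) hRd
  have s1 := sys_gn T.toT3a B
  have s2 := sys_ch T.toT3 hx.1 hC
  obtain ⟨N, hN⟩ := hNCL.ex (O := O)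
    (Gn c (algebraMap O K ζ) (fun j => algebraMap O K (σ j)) (c.cell μ X) x x')
  have hZ : c.Gens (algebraMap O K ζ) (fun j => algebraMap O K (σ j)) (c.cell μ X) x 0 C ⊆ R :=
    fun γ hγ => hAR _ (nc_mem hA hγ)
  have hNR : ∀ γ ∈ N, γ ∈ R := fun γ hγ => int_mem hOR
    (s1.of R V hD (VertA.sd hO hOR) (fun j => hOR _) hGV
      (s2.spn R V (VertA.sd hO hOR) (fun j => hOR _) hD.le hZ))
    (hNCL.locl A _ 𝔭 R hA hp hR) ((hN γ).1 hγ)
  obtain ⟨𝔮, hq, hl⟩ := hCMT.cen A N _ 𝔭 R V hp hN hR hD hNR fun S b1 b2 b3 γ hγ =>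
    have b4 : ∀ o, algebraMap O K o ∈ S := fun o => b2 _ (N.algebraMap_mem o)
    int_mem b4 (s2.of S V b1 (VertA.sd hO b4) (fun j => b4 _) (fun t ht => hD.le _ (hZ ht))
      (s1.spn S V (VertA.sd hO b4) (fun j => b4 _) b1.le fun t ht => b2 _ (nc_mem hN ht))) b3
      ((hA γ).1 hγ)
  obtain ⟨d, φ, f1, e, f2, f3⟩ := hFAM p π ζ κ σ μ r X x x' N hπ hO hκ hκ' hCo hG hI hx hU B hN
  refine hCMT.cmt (algebraMap A K) (algebraMap N K) 𝔭 𝔮 Subtype.val_injective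
    Subtype.val_injective hl (hCMF2 O _ N φ.toRingHom π e 𝔮 hπ f1 f2 f3 ?_)
  by_contra k
  have k1 : loc (algebraMap N K) 𝔮 (algebraMap O K π)⁻¹ := ⟨1, _, k, by
    have : algebraMap N K (φ.toRingHom (MvPolynomial.C π)) = algebraMap O K π :=
      congrArg Subtype.val (φ.commutes π)
    rw [this, inv_mul_cancel₀ π0, map_one]⟩
  have k2 := (SM.nonunits V).mul _ (hD.le _ ((hR _).2 ((hl _).2 k1))) _ πm
  rw [inv_mul_cancel₀ π0] at k2
  simpa using V.mem_nonunits_iff.1 k2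

end Pool.Agent.P.MP_e7d440_ag.Z
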