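import Pool.Agent.P.MP_e7d440_ag.Z.BaseCrd

/-! Vector fields on the family. -/

namespace Pool.Agent.P.MP_e7d440_ag.Z

open TensorProduct LieAlgebra LaurentPolynomial Set U

variable {L Φ Δ : Type} [LieRing L] [LieAlgebra ℚ L] [Fintype Φ] [Fintype Δ] [DecidableEq Φ]
  [DecidableEq Δ] {c : CD L Φ Δ} {K : Type} [Field K] [CharZero K] {ζ : K}
  {J : Type} [Fintype J] [DecidableEq J] {s : J → K} {U : J → Submodule K (G L K)} {x x' : L}
  {δ : K →+ K} {ε : ℚ}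

set_option linter.unusedSectionVars false

/-- an additive map satisfying the Leibniz rule as a derivation -/
def toDer (δ : K →+ K) (h : ∀ a b, δ (a * b) = a * δ b + b * δ a) : Derivation ℤ K K :=
  Derivation.mk' δ.toIntLinearMap fun a b => h a b

lemma der_zpow (h : ∀ a b, δ (a * b) = a * δ b + b * δ a) {a e : K} (h0 : a ≠ 0)
    (ha : δ a = e * a) (m : ℤ) : δ (a ^ m) = m * e * a ^ m := by
  have := (toDer δ h).leibniz_zpow a m
  change δ (a ^ m) = m • a ^ (m - 1) • δ a at this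
  rw [this, ha, zpow_sub_one₀ h0, smul_eq_mul, zsmul_eq_mul]
  field_simp

/-- the constants of a derivation -/
def cst (δ : K →+ K) (h : ∀ a b, δ (a * b) = a * δ b + b * δ a) : Subfield K where
  carrier := {a | δ a = 0}
  mul_mem' := fun {a b} ha hb => by
    rw [mem_ofPred_eq] at ha hb ⊢
    rw [h, ha, hb, mul_zero, mul_zero, add_zero]
  one_mem' := (toDer δ h).map_one_eq_zero
  add_mem' := fun {a b} ha hb => by
    rw [mem_ofPred_eq] at ha hb ⊢
    rw [map_add, ha, hb, add_zero]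
  zero_mem' := δ.map_zero
  neg_mem' := fun {a} ha => by
    rw [mem_ofPred_eq] at ha ⊢
    rw [map_neg, ha, neg_zero]
  inv_mem' := fun a ha => by
    rw [mem_ofPred_eq] at ha ⊢
    by_cases h0 : a = 0
    · simp [h0]
    · simpa using der_zpow h h0 (e := 0) (by rw [ha, zero_mul]) (-1)

lemma der_kR (h : ∀ a b, δ (a * b) = a * δ b + b * δ a) (y z : G L K) :
    δ (c.kR K y z) = c.kR K (mqa δ y) z + c.kR K y (mqa δ z) := by
  induction y using TensorProduct.induction_on with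
  | zero => simp
  | add y y' h1 h2 => simp only [map_add, LinearMap.add_apply, h1, h2]; ring
  | tmul a y =>
    induction z using TensorProduct.induction_on with
    | zero => simp
    | add z z' h1 h2 => simp only [map_add, h1, h2]; ring
    | tmul b z =>
      simp only [mqa_tmul, CD.kR_tmul, map_rat_smul, h, smul_add]
      rw [add_comm, mul_comm b]

lemma cf_dl (m : ℤ) (f : LG L K) : cf m (dl c δ f) = mqa δ (cf m f) :=
  c.ext0 fun i => by rw [c.crd_mqa, c.co_cf, c.co_cf, co_dl]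

lemma dl_mon (m : ℤ) (y : G L K) : dl c δ (mon m y) = mon m (mqa δ y) :=
  c.ext1 fun a => by
    rw [co_dl, c.co_mon, c.co_mon, c.crd_mqa]
    split_ifs <;> simp

lemma dl_sup {z : L} {P : Set ℚ} {f : LG L K} (hf : f ∈ c.Sup z P) : dl c δ f ∈ c.Sup z P :=
  fun a ha => hf a fun e => ha (by rw [co_dl, e, map_zero])

lemma dl_eqv (h : T3a c ζ s) (hD : Der ζ s δ ε) {f : LG L K} (hf : f ∈ c.Eqv ζ) :
    dl c δ f ∈ c.Eqv ζ := fun m => by
  rw [cf_dl, ← h.gk.mqa_sg, hf m, (h.gk.der_lie δ hD.leib).2.1,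
    der_zpow hD.leib (h.prim.ne_zero c.ℓ_pos.ne') (e := 0) (by rw [hD.zeta, zero_mul])]
  simp

lemma dd_dl (h : T3a c ζ s) (f : LG L K) : dd (dl c δ f) = dl c δ (dd f) :=
  c.ext1 fun a => by
    rw [h.lp.co_dd, co_dl, co_dl, h.lp.co_dd, ← zsmul_eq_mul, ← zsmul_eq_mul, map_zsmul]

lemma ev_dl (h : T3a c ζ s) (hD : Der ζ s δ ε) (j : J) (f : LG L K) :
    ev (s j) (dl c δ f + (ε : K) • dd f) = mqa δ (ev (s j) f) := by
  obtain ⟨t, -, e⟩ := h.lp.sum_mon f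
  rw [e]
  simp only [map_sum, map_add, map_smul, Finset.smul_sum, ← Finset.sum_add_distrib]
  refine Finset.sum_congr rfl fun m _ => ?_
  rw [dl_mon, h.lp.dd_mon, map_smul, h.lp.ev_mon, h.lp.ev_mon, (h.gk.der_lie δ hD.leib).2.1,
    der_zpow hD.leib (h.pt.ne j) (hD.leg j), add_comm, smul_smul, smul_smul]
  congr 2
  ring

lemma dl_bv (h : T3a c ζ s) (hD : Der ζ s δ ε) (a : ℤ × (Φ ⊕ Δ)) : dl c δ (bv c ζ a) = 0 :=
  c.ext1 fun b => by
    rw [co_dl, map_zero]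
    exact bv_in h (S := (cst δ hD.leib).toSubring)
      ⟨hD.zeta, (cst δ hD.leib).inv_mem (natCast_mem _ _)⟩ a b

lemma th_eqv (h : T3a c ζ s) (hD : Der ζ s δ ε) {ξ f : LG L K} (hξ : ξ ∈ c.Eqv ζ)
    (hf : f ∈ c.Eqv ζ) : Th c δ ε ξ f ∈ c.Eqv ζ :=
  sub_mem (add_mem (dl_eqv h hD hf) (Submodule.smul_mem _ _ (h.eqv.dd f hf))) (h.eqv.lie _ hξ _ hf)

lemma ev_th (h : T3a c ζ s) (hD : Der ζ s δ ε) (ξ f : LG L K) (j : J) :
    ev (s j) (Th c δ ε ξ f) = mqa δ (ev (s j) f) - ⁅ev (s j) ξ, ev (s j) f⁆ := by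
  rw [Th, map_sub, ev_dl h hD, h.lp.ev_lie _ (h.pt.ne j)]

theorem pres_of (h : T3a c ζ s) (hD : Der ζ s δ ε) {ξ : LG L K} (hξ : ξ ∈ c.Eqv ζ)
    (hU : ∀ j, c.FD (U j)) (H : ∀ j, ∀ y ∈ U j, mqa δ y - ⁅ev (s j) ξ, y⁆ ∈ U j) :
    Pres c ζ s δ ε ξ U := fun f hf => by
  refine ⟨th_eqv h hD hξ hf.1, fun j => ⟨ev_th h hD ξ f j ▸ H j _ (hf.2 j).1, fun y hy => ?_⟩⟩
  have e : dd (Th c δ ε ξ f) = Th c δ ε ξ (dd f) - ⁅dd ξ, f⁆ := by
    simp only [Th, map_sub, map_add, map_smul, dd_dl h, h.lp.dd_lie]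
    abel
  have k1 := der_kR (c := c) hD.leib (ev (s j) (dd f)) y
  have k2 := (hf.2 j).2 _ (H j y hy)
  have k3 := h.gk.inv (ev (s j) (dd f)) (ev (s j) ξ) y
  rw [(hf.2 j).2 y hy, map_zero] at k1
  rw [map_sub] at k2
  rw [e, map_sub, ev_th h hD, h.lp.ev_lie _ (h.pt.ne j), map_sub, map_sub, LinearMap.sub_apply,
    LinearMap.sub_apply, h.gk.inv (ev (s j) (dd ξ)), (h.fd.iso _ (hU j) _ (hf.2 j).1 y hy).2,
    map_zero, ← lie_skew, map_neg, LinearMap.neg_apply, k3]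
  linear_combination -k1 - k2

lemma lie_m1 (h : T1 c K) {lam : L} (hl : c.Min lam) {n z : G L K} (hn : n ∈ c.Gr lam {-1})
    (hz : z ∈ c.Gr lam {-1}) : ⁅n, z⁆ = 0 := by
  refine c.ext0 fun i => by_contra fun e => ?_
  have := h.gk.gr_lie lam {-1} {-1} {-2} _ _ hn hz (by rintro _ rfl _ rfl; norm_num) i
    (by simpa using e)
  rcases i with β | i
  · rcases hl.2 β with k | k | k <;> norm_num [CD.wt0, k] at this
  · norm_num [CD.wt0] at this

theorem pres_cell (h : T3a c ζ s) (hD : Der ζ s δ ε) {ξ : LG L K} (hξ : ξ ∈ c.Eqv ζ)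
    {lam : J → L} (hl : ∀ j, c.Min (lam j)) {X : c.Id lam → K}
    (hX : ∀ p, δ (X p) = c.crd (.inl (c.neg p.1.2)) (ex (-c.nX lam X p.1.1) (ev (s p.1.1) ξ))) :
    Pres c ζ s δ ε ξ (c.cell lam X) := by
  refine pres_of h hD hξ (fun j => (h.fd.cell lam X j (hl j)).1) ?_
  rintro j _ ⟨u, hu, rfl⟩
  obtain ⟨n1, nn, -⟩ := h.fd.nX lam X j
  obtain ⟨m1, -, m3⟩ := h.fd.nX lam (fun p => δ (X p)) j
  obtain ⟨d1, d2, d3⟩ := h.gk.der_lie δ hD.leib
  have e1 : mqa δ (c.nX lam X j) = c.nX lam (fun p => δ (X p)) j := by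
    simp only [CD.nX, map_sum, d2, c.bs_apply, d3, smul_zero, add_zero]
  have e2 := h.ex.logd (mqa δ).toAddMonoidHom _ d1 nn
    (lie_m1 h.toT1 (hl j) (by change mqa δ _ ∈ _; rw [e1]; exact m1) n1) u
  change mqa δ _ = ex _ (mqa δ u) + ⁅mqa δ _, _⁆ at e2
  obtain ⟨m, hm⟩ : ∃ m, m = ex (-c.nX lam X j) (ev (s j) ξ) := ⟨_, rfl⟩
  have e3 : ev (s j) ξ = ex (c.nX lam X j) m := by
    rw [hm, ← Module.End.mul_apply, (h.ex.inv _ nn).1, Module.End.one_apply]
  have e4 : m - c.nX lam (fun p => δ (X p)) j ∈ c.Gr (lam j) (Ici 0) := fun i hi =>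
    by_contra fun k => hi (by
      have k1 := wt_min (hl j) i k
      rcases i with β | i
      · have k2 : c.al (c.neg β) (lam j) = 1 := by
          rw [c.al_neg, LinearMap.neg_apply]
          exact neg_eq_iff_eq_neg.2 k1
        have k3 := m3 ⟨(j, c.neg β), k2⟩ rfl
        rw [hX] at k3
        simp only [h.cd.neg_neg] at k3
        rw [map_sub, k3, hm, sub_self]
      · simp [CD.wt0] at k1)
  refine ⟨mqa δ u - ⁅m - c.nX lam (fun p => δ (X p)) j, u⁆, sub_mem (fun i hi => hu i fun k =>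
    hi (by rw [c.crd_mqa, k, map_zero])) ((h.fd.u1 _ (hl j)).perp _
      ((h.fd.perp _ (hl j) _).2 e4) u hu), ?_⟩
  rw [e2, e1, e3, map_sub, (h.ex.a0 _ nn).lie, map_sub, ex_fix h.toT1 (hl j) n1 nn m1, sub_lie]
  abel

lemma der_ex {O ν : Type} [CommRing O] [IsDomain O] [Algebra O K] [Fintype ν] {y : ν → K}
    (hG : Gen O y) (hI : AlgebraicIndependent O y) (v : ν → K) :
    ∃ D : Derivation O K K, ∀ k, D (y k) = v k := by
  classical
  let e := Fintype.equivFin ν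
  have hG' : Gen O fun k => y (e.symm k) := (gen.clos _).2 (by
    rw [show range (fun k => y (e.symm k)) = range y from e.symm.surjective.range_comp y]
    exact (gen.clos _).1 hG)
  obtain ⟨f, hf⟩ := gen.iso _ _ hG' ExlA.gen_TT (hI.comp _ e.symm.injective) ExlA.ind_TT
  obtain ⟨D₀, hD₀⟩ := der.frac (O := O) (σ := Fin (Fintype.card ν))
  choose D hD using fun k => ExlA.der_map f (D₀ k)
  refine ⟨∑ k, v k • D (e k), fun k => ?_⟩
  have : ∀ l, D (e l) (y k) = if l = k then 1 else 0 := fun l => by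
    have := hf (e k)
    rw [e.symm_apply_apply] at this
    rw [← this, hD, ExlA.TT, hD₀, MvPolynomial.pderiv_X]
    by_cases h : l = k
    · simp [h]
    · simp [h]
  rw [show (∑ l, v l • D (e l)) (y k) = ∑ l, (v l • D (e l)) (y k) from by
    rw [← Derivation.coeFnAddMonoidHom_apply, map_sum, Finset.sum_apply]; rfl]
  simp [this]

section
variable {O : Type} [CommRing O] [Algebra O K] {ζ : O} {κ σ : J → O} {s u : K} {μ : J → L} {r : L}
  {X : c.Id μ → K}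

lemma der_lg (D : Derivation O K K) {ε : ℚ} (hs : D s = ε * s) (hu : D u = ε * u) :
    Der (algebraMap O K ζ) (lg κ σ s u) (dA D) ε :=
  ⟨fun a b => D.leibniz a b, D.map_algebraMap _, fun j => by
    change D _ = _
    simp only [lg, map_add, Derivation.leibniz, Derivation.map_algebraMap, hs, hu, smul_eq_mul]
    ring⟩

/-- Every equivariant loop defines a vector field on the family. -/
theorem vf [IsDomain O] (F : Fm c ζ κ σ s u μ r X x) (ε : ℚ) {ξ : LG L K}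
    (hξ : ξ ∈ c.Eqv (algebraMap O K ζ)) : ∃ D : Derivation O K K, D s = ε * s ∧ D u = ε * u ∧
      Der (algebraMap O K ζ) (lg κ σ s u) (dA D) ε ∧
      Pres c (algebraMap O K ζ) (lg κ σ s u) (dA D) ε ξ (c.cell μ X) := by
  obtain ⟨D, hD⟩ := der_ex F.gen F.ind (cs (ε * s) (ε * u) fun p =>
    c.crd (.inl (c.neg p.1.2)) (ex (-c.nX μ X p.1.1) (ev (lg κ σ s u p.1.1) ξ)))
  have h1 := der_lg (ζ := ζ) (κ := κ) (σ := σ) D (hD (.inl 0)) (hD (.inl 1))
  exact ⟨D, hD (.inl 0), hD (.inl 1), h1,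
    pres_cell (t3a c _ _ F.pt) h1 hξ F.co.2.2.1 fun p => hD (.inr p)⟩

end

lemma co_th (h : T3a c ζ s) {z : L} (hz : c.IsH z) (a : ℤ × (Φ ⊕ Δ)) (f : LG L K) :
    c.co a (Th c δ ε (c0 (LP K) z) f) =
      δ (c.co a f) + ((ε * a.1 - c.wt0 z a.2 : ℚ) : K) * c.co a f := by
  rw [Th, map_sub, map_add, map_smul, co_dl, h.lp.co_dd, h.lp.co_c0 z hz, smul_eq_mul]
  push_cast
  ring

/-- The coordinates of a big cell are eigenvectors of the torus vector fields. -/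
theorem sec_tor (h : T3a c ζ s) (B : Big c ζ s U x x') {A : LG L K →ₗ[K] LG L K}
    (hA : Sec c ζ s U x x' A) (hD : Der ζ s δ ε) {z : L} (hz : c.Fix z)
    (hP : Pres c ζ s δ ε (c0 (LP K) z) U) (a b : ℤ × (Φ ⊕ Δ)) :
    δ (c.co b (A (c.BB K a))) =
      ((ε * a.1 - c.wt0 z a.2 - (ε * b.1 - c.wt0 z b.2) : ℚ) : K) * c.co b (A (c.BB K a)) := by
  have k : Th c δ ε (c0 (LP K) z) (A (c.BB K a)) -
      ((ε * a.1 - c.wt0 z a.2 : ℚ) : K) • A (c.BB K a) = 0 := by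
    refine B.uniq _ (sub_mem ⟨hP _ (hA.lat _).1, fun b hb => (hA.lat (c.BB K a)).2 b fun e => hb ?_⟩
      (Submodule.smul_mem _ _ (hA.lat _))) fun b hb => by_contra fun e => hb ?_
    · rw [co_th h hz.1, e, map_zero, mul_zero, add_zero]
    have k1 : c.co b (A (c.BB K a) - bv c ζ a) = 0 := by_contra fun k => e (hA.bas a b k)
    rw [map_sub, sub_eq_zero] at k1
    rw [map_sub, map_smul, co_th h hz.1, k1, ← co_dl c, dl_bv h hD, map_zero, zero_add,
      smul_eq_mul]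
    by_cases k2 : c.co b (bv c ζ a) = 0
    · simp [k2]
    have k3 : c.wt z b = c.wt z a := bv_sup h hz a (P := {c.wt z a}) rfl b k2
    have k4 : a.1 = b.1 := by_contra fun k => k2 (by rw [bv, c.co_mon, if_neg k])
    rw [CD.wt, CD.wt, k4, add_left_inj] at k3
    rw [k3, k4, sub_self]
  have := congrArg (c.co b) k
  rw [map_sub, map_smul, co_th h hz.1, map_zero, smul_eq_mul] at this
  push_cast at this ⊢
  linear_combination this

lemma wt_fun {Z : Set K} {D : K → K} (h : ∀ γ ∈ Z, ∃ q : ℚ, 0 < q ∧ D γ = q * γ) :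
    ∃ w : K → ℚ, ∀ γ ∈ Z, 0 < w γ ∧ D γ = (w γ : K) * γ := by
  choose! w hw using h
  exact ⟨w, hw⟩

section
variable {O : Type} [CommRing O] [Algebra O K] {ζ : O} {κ σ : J → O} {s u : K} {μ : J → L} {r : L}
  {X : c.Id μ → K}

/-- The coordinates of the big cell generate the function field. -/
theorem gn_gen (F : Fm c ζ κ σ s u μ r X x)
    (hgp : ∀ S : Subfield K, (∀ o, algebraMap O K o ∈ S) → s ∈ S → u ∈ S →
      (∀ j, c.Def0 S (c.cell μ X j)) → S = ⊤)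
    (B : Big c (algebraMap O K ζ) (lg κ σ s u) (c.cell μ X) x x') :
    Gen O (Subtype.val : ↥({s, u} ∪ Gn c (algebraMap O K ζ) (lg κ σ s u) (c.cell μ X) x x') → K) := by
  rw [gen.clos, Subtype.range_coe]
  have h1 := fun o => Subfield.subset_closure (s := range (algebraMap O K) ∪
    ({s, u} ∪ Gn c (algebraMap O K ζ) (lg κ σ s u) (c.cell μ X) x x')) (Or.inl ⟨o, rfl⟩)
  have h2 := fun γ hγ => Subfield.subset_closure (s := range (algebraMap O K) ∪
    ({s, u} ∪ Gn c (algebraMap O K ζ) (lg κ σ s u) (c.cell μ X) x x')) (a := γ) (Or.inr hγ)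
  have h3 := h2 s (Or.inl (Or.inl rfl))
  have h4 := h2 u (Or.inl (Or.inr rfl))
  exact hgp _ h1 h3 h4 (gn_def0 (t3a c _ _ F.pt) B _ (h1 _)
    (fun j => add_mem (mul_mem (h1 _) h3) (mul_mem (h1 _) h4)) fun γ hγ => h2 γ (Or.inr hγ))

/-- The grading of the family. -/
theorem gn_gr [IsDomain O] (F : Fm c ζ κ σ s u μ r X x)
    (B : Big c (algebraMap O K ζ) (lg κ σ s u) (c.cell μ X) x x') :
    ∃ (w : K → ℚ) (D : Derivation O K K),
      ∀ γ ∈ {s, u} ∪ Gn c (algebraMap O K ζ) (lg κ σ s u) (c.cell μ X) x x',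
        0 < w γ ∧ D γ = (w γ : K) * γ := by
  have h := t3a c _ _ F.pt
  obtain ⟨A, hA⟩ := big_sec h B
  obtain ⟨D, h1, h2, h3, h4⟩ := vf F 1 (h.eqv.c0 _ B.fix'.neg.2)
  obtain ⟨w, hw⟩ := wt_fun (D := D)
    (Z := {s, u} ∪ Gn c (algebraMap O K ζ) (lg κ σ s u) (c.cell μ X) x x') (by
      rintro γ ((rfl | rfl) | hγ)
      · exact ⟨1, one_pos, h1⟩
      · exact ⟨1, one_pos, h2⟩
      obtain ⟨a, b, k1, -, k2, rfl⟩ := (hA.gn γ).1 hγ
      refine ⟨_, ?_, sec_tor h B hA h3 B.fix'.neg h4 a b⟩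
      have e : ∀ i, c.wt0 (-x') i = -c.wt0 x' i := by
        rintro (i | i) <;> simp [CD.wt0]
      rw [e, e]
      simp only [CD.wt] at k1 k2
      linarith)
  exact ⟨w, D, hw⟩

end

end Pool.Agent.P.MP_e7d440_ag.Z
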