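import Pool.Agent.P.MP_e7d440_ag.Z.IfaceG
import Pool.Agent.P.MP_e7d440_ag.Z.BaseVF

/-! Step DL. -/

set_option autoImplicit false
set_option linter.unusedSectionVars false

namespace Pool.Agent.P.MP_e7d440_ag.Z

open Pool.Agent.P.MP_e7d440_ag.U TensorProduct LieAlgebra LaurentPolynomial Set

variable {L Φ Δ : Type} [LieRing L] [LieAlgebra ℚ L] [Fintype Φ] [Fintype Δ] [DecidableEq Φ]
  [DecidableEq Δ] (c : CD L Φ Δ) {K : Type} [Field K] [CharZero K] (ζ : K)
  {J : Type} [Fintype J] [DecidableEq J] (s : J → K)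

theorem p_DL (h : T3 c ζ s) :
    S_DL c ζ s := by
  refine ⟨fun _ _ _ _ hf => dl_sup hf, fun _ => cf_dl, fun _ f => (dd_dl h.toT3a f).symm,
    fun δ k f => c.ext1 fun a => ?_, fun _ _ hD _ hf => dl_eqv h.toT3a hD hf,
    fun δ ε hD f g => ?_, fun δ ε hD t f => c.ext1 fun a => ?_,
    fun δ ε hD x => c.ext1 fun a => ?_, fun _ _ hD => dl_bv h.toT3a hD,
    fun _ _ hD a => bv_ix (c := c) (ζ := ζ) a ▸ dl_bv h.toT3a hD _, fun δ ε hD j f => ?_⟩
  · obtain ⟨m, i⟩ := a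
    rw [co_dl, h.lp.co_T, h.lp.co_T, co_dl]
  · obtain ⟨t, -, e⟩ := h.lp.sum_mon f
    obtain ⟨t', -, e'⟩ := h.lp.sum_mon g
    rw [e, e']
    simp only [map_sum, sum_lie, lie_sum, ← Finset.sum_add_distrib]
    refine Finset.sum_congr rfl fun m _ => Finset.sum_congr rfl fun n _ => ?_
    rw [h.lp.mon_lie, dl_mon, dl_mon, dl_mon, h.lp.mon_lie, h.lp.mon_lie,
      (h.gk.der_lie δ hD.leib).1, map_add]
  · simp only [co_dl, map_add, LinearMap.map_smul, smul_eq_mul, hD.leib]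
    ring
  · rw [co_dl, map_zero, h.lp.co_const]
    split_ifs
    · exact SubfieldClass.ratCast_mem (cst δ hD.leib) _
    · exact map_zero _
  · rw [← ev_dl h.toT3a hD, map_add, map_smul]

end Pool.Agent.P.MP_e7d440_ag.Z
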