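import Pool.Agent.P.MP_e7d440_ag.Z.IfaceT
import Pool.Agent.P.MP_e7d440_ag.G.TDEPTH
import Pool.Agent.P.MP_e7d440_ag.G.TFLAT

/-! Step DSC. -/

set_option autoImplicit false
set_option linter.unusedSectionVars false

namespace Pool.Agent.P.MP_e7d440_ag.Z

open Pool.Agent.P.MP_e7d440_ag.U MvPolynomial IsLocalRing

namespace DSCA

theorem down (A B : Type) [CommRing A] [IsLocalRing A] [IsNoetherianRing A] [CommRing B]
    [IsLocalRing B] [IsNoetherianRing B] [Algebra A B] [Module.Flat A B]
    (hmem : ∀ t ∈ maximalIdeal A, algebraMap A B t ∈ maximalIdeal B) {n : ℕ}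
    (hn : maximalIdeal B ^ n ≤ (maximalIdeal A).map (algebraMap A B)) (h : G.CMl B) :
    G.CMl A := by
  obtain ⟨l, hl, hr, hd⟩ := h
  have hloc : IsLocalHom (algebraMap A B) := ⟨fun a ha => by
    by_contra hn
    exact (mem_maximalIdeal _).mp (hmem a ((mem_maximalIdeal _).mpr hn)) ha⟩
  have hff : Module.FaithfullyFlat A B := Module.FaithfullyFlat.of_flat_of_isLocalHom
  have hcm : ∀ (𝔞 : Ideal A) (g : A), algebraMap A B g ∈ 𝔞.map (algebraMap A B) → g ∈ 𝔞 :=
    fun 𝔞 g hg => by
      rw [← Ideal.comap_map_eq_self_of_faithfullyFlat (B := B) 𝔞]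
      exact hg
  have key : ∀ j, j ≤ l.length → ∃ l' : List A, l'.length = j ∧
      (∀ t ∈ l', t ∈ maximalIdeal A) ∧ RegSeq ⊥ l' := by
    intro j
    induction j with
    | zero => exact fun _ => ⟨[], rfl, by simp, trivial⟩
    | succ j ih =>
      intro hj
      obtain ⟨l', h1, h2, h3⟩ := ih (by omega)
      have hna : ∀ P, Ass (Ideal.ofList l') P → ¬ maximalIdeal A ≤ P := by
        rintro P ⟨hP, g, hg⟩ hle
        have h4 := G.p_FLAT A B ⊥ l' h3
        rw [Ideal.map_bot] at h4
        have h6 : ∀ t ∈ (maximalIdeal A).map (algebraMap A B),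
            t * algebraMap A B g ∈ Ideal.ofList (l'.map (algebraMap A B)) := by
          intro t ht
          have : (maximalIdeal A).map (algebraMap A B) ≤
              col (Ideal.ofList (l'.map (algebraMap A B))) (Ideal.span {algebraMap A B g}) := by
            rw [Ideal.map_le_iff_le_comap]
            intro a ha
            rw [Ideal.mem_comap, mem_col]
            intro z hz
            obtain ⟨w, rfl⟩ := Ideal.mem_span_singleton'.mp hz
            rw [mul_left_comm, ← map_mul, ← Ideal.map_ofList]
            exact Ideal.mul_mem_left _ _ (Ideal.mem_map_of_mem _ ((hg a).mp (hle ha)))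
          exact mem_col.mp (this ht) _ (Ideal.mem_span_singleton_self _)
        have h7 : ∀ (i : ℕ) (y : B), (∀ t ∈ maximalIdeal B ^ i,
            t * y ∈ Ideal.ofList (l'.map (algebraMap A B))) →
            y ∈ Ideal.ofList (l'.map (algebraMap A B)) := by
          intro i
          induction i with
          | zero => exact fun y hy => by simpa using hy 1 (by simp)
          | succ i ih2 =>
            intro y hy
            refine ih2 y fun t ht => G.p_DEPTH B l (l'.map (algebraMap A B)) hl (by
              intro t ht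
              obtain ⟨a, ha, rfl⟩ := List.mem_map.mp ht
              exact hmem a (h2 a ha)) hr h4 (by rw [List.length_map]; omega) _ fun s hs => ?_
            rw [← mul_assoc]
            exact hy _ (pow_succ' (maximalIdeal B) i ▸ Ideal.mul_mem_mul hs ht)
        have h5 := h7 n _ fun t ht => h6 t (hn ht)
        rw [← Ideal.map_ofList] at h5
        exact hP.ne_top ((Ideal.eq_top_iff_one _).mpr ((hg 1).mpr (by
          rw [one_mul]; exact hcm _ _ h5)))
      obtain ⟨b, hb, hb', -⟩ := basic.avoid2 _ _ (maximalIdeal A) hna hna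
      refine ⟨l' ++ [b], by simp [h1], ?_, (basic.regAppend _ _ _).mpr ⟨h3, ?_⟩⟩
      · intro t ht
        rcases List.mem_append.mp ht with h | h
        · exact h2 t h
        · rw [List.mem_singleton.mp h]; exact hb
      · rw [bot_sup_eq]
        exact ⟨hb', trivial⟩
  obtain ⟨l', h1, h2, h3⟩ := key _ le_rfl
  refine ⟨l', h2, h3, ?_⟩
  rw [h1]
  refine le_trans ?_ hd
  have : (maximalIdeal B).LiesOver (maximalIdeal A) := ⟨(maximalIdeal_comap _).symm⟩
  rw [← maximalIdeal_height_eq_ringKrullDim, ← maximalIdeal_height_eq_ringKrullDim,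
    Ideal.height_eq_height_add_of_liesOver_of_hasGoingDown (maximalIdeal A) (maximalIdeal B)]
  exact_mod_cast le_self_add

end DSCA

theorem p_DSC :
    S_DSC := by
  intro B A _ _ _ _ _ _ _ _ h
  obtain ⟨𝔫, h𝔫⟩ := Ideal.exists_maximal A
  have : IsNoetherianRing A := IsNoetherianRing.of_finite B A
  have : Module.Flat B (Localization.AtPrime 𝔫) := Module.Flat.trans B A _
  have hc : 𝔫.comap (algebraMap B A) = maximalIdeal B :=
    eq_maximalIdeal (Ideal.isMaximal_comap_of_isIntegral_of_isMaximal 𝔫)
  obtain ⟨n, hn⟩ := Ideal.exists_pow_le_of_le_radical_of_fg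
    (I := maximalIdeal (Localization.AtPrime 𝔫))
    (J := (maximalIdeal B).map (algebraMap B (Localization.AtPrime 𝔫))) (by
      rw [Ideal.radical_eq_sInf]
      refine le_sInf fun Q ⟨h1, h2⟩ => ?_
      have h3 : ((Q.comap (algebraMap A _)).comap (algebraMap B A)).IsMaximal := by
        rw [Ideal.comap_comap, ← IsScalarTower.algebraMap_eq]
        exact ((maximalIdeal.isMaximal B).eq_of_le (Ideal.comap_ne_top _ h2.ne_top)
          (Ideal.map_le_iff_le_comap.1 h1)) ▸ maximalIdeal.isMaximal B
      have h4 := Ideal.isMaximal_of_isIntegral_of_isMaximal_comap _ h3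
      rw [← Localization.AtPrime.map_eq_maximalIdeal, Ideal.map_le_iff_le_comap]
      refine (h4.eq_of_le h𝔫.ne_top ?_).ge
      exact (Ideal.comap_mono (le_maximalIdeal h2.ne_top)).trans
        (Localization.AtPrime.under_maximalIdeal (I := 𝔫)).le) (IsNoetherian.noetherian _)
  refine DSCA.down B (Localization.AtPrime 𝔫) (fun t ht => ?_) hn (h 𝔫)
  rw [IsScalarTower.algebraMap_apply B A, ← Localization.AtPrime.map_eq_maximalIdeal]
  exact Ideal.mem_map_of_mem _ (by rwa [← hc] at ht)

end Pool.Agent.P.MP_e7d440_ag.Z
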