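import Pool.Agent.P.MP_e7d440_ag.Z.IfaceG
import Pool.Agent.P.MP_e7d440_ag.Z.BaseVF

/-! Step EIG. -/

set_option autoImplicit false
set_option linter.unusedSectionVars false

namespace Pool.Agent.P.MP_e7d440_ag.Z

open Pool.Agent.P.MP_e7d440_ag.U TensorProduct LieAlgebra LaurentPolynomial Set

variable {L Φ Δ : Type} [LieRing L] [LieAlgebra ℚ L] [Fintype Φ] [Fintype Δ] [DecidableEq Φ]
  [DecidableEq Δ] (c : CD L Φ Δ) {K : Type} [Field K] [CharZero K] (ζ : K)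
  {J : Type} [Fintype J] [DecidableEq J] (s : J → K)

theorem p_EIG (h : T3 c ζ s) (hDL : S_DL c ζ s) :
    S_EIG c ζ s := by
  intro U x x' χ δ ε B hχ hD hP γ hγ
  obtain ⟨A, hA⟩ := big_sec h.toT3a B
  obtain ⟨a, b, k1, -, k2, rfl⟩ := (hA.gn γ).1 hγ
  exact ⟨a, b, k1, k2, sec_tor h.toT3a B hA hD hχ hP a b⟩

end Pool.Agent.P.MP_e7d440_ag.Z
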