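import Pool.Agent.P.MP_e7d440_ag.Z.IfaceF
import Pool.Agent.P.MP_e7d440_ag.Z.IfaceB
import Pool.Agent.P.MP_e7d440_ag.Z.IfaceT
import Pool.Agent.P.MP_e7d440_ag.Z.IfaceC

/-! Step FAM. -/

set_option autoImplicit false
set_option linter.unusedSectionVars false

namespace Pool.Agent.P.MP_e7d440_ag.Z

open Pool.Agent.P.MP_e7d440_ag.U TensorProduct LieAlgebra LaurentPolynomial Set IsLocalRing

variable {L Φ Δ : Type} [LieRing L] [LieAlgebra ℚ L] [Fintype Φ] [Fintype Δ] [DecidableEq Φ]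
  [DecidableEq Δ] (c : CD L Φ Δ)

theorem p_FAM (h : TG c) (hALG2 : S_ALG2) (hRSP : S_RSP) (hSPEC2 : S_SPEC2) (hARCH : S_ARCH) (hNCF : S_NCF) (hNCL : S_NCL) (hVF0 : S_VF0) (hSPG : S_SPG c) (hFM0 : S_FM0 c) (hFGR : S_FGR c) (hFVE : S_FVE c) :
    S_FAM c := by
  intro O K₀ J _ _ _ _ _ _ _ _ p _ _ _ π ζ κ σ μ r X x x' N₀ hπ hO hκ hκ' hCo hG hI hx hU hB hN₀
  obtain ⟨K, _, _, s, u, R, sp, hS⟩ := hRSP K₀
  obtain ⟨_, _⟩ : ∃ _ : Algebra O K, IsScalarTower O K₀ K :=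
    let _ : Algebra O K := ((algebraMap K₀ K).comp (algebraMap O K₀)).toAlgebra
    ⟨_, IsScalarTower.of_algebraMap_eq fun _ => rfl⟩
  have : CharZero K := charZero_of_injective_algebraMap (algebraMap K₀ K).injective
  obtain ⟨F, hQ⟩ := hFM0 ζ κ σ s u R sp μ r X x hO hκ hκ' hCo hG hI hx hU hS
  obtain ⟨B, b1, b2⟩ := hSPG _ _ _ R sp μ X x x' hQ hCo.2.2.1 hB
  rw [← IsScalarTower.algebraMap_apply] at B b1 b2
  have T := t3a c _ _ F.pt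
  have T₀ := t3a c _ _ hQ.pt₀
  have hs := sys_gn T B
  obtain ⟨D, τ, ν, hL⟩ := lgx (ta c) F
  obtain ⟨w, δ, hw⟩ := hFGR ζ κ σ s u μ r _ x x' F B
  generalize Gn c (algebraMap O K ζ) (lg κ σ s u) (c.cell μ fun p => algebraMap K₀ K (X p)) x x' =
    Z at hs b1 b2 hw
  obtain ⟨N, hN⟩ := hNCL.ex (O := O) (insert s (insert u Z))
  have hinj := F.ind.algebraMap_injective
  have hf : (insert s (insert u Z)).Finite := (hs.fin.insert u).insert s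
  have hg : Gen O (Subtype.val : ↥(insert s (insert u Z)) → K) :=
    (hVF0.gen _).2 fun S a1 a2 =>
      have a3 := a2 ⟨s, Or.inl rfl⟩
      have a4 := a2 ⟨u, Or.inr (Or.inl rfl)⟩
      hL.gp S a1 a3 a4 (hs.frac S (a1 _) (lg_in (S := S.toSubring) a1 a3 a4)
        fun γ hγ => a2 ⟨γ, Or.inr (Or.inr hγ)⟩)
  obtain ⟨i1, i2, -⟩ := hNCF.ft N _ hinj hf hN hg
  have := Algebra.FiniteType.isNoetherianRing O N
  have m1 : s ∈ N := nc_mem hN (Or.inl rfl)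
  have m2 : u ∈ N := nc_mem hN (Or.inr (Or.inl rfl))
  have m3 : Z ⊆ N := fun γ hγ => nc_mem hN (Or.inr (Or.inr hγ))
  have m4 : insert s (insert u Z) ⊆ {s, u} ∪ Z := by
    rintro γ (e | e | e)
    exacts [Or.inl (Or.inl e), Or.inl (Or.inr e), Or.inr e]
  let e : Fin (Fintype.card (c.Id μ)) ≃ c.Id μ := (Fintype.equivFin _).symm
  obtain ⟨Y, hY⟩ := hcl hARCH hπ F hL rfl hN m1 m2 m3 m4 (hs.crd hO)
  have g1 := hVF0.reix (O := O) s u (fun p => algebraMap K₀ K (X p)) e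
  have g2 := hFVE π ζ κ σ s u μ r _ x _ D τ ν Z N hπ F rfl hL hs hN
  have fam : Fam π s u N (Fintype.card (c.Id μ)) :=
    ⟨⟨_, w, δ, hf, hN, Or.inl rfl, Or.inr (Or.inl rfl), hg, hw⟩,
      ⟨fun k => algebraMap K₀ K (X (e k)), g1.1 F.gen, g1.2 F.ind⟩, D, τ, Y, hL.der, hY, g2⟩
  obtain ⟨φ, h1, h2⟩ := hSPEC2 O K₀ K π s u R sp N N₀ _ _ _ hπ hS (hALG2 O K p π s u N _ hπ fam)
    hN hN₀ (by
      rintro γ (rfl | rfl | hγ)
      · obtain ⟨a, e⟩ := hS.s0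
        exact ⟨a, e ▸ N₀.zero_mem⟩
      · obtain ⟨a, e⟩ := hS.u1
        exact ⟨a, e ▸ N₀.one_mem⟩
      · obtain ⟨a, e⟩ := b1 γ hγ
        exact ⟨a, nc_mem hN₀ e⟩)
    (fun γ₀ h₀ => let ⟨γ, a, b⟩ := b2 γ₀ h₀; ⟨γ, m3 a, b⟩)
    ((hVF0.gen _).2 fun S a1 a2 => (hVF0.gen X).1 hG S a1 ((T₀.leg.def_cell S μ X hCo.2.2.1).1
      (gn_def0 T₀ hB S (a1 _) (fun j => a1 _) fun γ hγ => a2 ⟨γ, hγ⟩)))
    ⟨fun k => X (e k), (hVF0.gen _).2 fun S a1 a2 => (hVF0.gen X).1 hG S a1 fun q => by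
      simpa using a2 (e.symm q), hI.comp e e.injective⟩
    (hc0 hARCH hπ F hL.gp rfl hN m1 m2 m3 m4 (hs.crd hO) fun q => ⟨X q, rfl⟩)
  exact ⟨_, φ, h1, h2⟩

end Pool.Agent.P.MP_e7d440_ag.Z
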