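import Pool.Agent.P.MP_e7d440_ag.Z.IfaceF
import Pool.Agent.P.MP_e7d440_ag.Z.IfaceC
import Pool.Agent.P.MP_e7d440_ag.Z.BaseVF

/-! Step FGR. -/

set_option autoImplicit false
set_option linter.unusedSectionVars false

namespace Pool.Agent.P.MP_e7d440_ag.Z

open Pool.Agent.P.MP_e7d440_ag.U TensorProduct LieAlgebra LaurentPolynomial Set IsLocalRing

variable {L Φ Δ : Type} [LieRing L] [LieAlgebra ℚ L] [Fintype Φ] [Fintype Δ] [DecidableEq Φ]
  [DecidableEq Δ] (c : CD L Φ Δ)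

theorem p_FGR (h : TG c) (hVF0 : S_VF0) :
    S_FGR c := by
  intro O K J _ _ _ _ _ _ _ ζ κ σ s u μ r X x x' F B
  obtain ⟨w, D, H⟩ := gn_gr F B
  refine ⟨w, D, fun γ hγ => H γ ?_⟩
  rcases hγ with rfl | rfl | hγ
  exacts [Or.inl (Or.inl rfl), Or.inl (Or.inr rfl), Or.inr hγ]

end Pool.Agent.P.MP_e7d440_ag.Z
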