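import Pool.Agent.P.MP_e7d440_ag.Z.IfaceG

/-! Step FIX. -/

set_option autoImplicit false
set_option linter.unusedSectionVars false

namespace Pool.Agent.P.MP_e7d440_ag.Z

open Pool.Agent.P.MP_e7d440_ag.U TensorProduct LieAlgebra LaurentPolynomial Set

variable {L Φ Δ : Type} [LieRing L] [LieAlgebra ℚ L] [Fintype Φ] [Fintype Δ] [DecidableEq Φ]
  [DecidableEq Δ] (c : CD L Φ Δ) {K : Type} [Field K] [CharZero K] (ζ : K)
  {J : Type} [Fintype J] [DecidableEq J] (s : J → K)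

theorem p_FIX (h : T3 c ζ s) (hGN : S_GN c ζ s) (hDL : S_DL c ζ s) :
    S_FIX c ζ s := by
  intro U x x' δ hB hD hP hG
  obtain ⟨A, F, hA, hF, hsum⟩ := hGN.bas U x x' hB
  have h1 : ∀ a ∈ A, dl c δ (F a) = 0 := fun a ha => c.ext1 fun b => by
    rw [co_dl, map_zero]
    by_cases hb : c.wt x' b < c.dg J
    · exact hG _ ⟨a, b, F a, ((hA a).1 ha).1, ((hA a).1 ha).2, hb,
        ⟨(hF a ha).1.1, c.Sup_mono Ico_subset_Ici_self (hF a ha).1.2⟩, (hF a ha).2, rfl⟩
    · have h2 : c.co b (F a - bv c ζ a) = 0 := by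
        by_contra h3
        exact hb ((hF a ha).2 b h3)
      rw [map_sub, sub_eq_zero] at h2
      rw [h2, ← co_dl, hDL.bv δ 0 hD, map_zero]
  have h2 : ∀ a ∈ A, ∀ j, ⁅c0 K c.ρ, ev (s j) (F a)⁆ ∈ U j := fun a ha j => by
    have h3 := ((hP _ (hF a ha).1.1).2 j).1
    rw [Th, h1 a ha, Rat.cast_zero, zero_smul, add_zero, zero_sub, map_neg,
      h.lp.ev_lie _ (h.pt.ne j), h.lp.ev_c0] at h3
    exact (neg_mem_iff).1 h3
  have h3 : ∀ j, ∀ u ∈ U j, ⁅c0 K c.ρ, u⁆ ∈ U j := fun j u hu => by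
    obtain ⟨f, he, hsup, hev, -⟩ := h.int.int2 x 0 (Pi.single j u) 0 hB.fix
    have hf : f ∈ c.Win ζ s U x 0 := by
      refine ⟨⟨he, fun i => ⟨?_, fun y _ => ?_⟩⟩, hsup⟩
      · rw [(hev i).1]
        by_cases e : i = j
        · subst e
          rwa [Pi.single_eq_same]
        · rw [Pi.single_eq_of_ne e]
          exact zero_mem _
      · rw [(hev i).2]
        simp
    have e := (hev j).1
    rw [Pi.single_eq_same, hsum f hf, map_sum] at e
    rw [← e, lie_sum]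
    refine Submodule.sum_mem _ fun a ha => ?_
    rw [map_smul, lie_smul]
    exact Submodule.smul_mem _ _ (h2 a ha j)
  choose lam hl using fun j => h.fix.fix (U j) c.ρ (hB.fd j) c.ρ_h c.ρ_ne
    (h.fd.norm (U j) (hB.fd j) _ (h3 j))
  exact ⟨lam, fun j => (hl j).1, funext fun j => (hl j).2⟩

end Pool.Agent.P.MP_e7d440_ag.Z
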