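import Pool.Agent.P.MP_e7d440_ag.Z.IfaceF
import Pool.Agent.P.MP_e7d440_ag.Z.IfaceC

/-! Step FM0. -/

set_option autoImplicit false
set_option linter.unusedSectionVars false

namespace Pool.Agent.P.MP_e7d440_ag.Z

open Pool.Agent.P.MP_e7d440_ag.U TensorProduct LieAlgebra LaurentPolynomial Set IsLocalRing

variable {L Φ Δ : Type} [LieRing L] [LieAlgebra ℚ L] [Fintype Φ] [Fintype Δ] [DecidableEq Φ]
  [DecidableEq Δ] (c : CD L Φ Δ)

theorem p_FM0 (h : TG c) (hVF0 : S_VF0) :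
    S_FM0 c := by
  intro O K₀ K J _ _ _ _ _ _ _ _ _ _ _ _ ζ κ σ s u R sp μ r X x hO hκ hd hco hG hI hcl hU hS
  have hi : Function.Injective (algebraMap O K₀) := hI.algebraMap_injective
  have hz : algebraMap K₀ K (algebraMap O K₀ ζ) = algebraMap O K ζ :=
    (IsScalarTower.algebraMap_apply O K₀ K ζ).symm
  have hp₀ : c.Pt (algebraMap O K₀ ζ) fun j => algebraMap O K₀ (σ j) :=
    ⟨hO.prim.map_of_injective hi, fun j => (map_ne_zero_iff _ hi).2 (hO.ne j), fun i j e =>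
      hO.inj (hi (by simpa using e))⟩
  have hleg : ∀ j, ∃ e : lg κ σ s u j ∈ R, sp ⟨_, e⟩ = algebraMap O K₀ (σ j) := by
    intro j
    obtain ⟨e1, f1⟩ := hS.const (algebraMap O K₀ (κ j))
    obtain ⟨e2, f2⟩ := hS.const (algebraMap O K₀ (σ j))
    obtain ⟨e3, f3⟩ := hS.s0
    obtain ⟨e4, f4⟩ := hS.u1
    have e : lg κ σ s u j = ((⟨_, e1⟩ * ⟨_, e3⟩ + ⟨_, e2⟩ * ⟨_, e4⟩ : R) : K) := by
      simp [lg, ← IsScalarTower.algebraMap_apply]
    refine ⟨e ▸ SetLike.coe_mem _, ?_⟩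
    have e' : (⟨lg κ σ s u j, e ▸ SetLike.coe_mem _⟩ : R) =
        ⟨_, e1⟩ * ⟨_, e3⟩ + ⟨_, e2⟩ * ⟨_, e4⟩ := Subtype.ext e
    rw [e', map_add, map_mul, map_mul, f1, f2, f3, f4]
    simp
  have hp : c.Pt (algebraMap K₀ K (algebraMap O K₀ ζ)) (lg κ σ s u) := by
    refine ⟨hp₀.prim.map_of_injective (algebraMap K₀ K).injective, fun j e => ?_,
      fun i j e => ?_⟩
    · obtain ⟨e1, f1⟩ := hleg j
      have : (⟨_, e1⟩ : R) = 0 := Subtype.ext e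
      rw [this, map_zero] at f1
      exact hp₀.ne j f1.symm
    · obtain ⟨e1, f1⟩ := hleg i
      obtain ⟨e2, f2⟩ := hleg j
      have : (⟨_, e1⟩ : R) ^ c.ℓ = ⟨_, e2⟩ ^ c.ℓ := Subtype.ext (by simpa using e)
      have h2 := congrArg sp this
      rw [map_pow, map_pow, f1, f2] at h2
      exact hp₀.inj h2
  obtain ⟨hg, hind⟩ := hVF0.plane s u X hG hI hS.gen hS.ind
  have hr := (h K₀ _ J _ hp₀).rt1
  refine ⟨⟨hO, hκ, hd, hz ▸ hp, hco, hg, hind, ⟨hcl.1, fun a ha => hcl.2 a ?_⟩, fun S hs α => ?_⟩,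
    hp₀, hp, hS.const, hS.inv, hleg⟩
  · rw [← hz] at ha
    exact (hr.nat (algebraMap K₀ K) a).1.1 ha
  · obtain ⟨y, n, hy, hn, hu⟩ := hU α
    obtain ⟨h1, h2⟩ := unit_inv (K := K) hs hu
    rw [map_intCast] at h1 h2
    exact ⟨y, n, hy, hn, fun e => h2 (by rw [e, Int.cast_zero]), h1⟩

end Pool.Agent.P.MP_e7d440_ag.Z
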