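import Pool.Agent.P.MP_e7d440_ag.Z.IfaceF
import Pool.Agent.P.MP_e7d440_ag.Z.IfaceT
import Pool.Agent.P.MP_e7d440_ag.Z.IfaceB
import Pool.Agent.P.MP_e7d440_ag.Z.IfaceC

/-! Step FVE. -/

set_option autoImplicit false
set_option linter.unusedSectionVars false

namespace Pool.Agent.P.MP_e7d440_ag.Z

open Pool.Agent.P.MP_e7d440_ag.U TensorProduct LieAlgebra LaurentPolynomial Set IsLocalRing

variable {L Φ Δ : Type} [LieRing L] [LieAlgebra ℚ L] [Fintype Φ] [Fintype Δ] [DecidableEq Φ]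
  [DecidableEq Δ] (c : CD L Φ Δ)

namespace FVEA

variable {c}

lemma def_act {K J : Type} [Field K] [CharZero K] {ζ : K} {s : J → K} (h : T2 c ζ)
    (h0 : ∀ j, s j ≠ 0) (S : Subfield K) {n : ℕ} (a : Fin n → Φ × ℤ) {y : Fin n → K}
    {U : J → Submodule K (G L K)} (hζ : ζ ∈ S) (hs : ∀ j, s j ∈ S) (hy : ∀ k, y k ∈ S)
    (hU : ∀ j, c.Def0 S (U j)) (j : J) : c.Def0 S (actE s (c.pE ζ a y) U j) := by
  rw [actE, h.lp.evE_pf _ (h0 j) _ 0 fun i => h.rt1.nil (a i) (y i)]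
  refine LegA.def_pf h S _ (fun k => (h.lp.evE_ex _ (h0 j) _ (h.rt1.nil (a k) (y k))).1)
    (fun k i => ?_) _ (hU j)
  rw [map_smul, map_smul, smul_eq_mul]
  exact S.mul_mem (hy k) (h.sup.in_ev S.toSubring _ (s j) _ (SM.self _) (hs j)
    (S.inv_mem (hs j)) (h.rt1.int S.toSubring ⟨hζ, S.inv_mem (natCast_mem S _)⟩ (a k)) i)

end FVEA

theorem p_FVE (h : TG c) (hARCH : S_ARCH) (hNCF : S_NCF) (hNCL : S_NCL) (hVF0 : S_VF0) (hSDR : S_SDR c) :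
    S_FVE c := by
  intro O K J _ _ _ _ _ _ _ _ π ζ κ σ s u μ r X x d D τ ν Z N hπ F hd hL hS hN 𝔮 hq h1 h2
  have T := h K _ J _ F.pt
  have hinj := F.ind.algebraMap_injective
  have hs : s ∈ N := nc_mem hN (mem_insert _ _)
  have hu : u ∈ N := nc_mem hN (mem_insert_of_mem _ (mem_insert _ _))
  have hZ : Z ⊆ N := fun γ hγ => nc_mem hN (mem_insert_of_mem _ (mem_insert_of_mem _ hγ))
  have hlf : ∀ S : Subfield K, (∀ o, algebraMap O K o ∈ S) → s ∈ S → u ∈ S →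
      ∀ j, lg κ σ s u j ∈ S := fun S a b d j => lg_in (S := S.toSubring) a b d j
  have hG : Gen O (Subtype.val : ↥(insert s (insert u Z) : Set K) → K) :=
    (hVF0.gen _).2 fun S a b =>
      have b1 := b ⟨s, mem_insert _ _⟩
      have b2 := b ⟨u, mem_insert_of_mem _ (mem_insert _ _)⟩
      hL.gp S a b1 b2 (hS.frac S (a _) (hlf S a b1 b2) fun γ hγ =>
        b ⟨γ, mem_insert_of_mem _ (mem_insert_of_mem _ hγ)⟩)
  obtain ⟨k1, k2, k3⟩ := hNCF.ft N _ hinj ((hS.fin.insert u).insert s) hN hG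
  have : IsNoetherianRing N := Algebra.FiniteType.isNoetherianRing O N
  have hs0 : s ≠ 0 := F.ind.ne_zero (.inl 0)
  obtain ⟨R, V, hR, hRV, hm, ha⟩ := hARCH N K 𝔮 hq (locm_ne hq hs0 h2)
  have hRi := hNCL.locl N _ 𝔮 R hN hq hR
  have hNR : ∀ γ ∈ N, γ ∈ R := fun γ hγ => (hR _).2 (loc_map (algebraMap N K) hq ⟨γ, hγ⟩)
  have hOR : ∀ o, algebraMap O K o ∈ R := fun o => hNR _ (N.algebraMap_mem o)
  have hOV : ∀ o, algebraMap O K o ∈ V.toSubring := fun o => hRV.le _ (hOR o)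
  have hlR := lg_in (κ := κ) (σ := σ) hOR (hNR _ hs) (hNR _ hu)
  have hπV := (hm _ (hOR π)).2 h1
  have hsV := (hm _ (hNR _ hs)).2 h2
  have hsm : ∀ j, lg κ σ s u j ∈ V.nonunits := fun j => by
    have : σ j ∈ IsLocalRing.maximalIdeal O := F.od.nonunit j
    rw [hπ.maximalIdeal_eq, Ideal.mem_span_singleton] at this
    obtain ⟨o, e⟩ := this
    have e' : lg κ σ s u j = algebraMap O K (κ j) * s +
        algebraMap O K o * u * algebraMap O K π := by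
      simp only [lg, e, map_mul]
      ring
    rw [e']
    exact V.nonunits.add_mem ((SM.nonunits V).mul _ (hOV _) _ hsV)
      ((SM.nonunits V).mul _ (V.mul_mem _ _ (hOV o) (hRV.le _ (hNR _ hu))) _ hπV)
  have hVD : c.VD (algebraMap O K ζ) (lg κ σ s u) V :=
    ⟨VertA.sd F.od hOV, hsm, fun γ j => ha _ (hlR j) (hsm j) (F.pt.ne j) γ⟩
  obtain ⟨x', z, n, a, t, U', hCr, hU, hB, hSl, ht, hgR, hgV, hsp, htop⟩ :=
    T.vrt R V μ r X x hRV (VertA.sd F.od hOR) hlR (F.uh R hOR) (hNCL.val R hRi) hVD F.co F.cl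
      (hS.spn R V (VertA.sd F.od hOR) hlR hRV.le fun γ hγ => hNR _ (hZ hγ))
  have key : ∀ S : Subring K, Dom S V → (∀ o, algebraMap O K o ∈ S) → s ∈ S → u ∈ S →
      (∀ γ : K, IsIntegral S γ → γ ∈ S) →
      Spn c (algebraMap O K ζ) (lg κ σ s u) S V (c.cell μ X) x → ∀ b : N, (b : K) ∈ S :=
    fun S s1 s2 s3 s4 s5 s6 b => int_mem s2 (insert_subset s3 (insert_subset s4
      (hS.of S V s1 (VertA.sd F.od s2) (lg_in s2 s3 s4)
        (fun γ hγ => hRV.le _ (hNR _ (hZ hγ))) s6))) s5 ((hN _).1 b.2)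
  have hy : ∀ k, cs s u t k ∈ R := by
    rintro (k | k)
    · fin_cases k
      exacts [hNR _ hs, hNR _ hu]
    · exact ht _
  obtain ⟨hind, htor⟩ := hSDR ζ κ σ s u μ r X x x' z n a t U' F hCr hU hB hSl
  refine ⟨n, t, _, ⟨gn_fin T.toT3a hB, fun k => (hR _).1 (ht k),
    fun γ hγ => (hm _ (hgR hγ)).1 (hgV hγ), fun b => ?_, (hVF0.gen _).2 fun S e1 e2 => ?_, hind,
    hd ▸ htor⟩, fun hdn => ?_⟩
  · have hW : range (cs s u t) ∪ Gn c (algebraMap O K ζ) (lg κ σ s u) U' x x' ⊆ R :=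
      union_subset (range_subset_iff.2 hy) hgR
    obtain ⟨S, s0, s1, s2, s5⟩ := hNCL.locn (Algebra.adjoin O (range (cs s u t) ∪
      Gn c (algebraMap O K ζ) (lg κ σ s u) U' x x')) V fun γ hγ =>
        hRV.le _ (int_mem hOR hW hRi (isIntegral_algebraMap
          (x := (⟨γ, hγ⟩ : Algebra.adjoin O _))))
    have s3 := fun k => s2 _ (Algebra.subset_adjoin (Or.inl ⟨k, rfl⟩))
    have s4 := fun o => s2 _ (Subalgebra.algebraMap_mem _ o)
    obtain ⟨a', b', i1, i2, i3, i4, i5⟩ := (s0 b).1 (key S s1 s4 (s3 (.inl 0)) (s3 (.inl 1)) s5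
      (hsp S (VertA.sd F.od s4) (lg_in s4 (s3 (.inl 0)) (s3 (.inl 1))) s1.le
        (fun k => s3 (.inr k)) fun γ hγ => s2 _ (Algebra.subset_adjoin (Or.inr hγ))) b)
    exact ⟨a', b', i1, i2, i3, (hR _).1 (hRV.inv _ (int_mem hOR hW hRi i2)
      (unit_nn i4 i3 (by rw [sub_self]; exact V.nonunits.zero_mem))), i5⟩
  · have e3 : ∀ k, cs s u t k ∈ S := fun k => e2 ⟨_, Or.inl ⟨k, rfl⟩⟩
    have e4 := hlf S e1 (e3 (.inl 0)) (e3 (.inl 1))
    refine hL.gp S e1 (e3 (.inl 0)) (e3 (.inl 1)) ?_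
    rw [hU]
    exact FVEA.def_act T.toT2 F.pt.ne S a (e1 _) e4 (fun k => e3 (.inr k))
      (gn_def0 T.toT3a hB S (e1 _) e4 fun γ hγ => e2 ⟨γ, Or.inr hγ⟩)
  obtain ⟨lam, r', X', hCo, hg, hn, hP, hU'⟩ := htop (hd ▸ hdn)
  have hMin := hCo.2.2.1
  have hnd : n = d := by
    rw [hn, ← T.leg.rank_cell lam X' hMin, ← hU', T.leg.rank_cell μ X F.co.2.2.1, hd]
  subst hnd
  have hGen : Gen O (cs s u t) := (hVF0.gen _).2 fun S e1 e2 =>
    hL.gp S e1 (e2 (.inl 0)) (e2 (.inl 1)) (hP ▸ T.leg.def_pU S a t lam (e1 _)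
      (hlf S e1 (e2 (.inl 0)) (e2 (.inl 1))) fun k => e2 (.inr k))
  obtain ⟨S, s1, s2, s3, -, s5, s6⟩ :=
    loc_ring hRV hGen (gen.indep _ _ hGen F.ind (by simp [← hd])) hOR hy
  refine ⟨t, ⟨fun k => (hR _).1 (hy k), fun b => ?_⟩, (hR _).1 ?_⟩
  · obtain ⟨F', G', i1, i2, i3⟩ := (s6 b).1 (key S s1 s2 (s3 (.inl 0)) (s3 (.inl 1)) s5
      (hP ▸ T.spu S V lam n a t x (VertA.sd F.od s2) (lg_in s2 (s3 (.inl 0)) (s3 (.inl 1))) s1.le
        (fun k => s3 (.inr k)) hMin (fun k => ((T.act.cr x x' z n a hCr).2.1 k).2.1) F.cl) b)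
    exact ⟨F', G', i1, (hR _).1 i2, i3⟩
  · obtain ⟨w, hw, e⟩ := T.verw D ν lam r' a t R hCo hg (fun i => (D i).map_algebraMap _)
      (fun i j => by simp [lg, (hL.der i).1, (hL.der i).2.1]) (hP ▸ hL.vol) (VertA.sd F.od hOR)
      hlR ht
    obtain ⟨o, ho⟩ := hL.dvd lam r' X' hCo hU'
    rw [(T.count.count lam r' _ n a hCo (Or.inl rfl) hg).2, ho, ← mul_assoc] at e
    rw [mul_right_cancel₀ (Rat.cast_ne_zero.2 hL.nu) e]
    exact R.mul_mem hw (hOR o)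

end Pool.Agent.P.MP_e7d440_ag.Z
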