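import Pool.Agent.P.MP_e7d440_ag.Z.IfaceG

/-! Step GN. -/

set_option autoImplicit false
set_option linter.unusedSectionVars false

namespace Pool.Agent.P.MP_e7d440_ag.Z

open Pool.Agent.P.MP_e7d440_ag.U TensorProduct LieAlgebra LaurentPolynomial Set

variable {L Φ Δ : Type} [LieRing L] [LieAlgebra ℚ L] [Fintype Φ] [Fintype Δ] [DecidableEq Φ]
  [DecidableEq Δ] (c : CD L Φ Δ) {K : Type} [Field K] [CharZero K] (ζ : K)
  {J : Type} [Fintype J] [DecidableEq J] (s : J → K)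

theorem p_GN (h : T3 c ζ s) :
    S_GN c ζ s := by
  have cast : (0 : ℚ) + ((2 * c.dg J : ℕ) : ℚ) = 2 * c.dg J := by push_cast; ring
  refine ⟨fun U x x' h1 h2 h3 h4 h5 h6 h7 => ⟨h1, h2, h3, h4, h5, h6, fun e he h8 => ?_⟩,
    fun U x x' B f hf H => ⟨hf.1, fun b hb => ⟨hf.2 b hb, ?_⟩⟩, fun U x x' B => ?_,
    fun U x x' S M B hS hs hG hM f hf H => ?_⟩
  · obtain ⟨q, hq, k1, k2, -⟩ := h.div.div _ _ x 0 e h.div.mon_sq (h4 e he h8)
    rw [cast] at k1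
    have k3 := h.div.nn_sq U q (k2 h2 he)
    have k4 := sub_mem he k3.1
    obtain ⟨t, ht, e0⟩ := h.eqv.span _ (h.eqv.pr_wt x' (Ici (c.dg J : ℚ)) h3 _ k4)
    have k5 := h.sup.pr_wt x' (Ici (c.dg J : ℚ)) (e - c.phi s ^ 2 • q)
    choose! F F1 F2 using h7
    rw [compl_Ici] at k5
    have k6 := fun a ha => k5.1 a (ht a ha)
    have k7 := fun a ha => (h.sup.pr_sup _ x _ _ k1 a (ht a ha)).2
    refine ⟨c.phi s ^ 2 • q + ∑ a ∈ t, (c.co a (c.pr (fun a => c.wt x' a ∈ Ici (c.dg J : ℚ))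
      (e - c.phi s ^ 2 • q)) / (c.ℓ : K)) • F a, add_mem ⟨k3, h.sup.smul x _ _ _ _ hq
        fun n hn p hp => add_nonneg (mem_Ici.1 hp) (Int.cast_nonneg (h.div.mon_sq.1 n hn).1)⟩
      (Submodule.sum_mem _ fun a ha => Submodule.smul_mem _ _ (F1 a (k6 a ha) (k7 a ha))), ?_⟩
    have k8 := sub_mem (Submodule.sum_mem (c.Sup x' (Iio (c.dg J : ℚ))) (t := t) fun a ha =>
      Submodule.smul_mem _ (c.co a (c.pr (fun a => c.wt x' a ∈ Ici (c.dg J : ℚ))
        (e - c.phi s ^ 2 • q)) / (c.ℓ : K)) (F2 a (k6 a ha) (k7 a ha))) k5.2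
    simp only [smul_sub, Finset.sum_sub_distrib, bv] at k8
    rw [← e0] at k8
    convert k8 using 1
    abel
  · rw [zero_add]
    by_contra k
    have k1 := h.eqv.pr_wt x (Ici (2 * c.dg J : ℚ)) B.fix _ hf.1.1
    have k2 : c.co b (c.pr (fun a => c.wt x a ∈ Ici (2 * c.dg J : ℚ)) f) ≠ 0 := by
      rw [c.co_pr, if_pos (mem_Ici.2 (not_lt.1 k))]
      exact hb
    exact k (H b (B.hi _ k1 (h.sup.pr_wt x _ f).1 b k2) hb)
  · obtain ⟨A, hA⟩ := big_sec h.toT3a B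
    refine ⟨(wt_fin (c := c) x x' (c.dg J) (2 * c.dg J)).toFinset, fun a => A (c.BB K a),
      fun a => by simp, fun a ha => ⟨hA.win a ((Set.Finite.mem_toFinset _).1 ha).2, hA.bas a⟩,
      fun f hf => ?_⟩
    conv_lhs => rw [win_sum hA (win_lat hf)]
    simp only [div_eq_inv_mul]
    refine Finset.sum_congr_of_eq_on_inter (fun a h1 h2 => ?_) (fun a _ h2 => ?_) fun _ _ _ => rfl
    · rw [hA.low _ (BB_sup x' a (not_le.1 fun k => h2 ((Set.Finite.mem_toFinset _).2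
        ⟨k, by simpa using (hf.2 a (co_ne h1)).2⟩))), smul_zero]
    · rw [c.co_repr, Finsupp.notMem_support_iff.1 h2, mul_zero, zero_smul]
  · obtain ⟨A, hA⟩ := big_sec h.toT3a B
    obtain ⟨-, aS, sS, -, tS⟩ := h.sup.in_add S S (SM.self S)
    obtain ⟨zM, -, -, sM, tM⟩ := h.sup.in_add S M hM
    have key : ∀ a, (c.dg J : ℚ) ≤ c.wt x' a → c.In S (A (c.BB K a)) := fun a ha => by
      obtain ⟨q, hq, k1, k2, k3⟩ := h.div.div _ _ x 0 _ h.div.mon_sq
        (B.lo _ (bv_eqv h.toT3a a) (bv_sup h.toT3a B.fix' a ha))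
      rw [cast] at k1
      have pS := (h.div.phi_int S hs).2
      have k4 := (h.sup.in_smul S S _ _ (SM.self S)).1 pS
        (k3 S S (SM.self S) pS (bv_in h.toT3a hS a))
      have k5 : c.phi s ^ 2 • q ∈ Lat c ζ s U x := ⟨h.div.nn_sq U q (k2 B.fix (bv_eqv h.toT3a a)),
        h.sup.smul x _ _ _ _ hq fun n hn p hp =>
          add_nonneg (mem_Ici.1 hp) (Int.cast_nonneg (h.div.mon_sq.1 n hn).1)⟩
      have k6 : c.In S (A (bv c ζ a - c.phi s ^ 2 • q)) := by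
        rw [lin_sum (c := c)]
        exact tS _ _ fun b hb => sS _ _ ((aS _ _ (bv_in h.toT3a hS a) k4).2 b)
          (hA.int S hS hG b (k1 b (co_ne hb)).2)
      have k7 := sS _ _ hS.2 k6
      rw [map_sub, hA.avg, hA.fix _ k5, ← smul_sub, smul_smul,
        inv_mul_cancel₀ (Nat.cast_ne_zero.2 c.ℓ_pos.ne'), one_smul] at k7
      simpa using (aS _ _ k7 k4).1
    rw [win_sum hA hf]
    refine tM _ _ fun a _ => ?_
    by_cases e : c.wt x' a < c.dg J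
    · rw [hA.low _ (BB_sup x' a e), smul_zero]
      exact zM
    · exact sM _ _ (hM.mul _ hS.2 _ (H a (not_lt.1 e))) (key a (not_lt.1 e))

end Pool.Agent.P.MP_e7d440_ag.Z
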