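import Pool.Agent.P.MP_e7d440_ag.Z.IfaceG

/-! Step KIL. -/

set_option autoImplicit false
set_option linter.unusedSectionVars false

namespace Pool.Agent.P.MP_e7d440_ag.Z

open Pool.Agent.P.MP_e7d440_ag.U TensorProduct LieAlgebra LaurentPolynomial Set

variable {L Φ Δ : Type} [LieRing L] [LieAlgebra ℚ L] [Fintype Φ] [Fintype Δ] [DecidableEq Φ]
  [DecidableEq Δ] (c : CD L Φ Δ) {K : Type} [Field K] [CharZero K] (ζ : K)
  {J : Type} [Fintype J] [DecidableEq J] (s : J → K)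

theorem p_KIL (h : T3 c ζ s) (hDL : S_DL c ζ s) :
    S_KIL c ζ s := by
  intro U x x' χ δ η B hS hx hχ hD hη hP
  by_contra h0
  obtain ⟨w, hw, a, a1, a2⟩ := h.sup.high x' η h0
  have hw0 : w < 0 := a2 ▸ hη.2.2 a a1
  obtain ⟨f, hf⟩ := B.fh h.toT3a c.fix_ρ
  have f1 := hS _ f c.fix_ρ hf
  obtain ⟨e, he⟩ : ∃ e, e = (T (c.dg J : ℤ) : LP K) • c0 (LP K) c.ρ := ⟨_, rfl⟩
  have e1 : ∀ z, e ∈ c.Sup z {(c.dg J : ℚ)} := fun z => he ▸ tN_sup h.toT3a z c.fix_ρ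
  have f2 : f - e ∈ c.Sup x' (Iio (c.dg J : ℚ)) := he ▸ hf.2
  have hc : ∀ z P, ∀ g ∈ c.Sup z P, ⁅c0 (LP K) χ, g⁆ ∈ c.Sup z P := fun z P g hg b hb =>
    hg b fun k => hb (by rw [h.lp.co_c0 χ hχ.1, k, mul_zero])
  have e2 : ⁅c0 (LP K) χ, e⁆ = 0 := c.ext1 fun b => by
    rw [h.lp.co_c0 χ hχ.1, map_zero]
    obtain ⟨m, β | i⟩ := b
    · rw [he, h.lp.co_T, h.lp.co_const, c.fix_ρ.1 β]
      simp
    · simp [CD.wt0]
  have e3 : dl c δ e = 0 := by rw [he, hDL.T, hDL.c0 δ 0 hD, smul_zero]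
  have t1 : Th c δ 0 (c0 (LP K) χ + η) f = dl c δ f - ⁅c0 (LP K) χ, f⁆ - ⁅η, f⁆ := by
    rw [Th, add_lie, Rat.cast_zero, zero_smul, add_zero, sub_sub]
  have l1 : ⁅η, f - e⁆ ∈ c.Sup x' (Iio (w + c.dg J)) :=
    h.sup.lie x' _ _ _ _ _ hw f2 fun p hp q hq => add_lt_add_of_le_of_lt (mem_Iic.1 hp) (mem_Iio.1 hq)
  have t2 := B.uniq _ ⟨hP f hf.1.1, by
    rw [t1]
    exact sub_mem (sub_mem (hDL.sup _ _ _ _ hf.1.2) (hc _ _ _ hf.1.2)) (h.sup.lie x _ _ _ _ _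
      ((h.wall.cl_pos _ x h.wall.reg_ρ hx η hη.1).2 (c.Sup_mono Ioi_subset_Ici_self hη.2.1))
      hf.1.2 fun p hp q hq => add_nonneg (mem_Ici.1 hp) (mem_Ici.1 hq))⟩ (by
    have k : dl c δ f - ⁅c0 (LP K) χ, f⁆ - ⁅η, f⁆ =
        dl c δ (f - e) - ⁅c0 (LP K) χ, f - e⁆ - (⁅η, f - e⁆ + ⁅η, e⁆) := by
      rw [map_sub, lie_sub, lie_sub, e2, e3, sub_zero, sub_zero, sub_add_cancel]
    rw [t1, k]
    refine sub_mem (sub_mem (hDL.sup _ _ _ _ f2) (hc _ _ _ f2)) (add_mem (c.Sup_mono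
      (Iio_subset_Iio (by linarith)) l1) (h.sup.lie x' _ _ _ _ _ hη.2.2 (e1 x') ?_))
    rintro p hp _ rfl
    exact add_lt_of_neg_left _ (mem_Iio.1 hp))
  rw [t1, sub_eq_zero] at t2
  have t3 : ⁅η, f⁆ ∈ c.Sup c.ρ (Iic (c.dg J : ℚ)) :=
    t2 ▸ sub_mem (hDL.sup _ _ _ _ f1) (hc _ _ _ f1)
  obtain ⟨m, β | i⟩ := a
  · have k1 : c.co (m + c.dg J, .inl β) ⁅η, f - e⁆ = 0 := by_contra fun k => by
      have := l1 _ k
      simp only [CD.wt, mem_Iio] at this a2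
      push_cast at this
      linarith
    have k2 : c.co (m + c.dg J, .inl β) ⁅η, f⁆ = 0 := by_contra fun k => by
      have k3 := t3 _ k
      have k4 := hη.2.1 _ a1
      simp only [CD.wt, mem_Iic, mem_Ioi] at k3 k4
      push_cast at k3
      linarith
    rw [lie_sub, map_sub, k2, he, lie_smul, h.lp.co_T, ← lie_skew, map_neg,
      h.lp.co_c0 _ c.fix_ρ.1, add_sub_cancel_right, zero_sub, neg_neg, mul_eq_zero] at k1
    exact k1.elim (fun k => c.ρ_ne β (by exact_mod_cast k)) a1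
  · have k1 := hη.2.1 _ a1
    have k2 := hη.2.2 _ a1
    simp only [c.wt_inr, mem_Ioi, mem_Iio] at k1 k2
    linarith

end Pool.Agent.P.MP_e7d440_ag.Z
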