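import Pool.Agent.P.MP_e7d440_ag.Z.IfaceG

/-! Step NAK. -/

set_option autoImplicit false
set_option linter.unusedSectionVars false

namespace Pool.Agent.P.MP_e7d440_ag.Z

open Pool.Agent.P.MP_e7d440_ag.U TensorProduct LieAlgebra LaurentPolynomial Set

variable {L Φ Δ : Type} [LieRing L] [LieAlgebra ℚ L] [Fintype Φ] [Fintype Δ] [DecidableEq Φ]
  [DecidableEq Δ] (c : CD L Φ Δ) {K : Type} [Field K] [CharZero K] (ζ : K)
  {J : Type} [Fintype J] [DecidableEq J] (s : J → K)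

theorem p_NAK (h : T3 c ζ s) :
    S_NAK c ζ s := by
  intro S V U x x' hD hS hx hx' H b h1 h2
  have hl : (c.ℓ : K) ≠ 0 := Nat.cast_ne_zero.2 c.ℓ_pos.ne'
  obtain ⟨zS, aS, sS, -, tS⟩ := h.sup.in_add S S (SM.self S)
  let I := {a : ℤ × (Φ ⊕ Δ) | (c.dg J : ℚ) ≤ c.wt x' a ∧ c.wt x a < 2 * c.dg J}
  have : Fintype I := (wt_fin (c := c) x x' (c.dg J) (2 * c.dg J)).fintype
  let w : {w | w ∈ c.Win ζ s U x 0 ∧ c.In S w} ⊕ I → LG L K :=
    Sum.elim Subtype.val fun a => c.BB K a.1 - (c.ℓ : K)⁻¹ • bv c ζ a.1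
  have key := h.resd.resd (ι := I) V S (fun k a => c.co a.1 (w k)) hD (by
      rintro (k | k) a
      · exact k.2.2 a.1
      · exact (aS _ _ (BB_in S _) (sS _ _ hS.2 (bv_in h.toT3a hS _))).2 a.1) (fun b => by
      obtain ⟨g, hg, hm⟩ := H b.1 b.2.1 b.2.2
      obtain ⟨l, rfl⟩ := (Finsupp.mem_span_iff_linearCombination _ _ _).1 hg
      refine ⟨l.support.disjSum {b}, Sum.elim (fun k => (c.ℓ : K)⁻¹ * (l k : K)) 1, ?_, fun a => ?_⟩
      · rintro (k | k)
        exacts [V.mul_mem _ _ (hD.le _ hS.2) (l k).2, V.one_mem]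
      have k1 := (SM.nonunits V).mul _ (hD.le _ hS.2) _ (hm a.1 a.2.1)
      rw [map_sub, Finsupp.linearCombination_apply, Finsupp.sum, map_sum,
        Finset.sum_congr rfl fun k _ => (show c.co a.1 (l k • k.1) = (l k : K) * c.co a.1 k.1 from
          map_smul (c.co a.1) (l k : K) k.1)] at k1
      have e : ∑ k ∈ l.support.disjSum {b}, Sum.elim (fun k => (c.ℓ : K)⁻¹ * (l k : K)) 1 k *
          c.co a.1 (w k) - (if a = b then 1 else 0) = (c.ℓ : K)⁻¹ *
            (∑ k ∈ l.support, (l k : K) * c.co a.1 k.1 - c.co a.1 (bv c ζ b.1)) := by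
        rw [Finset.sum_disjSum, Finset.sum_singleton]
        simp only [w, Sum.elim_inl, Sum.elim_inr, Pi.one_apply, map_sub, map_smul, co_BB,
          Subtype.ext_iff, smul_eq_mul, mul_assoc, ← Finset.mul_sum]
        ring
      rw [e]
      exact k1)
  obtain ⟨T, q, hq, e⟩ := key ⟨b, h1, h2⟩
  have k1 : ∑ k ∈ T, q k • w k - c.BB K b ∈ c.Sup x (Iio (2 * c.dg J : ℚ)) := by
    refine sub_mem (Submodule.sum_mem _ fun k _ => Submodule.smul_mem _ _ ?_) (BB_sup x b h2)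
    rcases k with k | k
    · exact fun a ha => by simpa using (k.2.1.2 a ha).2
    · exact sub_mem (BB_sup x _ k.2.2) (Submodule.smul_mem _ _ (bv_sup h.toT3a hx _ k.2.2))
  have k2 : ∑ k ∈ T, q k • w k - c.BB K b ∈ c.Sup x' (Iio (c.dg J : ℚ)) :=
    fun a ha => not_le.1 fun k => ha (by
      have := e ⟨a, k, k1 a ha⟩
      simp only [Subtype.ext_iff] at this
      rw [map_sub, co_BB, map_sum, ← this, sub_eq_zero]
      exact Finset.sum_congr rfl fun k _ => map_smul _ _ _)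
  have k3 := lin_mem ((c.BB K).constr K (bv c ζ)) (c.Sup x' (Iio (c.dg J : ℚ))) _ fun a ha => by
    rw [Module.Basis.constr_basis]
    exact bv_sup h.toT3a hx' a (k2 a ha)
  rw [map_sub, Module.Basis.constr_basis, map_sum] at k3
  have k4 : ∀ k, (c.BB K).constr K (bv c ζ) (q k • w k) ∈ c.Win ζ s U x 0 ∧
      c.In S ((c.BB K).constr K (bv c ζ) (q k • w k)) := by
    rintro (k | k)
    · rw [map_smul, show w (.inl k) = k.1 from rfl, av_eqv h.toT3a k.2.1.1.1]
      exact ⟨Submodule.smul_mem _ _ (Submodule.smul_mem _ _ k.2.1),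
        sS _ _ (hq _) (sS _ _ (natCast_mem S _) k.2.2)⟩
    · rw [map_smul, show w (.inr k) = _ - _ from rfl, map_sub, map_smul,
        Module.Basis.constr_basis, av_eqv h.toT3a (bv_eqv h.toT3a _), smul_smul,
        inv_mul_cancel₀ hl, one_smul, sub_self, smul_zero]
      exact ⟨zero_mem _, zS⟩
  exact ⟨_, Submodule.sum_mem _ fun k _ => (k4 k).1, tS _ _ fun k _ => (k4 k).2, k3⟩

end Pool.Agent.P.MP_e7d440_ag.Z
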