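import Pool.Agent.P.MP_e7d440_ag.Z.IfaceC
import Pool.Agent.P.MP_e7d440_ag.U.Resd

/-! Step NCL. -/

set_option autoImplicit false
set_option linter.unusedSectionVars false

namespace Pool.Agent.P.MP_e7d440_ag.Z

open Pool.Agent.P.MP_e7d440_ag.U MvPolynomial IsLocalRing

namespace NclA

lemma isLoc {A K : Type} [CommRing A] [Field K] (φ : A →+* K) (𝔭 : Ideal A) [hp : 𝔭.IsPrime]
    (hi : Function.Injective φ) (S : Subring K) (hS : ∀ γ, γ ∈ S ↔ loc φ 𝔭 γ) [Algebra A S]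
    (ha : ∀ a, (algebraMap A S a : K) = φ a) : IsLocalization.AtPrime S 𝔭 := by
  have hk : RingHom.ker φ ≤ 𝔭 := by
    rw [(RingHom.injective_iff_ker_eq_bot _).1 hi]; exact bot_le
  refine (isLocalization_iff _ _).2 ⟨fun b => .of_mul_eq_one ⟨_, (hS _).2 (loc_inv φ hk b.2)⟩
    (Subtype.ext ?_), fun z => ?_, fun {a b} h => ⟨1, ?_⟩⟩
  · rw [Subring.coe_mul, ha]
    exact mul_inv_cancel₀ fun h => b.2 (hk h)
  · obtain ⟨a, b, hb, e⟩ := (hS _).1 z.2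
    exact ⟨⟨a, b, hb⟩, Subtype.ext (by rw [Subring.coe_mul, ha, ha]; exact e)⟩
  · rw [hi ((ha a).symm.trans ((congrArg Subtype.val h).trans (ha b)))]

lemma locl {O K : Type} [CommRing O] [Field K] [Algebra O K] (N : Subalgebra O K)
    (𝔮 : Ideal N) (S : Subring K) (hN : ∀ γ : K, IsIntegral N γ → γ ∈ N) (hq : 𝔮.IsPrime)
    (hS : ∀ γ, γ ∈ S ↔ loc (algebraMap N K) 𝔮 γ) (γ : K) (h : IsIntegral S γ) : γ ∈ S := by
  let := ((algebraMap N K).codRestrict S fun a => (hS _).2 (loc_map _ hq a)).toAlgebra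
  have := isLoc (algebraMap N K) 𝔮 Subtype.val_injective S hS fun _ => rfl
  have : IsScalarTower N S K := .of_algebraMap_eq fun _ => rfl
  obtain ⟨m, hm⟩ := IsIntegral.exists_multiple_integral_of_isLocalization 𝔮.primeCompl γ h
  exact (hS _).2 ⟨⟨_, hN _ hm⟩, m, m.2, mul_comm _ _⟩

lemma cl {O K : Type} [CommRing O] [Field K] [Algebra O K] (A N : Subalgebra O K)
    (hN : ∀ γ, γ ∈ N ↔ IsIntegral A γ) (γ : K) (h : IsIntegral N γ) : γ ∈ N := by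
  obtain rfl : N = (integralClosure A K).restrictScalars O := SetLike.ext hN
  exact isIntegral_trans (R := A) (A := integralClosure A K) γ h

end NclA

theorem p_NCL :
    S_NCL := by
  refine ⟨fun {O K} _ _ _ Z => ⟨(integralClosure (Algebra.adjoin O Z) K).restrictScalars O,
    fun _ => Iff.rfl⟩, ?_, ?_, fun N Z 𝔮 S hN hq hS =>
      NclA.locl N 𝔮 S (NclA.cl _ N hN) hq hS⟩
  · intro O K _ _ _ A V hA
    let N := (integralClosure A K).restrictScalars O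
    have hN : ∀ γ ∈ N, γ ∈ V := fun γ (h : IsIntegral A γ) => by
      let := ((algebraMap A K).codRestrict V fun a => hA _ a.2).toAlgebra
      have : IsScalarTower A V K := .of_algebraMap_eq fun _ => rfl
      obtain ⟨v, rfl⟩ := (isIntegrallyClosed_iff K).1 inferInstance (h.tower_top (A := V))
      exact v.2
    let 𝔮 := (maximalIdeal V).comap ((algebraMap N K).codRestrict V fun a => hN _ a.2)
    have hq : 𝔮.IsPrime := Ideal.comap_isPrime _ _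
    have h𝔮 : ∀ b : N, b ∉ 𝔮 ↔ (b : K) ≠ 0 ∧ (b : K)⁻¹ ∈ V := fun b => by
      rw [Ideal.mem_comap, ← V.coe_mem_nonunits_iff, V.mem_nonunits_iff_or, not_or, not_not]
      rfl
    obtain ⟨S, -, hS, -⟩ := resd.dom (K := K) 𝔮 hq Subtype.val_injective
    refine ⟨S, fun γ => (hS γ).trans ⟨fun ⟨a, b, hb, e⟩ =>
      ⟨a, b, a.2, b.2, ((h𝔮 b).1 hb).1, ((h𝔮 b).1 hb).2, e⟩, fun ⟨a, b, h1, h2, h3, h4, e⟩ =>
      ⟨⟨a, h1⟩, ⟨b, h2⟩, (h𝔮 _).2 ⟨h3, h4⟩, e⟩⟩, ⟨fun γ h => ?_, fun γ h h' => ?_⟩,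
      fun γ h => (hS _).2 (loc_map (algebraMap N K) hq ⟨γ, isIntegral_algebraMap (x := (⟨γ, h⟩ : A))⟩),
      NclA.locl N 𝔮 S (NclA.cl A N fun _ => Iff.rfl) hq hS⟩
    · obtain ⟨a, b, hb, e⟩ := (hS _).1 h
      rw [(eq_mul_inv_iff_mul_eq₀ ((h𝔮 b).1 hb).1).2 e]
      exact mul_mem (hN _ a.2) ((h𝔮 b).1 hb).2
    · obtain ⟨a, b, hb, e⟩ := (hS _).1 h
      rw [V.mem_nonunits_iff_or, not_or, not_not] at h'
      have e' : (a : K) = γ * b := e.symm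
      refine (hS _).2 ⟨b, a, (h𝔮 a).2 ?_, (congrArg _ e').trans (inv_mul_cancel_left₀ h'.1 _)⟩
      rw [e', mul_inv]
      exact ⟨mul_ne_zero h'.1 ((h𝔮 b).1 hb).1, mul_mem h'.2 ((h𝔮 b).1 hb).2⟩
  · intro K _ S hS γ h
    by_contra hγ
    have : IsIntegrallyClosedIn S K := isIntegrallyClosedIn_iff.2
      ⟨Subtype.val_injective, fun {x} hx => ⟨⟨x, hS x hx⟩, rfl⟩⟩
    obtain ⟨V, h1, h2⟩ := S.exists_le_valuationSubring_of_isIntegrallyClosedIn hγ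
    exact h2 (h V h1)

end Pool.Agent.P.MP_e7d440_ag.Z
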