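import Pool.Agent.P.MP_e7d440_ag.Z.IfaceG

/-! Step NEAR. -/

set_option autoImplicit false
set_option linter.unusedSectionVars false

namespace Pool.Agent.P.MP_e7d440_ag.Z

open Pool.Agent.P.MP_e7d440_ag.U TensorProduct LieAlgebra LaurentPolynomial Set

variable {L Φ Δ : Type} [LieRing L] [LieAlgebra ℚ L] [Fintype Φ] [Fintype Δ] [DecidableEq Φ]
  [DecidableEq Δ] (c : CD L Φ Δ) {K : Type} [Field K] [CharZero K] (ζ : K)
  {J : Type} [Fintype J] [DecidableEq J] (s : J → K)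

namespace NEARA

lemma gap (u d ε : ℚ) (hε : 0 < ε) (hd : ε * ((u.den : ℚ) * |d|) < 1) (m : ℤ) :
    (0 < u + m → 0 < u + m + ε * d) ∧ (u + m < 0 → u + m + ε * d < 0) := by
  have hden : (0 : ℚ) < u.den := by exact_mod_cast u.den_pos
  have hm : (u + m) * u.den = ((u.num + m * u.den : ℤ) : ℚ) := by
    push_cast
    rw [add_mul, Rat.mul_den_eq_num]
  have h1 : ε * (u.den * d) ≤ ε * (u.den * |d|) :=
    mul_le_mul_of_nonneg_left (mul_le_mul_of_nonneg_left (le_abs_self d) hden.le) hε.le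
  have h2 : ε * (u.den * -d) ≤ ε * (u.den * |d|) :=
    mul_le_mul_of_nonneg_left (mul_le_mul_of_nonneg_left (neg_le_abs d) hden.le) hε.le
  constructor
  · intro hp
    have h3 : (0 : ℚ) < ((u.num + m * u.den : ℤ) : ℚ) := by rw [← hm]; positivity
    have h4 : (1 : ℤ) ≤ u.num + m * u.den := by exact_mod_cast h3
    have h5 : (1 : ℚ) ≤ (u + m) * u.den := by rw [hm]; exact_mod_cast h4
    have h6 : 0 < (u + m + ε * d) * u.den := by nlinarith
    exact (mul_pos_iff_of_pos_right hden).1 h6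
  · intro hp
    have h3 : ((u.num + m * u.den : ℤ) : ℚ) < 0 := by
      rw [← hm]; exact mul_neg_of_neg_of_pos hp hden
    have h4 : u.num + m * u.den ≤ (-1 : ℤ) := by
      have : u.num + m * u.den < (0 : ℤ) := by exact_mod_cast h3
      omega
    have h5 : (u + m) * u.den ≤ (-1 : ℚ) := by rw [hm]; exact_mod_cast h4
    have h6 : (u + m + ε * d) * u.den < 0 := by nlinarith
    exact neg_of_mul_neg_left h6 hden.le

lemma pt (x' : L) (hx : c.Fix x') : ∃ z, c.Fix z ∧ ∃ ε : ℚ, 0 < ε ∧ ∀ a : Φ × ℤ,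
    (0 < c.val a x' → 0 < c.val a z) ∧ (c.val a x' < 0 → c.val a z < 0) ∧
      (c.val a x' = 0 → c.val a z = ε * c.val a c.ρ) := by
  set t : Φ → ℚ := fun α => ((c.al α x').den : ℚ) * |c.al α (c.ρ - x')| with ht
  have t0 : ∀ α, 0 ≤ t α := fun α => by positivity
  have hS : 0 ≤ ∑ α, t α := Finset.sum_nonneg fun α _ => t0 α
  have hp : 0 < 1 + ∑ α, t α := by linarith
  refine ⟨x' + (1 + ∑ α, t α)⁻¹ • (c.ρ - x'), hx.add ((c.fix_ρ.sub hx).smul _),
    (1 + ∑ α, t α)⁻¹, inv_pos.2 hp, fun a => ?_⟩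
  have hv : c.val a (x' + (1 + ∑ α, t α)⁻¹ • (c.ρ - x')) =
      c.al a.1 x' + a.2 + (1 + ∑ α, t α)⁻¹ * c.al a.1 (c.ρ - x') := by
    simp only [CD.val, map_add, map_smul, smul_eq_mul]; ring
  have hl : (1 + ∑ α, t α)⁻¹ * t a.1 < 1 := by
    rw [inv_mul_lt_iff₀ hp, mul_one]
    have := Finset.single_le_sum (f := t) (fun α _ => t0 α) (Finset.mem_univ a.1)
    linarith
  have g := gap (c.al a.1 x') (c.al a.1 (c.ρ - x')) _ (inv_pos.2 hp) hl a.2
  rw [hv]
  refine ⟨g.1, g.2, fun h0 => ?_⟩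
  simp only [CD.val, map_sub] at h0 ⊢
  have : c.al a.1 c.ρ - c.al a.1 x' = c.al a.1 c.ρ + a.2 := by linarith
  rw [h0, this, zero_add]

lemma gal (h : T3 c ζ s) (z z' : L) (hz : c.Same ζ z z') : ∀ (n : ℕ) (z₀ : L)
    (a : Fin n → Φ × ℤ), c.Gal ζ z n z₀ a → c.Gal ζ z' n z₀ a := by
  intro n
  induction n with
  | zero => exact fun z₀ a g => h.wall.same_trans _ _ _ g hz
  | succ n ih =>
    rintro z₀ a ⟨z₁, h1, h2, h3⟩
    exact ⟨z₁, h1, (h.wall.same_neg _ _ _ hz h1.valid).1 h2, ih z₁ _ h3⟩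

end NEARA

theorem p_NEAR (h : T3 c ζ s) :
    S_NEAR c ζ s := by
  refine ⟨h.pt, fun x' hx => ?_, fun z z' n z₀ a hz => NEARA.gal c ζ s h z z' hz n z₀ a, ?_⟩
  · obtain ⟨z, hz, ε, hε, H⟩ := NEARA.pt c x' hx
    refine ⟨z, ⟨hz, fun a _ => ?_⟩, ⟨hx, fun a _ hp => ?_⟩, fun a _ hp hn => ?_⟩
    · rcases lt_trichotomy (c.val a x') 0 with h1 | h1 | h1
      · exact ((H a).2.1 h1).ne
      · rw [(H a).2.2 h1]
        exact mul_ne_zero hε.ne' (h.cd.ρ_int a.1 a.2)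
      · exact ((H a).1 h1).ne'
    · by_contra h1
      exact lt_asymm hp ((H a).2.1 (not_le.1 h1))
    · rcases lt_trichotomy (c.val a x') 0 with h1 | h1 | h1
      · exact h1
      · rw [(H a).2.2 h1] at hn
        exact absurd (mul_pos hε hp) (lt_asymm hn)
      · exact absurd ((H a).1 h1) (lt_asymm hn)
  · intro x' z z₀ n n₀ a a₀ hz hz₀ hc g g₀ hn
    have m := h.gal.mem _ _ _ _ hz g
    have sg : ∀ b, c.Valid ζ b → c.val b x' < 0 → c.val b z₀ < 0 := fun b hb h1 => by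
      rcases lt_trichotomy (c.val b z₀) 0 with h2 | h2 | h2
      · exact h2
      · exact absurd h2 (hz₀.2 b hb)
      · exact absurd (hc.2 b hb h2) (not_le.2 h1)
    have e : ∀ k, ∃ l, c.Sim (a k) (a₀ l) := fun k =>
      h.gal.all _ _ _ _ hz₀ c.fix_ρ g₀ (a k) (m k).1 (m k).2.1 (sg _ (m k).1 (hn k))
    choose l hl using e
    have inj : Function.Injective l := fun k k' hk => by
      by_contra hne
      refine h.gal.ne _ _ _ _ hz g k k' hne (h.rt1.sim_trans _ _ _ (hl k) ?_)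
      rw [hk]
      exact h.rt1.sim_symm _ _ (hl k')
    have le : n ≤ n₀ := by simpa using Fintype.card_le_of_injective l inj
    refine ⟨le, fun ge => ?_⟩
    have sur : Function.Surjective l :=
      ((Fintype.bijective_iff_injective_and_card l).2 ⟨inj, by simp [le_antisymm le ge]⟩).2
    refine h.wall.same_of _ _ hz fun b hb hp => ?_
    by_contra h1
    have h2 : c.val b z₀ < 0 := lt_of_le_of_ne (not_lt.1 h1) (hz₀.2 b hb)
    rcases lt_trichotomy (c.val b c.ρ) 0 with h3 | h3 | h3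
    · obtain ⟨k, hk⟩ := h.gal.all _ _ _ _ hz c.fix_ρ g (c.ng b) (h.rt1.valid_ng b hb)
        (by rw [c.val_ng]; linarith) (by rw [c.val_ng]; linarith)
      have h4 := (h.orb.sim_iff _ _).1 hk x' hc.1
      have h5 := hc.2 (c.ng b) (h.rt1.valid_ng b hb) (by rw [c.val_ng]; linarith)
      have := hn k
      linarith
    · exact h.cd.ρ_int b.1 b.2 h3
    · obtain ⟨k₀, hk⟩ := h.gal.all _ _ _ _ hz₀ c.fix_ρ g₀ b hb h3 h2
      obtain ⟨k, rfl⟩ := sur k₀
      have h4 := (h.orb.sim_iff _ _).1 (h.rt1.sim_trans _ _ _ hk (h.rt1.sim_symm _ _ (hl k))) z hz.1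
      have := (m k).2.2
      linarith

end Pool.Agent.P.MP_e7d440_ag.Z
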