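import Pool.Agent.P.MP_e7d440_ag.Z.IfaceG

/-! Step NF0. -/

set_option autoImplicit false
set_option linter.unusedSectionVars false

namespace Pool.Agent.P.MP_e7d440_ag.Z

open Pool.Agent.P.MP_e7d440_ag.U TensorProduct LieAlgebra LaurentPolynomial Set

variable {L Φ Δ : Type} [LieRing L] [LieAlgebra ℚ L] [Fintype Φ] [Fintype Δ] [DecidableEq Φ]
  [DecidableEq Δ] (c : CD L Φ Δ) {K : Type} [Field K] [CharZero K] (ζ : K)
  {J : Type} [Fintype J] [DecidableEq J] (s : J → K)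

theorem p_NF0 (h : T3 c ζ s) :
    S_NF0 c ζ s := by
  refine ⟨h.pt, fun S M n a y hS hM hle hy f hf => ?_, fun V z' n => ?_⟩
  · obtain ⟨z, aM, -⟩ := h.sup.in_add S M hM
    refine (h.ex.pf_ind (fun k => y k • c.E ζ (a k)) 0
      (fun g => ∀ f, c.In S f → c.In S (g f) ∧ c.In M (g f - f))
      (fun f hf => ⟨hf, by simpa using z⟩) (fun g g' h1 h2 f hf => ⟨(h1 _ (h2 f hf).1).1, by
        simpa using (aM _ _ (h1 _ (h2 f hf).1).2 (h2 f hf).2).1⟩)
      (fun k _ f hf => ⟨(h.xi S S _ _ f hS (SM.self S)).1 (hle (hy k)) hf,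
        (h.xi S M _ _ f hS hM).2 hle (hy k) hf⟩) f hf).2
  induction n with
  | zero => exact fun _ _ _ _ _ _ _ _ _ k => k.elim0
  | succ n ih =>
    intro z a y hV hU hz' hg hy hi
    have m := h.gal.mem z' _ z a hz' hg
    obtain ⟨z₁, hadj, -, hg⟩ := hg
    have m1 := h.gal.mem z' _ z₁ _ hz' hg
    simp only [CD.pE, pf_succ, Module.End.mul_apply] at hi
    have k1 : y 0 ∈ V.nonunits := by
      obtain ⟨w, q, w1, w2, w3, w4⟩ := hU (a 0).1
      have k := h.aut2.coef 1 _ z z₁ _ (y 0) hadj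
        (h.la.aut_pf (Fin.tail a) (Fin.tail y) 0 z hadj.reg.1 fun i => (m i.succ).2.1)
        (h.la.aut_pf (Fin.tail a) (Fin.tail y) 0 z₁ hadj.reg₁.1 fun i => (m1 i).2.1) w w1.1
      have k2 := (SM.nonunits V).mul _ (V.neg_mem _ (V.mul_mem _ _ w4
        (h.rt1.sd_per _ hV (a 0).1))) _ (hi w w1 (CD.ix (a 0)))
      rw [map_sub, h.lp.co_const, w1.1.1, Rat.cast_zero, ite_self, sub_zero] at k2
      rw [CD.cE, div_eq_iff (h.rt1.th_ne _).2.1] at k
      erw [k] at k2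
      have e : ((1 : LP K).coeff 0) = 1 := by simp
      rw [w2, e] at k2
      have q0 : (q : K) ≠ 0 := Int.cast_ne_zero.2 w3
      have p0 := (h.rt1.th_ne (a 0).1).2.1
      have e2 : -((q : K)⁻¹ * ((c.per (a 0).1 : ℕ) : K)⁻¹) *
          (-(y 0 * 1 * ((q : ℚ) : K)) * ((c.per (a 0).1 : ℕ) : K)) = y 0 := by
        push_cast
        field_simp
      rwa [e2] at k2
    refine fun k => Fin.cases k1 (ih z₁ (Fin.tail a) (Fin.tail y) hV hU hz' hg
      (fun k => hy k.succ) fun w hw => ?_) k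
    have k2 := (h.xi V.toSubring V.nonunits (a 0) (y 0) _ hV (SM.nonunits V)).2 V.nonunits_subset k1
      ((h.la.int_pf V.toSubring V (Fin.tail a) (Fin.tail y) 0 hV (SM.val V) (fun k => hy k.succ) _
        (h.eqv.c0 w hw.1.2)).2 (ih_in h.toT3a V.toSubring hw))
    have k3 := ((h.sup.in_add _ _ (SM.nonunits V)).2.1 _ _ (hi w hw) k2).2
    erw [sub_sub_sub_cancel_left] at k3
    exact k3

end Pool.Agent.P.MP_e7d440_ag.Z
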