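import Pool.Agent.P.MP_e7d440_ag.Z.IfaceG

/-! Step RSD. -/

set_option autoImplicit false
set_option linter.unusedSectionVars false

namespace Pool.Agent.P.MP_e7d440_ag.Z

open Pool.Agent.P.MP_e7d440_ag.U TensorProduct LieAlgebra LaurentPolynomial Set

variable {L Φ Δ : Type} [LieRing L] [LieAlgebra ℚ L] [Fintype Φ] [Fintype Δ] [DecidableEq Φ]
  [DecidableEq Δ] (c : CD L Φ Δ) {K : Type} [Field K] [CharZero K] (ζ : K)
  {J : Type} [Fintype J] [DecidableEq J] (s : J → K)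

theorem p_RSD (h : T3 c ζ s) (hGN : S_GN c ζ s) (hACT : S_ACT c ζ s) (hNF0 : S_NF0 c ζ s) :
    S_RSD c ζ s := by
  intro V U' x x' z n a y t hSD hUH hs hCr hy ht hRed hB hSl hG
  obtain ⟨hx', hk, -, -⟩ := hACT.cr x x' z n a hCr
  have hm := SM.nonunits V
  have laP : c.LA ζ (c.pE ζ a t) := h.la.pf a t 0
  have laQ : c.LA ζ (c.pE ζ a y) := h.la.pf a y 0
  obtain ⟨P', laP', e1, e2⟩ := h.la.ex_inv _ laP
  have unP : Un c ζ (c.pE ζ a t) x x' :=
    hACT.pE x x' n a t hCr.cl hx' fun k => ⟨(hk k).2.1, (hk k).2.2.1⟩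
  have unQ : Un c ζ (c.pE ζ a y) x x' :=
    hACT.pE x x' n a y hCr.cl hx' fun k => ⟨(hk k).2.1, (hk k).2.2.1⟩
  have unU := hACT.mul _ _ x x' (hACT.inv _ _ x x' unP e1) unQ
  have autU := h.la.aut_left 1 _ _ c.ρ (h.la.aut_inv _ _ c.ρ laP e1
    (h.la.aut_pf a t 0 c.ρ c.fix_ρ fun k => (hk k).2.1))
    (h.la.aut_pf a y 0 c.ρ c.fix_ρ fun k => (hk k).2.1)
  have lowU := h.la.low_mul z _ _ laQ (h.la.low_inv z _ _ laP e1
    (h.la.low_pf a t 0 z hCr.reg.1 fun k => (hk k).2.2.2))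
    (h.la.low_pf a y 0 z hCr.reg.1 fun k => (hk k).2.2.2)
  have iV : c.IntB ζ V P' :=
    h.la.int_inv _ _ _ laP e1 (h.la.int_pf V.toSubring V a t 0 hSD (SM.val V) ht)
  have iM : c.IntB ζ V.nonunits P' :=
    h.la.int_inv _ _ _ laP e1 (h.la.int_pf V.toSubring V.nonunits a t 0 hSD hm ht)
  have iU : c.IntB ζ V (P' * c.pE ζ a y) :=
    (h.la.int_mul V _ _ fun f hf => (laQ.eqv f).2 hf).1 iV
      (h.la.int_pf V.toSubring V a y 0 hSD (SM.val V) hy)
  generalize hu : P' * c.pE ζ a y = u at unU autU lowU iU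
  have key : ∀ e ∈ c.Eqv ζ, e ∈ c.Sup x' (Ici (c.dg J : ℚ)) → c.In V e →
      ∀ f' ∈ Lat c ζ s U' x, f' - e ∈ c.Sup x' (Iio (c.dg J : ℚ)) →
      (∀ b, (c.dg J : ℚ) ≤ c.wt x' b → c.co b (u e - e) ∈ V.nonunits) →
      c.In V.nonunits (f' - u e) := by
    intro e he h1 h2 f' hf' h3 h4
    obtain ⟨f, g1, g2, -, g4⟩ := (hRed 0).2 e he (by simpa using h1) h2
    have g5 : P' f ∈ Lat c ζ s U' x := by
      refine (hACT.lat _ U' x x' unP hB.fd _).1 ?_
      rw [← Module.End.mul_apply, e1]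
      exact ⟨g1, g2⟩
    have g6 : c.In V.nonunits (P' f - u e) := by
      rw [← hu, Module.End.mul_apply, ← map_sub]
      exact (iM _ (sub_mem g1.1 ((laQ.eqv e).2 he))).2 g4
    have g7 : c.In V.nonunits (P' f - f') := by
      refine hGN.int U' x x' V.toSubring _ hB hSD hs hG hm _ (sub_mem g5 hf') fun b hb => ?_
      have z0 : c.co b (f' - e) = 0 := by
        by_contra hc
        exact not_lt.2 hb (h3 b hc)
      have e3 : P' f - f' = (P' f - u e) + (u e - e) - (f' - e) := by abel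
      rw [e3, map_sub, z0, sub_zero, map_add]
      exact hm.add _ (g6 b) _ (h4 b hb)
    intro b
    have e3 : f' - u e = (P' f - u e) - (P' f - f') := by abel
    rw [e3, map_sub]
    exact hm.sub (g6 b) (g7 b)
  have step : ∀ h0, IH c h0 → c.In V.nonunits (u (c0 (LP K) h0) - c0 (LP K) h0) := by
    intro h0 ih
    obtain ⟨f', hf'⟩ := hB.fh h.toT3a ih.1
    have he := tN_eqv h.toT3a ih.1
    have k1 := key _ he (c.Sup_mono (by simp) (tN_sup h.toT3a x' ih.1))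
      ((h.sup.in_T _ _ _).2 (ih_in h.toT3a V.toSubring ih)) f' hf'.1 hf'.2 fun b hb => by
        have z0 : c.co b (u ((T (c.dg J : ℤ) : LP K) • c0 (LP K) h0) -
            (T (c.dg J : ℤ) : LP K) • c0 (LP K) h0) = 0 := by
          by_contra hc
          exact not_lt.2 hb (unU.low _ _ he
            (c.Sup_mono (by simp) (tN_sup h.toT3a x' ih.1)) b hc)
        rw [z0]
        exact hm.zero
    have k2 : (T (c.dg J : ℤ) : LP K) • (u (c0 (LP K) h0) - c0 (LP K) h0) ∈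
        c.Sup c.ρ (Ioi (c.dg J : ℚ)) := by
      rw [h.sup.sup_T]
      have k := autU.hh h0 ih.1
      have o : (1 : LP K).coeff 0 = 1 := by simp
      rw [o, one_smul] at k
      exact c.Sup_mono (fun q hq => by simpa using hq) k
    have k3 : f' - (T (c.dg J : ℤ) : LP K) • c0 (LP K) h0 ∈ c.Sup c.ρ (Iic (c.dg J : ℚ)) :=
      sub_mem (hSl h0 f' ih.1 hf') (c.Sup_mono (by simp) (tN_sup h.toT3a c.ρ ih.1))
    refine (h.sup.in_T _ (c.dg J : ℤ) _).1 fun b => ?_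
    by_cases hc : c.co b ((T (c.dg J : ℤ) : LP K) • (u (c0 (LP K) h0) - c0 (LP K) h0)) = 0
    · rw [hc]
      exact hm.zero
    · have z0 : c.co b (f' - (T (c.dg J : ℤ) : LP K) • c0 (LP K) h0) = 0 := by
        by_contra hd
        exact not_lt.2 (mem_Iic.1 (k3 b hd)) (k2 b hc)
      have e3 : (T (c.dg J : ℤ) : LP K) • (u (c0 (LP K) h0) - c0 (LP K) h0) =
          (f' - (T (c.dg J : ℤ) : LP K) • c0 (LP K) h0) -
            (f' - u ((T (c.dg J : ℤ) : LP K) • c0 (LP K) h0)) := by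
        rw [map_smul, smul_sub]
        abel
      rw [e3, map_sub, z0, zero_sub]
      exact hm.neg (k1 b)
  obtain ⟨w, hw⟩ := h.nf.nf2 z n c.ρ a u hCr.reg c.fix_ρ hCr.gal unU.la autU lowU
  have wV : ∀ k, w k ∈ V := h.nf.coef V z n c.ρ a w hSD hCr.reg hCr.gal fun f hf hi => by
    rw [← hw f hf]
    exact (iU f hf).2 hi
  have wM := hNF0.nf0 V z n c.ρ a w hSD hUH hCr.reg hCr.gal wV fun h0 ih => by
    have k := step h0 ih
    rwa [hw _ (h.eqv.c0 h0 ih.1.2)] at k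
  rintro _ ⟨a0, b, f', h1, -, h3, hf', h4, rfl⟩
  have k0 : c.In V.nonunits (u (bv c ζ a0) - bv c ζ a0) := by
    rw [hw _ (bv_eqv h.toT3a a0)]
    exact hNF0.small V.toSubring _ n a w hSD hm V.nonunits_subset wM _ (bv_in h.toT3a hSD a0)
  have k1 := key _ (bv_eqv h.toT3a a0) (bv_sup h.toT3a hx' a0 h1) (bv_in h.toT3a hSD a0) f' hf' h4
    fun b _ => k0 b
  have z0 : c.co b (bv c ζ a0) = 0 := by
    by_contra hc
    exact not_lt.2 (mem_Ici.1 (bv_sup h.toT3a hx' a0 (P := Ici (c.dg J : ℚ)) h1 b hc)) h3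
  have e3 : f' = (f' - u (bv c ζ a0)) + (u (bv c ζ a0) - bv c ζ a0) + bv c ζ a0 := by abel
  have k2 := hm.add _ (k1 b) _ (k0 b)
  rw [← map_add, ← add_zero (c.co b _), ← z0, ← map_add, ← e3] at k2
  exact k2

end Pool.Agent.P.MP_e7d440_ag.Z
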