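import Pool.Agent.P.MP_e7d440_ag.Z.IfaceT

/-! Step RSP. -/

set_option autoImplicit false
set_option linter.unusedSectionVars false

namespace Pool.Agent.P.MP_e7d440_ag.Z

open Pool.Agent.P.MP_e7d440_ag.U MvPolynomial IsLocalRing

namespace RSPA

theorem split {K₀ : Type} [Field K₀] (F : MvPolynomial (Fin 2) K₀) :
    ∃ a b, F = C (eval ![0, 1] F) + a * X 0 + b * (X 1 - 1) := by
  induction F using MvPolynomial.induction_on with
  | C c => exact ⟨0, 0, by simp⟩
  | add p q hp hq =>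
    obtain ⟨a, b, h⟩ := hp
    obtain ⟨a', b', h'⟩ := hq
    exact ⟨a + a', b + b', by rw [map_add, map_add]; linear_combination h + h'⟩
  | mul_X p i hp =>
    obtain ⟨a, b, h⟩ := hp
    fin_cases i
    · exact ⟨p, 0, by simp⟩
    · exact ⟨a, b + p, by simp; linear_combination h⟩

theorem aeval_pt {K₀ : Type} [Field K₀] (F : MvPolynomial (Fin 2) K₀) :
    aeval ![algebraMap (MvPolynomial (Fin 2) K₀) (FractionRing (MvPolynomial (Fin 2) K₀)) (X 0),
      algebraMap (MvPolynomial (Fin 2) K₀) (FractionRing (MvPolynomial (Fin 2) K₀)) (X 1)] F =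
      algebraMap (MvPolynomial (Fin 2) K₀) _ F := by
  have := MvPolynomial.aeval_algebraMap_apply (FractionRing (MvPolynomial (Fin 2) K₀))
    (X : Fin 2 → MvPolynomial (Fin 2) K₀) F
  rw [aeval_X_left_apply] at this
  rw [← this]
  congr 2
  funext i
  fin_cases i <;> rfl

end RSPA

theorem p_RSP :
    S_RSP := by
  intro K₀ _
  let P := MvPolynomial (Fin 2) K₀
  let K := FractionRing P
  let ev : P →+* K₀ := eval ![0, 1]
  let M : Submonoid P := (IsUnit.submonoid K₀).comap ev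
  have mM : ∀ F, F ∈ M ↔ ev F ≠ 0 := fun F => isUnit_iff_ne_zero
  have hM : M ≤ nonZeroDivisors P := fun F h => mem_nonZeroDivisors_of_ne_zero fun e =>
    (mM F).1 h (by rw [e, map_zero])
  let S := Localization.subalgebra.ofField K M hM
  have : IsLocalization M S := Localization.subalgebra.isLocalization_ofField K M hM
  have : IsIntegrallyClosed S := isIntegrallyClosed_of_isLocalization S M hM
  let sp : S →+* K₀ := IsLocalization.lift (M := M) (g := ev) fun y => y.2
  have h1 : ∀ F : P, sp ⟨algebraMap P K F, S.algebraMap_mem F⟩ = ev F := fun F =>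
    IsLocalization.lift_eq _ F
  have h2 : ∀ γ : S, ∃ a b : P, ev b ≠ 0 ∧ (γ : K) = algebraMap P K a * (algebraMap P K b)⁻¹ ∧
      sp γ * ev b = ev a := fun γ => by
    obtain ⟨a, b, hb, e⟩ := γ.2
    have hb0 : algebraMap P K b ≠ 0 := IsFractionRing.to_map_ne_zero_of_mem_nonZeroDivisors (hM hb)
    refine ⟨a, b, (mM b).1 hb, e, ?_⟩
    rw [← h1, ← h1, ← map_mul]
    exact congrArg sp (Subtype.ext (by
      change (γ : K) * algebraMap P K b = algebraMap P K a
      rw [e, inv_mul_cancel_right₀ hb0]))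
  refine ⟨K, inferInstance, inferInstance, algebraMap P K (X 0), algebraMap P K (X 1),
    S.toSubring, sp, fun a => ⟨S.algebraMap_mem (C a), (h1 (C a)).trans (eval_C a)⟩,
    ⟨_, (h1 (X 0)).trans (eval_X 0)⟩, ⟨_, (h1 (X 1)).trans (eval_X 1)⟩, fun γ hγ => ?_,
    fun γ hγ => ?_, fun γ hγ => ?_, ?_, fun γ => ?_⟩
  · obtain ⟨a, b, hb, e, e'⟩ := h2 γ
    exact ⟨b, a, (mM a).2 (e' ▸ mul_ne_zero hγ hb), by rw [e, mul_inv_rev, inv_inv]⟩
  · obtain ⟨y, hy⟩ := IsIntegrallyClosed.isIntegral_iff (R := S) (K := K).1 hγ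
    exact hy ▸ y.2
  · obtain ⟨a, b, hb, e, e'⟩ := h2 γ
    obtain ⟨c, d, h⟩ := RSPA.split a
    have h0 : ev a = 0 := by rw [← e']; exact mul_eq_zero_of_left hγ _
    refine ⟨⟨_, c, b, (mM b).2 hb, rfl⟩, ⟨_, d, b, (mM b).2 hb, rfl⟩, e.trans ?_⟩
    change a = C (ev a) + _ + _ at h
    rw [h0, map_zero, zero_add] at h
    rw [h]
    simp only [map_add, map_mul, map_sub, map_one]
    ring
  · exact algebraicIndependent_iff.2 fun F hF => IsFractionRing.injective P K
      (by rw [← RSPA.aeval_pt, hF, map_zero])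
  · obtain ⟨a, b, hb, rfl⟩ := IsFractionRing.div_surjective (A := P) γ
    have h := IsFractionRing.to_map_ne_zero_of_mem_nonZeroDivisors (K := K) hb
    exact ⟨a, b, by rwa [RSPA.aeval_pt], by rw [RSPA.aeval_pt, RSPA.aeval_pt, div_mul_cancel₀ _ h]⟩

end Pool.Agent.P.MP_e7d440_ag.Z
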