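import Pool.Agent.P.MP_e7d440_ag.Z.IfaceF
import Pool.Agent.P.MP_e7d440_ag.Z.IfaceC
import Pool.Agent.P.MP_e7d440_ag.Z.BaseVF

/-! Step SDR. -/

set_option autoImplicit false
set_option linter.unusedSectionVars false

namespace Pool.Agent.P.MP_e7d440_ag.Z

open Pool.Agent.P.MP_e7d440_ag.U TensorProduct LieAlgebra LaurentPolynomial Set IsLocalRing

variable {L Φ Δ : Type} [LieRing L] [LieAlgebra ℚ L] [Fintype Φ] [Fintype Δ] [DecidableEq Φ]
  [DecidableEq Δ] (c : CD L Φ Δ)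

theorem p_SDR (h : TG c) (hVF0 : S_VF0) :
    S_SDR c := by
  intro O K J _ _ _ _ _ _ _ ζ κ σ s u μ r X x x' z n a t U' F hc hU B S
  have T := h K _ J _ F.pt
  obtain ⟨t1, v, t2⟩ := T.tng μ X U' x x' z n a t F.co.2.2.1 hc hU B S
  have dr : ∀ v : c.Id μ → K, ∃ δ : Derivation O K K, δ s = 0 ∧ δ u = 0 ∧
      Der (algebraMap O K ζ) (lg κ σ s u) (dA δ) 0 ∧ ∀ p, dA δ (X p) = v p := fun v => by
    obtain ⟨δ, hδ⟩ := hVF0.der _ F.gen F.ind (cs 0 0 v)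
    have h1 : δ s = 0 := hδ (.inl 0)
    have h2 : δ u = 0 := hδ (.inl 1)
    exact ⟨δ, h1, h2, der_lg δ (by simp [h1]) (by simp [h2]), fun p => hδ (.inr p)⟩
  constructor
  · choose δ d1 d2 d3 d4 using fun k => dr (v k)
    obtain ⟨p1, p2⟩ := t2 (fun k => dA (δ k)) d3 d4
    refine ⟨δ, fun k => ⟨d1 k, d2 k, fun γ hγ => ?_⟩, p2⟩
    obtain ⟨a, b, -, -, e⟩ := T.eig U' x x' 0 _ 0 B c.fix_zero (d3 k) (p1 k) γ hγ
    have z0 : ∀ i, c.wt0 0 i = 0 := by rintro (i | i) <;> simp [CD.wt0]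
    exact e.trans (by simp [z0])
  · obtain ⟨v, hv⟩ := t1 c.ρ c.fix_ρ
    obtain ⟨δ, d1, d2, d3, d4⟩ := dr v
    have p1 := hv _ d3 d4
    have : ∀ γ ∈ Gn c (algebraMap O K ζ) (lg κ σ s u) U' x x', ∃ q : ℚ, δ γ = q * γ :=
      fun γ hγ => by
        obtain ⟨a, b, -, -, e⟩ := T.eig U' x x' c.ρ _ 0 B c.fix_ρ d3 p1 γ hγ
        exact ⟨_, e⟩
    choose! w hw using this
    refine ⟨δ, w, d1, d2, hw, fun h0 => ?_⟩
    obtain ⟨lam, l1, rfl⟩ := T.fixu U' x x' _ B d3 p1 h0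
    have := hVF0.card (cs s u t) _ ((hVF0.gen _).2 fun S hO hS => (hVF0.gen _).1 F.gen S hO ?_)
      F.ind
    · simpa using this
    · have hs : s ∈ S := hS (.inl 0)
      have hu : u ∈ S := hS (.inl 1)
      rintro (i | p)
      · exact hS (.inl i)
      · refine (T.leg.def_cell S μ X F.co.2.2.1).1 (fun j => ?_) p
        rw [hU]
        have := T.leg.def_pU S a t lam (hO _) (fun j => add_mem (mul_mem (hO _) hs)
          (mul_mem (hO _) hu)) (fun k => hS (.inr k)) j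
        rwa [T.la.act_pU _ F.pt.ne] at this

end Pool.Agent.P.MP_e7d440_ag.Z
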