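import Pool.Agent.P.MP_e7d440_ag.Z.IfaceG

/-! Step SL1. -/

set_option autoImplicit false
set_option linter.unusedSectionVars false

namespace Pool.Agent.P.MP_e7d440_ag.Z

open Pool.Agent.P.MP_e7d440_ag.U TensorProduct LieAlgebra LaurentPolynomial Set

variable {L Φ Δ : Type} [LieRing L] [LieAlgebra ℚ L] [Fintype Φ] [Fintype Δ] [DecidableEq Φ]
  [DecidableEq Δ] (c : CD L Φ Δ) {K : Type} [Field K] [CharZero K] (ζ : K)
  {J : Type} [Fintype J] [DecidableEq J] (s : J → K)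

namespace SL1A
variable {c ζ s} {U : J → Submodule K (G L K)} {x x' y y' : L} {f f' : LG L K}

lemma ee (h : T3 c ζ s) (hy : c.Fix y) (hy' : c.Fix y') (k : ℤ) :
    ⁅(T k : LP K) • c0 (LP K) y, (T k : LP K) • c0 (LP K) y'⁆ = 0 := by
  rw [smul_lie, lie_smul, ExtendScalars.bracket_tmul, h.cd.lie_hh _ _ hy.1 hy'.1]
  simp

lemma comm (h : T3 c ζ s) (hBR : S_BR c ζ s) (B : Big c ζ s U x x') (hy : c.Fix y)
    (hy' : c.Fix y') (a : FH c ζ s U x x' y f) (a' : FH c ζ s U x x' y' f') : ⁅f, f'⁆ = 0 := by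
  obtain ⟨q, hq, e⟩ := hBR U B.fd f a.1.1 f' a'.1.1
  have h0 : q ∈ c.Sup x (Ici 0) := (h.div.low _ x 0 q
    (fun n hn => by_contra fun k => (h.div.mon.1 n k).1.not_gt hn) h.div.phi_ne).1
      (e ▸ h.sup.lie x _ _ _ f f' a.1.2 a'.1.2 fun _ p _ p' => mem_Ici.2 (add_nonneg p p'))
  have h1 : f' ∈ c.Sup x' (Iic (c.dg J : ℚ)) := by
    simpa using add_mem (c.Sup_mono Iio_subset_Iic_self a'.2)
      (c.Sup_mono (singleton_subset_iff.2 self_mem_Iic) (tN_sup h.toT3a x' hy'))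
  have h2 : c.phi s • q ∈ c.Sup x' (Iio ((c.dg J : ℚ) + c.dg J)) := by
    have := add_mem (h.sup.lie x' _ _ (Iio ((c.dg J : ℚ) + c.dg J)) _ _ a.2 h1
      fun _ p _ p' => mem_Iio.2 (add_lt_add_of_lt_of_le p p')) (h.sup.lie x' _ _ _ _ _
        (tN_sup h.toT3a x' hy) a'.2 fun _ p _ p' => mem_Iio.2 (add_lt_add_of_le_of_lt p.le p'))
    rwa [sub_lie, lie_sub, ee h hy hy', sub_zero, sub_add_cancel, e] at this
  obtain ⟨k1, k2⟩ := h.sup.pr_wt x' (Ici (c.dg J : ℚ)) q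
  rw [compl_Ici] at k2
  have h3 := h.div.uniq _ _ x' _ _ h.div.mon k1 (by
    simpa [smul_sub] using sub_mem h2 (h.sup.smul x' _ _ (c.phi s) _ k2 fun n hn p hp =>
      mem_Iio.2 (add_lt_add_of_lt_of_le hp (by exact_mod_cast (h.div.mon.1 n hn).2.1))))
  rw [h3, sub_zero] at k2
  rw [e, B.uniq q ⟨hq, h0⟩ k2, smul_zero]

lemma split (h : T3 c ζ s) (hy : c.Fix y) (a : FH c ζ s U x x' y f) {v : ℚ}
    (H : ∀ b, v < c.wt x' b → (c.dg J : ℚ) < c.wt c.ρ b → c.co b f = 0) :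
    ∃ n₁ ∈ c.Sup c.ρ (Iic (c.dg J : ℚ)), n₁ ∈ c.Sup x' (Iio (c.dg J : ℚ)) ∧
      ∃ n₂ ∈ c.Sup x' (Iic v), f - (T (c.dg J : ℤ) : LP K) • c0 (LP K) y = n₁ + n₂ := by
  refine ⟨_, fun b hb => ?_, h.sup.pr_sup (fun b => c.wt x' b ∈ Ioi v) _ _ _ a.2, _,
    compl_Ioi (a := v) ▸ (h.sup.pr_wt x' (Ioi v) _).2, (add_sub_cancel _ _).symm⟩
  rw [c.co_pr] at hb
  split_ifs at hb with k
  · refine mem_Iic.2 (not_lt.1 fun m => hb ?_)
    rw [map_sub, H b k m, zero_sub, neg_eq_zero]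
    exact by_contra fun e => m.ne' (tN_sup h.toT3a c.ρ hy b e)
  · exact absurd rfl hb

end SL1A

theorem p_SL1 (h : T3 c ζ s) (hBR : S_BR c ζ s) :
    S_SL1 c ζ s := by
  intro U x x' a B hρ hx H
  have key : ∀ y f y' f', c.Fix y → c.Fix y' → FH c ζ s U x x' y f → FH c ζ s U x x' y' f' →
      (c.al a.1 y' : K) * c.co (a.2 + c.dg J, .inl a.1) f =
        c.al a.1 y * c.co (a.2 + c.dg J, .inl a.1) f' := fun y f y' f' hy hy' F F' => by
    obtain ⟨n₁, a1, a2, n₂, a3, e⟩ := SL1A.split h hy F fun b => H y f b hy F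
    obtain ⟨n₁', b1, b2, n₂', b3, e'⟩ := SL1A.split h hy' F' fun b => H y' f' b hy' F'
    have e1 : ⁅n₁, n₁'⁆ + (⁅n₁, n₂'⁆ + ⁅n₂, n₁' + n₂'⁆) =
        ⁅(T (c.dg J : ℤ) : LP K) • c0 (LP K) y', f⁆ -
          ⁅(T (c.dg J : ℤ) : LP K) • c0 (LP K) y, f'⁆ := by
      rw [← add_assoc, ← lie_add, ← e', ← add_lie, ← e, sub_lie, lie_sub, lie_sub,
        SL1A.comm h hBR B hy hy' F F', SL1A.ee h hy hy', zero_sub, lie_skew, sub_zero]
    have e2 := congrArg (c.co (a.2 + c.dg J + c.dg J, .inl a.1)) e1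
    have z1 : c.co (a.2 + c.dg J + c.dg J, .inl a.1) ⁅n₁, n₁'⁆ = 0 := by_contra fun k => by
      have := h.sup.lie _ _ _ (Iic ((c.dg J : ℚ) + c.dg J)) _ _ a1 b1
        (fun _ p _ p' => mem_Iic.2 (add_le_add p p')) _ k
      simp only [CD.wt_inl, CD.val, mem_Iic] at this hρ
      push_cast at this
      linarith
    have z2 : c.co (a.2 + c.dg J + c.dg J, .inl a.1) (⁅n₁, n₂'⁆ + ⁅n₂, n₁' + n₂'⁆) = 0 :=
      by_contra fun k => by
      have := add_mem (h.sup.lie _ _ _ (Iio ((c.dg J : ℚ) + (c.dg J + c.val a x'))) _ _ a2 b3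
        fun _ p _ p' => mem_Iio.2 (add_lt_add_of_lt_of_le p p')) (h.sup.lie _ _ _ _ _ _ a3
          (e' ▸ F'.2 :) fun _ p _ p' =>
            mem_Iio.2 ((add_lt_add_of_le_of_lt p p').trans_eq (add_comm _ _))) _ k
      simp only [CD.wt_inl, CD.val, mem_Iio] at this
      push_cast at this
      linarith
    rw [map_add, z1, z2, add_zero, map_sub, smul_lie, smul_lie, h.lp.co_T, h.lp.co_T,
      h.lp.co_c0 _ hy.1, h.lp.co_c0 _ hy'.1, add_sub_cancel_right] at e2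
    exact sub_eq_zero.1 e2.symm
  obtain ⟨f₀, F₀⟩ := B.fh h.toT3a c.fix_ρ
  have hne : (c.al a.1 c.ρ : K) ≠ 0 := Rat.cast_ne_zero.2 (c.ρ_ne _)
  refine ⟨c.cE (a.1, a.2 + c.dg J) f₀ / c.al a.1 c.ρ, fun y f hy F => ?_⟩
  rw [div_mul_eq_mul_div, eq_div_iff hne]
  have := key y f _ f₀ hy c.fix_ρ F F₀
  simp only [CD.cE]
  linear_combination (c.per a.1 : K)⁻¹ * this

end Pool.Agent.P.MP_e7d440_ag.Z
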