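import Pool.Agent.P.MP_e7d440_ag.Z.IfaceG

/-! Step SLC. -/

set_option autoImplicit false
set_option linter.unusedSectionVars false

namespace Pool.Agent.P.MP_e7d440_ag.Z

open Pool.Agent.P.MP_e7d440_ag.U TensorProduct LieAlgebra LaurentPolynomial Set

variable {L Φ Δ : Type} [LieRing L] [LieAlgebra ℚ L] [Fintype Φ] [Fintype Δ] [DecidableEq Φ]
  [DecidableEq Δ] (c : CD L Φ Δ) {K : Type} [Field K] [CharZero K] (ζ : K)
  {J : Type} [Fintype J] [DecidableEq J] (s : J → K)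

namespace SLCA

variable {c ζ s}

lemma key (h : T3 c ζ s) (hACT : S_ACT c ζ s) {U : J → Submodule K (G L K)} {x x' z y : L}
    {n : ℕ} {a : Fin n → Φ × ℤ} (hC : Cr c ζ x x' z a) (hy : c.Fix y) {f : LG L K}
    (hf : FH c ζ s U x x' y f) {b : ℤ × (Φ ⊕ Δ)} (hb : c.co b f ≠ 0)
    (hw : (c.dg J : ℚ) < c.wt c.ρ b) :
    ∃ l, c.wt x' b = c.dg J + c.val (a l) x' ∧ c.cE ((a l).1, (a l).2 + c.dg J) f ≠ 0 := by
  obtain ⟨hx', -, h3, -⟩ := hACT.cr x x' z n a hC
  have he : f ∈ c.Eqv ζ := hf.1.1.1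
  have h0 : c.co b ((T (c.dg J : ℤ) : LP K) • c0 (LP K) y) = 0 := by
    by_contra h0
    exact hw.ne' (tN_sup h.toT3a c.ρ hy b h0)
  have h1 : c.wt x' b < c.dg J := hf.2 b (by rwa [map_sub, h0, sub_zero])
  obtain ⟨m, β | i⟩ := b
  · have hv : c.Valid ζ (β, m - c.dg J) := by
      rw [h.rt1.ne]
      intro e
      refine (h.rt1.ne _).1 (h.rt2.of_co f he (β, m) hb) ?_
      have := h.rt1.T_E β (m - c.dg J) _ h.div.dg_dvd
      rw [e, smul_zero, sub_add_cancel] at this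
      exact this.symm
    simp only [c.wt_inl, CD.val] at hw h1 ⊢
    obtain ⟨l, e1, e2⟩ := h3 _ hv (by simp only [CD.val]; push_cast; linarith)
      (by simp only [CD.val]; push_cast; linarith)
    have e3 : m = (a l).2 + c.dg J := by rw [← e1]; simp
    refine ⟨l, ?_, div_ne_zero ?_ (h.rt1.th_ne _).2.1⟩
    · rw [h.cd.fix_al x' hx' _ _ e2, e3]
      push_cast
      ring
    · have := h.eqv.co_cyc f he m β _ e2 hb
      rwa [e3] at this
  · rw [c.wt_inr] at hw h1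
    exact absurd h1 hw.not_gt

end SLCA

theorem p_SLC (h : T3 c ζ s) (hACT : S_ACT c ζ s) (hSLS : S_SLS c ζ s) :
    S_SLC c ζ s := by
  intro U x x' z n a hB hC
  obtain ⟨hx', h2, -, -⟩ := hACT.cr x x' z n a hC
  have main : ∀ A : Finset (Fin n),
      (∀ k ∈ A, ∀ l, c.val (a k) x' < c.val (a l) x' → l ∈ A) →
      ∃ (g : Op L K) (U' : J → Submodule K (G L K)), U = actE s g U' ∧ c.LA ζ g ∧
        c.Aut0 ζ 1 g c.ρ ∧ c.Low ζ z g ∧ Big c ζ s U' x x' ∧
        (∀ k ∈ A, ∀ y f, c.Fix y → FH c ζ s U' x x' y f →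
          c.cE ((a k).1, (a k).2 + c.dg J) f = 0) ∧
        ∀ V : ValuationSubring K, c.SD ζ V.toSubring → UH c V.toSubring → (∀ j, s j ∈ V) →
          Gn c ζ s U x x' ⊆ V → c.IntB ζ V g ∧ Gn c ζ s U' x x' ⊆ V := by
    intro A
    induction A using Finset.induction_on_min_value (fun k => c.val (a k) x') with
    | empty =>
      exact fun _ => ⟨1, U, (h.la.act_one s U).symm, h.la.one, h.la.aut_one _, h.la.low_one _, hB,
        by simp, fun V _ _ _ e => ⟨h.la.int_one _, e⟩⟩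
    | insert k₀ A hk hmin ih =>
      intro hup
      have hup' : ∀ l, c.val (a k₀) x' < c.val (a l) x' → l ∈ A := fun l hl =>
        (Finset.mem_insert.1 (hup k₀ (Finset.mem_insert_self _ _) l hl)).resolve_left
          fun e => by rw [e] at hl; exact lt_irrefl _ hl
      obtain ⟨g, U', e, g1, g2, g3, g4, g5, g6⟩ :=
        ih fun k hk' l hl => hup' l ((hmin k hk').trans_lt hl)
      obtain ⟨v1, v2, v3, v4⟩ := h2 k₀
      obtain ⟨t, t1, t2⟩ := hSLS U' x x' (a k₀) g4 hC.cl v1 v2 v3 fun y f b hy hf b1 b2 => by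
        by_contra hb
        obtain ⟨l, l1, l2⟩ := SLCA.key h hACT hC hy hf hb b2
        exact l2 (g5 l (hup' l (by linarith)) y f hy hf)
      have un := hACT.exE x x' (a k₀) t hC.cl hx' v2 v3
      refine ⟨g * ex (-t • c.E ζ (a k₀)), actE s (ex (t • c.E ζ (a k₀))) U', ?_,
        h.la.mul _ _ g1 (h.la.exE _ _), h.la.aut_right _ _ _ _ g2
          (h.la.aut_exE _ _ _ c.fix_ρ v2), h.la.low_mul _ _ _ (h.la.exE _ _) g3
          (h.la.low_exE _ _ _ hC.reg.1 v4), hACT.big _ _ _ _ un g4, fun k hk' y f hy hf => ?_,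
        fun V a1 a2 a3 a4 => ?_⟩
      · rw [← h.la.act_mul s h.pt.ne, mul_assoc, (h.rt1.exE_inv _ _).2, mul_one]
        exact e
      · have e1 : ex (t • c.E ζ (a k₀)) (ex (-t • c.E ζ (a k₀)) f) = f := by
          rw [← Module.End.mul_apply, (h.rt1.exE_inv _ _).1, Module.End.one_apply]
        rw [← e1] at hf ⊢
        have hf' := (hACT.fh _ _ _ _ _ _ un g4.fd hy).1 hf
        obtain ⟨r1, r2⟩ := t2 y _ hy hf'
        rcases Finset.mem_insert.1 hk' with rfl | hk'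
        · exact r1
        · have r3 := r2 (CD.ix ((a k).1, (a k).2 + c.dg J)) (by
            have := hmin k hk'
            simp only [c.wt_inl, CD.val] at this ⊢
            push_cast
            linarith) (by
            rw [h.rt1.ty_ix]
            exact fun r => h.gal.ne z n c.ρ a hC.reg hC.gal k₀ k (fun e => hk (e ▸ hk'))
              ⟨add_right_cancel r.1, r.2⟩)
          have r4 := g5 k hk' y _ hy hf'
          rw [CD.cE] at r4 ⊢
          rw [r3, r4]
      · obtain ⟨b1, b2⟩ := g6 V a1 a2 a3 a4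
        have ht : t ∈ V.toSubring := t1 V a1 a2 a3 b2
        exact ⟨(h.la.int_mul _ _ _ fun f hf => ((h.la.exE _ _).eqv f).2 hf).1 b1
          (h.la.int_exE V.toSubring V _ _ a1 (SM.val V) (neg_mem ht)),
          hACT.gn _ _ _ _ V.toSubring un g4 a1 a3
            (h.la.int_exE V.toSubring V _ _ a1 (SM.val V) ht) b2⟩
  obtain ⟨g, U', e, g1, g2, g3, g4, g5, g6⟩ := main Finset.univ fun _ _ _ _ => Finset.mem_univ _
  obtain ⟨t, ht⟩ := h.nf.nf2 z n c.ρ a g hC.reg c.fix_ρ hC.gal g1 g2 g3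
  refine ⟨t, U', e.trans (h.la.act_ext s h.pt.ne _ _ _ ht), g4, fun y f hy hf b hb => ?_,
    fun V a1 a2 a3 a4 => ?_⟩
  · by_contra hw
    obtain ⟨l, -, l2⟩ := SLCA.key h hACT hC hy hf hb (not_le.1 hw)
    exact l2 (g5 l (Finset.mem_univ _) y f hy hf)
  · obtain ⟨b1, b2⟩ := g6 V a1 a2 a3 a4
    exact ⟨h.nf.coef V z n c.ρ a t a1 hC.reg hC.gal fun f hf hi => ht f hf ▸ (b1 f hf).2 hi, b2⟩

end Pool.Agent.P.MP_e7d440_ag.Z
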