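import Pool.Agent.P.MP_e7d440_ag.Z.IfaceG

/-! Step SLS. -/

set_option autoImplicit false
set_option linter.unusedSectionVars false

namespace Pool.Agent.P.MP_e7d440_ag.Z

open Pool.Agent.P.MP_e7d440_ag.U TensorProduct LieAlgebra LaurentPolynomial Set

variable {L Φ Δ : Type} [LieRing L] [LieAlgebra ℚ L] [Fintype Φ] [Fintype Δ] [DecidableEq Φ]
  [DecidableEq Δ] (c : CD L Φ Δ) {K : Type} [Field K] [CharZero K] (ζ : K)
  {J : Type} [Fintype J] [DecidableEq J] (s : J → K)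

theorem p_SLS (h : T3 c ζ s) (hGN : S_GN c ζ s) (hACT : S_ACT c ζ s) (hSL1 : S_SL1 c ζ s) :
    S_SLS c ζ s := by
  intro U x x' a hB _ hv hρ hx hz
  obtain ⟨t, ht⟩ := hSL1 U x x' a hB hρ hx hz
  refine ⟨t, fun V hS hU hs hG => ?_, fun y f hy hf => ?_⟩
  · obtain ⟨y, n, h1, h2, h3, h4⟩ := hU a.1
    obtain ⟨f, hf⟩ := hB.fh h.toT3a h1.1
    have h5 : c.In V f := hGN.int U x x' V.toSubring V hB hS hs hG (SM.val V) f hf.1 fun b hb => by
      have h6 : c.co b (f - (T (c.dg J : ℤ) : LP K) • c0 (LP K) y) = 0 := by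
        by_contra h7
        exact not_lt.2 hb (hf.2 b h7)
      rw [map_sub, sub_eq_zero] at h6
      rw [h6]
      exact (h.sup.in_T _ _ _).2 (ih_in h.toT3a V.toSubring h1) b
    have h6 := ht y f h1.1 hf
    have h7 : (n : K) ≠ 0 := Int.cast_ne_zero.2 h3
    rw [h2, Rat.cast_intCast] at h6
    rw [← mul_inv_cancel_right₀ h7 t, ← h6]
    refine V.mul_mem _ _ ?_ h4
    rw [CD.cE, div_eq_mul_inv]
    exact V.mul_mem _ _ (h5 _) (h.rt1.sd_per _ hS _)
  · have hE := h.rt1.T_E a.1 a.2 _ h.div.dg_dvd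
    have h1 := (h.ex.stable (c.Sup x' (Iio (c.dg J : ℚ)) : Submodule K (LG L K))
      (c.Sup x' (Iio (c.dg J + c.val a x'))) (t • c.E ζ a) (h.rt1.nil a t)
      (c.Sup_mono (Iio_subset_Iio (by linarith)))
      (fun g hg => h.sup.lie x' _ _ _ _ _
        (Submodule.smul_mem _ t (h.rt1.sup a x' hB.fix')) hg fun p hp q hq => by
          rw [mem_singleton_iff.1 hp]
          exact mem_Iio.2 (by linarith [mem_Iio.1 hq])) _ hf.2).1
    have h2 : ∀ b, c.dg J + c.val a x' ≤ c.wt x' b → c.co b (ex (t • c.E ζ a) f) =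
        c.co b f - t * (c.al a.1 y : K) * c.co b (c.E ζ (a.1, a.2 + c.dg J)) := fun b hb => by
      have h3 : c.co b (ex (t • c.E ζ a) (f - (T (c.dg J : ℤ) : LP K) • c0 (LP K) y) -
          (f - (T (c.dg J : ℤ) : LP K) • c0 (LP K) y)) = 0 := by
        by_contra h7
        exact not_lt.2 hb (h1 b h7)
      rw [map_sub (ex _), map_smul, h.rt1.exE_h a t y hy, smul_sub, smul_comm, hE] at h3
      simp only [map_sub, map_smul, smul_eq_mul] at h3
      linear_combination h3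
    refine ⟨?_, fun b hb hT => ?_⟩
    · have hv' : c.Valid ζ (a.1, a.2 + c.dg J) :=
        (h.rt1.ne _).2 fun h8 => (h.rt1.ne a).1 hv (by
          have h9 := h.rt1.T_E a.1 (a.2 + c.dg J) (-c.dg J) (dvd_neg.2 h.div.dg_dvd)
          rw [h8, smul_zero, add_neg_cancel_right] at h9
          exact h9.symm)
      have h3 := ht y f hy hf
      have h4 := (h.rt1.th_ne a.1).2.1
      rw [CD.cE, h2 _ (by simp [CD.wt_inl, CD.val]; linarith), h.rt1.co _ hv', sub_div,
        mul_div_cancel_right₀ _ h4, sub_eq_zero]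
      exact h3
    · rw [h2 b hb, of_not_not (mt (h.rt1.ty _ b) hT), mul_zero, sub_zero]

end Pool.Agent.P.MP_e7d440_ag.Z
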