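import Pool.Agent.P.MP_e7d440_ag.Z.IfaceG

/-! Step SLU. -/

set_option autoImplicit false
set_option linter.unusedSectionVars false

namespace Pool.Agent.P.MP_e7d440_ag.Z

open Pool.Agent.P.MP_e7d440_ag.U TensorProduct LieAlgebra LaurentPolynomial Set

variable {L Φ Δ : Type} [LieRing L] [LieAlgebra ℚ L] [Fintype Φ] [Fintype Δ] [DecidableEq Φ]
  [DecidableEq Δ] (c : CD L Φ Δ) {K : Type} [Field K] [CharZero K] (ζ : K)
  {J : Type} [Fintype J] [DecidableEq J] (s : J → K)

namespace SLUA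

variable {c ζ s}

lemma lowA (h : T3a c ζ s) (z : L) (v : ℚ) (hv : v < 0) {n : ℕ} (x : Fin n → LG L K)
    (hn : ∀ l, Nil (x l)) (hx : ∀ l, x l ∈ c.Sup z (Iic v)) (r : ℚ) (f : LG L K)
    (hf : f ∈ c.Sup z (Iio r)) : pf x 0 f - f ∈ c.Sup z (Iio (r + v)) := by
  have hle : (c.Sup z (Iio (r + v)) : Submodule K (LG L K)) ≤ c.Sup z (Iio r) :=
    c.Sup_mono (Iio_subset_Iio (by linarith))
  refine h.ex.pf_ind x 0 (fun g => ∀ f ∈ (c.Sup z (Iio r) : Submodule K (LG L K)),
    g f - f ∈ c.Sup z (Iio (r + v))) ?_ ?_ ?_ f hf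
  · intro f _
    simp
  · intro g g' a b f hf
    have e : g' f ∈ c.Sup z (Iio r) := by simpa using add_mem (hle (b f hf)) hf
    simpa using add_mem (a _ e) (b f hf)
  · intro i _ f hf
    refine (h.ex.stable (c.Sup z (Iio r)) (c.Sup z (Iio (r + v))) (x i) (hn i) hle ?_ f hf).1
    intro y hy
    refine h.sup.lie z _ _ _ _ _ (hx i) hy fun p hp p' hp' => ?_
    simp only [mem_Iic, mem_Iio] at hp hp' ⊢
    linarith

lemma lowB (h : T3a c ζ s) (z : L) (v : ℚ) (hv : v < 0) {y : L} (hy : c.Fix y) :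
    ∀ {n : ℕ} (a : Fin n → Φ × ℤ) (w : Fin n → K), (∀ l, w l • c.E ζ (a l) ∈ c.Sup z (Iic v)) →
      pf (fun l => w l • c.E ζ (a l)) 0 (c0 (LP K) y) - c0 (LP K) y +
        ∑ l, (w l * (c.al (a l).1 y : K)) • c.E ζ (a l) ∈ c.Sup z (Iio v) := by
  intro n
  induction n with
  | zero =>
    intro a w _
    simp [pf_zero]
  | succ n ih =>
    intro a w hx
    have i1 := ih (Fin.tail a) (Fin.tail w) fun l => hx l.succ
    have hS : ∑ l, (Fin.tail w l * (c.al (Fin.tail a l).1 y : K)) • c.E ζ (Fin.tail a l) ∈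
        c.Sup z (Iic v) :=
      Submodule.sum_mem _ fun l _ => by
        rw [mul_comm, mul_smul]
        exact Submodule.smul_mem _ _ (hx l.succ)
    have h0 : w 0 • c.E ζ (a 0) ∈ c.Sup z (Iio 0) :=
      c.Sup_mono (Iic_subset_Iio.2 hv) (hx 0)
    have i2 := (h.sup.ex_le z v _ _ (h.rt1.nil (a 0) (w 0)) hS).2 h0
    have i3 := h.sup.ex_lt z v _ _ (h.rt1.nil (a 0) (w 0)) i1 (c.Sup_mono Iio_subset_Iic_self h0)
    rw [map_add, map_sub, h.rt1.exE_h _ _ _ hy] at i3
    have e : (Fin.tail fun l => w l • c.E ζ (a l)) =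
      fun l => Fin.tail w l • c.E ζ (Fin.tail a l) := rfl
    rw [pf_succ, Fin.sum_univ_succ, Module.End.mul_apply, e]
    convert sub_mem i3 i2 using 1
    simp only [Fin.tail]
    abel

end SLUA

open SLUA in
theorem p_SLU (h : T3 c ζ s) (hACT : S_ACT c ζ s) :
    S_SLU c ζ s := by
  refine ⟨fun lam x x' hl B y f hy hf => ?_, fun U x x' z n a w C B S1 S2 => ?_⟩
  · have m := h.div.mon
    have e : f = c.phi s • c0 (LP K) y := by
      refine B.ext hf.1 ⟨?_, ?_⟩ hf.2 ?_
      · refine (h.div.nn_phi _ _ (h.eqv.c0 y hy.2)).2 fun j => ?_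
        rw [h.lp.ev_c0]
        refine (h.fd.perp _ (hl j) _).2 ?_
        have := h.sup.c0 (lam j) y hy.1
        rw [← h.lp.mon_c0, h.sup.mon] at this
        intro i hi
        have := this i hi
        simp only [mem_ofPred_eq, mem_singleton_iff, Int.cast_zero, add_zero] at this
        exact this.ge
      · refine h.sup.smul x {0} _ _ _ (h.sup.c0 x y hy.1) fun n hn q hq => ?_
        have := (m.1 n hn).1
        rw [mem_singleton_iff.1 hq, zero_add, mem_Ici]
        exact_mod_cast this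
      · rw [← sub_smul]
        refine h.sup.smul x' {0} _ _ _ (h.sup.c0 x' y hy.1) fun n hn q hq => ?_
        rw [mem_singleton_iff.1 hq, zero_add, mem_Iio]
        have e1 : n ≠ (c.dg J : ℤ) := by
          rintro rfl
          exact hn (by simp [m.2, T_apply])
        have e2 : (c.phi s).coeff n ≠ 0 := fun e => hn (by simp [e, T_apply, e1.symm])
        have := lt_of_le_of_ne (m.1 n e2).2.1 e1
        exact_mod_cast this
    rw [e]
    refine h.sup.smul c.ρ {0} _ _ _ (h.sup.c0 c.ρ y hy.1) fun n hn q hq => ?_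
    have := (m.1 n hn).2.1
    rw [mem_singleton_iff.1 hq, zero_add, mem_Iic]
    exact_mod_cast this
  · classical
    by_contra hne
    push Not at hne
    obtain ⟨hx', hv, -⟩ := hACT.cr x x' z n a C
    obtain ⟨k, hk, hmax⟩ := Finset.exists_max_image (Finset.univ.filter fun l => w l ≠ 0)
      (fun l => c.val (a l) x') (let ⟨k, e⟩ := hne; ⟨k, by simpa using e⟩)
    have hk : w k ≠ 0 := by simpa using hk
    have hx : ∀ l, w l • c.E ζ (a l) ∈ c.Sup x' (Iic (c.val (a k) x')) := fun l => by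
      by_cases e : w l = 0
      · simp [e]
      · exact Submodule.smul_mem _ _ (c.Sup_mono
          (singleton_subset_iff.2 (hmax l (by simpa using e))) (h.rt1.sup (a l) x' hx'))
    have hneg := C.neg k
    obtain ⟨f, hf⟩ := B.fh h.toT3a c.fix_ρ
    have hg := (hACT.fh _ U x x' c.ρ f (hACT.pE x x' n a w C.cl hx' fun l =>
      ⟨(hv l).2.1, C.neg l⟩) B.fd c.fix_ρ).2 hf
    have f1 := S1 _ _ c.fix_ρ hf
    have f2 := S2 _ _ c.fix_ρ hg
    have f3 := tN_sup h.toT3a c.ρ c.fix_ρ
    have f4 := lowA h.toT3a x' _ hneg (fun l => w l • c.E ζ (a l)) (fun l => h.rt1.nil _ _) hx _ _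
      hf.2
    have f5 := lowB h.toT3a x' _ hneg c.fix_ρ a w hx
    have hpos := (hv k).2.1
    set b : ℤ × (Φ ⊕ Δ) := ((a k).2 + c.dg J, .inl (a k).1) with hb
    have w1 : c.wt c.ρ b = c.val (a k) c.ρ + c.dg J := by
      simp only [hb, c.wt_inl, CD.val]
      push_cast
      ring
    have w2 : c.wt x' b = c.val (a k) x' + c.dg J := by
      simp only [hb, c.wt_inl, CD.val]
      push_cast
      ring
    have c1 : c.co b f = 0 := by
      by_contra e
      have := f1 b e
      rw [w1, mem_Iic] at this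
      linarith
    have c2 : c.co b (c.pE ζ a w f) = 0 := by
      by_contra e
      have := f2 b e
      rw [w1, mem_Iic] at this
      linarith
    have c3 : c.co b ((T (c.dg J : ℤ) : LP K) • c0 (LP K) c.ρ) = 0 := by
      by_contra e
      have := f3 b e
      rw [w1, mem_singleton_iff] at this
      linarith
    have c4 := mt (f4 b) (by rw [w2, mem_Iio]; linarith)
    have c5 := mt (f5 (CD.ix (a k))) (lt_irrefl (c.val (a k) x'))
    have c6 : c.co (CD.ix (a k)) (c0 (LP K) c.ρ) = 0 := by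
      by_contra e
      exact hneg.ne (h.sup.c0 x' c.ρ c.fix_ρ.1 _ e)
    have hp := (h.rt1.th_ne (a k).1).2.1
    have c7 : ∀ l, c.co (CD.ix (a k)) (c.E ζ (a l)) = if k = l then (c.per (a k).1 : K) else 0 :=
      fun l => by
        have := h.gal.indep z n c.ρ a C.reg C.gal k l
        rw [div_eq_iff hp] at this
        rw [this]
        split_ifs <;> simp
    rw [not_not] at c4 c5
    rw [map_sub, map_sub, map_sub, map_sub, c1, c2, c3, map_smul, hb, h.lp.co_T,
      add_sub_cancel_right] at c4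
    simp only [map_add, map_sub, map_sum, map_smul, c6, c7, smul_eq_mul, mul_ite, mul_zero,
      Finset.sum_ite_eq, Finset.mem_univ, if_true] at c5
    have c8 : c.co (CD.ix (a k)) (pf (fun l => w l • c.E ζ (a l)) 0 (c0 (LP K) c.ρ)) = 0 := by
      simpa using c4
    rw [c8] at c5
    have c9 : (c.al (a k).1 c.ρ : K) ≠ 0 := by exact_mod_cast c.ρ_ne (a k).1
    simp [hk, hp, c9] at c5

end Pool.Agent.P.MP_e7d440_ag.Z
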