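import Pool.Agent.P.MP_e7d440_ag.Z.IfaceF

/-! Step SP0. -/

set_option autoImplicit false
set_option linter.unusedSectionVars false

namespace Pool.Agent.P.MP_e7d440_ag.Z

open Pool.Agent.P.MP_e7d440_ag.U TensorProduct LieAlgebra LaurentPolynomial Set IsLocalRing

variable {L Φ Δ : Type} [LieRing L] [LieAlgebra ℚ L] [Fintype Φ] [Fintype Δ] [DecidableEq Φ]
  [DecidableEq Δ] (c : CD L Φ Δ)

namespace SP0A

variable {K₀ K : Type} [Field K₀] [CharZero K₀] [Field K] [CharZero K] [Algebra K₀ K]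
  {R : Subring K} {sp : R →+* K₀}

/-- `b` is the specialization of `a` -/
def Sp (sp : R →+* K₀) (a : K) (b : K₀) : Prop := ∃ e : a ∈ R, sp ⟨a, e⟩ = b

lemma Sp.zero : Sp sp 0 0 := ⟨R.zero_mem, map_zero sp⟩

lemma Sp.one : Sp sp 1 1 := ⟨R.one_mem, map_one sp⟩

lemma Sp.add {a a' : K} {b b' : K₀} (h : Sp sp a b) (h' : Sp sp a' b') :
    Sp sp (a + a') (b + b') := by
  obtain ⟨e, rfl⟩ := h
  obtain ⟨e', rfl⟩ := h'
  exact ⟨R.add_mem e e', map_add sp ⟨a, e⟩ ⟨a', e'⟩⟩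

lemma Sp.sub {a a' : K} {b b' : K₀} (h : Sp sp a b) (h' : Sp sp a' b') :
    Sp sp (a - a') (b - b') := by
  obtain ⟨e, rfl⟩ := h
  obtain ⟨e', rfl⟩ := h'
  exact ⟨R.sub_mem e e', map_sub sp ⟨a, e⟩ ⟨a', e'⟩⟩

lemma Sp.mul {a a' : K} {b b' : K₀} (h : Sp sp a b) (h' : Sp sp a' b') :
    Sp sp (a * a') (b * b') := by
  obtain ⟨e, rfl⟩ := h
  obtain ⟨e', rfl⟩ := h'
  exact ⟨R.mul_mem e e', map_mul sp ⟨a, e⟩ ⟨a', e'⟩⟩

lemma Sp.pow {a : K} {b : K₀} (h : Sp sp a b) (n : ℕ) : Sp sp (a ^ n) (b ^ n) := by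
  obtain ⟨e, rfl⟩ := h
  exact ⟨R.pow_mem e n, map_pow sp ⟨a, e⟩ n⟩

lemma Sp.sum {ι : Type} (t : Finset ι) (a : ι → K) (b : ι → K₀) (h : ∀ i ∈ t, Sp sp (a i) (b i)) :
    Sp sp (∑ i ∈ t, a i) (∑ i ∈ t, b i) := by
  classical
  induction t using Finset.induction_on with
  | empty => simpa using Sp.zero
  | insert i t hi ih =>
    rw [Finset.sum_insert hi, Finset.sum_insert hi]
    exact (h i (Finset.mem_insert_self _ _)).add (ih fun k hk => h k (Finset.mem_insert_of_mem hk))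

lemma Sp.ne {a : K} {b : K₀} (h : Sp sp a b) (hb : b ≠ 0) : a ≠ 0 := by
  rintro rfl
  obtain ⟨e, rfl⟩ := h
  exact hb (map_zero sp)

lemma Sp.inv (hi : ∀ γ : R, sp γ ≠ 0 → (γ : K)⁻¹ ∈ R) {a : K} {b : K₀} (h : Sp sp a b)
    (hb : b ≠ 0) : Sp sp a⁻¹ b⁻¹ := by
  have ha := h.ne hb
  obtain ⟨e, rfl⟩ := h
  refine ⟨hi ⟨a, e⟩ hb, eq_inv_of_mul_eq_one_right ?_⟩
  rw [← map_mul, ← map_one sp]
  exact congrArg sp (Subtype.ext (mul_inv_cancel₀ ha))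

lemma Sp.zpow (hi : ∀ γ : R, sp γ ≠ 0 → (γ : K)⁻¹ ∈ R) {a : K} {b : K₀} (h : Sp sp a b)
    (hb : b ≠ 0) (m : ℤ) : Sp sp (a ^ m) (b ^ m) := by
  rcases m with n | n
  · simpa using h.pow n
  · rw [zpow_negSucc, zpow_negSucc]
    exact (h.pow _).inv hi (pow_ne_zero _ hb)

lemma retr (hc : ∀ a : K₀, Sp sp (algebraMap K₀ K a) a) :
    ∃ π : K →+ K₀, (∀ a b, Sp sp a b → π a = b) ∧
      ∀ a γ, π (algebraMap K₀ K a * γ) = a * π γ := by
  let W : Submodule K₀ K :=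
    { carrier := R
      add_mem' := R.add_mem
      zero_mem' := R.zero_mem
      smul_mem' := fun a γ e => by
        rw [Algebra.smul_def]
        exact R.mul_mem (hc a).1 e }
  let φ : W →ₗ[K₀] K₀ :=
    { toFun := fun w => sp ⟨w.1, w.2⟩
      map_add' := fun w w' => map_add sp ⟨w.1, w.2⟩ ⟨w'.1, w'.2⟩
      map_smul' := fun a w => by
        obtain ⟨e, he⟩ := (hc a).mul (⟨w.2, rfl⟩ : Sp sp w.1 _)
        rw [RingHom.id_apply, smul_eq_mul, ← he]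
        exact congrArg sp (Subtype.ext (Algebra.smul_def a w.1)) }
  obtain ⟨π, hπ⟩ := LinearMap.exists_extend φ
  refine ⟨π.toAddMonoidHom, ?_, fun a γ => ?_⟩
  · rintro a _ ⟨e, rfl⟩
    exact LinearMap.congr_fun hπ ⟨a, e⟩
  · rw [← Algebra.smul_def]
    exact map_smul π a γ

variable {c}

lemma ev_sp (h0 : T1 c K₀) (h1 : T1 c K) (hi : ∀ γ : R, sp γ ≠ 0 → (γ : K)⁻¹ ∈ R) {t : K} {t₀ : K₀}
    (ht : Sp sp t t₀) (hn : t₀ ≠ 0) {f : LG L K} {f₀ : LG L K₀} (hf : Rs c sp f f₀) (i : Φ ⊕ Δ) :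
    Sp sp (c.crd i (ev t f)) (c.crd i (ev t₀ f₀)) := by
  have a1 : ∀ m, Sp sp ((c.crd i f).coeff m) ((c.crd i f₀).coeff m) := fun m => by
    have := hf (m, i)
    rwa [c.co_eq, c.co_eq] at this
  rw [h0.lp.crd_ev, h1.lp.crd_ev, h0.lp.evL_eq, h1.lp.evL_eq, Finsupp.sum,
    Finsupp.sum_of_support_subset (s := (c.crd i f).coeff.support) _
      (fun m hm => Finsupp.mem_support_iff.2 ((a1 m).ne (Finsupp.mem_support_iff.1 hm)))
      (fun m a => a * t₀ ^ m) (fun m _ => zero_mul _)]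
  exact Sp.sum _ _ _ fun m _ => (a1 m).mul (ht.zpow hi hn m)

lemma dd_sp (h0 : T1 c K₀) (h1 : T1 c K) (hc : ∀ a : K₀, Sp sp (algebraMap K₀ K a) a)
    {f : LG L K} {f₀ : LG L K₀} (hf : Rs c sp f f₀) : Rs c sp (dd f) (dd f₀) := fun a => by
  have := (hc (a.1 : K₀)).mul (hf a)
  rwa [map_intCast, ← h0.lp.co_dd, ← h1.lp.co_dd] at this

lemma pi_lie {π : K →+ K₀} (hπ : ∀ a γ, π (algebraMap K₀ K a * γ) = a * π γ) (n : G L K₀)
    (v : G L K) : mqa π ⁅mqa (algebraMap K₀ K : K₀ →+ K) n, v⁆ = ⁅n, mqa π v⁆ := by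
  induction n using TensorProduct.induction_on with
  | zero => simp
  | add x y hx hy => rw [map_add, add_lie, map_add, hx, hy, add_lie]
  | tmul a x =>
    induction v using TensorProduct.induction_on with
    | zero => simp
    | add x y hx hy => rw [lie_add, map_add, hx, hy, map_add, lie_add]
    | tmul b y =>
      simp only [mqa_tmul, ExtendScalars.bracket_tmul, AddMonoidHom.coe_coe, hπ]

lemma gr_mqa {A B : Type} [CommRing A] [Algebra ℚ A] [CommRing B] [Algebra ℚ B] (π : A →+ B)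
    {z : L} {P : Set ℚ} {v : G L A} (hv : v ∈ c.Gr z P) : mqa π v ∈ c.Gr z P := fun i e =>
  hv i fun k => e (by rw [c.crd_mqa, k, map_zero])

lemma pi_ex (h : T0 c) {π : K →+ K₀} (hπ : ∀ a γ, π (algebraMap K₀ K a * γ) = a * π γ) {z : L}
    {n : G L K₀} (hn : n ∈ c.Gr z (Iio 0)) (v : G L K) :
    mqa π (ex (mqa (algebraMap K₀ K : K₀ →+ K) n) v) = ex n (mqa π v) := by
  obtain ⟨N, hN⟩ := h.gk.nil_pos z
  rw [h.ex.sum _ _ N (hN _ (Or.inr hn)), h.ex.sum _ _ N (hN _ (Or.inr (gr_mqa _ hn))), map_sum]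
  refine Finset.sum_congr rfl fun k hk => ?_
  clear hk
  rw [map_smul]
  congr 1
  induction k with
  | zero => simp
  | succ k ih =>
    rw [pow_succ', pow_succ', Module.End.mul_apply, Module.End.mul_apply, ad_apply, ad_apply,
      pi_lie hπ, ih]

lemma perp_ex (h : T1 c K) {lam : L} (hl : c.Min lam) {n : G L K} (nn : Nil n) (y : G L K) :
    (∀ x ∈ (c.U1 K lam).map (ex n), c.kR K (ex n y) x = 0) ↔ y ∈ c.Gr lam (Ici 0) := by
  rw [← h.fd.perp lam hl]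
  refine ⟨fun a u hu => ?_, ?_⟩
  · rw [← (h.ex.a0 n nn).form]
    exact a _ (Submodule.mem_map_of_mem hu)
  · rintro a _ ⟨u, hu, rfl⟩
    rw [(h.ex.a0 n nn).form]
    exact a u hu

lemma mqa_bs (i : Φ ⊕ Δ) : mqa (algebraMap K₀ K : K₀ →+ K) (c.bs K₀ i) = c.bs K i := by
  rw [c.bs_apply, c.bs_apply, mqa_tmul, AddMonoidHom.coe_coe, map_one]

lemma cc_map (h : T0 c) (ζ : K₀) (i : Φ ⊕ Δ) (m : ℤ) :
    c.cc (algebraMap K₀ K ζ) (c.bs K i) m =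
      mqa (algebraMap K₀ K : K₀ →+ K) (c.cc ζ (c.bs K₀ i) m) := by
  rw [CD.cc, CD.cc, map_sum]
  refine Finset.sum_congr rfl fun k _ => ?_
  rw [h.gk.mqa_smul, map_zpow₀, c.bs_apply, c.bs_apply, h.gk.sg_pow_c0, h.gk.sg_pow_c0, mqa_tmul,
    AddMonoidHom.coe_coe, map_one]

lemma nX_map (h : T0 c) {J : Type} [Fintype J] [DecidableEq J] (μ : J → L) (X : c.Id μ → K₀)
    (j : J) : c.nX μ (fun p => algebraMap K₀ K (X p)) j =
      mqa (algebraMap K₀ K : K₀ →+ K) (c.nX μ X j) := by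
  rw [CD.nX, CD.nX, map_sum]
  refine Finset.sum_congr rfl fun k _ => ?_
  rw [h.gk.mqa_smul, mqa_bs]

end SP0A

open SP0A

theorem p_SP0 (h : TG c) :
    S_SP0 c := by
  intro K₀ K J _ _ _ _ _ _ _ ζ s₀ s R sp μ X x hq hμ
  have h0 : T1 c K₀ := (h K₀ ζ J s₀ hq.pt₀).toT1
  have h1 : T1 c K := (h K _ J s hq.pt).toT1
  have hc : ∀ a : K₀, Sp sp (algebraMap K₀ K a) a := hq.const
  have hl : ∀ j, Sp sp (s j) (s₀ j) := hq.leg
  obtain ⟨π, p1, p2⟩ := retr hc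
  have hev : ∀ f f₀, Rs c sp f f₀ → ∀ j i,
      Sp sp (c.crd i (ev (s j) f)) (c.crd i (ev (s₀ j) f₀)) := fun f f₀ hf j i =>
    ev_sp h0 h1 hq.inv (hl j) (hq.pt₀.ne j) hf i
  refine ⟨⟨⟨(hc ζ).1, ?_⟩, fun j => (hl j).1, fun j => ((hl j).inv hq.inv (hq.pt₀.ne j)).1,
    fun i j => ?_⟩, fun f hf => ?_, fun a b => ?_,
    fun f f₀ hf j => ⟨hev f f₀ hf j, hev _ _ (dd_sp h0 h1 hc hf) j⟩, fun f f₀ hf hw => ?_⟩
  · have := (hc (c.ℓ : K₀)⁻¹).1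
    rwa [map_inv₀, map_natCast] at this
  · by_cases e : i = j
    · rw [e, sub_self, inv_zero]
      exact R.zero_mem
    · exact ((((hl i).pow c.ℓ).sub ((hl j).pow c.ℓ)).inv hq.inv
        (sub_ne_zero.2 fun k => e (hq.pt₀.inj k))).1
  · refine ⟨(c.BB K₀).repr.symm (Finsupp.mapRange π (map_zero π) ((c.BB K).repr f)), fun a =>
      ⟨hf a, ?_⟩⟩
    rw [← p1 _ _ ⟨hf a, rfl⟩]
    simp [c.co_repr]
  · have : c.co b (bv c (algebraMap K₀ K ζ) a) = algebraMap K₀ K (c.co b (bv c ζ a)) := by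
      rw [bv, bv, c.co_mon, c.co_mon, cc_map h0.toT0, c.crd_mqa]
      split_ifs
      · rfl
      · rw [map_zero]
    exact (this ▸ hc (c.co b (bv c ζ a)) : Sp sp _ _)
  · have e1 : ∀ g g₀, Rs c sp g g₀ → ∀ j, ev (s₀ j) g₀ = mqa π (ev (s j) g) := fun g g₀ hg j =>
      c.ext0 fun i => by rw [c.crd_mqa, p1 _ _ (hev g g₀ hg j i)]
    have n0 : ∀ j, c.nX μ X j ∈ c.Gr (μ j) (Iio 0) := fun j i e => by
      rw [show c.wt0 (μ j) i = -1 from (h0.fd.nX μ X j).1 i e]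
      norm_num
    refine ⟨⟨fun m => ?_, fun j => ⟨?_, ?_⟩⟩, fun a e => hw.2 a (Sp.ne (hf a) e)⟩
    · have e2 : cf m f₀ = mqa π (cf m f) := c.ext0 fun i => by
        rw [c.crd_mqa, c.co_cf, c.co_cf, p1 _ _ (hf (m, i))]
      rw [e2, ← h0.gk.mqa_sg, hw.1.1 m]
      refine c.ext0 fun i => ?_
      rw [c.crd_mqa, map_smul, smul_eq_mul, ← map_zpow₀, p2, map_smul, c.crd_mqa, smul_eq_mul]
    · obtain ⟨u, hu, e⟩ := (hw.1.2 j).1
      rw [e1 f f₀ hf, ← e, nX_map h0.toT0, pi_ex h0.toT0 p2 (n0 j)]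
      exact Submodule.mem_map_of_mem (gr_mqa π hu)
    · have nn := (h1.fd.nX μ (fun p => algebraMap K₀ K (X p)) j).2.1
      have e : ex (c.nX μ (fun p => algebraMap K₀ K (X p)) j)
          (ex (-c.nX μ (fun p => algebraMap K₀ K (X p)) j) (ev (s j) (dd f))) =
            ev (s j) (dd f) := by
        rw [← Module.End.mul_apply, (h1.ex.inv _ nn).1, Module.End.one_apply]
      have a1 := (perp_ex h1 (hμ j) nn _).1 (e.symm ▸ (hw.1.2 j).2)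
      rw [e1 _ _ (dd_sp h0 h1 hc hf), ← e, nX_map h0.toT0, pi_ex h0.toT0 p2 (n0 j),
        ← nX_map h0.toT0]
      exact (perp_ex h0 (hμ j) (h0.fd.nX μ X j).2.1 _).2 (gr_mqa π a1)

end Pool.Agent.P.MP_e7d440_ag.Z
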