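import Pool.Agent.P.MP_e7d440_ag.Z.BaseH2

/-! Charts at primes where the legs are units with unit differences. -/

namespace Pool.Agent.P.MP_e7d440_ag.Z

open TensorProduct LieAlgebra LaurentPolynomial Set U Top2A

variable {L Φ Δ : Type} [LieRing L] [LieAlgebra ℚ L] [Fintype Φ] [Fintype Δ] [DecidableEq Φ]
  [DecidableEq Δ] {c : CD L Φ Δ} {K : Type} [Field K] [CharZero K] {ζ : K}
  {J : Type} [Fintype J] [DecidableEq J] {s : J → K}

set_option linter.unusedSectionVars false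

theorem ex_fix (h : T1 c K) {lam : L} (hl : c.Min lam) {n z : G L K} (hn : n ∈ c.Gr lam {-1})
    (nn : Nil n) (hz : z ∈ c.Gr lam {-1}) : ex n z = z := by
  refine h.ex.fix _ _ nn (c.ext0 fun i => by_contra fun e => ?_)
  have := h.gk.gr_lie lam {-1} {-1} {-2} _ _ hn hz (by rintro _ rfl _ rfl; norm_num) i
    (by simpa using e)
  rcases i with β | i
  · rcases hl.2 β with k | k | k <;> norm_num [CD.wt0, k] at this
  · norm_num [CD.wt0] at this

theorem perp_ex (h : T1 c K) {lam : L} (hl : c.Min lam) {n : G L K} (nn : Nil n) (y : G L K) :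
    (∀ x ∈ (c.U1 K lam).map (ex n), c.kR K (ex n y) x = 0) ↔ y ∈ c.Gr lam (Ici 0) := by
  rw [← h.fd.perp lam hl]
  refine ⟨fun a u hu => ?_, ?_⟩
  · rw [← (h.ex.a0 n nn).form]
    exact a _ (Submodule.mem_map_of_mem hu)
  · rintro a _ ⟨u, hu, rfl⟩
    rw [(h.ex.a0 n nn).form]
    exact a u hu

theorem ex_lam (h : T1 c K) {lam : L} (hl : c.Min lam) {n : G L K} (hn : n ∈ c.Gr lam {-1})
    (nn : Nil n) : ex n (c0 K lam) = c0 K lam + n := by
  have l1 : ⁅n, c0 K lam⁆ = n := by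
    rw [← lie_skew, neg_eq_iff_eq_neg]
    refine c.ext0 fun i => ?_
    rw [h.gk.lie_c0 lam hl.1, map_neg]
    by_cases e : c.crd i n = 0
    · simp [e]
    · simp [show c.wt0 lam i = -1 from hn i e]
  rw [h.ex.two n (c0 K lam) nn (by rw [l1, lie_self]), l1]

theorem wt_min {lam : L} (hl : c.Min lam) (i : Φ ⊕ Δ) (e : ¬ 0 ≤ c.wt0 lam i) :
    c.wt0 lam i = -1 := by
  rcases i with β | i
  · rcases hl.2 β with k | k | k <;> simp_all [CD.wt0]
  · simp [CD.wt0] at e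

/-- If the integral part of the window is spanned by loops with coordinates in `S`, the
coordinates of the cell are in `S`. -/
theorem xin (h : T3a c ζ s) {S : Subring K} {V : ValuationSubring K} (h1 : Dom S V)
    (h2 : c.HP ζ s S) {x : L} (h4 : c.Fix x) (r : ℚ) {lam : J → L} (hl : ∀ j, c.Min (lam j))
    {X : c.Id lam → K} (hX : ∀ p, X p ∈ V)
    (hsp : ∀ f ∈ c.Win ζ s (c.cell lam X) x r, c.In V f → ∃ g ∈ Submodule.span V.toSubring
      {w | w ∈ c.NN ζ s (c.cell lam X) ∧ c.In S w}, c.In V.nonunits (f - g)) (p : c.Id lam) :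
    X p ∈ S := by
  obtain ⟨⟨j, β⟩, hβ⟩ := p
  obtain ⟨n1, nn, n3⟩ := h.fd.nX lam X j
  have hV := hp_mono h2 (S' := V.toSubring) h1.le
  have n2 := in_nX h.toT1 (S := V.toSubring) hX j
  have hU : c.cell lam X j = (c.U1 K (lam j)).map (ex (c.nX lam X j)) := rfl
  rw [← n3 ⟨(j, β), hβ⟩ rfl]
  generalize c.nX lam X j = n at n1 nn n2 hU
  have n5 := LinearMap.congr_fun (h.ex.inv _ nn).1
  simp only [Module.End.mul_apply, Module.End.one_apply] at n5
  have a4 : ∀ k : {w | w ∈ c.NN ζ s (c.cell lam X) ∧ c.In S w}, c.In0 S (ev (s j) (dd k.1)) :=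
    fun k => h.sup.in_ev S S _ _ (SM.self S) (h2.mem j) (h2.inv j)
      (h.sup.in_dd S S _ (SM.self S) k.2.2)
  have a5 := h.resd.resd (ι := {i // 0 ≤ c.wt0 (lam j) i}) V S
    (fun (k : {w | w ∈ c.NN ζ s (c.cell lam X) ∧ c.In S w}) i => c.crd i.1 (ev (s j) (dd k.1)))
    h1 (fun k i => a4 k _) fun b => by
      let g := ex (-n) (c.bs K b.1)
      let g₁ : G L K := ∑ i with ¬ 0 ≤ c.wt0 (lam j) i, c.crd i g • c.bs K i
      have g0 : c.In0 V g := in_exn h.toT1 (SM.val V) (hl j) (neg_mem n1)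
        (fun i => by rw [map_neg]; exact neg_mem (n2 i)) (h.gk.in_bs V.toSubring _)
      have g1 : ∀ i, c.crd i g₁ = if 0 ≤ c.wt0 (lam j) i then 0 else c.crd i g := fun i => by
        simp only [g₁, map_sum, map_smul, h.gk.crd_bs, smul_eq_mul, mul_ite, mul_one, mul_zero,
          Finset.sum_ite_eq', Finset.mem_filter, Finset.mem_univ, true_and, ite_not]
      have g2 : g₁ ∈ c.Gr (lam j) {-1} := fun i e =>
        wt_min (hl j) i fun k => e (by rw [g1, if_pos k])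
      have g3 : ex n (g - g₁) = c.bs K b.1 - g₁ := by
        rw [map_sub, n5, ex_fix h.toT1 (hl j) n1 nn g2]
      have g4 := (perp_ex h.toT1 (hl j) nn (g - g₁)).2 fun i e => by_contra fun k =>
        e (by rw [map_sub, g1, if_neg (show ¬ 0 ≤ c.wt0 (lam j) i from k), sub_self])
      rw [g3, ← hU] at g4
      obtain ⟨f, f1, f2, f3, f4⟩ := int2s h x r 0 (Pi.single j (c.bs K b.1 - g₁)) h4
      have f5 := f4 _ hV fun i => ⟨fun a => by simp, in_single (S := V.toSubring) (fun a => by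
        rw [map_sub, g1]
        refine sub_mem (h.gk.in_bs V.toSubring _ a) ?_
        split_ifs
        · exact zero_mem _
        · exact g0 a) j i⟩
      obtain ⟨q, q1, q2⟩ := hsp f ⟨⟨f1, fun i => ⟨by simp [(f3 i).1], fun u hu => by
        rw [(f3 i).2]
        by_cases k : i = j
        · rw [k] at hu ⊢
          rw [Pi.single_eq_same]
          exact g4 u hu
        · simp [k]⟩⟩, f2⟩ f5
      obtain ⟨l, rfl⟩ := (Finsupp.mem_span_iff_linearCombination _ _ _).1 q1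
      refine ⟨l.support, fun k => l k, fun k => (l k).2, fun a => ?_⟩
      have q3 := h.sup.in_ev _ _ _ _ (SM.nonunits V) (hV.mem j) (hV.inv j)
        (h.sup.in_dd _ _ _ (SM.nonunits V) q2) a.1
      rw [map_sub, map_sub, map_sub, (f3 j).2, Pi.single_eq_same, map_sub, g1, if_pos a.2,
        sub_zero, h.gk.crd_bs, Finsupp.linearCombination_apply, Finsupp.sum] at q3
      have q4 := V.nonunits.neg_mem q3
      have q5 : ∀ k, l k • (k.1 : LG L K) = (l k : K) • (k.1 : LG L K) := fun _ => rfl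
      simp only [map_sum, q5, map_smul, smul_eq_mul, neg_sub, Subtype.val_inj,
        eq_comm (a := b)] at q4
      exact q4
  choose t q q1 q2 using a5
  let y : G L K := ∑ b, c.crd b.1 (c0 K (lam j)) • ∑ k ∈ t b, q b k • ev (s j) (dd k.1)
  have c1 : ∀ β, c.crd (.inl β) (c0 K (lam j)) = 0 := fun β => by simp [(hl j).1 β]
  have c2 : c.In0 S (c0 K (lam j)) := fun i => by
    rcases i with β | i
    · rw [c1]; exact zero_mem _
    · rw [c.crd_tmul, ← c.al_sim]
      rcases (hl j).2 (c.sim i) with e | e | e <;> simp [e]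
  have y1 : c.In0 S y := in_sum _ fun b _ => in_smul (c2 _)
    (in_sum _ fun k _ => in_smul (q1 b k) (a4 k))
  have y2 : y - (c0 K (lam j) + n) ∈ c.Gr (lam j) {-1} := fun i e => wt_min (hl j) i fun k => e (by
    have : c.crd i n = 0 := by_contra fun e' => by
      rw [show c.wt0 (lam j) i = -1 from n1 i e'] at k
      norm_num at k
    simp only [y, map_sub, map_add, map_sum, map_smul, smul_eq_mul, this, add_zero,
      fun b => q2 b ⟨i, k⟩, mul_ite, mul_one, mul_zero, Finset.sum_ite_eq, Finset.mem_univ,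
      if_true, sub_self])
  have y3 := (perp_ex h.toT1 (hl j) nn (y - (c0 K (lam j) + n))).1 fun u hu => by
    rw [ex_fix h.toT1 (hl j) n1 nn y2, map_sub, LinearMap.sub_apply,
      ← ex_lam h.toT1 (hl j) n1 nn, (perp_ex h.toT1 (hl j) nn _).2 (fun i e => by
        rcases i with β | i
        · exact absurd (c1 β) e
        · simp [CD.wt0]) u hu, sub_zero]
    simp only [y, map_sum, map_smul, LinearMap.sum_apply, LinearMap.smul_apply]
    exact Finset.sum_eq_zero fun b _ => smul_eq_zero_of_right _ (Finset.sum_eq_zero fun k _ =>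
      smul_eq_zero_of_right _ ((k.2.1.2 j).2 u (hU ▸ hu)))
  have y4 : c.crd (.inl (c.neg β)) (y - (c0 K (lam j) + n)) = 0 := by_contra fun e => by
    have := y3 _ e
    rw [show c.wt0 (lam j) _ = -1 from y2 _ e] at this
    norm_num at this
  rw [map_sub, map_add, c1, zero_add, sub_eq_zero] at y4
  exact y4 ▸ y1 _

/-- The integral part of the window is spanned by loops with coordinates in any ring containing
the coordinates of the cell. -/
theorem win_span (h : T3a c ζ s) {S V : Subring K} (h1 : ∀ γ ∈ S, γ ∈ V) (h2 : c.HP ζ s S)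
    {lam : J → L} (h4 : ∀ j, c.Min (lam j)) {X : c.Id lam → K} (h5 : ∀ p, X p ∈ S) {x : L}
    (h6 : c.Fix x) (r : ℚ) (f : LG L K) (hf : f ∈ c.Win ζ s (c.cell lam X) x r) (f1 : c.In V f) :
    f ∈ Submodule.span V {w | w ∈ c.Win ζ s (c.cell lam X) x r ∧ c.In S w} := by
  have h3 := hp_mono h2 h1
  choose I I1 I2 I3 I4 using fun m w => int2s h x r m w h6
  have n0 := fun j => (h.fd.nX lam X j).1
  have n1 := fun j => (h.fd.nX lam X j).2.1
  have n2 := in_nX h.toT1 h5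
  have n3 : ∀ j i, c.In0 S (ex (c.nX lam X j) (c.bs K i)) := fun j i =>
    in_exn h.toT1 (SM.self S) (h4 j) (n0 j) (n2 j) (h.gk.in_bs S i)
  have n4 : ∀ j y, c.In0 V y → c.In0 V (ex (-c.nX lam X j) y) := fun j y =>
    in_exn h.toT1 (SM.self V) (h4 j) (neg_mem (n0 j)) fun i => by
      rw [map_neg]; exact neg_mem (h1 _ (n2 j i))
  have n5 := fun j => LinearMap.congr_fun (h.ex.inv _ (n1 j)).1
  have n6 := fun j => LinearMap.congr_fun (h.ex.inv _ (n1 j)).2
  simp only [Module.End.mul_apply, Module.End.one_apply] at n5 n6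
  have n7 : ∀ (v : J → G L K) i, ∑ j, ∑ k, c.crd k (ex (-c.nX lam X j) (v j)) •
      (Pi.single j (ex (c.nX lam X j) (c.bs K k)) : J → G L K) i = v i := fun v i => by
    rw [Finset.sum_eq_single i (fun j _ e => by simp [e.symm]) (by simp)]
    simp only [Pi.single_eq_same, ← map_smul, ← map_sum, c.crd_eq, Module.Basis.sum_repr, n5]
  have z0 : c.In0 S (0 : G L K) := fun a => by simp
  have e : f = ∑ j, ∑ k, (c.crd k (ex (-c.nX lam X j) (ev (s j) f)) •
      I (Pi.single j (ex (c.nX lam X j) (c.bs K k))) 0 +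
      c.crd k (ex (-c.nX lam X j) (ev (s j) (dd f))) •
      I 0 (Pi.single j (ex (c.nX lam X j) (c.bs K k)))) :=
    sub_eq_zero.1 (h.int.uniq2 x r _
      (sub_mem hf.1.1 (sum_mem fun j _ => sum_mem fun k _ =>
        add_mem (Submodule.smul_mem _ _ (I1 _ _)) (Submodule.smul_mem _ _ (I1 _ _))))
      (sub_mem hf.2 (sum_mem fun j _ => sum_mem fun k _ =>
        add_mem (Submodule.smul_mem _ _ (I2 _ _)) (Submodule.smul_mem _ _ (I2 _ _)))) fun i => by
      simp only [map_sub, map_sum, map_add, map_smul, I3, Pi.zero_apply, smul_zero, add_zero,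
        zero_add, n7 fun j => ev (s j) f, n7 fun j => ev (s j) (dd f), sub_self, and_self])
  rw [e]
  refine sum_mem fun j _ => sum_mem fun k _ => add_mem ?_ ?_
  · by_cases e1 : c.crd k (ex (-c.nX lam X j) (ev (s j) f)) = 0
    · simp [e1]
    refine Submodule.smul_mem _ (⟨_, n4 j _ (h.sup.in_ev _ _ _ _ (SM.self V) (h3.mem j)
      (h3.inv j) f1) k⟩ : V) (Submodule.subset_span ⟨⟨⟨I1 _ _, fun i => ⟨?_, fun u _ => by
        simp [I3]⟩⟩, I2 _ _⟩, I4 _ _ S h2 fun i => ⟨in_single (n3 j k) j i, z0⟩⟩)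
    rw [(I3 _ _ i).1]
    by_cases e2 : i = j
    · obtain ⟨u, hu, e3⟩ := (hf.1.2 j).1
      rw [← e3, n6] at e1
      rw [e2, Pi.single_eq_same]
      exact Submodule.mem_map_of_mem (h.gk.gr_bs _ _ k (hu k e1))
    · simp [e2]
  · by_cases e1 : c.crd k (ex (-c.nX lam X j) (ev (s j) (dd f))) = 0
    · simp [e1]
    refine Submodule.smul_mem _ (⟨_, n4 j _ (h.sup.in_ev _ _ _ _ (SM.self V) (h3.mem j)
      (h3.inv j) (h.sup.in_dd _ _ _ (SM.self V) f1)) k⟩ : V) (Submodule.subset_span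
        ⟨⟨⟨I1 _ _, fun i => ⟨by simp [I3], ?_⟩⟩, I2 _ _⟩,
          I4 _ _ S h2 fun i => ⟨z0, in_single (n3 j k) j i⟩⟩)
    rw [(I3 _ _ i).2]
    by_cases e2 : i = j
    · rintro _ ⟨u, hu, rfl⟩
      rw [e2] at hu ⊢
      rw [Pi.single_eq_same, (h.ex.a0 _ (n1 j)).form]
      refine (h.fd.perp _ (h4 j) _).2 (h.gk.gr_bs _ _ k ((h.fd.perp _ (h4 j) _).1
        (fun u hu => ?_) k e1)) u hu
      rw [← (h.ex.a0 _ (n1 j)).form, n5]
      exact (hf.1.2 j).2 _ (Submodule.mem_map_of_mem hu)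
    · simp [e2]

/-- A chart with coordinates in a local ring gives a big cell with coordinates in this ring. -/
theorem h1p (hp : c.Pt ζ s) {S : Subring K} {V : ValuationSubring K} {π : K} (h1 : Dom S V)
    (h2 : c.HP ζ s S) (h3 : Arch V π) {μ : J → L} {r₀ : L} (hCo : c.Co μ r₀) (X : c.Id μ → K)
    {x : L} (h4 : c.Fix x) {r : ℚ} {C : Finset (ℤ × (Φ ⊕ Δ))}
    (h5 : c.IsCh ζ s (c.cell μ X) x r C) (h6 : c.Gens ζ s (c.cell μ X) x r C ⊆ S) :
    ∃ (lam : J → L) (X' : c.Id lam → K), (∀ j, c.Min (lam j)) ∧ c.cell μ X = c.cell lam X' ∧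
      (∀ p, X' p ∈ S) ∧ ∀ p, 0 < c.al p.1.2 c.ρ → X' p ∈ V.nonunits := by
  have T := ta c K ζ J s hp
  obtain ⟨lam, X', a1, a2, a3, a4⟩ := horvp V h3 hCo X
  refine ⟨lam, X', a1, a2, xin T.toT3a h1 h2 h4 r a1 a3 fun f hf f1 => ⟨f, ?_, by
    simpa using (T.sup.in_add _ _ (SM.nonunits V)).1⟩, a4⟩
  rw [a2] at h5 h6
  obtain ⟨fb, b1, b2, -⟩ := T.chs.basis _ x r C h5
  rw [b2 f hf]
  exact sum_mem fun b hb => Submodule.smul_mem _ (⟨_, f1 b⟩ : V.toSubring)
    (Submodule.subset_span ⟨(b1 b hb).1.1, fun a => h6 ((b1 b hb).2.2 a)⟩)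

/-- The coordinates of a chart are in every local ring containing the coordinates of the cell. -/
theorem h2p (hp : c.Pt ζ s) {S : Subring K} {V : ValuationSubring K} (h1 : Dom S V)
    (h2 : c.HP ζ s S) {lam : J → L} (h4 : ∀ j, c.Min (lam j)) {X : c.Id lam → K}
    (h5 : ∀ p, X p ∈ S) {x : L} (h6 : c.Fix x) {r : ℚ} {C : Finset (ℤ × (Φ ⊕ Δ))}
    (h7 : c.IsCh ζ s (c.cell lam X) x r C) (h8 : c.Gens ζ s (c.cell lam X) x r C ⊆ V) :
    c.Gens ζ s (c.cell lam X) x r C ⊆ S :=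
  have T := ta c K ζ J s hp
  T.chs.chs0 S V _ x r C h1 h7 h8 fun f hf f1 =>
    ⟨f, win_span T.toT3a (V := V.toSubring) h1.le h2 h4 h5 h6 r f hf f1, by
      simpa using (T.sup.in_add _ _ (SM.nonunits V)).1⟩

/-- chart free form of `h1p` -/
theorem h1s (hp : c.Pt ζ s) {S : Subring K} {V : ValuationSubring K} {π : K} (h1 : Dom S V)
    (h2 : c.HP ζ s S) (h3 : Arch V π) {μ : J → L} {r₀ : L} (hCo : c.Co μ r₀) (X : c.Id μ → K)
    {x : L} (h4 : c.Fix x) (h5 : c.Spn ζ s S V (c.cell μ X) x) :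
    ∃ (lam : J → L) (X' : c.Id lam → K), (∀ j, c.Min (lam j)) ∧ c.cell μ X = c.cell lam X' ∧
      (∀ p, X' p ∈ S) ∧ ∀ p, 0 < c.al p.1.2 c.ρ → X' p ∈ V.nonunits := by
  obtain ⟨lam, X', a1, a2, a3, a4⟩ := horvp V h3 hCo X
  refine ⟨lam, X', a1, a2, xin (t3a c ζ s hp) h1 h2 h4 0 a1 a3 fun f hf f1 => ?_, a4⟩
  rw [a2] at h5
  obtain ⟨g, g1, g2⟩ := h5 f hf f1
  exact ⟨g, Submodule.span_mono (fun w hw => And.intro hw.1.1 hw.2) g1, g2⟩

/-- chart free form of `h2p` -/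
theorem h2s (hp : c.Pt ζ s) {S : Subring K} {V : ValuationSubring K} (h1 : ∀ γ ∈ S, γ ∈ V)
    (h2 : c.HP ζ s S) {lam : J → L} (h4 : ∀ j, c.Min (lam j)) {X : c.Id lam → K}
    (h5 : ∀ p, X p ∈ S) {x : L} (h6 : c.Fix x) : c.Spn ζ s S V (c.cell lam X) x :=
  have T := t3a c ζ s hp
  fun f hf f1 => ⟨f, win_span T (V := V.toSubring) h1 h2 h4 h5 h6 0 f hf f1, by
    simpa using (T.sup.in_add _ _ (SM.nonunits V)).1⟩

theorem uniq0 {lam lam' : J → L} {r : L} (h1 : c.Co lam r) (h2 : c.Co lam' r)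
    {X : c.Id lam → K} {X' : c.Id lam' → K} (e : c.cell lam X = c.cell lam' X') (j : J) (β : Φ)
    (hβ : c.al β (lam' j) = 1) : c.al β (lam j) = 1 := by
  have h := t1 c K
  have key : ∀ (l : L) (n : G L K), (∀ α, c.al α l = 1 → 0 < c.al α r) → n ∈ c.Gr l {-1} → Nil n →
      ∀ y ∈ c.Gr r (Iic (c.al β r)), c.crd (.inl β) (ex n y) = c.crd (.inl β) y ∧
        ex n y ∈ c.Gr r (Iic (c.al β r)) := fun l n a1 a2 a3 y hy => by
    obtain ⟨b1, b2⟩ := h.ex.stable (c.Gr r (Iic (c.al β r))) (c.Gr r (Iio (c.al β r))) n a3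
      (fun v hv i hi => Set.Iio_subset_Iic_self (hv i hi)) (fun y hy =>
        h.gk.gr_lie r (Iio 0) _ _ _ _ (fun i hi => by
          have := a2 i hi
          rcases i with α | i
          · have k := a1 (c.neg α) (by
              rw [c.al_neg, LinearMap.neg_apply, show c.al α l = -1 from this, neg_neg])
            rw [c.al_neg, LinearMap.neg_apply] at k
            exact neg_pos.1 k
          · simp [CD.wt0] at this) hy fun p hp p' hp' => by
          simpa using add_lt_add_of_lt_of_le hp.out hp'.out) y hy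
    refine ⟨?_, b2⟩
    rw [← sub_eq_zero, ← map_sub]
    exact by_contra fun k => lt_irrefl (c.al β r) (b1 _ k)
  obtain ⟨a1, a2, -⟩ := h.fd.nX lam X j
  obtain ⟨b1, b2, -⟩ := h.fd.nX lam' X' j
  obtain ⟨u, hu, e1⟩ : ex (c.nX lam' X' j) (c.bs K (.inl β)) ∈ c.cell lam X j :=
    e ▸ Submodule.mem_map_of_mem (h.gk.gr_bs _ _ (.inl β) hβ)
  obtain ⟨k1, k2⟩ := key _ _ (h2.2.2.2 j) b1 b2 _ (h.gk.gr_bs r (Iic _) (.inl β) (mem_Iic.2 le_rfl))
  have k3 := (key _ _ (h1.2.2.2 j) (neg_mem a1) (h.ex.nil_neg _ a2) _ k2).1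
  rw [k1, ← e1, ← Module.End.mul_apply, (h.ex.inv _ a2).2, h.gk.crd_bs, if_pos rfl] at k3
  exact hu (.inl β) fun k => one_ne_zero (k3.symm.trans k)

/-- The dominant coweight of a point of a dominant big cell is unique. -/
theorem uniq1 {lam lam' : J → L} {r : L} (h1 : c.Co lam r) (h2 : c.Co lam' r)
    {X : c.Id lam → K} {X' : c.Id lam' → K} (e : c.cell lam X = c.cell lam' X') : lam = lam' := by
  have h := t1 c K
  funext j
  have k : ∀ β, c.al β (lam j) = 1 ↔ c.al β (lam' j) = 1 := fun β =>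
    ⟨uniq0 h2 h1 e.symm j β, uniq0 h1 h2 e j β⟩
  refine sub_eq_zero.1 (h.cd.h_ext _ ((h1.2.2.1 j).1.sub (h2.2.2.1 j).1) fun α => ?_)
  have k1 := k α
  have k2 := k (c.neg α)
  simp only [c.al_neg, LinearMap.neg_apply] at k2
  rw [map_sub]
  rcases (h1.2.2.1 j).2 α with a | a | a <;> rcases (h2.2.2.1 j).2 α with b | b | b <;>
    rw [a, b] at k1 k2 ⊢ <;> revert k1 k2 <;> norm_num

/-- The coordinates of a point of a big cell are unique. -/
theorem uniq2 {lam : J → L} (hl : ∀ j, c.Min (lam j)) {X X' : c.Id lam → K}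
    (e : c.cell lam X = c.cell lam X') : X = X' := by
  have h := t1 c K
  funext ⟨⟨j, β⟩, hβ⟩
  obtain ⟨a1, -, a3⟩ := h.fd.nX lam X j
  obtain ⟨b1, -, b3⟩ := h.fd.nX lam X' j
  have k1 := h.cell.uniq _ (hl j) _ a1 (ex (c.nX lam X' j) (c.bs K (.inl β)))
    (show _ ∈ c.cell lam X j from e ▸ Submodule.mem_map_of_mem (h.gk.gr_bs _ _ (.inl β) hβ))
  obtain ⟨k2, k3⟩ := h.cell.vec _ (hl j) _ b1 β hβ
  rw [Finset.sum_eq_single β (fun γ hγ k => by
    rw [k2 γ (Finset.mem_filter.1 hγ).2, if_neg k, zero_smul]) (by simpa using fun k => absurd hβ k),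
    k2 β hβ, if_pos rfl, one_smul] at k1
  rw [k1, (h.cell.vec _ (hl j) _ a1 β hβ).2, a3 ⟨(j, β), hβ⟩ rfl, b3 ⟨(j, β), hβ⟩ rfl] at k3
  exact mul_left_cancel₀ (by norm_num) k3

theorem uniq {lam lam' : J → L} {r : L} (h1 : c.Co lam r) (h2 : c.Co lam' r)
    {X : c.Id lam → K} {X' : c.Id lam' → K} (e : c.cell lam X = c.cell lam' X') :
    lam = lam' ∧ range X = range X' := by
  obtain rfl := uniq1 h1 h2 e
  rw [uniq2 h1.2.2.1 e]
  exact ⟨rfl, rfl⟩

/-- A cell without positive root is antidominant. -/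
theorem co_neg {lam : J → L} (hl : ∀ j, c.Min (lam j))
    (h : ∀ p : c.Id lam, ¬ 0 < c.al p.1.2 c.ρ) : c.Co lam (-c.ρ) :=
  ⟨c.fix_ρ.neg, fun α => by simpa using c.ρ_ne α, hl, fun j α e => by
    simpa using lt_of_le_of_ne (not_lt.1 (h ⟨(j, α), e⟩)) (c.ρ_ne α)⟩

end Pool.Agent.P.MP_e7d440_ag.Z
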