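import Pool.Agent.P.MP_e7d440_ag.Z.IfaceF
import Pool.Agent.P.MP_e7d440_ag.Z.BaseH3

/-! Step SP1. -/

set_option autoImplicit false
set_option linter.unusedSectionVars false

namespace Pool.Agent.P.MP_e7d440_ag.Z

open Pool.Agent.P.MP_e7d440_ag.U TensorProduct LieAlgebra LaurentPolynomial Set IsLocalRing

variable {L Φ Δ : Type} [LieRing L] [LieAlgebra ℚ L] [Fintype Φ] [Fintype Δ] [DecidableEq Φ]
  [DecidableEq Δ] (c : CD L Φ Δ)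

theorem p_SP1 (h : TG c) (hSP0 : S_SP0 c) :
    S_SP1 c := by
  intro K₀ K J _ _ _ _ _ _ _ ζ s₀ s R sp μ X x hq hμ hx f₀ hf₀
  have T₀ := (h K₀ ζ J s₀ hq.pt₀).toT3.toT3a
  have T := (h K _ J s hq.pt).toT3.toT3a
  obtain ⟨p1, p2, -, p4, p5⟩ := hSP0 ζ s₀ s R sp μ X x hq hμ
  have nX : ∀ j, mqa (algebraMap K₀ K : K₀ →+ K) (c.nX μ X j) =
      c.nX μ (fun p => algebraMap K₀ K (X p)) j := fun j => by
    simp only [CD.nX, map_sum, T.gk.mqa_smul, c.bs_apply, mqa_tmul]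
    simp
  have gr : ∀ (z : L) (P : Set ℚ) (y : G L K₀), y ∈ c.Gr z P →
      mqa (algebraMap K₀ K : K₀ →+ K) y ∈ (c.Gr z P : Submodule K _) := fun z P y hy i hi =>
    hy i fun e => hi (by rw [c.crd_mqa, e, map_zero])
  have n₀ := fun j => (T₀.fd.nX μ X j).2.1
  have nat := fun j y => nX j ▸ (T.ex.nat (algebraMap K₀ K) _ (n₀ j)).2 y
  obtain ⟨f, f1, f2, f3, f4⟩ := int2s T x 0
    (fun j => mqa (algebraMap K₀ K : K₀ →+ K) (ev (s₀ j) f₀))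
    (fun j => mqa (algebraMap K₀ K : K₀ →+ K) (ev (s₀ j) (dd f₀))) hx
  have hf : f ∈ c.Win (algebraMap K₀ K ζ) s (c.cell μ fun p => algebraMap K₀ K (X p)) x 0 := by
    refine ⟨⟨f1, fun j => ⟨?_, ?_⟩⟩, f2⟩
    · obtain ⟨u, hu, e⟩ := (hf₀.1.2 j).1
      rw [(f3 j).1, ← e, nat]
      exact Submodule.mem_map_of_mem (gr _ _ _ hu)
    · have e : ev (s₀ j) (dd f₀) = ex (c.nX μ X j) (ex (-c.nX μ X j) (ev (s₀ j) (dd f₀))) :=
        (LinearMap.congr_fun (T₀.ex.inv _ (n₀ j)).1 _).symm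
      rw [(f3 j).2, e, nat]
      exact (perp_ex T.toT1 (hμ j) (T.fd.nX μ _ j).2.1 _).2 (gr _ _ _
        ((perp_ex T₀.toT1 (hμ j) (n₀ j) _).1 (e ▸ (hf₀.1.2 j).2)))
  obtain ⟨g, hg⟩ := p2 f (f4 R p1 fun j =>
    ⟨fun i => by rw [c.crd_mqa]; exact (hq.const _).1,
      fun i => by rw [c.crd_mqa]; exact (hq.const _).1⟩)
  have hw := p5 f g hg hf
  have key : ∀ (y : G L K) (y₀ y₁ : G L K₀), y = mqa (algebraMap K₀ K : K₀ →+ K) y₀ →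
      (∀ i, ∃ e : c.crd i y ∈ R, sp ⟨_, e⟩ = c.crd i y₁) → y₁ - y₀ = 0 := by
    rintro _ y₀ y₁ rfl a
    refine sub_eq_zero.2 (c.ext0 fun i => ?_)
    obtain ⟨e, a1⟩ := a i
    obtain ⟨e', a2⟩ := hq.const (c.crd i y₀)
    rw [← a1, ← a2]
    exact congrArg sp (Subtype.ext (c.crd_mqa _ i y₀))
  have e : g - f₀ = 0 := T₀.int.uniq2 x 0 _ (sub_mem hw.1.1 hf₀.1.1) (sub_mem hw.2 hf₀.2) fun j => by
    rw [map_sub, map_sub, map_sub]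
    exact ⟨key _ _ _ (f3 j).1 (p4 f g hg j).1, key _ _ _ (f3 j).2 (p4 f g hg j).2⟩
  exact ⟨f, hf, sub_eq_zero.1 e ▸ hg⟩

end Pool.Agent.P.MP_e7d440_ag.Z
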