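import Pool.Agent.P.MP_e7d440_ag.Z.IfaceG

/-! Step TAN. -/

set_option autoImplicit false
set_option linter.unusedSectionVars false

namespace Pool.Agent.P.MP_e7d440_ag.Z

open Pool.Agent.P.MP_e7d440_ag.U TensorProduct LieAlgebra LaurentPolynomial Set

variable {L Φ Δ : Type} [LieRing L] [LieAlgebra ℚ L] [Fintype Φ] [Fintype Δ] [DecidableEq Φ]
  [DecidableEq Δ] (c : CD L Φ Δ) {K : Type} [Field K] [CharZero K] (ζ : K)
  {J : Type} [Fintype J] [DecidableEq J] (s : J → K)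

theorem p_TAN (h : T3 c ζ s) (hACT : S_ACT c ζ s) (hVF1 : S_VF1 c ζ s) (hVF2 : S_VF2 c ζ s) (hCNJ : S_CNJ c ζ s) (hKIL : S_KIL c ζ s) :
    S_TAN c ζ s := by
  intro μ X U' x x' z n a t hμ hcr hcell hbig hsl
  obtain ⟨hx', ha, -, -⟩ := hACT.cr x x' z n a hcr
  obtain ⟨v, hv, hcnj⟩ := hCNJ x' n a t hx' fun k => ⟨(ha k).2.1, (ha k).2.2.1⟩
  have key : ∀ χ, c.Fix χ → ∀ η ∈ Nn c ζ x', ∃ w : c.Id μ → K, ∀ δ : K →+ K, Der ζ s δ 0 →
      (∀ p, δ (X p) = w p) → η = ∑ l, δ (t l) • v l ∧ Pres c ζ s δ 0 (c0 (LP K) χ) U' := by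
    intro χ hχ η hη
    have hξ : c.pE ζ a t (c0 (LP K) χ + η) ∈ c.Eqv ζ :=
      ((h.la.pf a t 0).eqv _).2 (add_mem (h.eqv.c0 χ hχ.2) hη.1)
    obtain ⟨w, hw⟩ := hVF2 μ X (fun j => ev (s j) (c.pE ζ a t (c0 (LP K) χ + η))) hμ
    refine ⟨w, fun δ hδ hX => ?_⟩
    have h1 := hVF1 δ 0 _ _ hδ hξ (fun j => (h.fd.cell μ X j (hμ j)).1) (hw δ 0 hδ hX)
    rw [hcell] at h1
    have h2 := hcnj δ _ U' hδ hbig.fd h1
    rw [add_sub_assoc] at h2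
    have h3 := hKIL U' x x' χ δ _ hbig hsl hcr.cl hχ hδ
      (sub_mem hη (Submodule.sum_mem _ fun l _ => Submodule.smul_mem _ _ (hv l))) h2
    rw [h3, add_zero] at h2
    exact ⟨sub_eq_zero.1 h3, h2⟩
  refine ⟨fun χ hχ => ?_, ?_⟩
  · obtain ⟨w, hw⟩ := key χ hχ 0 (zero_mem _)
    exact ⟨w, fun δ hδ hX => (hw δ hδ hX).2⟩
  have hE : ∀ k, c.E ζ (a k) ∈ Nn c ζ x' := fun k =>
    ⟨h.rt1.eqv _, fun b hb => by
      rw [h.rt1.sup (a k) c.ρ c.fix_ρ b hb]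
      exact (ha k).2.1, fun b hb => by
      rw [h.rt1.sup (a k) x' hx' b hb]
      exact (ha k).2.2.1⟩
  choose w hw using fun k => key 0 c.fix_zero _ (hE k)
  refine ⟨w, fun δ hδ hX => ⟨fun k => (hw k _ (hδ k) (hX k)).2, ?_⟩⟩
  have hM : (Matrix.of fun m l => c.cE (a m) (v l)) * (Matrix.of fun l k => δ k (t l)) = 1 := by
    ext m k
    rw [Matrix.mul_apply, Matrix.one_apply, ← h.gal.indep z n c.ρ a hcr.reg hcr.gal m k,
      (hw k _ (hδ k) (hX k)).1]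
    simp only [Matrix.of_apply, CD.cE, map_sum, map_smul, smul_eq_mul, Finset.sum_div]
    exact Finset.sum_congr rfl fun l _ => by ring
  exact (Matrix.isUnit_det_of_left_inverse hM).ne_zero

end Pool.Agent.P.MP_e7d440_ag.Z
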