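import Pool.Agent.P.MP_e7d440_ag.Z.IfaceC

/-! Step VF0. -/

set_option autoImplicit false
set_option linter.unusedSectionVars false

namespace Pool.Agent.P.MP_e7d440_ag.Z

open Pool.Agent.P.MP_e7d440_ag.U MvPolynomial IsLocalRing

theorem p_VF0 :
    S_VF0 := by
  have hg : ∀ {O K ν : Type} [CommRing O] [Field K] [Algebra O K] (y : ν → K),
      Gen O y ↔ ∀ S : Subfield K, (∀ o, algebraMap O K o ∈ S) → (∀ i, y i ∈ S) → S = ⊤ := by
    intro O K ν _ _ _ y
    rw [gen.clos]
    exact ⟨fun h S h1 h2 => top_le_iff.1 (h.ge.trans (Subfield.closure_le.2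
      (Set.union_subset (Set.range_subset_iff.2 h1) (Set.range_subset_iff.2 h2)))),
      fun h => h _ (fun o => Subfield.subset_closure (Or.inl ⟨o, rfl⟩))
        fun i => Subfield.subset_closure (Or.inr ⟨i, rfl⟩)⟩
  refine ⟨?_, ?_, hg, ?_, ?_⟩
  · intro O K ν _ _ _ _ _ y hG hI v
    classical
    let e := Fintype.equivFin ν
    have hG' : Gen O fun k => y (e.symm k) :=
      (hg _).2 fun S h1 h2 => (hg _).1 hG S h1 fun i => by simpa using h2 (e i)
    obtain ⟨f, hf⟩ := gen.iso _ _ hG' ExlA.gen_TT (hI.comp _ e.symm.injective) ExlA.ind_TT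
    obtain ⟨D₀, hD₀⟩ := der.frac (O := O) (σ := Fin (Fintype.card ν))
    choose D hD using fun k => ExlA.der_map f (D₀ k)
    refine ⟨∑ k, v k • D (e k), fun k => ?_⟩
    have : ∀ l, D (e l) (y k) = if l = k then 1 else 0 := fun l => by
      have := hf (e k)
      rw [e.symm_apply_apply] at this
      rw [← this, hD, ExlA.TT, hD₀, MvPolynomial.pderiv_X]
      by_cases h : l = k
      · simp [h]
      · simp [h]
    rw [show (∑ l, v l • D (e l)) (y k) = ∑ l, (v l • D (e l)) (y k) from by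
      rw [← Derivation.coeFnAddMonoidHom_apply, map_sum, Finset.sum_apply]; rfl]
    simp [this]
  · intro O K ν σ _ _ _ _ _ _ y x hG hI
    by_contra k
    have k1 := not_le.1 k
    have h1 : Gen O (Sum.elim y fun _ : Unit => (0 : K)) :=
      (hg _).2 fun S h1 h2 => (hg _).1 hG S h1 fun i => h2 (.inl i)
    exact (gen.indep _ x h1 hI (by simpa using k1)).ne_zero (.inr ()) rfl
  · intro O K₀ K ν _ _ _ _ _ _ _ _ s u X h1 h2 h3 h4
    refine ⟨(hg _).2 fun S k1 k2 => (hg _).1 h3 S (fun a => ?_) fun i => k2 (.inl i),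
      h2.sumElim_comp h4⟩
    have := (hg _).1 h1 (S.comap (algebraMap K₀ K))
      (fun o => by rw [Subfield.mem_comap, ← IsScalarTower.algebraMap_apply]; exact k1 o)
      fun p => k2 (.inr p)
    exact (this.ge (Subfield.mem_top a) : a ∈ S.comap (algebraMap K₀ K))
  · intro O K ν ν' _ _ _ s u X e
    refine ⟨fun h => (hg _).2 fun S k1 k2 => (hg _).1 h S k1 ?_, fun h => ?_⟩
    · rintro (i | i)
      · exact k2 (.inl i)
      · simpa [cs] using k2 (.inr (e.symm i))
    · convert h.comp (Sum.map id e) (Sum.map_injective.2 ⟨fun _ _ => id, e.injective⟩) using 1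
      ext (i | i) <;> rfl

end Pool.Agent.P.MP_e7d440_ag.Z
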