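import Pool.Agent.P.MP_e7d440_ag.Z.IfaceG
import Pool.Agent.P.MP_e7d440_ag.Z.BaseVF

/-! Step VF1. -/

set_option autoImplicit false
set_option linter.unusedSectionVars false

namespace Pool.Agent.P.MP_e7d440_ag.Z

open Pool.Agent.P.MP_e7d440_ag.U TensorProduct LieAlgebra LaurentPolynomial Set

variable {L Φ Δ : Type} [LieRing L] [LieAlgebra ℚ L] [Fintype Φ] [Fintype Δ] [DecidableEq Φ]
  [DecidableEq Δ] (c : CD L Φ Δ) {K : Type} [Field K] [CharZero K] (ζ : K)
  {J : Type} [Fintype J] [DecidableEq J] (s : J → K)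

theorem p_VF1 (h : T3 c ζ s) (hDL : S_DL c ζ s) :
    S_VF1 c ζ s := by
  intro δ ε ξ U hD hξ hU H
  exact pres_of h.toT3a hD hξ hU H

end Pool.Agent.P.MP_e7d440_ag.Z
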