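import Pool.Agent.P.MP_e7d440_ag.Z.IfaceG
import Pool.Agent.P.MP_e7d440_ag.Z.BaseVF

/-! Step VF2. -/

set_option autoImplicit false
set_option linter.unusedSectionVars false

namespace Pool.Agent.P.MP_e7d440_ag.Z

open Pool.Agent.P.MP_e7d440_ag.U TensorProduct LieAlgebra LaurentPolynomial Set

variable {L Φ Δ : Type} [LieRing L] [LieAlgebra ℚ L] [Fintype Φ] [Fintype Δ] [DecidableEq Φ]
  [DecidableEq Δ] (c : CD L Φ Δ) {K : Type} [Field K] [CharZero K] (ζ : K)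
  {J : Type} [Fintype J] [DecidableEq J] (s : J → K)

theorem p_VF2 (h : T3 c ζ s) :
    S_VF2 c ζ s := by
  intro lam X ξ hl
  refine ⟨fun p => c.crd (.inl (c.neg p.1.2)) (ex (-c.nX lam X p.1.1) (ξ p.1.1)),
    fun δ ε hD hX => ?_⟩
  rintro j _ ⟨u, hu, rfl⟩
  obtain ⟨n1, nn, -⟩ := h.fd.nX lam X j
  obtain ⟨m1, -, m3⟩ := h.fd.nX lam (fun p => δ (X p)) j
  obtain ⟨d1, d2, d3⟩ := h.gk.der_lie δ hD.leib
  have e1 : mqa δ (c.nX lam X j) = c.nX lam (fun p => δ (X p)) j := by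
    simp only [CD.nX, map_sum, d2, c.bs_apply, d3, smul_zero, add_zero]
  have e2 := h.ex.logd (mqa δ).toAddMonoidHom _ d1 nn
    (lie_m1 h.toT1 (hl j) (by change mqa δ _ ∈ _; rw [e1]; exact m1) n1) u
  change mqa δ _ = ex _ (mqa δ u) + ⁅mqa δ _, _⁆ at e2
  obtain ⟨m, hm⟩ : ∃ m, m = ex (-c.nX lam X j) (ξ j) := ⟨_, rfl⟩
  have e3 : ξ j = ex (c.nX lam X j) m := by
    rw [hm, ← Module.End.mul_apply, (h.ex.inv _ nn).1, Module.End.one_apply]
  have e4 : m - c.nX lam (fun p => δ (X p)) j ∈ c.Gr (lam j) (Ici 0) := fun i hi =>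
    by_contra fun k => hi (by
      have k1 := wt_min (hl j) i k
      rcases i with β | i
      · have k2 : c.al (c.neg β) (lam j) = 1 := by
          rw [c.al_neg, LinearMap.neg_apply]
          exact neg_eq_iff_eq_neg.2 k1
        have k3 := m3 ⟨(j, c.neg β), k2⟩ rfl
        rw [hX] at k3
        simp only [h.cd.neg_neg] at k3
        rw [map_sub, k3, hm, sub_self]
      · simp [CD.wt0] at k1)
  refine ⟨mqa δ u - ⁅m - c.nX lam (fun p => δ (X p)) j, u⁆, sub_mem (fun i hi => hu i fun k =>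
    hi (by rw [c.crd_mqa, k, map_zero])) ((h.fd.u1 _ (hl j)).perp _
      ((h.fd.perp _ (hl j) _).2 e4) u hu), ?_⟩
  rw [e2, e1, e3, map_sub, (h.ex.a0 _ nn).lie, map_sub, ex_fix h.toT1 (hl j) n1 nn m1, sub_lie]
  abel

end Pool.Agent.P.MP_e7d440_ag.Z
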