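import Pool.Agent.P.MP_e7d440_ag.Z.AllA
import Pool.Agent.P.MP_e7d440_ag.Z.TNCL
import Pool.Agent.P.MP_e7d440_ag.Z.TVF0
import Pool.Agent.P.MP_e7d440_ag.Z.TCMT
import Pool.Agent.P.MP_e7d440_ag.Z.TRSP
import Pool.Agent.P.MP_e7d440_ag.Z.TDSC
import Pool.Agent.P.MP_e7d440_ag.Z.TARCH
import Pool.Agent.P.MP_e7d440_ag.Z.TBR
import Pool.Agent.P.MP_e7d440_ag.Z.TNAK
import Pool.Agent.P.MP_e7d440_ag.Z.TGN
import Pool.Agent.P.MP_e7d440_ag.Z.TSPU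
import Pool.Agent.P.MP_e7d440_ag.Z.TACT
import Pool.Agent.P.MP_e7d440_ag.Z.TNEAR
import Pool.Agent.P.MP_e7d440_ag.Z.TCELL
import Pool.Agent.P.MP_e7d440_ag.Z.TBIG
import Pool.Agent.P.MP_e7d440_ag.Z.TSL1
import Pool.Agent.P.MP_e7d440_ag.Z.TSLS
import Pool.Agent.P.MP_e7d440_ag.Z.TSLC
import Pool.Agent.P.MP_e7d440_ag.Z.TNF0
import Pool.Agent.P.MP_e7d440_ag.Z.TRSD
import Pool.Agent.P.MP_e7d440_ag.Z.TSLU
import Pool.Agent.P.MP_e7d440_ag.Z.TVRT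
import Pool.Agent.P.MP_e7d440_ag.Z.TDL
import Pool.Agent.P.MP_e7d440_ag.Z.TVF1
import Pool.Agent.P.MP_e7d440_ag.Z.TVF2
import Pool.Agent.P.MP_e7d440_ag.Z.TCNJ
import Pool.Agent.P.MP_e7d440_ag.Z.TKIL
import Pool.Agent.P.MP_e7d440_ag.Z.TEIG
import Pool.Agent.P.MP_e7d440_ag.Z.TFIX
import Pool.Agent.P.MP_e7d440_ag.Z.TTAN
import Pool.Agent.P.MP_e7d440_ag.Z.TSP0
import Pool.Agent.P.MP_e7d440_ag.Z.TSP1
import Pool.Agent.P.MP_e7d440_ag.Z.TSPG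
import Pool.Agent.P.MP_e7d440_ag.Z.TFM0
import Pool.Agent.P.MP_e7d440_ag.Z.TFGR
import Pool.Agent.P.MP_e7d440_ag.Z.TSDR
import Pool.Agent.P.MP_e7d440_ag.Z.TFVE
import Pool.Agent.P.MP_e7d440_ag.Z.TFAM
import Pool.Agent.P.MP_e7d440_ag.Z.TCRE

/-! Assembly of the steps on the group side. -/

set_option autoImplicit false

namespace Pool.Agent.P.MP_e7d440_ag.Z

open Pool.Agent.P.MP_e7d440_ag.U

theorem q_NCL : S_NCL := p_NCL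
theorem q_VF0 : S_VF0 := p_VF0
theorem q_CMT : S_CMT := p_CMT q_NCL
theorem q_RSP : S_RSP := p_RSP
theorem q_DSC : S_DSC := p_DSC
theorem q_ARCH : S_ARCH := p_ARCH

variable {L Φ Δ : Type} [LieRing L] [LieAlgebra ℚ L] [Fintype Φ] [Fintype Δ] [DecidableEq Φ]
  [DecidableEq Δ] (c : CD L Φ Δ)

theorem tg : TG c := fun K _ _ ζ J _ _ s hp =>
  have h := ta c K ζ J s hp
  have hBR := p_BR c ζ s h
  have hNAK := p_NAK c ζ s h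
  have hGN := p_GN c ζ s h
  have hSPU := p_SPU c ζ s h
  have hACT := p_ACT c ζ s h hGN
  have hNEAR := p_NEAR c ζ s h
  have hCELL := p_CELL c ζ s h hNEAR
  have hBIG := p_BIG c ζ s h hNAK hGN
  have hSL1 := p_SL1 c ζ s h hBR
  have hSLS := p_SLS c ζ s h hGN hACT hSL1
  have hSLC := p_SLC c ζ s h hACT hSLS
  have hNF0 := p_NF0 c ζ s h
  have hRSD := p_RSD c ζ s h hGN hACT hNF0
  have hSLU := p_SLU c ζ s h hACT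
  have hVRT := p_VRT c ζ s h hACT hCELL hBIG hSLC hRSD hSLU
  have hDL := p_DL c ζ s h
  have hVF1 := p_VF1 c ζ s h hDL
  have hVF2 := p_VF2 c ζ s h
  have hCNJ := p_CNJ c ζ s h hDL
  have hKIL := p_KIL c ζ s h hDL
  have hEIG := p_EIG c ζ s h hDL
  have hFIX := p_FIX c ζ s h hGN hDL
  have hTAN := p_TAN c ζ s h hACT hVF1 hVF2 hCNJ hKIL
  ⟨h, hNAK, hGN, hSPU, hACT, hCELL, hBIG, hVRT, hVF1, hVF2, hEIG, hFIX, hTAN⟩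

theorem q_SP0 : S_SP0 c := p_SP0 c (tg c)
theorem q_SP1 : S_SP1 c := p_SP1 c (tg c) (q_SP0 c)
theorem q_SPG : S_SPG c := p_SPG c (tg c) (q_SP0 c) (q_SP1 c)
theorem q_FM0 : S_FM0 c := p_FM0 c (tg c) q_VF0
theorem q_FGR : S_FGR c := p_FGR c (tg c) q_VF0
theorem q_SDR : S_SDR c := p_SDR c (tg c) q_VF0
theorem q_FVE : S_FVE c := p_FVE c (tg c) q_ARCH q_NCF q_NCL q_VF0 (q_SDR c)
theorem q_FAM : S_FAM c := p_FAM c (tg c) q_ALG2 q_RSP q_SPEC2 q_ARCH q_NCF q_NCL q_VF0 (q_SPG c) (q_FM0 c) (q_FGR c) (q_FVE c)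
theorem q_CRE : S_CRE c := p_CRE c (tg c) q_ARCH q_CMF2 q_NCF q_NCL q_VF0 q_CMT (q_FAM c)

end Pool.Agent.P.MP_e7d440_ag.Z
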