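import Pool.Agent.P.MP_e7d440_ag.Z.BaseHc

/-! The coordinates of a big cell control the window. -/

namespace Pool.Agent.P.MP_e7d440_ag.Z

open TensorProduct LieAlgebra LaurentPolynomial Set U

variable {L Φ Δ : Type} [LieRing L] [LieAlgebra ℚ L] [Fintype Φ] [Fintype Δ] [DecidableEq Φ]
  [DecidableEq Δ] {c : CD L Φ Δ} {K : Type} [Field K] [CharZero K] {ζ : K}
  {J : Type} [Fintype J] [DecidableEq J] {s : J → K} {U : J → Submodule K (G L K)} {x x' : L}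

set_option linter.unusedSectionVars false

lemma av_eqv (h : T3a c ζ s) {f : LG L K} (hf : f ∈ c.Eqv ζ) :
    (c.BB K).constr K (bv c ζ) f = (c.ℓ : K) • f := by
  have e0 : ∀ (m : ℤ) (x : G L K), c.cc ζ x m =
      (∑ i ∈ Finset.range c.ℓ, ζ ^ ((i : ℤ) * m) • (c.sg K ^ i)) x := fun m x => by
    simp [CD.cc, LinearMap.sum_apply]
  have e1 : ∀ (m : ℤ) (x : G L K), (c.BB K).constr K (bv c ζ) (mon m x) = mon m (c.cc ζ x m) :=
    fun m x => by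
    have : (c.BB K).constr K (bv c ζ) ∘ₗ mon m =
        mon m ∘ₗ ∑ i ∈ Finset.range c.ℓ, ζ ^ ((i : ℤ) * m) • (c.sg K ^ i) :=
      (c.bs K).ext fun i => by
        rw [LinearMap.comp_apply, LinearMap.comp_apply, ← e0, ← c.BB_apply (m, i)]
        exact (c.BB K).constr_basis K _ (m, i)
    rw [e0]
    exact LinearMap.congr_fun this x
  obtain ⟨t, -, e⟩ := h.lp.sum_mon f
  conv_lhs => rw [e, map_sum]
  conv_rhs => rw [e, Finset.smul_sum]
  exact Finset.sum_congr rfl fun m _ => by rw [e1, h.eqv.avg f hf m, map_smul]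

lemma bv_eqv (h : T3a c ζ s) (a : ℤ × (Φ ⊕ Δ)) : bv c ζ a ∈ c.Eqv ζ := h.eqv.cc _ _

lemma bv_sup (h : T3a c ζ s) {z : L} (hz : c.Fix z) (a : ℤ × (Φ ⊕ Δ)) {P : Set ℚ}
    (hP : c.wt z a ∈ P) : bv c ζ a ∈ c.Sup z P :=
  c.Sup_mono (singleton_subset_iff.2 hP) (h.eqv.cc_sup z hz a)

lemma bv_in (h : T3a c ζ s) {S : Subring K} (hS : c.SD ζ S) (a : ℤ × (Φ ⊕ Δ)) :
    c.In S (bv c ζ a) :=
  (h.sup.in_mon S _ _ S.zero_mem).2 (h.eqv.cc_in S hS _ _ (h.gk.in_bs S _))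

lemma co_BB (a b : ℤ × (Φ ⊕ Δ)) : c.co a (c.BB K b) = if a = b then 1 else 0 := by
  simp [CD.co, Finsupp.single_apply, eq_comm]

lemma BB_sup (z : L) (a : ℤ × (Φ ⊕ Δ)) {P : Set ℚ} (hP : c.wt z a ∈ P) :
    c.BB K a ∈ c.Sup z P := fun b hb => by
  rw [co_BB] at hb
  split_ifs at hb with e
  · exact e ▸ hP
  · exact absurd rfl hb

lemma BB_in (S : Subring K) (a : ℤ × (Φ ⊕ Δ)) : c.In S (c.BB K a) := fun b => by
  rw [co_BB]
  split_ifs
  exacts [S.one_mem, S.zero_mem]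

lemma co_ne {f : LG L K} {a : ℤ × (Φ ⊕ Δ)} (ha : a ∈ ((c.BB K).repr f).support) :
    c.co a f ≠ 0 := by
  rw [c.co_repr]
  exact Finsupp.mem_support_iff.1 ha

lemma lin_sum (A : LG L K →ₗ[K] LG L K) (f : LG L K) :
    A f = ∑ a ∈ ((c.BB K).repr f).support, c.co a f • A (c.BB K a) := by
  conv_lhs => rw [← (c.BB K).linearCombination_repr f, Finsupp.linearCombination_apply,
    Finsupp.sum, map_sum]
  exact Finset.sum_congr rfl fun a _ => map_smul _ _ _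

lemma lin_mem (A : LG L K →ₗ[K] LG L K) (W : Submodule K (LG L K)) (f : LG L K)
    (h : ∀ a, c.co a f ≠ 0 → A (c.BB K a) ∈ W) : A f ∈ W := by
  rw [lin_sum (c := c)]
  exact Submodule.sum_mem _ fun a ha => Submodule.smul_mem _ _ (h a (co_ne ha))

/-- the section of the big cell -/
structure Sec (c : CD L Φ Δ) (ζ : K) (s : J → K) (U : J → Submodule K (G L K)) (x x' : L)
    (A : LG L K →ₗ[K] LG L K) : Prop where
  lat : ∀ f, A f ∈ Lat c ζ s U x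
  bas : ∀ a, A (c.BB K a) - bv c ζ a ∈ c.Sup x' (Iio (c.dg J : ℚ))
  eqv : ∀ e ∈ c.Eqv ζ, A e - (c.ℓ : K) • e ∈ c.Sup x' (Iio (c.dg J : ℚ))
  fix : ∀ f ∈ Lat c ζ s U x, A f = (c.ℓ : K) • f
  low : ∀ f ∈ c.Sup x' (Iio (c.dg J : ℚ)), A f = 0
  avg : ∀ a, A (bv c ζ a) = (c.ℓ : K) • A (c.BB K a)
  win : ∀ a, c.wt x a < 2 * c.dg J → A (c.BB K a) ∈ c.Win ζ s U x 0
  int : ∀ S : Subring K, c.SD ζ S → Gn c ζ s U x x' ⊆ S → ∀ a, c.wt x a < 2 * c.dg J →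
    c.In S (A (c.BB K a))
  gn : ∀ t, t ∈ Gn c ζ s U x x' ↔ ∃ a b, (c.dg J : ℚ) ≤ c.wt x' a ∧ c.wt x a < 2 * c.dg J ∧
    c.wt x' b < c.dg J ∧ t = c.co b (A (c.BB K a))

theorem big_sec (h : T3a c ζ s) (B : Big c ζ s U x x') : ∃ A, Sec c ζ s U x x' A := by
  have k : ∀ a, ∃ f ∈ Lat c ζ s U x, f - bv c ζ a ∈ c.Sup x' (Iio (c.dg J : ℚ)) := fun a => by
    by_cases e : c.wt x' a < c.dg J
    · exact ⟨0, zero_mem _, sub_mem (zero_mem _) (bv_sup h B.fix' a e)⟩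
    · exact B.ex _ (bv_eqv h a) (bv_sup h B.fix' a (not_lt.1 e))
  choose F F1 F2 using k
  obtain ⟨A, hA⟩ : ∃ A : LG L K →ₗ[K] LG L K, ∀ a, A (c.BB K a) = F a :=
    ⟨(c.BB K).constr K F, (c.BB K).constr_basis K F⟩
  have lat : ∀ f, A f ∈ Lat c ζ s U x := fun f => lin_mem A _ f fun a _ => hA a ▸ F1 a
  have eqv : ∀ e ∈ c.Eqv ζ, A e - (c.ℓ : K) • e ∈ c.Sup x' (Iio (c.dg J : ℚ)) := fun e he => by
    rw [← av_eqv h he]
    exact lin_mem (A - (c.BB K).constr K (bv c ζ)) _ e fun a _ => by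
      rw [LinearMap.sub_apply, hA, Module.Basis.constr_basis]
      exact F2 a
  have fix : ∀ f ∈ Lat c ζ s U x, A f = (c.ℓ : K) • f := fun f hf =>
    sub_eq_zero.1 (B.uniq _ (sub_mem (lat f) (Submodule.smul_mem _ _ hf)) (eqv f hf.1.1))
  have low : ∀ f ∈ c.Sup x' (Iio (c.dg J : ℚ)), A f = 0 := fun f hf =>
    lin_mem A ⊥ f fun a ha => by
      rw [hA]
      exact B.uniq _ (F1 a) (by simpa using add_mem (F2 a) (bv_sup h B.fix' a (hf a ha)))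
  refine ⟨A, lat, fun a => hA a ▸ F2 a, eqv, fix, low, fun a => ?_, fun a ha => ?_,
    fun S hS hG a ha b => ?_, fun t => ⟨?_, ?_⟩⟩
  · have := low _ (F2 a)
    rw [map_sub, fix _ (F1 a), sub_eq_zero] at this
    rw [hA, this]
  · rw [hA]
    have k1 := (h.sup.pr_wt x (Ici (2 * c.dg J : ℚ)) (F a - bv c ζ a))
    have k2 := h.sup.empty x' _ _ _ (B.hi _ (h.eqv.pr_wt x _ B.fix _
      (sub_mem (F1 a).1.1 (bv_eqv h a))) k1.1) (h.sup.pr_sup _ x' _ _ (F2 a))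
      fun p h1 h2 => not_le.2 (mem_Iio.1 h2) h1
    rw [k2, sub_zero, compl_Ici] at k1
    have k3 := add_mem k1.2 (bv_sup h B.fix a (P := Iio (2 * c.dg J : ℚ)) ha)
    rw [sub_add_cancel] at k3
    exact ⟨(F1 a).1, fun b hb => ⟨(F1 a).2 b hb, by simpa using k3 b hb⟩⟩
  · by_cases e : c.wt x' a < c.dg J
    · rw [low _ (BB_sup x' a e), map_zero]
      exact S.zero_mem
    rw [hA]
    by_cases e' : c.wt x' b < c.dg J
    · exact hG ⟨a, b, F a, not_lt.1 e, ha, e', F1 a, F2 a, rfl⟩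
    · have : c.co b (F a - bv c ζ a) = 0 := by_contra fun k => e' (F2 a b k)
      rw [map_sub, sub_eq_zero] at this
      rw [this]
      exact bv_in h hS a b
  · rintro ⟨a, b, f, h1, h2, h3, h4, h5, rfl⟩
    refine ⟨a, b, h1, h2, h3, ?_⟩
    rw [hA, sub_eq_zero.1 (B.uniq _ (sub_mem h4 (F1 a)) (by simpa using sub_mem h5 (F2 a)))]
  · rintro ⟨a, b, h1, h2, h3, rfl⟩
    exact ⟨a, b, _, h1, h2, h3, lat _, hA a ▸ F2 a, rfl⟩

lemma fin_wt (z : L) (r r' : ℚ) : {a : ℤ × (Φ ⊕ Δ) | c.wt z a ∈ Ico r r'}.Finite := by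
  refine (Set.finite_iUnion fun i : Φ ⊕ Δ =>
    (Set.finite_Icc ⌈r - c.wt0 z i⌉ ⌊r' - c.wt0 z i⌋).image fun m => (m, i)).subset ?_
  rintro ⟨m, i⟩ ⟨h1, h2⟩
  refine mem_iUnion.2 ⟨i, m, ⟨Int.ceil_le.2 ?_, Int.le_floor.2 ?_⟩, rfl⟩ <;>
    simp only [CD.wt] at h1 h2 <;> linarith

lemma sec_neg (h : T3a c ζ s) (B : Big c ζ s U x x') {A : LG L K →ₗ[K] LG L K}
    (hA : Sec c ζ s U x x' A) {a : ℤ × (Φ ⊕ Δ)} (h1 : (c.dg J : ℚ) ≤ c.wt x' a)
    (h2 : c.wt x a < 0) : A (c.BB K a) = 0 := by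
  have k := h.sup.empty x _ _ _ (B.lo _ (bv_eqv h a) (bv_sup h B.fix' a h1))
    (bv_sup h B.fix a (P := Iio 0) h2) fun p h1 h2 => not_le.2 (mem_Iio.1 h2) h1
  exact B.uniq _ (hA.lat _) (by simpa [k] using hA.bas a)

theorem gn_fin (h : T3a c ζ s) (B : Big c ζ s U x x') : (Gn c ζ s U x x').Finite := by
  obtain ⟨A, hA⟩ := big_sec h B
  refine (((fin_wt (c := c) x 0 (2 * c.dg J)).biUnion fun a _ =>
    (h.sup.fin (A (c.BB K a))).image fun b => c.co b (A (c.BB K a))).insert 0).subset fun t ht => ?_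
  obtain ⟨a, b, h1, h2, -, rfl⟩ := (hA.gn t).1 ht
  by_cases e : c.co b (A (c.BB K a)) = 0
  · exact Or.inl e
  · refine Or.inr (mem_biUnion ⟨not_lt.1 fun k => e ?_, h2⟩ ⟨b, e, rfl⟩)
    rw [sec_neg h B hA h1 k, map_zero]

lemma win_sum {A : LG L K →ₗ[K] LG L K} (hA : Sec c ζ s U x x' A) {f : LG L K}
    (hf : f ∈ Lat c ζ s U x) : f = ∑ a ∈ ((c.BB K).repr f).support,
      ((c.ℓ : K)⁻¹ * c.co a f) • A (c.BB K a) := by
  have hl : (c.ℓ : K) ≠ 0 := Nat.cast_ne_zero.2 c.ℓ_pos.ne'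
  simp only [mul_smul]
  rw [← Finset.smul_sum, ← lin_sum, hA.fix f hf, smul_smul, inv_mul_cancel₀ hl, one_smul]

lemma win_lat {f : LG L K} (hf : f ∈ c.Win ζ s U x 0) : f ∈ Lat c ζ s U x :=
  ⟨hf.1, c.Sup_mono Ico_subset_Ici_self hf.2⟩

theorem gn_spn (h : T3a c ζ s) (B : Big c ζ s U x x') {S : Subring K} {V : ValuationSubring K}
    (hle : ∀ γ ∈ S, γ ∈ V) (hS : c.SD ζ S) (hG : Gn c ζ s U x x' ⊆ S) : Spn c ζ s S V U x := by
  obtain ⟨A, hA⟩ := big_sec h B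
  intro f hf f1
  refine ⟨f, ?_, by simpa using (h.sup.in_add _ _ (SM.nonunits V)).1⟩
  rw [win_sum hA (win_lat hf)]
  refine Submodule.sum_mem _ fun a ha => ?_
  have k : c.wt x a < 2 * c.dg J := by simpa using (hf.2 a (co_ne ha)).2
  exact Submodule.smul_mem _ (⟨_, V.mul_mem _ _ (hle _ hS.2) (f1 a)⟩ : V.toSubring)
    (Submodule.subset_span ⟨hA.win a k, hA.int S hS hG a k⟩)

theorem gn_def0 (h : T3a c ζ s) (B : Big c ζ s U x x') (S : Subfield K) (hζ : ζ ∈ S)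
    (hs : ∀ j, s j ∈ S) (hG : Gn c ζ s U x x' ⊆ S) (j : J) : c.Def0 S (U j) := by
  obtain ⟨A, hA⟩ := big_sec h B
  intro u hu
  obtain ⟨f, he, hsup, hev, -⟩ := h.int.int2 x 0 (Pi.single j u) 0 B.fix
  have hf : f ∈ c.Win ζ s U x 0 := by
    refine ⟨⟨he, fun i => ⟨?_, fun y _ => ?_⟩⟩, hsup⟩
    · rw [(hev i).1]
      by_cases e : i = j
      · subst e
        rwa [Pi.single_eq_same]
      · rw [Pi.single_eq_of_ne e]
        exact zero_mem _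
    · rw [(hev i).2]
      simp
  have e := (hev j).1
  rw [Pi.single_eq_same, win_sum hA (win_lat hf), map_sum] at e
  rw [← e]
  refine Submodule.sum_mem _ fun a ha => ?_
  have k : c.wt x a < 2 * c.dg J := by simpa using (hf.2 a (co_ne ha)).2
  rw [map_smul]
  exact Submodule.smul_mem _ _ (Submodule.subset_span ⟨((hA.lat _).1.2 j).1,
    h.sup.in_ev S.toSubring S (s j) _ (SM.self S.toSubring) (hs j) (S.inv_mem (hs j))
      (hA.int S.toSubring ⟨hζ, S.inv_mem (natCast_mem S _)⟩ hG a k)⟩)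

theorem gn_sub (h : T3a c ζ s) (B : Big c ζ s U x x') {S : Subring K} {V : ValuationSubring K}
    (hD : Dom S V) (hS : c.SD ζ S) (hG : Gn c ζ s U x x' ⊆ V) (hap : Spn c ζ s S V U x) :
    Gn c ζ s U x x' ⊆ S := by
  obtain ⟨A, hA⟩ := big_sec h B
  have hl : (c.ℓ : K) ≠ 0 := Nat.cast_ne_zero.2 c.ℓ_pos.ne'
  obtain ⟨-, aS, sS, -, tS⟩ := h.sup.in_add S S (SM.self S)
  let I := {a : ℤ × (Φ ⊕ Δ) | c.wt x a ∈ Ico (0 : ℚ) (2 * c.dg J) ∧ (c.dg J : ℚ) ≤ c.wt x' a}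
  have : Fintype I := ((fin_wt (c := c) x 0 (2 * c.dg J)).subset fun _ h => h.1).fintype
  let w : {w | w ∈ c.Win ζ s U x 0 ∧ c.In S w} ⊕ I → LG L K :=
    Sum.elim Subtype.val fun a => c.BB K a.1 - (c.ℓ : K)⁻¹ • bv c ζ a.1
  have key := h.resd.resd (ι := I) V S (fun k a => c.co a.1 (w k)) hD (by
      rintro (k | k) a
      · exact k.2.2 a.1
      · exact (aS _ _ (BB_in S _) (sS _ _ hS.2 (bv_in h hS _))).2 a.1) (fun b => by
      obtain ⟨g, hg, hm⟩ := hap _ (hA.win b.1 b.2.1.2)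
        (hA.int V.toSubring ⟨hD.le _ hS.1, hD.le _ hS.2⟩ hG b.1 b.2.1.2)
      obtain ⟨l, rfl⟩ := (Finsupp.mem_span_iff_linearCombination _ _ _).1 hg
      refine ⟨l.support.disjSum {b}, Sum.elim (fun k => (c.ℓ : K)⁻¹ * (l k : K)) 1, ?_, fun a => ?_⟩
      · rintro (k | k)
        exacts [V.mul_mem _ _ (hD.le _ hS.2) (l k).2, V.one_mem]
      have k1 := (SM.nonunits V).mul _ (V.neg_mem _ (hD.le _ hS.2)) _ (hm a.1)
      have k2 : c.co a.1 (A (c.BB K b.1) - bv c ζ b.1) = 0 :=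
        by_contra fun k => absurd a.2.2 (not_le.2 (hA.bas b.1 a.1 k))
      rw [map_sub, sub_eq_zero] at k2
      rw [map_sub, k2, Finsupp.linearCombination_apply, Finsupp.sum, map_sum,
        Finset.sum_congr rfl fun k _ => (show c.co a.1 (l k • k.1) = (l k : K) * c.co a.1 k.1 from
          map_smul (c.co a.1) (l k : K) k.1)] at k1
      have e : ∑ k ∈ l.support.disjSum {b}, Sum.elim (fun k => (c.ℓ : K)⁻¹ * (l k : K)) 1 k *
          c.co a.1 (w k) - (if a = b then 1 else 0) = -(c.ℓ : K)⁻¹ *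
            (c.co a.1 (bv c ζ b.1) - ∑ k ∈ l.support, (l k : K) * c.co a.1 k.1) := by
        rw [Finset.sum_disjSum, Finset.sum_singleton]
        simp only [w, Sum.elim_inl, Sum.elim_inr, Pi.one_apply, map_sub, map_smul, co_BB,
          Subtype.ext_iff, smul_eq_mul, mul_assoc, ← Finset.mul_sum]
        ring
      rw [e]
      exact k1)
  intro t ht
  obtain ⟨b, b', h1, h2, -, rfl⟩ := (hA.gn t).1 ht
  by_cases h3 : c.wt x b < 0
  · rw [sec_neg h B hA h1 h3, map_zero]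
    exact S.zero_mem
  obtain ⟨T, q, hq, e⟩ := key ⟨b, ⟨not_lt.1 h3, h2⟩, h1⟩
  have k1 : ∑ k ∈ T, q k • w k - c.BB K b ∈ c.Sup x (Ico (0 : ℚ) (2 * c.dg J)) := by
    refine sub_mem (Submodule.sum_mem _ fun k _ => Submodule.smul_mem _ _ ?_)
      (BB_sup x b ⟨not_lt.1 h3, h2⟩)
    rcases k with k | k
    · simpa [w] using k.2.1.2
    · exact sub_mem (BB_sup x _ k.2.1) (Submodule.smul_mem _ _ (bv_sup h B.fix _ k.2.1))
  have k2 := hA.low (∑ k ∈ T, q k • w k - c.BB K b) fun a ha => not_le.1 fun k => ha (by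
    have := e ⟨a, k1 a ha, k⟩
    simp only [Subtype.ext_iff] at this
    rw [map_sub, co_BB, map_sum, ← this, sub_eq_zero]
    exact Finset.sum_congr rfl fun k _ => map_smul _ _ _)
  rw [map_sub, sub_eq_zero, map_sum] at k2
  rw [← k2]
  refine tS T _ (fun k _ => ?_) b'
  rw [map_smul]
  refine sS _ _ (hq k) ?_
  rcases k with k | k
  · change c.In S (A k.1)
    rw [hA.fix _ (win_lat k.2.1)]
    exact sS _ _ (natCast_mem S _) k.2.2
  · change c.In S (A (_ - _))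
    rw [map_sub, map_smul, hA.avg, smul_smul, inv_mul_cancel₀ hl, one_smul, sub_self]
    exact (h.sup.in_add S S (SM.self S)).1

theorem gn_crd {O : Type} [CommRing O] [Algebra O K] {ζ : O} {κ σ : J → O} {s u : K}
    (hO : c.OD ζ σ) (hp : c.Pt (algebraMap O K ζ) (lg κ σ s u))
    (B : Big c (algebraMap O K ζ) (lg κ σ s u) U x x') :
    Crd c ζ κ σ s u U x (Gn c (algebraMap O K ζ) (lg κ σ s u) U x x') :=
  ⟨fun _ _ h1 h2 _ _ h3 => gn_spn (t3a c _ _ hp) B h1.le (VertA.sd hO h2) h3,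
    fun _ _ h1 h2 _ _ h3 h4 => gn_sub (t3a c _ _ hp) B h1 (VertA.sd hO h2) h3 h4⟩

end Pool.Agent.P.MP_e7d440_ag.Z
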