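import Pool.Agent.P.MP_e7d440_ag.Z.BaseH3

/-! The volume form in a big cell, integrally. -/

namespace Pool.Agent.P.MP_e7d440_ag.Z

open TensorProduct LieAlgebra LaurentPolynomial Set U DetA

variable {L Φ Δ : Type} [LieRing L] [LieAlgebra ℚ L] [Fintype Φ] [Fintype Δ] [DecidableEq Φ]
  [DecidableEq Δ] {c : CD L Φ Δ} {K : Type} [Field K] [CharZero K] {ζ : K}
  {J : Type} [Fintype J] [DecidableEq J] {s : J → K}

theorem horwp (hp : c.Pt ζ s) {O : Type} [CommRing O] [Algebra O K] {d : ℕ}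
    (D : Fin d → Derivation O K K) (ν : ℚ) {lam : J → L} (X : c.Id lam → K)
    (e : Fin d ≃ c.Id lam) (S : Subring K) (hmin : ∀ j, c.Min (lam j))
    (hvol : c.Vol ζ s D (c.cell lam X) ν) (hS : c.HP ζ s S) (hX : ∀ p, X p ∈ S) :
    ∃ w ∈ S, wr D (fun k => X (e k)) ^ 2 * ν = w * (c.cnu lam : ℚ) := by
  have h := t3a c ζ s hp
  obtain ⟨x, hx⟩ : ∃ x : Fin d → J → G L K, ∀ k j,
    x k j = if (e k).1.1 = j then c.bs K (.inl (c.neg (e k).1.2)) else 0 := ⟨_, fun _ _ => rfl⟩
  obtain ⟨u, hu⟩ : ∃ u : Fin d → J → G L K, ∀ k j,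
    u k j = if (e k).1.1 = j then c.bs K (.inl (e k).1.2) else 0 := ⟨_, fun _ _ => rfl⟩
  have hxn : ∀ k j, Nil (x k j) := fun k j => by
    rw [hx]
    split_ifs
    · have := h.gk.nil_e (1 : K) (c.neg (e k).1.2)
      rwa [one_smul] at this
    · exact h.ex.zero.1
  have hyn : ∀ j k, Nil (X (e k) • x k j) := fun j k => h.ex.nil_smul _ _ (hxn k j)
  have hxg : ∀ j k, X (e k) • x k j ∈ c.Gr (lam j) {-1} := fun j k => by
    refine Submodule.smul_mem _ _ ?_
    rw [hx]
    split_ifs with h1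
    · refine h.gk.gr_bs _ _ _ ?_
      have h2 := (e k).2
      rw [h1] at h2
      change c.al _ _ = -1
      rw [c.al_neg, LinearMap.neg_apply, h2]
    · exact zero_mem _
  have hug : ∀ k j, u k j ∈ c.U1 K (lam j) := fun k j => by
    rw [hu]
    split_ifs with h1
    · refine h.gk.gr_bs _ _ _ ?_
      have h2 := (e k).2
      rw [h1] at h2
      exact h2
    · exact zero_mem _
  have hi0 : c.In0 S (0 : G L K) := fun i => by rw [map_zero]; exact S.zero_mem
  have hpf : ∀ j, pf (fun k => X (e k) • x k j) 0 = ex (c.nX lam X j) := fun j => by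
    simp only [hx]
    rw [← h.cell.prod lam X e j (hmin j)]
  have n0 := fun j => h.fd.nX lam X j
  have n2 := in_nX h.toT1 hX
  have hin : ∀ k j, c.In0 S (pf (fun k => X (e k) • x k j) 0 (u k j)) := fun k j => by
    rw [hpf]
    refine in_exn h.toT1 (SM.self S) (hmin j) (n0 j).1 (n2 j) ?_
    rw [hu]
    split_ifs
    · exact h.gk.in_bs S _
    · exact hi0
  choose f hf1 hf2 hf3 hf4 using fun k => int1p h c.ρ 0
    (fun j => pf (fun k => X (e k) • x k j) 0 (u k j)) c.fix_ρ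
  have hV := hvol x (fun k => X (e k)) lam u f hmin (fun k j => ⟨hxn k j, fun i => by
      rw [hx]
      split_ifs
      · rw [c.bs_apply]
        exact (h.gk.der_lie _ (dA_mul (D i))).2.2 _
      · exact map_zero _⟩)
    (fun j => by rw [hpf]; rfl) hug fun k => ⟨hf1 k, by simpa only [zero_add] using hf2 k, hf3 k⟩
  have hP : (Matrix.of fun k l => c.PP s x (fun k => X (e k)) l (u k)) =
      Matrix.diagonal fun k => c.vp s (e k).1.1 * (c.kap (e k).1.2 : K) := by
    ext k l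
    rw [Matrix.of_apply, CD.PP, CD.pair, Finset.sum_eq_single (e l).1.1]
    · have h1 := pf_low h (lam (e l).1.1) _ (l + 1) (hyn _) (hxg _) (u k _)
        fun i hi => (hug k _ i hi).le
      have h2 : c.crd (.inl (e l).1.2) (pf (fun k => X (e k) • x k (e l).1.1) (l + 1)
          (u k (e l).1.1)) = c.crd (.inl (e l).1.2) (u k (e l).1.1) := by
        rw [← sub_eq_zero, ← map_sub]
        by_contra h3
        exact (h1 _ h3).ne (e l).2
      rw [hx l, if_pos rfl, h.gk.kR_e, h2, hu, Matrix.diagonal_apply]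
      by_cases h3 : k = l
      · subst h3
        rw [if_pos rfl, if_pos rfl, h.gk.crd_bs, if_pos rfl, Rat.smul_one_eq_cast]
      · rw [if_neg h3]
        split_ifs with h4
        · rw [h.gk.crd_bs, if_neg, smul_zero, mul_zero]
          exact fun h5 => h3 (e.injective (Subtype.ext (Prod.ext h4 (Sum.inl.inj h5))))
        · rw [map_zero, smul_zero, mul_zero]
    · intro j _ hj
      rw [hx, if_neg hj.symm, map_zero, LinearMap.zero_apply, mul_zero]
    · exact fun h1 => absurd (Finset.mem_univ _) h1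
  let M : Matrix (Fin d) (Fin d) K := Matrix.of fun k l => c.crd (.inl (c.neg (e l).1.2))
    (ex (-c.nX lam X (e l).1.1) (ev (s (e l).1.1) (dd (f k))))
  have hM := det_mem S M fun k l => in_exn h.toT1 (SM.self S) (hmin _) (neg_mem (n0 _).1)
    (fun i => by rw [map_neg]; exact neg_mem (n2 _ i)) (h.sup.in_ev S S _ _ (SM.self S)
      (hS.mem _) (hS.inv _) (h.sup.in_dd S S _ (SM.self S) (hf4 k S hS (hin k)))) _
  have hB : (Matrix.of fun k l => c.BF s (f k) fun j => pf (fun k => X (e k) • x k j) 0 (u l j)) =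
      M * Matrix.diagonal fun k => c.vp s (e k).1.1 ^ 2 * (c.kap (e k).1.2 : K) := by
    ext k l
    rw [Matrix.of_apply, Matrix.mul_diagonal, CD.BF, Finset.sum_eq_single (e l).1.1]
    · have h1 := h.gk.kR_e (c.neg (e l).1.2)
        (ex (-c.nX lam X (e l).1.1) (ev (s (e l).1.1) (dd (f k))))
      rw [h.cd.neg_neg, h.cd.kap_neg, h.gk.symm, ← (h.ex.a0 _ (n0 (e l).1.1).2.1).form,
        ← Module.End.mul_apply, (h.ex.inv _ (n0 _).2.1).1, Module.End.one_apply] at h1
      rw [hpf, hu, if_pos rfl, h1, Rat.smul_def]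
      simp only [M, Matrix.of_apply]
      ring
    · intro j _ hj
      rw [hu, if_neg hj.symm, map_zero, map_zero, mul_zero]
    · exact fun h1 => absurd (Finset.mem_univ _) h1
  rw [hB, hP, Matrix.det_mul, Matrix.det_diagonal, Matrix.det_diagonal] at hV
  have hl : (c.ℓ : K) ≠ 0 := by exact_mod_cast c.ℓ_pos.ne'
  have hk : ∀ α, (c.kap α : K) ≠ 0 := fun k => by exact_mod_cast (h.cd.kap_pos _).ne'
  refine ⟨M.det * ∏ k, -((c.per (e k).1.2 : K) * (c.th (e k).1.2 : K)⁻¹), S.mul_mem hM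
    (S.prod_mem fun k _ => S.neg_mem (S.mul_mem (natCast_mem S _) (h.rt1.sd_th S hS.sd _).2)), ?_⟩
  have h4 : ∏ k, c.vp s (e k).1.1 ^ 2 * (c.kap (e k).1.2 : K) ≠ 0 :=
    Finset.prod_ne_zero_iff.2 fun k _ => mul_ne_zero (pow_ne_zero _ (h.div.vp_ne _)) (hk _)
  have h5 : (-(c.ℓ : K) / 2) ^ d * (∏ k, c.vp s (e k).1.1 * (c.kap (e k).1.2 : K)) ^ 2 *
      ((∏ k, -((c.per (e k).1.2 : K) * (c.th (e k).1.2 : K)⁻¹)) * (c.cnu lam : ℚ)) =
      ∏ k, c.vp s (e k).1.1 ^ 2 * (c.kap (e k).1.2 : K) := by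
    rw [CD.cnu, ← e.prod_comp, Rat.cast_prod, ← Finset.prod_pow, ← Finset.prod_mul_distrib,
      mul_assoc, ← Finset.prod_mul_distrib, ← Fin.prod_const, ← Finset.prod_mul_distrib]
    refine Finset.prod_congr rfl fun k _ => ?_
    obtain ⟨-, a2, -, a4⟩ := h.rt1.th_ne (e k).1.2
    have a5 := hk (e k).1.2
    simp only [CD.th, CD.kp]
    push_cast
    field_simp
  refine mul_right_cancel₀ h4 ?_
  rw [mul_assoc M.det, mul_right_comm M.det, hV, ← h5]
  ring

end Pool.Agent.P.MP_e7d440_ag.Z
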