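import Pool.Agent.P.MP_e7d440_ag.U.All
import Pool.Agent.P.MP_e7d440_ag.Z.BaseG

/-! Interpolation over rings in which the legs are units with unit differences. -/

namespace Pool.Agent.P.MP_e7d440_ag.U.CD

variable {L Φ Δ : Type} [LieRing L] [LieAlgebra ℚ L] [Fintype Φ] [Fintype Δ] [DecidableEq Φ]
  [DecidableEq Δ] (c : CD L Φ Δ) {K : Type} [Field K] [CharZero K] {J : Type} [Fintype J]
  [DecidableEq J]

/-- a subring in which the legs are units with unit differences -/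
abbrev HP (ζ : K) (s : J → K) (S : Subring K) : Prop := Z.HP c ζ s S

/-- modulo the maximal ideal of `V` the integral part of the window is spanned by loops with
coordinates in `S` -/
abbrev Spn (ζ : K) (s : J → K) (S : Subring K) (V : ValuationSubring K)
    (U : J → Submodule K (G L K)) (x : L) : Prop := Z.Spn c ζ s S V U x

end Pool.Agent.P.MP_e7d440_ag.U.CD

namespace Pool.Agent.P.MP_e7d440_ag.Z

open TensorProduct LieAlgebra LaurentPolynomial Set U

variable {L Φ Δ : Type} [LieRing L] [LieAlgebra ℚ L] [Fintype Φ] [Fintype Δ] [DecidableEq Φ]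
  [DecidableEq Δ] {c : CD L Φ Δ} {K : Type} [Field K] [CharZero K] {ζ : K}
  {J : Type} [Fintype J] [DecidableEq J] {s : J → K}

set_option linter.unusedSectionVars false

theorem hp_mono {S S' : Subring K} (h : c.HP ζ s S) (hle : ∀ γ ∈ S, γ ∈ S') : c.HP ζ s S' :=
  ⟨⟨hle _ h.sd.1, hle _ h.sd.2⟩, fun j => hle _ (h.mem j), fun j => hle _ (h.inv j),
    fun i j => hle _ (h.inv' i j)⟩

theorem hp_vp {S : Subring K} (hS : c.HP ζ s S) (j : J) : c.vp s j ∈ S ∧ (c.vp s j)⁻¹ ∈ S := by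
  constructor
  · rw [CD.vp, mul_inv, ← inv_pow, ← Finset.prod_inv_distrib]
    exact mul_mem (pow_mem (hS.inv j) _) (prod_mem fun i _ => hS.inv' j i)
  · rw [CD.vp, inv_inv]
    exact mul_mem (pow_mem (hS.mem j) _)
      (prod_mem fun i _ => sub_mem (pow_mem (hS.mem j) _) (pow_mem (hS.mem i) _))

open IntA in
theorem int0p (h : T3a c ζ s) (x : L) (r : ℚ) (m : J → G L K) :
    ∃ f ∈ c.Eqv ζ, f ∈ c.Sup x (Ici r) ∧ (∀ j, ev (s j) f = m j) ∧
      ∀ S : Subring K, c.HP ζ s S → (∀ j, c.In0 S (m j)) → c.In S f := by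
  have hp := h.pt
  choose Y hY hYe hYi using fun j => h.eqv.surj (s j) (hp.ne j) (m j)
  let Z : J → LG L K := fun j => (∏ i ∈ Finset.univ.erase j, fac c s j i) • Y j
  have hZ : ∀ j, Z j ∈ c.Eqv ζ := fun j =>
    prod_ind (· ∈ c.Eqv ζ) _ _ (fun i _ f hf => by
      rw [fac_smul c ζ s h.toT2]
      exact Submodule.smul_mem _ _ (sub_mem ((h.eqv.T_iff _ f dvd_rfl).2 hf)
        (Submodule.smul_mem _ _ hf))) _ (hY j)
  choose lo hi hb using fun j => h.sup.bdd x (Z j)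
  choose N hN using fun j => exists_nat_ge (r - lo j)
  refine ⟨∑ j, (s j ^ (-((c.ℓ : ℤ) * N j))) • ((T ((c.ℓ : ℤ) * N j) : LP K) • Z j),
    Submodule.sum_mem _ fun j _ => Submodule.smul_mem _ _
      ((h.eqv.T_iff _ _ (dvd_mul_right _ _)).2 (hZ j)),
    Submodule.sum_mem _ fun j _ => Submodule.smul_mem _ _ ?_, fun k => ?_, fun S hS hm => ?_⟩
  · rw [h.sup.sup_T]
    refine c.Sup_mono (fun q hq => ?_) (hb j)
    have h1 : (1 : ℚ) ≤ c.ℓ := by exact_mod_cast c.ℓ_pos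
    have h2 : (0 : ℚ) ≤ N j := Nat.cast_nonneg _
    have h3 := hN j
    have h4 := hq.1
    simp only [mem_ofPred_eq, mem_Ici]
    push_cast
    nlinarith
  · rw [map_sum, Finset.sum_eq_single k]
    · rw [map_smul, h.lp.ev_smul _ (hp.ne k), h.lp.ev_smul _ (hp.ne k),
        ev_prod c ζ s h.toT2 hp, if_pos rfl, one_smul, evL_T, smul_smul, ← zpow_add₀ (hp.ne k),
        neg_add_cancel, zpow_zero, one_smul, hYe]
    · intro j _ hj
      rw [map_smul, h.lp.ev_smul _ (hp.ne k), h.lp.ev_smul _ (hp.ne k),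
        ev_prod c ζ s h.toT2 hp, if_neg hj, zero_smul, smul_zero, smul_zero]
    · intro hk
      exact absurd (Finset.mem_univ k) hk
  · obtain ⟨-, h1, h2, -, h4⟩ := h.sup.in_add S S (SM.self S)
    refine h4 _ _ fun j _ => h2 _ _ ?_ ((h.sup.in_T _ _ _).2 ?_)
    · rw [← Nat.cast_mul, zpow_neg, zpow_natCast, ← inv_pow]
      exact S.pow_mem (hS.inv j) _
    · refine prod_ind (c.In (S : Set K)) _ _ (fun i _ f hf => ?_) _
        (hYi j S hS.sd (hS.inv j) (hm j))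
      rw [fac_smul c ζ s h.toT2]
      exact h2 _ _ (hS.inv' j i) (h1 _ _ ((h.sup.in_T _ _ _).2 hf)
        (h2 _ _ (S.pow_mem (hS.mem i) _) hf)).2

theorem int1p (h : T3a c ζ s) (x : L) (r : ℚ) (m : J → G L K) (hx : c.Fix x) :
    ∃ f ∈ c.Eqv ζ, f ∈ c.Sup x (Ico r (r + c.dg J)) ∧ (∀ j, ev (s j) f = m j) ∧
      ∀ S : Subring K, c.HP ζ s S → (∀ j, c.In0 S (m j)) → c.In S f := by
  have hd := h.div
  obtain ⟨f, hf, hfs, hfe, hfi⟩ := int0p h x r m
  obtain ⟨q, -, hq1, hq2, hq3⟩ := hd.div (c.phi s) (c.dg J) x r f hd.mon hfs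
  refine ⟨f - c.phi s • q, sub_mem hf (h.eqv.smul _ (fun n hn => (hd.mon.1 n hn).2.2) _
    (hq2 hx hf)), hq1, fun j => by rw [map_sub, hfe, (hd.ev_smul q j).1, sub_zero],
    fun S hS hm => ?_⟩
  have h1 := (hd.phi_int S hS.mem).1
  exact ((h.sup.in_add S S (SM.self S)).2.1 _ _ (hfi S hS hm)
    ((h.sup.in_smul S S _ q (SM.self S)).1 h1 (hq3 S S (SM.self S) h1 (hfi S hS hm)))).2

theorem int2s (h : T3a c ζ s) (x : L) (r : ℚ) (m w : J → G L K) (hx : c.Fix x) :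
    ∃ f ∈ c.Eqv ζ, f ∈ c.Sup x (Ico r (r + 2 * c.dg J)) ∧
      (∀ j, ev (s j) f = m j ∧ ev (s j) (dd f) = w j) ∧
      ∀ S : Subring K, c.HP ζ s S → (∀ j, c.In0 S (m j) ∧ c.In0 S (w j)) → c.In S f := by
  have hd := h.div
  obtain ⟨f, hf, hfs, hfe, hfi⟩ := int1p h x r m hx
  obtain ⟨g, hg, hgs, hge, hgi⟩ := int1p h x r
    (fun j => ((c.ℓ : K)⁻¹ * c.vp s j) • (w j - ev (s j) (dd f))) hx
  have h0 : (0 : ℚ) ≤ c.dg J := Nat.cast_nonneg _
  have hl : (c.ℓ : K) ≠ 0 := by exact_mod_cast c.ℓ_pos.ne'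
  refine ⟨f + c.phi s • g, add_mem hf (h.eqv.smul _ (fun n hn => (hd.mon.1 n hn).2.2) _ hg),
    add_mem (c.Sup_mono (Ico_subset_Ico_right (by linarith)) hfs)
      (h.sup.smul x _ _ _ g hgs fun n hn q hq => ?_), fun j => ⟨?_, ?_⟩, fun S hS hm => ?_⟩
  · obtain ⟨h1, h2, -⟩ := hd.mon.1 n hn
    have h3 : (0 : ℚ) ≤ n := by exact_mod_cast h1
    have h4 : (n : ℚ) ≤ c.dg J := by exact_mod_cast h2
    exact ⟨by linarith [hq.1], by linarith [hq.2]⟩
  · rw [map_add, hfe, (hd.ev_smul g j).1, add_zero]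
  · have := hd.vp_ne j
    rw [map_add, map_add, (hd.ev_smul g j).2, hge, smul_smul,
      show (c.ℓ : K) * (c.vp s j)⁻¹ * ((c.ℓ : K)⁻¹ * c.vp s j) = 1 by field_simp, one_smul,
      add_sub_cancel]
  · have h1 := hfi S hS fun j => (hm j).1
    have h2 := hgi S hS fun j i => by
      rw [map_smul, map_sub, smul_eq_mul]
      exact S.mul_mem (S.mul_mem hS.sd.2 (hp_vp hS j).1) (S.sub_mem ((hm j).2 i)
        (h.sup.in_ev S S _ _ (SM.self S) (hS.mem j) (hS.inv j)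
          (h.sup.in_dd S S f (SM.self S) h1) i))
    exact ((h.sup.in_add S S (SM.self S)).2.1 _ _ h1
      ((h.sup.in_smul S S _ g (SM.self S)).1 (hd.phi_int S hS.mem).1 h2)).1

/-- A loop of the window is integral as soon as its first order jets at the legs are. -/
theorem in_of_ev (h : T3a c ζ s) {x : L} {r : ℚ} (hx : c.Fix x) {S : Subring K} {M : Set K}
    (hS : c.HP ζ s S) (hM : SM S M) {f : LG L K} (h1 : f ∈ c.Eqv ζ)
    (h2 : f ∈ c.Sup x (Ico r (r + 2 * c.dg J)))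
    (h3 : ∀ j, c.In0 M (ev (s j) f) ∧ c.In0 M (ev (s j) (dd f))) : c.In M f := by
  choose I I1 I2 I3 I4 using fun m w => int2s h x r m w hx
  have n7 : ∀ (v : J → G L K) i, ∑ j, ∑ k, c.crd k (v j) •
      (Pi.single j (c.bs K k) : J → G L K) i = v i := fun v i => by
    rw [Finset.sum_eq_single i (fun j _ e => by simp [e.symm]) (by simp)]
    simp only [Pi.single_eq_same, c.crd_eq, Module.Basis.sum_repr]
  have z0 : c.In0 S (0 : G L K) := fun a => by simp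
  have e : f = ∑ j, ∑ k, (c.crd k (ev (s j) f) • I (Pi.single j (c.bs K k)) 0 +
      c.crd k (ev (s j) (dd f)) • I 0 (Pi.single j (c.bs K k))) :=
    sub_eq_zero.1 (h.int.uniq2 x r _
      (sub_mem h1 (sum_mem fun j _ => sum_mem fun k _ =>
        add_mem (Submodule.smul_mem _ _ (I1 _ _)) (Submodule.smul_mem _ _ (I1 _ _))))
      (sub_mem h2 (sum_mem fun j _ => sum_mem fun k _ =>
        add_mem (Submodule.smul_mem _ _ (I2 _ _)) (Submodule.smul_mem _ _ (I2 _ _)))) fun i => by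
      simp only [map_sub, map_sum, map_add, map_smul, I3, Pi.zero_apply, smul_zero, add_zero,
        zero_add, n7 fun j => ev (s j) f, n7 fun j => ev (s j) (dd f), sub_self, and_self])
  obtain ⟨-, a1, -, a3, a4⟩ := h.sup.in_add S M hM
  rw [e]
  exact a4 _ _ fun j _ => a4 _ _ fun k _ => (a1 _ _
    (a3 _ _ ((h3 j).1 k) (I4 _ _ S hS fun i => ⟨Top2A.in_single (h.gk.in_bs S k) j i, z0⟩))
    (a3 _ _ ((h3 j).2 k) (I4 _ _ S hS fun i => ⟨z0, Top2A.in_single (h.gk.in_bs S k) j i⟩))).1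

theorem int2p (h : T3a c ζ s) (x : L) (r : ℚ) (m w : J → G L K) (hx : c.Fix x) :
    ∃ f ∈ c.Eqv ζ, f ∈ c.Sup x (Ico r (r + 2 * c.dg J)) ∧
      (∀ j, ev (s j) f = m j ∧ ev (s j) (dd f) = w j) ∧
      ∀ (S : Subring K) (M : Set K), c.HP ζ s S → SM S M →
        (∀ j, c.In0 M (m j) ∧ c.In0 M (w j)) → c.In M f := by
  obtain ⟨f, h1, h2, h3, -⟩ := h.int.int2 x r m w hx
  exact ⟨f, h1, h2, h3, fun S M hS hM h4 => in_of_ev h hx hS hM h1 h2 fun j => by
    rw [(h3 j).1, (h3 j).2]; exact h4 j⟩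

/-- The exponential of an integral element of the opposite nilradical preserves integrality. -/
theorem in_exn (h : T1 c K) {S : Subring K} {M : Set K} (hM : SM S M) {lam : L} (hl : c.Min lam)
    {n : G L K} (hn : n ∈ c.Gr lam {-1}) (hi : c.In0 S n) {y : G L K} (hy : c.In0 M y) :
    c.In0 M (ex n y) := by
  obtain ⟨X, hX⟩ := h.fd.nX_of (J := Unit) (fun _ => lam) (fun _ => n) fun _ => hn
  have hXS : ∀ p, X p ∈ S := fun p => by
    rw [← (h.fd.nX (fun _ : Unit => lam) X ()).2.2 p rfl, hX]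
    exact hi _
  let e := (Fintype.equivFin (c.Id fun _ : Unit => lam)).symm
  rw [← hX (), h.cell.prod _ X e () hl]
  refine h.ex.pf_ind _ 0 (fun g => ∀ y, c.In0 M y → c.In0 M (g y)) (fun y hy => hy)
    (fun g g' a1 a2 y hy => a1 _ (a2 y hy)) (fun i _ y hy => ?_) y hy
  rw [if_pos rfl]
  exact (h.ex.in_e S M _ _ y hM).1 (hXS _) hy

theorem in_nX (h : T1 c K) {S : Subring K} {lam : J → L} {X : c.Id lam → K} (hX : ∀ p, X p ∈ S)
    (j : J) : c.In0 S (c.nX lam X j) :=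
  Top2A.in_sum _ fun p _ => Top2A.in_smul (hX p) (h.gk.in_bs S _)

end Pool.Agent.P.MP_e7d440_ag.Z
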