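import Pool.Agent.P.MP_e7d440_ag.Z.BaseH1

/-! Every point of the flag variety with values in a valuation ring of rank one lies in a big
cell, in any residue characteristic. -/

namespace Pool.Agent.P.MP_e7d440_ag.Z

open TensorProduct LieAlgebra LaurentPolynomial Set U

variable {L Φ Δ : Type} [LieRing L] [LieAlgebra ℚ L] [Fintype Φ] [Fintype Δ] [DecidableEq Φ]
  [DecidableEq Δ] {c : CD L Φ Δ} {K : Type} [Field K] [CharZero K] {ζ : K}
  {J : Type} [Fintype J] [DecidableEq J] {s : J → K}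

set_option linter.unusedSectionVars false

/-- `u` raises the weights of `z` -/
def Up (c : CD L Φ Δ) (z : L) (u : Op L K) : Prop :=
  ∀ r, ∀ f ∈ c.Sup z (Ici r), u f - f ∈ c.Sup z (Ioi r)

theorem up_pE (h : T3a c ζ s) {z : L} (hz : c.Fix z) {n : ℕ} (a : Fin n → Φ × ℤ) (y : Fin n → K)
    (ha : ∀ k, 0 < c.val (a k) z) : Up c z (c.pE ζ a y) := by
  refine h.ex.pf_ind _ 0 (Up c z) (fun r f _ => by simp) (fun g g' a1 a2 r f hf => ?_)
    fun i _ r f hf => (h.sup.ex_ge z r _ f (h.rt1.nil _ _) hf).2 (Submodule.smul_mem _ _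
      (c.Sup_mono (singleton_subset_iff.2 (ha i)) (h.rt1.sup _ z hz)))
  have b1 := a2 r f hf
  have b2 := a1 r (g' f) (by simpa using add_mem (c.Sup_mono Ioi_subset_Ici_self b1) hf)
  simpa using add_mem b2 b1

theorem low1 (h : T3a c ζ s) {V : ValuationSubring K} {z : L} (hz : c.Fix z) {u : Op L K}
    (hu : Up c z u) (hi : c.IntE ζ V.nonunits u) {f f₀ : LG L K} (h0 : f₀ ∈ c.Eqv ζ)
    (h1 : c.In V.nonunits (f - u f₀)) {a : ℤ × (Φ ⊕ Δ)}
    (h2 : ∀ a', c.wt z a' < c.wt z a → c.co a' f₀ ∈ V.nonunits) :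
    c.co a f - c.co a f₀ ∈ V.nonunits := by
  set f₁ := c.pr (fun a' => c.wt z a' ∈ Ici (c.wt z a)) f₀ with hf₁
  have e1 : f₁ ∈ c.Eqv ζ := h.eqv.pr_wt z _ hz f₀ h0
  have e2 : c.In V.nonunits (f₀ - f₁) := fun a' => by
    rw [map_sub, hf₁, c.co_pr]
    split_ifs with e
    · simp
    · rw [sub_zero]
      exact h2 a' (not_le.1 e)
  have e3 : c.co a (u f₁ - f₁) = 0 := by_contra fun e =>
    lt_irrefl (c.wt z a) (hu _ f₁ (h.sup.pr_wt z _ f₀).1 a e)
  have e4 := hi _ (sub_mem h0 e1) e2 a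
  have e5 : c.co a f₁ = c.co a f₀ := by rw [hf₁, c.co_pr, if_pos (mem_Ici.2 le_rfl)]
  have e6 : c.co a f - c.co a f₀ = c.co a (f - u f₀) + c.co a (u (f₀ - f₁)) := by
    simp only [map_sub] at e3 ⊢
    rw [← e5]
    linear_combination e3
  rw [e6]
  exact V.nonunits.add_mem (h1 a) e4

theorem ex_min (h : T3a c ζ s) (V : ValuationSubring K) (z : L) (f : LG L K)
    (hf : ¬ c.In V.nonunits f) : ∃ a, c.co a f ∉ V.nonunits ∧
      ∀ a', c.wt z a' < c.wt z a → c.co a' f ∈ V.nonunits := by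
  have hne : {a | c.co a f ∉ V.nonunits}.Nonempty := by_contra fun h0 =>
    hf fun a => by_contra fun e => h0 ⟨a, e⟩
  obtain ⟨a, ha, hm⟩ := Set.exists_min_image _ (c.wt z)
    ((h.sup.fin f).subset fun a (ha : c.co a f ∉ V.nonunits) e =>
      ha (e ▸ V.nonunits.zero_mem)) hne
  exact ⟨a, ha, fun a' h1 => by_contra fun e => h1.not_ge (hm a' e)⟩

theorem low2 (h : T3a c ζ s) {V : ValuationSubring K} {z : L} (hz : c.Fix z) {u : Op L K}
    (hu : Up c z u) (hi : c.IntE ζ V.nonunits u) {f f₀ : LG L K} (h0 : f₀ ∈ c.Eqv ζ)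
    (h1 : c.In V.nonunits (f - u f₀)) {a : ℤ × (Φ ⊕ Δ)} (h2 : c.co a f ∉ V.nonunits)
    (h3 : ∀ a', c.wt z a' < c.wt z a → c.co a' f ∈ V.nonunits) : c.co a f₀ ≠ 0 := by
  have h4 : ∀ a', c.wt z a' < c.wt z a → c.co a' f₀ ∈ V.nonunits := by
    by_cases k : c.In V.nonunits f₀
    · exact fun a' _ => k a'
    obtain ⟨b, b1, b2⟩ := ex_min h V z f₀ k
    refine fun a' h5 => b2 a' (h5.trans_le (not_lt.1 fun h6 => b1 ?_))
    simpa using V.nonunits.sub_mem (h3 b h6) (low1 h hz hu hi h0 h1 b2)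
  intro e
  exact h2 (by simpa [e] using low1 h hz hu hi h0 h1 h4)

theorem horv1 (hℓ : c.ℓ = 1) (V : ValuationSubring K) {π : K} (hV : Arch V π) {μ r : L}
    (hCo : c.Co (fun _ : Unit => μ) r) {n₀ : G L K} (hn₀ : n₀ ∈ c.Gr μ {-1}) :
    ∃ lam n, c.Min lam ∧ n ∈ c.Gr lam {-1} ∧
      (c.U1 K μ).map (ex n₀) = (c.U1 K lam).map (ex n) ∧ c.In0 V n ∧
      ∀ β, 0 < c.al β c.ρ → c.crd (.inl (c.neg β)) n ∈ V.nonunits := by
  have hp : c.Pt (1 : K) fun _ : Unit => π :=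
    ⟨hℓ ▸ IsPrimitiveRoot.one, fun _ => hV.1, fun _ _ _ => rfl⟩
  have T := ta c K 1 Unit _ hp
  have h := T.toT3a
  have hsd : c.SD (1 : K) V.toSubring := ⟨V.one_mem, by simp [hℓ]⟩
  have hdg : (c.dg Unit : ℚ) = 1 := by simp [CD.dg, hℓ]
  have hE : ∀ f : LG L K, f ∈ c.Eqv (1 : K) := fun f m => by
    have := h.gk.sg_pow (R := K)
    rw [hℓ, pow_one] at this
    simp [this]
  obtain ⟨X, hX⟩ := h.fd.nX_of (J := Unit) (fun _ => μ) (fun _ => n₀) fun _ => hn₀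
  have hU : ∀ j, c.cell (fun _ : Unit => μ) X j = (c.U1 K μ).map (ex n₀) := fun j => by
    rw [CD.cell, hX]
  have hFD : c.FD ((c.U1 K μ).map (ex n₀)) := hU () ▸ (h.fd.cell _ X () (hCo.2.2.1 ())).1
  obtain ⟨z, k, a, y, hz, hg, hy, -, hR⟩ := T.bru V _ r X
    ⟨hsd, fun _ => hV.2.1, fun γ _ => hV.2.2 γ⟩ hCo
  obtain ⟨lam, hl, hR⟩ := hR 0 ⟨c.fix_zero, fun a _ h1 => by
    have := (h.cd.ρ_pos a.1 a.2).1 h1
    simp only [CD.val, map_zero, zero_add]
    exact_mod_cast (by omega : 0 ≤ a.2)⟩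
  generalize (c.U1 K μ).map (ex n₀) = U at hU hFD ⊢
  have hu := up_pE h c.fix_ρ a y fun k => (h.gal.mem _ _ _ _ hz hg k).2.1
  have hi := h.la.intE_m V _ fun f hf e =>
    (h.la.int_pf V.toSubring V a y 0 hsd (SM.val V) hy f hf).2 e
  have w0 : ∀ a : ℤ × (Φ ⊕ Δ), c.wt 0 a = a.1 := fun ⟨m, i⟩ => by
    rcases i with α | i <;> simp [CD.wt, CD.wt0]
  have key : ∀ f ∈ c.NN (1 : K) (fun _ : Unit => π) (c.cell (fun _ : Unit => μ) X),
      f ∈ c.Sup 0 (Ici 0) → c.In V f → ∀ a, c.co a f ∉ V.nonunits →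
      (∀ a', c.wt c.ρ a' < c.wt c.ρ a → c.co a' f ∈ V.nonunits) → 1 ≤ c.wt lam a := by
    intro f a1 a2 a3 b a4 a5
    obtain ⟨f₀, b1, b2, -, b4⟩ := (hR 0).1 f a1 a2 a3
    simpa [hdg] using b2 b (low2 h c.fix_ρ hu hi b1 b4 a4 a5)
  have cb : ∀ α a, c.co a (mon 0 (c.bs K (.inl α))) = if a = (0, .inl α) then 1 else 0 :=
    fun α ⟨m, i⟩ => by
      rw [c.co_mon, h.gk.crd_bs]
      by_cases e1 : 0 = m <;> by_cases e2 : Sum.inl α = i <;> simp [e1, e2, Ne.symm]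
  have key2 : ∀ α, ∃ f ∈ c.NN (1 : K) (fun _ : Unit => π) (c.cell (fun _ : Unit => μ) X),
      f ∈ c.Sup 0 (Ici (c.al α lam - 1)) ∧ c.In V f ∧ c.co (0, .inl α) f ∉ V.nonunits ∧
      ∀ a', c.wt c.ρ a' < c.wt c.ρ (0, .inl α) → c.co a' f ∈ V.nonunits := fun α => by
    obtain ⟨f, b1, b2, b3, b4⟩ := (hR (c.al α lam - 1)).2 (mon 0 (c.bs K (.inl α))) (hE _)
      (fun a e => by
        rw [cb] at e
        obtain rfl : a = (0, .inl α) := by_contra fun k => e (if_neg k)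
        simp [hdg, CD.wt, CD.wt0]) fun a => by
        rw [cb]
        split_ifs
        · exact V.one_mem
        · exact V.zero_mem
    have b5 : ∀ a', c.wt c.ρ a' ≤ c.wt c.ρ (0, .inl α) →
        c.co a' f - c.co a' (mon 0 (c.bs K (.inl α))) ∈ V.nonunits := fun a' e =>
      low1 h c.fix_ρ hu hi (hE _) b4 fun a'' e' => by
        rw [cb, if_neg fun k => (e'.trans_le e).ne (by rw [k])]
        exact V.nonunits.zero_mem
    refine ⟨f, b1, b2, b3, fun k => Top2A.one V ?_, fun a' e => ?_⟩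
    · simpa [cb] using V.nonunits.sub_mem k (b5 _ le_rfl)
    · have := b5 a' e.le
      rwa [cb, if_neg fun k => e.ne (by rw [k]), sub_zero] at this
  have m1 : ∀ α, c.al α lam ≤ 1 := fun α => by
    obtain ⟨f, -, b2, -, b4, -⟩ := key2 α
    have := b2 _ fun e => b4 (e ▸ V.nonunits.zero_mem)
    rw [w0] at this
    simpa using this
  have m2 : ∀ α, 0 < c.al α lam → c.al α lam = 1 := fun α hα => by
    obtain ⟨f, b1, b2, b3, b4, b5⟩ := key2 α
    refine le_antisymm (m1 α) ?_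
    simpa [CD.wt, CD.wt0] using key f b1 (fun a e => by
      have := b2 a e
      rw [w0] at this ⊢
      have h1 : (-1 : ℚ) < a.1 := by linarith [this.out]
      have h2 : -1 < a.1 := by exact_mod_cast h1
      exact mem_Ici.2 (by exact_mod_cast (by omega : 0 ≤ a.1))) b3 _ b4 b5
  have hM : c.Min lam := ⟨hl.1, fun α => by
    rcases lt_trichotomy (c.al α lam) 0 with e | e | e
    · have := m2 (c.neg α) (by rw [c.al_neg, LinearMap.neg_apply]; linarith)
      rw [c.al_neg, LinearMap.neg_apply] at this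
      exact Or.inr (Or.inr (by linarith))
    · exact Or.inl e
    · exact Or.inr (Or.inl (m2 α e))⟩
  have s0 : ∀ (m : ℤ) (x : G L K), 0 ≤ m → mon m x ∈ c.Sup 0 (Ici 0) := fun m x hm a e => by
    rw [c.co_mon] at e
    rw [w0, ← show m = a.1 from by_contra fun k => e (if_neg k)]
    exact mem_Ici.2 (by exact_mod_cast hm)
  have t1 : ∀ u ∈ U, c.In0 V u → ¬ c.In0 V.nonunits u →
      ∃ β, c.al β lam = 1 ∧ c.crd (.inl β) u ∉ V.nonunits := fun u a1 a2 a3 => by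
    obtain ⟨⟨m, i⟩, b1, b2⟩ := ex_min h V c.ρ (mon 0 u) fun k =>
      a3 ((h.sup.in_mon _ 0 u V.nonunits.zero_mem).1 k)
    have b3 := key (mon 0 u) ⟨hE _, fun j => ⟨by rw [hU, h.lp.ev_mon]; simpa using a1,
      fun x _ => by simp [h.lp.dd_mon]⟩⟩ (s0 0 u le_rfl) ((h.sup.in_mon _ 0 u V.zero_mem).2 a2)
      _ b1 b2
    rw [c.co_mon] at b1
    obtain rfl : 0 = m := by_contra fun k => b1 (by rw [if_neg k]; exact V.nonunits.zero_mem)
    rw [if_pos rfl] at b1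
    rcases i with β | i
    · exact ⟨β, le_antisymm (m1 β) (by simpa [CD.wt, CD.wt0] using b3), b1⟩
    · norm_num [CD.wt, CD.wt0] at b3
  have t2 : ∀ w : G L K, (∀ x ∈ U, c.kR K w x = 0) → c.In0 V w → ¬ c.In0 V.nonunits w →
      ∃ i, c.crd i w ∉ V.nonunits ∧ 0 ≤ c.wt0 lam i ∧
        ∀ i', c.wt0 c.ρ i' < c.wt0 c.ρ i → c.crd i' w ∈ V.nonunits := fun w a1 a2 a3 => by
    have e1 : ∀ i, c.co (1, i) (mon 1 w - π • mon 0 w) = c.crd i w := fun i => by
      simp [c.co_mon]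
    have e2 : ∀ m i, m ≠ 1 → c.co (m, i) (mon 1 w - π • mon 0 w) ∈ V.nonunits := fun m i e => by
      rw [map_sub, map_smul, c.co_mon, c.co_mon, if_neg e.symm, zero_sub, smul_eq_mul, mul_comm]
      refine V.nonunits.neg_mem ((SM.nonunits V).mul _ ?_ _ hV.2.1)
      split_ifs
      · exact a2 i
      · exact zero_mem _
    obtain ⟨⟨m, i⟩, b1, b2⟩ := ex_min h V c.ρ (mon 1 w - π • mon 0 w) fun k =>
      a3 fun i => e1 i ▸ k _
    obtain rfl : m = 1 := by_contra fun k => b1 (e2 m i k)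
    have b3 := key (mon 1 w - π • mon 0 w) ⟨hE _, fun j => ⟨by simp [h.lp.ev_mon],
      fun x hx => by simp [h.lp.dd_mon, h.lp.ev_mon, a1 x (hU j ▸ hx)]⟩⟩
      (sub_mem (s0 1 w zero_le_one) (Submodule.smul_mem _ _ (s0 0 w le_rfl))) (fun ⟨m, i⟩ => by
        by_cases e : m = 1
        · rw [e, e1]; exact a2 i
        · exact V.nonunits_subset (e2 m i e)) _ b1 b2
    refine ⟨i, e1 i ▸ b1, by simpa [CD.wt] using b3, fun i' e => e1 i' ▸ b2 _ ?_⟩
    simpa [CD.wt] using e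
  have inj : ∀ u ∈ U, (∀ β, c.al β lam = 1 → c.crd (.inl β) u = 0) → u = 0 := fun u a1 a2 =>
    by_contra fun k => by
      obtain ⟨t, -, t2, i, t3⟩ := h.sup.prim0 V u k
      obtain ⟨β, b1, b2⟩ := t1 _ (U.smul_mem t a1) t2 fun e => Top2A.one V (t3 ▸ e i)
      exact b2 (by simp [a2 β b1])
  let P : U →ₗ[K] ({β // c.al β lam = 1} → K) :=
    LinearMap.pi fun β => c.crd (.inl β.1) ∘ₗ U.subtype
  have hP : Function.Bijective P := by
    refine ⟨(injective_iff_map_eq_zero P).2 fun u e => Subtype.ext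
      (inj u u.2 fun β hβ => congrFun e ⟨β, hβ⟩), LinearMap.range_eq_top.1 (by_contra fun k => ?_)⟩
    obtain ⟨φ, φ1, φ2⟩ := Submodule.exists_le_ker_of_lt_top _ (lt_top_iff_ne_top.2 k)
    let w : G L K := ∑ β : {β // c.al β lam = 1},
      (φ (Pi.single β 1) / (c.kap β.1 : K)) • c.bs K (.inl (c.neg β.1))
    have hk : ∀ β, (c.kap β : K) ≠ 0 := fun β => by exact_mod_cast (h.cd.kap_pos β).ne'
    have w1 : ∀ x, c.kR K w x = φ fun β => c.crd (.inl β.1) x := fun x => by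
      rw [LinearMap.pi_apply_eq_sum_univ φ]
      simp only [w, map_sum, map_smul, LinearMap.sum_apply, LinearMap.smul_apply, h.gk.kR_e]
      refine Finset.sum_congr rfl fun β _ => ?_
      have : (fun j => if β = j then (1 : K) else 0) = Pi.single β 1 := by
        ext j; simp [Pi.single_apply, eq_comm]
      rw [this, Rat.smul_def, smul_eq_mul, smul_eq_mul]
      field_simp [hk β.1]
    have w2 : w ∈ c.Gr lam {-1} := sum_mem fun β _ => Submodule.smul_mem _ _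
      (h.gk.gr_bs _ _ _ (by simp [CD.wt0, c.al_neg, β.2]))
    have w3 : w ≠ 0 := fun e => φ1 (LinearMap.ext fun v => by
      have := w1 (∑ β : {β // c.al β lam = 1}, v β • c.bs K (.inl β.1))
      rw [e, map_zero, LinearMap.zero_apply] at this
      rw [LinearMap.zero_apply, this]
      congr 1
      ext β
      simp [h.gk.crd_bs, Subtype.val_inj])
    obtain ⟨t, -, a2, i, a3⟩ := h.sup.prim0 V w w3
    obtain ⟨i', b1, b2, -⟩ := t2 (t • w) (fun x hx => by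
      rw [map_smul, LinearMap.smul_apply, w1, show φ (fun β => c.crd (.inl β.1) x) = 0 from
        φ2 ⟨⟨x, hx⟩, rfl⟩, smul_zero]) a2 fun e => Top2A.one V (a3 ▸ e i)
    have := Submodule.smul_mem _ t w2 i' fun e => b1 (e ▸ V.nonunits.zero_mem)
    rw [show c.wt0 lam i' = -1 from this] at b2
    norm_num at b2
  obtain ⟨n, n1, n2⟩ := h.cell.cell U lam hFD hM
    (by rw [(LinearEquiv.ofBijective P hP).finrank_eq, Module.finrank_fintype_fun_eq_card]) inj
  obtain ⟨X', hX'⟩ := h.fd.nX_of (J := Unit) (fun _ => lam) (fun _ => n) fun _ => n1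
  have nn : Nil n := hX' () ▸ (h.fd.nX _ X' ()).2.1
  have l1 : ⁅n, c0 K lam⁆ = n := by
    rw [← lie_skew, neg_eq_iff_eq_neg]
    refine c.ext0 fun i => ?_
    rw [h.gk.lie_c0 lam hl.1, map_neg]
    by_cases e : c.crd i n = 0
    · simp [e]
    · simp [show c.wt0 lam i = -1 from n1 i e]
  have l2 : ∀ x ∈ U, c.kR K (c0 K lam + n) x = 0 := by
    rw [n2]
    rintro _ ⟨u, hu, rfl⟩
    have := h.ex.two n (c0 K lam) nn (by rw [l1, lie_self])
    rw [l1] at this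
    rw [← this, (h.ex.a0 n nn).form]
    refine (h.fd.perp lam hM _).2 (fun i e => ?_) u hu
    rcases i with β | i
    · exact absurd (by simp [hl.1 β]) e
    · simp [CD.wt0]
  have l3 : ∀ β, c.crd (.inl β) (c0 K lam + n) = c.crd (.inl β) n := fun β => by simp [hl.1 β]
  have l4 : ∀ i, c.crd (.inr i) n = 0 := fun i => by_contra fun e => by
    simpa [CD.wt0] using n1 _ e
  have l5 : ∀ i, c.crd (.inr i) (c0 K lam + n) ∈ V := fun i => by
    rw [map_add, l4, add_zero, c.crd_tmul, ← c.al_sim]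
    rcases hM.2 (c.sim i) with e | e | e <;> simp [e]
  have l6 : ∀ (t : K) β, c.crd (.inl β) (t • (c0 K lam + n)) ∉ V.nonunits →
      ¬ 0 ≤ c.wt0 lam (.inl β) := fun t β e k => by
    rw [show c.wt0 lam (.inl β) = -1 from n1 _ fun e' => e (by
      rw [map_smul, l3, e', smul_zero]; exact V.nonunits.zero_mem)] at k
    norm_num at k
  have l7 : c.In0 V (c0 K lam + n) := by
    by_cases k : c0 K lam + n = 0
    · exact fun i => by simp [k]
    obtain ⟨t, a1, a2, i, a3⟩ := h.sup.prim0 V _ k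
    obtain ⟨i', b1, b2, -⟩ := t2 (t • (c0 K lam + n)) (fun x hx => by
      rw [map_smul, LinearMap.smul_apply, l2 x hx, smul_zero]) a2 fun e => Top2A.one V (a3 ▸ e i)
    have := Top2A.in_smul (S := V.toSubring) (Top2A.inv (t := t) fun e => by
      rcases i' with β | i'
      · exact l6 t β b1 b2
      · rw [map_smul, smul_eq_mul, mul_comm] at b1
        exact b1 ((SM.nonunits V).mul _ (l5 i') _ e)).2 a2
    rwa [inv_smul_smul₀ a1] at this
  refine ⟨lam, n, hM, n1, n2, fun i => ?_, fun β hβ => by_contra fun k => ?_⟩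
  · rcases i with β | i
    · exact l3 β ▸ l7 _
    · rw [l4]; exact V.zero_mem
  · obtain ⟨i', b1, b2, b3⟩ := t2 _ l2 l7 fun e => k (l3 _ ▸ e _)
    rcases i' with γ | i'
    · exact l6 1 γ (by rwa [one_smul]) b2
    · exact k (l3 _ ▸ b3 _ (by simpa [CD.wt0, c.al_neg] using hβ))

/-- the same datum without twist -/
def untw (c : CD L Φ Δ) : CD L Φ Δ :=
  { c with
    σ := LieEquiv.refl
    ς := 1
    ℓ := 1
    κ_σ := fun _ _ => rfl
    σ_e := fun _ => Or.inl rfl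
    σ_h := fun i β => by simp
    σ_pow := fun _ => rfl
    ℓ_pos := one_pos
    ρ_σ := rfl }

theorem horvp (V : ValuationSubring K) {π : K} (hV : Arch V π) {μ : J → L} {r : L}
    (hCo : c.Co μ r) (X : c.Id μ → K) : ∃ (lam : J → L) (X' : c.Id lam → K),
      (∀ j, c.Min (lam j)) ∧ c.cell μ X = c.cell lam X' ∧ (∀ p, X' p ∈ V) ∧
      ∀ p, 0 < c.al p.1.2 c.ρ → X' p ∈ V.nonunits := by
  have h := t1 c K
  have key : ∀ j, ∃ lam n, c.Min lam ∧ n ∈ c.Gr lam {-1} ∧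
      (c.U1 K (μ j)).map (ex (c.nX μ X j)) = (c.U1 K lam).map (ex n) ∧ c.In0 V n ∧
      ∀ β, 0 < c.al β c.ρ → c.crd (.inl (c.neg β)) n ∈ V.nonunits := fun j =>
    horv1 (c := untw c) rfl V hV (μ := μ j) (r := r)
      ⟨⟨hCo.1.1, rfl⟩, hCo.2.1, fun _ => hCo.2.2.1 j, fun _ => hCo.2.2.2 j⟩ (h.fd.nX μ X j).1
  choose lam n a1 a2 a3 a4 a5 using key
  obtain ⟨X', hX⟩ := h.fd.nX_of lam n a2
  have e : ∀ p, X' p = c.crd (.inl (c.neg p.1.2)) (n p.1.1) := fun p => by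
    rw [← hX, (h.fd.nX lam X' _).2.2 p rfl]
  exact ⟨lam, X', a1, funext fun j => by rw [CD.cell, CD.cell, hX, a3], fun p => e p ▸ a4 _ _,
    fun p hp => e p ▸ a5 _ _ hp⟩

end Pool.Agent.P.MP_e7d440_ag.Z
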