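import Pool.Agent.P.MP_e7d440_ag.Z.BaseH2

/-! Every root takes a unit value on an integral fixed coweight. -/

namespace Pool.Agent.P.MP_e7d440_ag.Z

open TensorProduct LieAlgebra Set U

variable {L Φ Δ : Type} [LieRing L] [LieAlgebra ℚ L] [Fintype Φ] [Fintype Δ] [DecidableEq Φ]
  [DecidableEq Δ] {c : CD L Φ Δ}

set_option linter.unusedSectionVars false

namespace UHA

theorem red (α β : Φ) (e : c.al β = (2 : ℚ) • c.al α) : False := by
  have h := t2 (untw c) (1 : ℚ) IsPrimitiveRoot.one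
  have v : ∀ γ, (untw c).Valid (1 : ℚ) (γ, 0) := fun γ => by
    obtain ⟨m, hm⟩ := h.rt1.valid_ex γ
    refine (h.rt1.valid_per γ m 0 hm).2 ?_
    have := h.orb.per_mul γ
    rw [show (untw c).per γ = 1 from Nat.eq_one_of_mul_eq_one_right this]
    simp
  have k := (h.rt2.red (α, 0) (β, 0) 2 (v α) (v β) two_pos fun z _ => by
    simp [CD.val, show (untw c).al = c.al from rfl, e]).2
  obtain rfl : α = β := Equiv.Perm.sameCycle_one.1 k
  have := LinearMap.congr_fun e (c.cor α)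
  norm_num [c.cor_two] at this

theorem sym (α β : Φ) : c.kap α * c.al α (c.cor β) = c.kap β * c.al β (c.cor α) := by
  have h := (t0 c).cd
  rw [← h.κ_cor, ← h.κ_cor, c.κ_symm]

theorem six (α β : Φ) (h0 : c.al α (c.cor β) ≠ 0) : ∃ q : ℤ, 6 * c.kap α = q * c.kap β := by
  have h := (t0 c).cd
  obtain ⟨n, hn⟩ := h.cartan β α
  obtain ⟨m, hm⟩ := h.cartan α β
  have e := sym (c := c) α β
  have p1 := h.kap_pos α
  have p2 := h.kap_pos β
  rw [hn, hm] at e
  rw [hn] at h0
  have y1 : c.κ ((2 : ℚ) • c.cor β - (n : ℚ) • c.cor α) ((2 : ℚ) • c.cor β - (n : ℚ) • c.cor α) =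
      2 * c.kap β * (4 - n * m) := by
    simp only [map_sub, map_smul, LinearMap.sub_apply, LinearMap.smul_apply, smul_eq_mul, h.κ_cor,
      c.cor_two, hn, hm]
    linear_combination (-2 * (n : ℚ) + 2 * n) * e
  have y2 := c.κ_pos _ (((h.isH_cor β).smul 2).sub ((h.isH_cor α).smul n))
  have y3 : 0 < n * m := by
    have : 0 < c.kap β * ((n : ℚ) * m) := by
      rw [mul_left_comm, ← e, mul_left_comm]
      exact mul_pos p1 (mul_self_pos.2 h0)
    exact_mod_cast (mul_pos_iff_of_pos_left p2).1 this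
  have y4 : n * m < 4 ∨ (n * m = 4 ∧ (m : ℚ) • c.al α = (2 : ℚ) • c.al β) := by
    by_cases k : (2 : ℚ) • c.cor β - (n : ℚ) • c.cor α = 0
    · rw [k, map_zero] at y1
      have a1 : (n : ℚ) * m = 4 := by
        have := (mul_eq_zero.1 y1.symm).resolve_left (by positivity)
        linarith
      refine Or.inr ⟨by exact_mod_cast a1, LinearMap.ext fun x => ?_⟩
      have a2 := congrArg (fun y => c.κ y x) k
      simp only [map_sub, map_smul, LinearMap.sub_apply, LinearMap.smul_apply, smul_eq_mul,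
        h.κ_cor, map_zero, LinearMap.zero_apply] at a2 ⊢
      refine mul_left_cancel₀ p2.ne' ?_
      linear_combination -a2 - c.al α x * e
    · have := y2 k
      rw [y1] at this
      have a1 := (mul_pos_iff_of_pos_left (by positivity)).1 this
      exact Or.inl (by exact_mod_cast sub_pos.1 a1)
  have y5 : n ∣ 6 * m := by
    rcases y4 with k | ⟨k, k'⟩
    · have a1 : |n| ≤ 3 := by
        have := abs_mul n m
        have := Int.one_le_abs (right_ne_zero_of_mul y3.ne')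
        rw [abs_of_pos y3] at *
        nlinarith [abs_nonneg n]
      have a2 := left_ne_zero_of_mul y3.ne'
      obtain ⟨a3, a4⟩ := abs_le.1 a1
      refine Dvd.dvd.mul_right ?_ m
      interval_cases n <;> first | exact absurd rfl a2 | norm_num
    · have a1 : |m| ≤ 4 := Int.le_of_dvd (by norm_num) ((abs_dvd _ _).2 ⟨n, by linarith⟩)
      obtain ⟨a3, a4⟩ := abs_le.1 a1
      have a5 : m ≠ 1 := by
        rintro rfl
        exact red β α (by simpa using k')
      have a6 : m ≠ -1 := by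
        rintro rfl
        exact red β (c.neg α) (by rw [c.al_neg]; simpa using k')
      have a7 : (n = 1 ∨ n = -1) ∨ (m = 2 ∧ n = 2) ∨ (m = -2 ∧ n = -2) := by
        interval_cases m <;> omega
      rcases a7 with (rfl | rfl) | ⟨rfl, rfl⟩ | ⟨rfl, rfl⟩ <;> norm_num
  obtain ⟨q, hq⟩ := y5
  refine ⟨q, mul_left_cancel₀ h0 ?_⟩
  have : (6 : ℚ) * m = n * q := by exact_mod_cast hq
  linear_combination 6 * e + c.kap β * this

theorem clos (α β γ : Φ) (h1 : c.al α (c.cor β) ≠ 0) (h2 : c.al β (c.cor γ) ≠ 0) :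
    ∃ α', c.kap α' = c.kap α ∧ c.al α' (c.cor γ) ≠ 0 := by
  have h := (t0 c).cd
  by_cases k : c.al α (c.cor γ) ≠ 0
  · exact ⟨α, rfl, k⟩
  obtain ⟨α', e⟩ := c.refl β α
  refine ⟨α', ?_, by simpa [e, not_not.1 k] using ⟨h1, h2⟩⟩
  have a1 := LinearMap.congr_fun e (c.cor α')
  have a2 := LinearMap.congr_fun e (c.cor α)
  have a3 := LinearMap.congr_fun e (c.cor β)
  simp only [LinearMap.sub_apply, LinearMap.smul_apply, smul_eq_mul, c.cor_two] at a1 a2 a3
  have b1 := sym (c := c) α α'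
  have b2 := sym (c := c) β α'
  have b3 := sym (c := c) α β
  have p1 := (h.kap_pos α).ne'
  have p2 := (h.kap_pos β).ne'
  rw [a2] at b1
  rw [a3] at b2
  refine mul_left_cancel₀ (mul_ne_zero two_ne_zero p2) ?_
  linear_combination -(c.kap α * c.kap β) * a1 - c.kap β * b1 +
    (c.kap α * c.al α (c.cor β)) * b2 - (c.kap α' * c.al α (c.cor β)) * b3

end UHA

open UHA in
theorem uh_odd (hℓ : ¬ 2 ∣ c.ℓ) (α : Φ) :
    ∃ i, ∃ n : ℤ, Odd n ∧ c.al α (∑ k ∈ Finset.range c.ℓ, c.σ^[k] (c.cw i)) = n := by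
  classical
  have h := (t0 c).cd
  have ho := (t0 c).orb
  by_contra hc
  have h1 : ∀ i, ∃ n : ℤ, ∑ k ∈ Finset.range c.ℓ, c.al ((c.ς ^ k) α) (c.cw i) = 2 * n := fun i => by
    obtain ⟨n, hn⟩ := OrbA.int_sum (Finset.range c.ℓ) _ fun k _ => c.al_int ((c.ς ^ k) α) i
    obtain ⟨m, rfl⟩ : Even n := Int.not_odd_iff_even.1 fun k => hc ⟨i, n, k, by rw [h.al_avg, hn]⟩
    exact ⟨m, by rw [hn]; push_cast; ring⟩
  choose n hn using h1
  have kp := fun β => (h.kap_pos β).ne'
  have hl : (c.ℓ : ℚ) ≠ 0 := by exact_mod_cast c.ℓ_pos.ne'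
  let t : Δ → L := fun i => ((n i : ℚ) / c.kap (c.sim i)) • c.cor (c.sim i)
  have t1 : ∀ i x, c.κ (t i) x = n i * c.al (c.sim i) x := fun i x => by
    simp only [t, map_smul, LinearMap.smul_apply, smul_eq_mul, h.κ_cor]
    field_simp [kp (c.sim i)]
  have t2 : ∀ x, c.ℓ * c.κ (c.tau α) x = ∑ k ∈ Finset.range c.ℓ, c.al ((c.ς ^ k) α) x := fun x => by
    simp only [OrbA.tau_eq h, map_smul, map_sum, LinearMap.smul_apply, LinearMap.sum_apply,
      smul_eq_mul, h.κ_cor, OrbA.kap_pow h, ← Finset.mul_sum]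
    field_simp [kp α]
  have t3 : ∀ x, c.ℓ * c.κ (c.tau α) x = 2 * c.κ (∑ i, t i) x := fun x => by
    rw [t2, Finset.sum_congr rfl fun k _ => h.al_eq ((c.ς ^ k) α) x, Finset.sum_comm]
    simp only [← Finset.sum_mul, hn, map_sum, LinearMap.sum_apply, t1, c.al_sim, Finset.mul_sum,
      mul_assoc]
  let P : Δ → Prop := fun i => ∃ α', c.kap α' = c.kap α ∧ c.al α' (c.cor (c.sim i)) ≠ 0
  have t4 : ∀ i, ¬ P i → c.κ (∑ i, t i) (t i) = 0 := fun i hi => by
    have := t3 (t i)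
    rw [t2, Finset.sum_eq_zero fun k _ => by
      rw [map_smul, not_not.1 fun e => hi ⟨_, OrbA.kap_pow h k α, e⟩, smul_zero]] at this
    linarith
  have t5 : ∀ i j, P i → ¬ P j → c.κ (t i) (t j) = 0 := fun i j ⟨α', a1, a2⟩ hj => by
    have : c.al (c.sim i) (c.cor (c.sim j)) = 0 := by_contra fun e => hj (by
      obtain ⟨α'', b1, b2⟩ := clos α' _ _ a2 e
      exact ⟨α'', b1.trans a1, b2⟩)
    rw [t1, map_smul, this, smul_zero, mul_zero]
  have t6 : c.κ (∑ i, t i) (∑ i, t i) = c.κ (∑ i with P i, t i) (∑ i with P i, t i) := by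
    have a1 : c.κ (∑ i, t i) (∑ i with ¬ P i, t i) = 0 := by
      rw [map_sum]
      exact Finset.sum_eq_zero fun i hi => t4 i (Finset.mem_filter.1 hi).2
    have a2 : c.κ (∑ i with P i, t i) (∑ i with ¬ P i, t i) = 0 := by
      simp only [map_sum, LinearMap.sum_apply]
      exact Finset.sum_eq_zero fun j hj => Finset.sum_eq_zero fun i hi =>
        t5 i j (Finset.mem_filter.1 hi).2 (Finset.mem_filter.1 hj).2
    rw [← Finset.sum_filter_add_sum_filter_not Finset.univ P t] at a1 ⊢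
    have a3 := c.κ_symm (∑ i with ¬ P i, t i) (∑ i with P i, t i)
    simp only [map_add, LinearMap.add_apply] at a1 ⊢
    linarith
  have t7 : ∀ i j, P i → ∃ q : ℤ, (i = j → Even q) ∧ 6 * c.kap α * c.κ (t j) (t i) = q :=
    fun i j ⟨α', a1, a2⟩ => by
      obtain ⟨q, hq⟩ := six α' _ a2
      obtain ⟨m, hm⟩ := h.cartan (c.sim i) (c.sim j)
      refine ⟨q * n i * n j * m, fun e => ?_, ?_⟩
      · rw [← e, c.cor_two] at hm
        obtain rfl : m = 2 := by exact_mod_cast hm.symm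
        exact Even.mul_left even_two _
      · rw [t1, map_smul, hm, ← a1, hq, smul_eq_mul]
        push_cast
        field_simp [kp (c.sim i)]
  have t8 : ∀ A : Finset Δ, (∀ i ∈ A, P i) →
      ∃ q : ℤ, 3 * c.kap α * c.κ (∑ i ∈ A, t i) (∑ i ∈ A, t i) = q := fun A => by
    induction A using Finset.induction_on with
    | empty => exact fun _ => ⟨0, by simp⟩
    | insert i A hi ih =>
      intro hA
      have hP := hA i (Finset.mem_insert_self _ _)
      obtain ⟨q1, e1⟩ := ih fun j hj => hA j (Finset.mem_insert_of_mem hj)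
      obtain ⟨q2, e2, e2'⟩ := t7 i i hP
      obtain ⟨q2, rfl⟩ := e2 rfl
      obtain ⟨q3, e3⟩ := OrbA.int_sum A (fun j => 6 * c.kap α * c.κ (t j) (t i)) fun j _ =>
        let ⟨q, _, e⟩ := t7 i j hP; ⟨q, e⟩
      rw [← Finset.mul_sum, ← LinearMap.sum_apply, ← map_sum] at e3
      refine ⟨q1 + q2 + q3, ?_⟩
      rw [Finset.sum_insert hi]
      have a3 := c.κ_symm (t i) (∑ j ∈ A, t j)
      simp only [map_add, LinearMap.add_apply]
      push_cast at e2' ⊢
      linear_combination e1 + e2' / 2 + e3 + 3 * c.kap α * a3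
  obtain ⟨q, hq⟩ := t8 _ fun i hi => (Finset.mem_filter.1 hi).2
  have u1 := t3 (∑ i, t i)
  have u2 := t3 (c.tau α)
  have u3 := c.κ_symm (c.tau α) (∑ i, t i)
  have u4 : c.κ (c.tau α) (c.tau α) = c.nu α := ho.κ_tau α _ (ho.tau_fix α)
  have u5 := (ho.th_eq α).resolve_right fun e => hℓ e.2
  have u6 : (c.per α : ℚ) ≠ 0 := by exact_mod_cast (ho.per_pos α).ne'
  simp only [CD.th, CD.kp] at u5
  have u7 : c.ℓ * c.kap α * c.nu α = 2 * c.per α := by
    refine mul_left_cancel₀ u6 ?_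
    linear_combination 2 * u5
  have u8 : ((3 * c.ℓ * c.per α : ℕ) : ℚ) = 2 * q := by
    rw [← t6] at hq
    push_cast
    linear_combination 2 * hq - (3 / 2 * c.ℓ) * u7 + (3 * c.kap α) * u1 +
      (3 / 2 * c.kap α * c.ℓ) * u2 - (3 / 2 * c.kap α * c.ℓ ^ 2) * u4 - (3 * c.kap α * c.ℓ) * u3
  have u9 : 2 ∣ 3 * c.ℓ * c.per α := Int.natCast_dvd_natCast.1 ⟨q, by exact_mod_cast u8⟩
  rcases (Nat.prime_two.dvd_mul).1 u9 with e | e
  · rcases (Nat.prime_two.dvd_mul).1 e with e | e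
    · omega
    · exact hℓ e
  · exact hℓ (ho.per_mul α ▸ e.mul_right _)

/-- Every root takes a unit value on an integral fixed coweight. -/
theorem uh (O : Type) [CommRing O] [IsLocalRing O] (hℓ : IsUnit (c.ℓ : O)) (α : Φ) :
    ∃ (h : L) (n : ℤ), c.Fix h ∧ (∀ i, ∃ m : ℤ, c.bas.repr h i = m) ∧ c.al α h = n ∧
      IsUnit (n : O) := by
  have h := (t0 c).cd
  by_cases h2 : IsUnit (2 : O)
  · have a1 := fun i => OrbA.S_tau h α ▸ OrbA.sum_int h α i
    rcases OrbA.T_cases h α with e | ⟨e, -⟩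
    · exact ⟨_, 2, OrbA.S_fix h α, a1, by simpa using e, by simpa using h2⟩
    · exact ⟨_, 1, OrbA.S_fix h α, a1, by simpa using e, by simp⟩
  obtain ⟨i, _, ⟨n, rfl⟩, e⟩ := uh_odd (c := c) (fun ⟨q, hq⟩ => h2 (by
    rw [hq, Nat.cast_mul] at hℓ
    simpa using isUnit_of_mul_isUnit_left hℓ)) α
  refine ⟨_, _, h.fix_avg _ (h.isH_cw i), fun j => ?_, e, ?_⟩
  · rw [map_sum, Finsupp.finsetSum_apply]
    refine OrbA.int_sum _ _ fun k hk => ?_
    clear hk
    induction k generalizing j with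
    | zero => exact CdA.rb_int c _ _
    | succ k ih =>
      rw [Function.iterate_succ_apply', ← c.bas.sum_repr (c.σ^[k] (c.cw i)), map_sum, map_sum,
        Finsupp.finsetSum_apply]
      refine OrbA.int_sum _ _ fun l _ => ?_
      obtain ⟨a, ha⟩ := ih l
      obtain ⟨b, hb⟩ := h.σ_int l j
      exact ⟨a * b, by simp [ha, hb]⟩
  · push_cast
    rcases IsLocalRing.isUnit_or_isUnit_one_sub_self (-(2 * n : O)) with k | k
    · exact (h2 (isUnit_of_mul_isUnit_left (by simpa using k : IsUnit (2 * n : O)))).elim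
    · simpa [add_comm] using k

end Pool.Agent.P.MP_e7d440_ag.Z
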