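import Pool.Agent.P.MP_e7d440_ag.Z.BaseCrd
import Pool.Agent.P.MP_e7d440_ag.Z.BaseUH

/-! Small lemmas on averaged basis vectors and on the window. -/

set_option autoImplicit false
set_option linter.unusedSectionVars false

namespace Pool.Agent.P.MP_e7d440_ag.Z

open Pool.Agent.P.MP_e7d440_ag.U TensorProduct LieAlgebra LaurentPolynomial Set

variable {L Φ Δ : Type} [LieRing L] [LieAlgebra ℚ L] [Fintype Φ] [Fintype Δ] [DecidableEq Φ]
  [DecidableEq Δ] {c : CD L Φ Δ} {K : Type} [Field K] [CharZero K] {ζ : K}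
  {J : Type} [Fintype J] [DecidableEq J] {s : J → K}

lemma bv_ix (a : Φ × ℤ) : bv c ζ (CD.ix a) = c.E ζ a := rfl

lemma bv_sum (h : T3a c ζ s) {f : LG L K} (hf : f ∈ c.Eqv ζ) (A : Finset (ℤ × (Φ ⊕ Δ)))
    (hA : ∀ a, c.co a f ≠ 0 → a ∈ A) : f = ∑ a ∈ A, (c.co a f / (c.ℓ : K)) • bv c ζ a := by
  have hl : (c.ℓ : K) ≠ 0 := Nat.cast_ne_zero.2 c.ℓ_pos.ne'
  let B : LG L K →ₗ[K] LG L K := (c.BB K).constr K (bv c ζ)
  have e0 : ∀ (m : ℤ) (x : G L K), c.cc ζ x m =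
      (∑ i ∈ Finset.range c.ℓ, ζ ^ ((i : ℤ) * m) • (c.sg K ^ i)) x := fun m x => by
    simp [CD.cc, LinearMap.sum_apply]
  have e1 : ∀ (m : ℤ) (x : G L K), B (mon m x) = mon m (c.cc ζ x m) := fun m x => by
    have : B ∘ₗ mon m = mon m ∘ₗ ∑ i ∈ Finset.range c.ℓ, ζ ^ ((i : ℤ) * m) • (c.sg K ^ i) :=
      (c.bs K).ext fun i => by
        rw [LinearMap.comp_apply, LinearMap.comp_apply, ← e0, ← c.BB_apply (m, i)]
        exact (c.BB K).constr_basis K _ (m, i)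
    rw [e0]
    exact LinearMap.congr_fun this x
  have e2 : B f = (c.ℓ : K) • f := by
    obtain ⟨t, -, e⟩ := h.lp.sum_mon f
    rw [e, map_sum, Finset.smul_sum]
    exact Finset.sum_congr rfl fun m _ => by rw [e1, h.eqv.avg f hf m, map_smul]
  have e3 : f = (c.ℓ : K)⁻¹ • B f := by rw [e2, smul_smul, inv_mul_cancel₀ hl, one_smul]
  conv_lhs => rw [e3, Module.Basis.constr_apply, Finsupp.sum_of_support_subset _ (s := A)
    (fun a ha => hA a (by rw [c.co_repr]; exact Finsupp.mem_support_iff.1 ha))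
    (fun b t => t • bv c ζ b) (fun a _ => zero_smul _ _), Finset.smul_sum]
  exact Finset.sum_congr rfl fun a _ => by rw [smul_smul, div_eq_inv_mul, c.co_repr]

/-- only finitely many coordinates have large weight at `x'` and small weight at `x` -/
lemma wt_fin (x x' : L) (p q : ℚ) : {a : ℤ × (Φ ⊕ Δ) | p ≤ c.wt x' a ∧ c.wt x a < q}.Finite := by
  refine (Set.finite_iUnion fun i : Φ ⊕ Δ => (Set.finite_Icc ⌊p - c.wt0 x' i⌋
    ⌈q - c.wt0 x i⌉).image fun m => (m, i)).subset ?_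
  rintro ⟨m, i⟩ ⟨h1, h2⟩
  simp only [CD.wt] at h1 h2
  refine mem_iUnion.2 ⟨i, m, ⟨?_, ?_⟩, rfl⟩
  · exact Int.floor_le_iff.2 (by linarith)
  · exact Int.le_ceil_iff.2 (by linarith)

lemma tN_eqv (h : T3a c ζ s) {x : L} (hx : c.Fix x) :
    (T (c.dg J : ℤ) : LP K) • c0 (LP K) x ∈ c.Eqv ζ :=
  (h.eqv.T_iff _ _ h.div.dg_dvd).2 (h.eqv.c0 x hx.2)

lemma tN_sup (h : T3a c ζ s) (z : L) {x : L} (hx : c.Fix x) :
    (T (c.dg J : ℤ) : LP K) • c0 (LP K) x ∈ c.Sup z {(c.dg J : ℚ)} := by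
  rw [h.sup.sup_T]
  exact c.Sup_mono (by simp) (h.sup.c0 z x hx.1)

lemma Big.fh (h : T3a c ζ s) {U : J → Submodule K (G L K)} {x x' : L} (hB : Big c ζ s U x x')
    {y : L} (hy : c.Fix y) : ∃ f, FH c ζ s U x x' y f :=
  let ⟨f, a, b⟩ := hB.ex _ (tN_eqv h hy) (c.Sup_mono (by simp) (tN_sup h x' hy))
  ⟨f, a, b⟩

lemma Big.ext {U : J → Submodule K (G L K)} {x x' : L} (hB : Big c ζ s U x x') {f g e : LG L K}
    (hf : f ∈ Lat c ζ s U x) (hg : g ∈ Lat c ζ s U x)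
    (h1 : f - e ∈ c.Sup x' (Iio (c.dg J : ℚ))) (h2 : g - e ∈ c.Sup x' (Iio (c.dg J : ℚ))) :
    f = g :=
  sub_eq_zero.1 (hB.uniq _ (sub_mem hf hg) (by simpa using sub_mem h1 h2))

lemma uh_mono {S S' : Subring K} (h : UH c S) (hle : ∀ γ ∈ S, γ ∈ S') : UH c S' := fun α =>
  let ⟨y, n, a1, a2, a3, a4⟩ := h α
  ⟨y, n, a1, a2, a3, hle _ a4⟩

lemma ih_in (h : T3a c ζ s) (S : Subring K) {y : L} (hy : IH c y) : c.In S (c0 (LP K) y) := by
  intro a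
  rw [h.lp.co_const]
  split_ifs
  · obtain ⟨m, e⟩ := hy.2 a.2
    rw [e]
    exact_mod_cast intCast_mem S m
  · exact S.zero_mem

theorem sys_gn (h : T3a c ζ s) {U : J → Submodule K (G L K)} {x x' : L} (B : Big c ζ s U x x') :
    Sys c ζ s U x (Gn c ζ s U x x') :=
  ⟨gn_fin h B, fun _ _ a _ b d => gn_spn h B b a d, fun _ _ a b _ d e => gn_sub h B a b d e,
    fun S a b d => gn_def0 h B S a b d⟩

theorem sys_ch (h : T3 c ζ s) {U : J → Submodule K (G L K)} {x : L} (hx : c.Fix x)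
    {C : Finset (ℤ × (Φ ⊕ Δ))} (hC : c.IsCh ζ s U x 0 C) :
    Sys c ζ s U x (c.Gens ζ s U x 0 C) := by
  refine ⟨h.chs.fin _ _ _ _ hC, fun S V _ _ _ hG f hf hi => ⟨f, ?_, by
    simpa using (h.sup.in_add _ _ (SM.nonunits V)).1⟩,
    fun S V a _ _ d e => h.chs.chs0 S V _ _ _ _ a hC d e,
    fun S _ b d => h.chs.frac S _ _ _ _ hx hC b d⟩
  obtain ⟨fb, h1, h2, -⟩ := h.chs.basis _ _ _ _ hC
  rw [h2 f hf]
  exact Submodule.sum_mem _ fun b hb => Submodule.smul_mem _ (⟨c.co b f, hi b⟩ : V.toSubring)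
    (Submodule.subset_span ⟨(h1 b hb).1, fun a => hG ((h1 b hb).2.2 a)⟩)

theorem Sys.crd {O : Type} [CommRing O] [Algebra O K] {ζ : O} {κ σ : J → O} {s u : K}
    {U : J → Submodule K (G L K)} {x : L} {Z : Set K} (hO : c.OD ζ σ)
    (h : Sys c (algebraMap O K ζ) (lg κ σ s u) U x Z) : Crd c ζ κ σ s u U x Z :=
  ⟨fun S V a b d e f => h.spn S V (VertA.sd hO b) (lg_in b d e) a.le f,
    fun S V a b d e f g => h.of S V a (VertA.sd hO b) (lg_in b d e) f g⟩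

end Pool.Agent.P.MP_e7d440_ag.Z
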