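import Pool.Agent.P.MP_e7d440_ag.Z.IfaceF
import Pool.Agent.P.MP_e7d440_ag.V.Final
import Pool.Agent.P.MP_e7d440_ag.G.PR
import Pool.Agent.P.MP_e7d440_ag.Au.AU

/-! The final assembly. -/

set_option autoImplicit false

namespace Pool.Agent.P.MP_e7d440_ag.Z

open LieAlgebra LieAlgebra.IsKilling U

theorem fin0 {L Φ Δ O J K : Type} [LieRing L] [LieAlgebra ℚ L] [FiniteDimensional ℚ L]
    [IsKilling ℚ L] [CommRing O] [IsDomain O] [IsDiscreteValuationRing O] [Field K] [CharZero K]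
    [Algebra O K] [Fintype Φ] [Fintype J] (h1 : S_DSC) (h2 : S_CMT)
    (h3 : ∀ [Fintype Δ] [DecidableEq Φ] [DecidableEq Δ] (c : CD L Φ Δ), S_CRE c)
    (p : ℕ) [Fact p.Prime]
    [CharP (IsLocalRing.ResidueField O) p] [PerfectField (IsLocalRing.ResidueField O)]
    (D : V.Dat L Φ Δ O J)
    (H : LieSubalgebra ℚ L) [H.IsCartanSubalgebra] [LieModule.IsTriangularizable ℚ H L]
    (b : (rootSystem H).Base) (rt : Φ ≃ H.root) (sm : Δ ≃ b.support) (ς : Equiv.Perm Φ)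
    (hD : V.Tame D H b rt sm ς) (κ : J → O) (hκ : ∀ j, IsUnit (κ j))
    (hκ' : ∀ i j, i ≠ j → IsUnit (κ i ^ D.ℓ - κ j ^ D.ℓ)) (X : J × Φ → K)
    (hX : AlgebraicIndependent O fun q : D.Idx => X q)
    (hK : Subfield.closure (Set.range (algebraMap O K) ∪ X '' D.Idx) = ⊤)
    (x : L) (hx : x ∈ H ∧ D.InAlc K x) (A : Subalgebra O K) [Algebra.EssFiniteType O A]
    (hA : ∀ 𝔫 : Ideal A, 𝔫.IsMaximal → ∃ C : Finset (ℤ × (Φ ⊕ Δ)), D.IsChart X x 0 C ∧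
      ∃ 𝔭 : Ideal (D.nchart X (fun _ : Unit => x) (fun _ => 0) fun _ => C), 𝔭.IsPrime ∧
        ∀ γ, V.Loc A 𝔫 γ ↔ V.Loc (D.nchart X (fun _ : Unit => x) (fun _ => 0) fun _ => C) 𝔭 γ)
    (B : Type) [CommRing B] [IsLocalRing B] [IsNoetherianRing B] [Algebra B A]
    [Module.Finite B A] [Module.Free B A] : G.PseudoRational B := by
  classical
  obtain ⟨a1, a2, a3⟩ := V.final D H b rt sm ς hD X hX hK (fun _ : Unit => x) (fun _ => hx)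
    (fun _ => 0) A (fun 𝔫 h => let ⟨C, e1, e2⟩ := hA 𝔫 h; ⟨fun _ => C, fun _ => e1, e2⟩) B
  have := Fintype.ofEquiv _ sm.symm
  have hinj := hX.algebraMap_injective
  refine ⟨inferInstance, a1, a2, G.q_BRG B (h1 B A fun 𝔫 h𝔫 => ?_),
    AU.reduced_sub hinj A B _, a3⟩
  obtain ⟨c, hc⟩ := hD.br
  have hO : c.OD D.ζ D.s := ⟨hc.ℓ ▸ hD.ζ_prim, hc.ℓ ▸ hD.ℓ_unit, hD.s_ne, hD.s_nonunit,
    hc.ℓ ▸ hD.s_inj⟩
  have hid : ∀ q : J × Φ, c.al q.2 (D.μ q.1) = 1 ↔ q ∈ D.Idx := fun q => by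
    rw [hc.al _ _ (hD.μ_mem _)]; rfl
  have hI : AlgebraicIndependent O fun q : c.Id D.μ => X q.1 :=
    hX.comp (Equiv.subtypeEquivRight hid) (Equiv.injective _)
  have hG : Gen O fun q : c.Id D.μ => X q.1 := (gen.clos _).2 (by
    rw [← hK]
    congr 2
    ext t
    exact ⟨fun ⟨q, e⟩ => ⟨q.1, (hid _).1 q.2, e⟩, fun ⟨q, hq, e⟩ => ⟨⟨q, (hid _).2 hq⟩, e⟩⟩)
  obtain ⟨C, hC, 𝔭, h𝔭, hl⟩ := hA 𝔫 h𝔫
  refine h2.cmt (algebraMap A K) (algebraMap _ K) 𝔫 𝔭 Subtype.val_injective Subtype.val_injective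
    hl (h3 c p D.ζ κ D.s D.μ c.ρ (fun q => X q.1) x C _ hO hκ (hc.ℓ ▸ hκ')
      (hc.co' hD.μ_mem hD.μ_min) hG hI (hc.cl hx.1 hx.2) (fun α => ?_)
      (hc.ch hD.μ_mem X hx.1 _ _ hC) (fun γ => ?_) 𝔭)
  · obtain ⟨y, n, e1, e2, e3, e4⟩ := uh (c := c) O hO.unit α
    exact ⟨y, n, ⟨e1, e2⟩, e3, e4⟩
  · have e : D.chart X (fun _ : Unit => x) (fun _ => 0) (fun _ => C) = Algebra.adjoin O
        (c.Gens (algebraMap O K D.ζ) (fun j => algebraMap O K (D.s j))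
          (c.cell D.μ fun q => X q.1) x 0 C) := by
      unfold V.Dat.chart
      congr 1
      ext t
      exact ⟨fun ⟨_, e⟩ => (hc.gens hD.μ_mem X hx.1 0 C t).1 e,
        fun e => ⟨(), (hc.gens hD.μ_mem X hx.1 0 C t).2 e⟩⟩
    rw [← e]
    rfl

end Pool.Agent.P.MP_e7d440_ag.Z
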