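import Pool.Agent.P.MP_e7d440_ag.Z.IfaceG
import Pool.Agent.P.MP_e7d440_ag.Z.IfaceC

/-! Global statements on the family over two parameters. -/

set_option autoImplicit false
set_option linter.unusedSectionVars false

namespace Pool.Agent.P.MP_e7d440_ag.Z

open Pool.Agent.P.MP_e7d440_ag.U TensorProduct LieAlgebra LaurentPolynomial Set IsLocalRing

-- args: c
-- hyp: (h : TG c)

variable {L Φ Δ : Type} [LieRing L] [LieAlgebra ℚ L] [Fintype Φ] [Fintype Δ] [DecidableEq Φ]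
  [DecidableEq Δ] (c : CD L Φ Δ)

/-- all local steps over all fields -/
def TG : Prop := ∀ (K : Type) [Field K] [CharZero K] (ζ : K) (J : Type) [Fintype J]
  [DecidableEq J] (s : J → K), c.Pt ζ s → G3 c ζ s

/-- every root takes a unit value on an integral fixed coweight -/
def UO (O : Type) [CommRing O] : Prop :=
  ∀ α, ∃ (y : L) (n : ℤ), IH c y ∧ c.al α y = n ∧ IsUnit (n : O)

/-- `f₀` is the specialization of `f` -/
def Rs {K₀ K : Type} [Field K₀] [CharZero K₀] [Field K] [CharZero K] {R : Subring K}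
    (sp : R →+* K₀) (f : LG L K) (f₀ : LG L K₀) : Prop :=
  ∀ a, ∃ e : c.co a f ∈ R, sp ⟨_, e⟩ = c.co a f₀

/-- a specialization of the legs -/
structure Sq {K₀ K J : Type} [Field K₀] [CharZero K₀] [Field K] [CharZero K] [Algebra K₀ K]
    [Fintype J] [DecidableEq J] (ζ : K₀) (s₀ : J → K₀) (s : J → K) {R : Subring K}
    (sp : R →+* K₀) : Prop where
  pt₀ : c.Pt ζ s₀
  pt : c.Pt (algebraMap K₀ K ζ) s
  const : ∀ a : K₀, ∃ e : algebraMap K₀ K a ∈ R, sp ⟨_, e⟩ = a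
  inv : ∀ γ : R, sp γ ≠ 0 → (γ : K)⁻¹ ∈ R
  leg : ∀ j, ∃ e : s j ∈ R, sp ⟨_, e⟩ = s₀ j

-- deps:
def S_SP0 : Prop := ∀ {K₀ K J : Type} [Field K₀] [CharZero K₀] [Field K] [CharZero K]
  [Algebra K₀ K] [Fintype J] [DecidableEq J] (ζ : K₀) (s₀ : J → K₀) (s : J → K) (R : Subring K)
  (sp : R →+* K₀) (μ : J → L) (X : c.Id μ → K₀) (x : L), Sq c ζ s₀ s sp → (∀ j, c.Min (μ j)) →
    c.HP (algebraMap K₀ K ζ) s R ∧ (∀ f : LG L K, c.In R f → ∃ f₀, Rs c sp f f₀) ∧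
    (∀ a, Rs c sp (bv c (algebraMap K₀ K ζ) a) (bv c ζ a)) ∧
    (∀ f f₀, Rs c sp f f₀ → ∀ j,
      (∀ i, ∃ e : c.crd i (ev (s j) f) ∈ R, sp ⟨_, e⟩ = c.crd i (ev (s₀ j) f₀)) ∧
      ∀ i, ∃ e : c.crd i (ev (s j) (dd f)) ∈ R, sp ⟨_, e⟩ = c.crd i (ev (s₀ j) (dd f₀))) ∧
    ∀ f f₀, Rs c sp f f₀ →
      f ∈ c.Win (algebraMap K₀ K ζ) s (c.cell μ fun p => algebraMap K₀ K (X p)) x 0 →
      f₀ ∈ c.Win ζ s₀ (c.cell μ X) x 0

-- deps: SP0
def S_SP1 : Prop := ∀ {K₀ K J : Type} [Field K₀] [CharZero K₀] [Field K] [CharZero K]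
  [Algebra K₀ K] [Fintype J] [DecidableEq J] (ζ : K₀) (s₀ : J → K₀) (s : J → K) (R : Subring K)
  (sp : R →+* K₀) (μ : J → L) (X : c.Id μ → K₀) (x : L), Sq c ζ s₀ s sp → (∀ j, c.Min (μ j)) →
    c.Fix x → ∀ f₀ ∈ c.Win ζ s₀ (c.cell μ X) x 0,
      ∃ f ∈ c.Win (algebraMap K₀ K ζ) s (c.cell μ fun p => algebraMap K₀ K (X p)) x 0,
        Rs c sp f f₀

-- deps: SP0 SP1
def S_SPG : Prop := ∀ {K₀ K J : Type} [Field K₀] [CharZero K₀] [Field K] [CharZero K]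
  [Algebra K₀ K] [Fintype J] [DecidableEq J] (ζ : K₀) (s₀ : J → K₀) (s : J → K) (R : Subring K)
  (sp : R →+* K₀) (μ : J → L) (X : c.Id μ → K₀) (x x' : L), Sq c ζ s₀ s sp →
    (∀ j, c.Min (μ j)) → Big c ζ s₀ (c.cell μ X) x x' →
    Big c (algebraMap K₀ K ζ) s (c.cell μ fun p => algebraMap K₀ K (X p)) x x' ∧
    (∀ γ ∈ Gn c (algebraMap K₀ K ζ) s (c.cell μ fun p => algebraMap K₀ K (X p)) x x',
      ∃ e : γ ∈ R, sp ⟨γ, e⟩ ∈ Gn c ζ s₀ (c.cell μ X) x x') ∧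
    ∀ γ₀ ∈ Gn c ζ s₀ (c.cell μ X) x x',
      ∃ γ ∈ Gn c (algebraMap K₀ K ζ) s (c.cell μ fun p => algebraMap K₀ K (X p)) x x',
        ∃ e : γ ∈ R, sp ⟨γ, e⟩ = γ₀

-- deps: VF0
def S_FM0 : Prop := ∀ {O K₀ K J : Type} [CommRing O] [IsDomain O] [Field K₀] [CharZero K₀]
  [Field K] [CharZero K] [Algebra O K₀] [Algebra O K] [Algebra K₀ K] [IsScalarTower O K₀ K]
  [Fintype J] [DecidableEq J] (ζ : O) (κ σ : J → O) (s u : K) (R : Subring K) (sp : R →+* K₀)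
  (μ : J → L) (r : L) (X : c.Id μ → K₀) (x : L), c.OD ζ σ → (∀ j, IsUnit (κ j)) →
    (∀ i j, i ≠ j → IsUnit (κ i ^ c.ℓ - κ j ^ c.ℓ)) → c.Co μ r → Gen O X →
    AlgebraicIndependent O X → c.Cl (algebraMap O K₀ ζ) c.ρ x → UO c O → Spc K₀ s u R sp →
    Fm c ζ κ σ s u μ r (fun p => algebraMap K₀ K (X p)) x ∧
      Sq c (algebraMap O K₀ ζ) (fun j => algebraMap O K₀ (σ j)) (lg κ σ s u) sp

-- deps: VF0
def S_FGR : Prop := ∀ {O K J : Type} [CommRing O] [IsDomain O] [Field K] [CharZero K]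
  [Algebra O K] [Fintype J] [DecidableEq J] (ζ : O) (κ σ : J → O) (s u : K) (μ : J → L) (r : L)
  (X : c.Id μ → K) (x x' : L), Fm c ζ κ σ s u μ r X x →
    Big c (algebraMap O K ζ) (lg κ σ s u) (c.cell μ X) x x' →
    ∃ (w : K → ℚ) (δ : Derivation O K K),
      ∀ γ ∈ insert s (insert u (Gn c (algebraMap O K ζ) (lg κ σ s u) (c.cell μ X) x x')),
        0 < w γ ∧ δ γ = (w γ : K) * γ

-- deps: VF0
def S_SDR : Prop := ∀ {O K J : Type} [CommRing O] [IsDomain O] [Field K] [CharZero K]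
  [Algebra O K] [Fintype J] [DecidableEq J] (ζ : O) (κ σ : J → O) (s u : K) (μ : J → L) (r : L)
  (X : c.Id μ → K) (x x' z : L) (n : ℕ) (a : Fin n → Φ × ℤ) (t : Fin n → K)
  (U' : J → Submodule K (G L K)), Fm c ζ κ σ s u μ r X x → Cr c (algebraMap O K ζ) x x' z a →
    c.cell μ X = actE (lg κ σ s u) (c.pE (algebraMap O K ζ) a t) U' →
    Big c (algebraMap O K ζ) (lg κ σ s u) U' x x' → Sl c (algebraMap O K ζ) (lg κ σ s u) U' x x' →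
    (∃ δ : Fin n → Derivation O K K, (∀ k, δ k s = 0 ∧ δ k u = 0 ∧
      ∀ γ ∈ Gn c (algebraMap O K ζ) (lg κ σ s u) U' x x', δ k γ = 0) ∧ wr δ t ≠ 0) ∧
    ∃ (δ : Derivation O K K) (w : K → ℚ), δ s = 0 ∧ δ u = 0 ∧
      (∀ γ ∈ Gn c (algebraMap O K ζ) (lg κ σ s u) U' x x', δ γ = (w γ : K) * γ) ∧
      ((∀ γ ∈ Gn c (algebraMap O K ζ) (lg κ σ s u) U' x x', δ γ = 0) →
        Fintype.card (c.Id μ) ≤ n)

-- deps: ARCH NCF NCL VF0 SDR
def S_FVE : Prop := ∀ {O K J : Type} [CommRing O] [IsDomain O] [IsDiscreteValuationRing O]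
  [Field K] [CharZero K] [Algebra O K] [Fintype J] [DecidableEq J] (π ζ : O) (κ σ : J → O)
  (s u : K) (μ : J → L) (r : L) (X : c.Id μ → K) (x : L) (d : ℕ)
  (D : Fin d → Derivation O K K) (τ : Fin d → K) (ν : ℚ) (Z : Set K) (N : Subalgebra O K),
    Irreducible π → Fm c ζ κ σ s u μ r X x → d = Fintype.card (c.Id μ) →
    Lg c ζ κ σ s u (c.cell μ X) D τ ν →
    Sys c (algebraMap O K ζ) (lg κ σ s u) (c.cell μ X) x Z → IsNc N (insert s (insert u Z)) →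
    ∀ 𝔮 : Ideal N, 𝔮.IsPrime → locm (algebraMap N K) 𝔮 (algebraMap O K π) →
      locm (algebraMap N K) 𝔮 s → ∃ (n : ℕ) (t : Fin n → K) (g : Set K), Slc s u N 𝔮 d t g ∧
        (d ≤ n → ∃ y : Fin d → K, Ch N 𝔮 (cs s u y) ∧ loc (algebraMap N K) 𝔮 (wr D y ^ 2))

-- deps: ALG2 RSP SPEC2 ARCH NCF NCL VF0 SPG FM0 FGR FVE
def S_FAM : Prop := ∀ {O K J : Type} [CommRing O] [IsDomain O] [IsDiscreteValuationRing O]
  [Field K] [CharZero K] [Algebra O K] [Fintype J] [DecidableEq J] (p : ℕ) [Fact p.Prime]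
  [CharP (ResidueField O) p] [PerfectField (ResidueField O)] (π ζ : O) (κ σ : J → O) (μ : J → L)
  (r : L) (X : c.Id μ → K) (x x' : L) (N : Subalgebra O K), Irreducible π → c.OD ζ σ →
    (∀ j, IsUnit (κ j)) →
    (∀ i j, i ≠ j → IsUnit (κ i ^ c.ℓ - κ j ^ c.ℓ)) → c.Co μ r → Gen O X →
    AlgebraicIndependent O X → c.Cl (algebraMap O K ζ) c.ρ x → UO c O →
    Big c (algebraMap O K ζ) (fun j => algebraMap O K (σ j)) (c.cell μ X) x x' →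
    IsNc N (Gn c (algebraMap O K ζ) (fun j => algebraMap O K (σ j)) (c.cell μ X) x x') →
    ∃ (d : ℕ) (φ : MvPolynomial (Fin d) O →ₐ[O] N), φ.toRingHom.Finite ∧
      ∃ e, MvPolynomial.C π ∣ e - 1 ∧ FacH φ.toRingHom e

-- deps: ARCH CMF2 NCF NCL VF0 CMT FAM
def S_CRE : Prop := ∀ {O K J : Type} [CommRing O] [IsDomain O] [IsDiscreteValuationRing O]
  [Field K] [CharZero K] [Algebra O K] [Fintype J] [DecidableEq J] (p : ℕ) [Fact p.Prime]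
  [CharP (ResidueField O) p] [PerfectField (ResidueField O)] (ζ : O) (κ σ : J → O) (μ : J → L)
  (r : L) (X : c.Id μ → K) (x : L) (C : Finset (ℤ × (Φ ⊕ Δ))) (A : Subalgebra O K),
    c.OD ζ σ → (∀ j, IsUnit (κ j)) → (∀ i j, i ≠ j → IsUnit (κ i ^ c.ℓ - κ j ^ c.ℓ)) →
    c.Co μ r → Gen O X → AlgebraicIndependent O X → c.Cl (algebraMap O K ζ) c.ρ x → UO c O →
    c.IsCh (algebraMap O K ζ) (fun j => algebraMap O K (σ j)) (c.cell μ X) x 0 C →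
    IsNc A (c.Gens (algebraMap O K ζ) (fun j => algebraMap O K (σ j)) (c.cell μ X) x 0 C) →
    ∀ (𝔭 : Ideal A) [𝔭.IsPrime], G.CMl (Localization.AtPrime 𝔭)

end Pool.Agent.P.MP_e7d440_ag.Z
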