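import Pool.Agent.P.MP_e7d440_ag.Z.BaseL

/-! Statements on big cells, slices and derivations of loops. -/

set_option autoImplicit false
set_option linter.unusedSectionVars false

namespace Pool.Agent.P.MP_e7d440_ag.Z

open Pool.Agent.P.MP_e7d440_ag.U TensorProduct LieAlgebra LaurentPolynomial Set

-- args: c ζ s
-- hyp: (h : T3 c ζ s)

variable {L Φ Δ : Type} [LieRing L] [LieAlgebra ℚ L] [Fintype Φ] [Fintype Δ] [DecidableEq Φ]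
  [DecidableEq Δ] (c : CD L Φ Δ) {K : Type} [Field K] [CharZero K] (ζ : K)
  {J : Type} [Fintype J] [DecidableEq J] (s : J → K)

-- deps:
def S_BR : Prop := ∀ U : J → Submodule K (G L K), (∀ j, c.FD (U j)) →
  ∀ f ∈ c.NN ζ s U, ∀ f' ∈ c.NN ζ s U, ∃ q ∈ c.NN ζ s U, ⁅f, f'⁆ = c.phi s • q

-- deps:
def S_NAK : Prop := ∀ (S : Subring K) (V : ValuationSubring K) (U : J → Submodule K (G L K))
  (x x' : L), Dom S V → c.SD ζ S → c.Fix x → c.Fix x' →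
    (∀ a, (c.dg J : ℚ) ≤ c.wt x' a → c.wt x a < 2 * c.dg J →
      ∃ g ∈ Submodule.span V.toSubring {w | w ∈ c.Win ζ s U x 0 ∧ c.In S w},
        ∀ b, (c.dg J : ℚ) ≤ c.wt x' b → c.co b (g - bv c ζ a) ∈ V.nonunits) →
    ∀ a, (c.dg J : ℚ) ≤ c.wt x' a → c.wt x a < 2 * c.dg J →
      ∃ f ∈ c.Win ζ s U x 0, c.In S f ∧ f - bv c ζ a ∈ c.Sup x' (Iio (c.dg J : ℚ))

-- deps:
structure S_GN : Prop where
  mk' : ∀ (U : J → Submodule K (G L K)) (x x' : L), (∀ j, c.FD (U j)) → c.Fix x → c.Fix x' →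
    (∀ f ∈ c.Eqv ζ, f ∈ c.Sup x' (Ici (c.dg J : ℚ)) → f ∈ c.Sup x (Ici 0)) →
    (∀ f ∈ c.Eqv ζ, f ∈ c.Sup x (Ici (2 * c.dg J : ℚ)) → f ∈ c.Sup x' (Ici (c.dg J : ℚ))) →
    (∀ f ∈ Lat c ζ s U x, f ∈ c.Sup x' (Iio (c.dg J : ℚ)) → f = 0) →
    (∀ a, (c.dg J : ℚ) ≤ c.wt x' a → c.wt x a < 2 * c.dg J →
      ∃ f ∈ Lat c ζ s U x, f - bv c ζ a ∈ c.Sup x' (Iio (c.dg J : ℚ))) → Big c ζ s U x x'
  win : ∀ (U : J → Submodule K (G L K)) (x x' : L), Big c ζ s U x x' → ∀ f ∈ Lat c ζ s U x,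
    (∀ b, (c.dg J : ℚ) ≤ c.wt x' b → c.co b f ≠ 0 → c.wt x b < 2 * c.dg J) → f ∈ c.Win ζ s U x 0
  bas : ∀ (U : J → Submodule K (G L K)) (x x' : L), Big c ζ s U x x' →
    ∃ (A : Finset (ℤ × (Φ ⊕ Δ))) (F : ℤ × (Φ ⊕ Δ) → LG L K),
      (∀ a, a ∈ A ↔ (c.dg J : ℚ) ≤ c.wt x' a ∧ c.wt x a < 2 * c.dg J) ∧
      (∀ a ∈ A, F a ∈ c.Win ζ s U x 0 ∧ F a - bv c ζ a ∈ c.Sup x' (Iio (c.dg J : ℚ))) ∧
      ∀ f ∈ c.Win ζ s U x 0, f = ∑ a ∈ A, (c.co a f / (c.ℓ : K)) • F a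
  int : ∀ (U : J → Submodule K (G L K)) (x x' : L) (S : Subring K) (M : Set K),
    Big c ζ s U x x' → c.SD ζ S → (∀ j, s j ∈ S) → Gn c ζ s U x x' ⊆ S → SM S M →
    ∀ f ∈ Lat c ζ s U x, (∀ b, (c.dg J : ℚ) ≤ c.wt x' b → c.co b f ∈ M) → c.In M f

-- deps:
def S_SPU : Prop := ∀ (S : Subring K) (V : ValuationSubring K) (lam : J → L) (n : ℕ)
  (a : Fin n → Φ × ℤ) (y : Fin n → K) (x : L), c.SD ζ S → (∀ j, s j ∈ S) → (∀ γ ∈ S, γ ∈ V) →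
    (∀ k, y k ∈ S) → (∀ j, c.Min (lam j)) → (∀ k, 0 < c.val (a k) c.ρ) → c.Cl ζ c.ρ x →
    c.Spn ζ s S V (c.pU s (fun k => c.E ζ (a k)) y lam) x

-- deps: GN
structure S_ACT : Prop where
  mul : ∀ (g g' : Op L K) (x x' : L), Un c ζ g x x' → Un c ζ g' x x' → Un c ζ (g * g') x x'
  inv : ∀ (g g' : Op L K) (x x' : L), Un c ζ g x x' → g * g' = 1 → Un c ζ g' x x'
  pE : ∀ (x x' : L) (n : ℕ) (a : Fin n → Φ × ℤ) (y : Fin n → K), c.Cl ζ c.ρ x → c.Fix x' →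
    (∀ k, 0 < c.val (a k) c.ρ ∧ c.val (a k) x' < 0) → Un c ζ (c.pE ζ a y) x x'
  exE : ∀ (x x' : L) (a : Φ × ℤ) (t : K), c.Cl ζ c.ρ x → c.Fix x' → 0 < c.val a c.ρ →
    c.val a x' < 0 → Un c ζ (ex (t • c.E ζ a)) x x'
  cr : ∀ (x x' z : L) (n : ℕ) (a : Fin n → Φ × ℤ), Cr c ζ x x' z a → c.Fix x' ∧
    (∀ k, c.Valid ζ (a k) ∧ 0 < c.val (a k) c.ρ ∧ c.val (a k) x' < 0 ∧ c.val (a k) z < 0) ∧
    (∀ a', c.Valid ζ a' → 0 < c.val a' c.ρ → c.val a' x' < 0 → ∃ k, c.Sim a' (a k)) ∧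
    ∀ f ∈ Nn c ζ x', f = ∑ k, c.cE (a k) f • c.E ζ (a k)
  lat : ∀ (g : Op L K) (U : J → Submodule K (G L K)) (x x' : L), Un c ζ g x x' →
    (∀ j, c.FD (U j)) → ∀ f, g f ∈ Lat c ζ s (actE s g U) x ↔ f ∈ Lat c ζ s U x
  fh : ∀ (g : Op L K) (U : J → Submodule K (G L K)) (x x' h : L) (f : LG L K), Un c ζ g x x' →
    (∀ j, c.FD (U j)) → c.Fix h → (FH c ζ s (actE s g U) x x' h (g f) ↔ FH c ζ s U x x' h f)
  big : ∀ (g : Op L K) (U : J → Submodule K (G L K)) (x x' : L), Un c ζ g x x' →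
    Big c ζ s U x x' → Big c ζ s (actE s g U) x x'
  gn : ∀ (g : Op L K) (U : J → Submodule K (G L K)) (x x' : L) (S : Subring K), Un c ζ g x x' →
    Big c ζ s U x x' → c.SD ζ S → (∀ j, s j ∈ S) → c.IntB ζ S g → Gn c ζ s U x x' ⊆ S →
    Gn c ζ s (actE s g U) x x' ⊆ S

-- deps:
structure S_NEAR : Prop where
  pt : c.Pt ζ s
  near : ∀ x', c.Fix x' → ∃ z, c.Reg ζ z ∧ c.Cl ζ z x' ∧
    ∀ a, c.Valid ζ a → 0 < c.val a c.ρ → c.val a z < 0 → c.val a x' < 0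
  gal : ∀ z z' n z₀ (a : Fin n → Φ × ℤ), c.Same ζ z z' → c.Gal ζ z n z₀ a → c.Gal ζ z' n z₀ a
  cmp : ∀ x' z z₀ n n₀ (a : Fin n → Φ × ℤ) (a₀ : Fin n₀ → Φ × ℤ), c.Reg ζ z → c.Reg ζ z₀ →
    c.Cl ζ z₀ x' → c.Gal ζ z n c.ρ a → c.Gal ζ z₀ n₀ c.ρ a₀ → (∀ k, c.val (a k) x' < 0) →
    n ≤ n₀ ∧ (n₀ ≤ n → c.Same ζ z z₀)

-- deps: NEAR
def S_CELL : Prop := ∀ (V : ValuationSubring K) (lam : J → L) (r : L) (X : c.Id lam → K) (x : L),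
  c.VD ζ s V → c.Co lam r → c.Cl ζ c.ρ x →
    ∃ (x' z : L) (n : ℕ) (a : Fin n → Φ × ℤ) (y : Fin n → K), Cr c ζ x x' z a ∧ (∀ k, y k ∈ V) ∧
      c.Red ζ s V (c.cell lam X) (c.pE ζ a y) x x' ∧
      (Fintype.card (c.Id lam) ≤ n → ∃ (lam' : J → L) (r' : L) (y' : Fin n → K)
        (X' : c.Id lam' → K), c.Co lam' r' ∧ c.Gal ζ (c.ρ + c.bar lam') n c.ρ a ∧
          n = Fintype.card (c.Id lam') ∧
          c.cell lam X = c.pU s (fun k => c.E ζ (a k)) y' lam' ∧ c.cell lam X = c.cell lam' X')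

-- deps: NAK GN
def S_BIG : Prop := ∀ (V : ValuationSubring K) (U : J → Submodule K (G L K)) (g : Op L K)
  (x x' : L), c.SD ζ V.toSubring → (∀ j, s j ∈ V.nonunits) → (∀ j, c.FD (U j)) → c.Fix x →
    c.Fix x' → Un c ζ g x x' → c.IntB ζ V g → c.Red ζ s V U g x x' →
    Big c ζ s U x x' ∧ Gn c ζ s U x x' ⊆ V

-- deps: BR
def S_SL1 : Prop := ∀ (U : J → Submodule K (G L K)) (x x' : L) (a : Φ × ℤ), Big c ζ s U x x' →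
  0 < c.val a c.ρ → c.val a x' < 0 →
    (∀ h f b, c.Fix h → FH c ζ s U x x' h f → c.dg J + c.val a x' < c.wt x' b →
      (c.dg J : ℚ) < c.wt c.ρ b → c.co b f = 0) →
    ∃ t : K, ∀ h f, c.Fix h → FH c ζ s U x x' h f →
      c.cE (a.1, a.2 + c.dg J) f = t * (c.al a.1 h : K)

-- deps: GN ACT SL1
def S_SLS : Prop := ∀ (U : J → Submodule K (G L K)) (x x' : L) (a : Φ × ℤ), Big c ζ s U x x' →
  c.Cl ζ c.ρ x → c.Valid ζ a → 0 < c.val a c.ρ → c.val a x' < 0 →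
    (∀ h f b, c.Fix h → FH c ζ s U x x' h f → c.dg J + c.val a x' < c.wt x' b →
      (c.dg J : ℚ) < c.wt c.ρ b → c.co b f = 0) →
    ∃ t : K, (∀ V : ValuationSubring K, c.SD ζ V.toSubring → UH c V.toSubring → (∀ j, s j ∈ V) →
        Gn c ζ s U x x' ⊆ V → t ∈ V) ∧
      ∀ h f, c.Fix h → FH c ζ s U x x' h f →
        c.cE (a.1, a.2 + c.dg J) (ex (t • c.E ζ a) f) = 0 ∧
        ∀ b, c.dg J + c.val a x' ≤ c.wt x' b → ¬ c.Ty (a.1, a.2 + c.dg J) b →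
          c.co b (ex (t • c.E ζ a) f) = c.co b f

-- deps: ACT SLS
def S_SLC : Prop := ∀ (U : J → Submodule K (G L K)) (x x' z : L) (n : ℕ) (a : Fin n → Φ × ℤ),
  Big c ζ s U x x' → Cr c ζ x x' z a →
    ∃ (t : Fin n → K) (U' : J → Submodule K (G L K)), U = actE s (c.pE ζ a t) U' ∧
      Big c ζ s U' x x' ∧ Sl c ζ s U' x x' ∧
      ∀ V : ValuationSubring K, c.SD ζ V.toSubring → UH c V.toSubring → (∀ j, s j ∈ V) →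
        Gn c ζ s U x x' ⊆ V → (∀ k, t k ∈ V) ∧ Gn c ζ s U' x x' ⊆ V

-- deps:
structure S_NF0 : Prop where
  pt : c.Pt ζ s
  small : ∀ (S : Subring K) (M : Set K) (n : ℕ) (a : Fin n → Φ × ℤ) (y : Fin n → K), c.SD ζ S →
    SM S M → M ⊆ S → (∀ k, y k ∈ M) → ∀ f, c.In S f → c.In M (c.pE ζ a y f - f)
  nf0 : ∀ (V : ValuationSubring K) (z' : L) (n : ℕ) (z : L) (a : Fin n → Φ × ℤ) (y : Fin n → K),
    c.SD ζ V.toSubring → UH c V.toSubring → c.Reg ζ z' → c.Gal ζ z' n z a → (∀ k, y k ∈ V) →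
    (∀ h, IH c h → c.In V.nonunits (c.pE ζ a y (c0 (LP K) h) - c0 (LP K) h)) →
    ∀ k, y k ∈ V.nonunits

-- deps: GN ACT NF0
def S_RSD : Prop := ∀ (V : ValuationSubring K) (U' : J → Submodule K (G L K)) (x x' z : L)
  (n : ℕ) (a : Fin n → Φ × ℤ) (y t : Fin n → K), c.SD ζ V.toSubring → UH c V.toSubring →
    (∀ j, s j ∈ V) → Cr c ζ x x' z a → (∀ k, y k ∈ V) → (∀ k, t k ∈ V) →
    c.Red ζ s V (actE s (c.pE ζ a t) U') (c.pE ζ a y) x x' → Big c ζ s U' x x' →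
    Sl c ζ s U' x x' → Gn c ζ s U' x x' ⊆ V → Gn c ζ s U' x x' ⊆ V.nonunits

-- deps: ACT
structure S_SLU : Prop where
  u1 : ∀ (lam : J → L) (x x' : L), (∀ j, c.Min (lam j)) →
    Big c ζ s (fun j => c.U1 K (lam j)) x x' → Sl c ζ s (fun j => c.U1 K (lam j)) x x'
  slu : ∀ (U : J → Submodule K (G L K)) (x x' z : L) (n : ℕ) (a : Fin n → Φ × ℤ) (w : Fin n → K),
    Cr c ζ x x' z a → Big c ζ s U x x' → Sl c ζ s U x x' →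
    Sl c ζ s (actE s (c.pE ζ a w) U) x x' → ∀ k, w k = 0

-- deps: ACT CELL BIG SLC RSD SLU
def S_VRT : Prop := ∀ (R : Subring K) (V : ValuationSubring K) (μ : J → L) (r : L)
  (X : c.Id μ → K) (x : L), Dom R V → c.SD ζ R → (∀ j, s j ∈ R) → UH c R →
    (∀ γ : K, (∀ V' : ValuationSubring K, (∀ γ' ∈ R, γ' ∈ V') → γ ∈ V') → γ ∈ R) →
    c.VD ζ s V → c.Co μ r → c.Cl ζ c.ρ x → c.Spn ζ s R V (c.cell μ X) x →
    ∃ (x' z : L) (n : ℕ) (a : Fin n → Φ × ℤ) (t : Fin n → K) (U' : J → Submodule K (G L K)),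
      Cr c ζ x x' z a ∧ c.cell μ X = actE s (c.pE ζ a t) U' ∧ Big c ζ s U' x x' ∧
      Sl c ζ s U' x x' ∧ (∀ k, t k ∈ R) ∧ Gn c ζ s U' x x' ⊆ R ∧
      Gn c ζ s U' x x' ⊆ V.nonunits ∧
      (∀ S : Subring K, c.SD ζ S → (∀ j, s j ∈ S) → (∀ γ ∈ S, γ ∈ V) → (∀ k, t k ∈ S) →
        Gn c ζ s U' x x' ⊆ S → c.Spn ζ s S V (c.cell μ X) x) ∧
      (Fintype.card (c.Id μ) ≤ n → ∃ (lam : J → L) (r' : L) (X' : c.Id lam → K), c.Co lam r' ∧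
        c.Gal ζ (c.ρ + c.bar lam) n c.ρ a ∧ n = Fintype.card (c.Id lam) ∧
        c.cell μ X = c.pU s (fun k => c.E ζ (a k)) t lam ∧ c.cell μ X = c.cell lam X')

-- deps:
structure S_DL : Prop where
  sup : ∀ (δ : K →+ K) (z : L) (P : Set ℚ) (f : LG L K), f ∈ c.Sup z P → dl c δ f ∈ c.Sup z P
  cf : ∀ (δ : K →+ K) m (f : LG L K), cf m (dl c δ f) = mqa δ (cf m f)
  dd : ∀ (δ : K →+ K) (f : LG L K), dl c δ (dd f) = dd (dl c δ f)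
  T : ∀ (δ : K →+ K) (k : ℤ) (f : LG L K),
    dl c δ ((T k : LP K) • f) = (T k : LP K) • dl c δ f
  eqv : ∀ (δ : K →+ K) ε, Der ζ s δ ε → ∀ f ∈ c.Eqv ζ, dl c δ f ∈ c.Eqv ζ
  lie : ∀ (δ : K →+ K) ε, Der ζ s δ ε → ∀ f g : LG L K,
    dl c δ ⁅f, g⁆ = ⁅dl c δ f, g⁆ + ⁅f, dl c δ g⁆
  smul : ∀ (δ : K →+ K) ε, Der ζ s δ ε → ∀ (t : K) (f : LG L K),
    dl c δ (t • f) = δ t • f + t • dl c δ f
  c0 : ∀ (δ : K →+ K) ε, Der ζ s δ ε → ∀ x : L, dl c δ (c0 (LP K) x) = 0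
  bv : ∀ (δ : K →+ K) ε, Der ζ s δ ε → ∀ a, dl c δ (bv c ζ a) = 0
  E : ∀ (δ : K →+ K) ε, Der ζ s δ ε → ∀ a, dl c δ (c.E ζ a) = 0
  ev : ∀ (δ : K →+ K) ε, Der ζ s δ ε → ∀ j (f : LG L K),
    mqa δ (ev (s j) f) = ev (s j) (dl c δ f) + (ε : K) • ev (s j) (U.dd f)

-- deps: DL
def S_VF1 : Prop := ∀ (δ : K →+ K) (ε : ℚ) (ξ : LG L K) (U : J → Submodule K (G L K)),
  Der ζ s δ ε → ξ ∈ c.Eqv ζ → (∀ j, c.FD (U j)) → Leg δ (fun j => ev (s j) ξ) U →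
    Pres c ζ s δ ε ξ U

-- deps:
def S_VF2 : Prop := ∀ (lam : J → L) (X : c.Id lam → K) (ξ : J → G L K), (∀ j, c.Min (lam j)) →
  ∃ v : c.Id lam → K, ∀ (δ : K →+ K) (ε : ℚ), Der ζ s δ ε →
    (∀ p, δ (X p) = v p) → Leg δ ξ (c.cell lam X)

-- deps: DL
def S_CNJ : Prop := ∀ (x' : L) (n : ℕ) (a : Fin n → Φ × ℤ) (t : Fin n → K), c.Fix x' →
  (∀ k, 0 < c.val (a k) c.ρ ∧ c.val (a k) x' < 0) →
    ∃ v : Fin n → LG L K, (∀ l, v l ∈ Nn c ζ x') ∧ ∀ (δ : K →+ K) (ξ : LG L K)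
      (U : J → Submodule K (G L K)), Der ζ s δ 0 → (∀ j, c.FD (U j)) →
        Pres c ζ s δ 0 (c.pE ζ a t ξ) (actE s (c.pE ζ a t) U) →
        Pres c ζ s δ 0 (ξ - ∑ l, δ (t l) • v l) U

-- deps: DL
def S_KIL : Prop := ∀ (U : J → Submodule K (G L K)) (x x' χ : L) (δ : K →+ K) (η : LG L K),
  Big c ζ s U x x' → Sl c ζ s U x x' → c.Cl ζ c.ρ x → c.Fix χ → Der ζ s δ 0 → η ∈ Nn c ζ x' →
    Pres c ζ s δ 0 (c0 (LP K) χ + η) U → η = 0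

-- deps: DL
def S_EIG : Prop := ∀ (U : J → Submodule K (G L K)) (x x' χ : L) (δ : K →+ K) (ε : ℚ),
  Big c ζ s U x x' → c.Fix χ → Der ζ s δ ε → Pres c ζ s δ ε (c0 (LP K) χ) U →
    ∀ γ ∈ Gn c ζ s U x x', ∃ a b : ℤ × (Φ ⊕ Δ), (c.dg J : ℚ) ≤ c.wt x' a ∧
      c.wt x' b < c.dg J ∧
      δ γ = ((ε * a.1 - c.wt0 χ a.2 - (ε * b.1 - c.wt0 χ b.2) : ℚ) : K) * γ

-- deps: GN DL
def S_FIX : Prop := ∀ (U : J → Submodule K (G L K)) (x x' : L) (δ : K →+ K),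
  Big c ζ s U x x' → Der ζ s δ 0 → Pres c ζ s δ 0 (c0 (LP K) c.ρ) U →
    (∀ γ ∈ Gn c ζ s U x x', δ γ = 0) →
    ∃ lam : J → L, (∀ j, c.Min (lam j)) ∧ U = fun j => c.U1 K (lam j)

-- deps: ACT VF1 VF2 CNJ KIL
def S_TAN : Prop := ∀ (μ : J → L) (X : c.Id μ → K) (U' : J → Submodule K (G L K)) (x x' z : L)
  (n : ℕ) (a : Fin n → Φ × ℤ) (t : Fin n → K), (∀ j, c.Min (μ j)) → Cr c ζ x x' z a →
    c.cell μ X = actE s (c.pE ζ a t) U' → Big c ζ s U' x x' → Sl c ζ s U' x x' →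
    (∀ χ, c.Fix χ → ∃ v : c.Id μ → K, ∀ δ : K →+ K, Der ζ s δ 0 → (∀ p, δ (X p) = v p) →
      Pres c ζ s δ 0 (c0 (LP K) χ) U') ∧
    ∃ v : Fin n → c.Id μ → K, ∀ δ : Fin n → K →+ K, (∀ k, Der ζ s (δ k) 0) →
      (∀ k p, δ k (X p) = v k p) → (∀ k, Pres c ζ s (δ k) 0 (c0 (LP K) (0 : L)) U') ∧
        (Matrix.of fun l k => δ k (t l)).det ≠ 0

/-- the local steps used globally -/
structure G3 : Prop extends T3 c ζ s where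
  nak : S_NAK c ζ s
  gn : S_GN c ζ s
  spu : S_SPU c ζ s
  act : S_ACT c ζ s
  cel : S_CELL c ζ s
  big : S_BIG c ζ s
  vrt : S_VRT c ζ s
  vf1 : S_VF1 c ζ s
  vf2 : S_VF2 c ζ s
  eig : S_EIG c ζ s
  fixu : S_FIX c ζ s
  tng : S_TAN c ζ s

end Pool.Agent.P.MP_e7d440_ag.Z
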