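import Pool.Agent.P.MP_e7d440_ag.Z.IfaceB

/-! Step CYC. -/

set_option autoImplicit false
set_option linter.unusedSectionVars false

namespace Pool.Agent.P.MP_e7d440_ag.Z

open IsLocalRing MvPolynomial U GrA

namespace CycA

lemma sat {K : Type} [Field K] {T : Subring K} {p s : K} (hp : p ∈ T) (hs : s ∈ T) (h0 : p ≠ 0)
    (pr : ∀ a ∈ T, ∀ b ∈ T, a * b / p ∈ T → a / p ∈ T ∨ b / p ∈ T) (hn : s / p ∉ T) (N : ℕ) :
    ∀ (M : ℕ) (x : K), p ^ M * x ∈ T → s ^ N * x ∈ T → x ∈ T := by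
  have h1 : ∀ n : ℕ, s ^ n / p ∉ T := fun n => by
    induction n with
    | zero => exact fun h => hn (by simpa [div_eq_mul_inv] using mul_mem hs h)
    | succ n ih => exact fun h => (pr _ (pow_mem hs n) _ hs (pow_succ s n ▸ h)).elim ih hn
  intro M
  induction M with
  | zero => exact fun x h _ => by simpa using h
  | succ M ih =>
    intro x h2 h3
    have h4 : p * x ∈ T := ih _ (by rwa [← mul_assoc, ← pow_succ])
      (by rw [mul_left_comm]; exact mul_mem hp h3)
    have h5 : p * x / p = x := mul_div_cancel_left₀ x h0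
    exact h5 ▸ (pr _ (pow_mem hs N) _ h4 (by rwa [mul_div_assoc, h5])).resolve_left (h1 N)

lemma mem {O K κ : Type} [CommRing O] [Field K] [Algebra O K] {T : Subring K} {z : κ → K}
    (h : Has O T z) (F : MvPolynomial κ O) : aeval z F ∈ T := by
  induction F using MvPolynomial.induction_on with
  | C a => simpa using h.1 a
  | add p q hp hq => simpa using add_mem hp hq
  | mul_X p j hp => simpa using mul_mem hp (h.2 j)

end CycA

theorem p_CYC (hH2 : S_H2) :
    S_CYC := by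
  intro O K κ _ _ _ _ _ _ π z i₀ T V hπ hN hD hT hz hV pr hn
  have h0 : algebraMap O K π ≠ 0 := (map_ne_zero_iff _ hz.algebraMap_injective).2 hπ.ne_zero
  have key : ∀ γ, InF O z γ → ∃ a b : MvPolynomial κ O, aeval z b ≠ 0 ∧
      γ * aeval z b = aeval z a ∧ ∀ x, x * aeval z a ∈ T → x * aeval z b ∈ T → x ∈ T := by
    rintro γ ⟨F, H, hH, e⟩
    obtain ⟨c, a, b, rfl, rfl, r, hr, M, h1, h2⟩ := hH2 O κ π i₀ F H hπ fun h => hH (by simp [h])
    rw [map_mul] at hH
    refine ⟨a, b, right_ne_zero_of_mul hH, mul_left_cancel₀ (left_ne_zero_of_mul hH) ?_,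
      fun x ha hb => ?_⟩
    · rw [← map_mul, ← e, map_mul, mul_left_comm]
    · have h3 : aeval z r ∉ V.nonunits := fun h => hr ((hV r).1 h)
      have h4 : aeval z r ≠ 0 := fun h => h3 (h ▸ zero_mem _)
      have h5 : ∀ G, r * G ∈ Ideal.span {a, b} → aeval z G * x ∈ T := fun G hG => by
        obtain ⟨u, w, e'⟩ := Ideal.mem_span_pair.1 hG
        have e' := congrArg (aeval z) e'
        simp only [map_add, map_mul] at e'
        have : aeval z G * x = (aeval z r)⁻¹ *
            (aeval z u * (x * aeval z a) + aeval z w * (x * aeval z b)) := by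
          rw [eq_inv_mul_iff_mul_eq₀ h4]
          linear_combination -x * e'
        rw [this]
        exact mul_mem (hD.inv _ (CycA.mem hT r) h3)
          (add_mem (mul_mem (CycA.mem hT u) ha) (mul_mem (CycA.mem hT w) hb))
      exact CycA.sat (hT.1 π) (hT.2 i₀) h0 pr hn M M x (by simpa using h5 _ h1)
        (by simpa using h5 _ h2)
  refine ⟨fun c hc h => ?_, fun b hb hb0 => ?_⟩
  · obtain ⟨a, b, h1, e, h2⟩ := key c h
    refine ⟨a, b, h1, hD.le _ (h2 _ ?_ ?_), e⟩
    · rwa [← e, mul_comm c, inv_mul_cancel_left₀ h1]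
    · rw [inv_mul_cancel₀ h1]
      exact one_mem T
  · obtain ⟨_, ⟨e, ⟨he, F', H', hH', e1⟩, rfl⟩, hmax⟩ := set_has_maximal_iff_noetherian.2 hN
      {I | ∃ e : T, ((e : K) ≠ 0 ∧ InF O z (e / b)) ∧ I = Ideal.span {e}}
      ⟨_, ⟨b, hb⟩, ⟨hb0, 1, 1, by simp, by simp [hb0]⟩, rfl⟩
    first
      | refine ⟨e, e.2, he, ⟨F', H', hH', e1⟩, fun c hc ⟨F, H, hH, e2⟩ => ?_⟩
      | refine ⟨e, e.2, ⟨F', H', hH', e1⟩, fun c hc ⟨F, H, hH, e2⟩ => ?_⟩
    have hF' : aeval z F' ≠ 0 := e1 ▸ mul_ne_zero (div_ne_zero he hb0) hH'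
    obtain ⟨a', b', h1, e3, h2⟩ := key (c / e) ⟨F * H', H * F', by simp [hH, hF'], by
      rw [map_mul, map_mul, ← e1, ← e2]
      field_simp⟩
    have hx : e / aeval z b' ∈ T := h2 _ (by
      rw [← e3]
      convert hc using 1
      field_simp) (by rw [div_mul_cancel₀ _ h1]; exact e.2)
    have le : Ideal.span {e} ≤ Ideal.span {(⟨_, hx⟩ : T)} :=
      Ideal.span_singleton_le_span_singleton.2
        ⟨⟨_, CycA.mem hT b'⟩, Subtype.ext (div_mul_cancel₀ _ h1).symm⟩
    have eq := eq_of_le_of_not_lt le (hmax _ ⟨⟨_, hx⟩, ⟨div_ne_zero he h1, F', H' * b',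
      by simp [hH', h1], by
        rw [map_mul, ← e1]
        field_simp⟩, rfl⟩)
    obtain ⟨t, ht⟩ := Ideal.span_singleton_le_span_singleton.1 eq.ge
    have ht : e / aeval z b' = e * t := congrArg Subtype.val ht
    have : c / e = aeval z a' * t := by
      rw [← e3, mul_assoc, ← mul_right_inj' he, mul_left_comm (e : K), ← mul_assoc (e : K),
        mul_comm (e : K) (aeval z b'), mul_assoc, ← ht]
      field_simp
    rw [this]
    exact mul_mem (CycA.mem hT a') t.2

end Pool.Agent.P.MP_e7d440_ag.Z
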