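import Pool.Agent.P.MP_e7d440_ag.Z.IfaceA

/-! Step FROB. -/

set_option autoImplicit false
set_option linter.unusedSectionVars false

namespace Pool.Agent.P.MP_e7d440_ag.Z

open IsLocalRing MvPolynomial U

namespace FrobA

variable {k σ : Type} [Field k]

/-- the quotient of an exponent vector by `q` -/
noncomputable def dv (q : ℕ) (m : σ →₀ ℕ) : σ →₀ ℕ := m.mapRange (· / q) (Nat.zero_div q)

theorem dv_apply (q : ℕ) (m : σ →₀ ℕ) (i : σ) : dv q m i = m i / q := by
  simp [dv]

open Classical in
/-- the part of a polynomial with exponents congruent to `a`, exponents divided by `q` -/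
noncomputable def L (q : ℕ) (a : σ → ℕ) : MvPolynomial σ k →ₗ[k] MvPolynomial σ k :=
  (basisMonomials σ k).constr k fun m =>
    if ∀ i, m i % q = a i then monomial (dv q m) 1 else 0

open Classical in
theorem L_mono (q : ℕ) (a : σ → ℕ) (m : σ →₀ ℕ) (c : k) :
    L q a (monomial m c) = if ∀ i, m i % q = a i then monomial (dv q m) c else 0 := by
  have h1 : (monomial m c : MvPolynomial σ k) = c • basisMonomials σ k m := by
    rw [coe_basisMonomials, smul_monomial, smul_eq_mul, mul_one]
  rw [h1, map_smul, L, Module.Basis.constr_basis]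
  split_ifs
  · rw [smul_monomial, smul_eq_mul, mul_one]
  · rw [smul_zero]

theorem L_semi (q : ℕ) (hq : 0 < q) (a : σ → ℕ) (G F : MvPolynomial σ k) :
    L q a (expand q G * F) = G * L q a F := by
  induction G using MvPolynomial.induction_on' with
  | add G1 G2 h1 h2 => rw [map_add, add_mul, map_add, h1, h2, add_mul]
  | monomial n d =>
    induction F using MvPolynomial.induction_on' with
    | add F1 F2 h1 h2 => rw [mul_add, map_add, h1, h2, map_add, mul_add]
    | monomial m c =>
      rw [expand_monomial, monomial_mul, L_mono, L_mono]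
      have h1 : ∀ i, (q • n + m) i % q = m i % q := fun i => by
        simp
      have h2 : dv q (q • n + m) = n + dv q m := by
        ext i
        simp [dv_apply, Nat.mul_add_div hq]
      by_cases h : ∀ i, m i % q = a i
      · rw [if_pos h, if_pos (fun i => (h1 i).trans (h i)), h2, monomial_mul]
      · rw [if_neg h, if_neg (fun h' => h fun i => (h1 i).symm.trans (h' i)), mul_zero]

theorem L_sum [Fintype σ] [DecidableEq σ] (q : ℕ) (hq : 0 < q) (F : MvPolynomial σ k) :
    F = ∑ a : σ → Fin q, expand q (L q (fun i => a i) F) *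
      monomial (Finsupp.equivFunOnFinite.symm fun i => (a i : ℕ)) 1 := by
  induction F using MvPolynomial.induction_on' with
  | add F1 F2 h1 h2 =>
    simp only [map_add, add_mul, Finset.sum_add_distrib]
    rw [← h1, ← h2]
  | monomial m c =>
    rw [Finset.sum_eq_single (fun i => (⟨m i % q, Nat.mod_lt _ hq⟩ : Fin q))]
    · rw [L_mono, if_pos (fun i => rfl), expand_monomial, monomial_mul, mul_one]
      congr 2
      ext i
      simp [dv_apply, Nat.div_add_mod]
    · intro b _ hb
      rw [L_mono, if_neg, map_zero, zero_mul]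
      intro h
      exact hb (funext fun i => Fin.ext (h i).symm)
    · intro h
      exact absurd (Finset.mem_univ _) h

variable (p : ℕ) [Fact p.Prime] [CharP k p] [PerfectRing k p] (e : ℕ)

/-- the coefficientwise root -/
noncomputable def rt : MvPolynomial σ k →+* MvPolynomial σ k :=
  MvPolynomial.map ((iterateFrobeniusEquiv k p e).symm : k →+* k)

theorem pow_eq (G : MvPolynomial σ k) :
    G ^ p ^ e = expand (p ^ e) (MvPolynomial.map (iterateFrobenius k p e) G) := by
  rw [← map_expand, map_iterateFrobenius_expand]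

theorem rt_fr (G : MvPolynomial σ k) :
    rt p e (MvPolynomial.map (iterateFrobenius k p e) G) = G := by
  have h : ((iterateFrobeniusEquiv k p e).symm : k →+* k).comp (iterateFrobenius k p e) =
      RingHom.id k := by
    ext c
    exact (iterateFrobeniusEquiv k p e).symm_apply_apply c
  rw [rt, map_map, h, map_id]

theorem fr_rt (G : MvPolynomial σ k) :
    MvPolynomial.map (iterateFrobenius k p e) (rt p e G) = G := by
  have h : (iterateFrobenius k p e).comp ((iterateFrobeniusEquiv k p e).symm : k →+* k) =
      RingHom.id k := by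
    ext c
    exact (iterateFrobeniusEquiv k p e).apply_symm_apply c
  rw [rt, map_map, h, map_id]

/-- the splitting operators -/
noncomputable def Lam (a : σ → ℕ) : MvPolynomial σ k →+ MvPolynomial σ k :=
  (rt p e).toAddMonoidHom.comp (L (p ^ e) a).toAddMonoidHom

theorem Lam_apply (a : σ → ℕ) (F : MvPolynomial σ k) :
    Lam p e a F = rt p e (L (p ^ e) a F) := rfl

theorem Lam_semi (a : σ → ℕ) (G F : MvPolynomial σ k) :
    Lam p e a (G ^ p ^ e * F) = G * Lam p e a F := by
  rw [Lam_apply, Lam_apply, pow_eq,
    L_semi _ (pow_pos (Fact.out : p.Prime).pos e), map_mul, rt_fr]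

theorem Lam_pow (a : σ → ℕ) (F : MvPolynomial σ k) :
    Lam p e a F ^ p ^ e = expand (p ^ e) (L (p ^ e) a F) := by
  rw [pow_eq, Lam_apply, fr_rt]

theorem L_top (q : ℕ) (F : MvPolynomial σ k) (h : ∀ m ∈ F.support, ∀ i, m i < q)
    (a : σ →₀ ℕ) (ha : a ∈ F.support) : L q a F = C (coeff a F) := by
  classical
  conv_lhs => rw [F.as_sum]
  rw [map_sum, Finset.sum_eq_single a]
  · rw [L_mono, if_pos (fun i => Nat.mod_eq_of_lt (h a ha i))]
    have h0 : dv q a = 0 := by
      ext i
      rw [dv_apply, Nat.div_eq_of_lt (h a ha i)]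
      rfl
    rw [h0]
    rfl
  · intro b hb hba
    rw [L_mono, if_neg]
    intro h'
    exact hba (Finsupp.ext fun i => by rw [← h' i, Nat.mod_eq_of_lt (h b hb i)])
  · intro h'
    exact absurd ha h'

end FrobA

theorem p_FROB :
    S_FROB := by
  constructor
  · intro k σ _ p _ _ _ _ e
    classical
    refine ⟨σ → Fin (p ^ e), inferInstance,
      fun a => monomial (Finsupp.equivFunOnFinite.symm fun i => (a i : ℕ)) 1,
      fun a => FrobA.Lam p e fun i => a i, fun a G F => FrobA.Lam_semi p e _ G F, fun F => ?_⟩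
    simp only [FrobA.Lam_pow]
    exact FrobA.L_sum _ (pow_pos (Fact.out : p.Prime).pos e) F
  · intro k σ _ p _ _ _ _ F hF
    obtain ⟨a, ha⟩ := support_nonempty.2 hF
    have hc : coeff a F ≠ 0 := mem_support_iff.1 ha
    have hlt : ∀ m ∈ F.support, ∀ i, m i < p ^ F.totalDegree := fun m hm i => by
      have h1 : m i ≤ F.totalDegree :=
        (monomial_le_degreeOf i hm).trans (degreeOf_le_totalDegree F i)
      exact h1.trans_lt (Nat.lt_pow_self (Fact.out : p.Prime).one_lt)
    refine ⟨F.totalDegree, (FrobA.Lam p F.totalDegree a).comp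
      (AddMonoidHom.mulLeft (C (coeff a F)⁻¹)), fun G F' => ?_, ?_⟩
    · rw [AddMonoidHom.comp_apply, AddMonoidHom.comp_apply, AddMonoidHom.coe_mulLeft,
        mul_left_comm, FrobA.Lam_semi]
    · rw [AddMonoidHom.comp_apply, AddMonoidHom.coe_mulLeft, FrobA.Lam_apply, C_mul', map_smul,
        FrobA.L_top _ F hlt a ha, ← C_mul', ← map_mul, inv_mul_cancel₀ hc, map_one, map_one]

end Pool.Agent.P.MP_e7d440_ag.Z
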