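import Pool.Agent.P.MP_e7d440_ag.Z.IfaceB
import Pool.Agent.P.MP_e7d440_ag.Z.IfaceA
import Pool.Agent.P.MP_e7d440_ag.Verb

/-! Step RES. -/

set_option autoImplicit false
set_option linter.unusedSectionVars false

namespace Pool.Agent.P.MP_e7d440_ag.Z

open IsLocalRing MvPolynomial U GrA

namespace ResA

theorem card_le {κ k ν σ : Type} [Field κ] [Field k] [Algebra κ k] [Fintype ν] [Fintype σ]
    (t : σ → k) (y : ν → k) (ht : AlgebraicIndependent κ t)
    (h : ∀ p, IsAlgebraic (Algebra.adjoin κ (Set.range y)) (t p)) :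
    Fintype.card σ ≤ Fintype.card ν ∧
      (Fintype.card ν ≤ Fintype.card σ → AlgebraicIndependent κ y) := by
  have h1 : Set.range t ⊆ (AlgebraicIndependent.matroid κ k).closure (Set.range y) := by
    rintro _ ⟨p, rfl⟩
    rw [AlgebraicIndependent.matroid_closure_eq]
    exact h p
  have h2 : (AlgebraicIndependent.matroid κ k).Indep (Set.range t) := ht.to_subtype_range
  have h3 : (Set.univ : Set σ).encard ≤ (AlgebraicIndependent.matroid κ k).eRk (Set.range y) := by
    rw [← Matroid.eRk_closure_eq, ← ht.injective.encard_image, Set.image_univ, ← h2.eRk_eq_encard]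
    exact Matroid.eRk_mono _ h1
  have h4 : (Set.range y).encard ≤ (Set.univ : Set ν).encard := by
    rw [← Set.image_univ]
    exact Set.encard_image_le _ _
  have h5 := (AlgebraicIndependent.matroid κ k).eRk_le_encard (Set.range y)
  have c1 : (Set.univ : Set σ).encard = Fintype.card σ := by simp
  have c2 : (Set.univ : Set ν).encard = Fintype.card ν := by simp
  refine ⟨?_, fun hc => ?_⟩
  · have := h3.trans (h5.trans h4)
    rw [c1, c2] at this
    exact_mod_cast this
  have h3' : (Set.univ : Set ν).encard ≤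
      (AlgebraicIndependent.matroid κ k).eRk (Set.range y) := by
    refine le_trans ?_ h3
    rw [c1, c2]
    exact_mod_cast hc
  have h6 : (AlgebraicIndependent.matroid κ k).Indep (Set.range y) :=
    (Matroid.indep_iff_eRk_eq_encard_of_finite (Set.finite_range y)).2
      (h5.antisymm (h4.trans h3'))
  have h7 : Function.Injective y := by
    rw [← Set.injOn_univ]
    refine Set.finite_univ.injOn_of_encard_image_eq ?_
    rw [Set.image_univ]
    exact h4.antisymm (h3'.trans h5)
  exact (algebraicIndependent_subtype_range h7).1 h6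

theorem integral {O K κ : Type} [CommRing O] [Field K] [Algebra O K] (A : Subalgebra O K)
    (V : ValuationSubring K) [Field κ] [Algebra κ (ResidueField V)]
    (B : Subalgebra κ (ResidueField V)) (h : ∀ c ∈ A, ∃ hc : c ∈ V, residue V ⟨c, hc⟩ ∈ B)
    {a : K} (ha : IsIntegral A a) : ∃ hc : a ∈ V, IsIntegral B (residue V ⟨a, hc⟩) := by
  let φ : A →+* V := (algebraMap A K).codRestrict V fun c => (h c c.2).1
  have h1 : IsIntegral V a := ha.map_of_comp_eq φ (RingHom.id K) rfl
  obtain ⟨a', rfl⟩ := IsIntegrallyClosed.isIntegral_iff.1 h1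
  let : Algebra A V := φ.toAlgebra
  have : IsScalarTower A V K := IsScalarTower.of_algebraMap_eq fun _ => rfl
  have h2 : IsIntegral A a' := (isIntegral_algebraMap_iff Subtype.val_injective).1 ha
  exact ⟨a'.2, h2.map_of_comp_eq (((residue V).comp φ).codRestrict B fun c => (h c c.2).2)
    (residue V) rfl⟩

end ResA

theorem p_RES (hTD : S_TD) :
    S_RES := by
  intro O K σ _ _ _ _ _ _ π W y V m x hπ hπV hH hW hx hind
  have hO : ∀ o, algebraMap O K o ∈ V := hH.1
  have hyV : ∀ k, y k ∈ V := hH.2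
  have hmax : ∀ o, o ∈ maximalIdeal O ↔ π ∣ o := fun o => by
    rw [hπ.maximalIdeal_eq, Ideal.mem_span_singleton]
  let : Algebra O V := ((algebraMap O K).codRestrict V hO).toAlgebra
  have : IsScalarTower O V K := IsScalarTower.of_algebraMap_eq fun _ => rfl
  have hπm : algebraMap O V π ∈ maximalIdeal V := V.coe_mem_nonunits_iff.1 hπV
  have : IsLocalHom (algebraMap O V) := ⟨fun o ho => by
    by_contra h
    obtain ⟨o', rfl⟩ := (hmax o).1 h
    rw [map_mul] at ho
    exact hπm (isUnit_of_mul_isUnit_left ho)⟩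
  let y' : σ → V := fun p => ⟨_, hyV p⟩
  let B := Algebra.adjoin (ResidueField O) (Set.range fun k => residue V (y' k))
  have hA : ∀ c ∈ Algebra.adjoin O W, ∃ hc : c ∈ V, residue V ⟨c, hc⟩ ∈ B := by
    intro c hc
    induction hc using Algebra.adjoin_induction with
    | mem c hc =>
      rcases hW c hc with h | ⟨a, rfl⟩
      · refine ⟨V.nonunits_subset h, ?_⟩
        rw [(residue_eq_zero_iff _).2 (V.coe_mem_nonunits_iff.1 h)]
        exact zero_mem _
      · exact ⟨hyV a, Algebra.subset_adjoin ⟨a, rfl⟩⟩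
    | algebraMap o => exact ⟨hO o, B.algebraMap_mem (residue O o)⟩
    | add a b _ _ ha hb => exact ⟨add_mem ha.1 hb.1, add_mem ha.2 hb.2⟩
    | mul a b _ _ ha hb => exact ⟨mul_mem ha.1 hb.1, mul_mem ha.2 hb.2⟩
  have hx' : ∀ j, ∃ hc : x j ∈ V, IsAlgebraic B (residue V ⟨x j, hc⟩) := by
    intro j
    obtain ⟨a, b, ha, hb, hb', e⟩ := hx j
    obtain ⟨a1, a2⟩ := ResA.integral _ V B hA ha
    obtain ⟨b1, b2⟩ := ResA.integral _ V B hA hb
    have h1 := hb'
    rw [V.mem_nonunits_iff_or, not_or, not_not] at h1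
    have h2 : x j ∈ V := by
      rw [(eq_mul_inv_iff_mul_eq₀ h1.1).2 e]
      exact mul_mem a1 h1.2
    have h3 : residue V ⟨b, b1⟩ ≠ 0 := fun h =>
      hb' (V.coe_mem_nonunits_iff.2 ((residue_eq_zero_iff _).1 h))
    refine ⟨h2, IsAlgebraic.of_mul (mem_nonZeroDivisors_of_ne_zero h3) b2.isAlgebraic ?_⟩
    have h4 : (⟨b, b1⟩ * ⟨x j, h2⟩ : V) = ⟨a, a1⟩ := Subtype.ext ((mul_comm _ _).trans e)
    rw [← map_mul, h4]
    exact a2.isAlgebraic
  choose htV hal using hx'
  let t' : Fin m → V := fun p => ⟨_, htV p⟩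
  have hy : ∀ F : MvPolynomial σ O, ((aeval y' F : V) : K) = aeval y F := fun F =>
    (aeval_algebraMap_apply K y' F).symm
  have ht : ∀ F : MvPolynomial (Fin m) O, ((aeval t' F : V) : K) = aeval x F := fun F =>
    (aeval_algebraMap_apply K t' F).symm
  have hd : ∀ {ι : Type} (F : MvPolynomial ι O), C π ∣ F ↔ map (residue O) F = 0 := fun F =>
    C_dvd_iff_map_hom_eq_zero _ _ (fun o => (residue_eq_zero_iff o).trans (hmax o)) F
  have h1 : AlgebraicIndependent (ResidueField O) fun p => residue V (t' p) := by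
    rw [algebraicIndependent_iff]
    intro P hP
    obtain ⟨P, rfl⟩ := map_surjective (residue O) residue_surjective P
    rw [← VerbA.residue_aeval, residue_eq_zero_iff, ← V.coe_mem_nonunits_iff, ht] at hP
    exact (hd P).1 (hind P hP)
  obtain ⟨h2, h3⟩ := ResA.card_le _ (fun k => residue V (y' k)) h1 hal
  rw [Fintype.card_fin] at h2 h3
  refine ⟨h2, fun hc F hF => ?_⟩
  rw [hd]
  refine algebraicIndependent_iff.1 (h3 hc) _ ?_
  rwa [← VerbA.residue_aeval, residue_eq_zero_iff, ← V.coe_mem_nonunits_iff, hy]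

end Pool.Agent.P.MP_e7d440_ag.Z
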