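import Pool.Agent.P.MP_e7d440_ag.Z.IfaceF

/-! Step SPG. -/

set_option autoImplicit false
set_option linter.unusedSectionVars false

namespace Pool.Agent.P.MP_e7d440_ag.Z

open Pool.Agent.P.MP_e7d440_ag.U TensorProduct LieAlgebra LaurentPolynomial Set IsLocalRing

variable {L Φ Δ : Type} [LieRing L] [LieAlgebra ℚ L] [Fintype Φ] [Fintype Δ] [DecidableEq Φ]
  [DecidableEq Δ] (c : CD L Φ Δ)

namespace SPGA

section rel
variable {K₀ K : Type} [Field K₀] [Field K] {R : Subring K} (sp : R →+* K₀)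

/-- `γ₀` is the specialization of `γ` -/
def Rel (γ : K) (γ₀ : K₀) : Prop := ∃ e : γ ∈ R, sp ⟨γ, e⟩ = γ₀

variable {sp}

lemma Rel.zero : Rel sp 0 0 := ⟨R.zero_mem, map_zero sp⟩

lemma Rel.add {a b : K} {a₀ b₀ : K₀} (h : Rel sp a a₀) (k : Rel sp b b₀) :
    Rel sp (a + b) (a₀ + b₀) := by
  obtain ⟨h, rfl⟩ := h
  obtain ⟨k, rfl⟩ := k
  exact ⟨R.add_mem h k, map_add sp ⟨a, h⟩ ⟨b, k⟩⟩

lemma Rel.sub {a b : K} {a₀ b₀ : K₀} (h : Rel sp a a₀) (k : Rel sp b b₀) :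
    Rel sp (a - b) (a₀ - b₀) := by
  obtain ⟨h, rfl⟩ := h
  obtain ⟨k, rfl⟩ := k
  exact ⟨R.sub_mem h k, map_sub sp ⟨a, h⟩ ⟨b, k⟩⟩

lemma Rel.mul {a b : K} {a₀ b₀ : K₀} (h : Rel sp a a₀) (k : Rel sp b b₀) :
    Rel sp (a * b) (a₀ * b₀) := by
  obtain ⟨h, rfl⟩ := h
  obtain ⟨k, rfl⟩ := k
  exact ⟨R.mul_mem h k, map_mul sp ⟨a, h⟩ ⟨b, k⟩⟩

lemma Rel.sum {ι : Type} (t : Finset ι) {a : ι → K} {a₀ : ι → K₀}
    (h : ∀ i ∈ t, Rel sp (a i) (a₀ i)) : Rel sp (∑ i ∈ t, a i) (∑ i ∈ t, a₀ i) := by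
  classical
  induction t using Finset.induction_on with
  | empty => exact Rel.zero
  | insert i t hi ih =>
    rw [Finset.sum_insert hi, Finset.sum_insert hi]
    exact (h i (Finset.mem_insert_self _ _)).add
      (ih fun j hj => h j (Finset.mem_insert_of_mem hj))

lemma Rel.ne {a : K} {a₀ : K₀} (h : Rel sp a a₀) (k : a₀ ≠ 0) : a ≠ 0 := by
  obtain ⟨h, rfl⟩ := h
  rintro rfl
  exact k (map_zero sp)

lemma Rel.small {V : ValuationSubring K} (hD : Dom R V) {a : K} (h : Rel sp a 0) :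
    a ∈ V.nonunits := by
  by_contra hn
  have h0 : a ≠ 0 := fun e => hn (e ▸ V.nonunits.zero_mem)
  obtain ⟨b, hb⟩ : ∃ b, Rel sp a⁻¹ b := ⟨_, hD.inv a h.1 hn, rfl⟩
  obtain ⟨e, h1⟩ := h.mul hb
  have h2 : (⟨a * a⁻¹, e⟩ : R) = 1 := Subtype.ext (mul_inv_cancel₀ h0)
  rw [h2, map_one, zero_mul] at h1
  exact one_ne_zero h1

lemma dom (hr : S_resd) (hinv : ∀ γ : R, sp γ ≠ 0 → (γ : K)⁻¹ ∈ R) :
    ∃ V : ValuationSubring K, Dom R V := by
  obtain ⟨R', V, h1, h2⟩ := hr.dom (A := R) (K := K) (RingHom.ker sp) (RingHom.ker_isPrime sp)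
    Subtype.val_injective
  have e : R' = R := by
    ext γ
    rw [h1]
    refine ⟨?_, fun k => loc_map (algebraMap R K) (RingHom.ker_isPrime sp) ⟨γ, k⟩⟩
    rintro ⟨a, b, hb, e⟩
    have hb0 : (b : K) ≠ 0 := fun k => hb (by
      rw [show b = 0 from Subtype.ext k]
      exact zero_mem _)
    have e' : γ = (a : K) * (b : K)⁻¹ := (eq_mul_inv_iff_mul_eq₀ hb0).2 e
    rw [e']
    exact R.mul_mem a.2 (hinv b hb)
  exact ⟨V, e ▸ h2⟩

end rel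

variable {c} {K₀ K J : Type} [Field K₀] [CharZero K₀] [Field K] [CharZero K] [Algebra K₀ K]
  [Fintype J] [DecidableEq J] {ζ : K₀} {s₀ : J → K₀} {s : J → K} {R : Subring K}
  {sp : R →+* K₀}

lemma rs_sub {f g : LG L K} {f₀ g₀ : LG L K₀} (h : Rs c sp f f₀) (k : Rs c sp g g₀) :
    Rs c sp (f - g) (f₀ - g₀) := fun a => by
  have := Rel.sub (sp := sp) (h a) (k a)
  rwa [← map_sub, ← map_sub] at this

lemma rs_sup {f : LG L K} {f₀ : LG L K₀} (h : Rs c sp f f₀) {z : L} {P : Set ℚ}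
    (k : f ∈ c.Sup z P) : f₀ ∈ c.Sup z P := fun a ha => k a (Rel.ne (sp := sp) (h a) ha)

lemma trf (T₀ : T3a c ζ s₀) (T : T3a c (algebraMap K₀ K ζ) s) {z z' : L} {P P' : Set ℚ}
    (hz : c.Fix z) (H : ∀ f ∈ c.Eqv ζ, f ∈ c.Sup z P → f ∈ c.Sup z' P')
    (hm : ∀ m : ℤ, (m : ℚ) ∈ P → (m : ℚ) ∈ P') (f : LG L K)
    (hf : f ∈ c.Eqv (algebraMap K₀ K ζ)) (a : ℤ × (Φ ⊕ Δ)) (ha : c.co a f ≠ 0)
    (hP : c.wt z a ∈ P) : c.wt z' a ∈ P' := by
  obtain ⟨m, α | i⟩ := a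
  · have v : c.Valid ζ (α, m) :=
      (T₀.rt1.nat (algebraMap K₀ K) (α, m)).1.1 (T.rt2.of_co f hf (α, m) ha)
    refine H _ (T₀.rt1.eqv (α, m))
      (c.Sup_mono (singleton_subset_iff.2 hP) (T₀.rt1.sup (α, m) z hz)) (CD.ix (α, m)) ?_
    rw [T₀.rt1.co _ v]
    exact (T₀.rt1.th_ne α).2.1
  · rw [c.wt_inr] at hP ⊢
    exact hm m hP

end SPGA

open SPGA in
theorem p_SPG (h : TG c) (hSP0 : S_SP0 c) (hSP1 : S_SP1 c) :
    S_SPG c := by
  intro K₀ K J _ _ _ _ _ _ _ ζ s₀ s R sp μ X x x' Q hmin B₀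
  have T₀ := h K₀ ζ J s₀ Q.pt₀
  have T := h K _ J s Q.pt
  obtain ⟨hHP, hex, hbv, -, hwin⟩ := hSP0 ζ s₀ s R sp μ X x Q hmin
  obtain ⟨V, hD⟩ := dom T.resd Q.inv
  have hN : (0 : ℚ) ≤ c.dg J := Nat.cast_nonneg _
  have lo := trf T₀.toT3a T.toT3a B₀.fix' B₀.lo fun m hm => hN.trans hm
  have hi := trf T₀.toT3a T.toT3a B₀.fix B₀.hi fun m hm =>
    mem_Ici.2 (le_trans (by linarith) (mem_Ici.1 hm))
  obtain ⟨A, F₀, hA, hF₀, hsum⟩ := T₀.gn.bas _ x x' B₀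
  have hw : ∀ a, ∃ f, a ∈ A → f ∈ c.Win (algebraMap K₀ K ζ) s
      (c.cell μ fun p => algebraMap K₀ K (X p)) x 0 ∧ Rs c sp f (F₀ a) := fun a => by
    by_cases ha : a ∈ A
    · obtain ⟨f, h1⟩ := hSP1 ζ s₀ s R sp μ X x Q hmin B₀.fix _ (hF₀ a ha).1
      exact ⟨f, fun _ => h1⟩
    · exact ⟨0, fun k => absurd k ha⟩
  choose w hw using hw
  have hl : Rel sp (c.ℓ : K)⁻¹ (c.ℓ : K₀)⁻¹ := by
    have := Q.const (c.ℓ : K₀)⁻¹
    change Rel sp _ _ at this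
    rwa [map_inv₀, map_natCast] at this
  obtain ⟨m0, madd, msm, -, -⟩ := T.sup.in_add _ _ (SM.nonunits V)
  have K1 : ∀ g ∈ Submodule.span V.toSubring {w | w ∈ c.Win (algebraMap K₀ K ζ) s
      (c.cell μ fun p => algebraMap K₀ K (X p)) x 0 ∧ c.In R w},
      c.In V.nonunits (g - ∑ a ∈ A, (c.co a g / (c.ℓ : K)) • w a) := by
    intro g hg
    induction hg using Submodule.span_induction with
    | mem g hg =>
      obtain ⟨g₀, r⟩ := hex g hg.2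
      intro b
      refine Rel.small (sp := sp) hD ?_
      have e := congrArg (c.co b) (hsum g₀ (hwin g g₀ r hg.1))
      rw [← sub_eq_zero, map_sum] at e
      rw [map_sub, map_sum, ← e]
      refine Rel.sub (r b) (Rel.sum A fun a ha => ?_)
      rw [map_smul, map_smul, smul_eq_mul, smul_eq_mul, div_eq_mul_inv, div_eq_mul_inv]
      exact (Rel.mul (r a) hl).mul ((hw a ha).2 b)
    | zero => simpa using m0
    | add g g' _ _ h1 h2 =>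
      have := (madd _ _ h1 h2).1
      simp only [map_add, add_div, add_smul, Finset.sum_add_distrib]
      rwa [sub_add_sub_comm] at this
    | smul t g _ h1 =>
      have := msm (t : K) _ t.2 h1
      rw [smul_sub, Finset.smul_sum] at this
      change c.In _ ((t : K) • g - ∑ a ∈ A, (c.co a ((t : K) • g) / (c.ℓ : K)) • w a)
      simpa only [map_smul, smul_eq_mul, smul_smul, mul_div_assoc] using this
  have uniq : ∀ f ∈ Lat c (algebraMap K₀ K ζ) s (c.cell μ fun p => algebraMap K₀ K (X p)) x,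
      f ∈ c.Sup x' (Iio (c.dg J : ℚ)) → f = 0 := by
    intro f hf hf'
    by_contra hne
    have hW : f ∈ c.Win (algebraMap K₀ K ζ) s (c.cell μ fun p => algebraMap K₀ K (X p)) x 0 :=
      ⟨hf.1, fun a ha => ⟨hf.2 a ha, by
        rw [zero_add]
        exact not_le.1 fun k => not_le.2 (mem_Iio.1 (hf' a ha)) (hi f hf.1.1 a ha k)⟩⟩
    obtain ⟨t, -, h1, a, h2⟩ := T.sup.prim V f hne
    have h3 := K1 _ (win_span T.toT3a (V := V.toSubring) hD.le hHP hmin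
      (fun p => (Q.const (X p)).1) B₀.fix 0 _ (Submodule.smul_mem _ t hW) h1) a
    rw [Finset.sum_eq_zero, sub_zero, h2] at h3
    · exact lt_irrefl _ (map_one V.valuation ▸ V.mem_nonunits_iff.1 h3)
    · intro b hb
      have h4 : c.co b (t • f) = 0 := by
        by_contra k
        exact not_le.2 (mem_Iio.1 (Submodule.smul_mem _ t hf' b k)) ((hA b).1 hb).1
      rw [h4, zero_div, zero_smul]
  have win := T.nak R V (c.cell μ fun p => algebraMap K₀ K (X p)) x x' hD hHP.sd B₀.fix B₀.fix'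
    fun a h1 h2 => by
      have ha := (hA a).2 ⟨h1, h2⟩
      refine ⟨w a, Submodule.subset_span ⟨(hw a ha).1, fun b => ((hw a ha).2 b).1⟩, fun b hb => ?_⟩
      have h3 : Rel sp _ _ := rs_sub (hw a ha).2 (hbv a) b
      have h4 : c.co b (F₀ a - bv c ζ a) = 0 := by
        by_contra k
        exact not_le.2 (mem_Iio.1 ((hF₀ a ha).2 b k)) hb
      rw [h4] at h3
      exact h3.small hD
  have B : Big c (algebraMap K₀ K ζ) s (c.cell μ fun p => algebraMap K₀ K (X p)) x x' :=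
    T.gn.mk' _ x x' (fun j => (T.fd.cell μ _ j (hmin j)).1) B₀.fix B₀.fix'
      (fun f hf k a ha => lo f hf a ha (k a ha)) (fun f hf k a ha => hi f hf a ha (k a ha)) uniq
      fun a h1 h2 => (win a h1 h2).imp fun f k => ⟨win_lat k.1, k.2.2⟩
  have K2 : ∀ a, (c.dg J : ℚ) ≤ c.wt x' a → c.wt x a < 2 * c.dg J → ∃ f f₀,
      f ∈ Lat c (algebraMap K₀ K ζ) s (c.cell μ fun p => algebraMap K₀ K (X p)) x ∧
      f - bv c (algebraMap K₀ K ζ) a ∈ c.Sup x' (Iio (c.dg J : ℚ)) ∧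
      f₀ ∈ Lat c ζ s₀ (c.cell μ X) x ∧ f₀ - bv c ζ a ∈ c.Sup x' (Iio (c.dg J : ℚ)) ∧
      Rs c sp f f₀ := fun a h1 h2 => by
    obtain ⟨f, k1, k2, k3⟩ := win a h1 h2
    obtain ⟨f₀, r⟩ := hex f k2
    exact ⟨f, f₀, win_lat k1, k3, win_lat (hwin f f₀ r k1), rs_sup (rs_sub r (hbv a)) k3, r⟩
  refine ⟨B, ?_, ?_⟩
  · rintro γ ⟨a, b, f', h1, h2, h3, h4, h5, rfl⟩
    obtain ⟨f, f₀, k1, k2, k3, k4, r⟩ := K2 a h1 h2
    rw [B.ext h4 k1 h5 k2]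
    exact ⟨(r b).1, a, b, f₀, h1, h2, h3, k3, k4, (r b).2⟩
  · rintro γ ⟨a, b, f', h1, h2, h3, h4, h5, rfl⟩
    obtain ⟨f, f₀, k1, k2, k3, k4, r⟩ := K2 a h1 h2
    rw [B₀.ext h4 k3 h5 k4]
    exact ⟨c.co b f, ⟨a, b, f, h1, h2, h3, k1, k2, rfl⟩, r b⟩

end Pool.Agent.P.MP_e7d440_ag.Z
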