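import Pool.Agent.P.MP_e7d440_ag.Z.IfaceG

/-! Step SPU. -/

set_option autoImplicit false
set_option linter.unusedSectionVars false

namespace Pool.Agent.P.MP_e7d440_ag.Z

open Pool.Agent.P.MP_e7d440_ag.U TensorProduct LieAlgebra LaurentPolynomial Set

variable {L Φ Δ : Type} [LieRing L] [LieAlgebra ℚ L] [Fintype Φ] [Fintype Δ] [DecidableEq Φ]
  [DecidableEq Δ] (c : CD L Φ Δ) {K : Type} [Field K] [CharZero K] (ζ : K)
  {J : Type} [Fintype J] [DecidableEq J] (s : J → K)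

namespace SPUA

variable {c ζ s}

lemma main (h : T3a c ζ s) (S : Subring K) (V : ValuationSubring K)
    (U : J → Submodule K (G L K)) (H : Op L K) (x : L) (hS : c.SD ζ S) (hs : ∀ j, s j ∈ S)
    (hle : ∀ γ ∈ S, γ ∈ V) (hx : c.Fix x) (h1 : c.Rng ζ s U H) (h2 : c.IntB ζ S H)
    (h3 : c.IntB ζ V H)
    (h4 : ∀ f ∈ c.Eqv ζ, H f ∈ c.Sup x (Ici 0) ↔ f ∈ c.Sup x (Ici 0)) : Spn c ζ s S V U x := by
  intro f hf hfV
  have cast : (0 : ℚ) + ((2 * c.dg J : ℕ) : ℚ) = 0 + 2 * c.dg J := by push_cast; rfl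
  obtain ⟨-, aS, -, -, -⟩ := h.sup.in_add S S (SM.self S)
  obtain ⟨g, hg, rfl⟩ := (h1 f).1 hf.1
  have g0 : g ∈ c.Sup x (Ici 0) := (h4 g hg).1 (c.Sup_mono Ico_subset_Ici_self hf.2)
  have gV : c.In V g := (h3 g hg).1 hfV
  obtain ⟨t, ht, e0⟩ := h.eqv.span g hg
  have hw : ∀ a ∈ t, ∃ q : LG L K, q ∈ c.Sup x (Ici 0) ∧
      H (bv c ζ a) - c.phi s ^ 2 • q ∈ c.Win ζ s U x 0 ∧
      c.In S (H (bv c ζ a) - c.phi s ^ 2 • q) := by
    intro a ha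
    have wN : H (bv c ζ a) ∈ c.NN ζ s U := (h1 _).2 ⟨_, bv_eqv h a, rfl⟩
    have w0 : H (bv c ζ a) ∈ c.Sup x (Ici 0) :=
      (h4 _ (bv_eqv h a)).2 (bv_sup h hx a (g0 a (ht a ha)))
    have wS : c.In S (H (bv c ζ a)) := (h2 _ (bv_eqv h a)).2 (bv_in h hS a)
    obtain ⟨q, hq, hq1, hq2, hq3⟩ := h.div.div _ _ x 0 _ h.div.mon_sq w0
    rw [cast] at hq1
    have pS := (h.div.phi_int S hs).2
    exact ⟨q, hq, ⟨sub_mem wN (h.div.nn_sq U q (hq2 hx wN.1)), hq1⟩,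
      (aS _ _ wS ((h.sup.in_smul S S _ _ (SM.self S)).1 pS (hq3 S S (SM.self S) pS wS))).2⟩
  choose! q hq hW hI using hw
  have cV : ∀ a, c.co a g / (c.ℓ : K) ∈ V.toSubring := fun a => by
    rw [div_eq_mul_inv]
    exact V.toSubring.mul_mem (gV a) (hle _ hS.2)
  have e1 : H g = ∑ a ∈ t, (c.co a g / (c.ℓ : K)) • H (bv c ζ a) := by
    conv_lhs => rw [e0]
    rw [map_sum]
    exact Finset.sum_congr rfl fun a _ => h.lp.op_smul H _ _
  have hdiff : H g - ∑ a ∈ t, (c.co a g / (c.ℓ : K)) • (H (bv c ζ a) - c.phi s ^ 2 • q a) =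
      c.phi s ^ 2 • ∑ a ∈ t, (c.co a g / (c.ℓ : K)) • q a := by
    simp only [smul_sub, Finset.sum_sub_distrib, Finset.smul_sum, smul_comm (c.phi s ^ 2)]
    rw [← e1, sub_sub_cancel]
  have hz : ∑ a ∈ t, (c.co a g / (c.ℓ : K)) • q a = 0 := by
    refine h.div.uniq _ _ x 0 _ h.div.mon_sq
      (Submodule.sum_mem _ fun a ha => Submodule.smul_mem _ _ (hq a ha)) ?_
    rw [← hdiff, cast]
    exact c.Sup_mono Ico_subset_Iio_self
      (sub_mem hf.2 (Submodule.sum_mem _ fun a ha => Submodule.smul_mem _ _ (hW a ha).2))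
  rw [hz, smul_zero] at hdiff
  refine ⟨∑ a ∈ t, (c.co a g / (c.ℓ : K)) • (H (bv c ζ a) - c.phi s ^ 2 • q a),
    Submodule.sum_mem _ fun a ha => Submodule.smul_mem _ (⟨_, cV a⟩ : V.toSubring)
      (Submodule.subset_span ⟨hW a ha, hI a ha⟩), ?_⟩
  rw [hdiff]
  exact (h.sup.in_add _ _ (SM.nonunits V)).1

end SPUA

theorem p_SPU (h : T3 c ζ s) :
    S_SPU c ζ s := by
  intro S V lam n a y x hS hs hle hy hl ha hx
  have h1 := h.tor.aut lam hl c.ρ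
  have hV : c.SD ζ V.toSubring := ⟨hle _ hS.1, hle _ hS.2⟩
  exact SPUA.main h.toT3a S V _ (c.pE ζ a y * c.tor ζ s lam) x hS hs hle hx.1
    (h.leg.fd_pU a y lam hl).2.2
    ((h.la.int_mul _ _ _ h1.eqv).1 (h.la.int_pf S S a y 0 hS (SM.self S) hy)
      (h.tor.int _ _ lam hS (SM.self S) hs))
    ((h.la.int_mul _ _ _ h1.eqv).1
      (h.la.int_pf V.toSubring V a y 0 hV (SM.val V) fun k => hle _ (hy k))
      (h.tor.int _ _ lam hV (SM.val V) fun j => hle _ (hs j)))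
    fun f hf => (h.aut1.cl _ _ _ _ h.wall.reg_ρ hx
      (h.la.aut_left _ _ _ _ (h.la.aut_pf a y 0 _ c.fix_ρ ha) h1) 0 f hf).1

end Pool.Agent.P.MP_e7d440_ag.Z
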