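import Pool.Agent.P.MP_e7d440_ag.Z.IfaceA

/-! Step TD. -/

set_option autoImplicit false
set_option linter.unusedSectionVars false

namespace Pool.Agent.P.MP_e7d440_ag.Z

open IsLocalRing MvPolynomial U

namespace TdA

section
variable {O A A' μ ν : Type} [CommRing O] [CommRing A] [CommRing A'] [Algebra O A] [Algebra O A']
  {π : O}

lemma comp {𝔮 : Ideal A} {z : ν → A} (h : RIq π 𝔮 z) (f : μ → ν) (hf : Function.Injective f) :
    RIq π 𝔮 fun i => z (f i) := by
  intro F hF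
  have h1 := h (rename f F) (by rw [aeval_rename]; exact hF)
  rw [C_dvd_iff_dvd_coeff] at h1 ⊢
  intro d
  rw [← coeff_rename_mapDomain f hf]
  exact h1 _

lemma push (φ : A →ₐ[O] A') {𝔮 : Ideal A} {𝔮' : Ideal A'} (hq : ∀ a, φ a ∈ 𝔮' ↔ a ∈ 𝔮)
    (z : ν → A) : (RIq π 𝔮' fun i => φ (z i)) ↔ RIq π 𝔮 z := by
  refine forall_congr' fun F => ?_
  rw [← hq, comp_aeval_apply]

lemma pushT (φ : A →ₐ[O] A') {𝔮 : Ideal A} {𝔮' : Ideal A'} (hq : ∀ a, φ a ∈ 𝔮' ↔ a ∈ 𝔮) {m : ℕ}
    (h : Td π 𝔮 m) : Td π 𝔮' m :=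
  let ⟨z, hz⟩ := h
  ⟨_, (push φ hq z).2 hz⟩

lemma succ {𝔮 𝔮' : Ideal A} {m : ℕ} (hq : 𝔮.IsPrime) (hlt : 𝔮 < 𝔮')
    (hπ : algebraMap O A π ∈ 𝔮) (h : Td π 𝔮' m) : Td π 𝔮 (m + 1) := by
  obtain ⟨z, hz⟩ := h
  obtain ⟨x, hx, hx'⟩ := SetLike.exists_of_lt hlt
  let ψ : MvPolynomial (Fin m) O →+* A := (aeval z : MvPolynomial (Fin m) O →ₐ[O] A)
  have key : ∀ (i : ℕ) (P : Polynomial (MvPolynomial (Fin m) O)),
      P.eval₂ ψ x ∈ 𝔮 → C π ∣ P.coeff i := by
    have h0 : ∀ P : Polynomial (MvPolynomial (Fin m) O), P.eval₂ ψ x ∈ 𝔮 →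
        C π ∣ P.coeff 0 ∧ P.divX.eval₂ ψ x ∈ 𝔮 := by
      intro P hP
      have e : P.eval₂ ψ x = P.divX.eval₂ ψ x * x + ψ (P.coeff 0) := by
        conv_lhs => rw [← P.divX_mul_X_add]
        rw [Polynomial.eval₂_add, Polynomial.eval₂_mul, Polynomial.eval₂_X, Polynomial.eval₂_C]
      rw [e] at hP
      have h1 : C π ∣ P.coeff 0 :=
        hz _ ((𝔮'.add_mem_iff_right (𝔮'.mul_mem_left _ hx)).1 (hlt.le hP))
      refine ⟨h1, (hq.mem_or_mem ((𝔮.add_mem_iff_left ?_).1 hP)).resolve_right hx'⟩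
      obtain ⟨G, hG⟩ := h1
      rw [hG, map_mul]
      refine 𝔮.mul_mem_right _ ?_
      change aeval z (C π) ∈ 𝔮
      rwa [aeval_C]
    intro i
    induction i with
    | zero => exact fun P hP => (h0 P hP).1
    | succ i ih =>
      intro P hP
      rw [← Polynomial.coeff_divX]
      exact ih _ (h0 P hP).2
  refine ⟨Fin.cons x z, fun F hF => ?_⟩
  have e : ∀ F : MvPolynomial (Fin (m + 1)) O,
      (finSuccEquiv O m F).eval₂ ψ x = aeval (Fin.cons x z : Fin (m + 1) → A) F := by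
    intro F
    induction F using MvPolynomial.induction_on with
    | C a => simp [finSuccEquiv_apply, ψ]
    | add p q hp hq => rw [map_add, map_add, Polynomial.eval₂_add, hp, hq]
    | mul_X p i hp =>
      rw [map_mul, map_mul, Polynomial.eval₂_mul, hp, aeval_X]
      congr 1
      refine Fin.cases ?_ (fun j => ?_) i
      · simp [finSuccEquiv_X_zero]
      · simp [finSuccEquiv_X_succ, ψ]
  rw [C_dvd_iff_dvd_coeff]
  intro d
  have h1 := (C_dvd_iff_dvd_coeff _ _).1 (key (d 0) _ (e F ▸ hF)) d.tail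
  rwa [finSuccEquiv_coeff_coeff, Finsupp.cons_tail] at h1

end

section
variable {O : Type} [CommRing O] [IsDomain O] [IsDiscreteValuationRing O] {π : O}

lemma exch {E σ ν : Type} [Field E] [Algebra O E] [Fintype σ] [Fintype ν] (y : σ → E) (z : ν → E)
    (hπ : Irreducible π) (h0 : algebraMap O E π = 0) (hz : RIq π ⊥ z)
    (ha : ∀ i, IsAlgebraic (Algebra.adjoin O (Set.range y)) (z i)) :
    ∃ ι : ν ↪ σ, RIq π ⊥ fun i => y (ι i) := by
  have hmax : ∀ o, o ∈ maximalIdeal O ↔ π ∣ o := fun o => by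
    rw [hπ.maximalIdeal_eq, Ideal.mem_span_singleton]
  let : Algebra (ResidueField O) E := (Ideal.Quotient.lift (maximalIdeal O) (algebraMap O E)
    fun o ho => by
      obtain ⟨o', rfl⟩ := (hmax o).1 ho
      rw [map_mul, h0, zero_mul]).toAlgebra
  have : IsScalarTower O (ResidueField O) E := IsScalarTower.of_algebraMap_eq fun _ => rfl
  have hd : ∀ {ι : Type} (w : ι → E), RIq π ⊥ w ↔ AlgebraicIndependent (ResidueField O) w := by
    intro ι w
    have h1 : ∀ F : MvPolynomial ι O, C π ∣ F ↔ map (algebraMap O (ResidueField O)) F = 0 :=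
      fun F => C_dvd_iff_map_hom_eq_zero _ _ (fun o => (residue_eq_zero_iff o).trans (hmax o)) F
    rw [algebraicIndependent_iff]
    constructor
    · intro h P hP
      obtain ⟨P, rfl⟩ := map_surjective (algebraMap O (ResidueField O)) residue_surjective P
      rw [aeval_map_algebraMap] at hP
      exact (h1 P).1 (h P hP)
    · intro h F hF
      exact (h1 F).2 (h _ (by rw [aeval_map_algebraMap]; exact hF))
  have ht := (hd z).1 hz
  have h1 : Set.range z ⊆
      (AlgebraicIndependent.matroid (ResidueField O) E).closure (Set.range y) := by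
    rintro _ ⟨p, rfl⟩
    rw [AlgebraicIndependent.matroid_closure_eq]
    have hle : Algebra.adjoin O (Set.range y) ≤
        (Algebra.adjoin (ResidueField O) (Set.range y)).restrictScalars O :=
      Algebra.adjoin_le Algebra.subset_adjoin
    exact (ha p).ringHom_of_comp_eq
      ((Algebra.adjoin O (Set.range y)).val.toRingHom.codRestrict
        (Algebra.adjoin (ResidueField O) (Set.range y)) fun a => hle a.2) (RingHom.id E)
      (fun a b hab => Subtype.ext (Subtype.ext_iff.1 hab :)) rfl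
  have h2 : (AlgebraicIndependent.matroid (ResidueField O) E).Indep (Set.range z) :=
    ht.to_subtype_range
  obtain ⟨B, hB⟩ := (AlgebraicIndependent.matroid (ResidueField O) E).exists_isBasis'
    (Set.range y)
  have h3 : (Set.univ : Set ν).encard ≤ B.encard := by
    rw [hB.encard_eq_eRk, ← Matroid.eRk_closure_eq, ← ht.injective.encard_image, Set.image_univ,
      ← h2.eRk_eq_encard]
    exact Matroid.eRk_mono _ h1
  have : Fintype B := ((Set.finite_range y).subset hB.subset).fintype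
  have h4 : Fintype.card ν ≤ Fintype.card B := by
    rw [← Set.coe_fintypeCard B, Set.encard_univ, ENat.card_eq_coe_fintype_card] at h3
    exact_mod_cast h3
  obtain ⟨e⟩ := Function.Embedding.nonempty_of_card_le h4
  choose s hs using fun b : B => hB.subset b.2
  refine ⟨⟨fun i => s (e i), fun a b hab => e.injective (Subtype.ext ?_)⟩, (hd _).2 ?_⟩
  · rw [← hs, ← hs]
    exact congrArg y hab
  · have h5 : AlgebraicIndependent (ResidueField O) (Subtype.val : B → E) := hB.indep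
    simp only [Function.Embedding.coeFn_mk, hs]
    exact h5.comp e e.injective

lemma int {A A' : Type} [CommRing A] [CommRing A'] [Algebra O A] [Algebra O A'] [Algebra A A']
    [IsScalarTower O A A'] [Algebra.FiniteType O A] [Algebra.IsIntegral A A'] {𝔮 : Ideal A'}
    {m : ℕ} (hπ : Irreducible π) (hq : 𝔮.IsPrime) (h0 : algebraMap O A' π ∈ 𝔮) :
    Td π 𝔮 m ↔ Td π (𝔮.comap (algebraMap A A')) m := by
  refine ⟨?_, pushT (IsScalarTower.toAlgHom O A A') fun _ => Iff.rfl⟩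
  rintro ⟨z, hz⟩
  obtain ⟨n, f, hf⟩ := Algebra.FiniteType.iff_quotient_mvPolynomial''.1 ‹Algebra.FiniteType O A›
  let φ : A' →ₐ[O] 𝔮.ResidueField := IsScalarTower.toAlgHom O A' _
  have hφ : ∀ a, φ a ∈ (⊥ : Ideal 𝔮.ResidueField) ↔ a ∈ 𝔮 := fun a =>
    Ideal.algebraMap_residueField_eq_zero
  let ψ : A →ₐ[O] 𝔮.ResidueField := φ.comp (IsScalarTower.toAlgHom O A A')
  have hm : ∀ a, ψ a ∈ Algebra.adjoin O (Set.range fun i => ψ (f (X i))) := by
    intro a
    obtain ⟨F, rfl⟩ := hf a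
    rw [Algebra.adjoin_range_eq_range_aeval]
    refine ⟨F, ?_⟩
    have : aeval (fun i => ψ (f (X i))) = ψ.comp f := by
      ext i
      simp
    rw [this]
    rfl
  obtain ⟨ι, hι⟩ := exch (fun i => ψ (f (X i))) (fun i => φ (z i)) hπ
    (by rw [← φ.commutes]; exact (hφ _).2 h0) ((push φ hφ z).2 hz) fun i =>
      IsIntegral.isAlgebraic ((Algebra.IsIntegral.isIntegral (R := A) (z i)).map_of_comp_eq
        (ψ.toRingHom.codRestrict _ hm) φ.toRingHom rfl)
  exact ⟨fun i => f (X (ι i)), (push ψ (fun a => hφ _) _).1 hι⟩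

lemma zero {A : Type} [CommRing A] [Algebra O A] {𝔮 : Ideal A} (hπ : Irreducible π)
    (hq : 𝔮.IsPrime) (h0 : algebraMap O A π ∈ 𝔮) : Td π 𝔮 0 := by
  refine ⟨Fin.elim0, fun F hF => ?_⟩
  rw [F.eq_C_of_isEmpty, aeval_C] at hF
  rw [F.eq_C_of_isEmpty]
  refine map_dvd C ?_
  have e : Ideal.span {π} = 𝔮.comap (algebraMap O A) :=
    (PrincipalIdealRing.isMaximal_of_irreducible hπ).eq_of_le
      (Ideal.comap_ne_top (algebraMap O A) hq.ne_top) ((Ideal.span_singleton_le_iff_mem _).2 h0)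
  rw [← Ideal.mem_span_singleton, e]
  exact hF

/-- the height bound for an algebra -/
def Hb (π : O) (R : Type) [CommRing R] [Algebra O R] (n : ℕ) : Prop :=
  ∀ (𝔭 : Ideal R) (m j : ℕ), 𝔭.IsPrime → algebraMap O R π ∈ 𝔭 → ¬ Td π 𝔭 m → m + j ≤ n + 1 →
    ((j + 1 : ℕ) : ℕ∞) ≤ 𝔭.height

lemma Hb.equiv {R R' : Type} [CommRing R] [Algebra O R] [CommRing R'] [Algebra O R'] {n : ℕ}
    (e : R ≃ₐ[O] R') (h : Hb π R n) : Hb π R' n := by
  intro 𝔭 m j hp h0 ht hm
  rw [← e.toRingEquiv.height_comap]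
  refine h _ m j (Ideal.comap_isPrime _ _) ?_ (fun h' => ht (pushT e.toAlgHom ?_ h')) hm
  · rw [← e.commutes] at h0
    exact h0
  · exact fun _ => Iff.rfl

lemma Hb.poly {R : Type} [CommRing R] [Algebra O R] [IsNoetherianRing R] {n : ℕ}
    (hπ : Irreducible π) (h : Hb π R n) : Hb π (Polynomial R) (n + 1) := by
  intro 𝔭 m j hp h0 ht hm
  let 𝔭₀ : Ideal R := 𝔭.comap Polynomial.C
  have hp0 : 𝔭₀.IsPrime := Ideal.comap_isPrime _ _
  have hπ0 : algebraMap O R π ∈ 𝔭₀ := h0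
  have hc : ∀ a, a ∈ 𝔭₀ ↔ Polynomial.C a ∈ 𝔭₀.map Polynomial.C := fun a => by
    refine ⟨Ideal.mem_map_of_mem _, fun ha => ?_⟩
    simpa using Ideal.mem_map_C_iff.1 ha 0
  have : (𝔭₀.map (Polynomial.C : R →+* Polynomial R)).LiesOver 𝔭₀ := ⟨Ideal.ext hc⟩
  have h1 : 𝔭₀.height ≤ (𝔭₀.map (Polynomial.C : R →+* Polynomial R)).height := by
    rw [Ideal.height_eq_height_add_of_liesOver_of_hasGoingDown 𝔭₀
      (𝔭₀.map (Polynomial.C : R →+* Polynomial R))]
    exact le_self_add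
  rcases (Ideal.map_comap_le : 𝔭₀.map Polynomial.C ≤ 𝔭).eq_or_lt with he | hlt
  · rcases m with _ | m
    · exact absurd (zero hπ hp h0) ht
    refine le_trans (h 𝔭₀ m j hp0 hπ0 (fun h' => ht ?_) (by omega)) (he ▸ h1)
    refine succ (𝔮' := 𝔭₀.comap Polynomial.constantCoeff) hp ?_ h0
      (pushT Polynomial.CAlgHom (fun a => by simp) h')
    rw [← he]
    refine lt_of_le_of_ne (fun P hP => Ideal.mem_map_C_iff.1 hP 0) fun h2 => ?_
    have h3 : (Polynomial.X : Polynomial R) ∈ 𝔭₀.map Polynomial.C := by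
      rw [h2]
      simp
    exact hp0.one_notMem (by simpa using Ideal.mem_map_C_iff.1 h3 1)
  · refine le_trans ?_ (Ideal.height_add_one_le_of_lt_of_isPrime hlt)
    rcases j with _ | j
    · simp
    have h2 := (h 𝔭₀ m j hp0 hπ0
      (fun h' => ht (pushT Polynomial.CAlgHom (fun _ => Iff.rfl) h')) (by omega)).trans h1
    rw [Nat.cast_add, Nat.cast_one]
    gcongr

lemma hb (hπ : Irreducible π) (n : ℕ) : Hb π (MvPolynomial (Fin n) O) n := by
  induction n with
  | zero =>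
    intro 𝔭 m j hp h0 ht hm
    rcases m with _ | m
    · exact absurd (zero hπ hp h0) ht
    obtain rfl : j = 0 := by omega
    have h1 : (⊥ : Ideal (MvPolynomial (Fin 0) O)) < 𝔭 := bot_lt_iff_ne_bot.2 fun h => by
      rw [h, Ideal.mem_bot, algebraMap_eq, C_eq_zero] at h0
      exact hπ.ne_zero h0
    exact le_add_self.trans (Ideal.height_add_one_le_of_lt_of_isPrime h1)
  | succ n ih => exact (ih.poly hπ).equiv (finSuccEquiv O n).symm

end

end TdA

theorem p_TD :
    S_TD where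
  mono := fun hq hm ⟨_, hz⟩ =>
    ⟨_, TdA.comp (fun F hF => hz F (hq hF)) (Fin.castLE hm) (Fin.castLE_injective hm)⟩
  card := fun h => ⟨_, TdA.comp h _ (Fintype.equivFin _).symm.injective⟩
  succ := TdA.succ
  exch := TdA.exch
  int := TdA.int
  ht := fun hπ hp =>
    (TdA.hb hπ _).equiv (renameEquiv _ (Fintype.equivFin _).symm) _ _ _ hp

end Pool.Agent.P.MP_e7d440_ag.Z
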