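import Pool.Agent.P.MP_e7d440_ag.Z.IfaceG

/-! Step VRT. -/

set_option autoImplicit false
set_option linter.unusedSectionVars false

namespace Pool.Agent.P.MP_e7d440_ag.Z

open Pool.Agent.P.MP_e7d440_ag.U TensorProduct LieAlgebra LaurentPolynomial Set

variable {L Φ Δ : Type} [LieRing L] [LieAlgebra ℚ L] [Fintype Φ] [Fintype Δ] [DecidableEq Φ]
  [DecidableEq Δ] (c : CD L Φ Δ) {K : Type} [Field K] [CharZero K] (ζ : K)
  {J : Type} [Fintype J] [DecidableEq J] (s : J → K)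

theorem p_VRT (h : T3 c ζ s) (hACT : S_ACT c ζ s) (hCELL : S_CELL c ζ s) (hBIG : S_BIG c ζ s) (hSLC : S_SLC c ζ s) (hRSD : S_RSD c ζ s) (hSLU : S_SLU c ζ s) :
    S_VRT c ζ s := by
  intro R V μ r X x hD hSD hs hUH hint hVD hCo hCl hSpn
  obtain ⟨x', z, n, a, y, hCr, hy, hRed, hTop⟩ := hCELL V μ r X x hVD hCo hCl
  obtain ⟨fx', hk, -, -⟩ := hACT.cr x x' z n a hCr
  have hun : ∀ y : Fin n → K, Un c ζ (c.pE ζ a y) x x' := fun y =>
    hACT.pE x x' n a y hCl fx' fun k => ⟨(hk k).2.1, (hk k).2.2.1⟩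
  obtain ⟨hB, hG⟩ := hBIG V (c.cell μ X) _ x x' hVD.sd hVD.small
    (fun j => (h.fd.cell μ X j (hCo.2.2.1 j)).1) hCl.1 fx' (hun y)
    (h.la.int_pf V.toSubring V a y 0 hVD.sd (SM.val V) hy) hRed
  have hGR := (sys_gn h.toT3a hB).of R V hD hSD hs hG hSpn
  obtain ⟨t, U', e, hB', hSl, hV⟩ := hSLC _ x x' z n a hB hCr
  have hV' : ∀ V' : ValuationSubring K, (∀ γ ∈ R, γ ∈ V') →
      (∀ k, t k ∈ V') ∧ Gn c ζ s U' x x' ⊆ V' := fun V' le =>
    hV V' ⟨le _ hSD.1, le _ hSD.2⟩ (uh_mono hUH le) (fun j => le _ (hs j))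
      fun γ hγ => le _ (hGR hγ)
  refine ⟨x', z, n, a, t, U', hCr, e, hB', hSl, fun k => hint _ fun V' le => (hV' V' le).1 k,
    fun γ hγ => hint _ fun V' le => (hV' V' le).2 hγ, ?_, fun S hS hsS hSV ht hGS => ?_,
    fun hn => ?_⟩
  · exact hRSD V U' x x' z n a y t hVD.sd (uh_mono hUH hD.le) (fun j => hD.le _ (hs j)) hCr hy
      (hV' V hD.le).1 (e ▸ hRed) hB' hSl (hV' V hD.le).2
  · refine (sys_gn h.toT3a hB).spn S V hS hsS hSV ?_
    rw [e]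
    exact hACT.gn _ U' x x' S (hun t) hB' hS hsS (h.la.int_pf S S a t 0 hS (SM.self S) ht) hGS
  · obtain ⟨lam, r', y', X', hCo', hGal, hn', e1, e2⟩ := hTop hn
    refine ⟨lam, r', X', hCo', hGal, hn', ?_, e2⟩
    have ne := h.pt.ne
    rw [h.la.act_pU s ne] at e1 ⊢
    obtain ⟨P, hP, p1, p2⟩ := h.la.ex_inv _ (h.la.pf a t 0)
    obtain ⟨Q, -, q1, q2⟩ := h.la.ex_inv _ (h.la.pf a y' 0)
    have aut : ∀ y : Fin n → K, c.Aut0 ζ 1 (c.pE ζ a y) c.ρ := fun y =>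
      h.la.aut_pf a y 0 _ c.fix_ρ fun k => (hk k).2.1
    have low : ∀ y : Fin n → K, c.Low ζ z (c.pE ζ a y) := fun y =>
      h.la.low_pf a y 0 _ hCr.reg.1 fun k => (hk k).2.2.2
    obtain ⟨w, hw⟩ := h.nf.nf2 z n c.ρ a (P * c.pE ζ a y') hCr.reg c.fix_ρ hCr.gal
      (h.la.mul _ _ hP (h.la.pf a y' 0))
      (h.la.aut_left _ _ _ _ (h.la.aut_inv _ _ _ (h.la.pf a t 0) p1 (aut t)) (aut y'))
      (h.la.low_mul _ _ _ (h.la.pf a y' 0) (h.la.low_inv _ _ _ (h.la.pf a t 0) p1 (low t))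
        (low y'))
    have e3 : U' = actE s (c.pE ζ a w) fun j => c.U1 K (lam j) := by
      rw [← h.la.act_ext s ne _ _ _ hw, h.la.act_mul s ne, ← e1, e, ← h.la.act_mul s ne, p2,
        h.la.act_one]
    have hB1 : Big c ζ s (fun j => c.U1 K (lam j)) x x' := by
      have := hACT.big Q _ x x' (hACT.inv _ Q x x' (hun y') q1) hB
      rwa [e1, ← h.la.act_mul s ne, q2, h.la.act_one] at this
    have w0 := hSLU.slu _ x x' z n a w hCr hB1 (hSLU.u1 lam x x' hCo'.2.2.1 hB1) (e3 ▸ hSl)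
    have e4 : c.pE ζ a w = 1 := h.ex.pf_ind _ 0 (· = 1) rfl
      (fun g g' hg hg' => by rw [hg, hg', mul_one]) fun i _ => by
        rw [w0 i, zero_smul]; exact h.ex.zero.2
    rw [e, e3, e4, h.la.act_one]

end Pool.Agent.P.MP_e7d440_ag.Z
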